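import Pool.Agent.P.MP_833f7a_lc.FewL

/-!
Tail quantifiers: filter properties, the algebra of measured relations, completeness.
-/

universe u v w

namespace Pool.Agent.P.MP_833f7a_lc

open Cardinal Ordinal Set

variable {A : Set Ordinal.{u}} {μ : Ordinal.{u}} {P Q : Ordinal.{u} → Prop} {n : ℕ}
  {R R' : List Ordinal.{u} → Prop}

theorem AE.mono (h : AE A μ P) (hPQ : ∀ η < μ, P η → Q η) : AE A μ Q := by
  obtain ⟨δ, hδ, h⟩ := h
  exact ⟨δ, hδ, fun η a b c => hPQ η c (h η a b c)⟩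

theorem AE.of_forall (hμ : 0 < μ) (h : ∀ η < μ, P η) : AE A μ P :=
  ⟨0, hμ, fun η _ _ c => h η c⟩

theorem AE.and (h : AE A μ P) (h' : AE A μ Q) : AE A μ fun η => P η ∧ Q η := by
  obtain ⟨δ, hδ, h⟩ := h
  obtain ⟨δ', hδ', h'⟩ := h'
  exact ⟨max δ δ', max_lt hδ hδ', fun η a b c =>
    ⟨h η a ((le_max_left _ _).trans b) c, h' η a ((le_max_right _ _).trans b) c⟩⟩

theorem AE.exists (hu : Unb A μ) (h : AE A μ P) : ∃ η ∈ A, η < μ ∧ P η := by
  obtain ⟨δ, hδ, h⟩ := h
  obtain ⟨η, a, b, c⟩ := hu δ hδ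
  exact ⟨η, a, c, h η a b c⟩

theorem AE.not_not (hu : Unb A μ) (h : AE A μ P) : ¬ AE A μ fun η => ¬ P η := by
  intro h'
  obtain ⟨η, _, _, a, b⟩ := (h.and h').exists hu
  exact b a

theorem ae_gt (hμ : Reg μ) {δ : Ordinal.{u}} (hδ : δ < μ) : AE A μ fun η => δ < η :=
  ⟨δ + 1, hμ.succ_lt hδ, fun _ _ h _ => (lt_add_one δ).trans_le h⟩

theorem ae_all (hμ : Reg μ) {J : Type v} (hJ : Few μ J) {P : J → Ordinal.{u} → Prop}
    (h : ∀ j, AE A μ (P j)) : AE A μ fun η => ∀ j, P j η := by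
  choose δ hδ h using h
  obtain ⟨ε, hε, hb⟩ := hJ.bdd hμ δ hδ
  exact ⟨ε, hε, fun η a b c j => h j η a ((hb j).le.trans b) c⟩

theorem ae_all_lt (hμ : Reg μ) {δ : Ordinal.{u}} (hδ : δ < μ)
    {P : Ordinal.{u} → Ordinal.{u} → Prop} (h : ∀ j < δ, AE A μ (P j)) :
    AE A μ fun η => ∀ j < δ, P j η :=
  (ae_all hμ (few_Iio hμ hδ) (P := fun j : Iio δ => P j.1) fun j => h j.1 j.2).mono
      fun _ _ hh j hj => hh ⟨j, hj⟩

theorem ae_inter_Iio {γ : Ordinal.{u}} (h : μ ≤ γ) : AE (A ∩ Iio γ) μ P ↔ AE A μ P := by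
  constructor
  · rintro ⟨δ, hδ, h'⟩
    exact ⟨δ, hδ, fun η a b c => h' η ⟨a, c.trans_le h⟩ b c⟩
  · rintro ⟨δ, hδ, h'⟩
    exact ⟨δ, hδ, fun η a b c => h' η a.1 b c⟩

theorem fs_tailF {S : Set Ordinal.{u}} (h : ∀ μ ∈ S, Unb A μ) : FS (tailF S A) := by
  refine ⟨fun μ X Y hX hXY => ⟨hX.1, hX.2.mono fun _ _ hη => hXY hη⟩, fun μ X Y hX hY => ?_⟩
  obtain ⟨η, _, b, c⟩ := (hX.2.and hY.2).exists (h μ hX.1)
  exact ⟨η, b, c⟩

theorem tailF_iff {S : Set Ordinal.{u}} (h : μ ∈ S) :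
    tailF S A μ {η | η < μ ∧ P η} ↔ AE A μ P :=
  ⟨fun hh => hh.2.mono fun _ _ a => a.2, fun hh => ⟨h, hh.mono fun _ a b => ⟨a, b⟩⟩⟩

theorem dom_tailF {S : Set Ordinal.{u}} (h : 0 < μ) : dom (tailF S A) μ ↔ μ ∈ S :=
  ⟨fun hh => hh.1, fun hh => ⟨hh, AE.of_forall h fun _ a => a⟩⟩

theorem AE1_dom_nil : Dom μ 0 [] := ⟨rfl, by simp⟩

theorem dom_cons {z : Ordinal.{u}} {l : List Ordinal.{u}} :
    Dom μ (n + 1) (z :: l) ↔ z < μ ∧ Dom μ n l := by
  simp only [Dom, List.length_cons, Nat.add_right_cancel_iff, List.forall_mem_cons]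
  tauto

theorem Dom.append {m : ℕ} {l l' : List Ordinal.{u}} (h : Dom μ n l) (h' : Dom μ m l') :
    Dom μ (n + m) (l ++ l') := by
  refine ⟨by rw [List.length_append, h.1, h'.1], fun z hz => ?_⟩
  rcases List.mem_append.1 hz with a | a
  · exact h.2 z a
  · exact h'.2 z a

theorem AEn.mono (h : AEn A μ n R) (hR : ∀ l, Dom μ n l → R l → R' l) : AEn A μ n R' := by
  induction n generalizing R R' with
  | zero => exact hR [] AE1_dom_nil h
  | succ n ih =>
    exact AE.mono h fun z hz hh => ih hh fun l hl => hR (z :: l) (dom_cons.2 ⟨hz, hl⟩)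

theorem AEn.of_forall (hμ : 0 < μ) (h : ∀ l, Dom μ n l → R l) : AEn A μ n R := by
  induction n generalizing R with
  | zero => exact h [] AE1_dom_nil
  | succ n ih =>
    exact AE.of_forall hμ fun z hz => ih fun l hl => h (z :: l) (dom_cons.2 ⟨hz, hl⟩)

theorem AEn.and (h : AEn A μ n R) (h' : AEn A μ n R') : AEn A μ n fun l => R l ∧ R' l := by
  induction n generalizing R R' with
  | zero => exact ⟨h, h'⟩
  | succ n ih => exact (AE.and h h').mono fun z _ hh => ih hh.1 hh.2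

theorem AEn.exists (hu : Unb A μ) (h : AEn A μ n R) : ∃ l, Dom μ n l ∧ R l := by
  induction n generalizing R with
  | zero => exact ⟨[], AE1_dom_nil, h⟩
  | succ n ih =>
    obtain ⟨z, _, hz, hh⟩ := AE.exists hu h
    obtain ⟨l, hl, hR⟩ := ih hh
    exact ⟨z :: l, dom_cons.2 ⟨hz, hl⟩, hR⟩

theorem AEn.not_not (hu : Unb A μ) (h : AEn A μ n R) : ¬ AEn A μ n fun l => ¬ R l := by
  intro h'
  obtain ⟨l, _, a, b⟩ := (h.and h').exists hu
  exact b a

theorem aen_congr (h : ∀ l, Dom μ n l → (R l ↔ R' l)) : AEn A μ n R ↔ AEn A μ n R' :=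
  ⟨fun hh => hh.mono fun l hl => (h l hl).1, fun hh => hh.mono fun l hl => (h l hl).2⟩

theorem aen_all (hμ : Reg μ) {J : Type v} (hJ : Few μ J) {R : J → List Ordinal.{u} → Prop}
    (h : ∀ j, AEn A μ n (R j)) : AEn A μ n fun l => ∀ j, R j l := by
  induction n generalizing R with
  | zero => exact h
  | succ n ih =>
    exact (ae_all hμ hJ (P := fun j z => AEn A μ n fun l => R j (z :: l)) h).mono
      fun z _ hh => ih hh

theorem aen_append {m : ℕ} :
    AEn A μ (n + m) R ↔ AEn A μ n fun l => AEn A μ m fun l' => R (l ++ l') := by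
  induction n generalizing R with
  | zero => rw [Nat.zero_add]; exact Iff.rfl
  | succ n ih =>
    rw [Nat.add_right_comm]
    exact ⟨fun h => AE.mono h fun z _ hh => ih.1 hh, fun h => AE.mono h fun z _ hh => ih.2 hh⟩

theorem aen_one : AEn A μ 1 R ↔ AE A μ fun z => R [z] := Iff.rfl

theorem Mn.congr (h : Mn A μ n R) (hR : ∀ l, Dom μ n l → (R l ↔ R' l)) : Mn A μ n R' := by
  induction n generalizing R R' with
  | zero => trivial
  | succ n ih =>
    have k : ∀ z < μ, ∀ l, Dom μ n l → (R (z :: l) ↔ R' (z :: l)) :=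
      fun z hz l hl => hR (z :: l) (dom_cons.2 ⟨hz, hl⟩)
    exact ⟨fun z hz => ih (h.1 z hz) (k z hz), h.2.imp
      (fun hh => hh.mono fun z hz a => (aen_congr (k z hz)).1 a)
      (fun hh => hh.mono fun z hz a b => a ((aen_congr (k z hz)).2 b))⟩

theorem Mn.dec (h : Mn A μ n R) : AEn A μ n R ∨ AEn A μ n fun l => ¬ R l := by
  induction n generalizing R with
  | zero => exact em _
  | succ n ih =>
    exact h.2.imp id fun hh => hh.mono fun z hz a => (ih (h.1 z hz)).resolve_left a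

theorem mn_const (hμ : Reg μ) (hu : Unb A μ) (p : Prop) : Mn A μ n fun _ => p := by
  induction n with
  | zero => trivial
  | succ n ih =>
    refine ⟨fun _ _ => ih, ?_⟩
    by_cases hp : p
    · exact Or.inl (AE.of_forall hμ.pos fun _ _ => AEn.of_forall hμ.pos fun _ _ => hp)
    · exact Or.inr (AE.of_forall hμ.pos fun _ _ hh => hp (hh.exists hu).choose_spec.2)

theorem Mn.not (hμ : Reg μ) (hu : Unb A μ) (h : Mn A μ n R) : Mn A μ n fun l => ¬ R l := by
  induction n generalizing R with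
  | zero => trivial
  | succ n ih =>
    refine ⟨fun z hz => ih (h.1 z hz), ?_⟩
    rcases h.2 with hh | hh
    · exact Or.inr (hh.mono fun z _ a => a.not_not hu)
    · exact Or.inl (hh.mono fun z hz a => (h.1 z hz).dec.resolve_left a)

theorem Mn.and (hμ : Reg μ) (hu : Unb A μ) (h : Mn A μ n R) (h' : Mn A μ n R') :
    Mn A μ n fun l => R l ∧ R' l := by
  induction n generalizing R R' with
  | zero => trivial
  | succ n ih =>
    refine ⟨fun z hz => ih (h.1 z hz) (h'.1 z hz), ?_⟩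
    rcases h.2 with a | a
    · rcases h'.2 with b | b
      · exact Or.inl ((a.and b).mono fun z _ c => c.1.and c.2)
      · exact Or.inr (b.mono fun z _ c d => c (d.mono fun _ _ e => e.2))
    · exact Or.inr (a.mono fun z _ c d => c (d.mono fun _ _ e => e.1))

theorem Mn.or (hμ : Reg μ) (hu : Unb A μ) (h : Mn A μ n R) (h' : Mn A μ n R') :
    Mn A μ n fun l => R l ∨ R' l :=
  (((h.not hμ hu).and hμ hu (h'.not hμ hu)).not hμ hu).congr fun _ _ => by tauto

theorem mn_all (hμ : Reg μ) (hu : Unb A μ) {J : Type v} (hJ : Few μ J)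
    {R : J → List Ordinal.{u} → Prop} (h : ∀ j, Mn A μ n (R j)) :
    Mn A μ n fun l => ∀ j, R j l := by
  induction n generalizing R with
  | zero => trivial
  | succ n ih =>
    refine ⟨fun z hz => ih fun j => (h j).1 z hz, ?_⟩
    by_cases hc : ∀ j, AE A μ fun z => AEn A μ n fun l => R j (z :: l)
    · exact Or.inl ((ae_all hμ hJ hc).mono fun z _ a => aen_all hμ hJ a)
    · obtain ⟨j, hj⟩ := not_forall.1 hc
      exact Or.inr (((h j).2.resolve_left hj).mono fun z _ c d => c (d.mono fun _ _ e => e j))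

theorem mn_ex (hμ : Reg μ) (hu : Unb A μ) {J : Type v} (hJ : Few μ J)
    {R : J → List Ordinal.{u} → Prop} (h : ∀ j, Mn A μ n (R j)) :
    Mn A μ n fun l => ∃ j, R j l :=
  ((mn_all hμ hu hJ fun j => (h j).not hμ hu).not hμ hu).congr fun _ _ => by simp

/-- Completeness of the ultrafilter. -/
theorem aen_ex (hμ : Reg μ) (hu : Unb A μ) {J : Type v} (hJ : Few μ J)
    {R : J → List Ordinal.{u} → Prop} (h : ∀ j, Mn A μ n (R j))
    (hex : AEn A μ n fun l => ∃ j, R j l) : ∃ j, AEn A μ n (R j) := by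
  by_contra hc
  have h1 := aen_all hμ hJ (R := fun j l => ¬ R j l)
    fun j => (h j).dec.resolve_left fun a => hc ⟨j, a⟩
  obtain ⟨l, _, ⟨j, a⟩, b⟩ := (hex.and h1).exists hu
  exact b j a

theorem Mn.section {m : ℕ} (h : Mn A μ (n + m) R) {l : List Ordinal.{u}} (hl : Dom μ n l) :
    Mn A μ m fun l' => R (l ++ l') := by
  induction n generalizing R l with
  | zero =>
    obtain rfl := List.length_eq_zero_iff.1 hl.1
    rw [Nat.zero_add] at h
    exact h
  | succ n ih =>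
    cases l with
    | nil => exact absurd hl.1 (by simp)
    | cons z l =>
      rw [Nat.add_right_comm] at h
      exact ih (h.1 z (dom_cons.1 hl).1) (dom_cons.1 hl).2

theorem Mn.dec1 (h : Mn A μ 1 R) : AE A μ (fun z => R [z]) ∨ AE A μ fun z => ¬ R [z] :=
  h.2

end Pool.Agent.P.MP_833f7a_lc
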