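import Pool.Agent.P.MP_833f7a_lc.AE1
import Mathlib.Data.Prod.Lex

/-!
Good functions: pieces, dummy variables, generic sequences.
-/

universe u v w

namespace Pool.Agent.P.MP_833f7a_lc

open Cardinal Ordinal Set Code

variable {A : Set Ordinal.{u}} {μ : Ordinal.{u}} {N : ℕ}
  {V V' : List Ordinal.{u} → Ordinal.{u} → Prop} {G G' : List Ordinal.{u} → Code.{u}}

theorem GoodR.of_imp (h : GoodR A μ N V') (h1 : ∀ l, Dom μ N l → (V l 1 ↔ V' l 1))
    (h2 : ∀ l, Dom μ N l → ∀ z < μ, V l z → V' l z) : GoodR A μ N V := by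
  obtain ⟨hm, z0, hz⟩ := h
  exact ⟨hm.congr fun l hl => (h1 l hl).symm, z0,
    hz.mono fun l hl h z hz hv => h z hz (h2 l hl z hz hv)⟩
theorem GoodR.congr (hμ : 1 < μ) (h : GoodR A μ N V)
    (h1 : ∀ l, Dom μ N l → ∀ z < μ, (V l z ↔ V' l z)) : GoodR A μ N V' :=
  h.of_imp (fun l hl => (h1 l hl 1 hμ).symm) fun l hl z hz => (h1 l hl z hz).2
theorem GoodF.congr (h : GoodF A μ N G) (h1 : ∀ l, Dom μ N l → G l = G' l) : GoodF A μ N G' :=
  GoodR.of_imp h (fun l hl => by rw [h1 l hl]) fun l hl _ _ hv => (h1 l hl).trans hv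
theorem GoodF.mn (h : GoodF A μ N G) : Mn A μ N fun l => G l = tt := h.1
theorem goodF_const (hμ : Reg μ) (hu : Unb A μ) (x : Code.{u}) : GoodF A μ N fun _ => x :=
  ⟨mn_const hμ hu _, x.lv, AEn.of_forall hμ.pos fun _ _ _ _ e _ => (congrArg Code.lv e).symm⟩
theorem goodF_zero : GoodF A μ 0 G :=
  ⟨trivial, (G []).lv, fun _ _ e _ => (congrArg Code.lv e).symm⟩
/-- The piece lemma, relational form. -/
theorem goodR_pieces (hμ : Reg μ) (hu : Unb A μ) {J : Type v} (hJ : Few μ J)
    {P : J → List Ordinal.{u} → Prop} {W : J → List Ordinal.{u} → Ordinal.{u} → Prop}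
    (hP : ∀ j, Mn A μ N (P j)) (hW : ∀ j, GoodR A μ N (W j))
    (hcov : ∀ l, Dom μ N l → ∃ j, P j l)
    (h1 : ∀ j l, Dom μ N l → P j l → (V l 1 ↔ W j l 1))
    (h2 : ∀ j l, Dom μ N l → P j l → ∀ z < μ, V l z → W j l z) : GoodR A μ N V := by
  refine ⟨(mn_ex hμ hu hJ fun j => (hP j).and hμ hu (hW j).1).congr fun l hl =>
    ⟨fun ⟨j, hj, hw⟩ => (h1 j l hl hj).2 hw, fun hv => ?_⟩, ?_⟩
  · obtain ⟨j, hj⟩ := hcov l hl
    exact ⟨j, hj, (h1 j l hl hj).1 hv⟩
  · obtain ⟨j, hj⟩ := aen_ex hμ hu hJ hP (AEn.of_forall hμ.pos hcov)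
    obtain ⟨z0, hz⟩ := (hW j).2
    exact ⟨z0, (hj.and hz).mono fun l hl h z hz hv => h.2 z hz (h2 j l hl h.1 z hz hv)⟩
/-- The piece lemma. -/
theorem goodF_pieces (hμ : Reg μ) (hu : Unb A μ) {J : Type v} (hJ : Few μ J)
    {P : J → List Ordinal.{u} → Prop} {H : J → List Ordinal.{u} → Code.{u}}
    (hP : ∀ j, Mn A μ N (P j)) (hH : ∀ j, GoodF A μ N (H j))
    (hcov : ∀ l, Dom μ N l → ∃ j, P j l)
    (h1 : ∀ j l, Dom μ N l → P j l → G l = H j l) : GoodF A μ N G :=
  goodR_pieces hμ hu hJ hP hH hcov (fun j l hl hj => by rw [h1 j l hl hj])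
    fun j l hl hj _ _ hv => (h1 j l hl hj).symm.trans hv

theorem AE2_mn_aen {m : ℕ} (N : ℕ) : ∀ {R2 : List Ordinal.{u} → Prop}, Mn A μ (N + m) R2 →
    Mn A μ N fun l => AEn A μ m fun l' => R2 (l ++ l') := by
  induction N with
  | zero => intro _ _; trivial
  | succ N ih =>
    intro R2 h
    rw [Nat.add_right_comm] at h
    obtain ⟨h1, h2⟩ := h
    refine ⟨fun z hz => ih (h1 z hz), h2.imp (fun h => h.mono fun z _ h => ?_)
      fun h => h.mono fun z _ h h' => h ?_⟩
    · exact aen_append.1 h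
    · exact aen_append.2 h'

/-- Removing dummy variables at the end. -/
theorem mn_of_ext (hμ : Reg μ) (hu : Unb A μ) {m : ℕ} {R R2 : List Ordinal.{u} → Prop}
    (h : Mn A μ (N + m) R2) (h1 : ∀ l, Dom μ N l → AEn A μ m fun l' => (R2 (l ++ l') ↔ R l)) :
    Mn A μ N R ∧ (AEn A μ N R ↔ AEn A μ (N + m) R2) := by
  have _ := hμ
  have key : ∀ l, Dom μ N l → ((AEn A μ m fun l' => R2 (l ++ l')) ↔ R l) := fun l hl =>
    ⟨fun h2 => by
      obtain ⟨l', -, h3, h4⟩ := (h2.and (h1 l hl)).exists hu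
      exact h4.1 h3, fun h2 => (h1 l hl).mono fun l' _ h3 => h3.2 h2⟩
  exact ⟨(AE2_mn_aen N h).congr key, ((aen_append.trans (aen_congr key))).symm⟩
theorem goodF_of_ext (hμ : Reg μ) (hu : Unb A μ) {m : ℕ} {G2 : List Ordinal.{u} → Code.{u}}
    (h : GoodF A μ (N + m) G2) (h1 : ∀ l, Dom μ N l → AEn A μ m fun l' => G2 (l ++ l') = G l) :
    GoodF A μ N G := by
  cases N with
  | zero => exact goodF_zero
  | succ N =>
    obtain ⟨hm, z0, hz⟩ := h
    refine ⟨(mn_of_ext hμ hu hm fun l hl => (h1 l hl).mono fun l' _ e => by simp only [e]).1, z0,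
      (aen_append.1 hz).mono fun l hl h2 z hz hv hh => ?_⟩
    obtain ⟨l', -, h3, h4⟩ := (h2.and (h1 l hl)).exists hu
    cases l with
    | nil => exact absurd hl.1 (by simp)
    | cons a l => exact h3 z hz (h4.trans hv) hh
/-- One variable: a regressive good function is almost constant. -/
theorem GoodF.normal1 (hu : Unb A μ) (h : GoodF A μ 1 G)
    (hr : AE A μ fun η => ∃ z < η, G [η] = od z) : ∃ z0, AE A μ fun η => G [η] = od z0 := by
  have _ := hu
  obtain ⟨z0, hz⟩ := h.2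
  refine ⟨z0, ((aen_one.1 hz).and hr).mono fun η hη ⟨h1, z, h2, h3⟩ => ?_⟩
  rw [← h1 z (h2.trans hη) h3 fun a ha => by
    obtain rfl : η = a := by simpa using ha
    exact h2]
  exact h3
/-- Two variables: a function with a measured equality relation. -/
theorem two_point (hμ : Reg μ) (hu : Unb A μ) {α : Type v} {g : Ordinal.{u} → α}
    (h : Mn A μ 2 fun l => g (l.getD 0 0) = g (l.getD 1 0)) :
    (∃ v, AE A μ fun z => g z = v) ∨
      (¬ ∃ v, AE A μ fun z => g z = v) ∧ AE A μ fun z => AE A μ fun z' => g z ≠ g z' := by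
  have _ := hu
  by_cases hv : ∃ v, AE A μ fun z => g z = v
  · exact Or.inl hv
  refine Or.inr ⟨hv, AE.of_forall hμ.pos fun z hz => ?_⟩
  rcases Mn.dec1 (h.1 z hz) with h1 | h1
  · exact absurd ⟨g z, h1.mono fun _ _ e => Eq.symm e⟩ hv
  · exact h1

/-- Recursion along a well-founded relation with choices. -/
theorem AE2_rec {ι : Type v} {β : Type w} {r : ι → ι → Prop} (wf : WellFounded r) (d : β)
    (Q : (ι → β) → ι → β → Prop) (hex : ∀ e a, ∃ z, Q e a z)
    (hloc : ∀ e e' a z, (∀ a', r a' a → e a' = e' a') → Q e a z → Q e' a z) :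
    ∃ e : ι → β, ∀ a, Q e a (e a) := by
  classical
  choose f hf using hex
  refine ⟨wf.fix fun a g => f (fun b => if h : r b a then g b h else d) a, fun a => ?_⟩
  rw [wf.fix_eq]
  exact hloc _ _ a _ (fun a' h => dif_pos h) (hf _ a)

/-- A sequence of length `ω₁` all of whose increasing tuples lie in few given large sets. -/
theorem exists_gen_seq (hμ : Reg μ) (hu : Unb A μ) (h1 : ω₁ < μ) {J : Type v} (hJ : Few μ J)
    (n : J → ℕ) (R : J → List Ordinal.{u} → Prop) (hR : ∀ j, AEn A μ (n j) (R j)) :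
    ∃ c : Ordinal.{u} → Ordinal.{u}, StrictMonoOn c (Iio ω₁) ∧ (∀ i, c i < μ) ∧
      ∀ j (is : List Ordinal.{u}), is.Pairwise (· < ·) → (∀ i ∈ is, i < ω₁) →
        is.length = n j → R j (is.map c) := by
  obtain ⟨c, hc⟩ := AE2_rec (wellFounded_lt (α := Ordinal.{u})) (0 : Ordinal.{u})
    (fun c η z => z < μ ∧ (η < ω₁ → (∀ η' < η, c η' < μ → c η' < z) ∧
      ∀ (j : J) (is : List Ordinal.{u}), (∀ i ∈ is, i < η) → ∀ k : ℕ,
        AEn A μ (k + 1) (fun l => R j (is.map c ++ l)) →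
        AEn A μ k fun l => R j (is.map c ++ z :: l)))
    (fun c η => by
      by_cases hη : η < ω₁
      · have h2 : AE A μ fun z => ∀ η' < η, c η' < μ → c η' < z :=
          ae_all_lt hμ (hη.trans h1) fun η' _ => by
            by_cases h : c η' < μ
            · exact (ae_gt hμ h).mono fun _ _ h _ => h
            · exact AE.of_forall hμ.pos fun _ _ h' => absurd h' h
        have h3 : AE A μ fun z => ∀ (j : J) (is : {l : List Ordinal.{u} | ∀ x ∈ l, x ∈ Iio η})
            (k : ℕ), AEn A μ (k + 1) (fun l => R j (is.1.map c ++ l)) →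
              AEn A μ k fun l => R j (is.1.map c ++ z :: l) :=
          ae_all hμ hJ fun j => ae_all hμ (Few.lists hμ (few_Iio hμ (hη.trans h1))) fun is =>
            ae_all hμ (few_countable hμ ℕ) fun k => by
              by_cases h : AEn A μ (k + 1) fun l => R j (is.1.map c ++ l)
              · exact AE.mono h fun _ _ h _ => h
              · exact AE.of_forall hμ.pos fun _ _ h' => absurd h' h
        obtain ⟨z, -, hz, h4, h5⟩ := (h2.and h3).exists hu
        exact ⟨z, hz, fun _ => ⟨h4, fun j is his => h5 j ⟨is, his⟩⟩⟩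
      · exact ⟨0, hμ.pos, fun h => absurd h hη⟩)
    (fun c c' η z hcc h => ⟨h.1, fun hη => ⟨fun η' h' => hcc η' h' ▸ (h.2 hη).1 η' h',
      fun j is his => by
        rw [← List.map_congr_left fun i hi => hcc i (his i hi)]
        exact (h.2 hη).2 j is his⟩⟩)
  refine ⟨c, fun a _ b hb hab => ((hc b).2 hb).1 a hab (hc a).1, fun i => (hc i).1,
    fun j is hp hlt hlen => ?_⟩
  have key : ∀ is : List Ordinal.{u}, is.Pairwise (· < ·) → (∀ i ∈ is, i < ω₁) → ∀ k,
      is.length + k = n j → AEn A μ k fun l => R j (is.map c ++ l) := by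
    intro is
    induction is using List.reverseRecOn with
    | nil =>
      intro _ _ k hk
      obtain rfl : k = n j := by simpa using hk
      exact hR j
    | append_singleton is η ih =>
      intro hp hlt k hk
      rw [List.pairwise_append] at hp
      have h2 := ((hc η).2 (hlt η (by simp))).2 j is
        (fun i hi => hp.2.2 i hi η (by simp)) k
        (ih hp.1 (fun i hi => hlt i (by simp [hi])) (k + 1) (by
          rw [List.length_append, List.length_singleton] at hk
          omega))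
      simpa only [List.map_append, List.map_singleton, List.append_assoc,
        List.singleton_append] using h2
  have h2 : R j (is.map c ++ []) := key is hp hlt 0 hlen
  rwa [List.append_nil] at h2

/-- Lexicographic recursion: a choice that depends only on the earlier choices. -/
theorem exists_lex_rec (Q : (Ordinal.{u} → Ordinal.{u} → Ordinal.{u}) →
      Ordinal.{u} → Ordinal.{u} → Ordinal.{u} → Prop)
    (hex : ∀ e a η, ∃ z, Q e a η z)
    (hloc : ∀ e e' a η z, (∀ a' η', a' < a ∨ a' = a ∧ η' < η → e a' η' = e' a' η') →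
      Q e a η z → Q e' a η z) :
    ∃ e : Ordinal.{u} → Ordinal.{u} → Ordinal.{u}, ∀ a η, Q e a η (e a η) := by
  obtain ⟨e, he⟩ := AE2_rec
    (WellFounded.prod_lex (wellFounded_lt (α := Ordinal.{u})) (wellFounded_lt (α := Ordinal.{u})))
    (0 : Ordinal.{u}) (fun e p z => Q (fun a η => e (a, η)) p.1 p.2 z) (fun e p => hex _ p.1 p.2)
    fun e e' p z h => hloc _ _ p.1 p.2 z fun a' η' h' => h (a', η') (Prod.lex_def.2 h')
  exact ⟨fun a η => e (a, η), fun a η => he (a, η)⟩

end Pool.Agent.P.MP_833f7a_lc
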