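import Pool.Agent.P.MP_833f7a_lc.Trans
import Pool.Agent.P.MP_833f7a_lc.AE2
import Mathlib.Order.OrderIsoNat

/-!
Amenability: limits of a good theory along the homogeneous set.
-/

universe u v w

namespace Pool.Agent.P.MP_833f7a_lc

open Cardinal Ordinal Set Code Nm

variable {A : Set Ordinal.{u}} {lam : Ordinal.{u}} {c : Cls.{u}} {T : Set (Nm.{u} Ordinal.{u})}

theorem Amen_sb_cst (j : ℕ) (z ξ : Ordinal.{u}) :
    (cst ξ : Nm.{u} Ordinal.{u}).sb j z = cst ξ := by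
  simp [Nm.sb, Nm.lmap]

theorem Amen_sb_op2 (j : ℕ) (z : Ordinal.{u}) (o : Op) (ν ν' : Nm.{u} Ordinal.{u}) :
    (op2 o ν ν').sb j z = op2 o (ν.sb j z) (ν'.sb j z) := rfl

theorem Amen_sb_opc (j : ℕ) (z ξ : Ordinal.{u}) (o : Op) (ν : Nm.{u} Ordinal.{u}) :
    (op2 o ν (cst ξ)).sb j z = op2 o (ν.sb j z) (cst ξ) := by
  rw [Amen_sb_op2, Amen_sb_cst]

theorem Amen_subL_opc (r : ℕ) (l : List Ordinal.{u}) (ξ : Ordinal.{u}) (o : Op)
    (ν : Nm.{u} Ordinal.{u}) :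
    subL r l (op2 o ν (cst ξ)) = op2 o (subL r l ν) (cst ξ) := by
  induction l generalizing ν with
  | nil => rfl
  | cons z l ih => simp only [subL]; rw [Amen_sb_opc, ih]

theorem Amen_cs_sb (j : ℕ) (z : Ordinal.{u}) (ν : Nm.{u} Ordinal.{u}) :
    ∀ ξ ∈ ν.cs, ξ ∈ (ν.sb j z).cs := by
  induction ν with
  | lf x =>
    rcases x with a | i
    · intro ξ h
      have := Amen_sb_cst j z a
      rw [show (lf (Sum.inl a) : Nm.{u} Ordinal.{u}) = cst a from rfl, this]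
      exact h
    · intro ξ h; simp [Nm.cs] at h
  | b η => intro ξ h; simp [Nm.cs] at h
  | u η g ih => intro ξ h; exact ih ξ h
  | app t ν ih => intro ξ h; exact ih ξ h
  | cons ν ν' ih ih' =>
    intro ξ h
    change ξ ∈ ν.cs ++ ν'.cs at h
    change ξ ∈ (ν.sb j z).cs ++ (ν'.sb j z).cs
    rcases List.mem_append.1 h with h | h
    · exact List.mem_append.2 (Or.inl (ih ξ h))
    · exact List.mem_append.2 (Or.inr (ih' ξ h))

theorem Amen_ok_of_sb {k : ℕ} {fl : Prop} {C I : Set Ordinal.{u}} {j : ℕ} {z : Ordinal.{u}}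
    {ν : Nm.{u} Ordinal.{u}} (h : (ν.sb j z).Ok k fl C I) : ν.Ok k fl C I := by
  refine ⟨?_, fun ξ hξ => h.2.1 ξ (Amen_cs_sb j z ν ξ hξ), ?_⟩
  · exact (Nm.wf_lmap _).1 h.1
  · have := h.2.2
    rwa [Nm.sb, Nm.idx_lmap] at this

/-- A realisation that sees a given name. -/
theorem Amen_real (hT : Good c lam T) {ν : Nm.{u} Ordinal.{u}}
    (hν : ν.Ok c.k c.fl (Iio lam) (Iio ω₁)) :
    ∃ (R : Str.{u} Ordinal.{u}) (C : Set Ordinal.{u}), Real c R C (Iio ω₁) ∧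
      ν.Ok c.k c.fl C (Iio ω₁) ∧
      ∀ ν' : Nm.{u} Ordinal.{u}, ν'.Ok c.k c.fl C (Iio ω₁) → (ν' ∈ T ↔ R.Tr ν') := by
  classical
  obtain ⟨R, h1, h2⟩ := hT.fin ν.cs.toFinset (fun ξ hξ => hν.2.1 ξ (List.mem_toFinset.1 hξ))
  refine ⟨R, _, h1, ⟨hν.1, fun ξ hξ => Or.inr ?_, hν.2.2⟩, h2⟩
  exact Finset.mem_coe.2 (List.mem_toFinset.2 hξ)

theorem Amen_uniq (hT : Good c lam T) {ν : Nm.{u} Ordinal.{u}} {a a' : Ordinal.{u}}
    (h : eqN ν (cst a) ∈ T) (h' : eqN ν (cst a') ∈ T) : a = a' := by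
  have ho := hT.ok _ h
  have ho' := hT.ok _ h'
  obtain ⟨R, C, hR, hok, htr⟩ := Amen_real hT (ok_cons.2 ⟨ho, ho'⟩)
  obtain ⟨h1, h2⟩ := ok_cons.1 hok
  have e1 := tr_eqN.1 ((htr _ h1).1 h)
  have e2 := tr_eqN.1 ((htr _ h2).1 h')
  have ha : a ∈ C := ok_cst.1 (ok_cons.1 (ok_op.1 h1)).2
  have ha' : a' ∈ C := ok_cst.1 (ok_cons.1 (ok_op.1 h2)).2
  have e : R.cv a = R.cv a' := by
    have := e1.symm.trans e2
    simpa using this
  exact hR.cmono.injOn ha ha' e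

theorem Amen_one_lt (hv : c.Valid lam) : 1 < c.γ :=
  lt_of_lt_of_le reg_omega1.one_lt hv.1

theorem Amen_one (hv : c.Valid lam) (hT : Good c lam T) {ν : Nm.{u} Ordinal.{u}}
    (hν : ν.Ok c.k c.fl (Iio lam) (Iio ω₁)) : ν ∈ T ↔ eqN ν (cst 1) ∈ T := by
  obtain ⟨R, C, hR, hok, htr⟩ := Amen_real hT hν
  have h1 : (1 : Ordinal.{u}) ∈ C := hR.sub (Amen_one_lt hv)
  have h2 : (eqN ν (cst 1)).Ok c.k c.fl C (Iio ω₁) := ok_op.2 (ok_cons.2 ⟨hok, ok_cst.2 h1⟩)
  rw [htr _ hok, htr _ h2, tr_eqN, den_cst, hR.cid 1 (Amen_one_lt hv)]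
  rfl

theorem Amen_fo_some (hT : Good c lam T) {ν : Nm.{u} Ordinal.{u}} {j : ℕ} {z a : Ordinal.{u}} :
    fo T ν j z = some a ↔ a < z ∧ eqN (ν.sb j z) (cst a) ∈ T := by
  unfold fo
  constructor
  · intro h
    split_ifs at h with hex
    have hne : {z' | z' < z ∧ eqN (ν.sb j z) (cst z') ∈ T}.Nonempty := hex
    have := csInf_mem hne
    rw [Option.some.inj h] at this
    exact this
  · intro h
    have hex : ∃ z' < z, eqN (ν.sb j z) (cst z') ∈ T := ⟨a, h⟩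
    rw [if_pos hex]
    have hne : {z' | z' < z ∧ eqN (ν.sb j z) (cst z') ∈ T}.Nonempty := hex
    exact congrArg some (Amen_uniq hT (csInf_mem hne).2 h.2)

theorem PP.dec (hl : Reg lam) (hP : PP A lam) (hv : c.Valid lam) (hT : Good c lam T)
    {ν : Nm.{u} Ordinal.{u}} (hν : ν.Ok c.k c.fl (Iio lam) (Iio ω₁)) (j : ℕ) :
    AE A lam (fun z => ν.sb j z ∈ T) ∨ AE A lam fun z => ν.sb j z ∉ T := by
  obtain ⟨v, hv'⟩ := hP c hv T hT ν hν j
  have key : AE A lam fun z => (ν.sb j z ∈ T ↔ v = some 1) := by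
    refine (hv'.and (ae_gt hl hl.one_lt)).mono fun z hz h => ?_
    rw [Amen_one hv hT (hν.sb j hz), ← h.1, Amen_fo_some hT]
    exact ⟨fun h' => ⟨h.2, h'⟩, fun h' => h'.2⟩
  by_cases h1 : v = some 1
  · exact Or.inl (key.mono fun z _ h => h.2 h1)
  · exact Or.inr (key.mono fun z _ h h' => h1 (h.1 h'))

theorem good_amen (hl : Reg lam) (hA : Unb A lam) (hP : PP A lam) (hv : c.Valid lam)
    (hT : Good c lam T) {j : ℕ} (hj : c.r ≤ j) (hj1 : 1 ≤ j) :
    Good { c with r := j + 1 } lam {ν | AE A lam fun z => ν.sb j z ∈ T} := by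
  classical
  have hok : ∀ ν : Nm.{u} Ordinal.{u}, (AE A lam fun z => ν.sb j z ∈ T) →
      ν.Ok c.k c.fl (Iio lam) (Iio ω₁) := by
    intro ν hν
    obtain ⟨z, -, -, hz⟩ := AE.exists hA hν
    exact Amen_ok_of_sb (hT.ok _ hz)
  have hω : ω₁ < lam := lt_of_le_of_lt hv.1 hv.2.1
  refine ⟨hok, ?_, ?_, ?_⟩
  · intro l hl'
    have hCl : (Iio c.γ ∪ (l : Set Ordinal.{u})) ⊆ Iio lam := by
      rintro ξ (h | h)
      · exact lt_trans h hv.2.1
      · exact hl' ξ h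
    have hfC : Few lam (Iio c.γ ∪ (l : Set Ordinal.{u}) : Set Ordinal.{u}) :=
      Few.union hl (few_Iio hl hv.2.1) (few_finite hl l.finite_toSet)
    have hfew := few_names (k := c.k) (fl := c.fl) hl hfC (few_Iio hl hω)
    have h1 : AE A lam fun z => ∀ ν : {ν : Nm.{u} Ordinal.{u} |
        ν.Ok c.k c.fl (Iio c.γ ∪ (l : Set Ordinal.{u})) (Iio ω₁)},
        (ν.1.sb j z ∈ T ↔ AE A lam fun z => ν.1.sb j z ∈ T) := by
      refine ae_all hl hfew fun ν => ?_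
      rcases PP.dec hl hP hv hT (ν.2.mono hCl subset_rfl) j with h | h
      · exact h.mono fun z _ hz => ⟨fun _ => h, fun _ => hz⟩
      · exact h.mono fun z _ hz => ⟨fun h' => (hz h').elim, fun h' => (h'.not_not hA h).elim⟩
    have h2 : AE A lam fun z => ∀ ξ : (Iio c.γ ∪ (l : Set Ordinal.{u}) : Set Ordinal.{u}),
        ξ.1 < z := ae_all hl hfC fun ξ => ae_gt hl (hCl ξ.2)
    obtain ⟨z, -, hz, hz1, hz2⟩ := AE.exists hA (h1.and h2)
    have hzn : z ∉ (Iio c.γ ∪ (l : Set Ordinal.{u}) : Set Ordinal.{u}) := fun h =>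
      lt_irrefl _ (hz2 ⟨z, h⟩)
    obtain ⟨R, hR, htr⟩ := hT.fin (insert z l) (by
      intro ξ hξ
      rcases Finset.mem_insert.1 hξ with h | h
      · exact h ▸ hz
      · exact hl' ξ h)
    have hset : (Iio c.γ ∪ ((insert z l : Finset Ordinal.{u}) : Set Ordinal.{u})) =
        insert z (Iio c.γ ∪ (l : Set Ordinal.{u})) := by
      rw [Finset.coe_insert, Set.union_insert]
    rw [hset] at hR htr
    obtain ⟨hR', hden⟩ := hR.toPar hzn subset_union_left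
      (lt_trans zero_lt_one (Amen_one_lt hv)) hj hj1
    refine ⟨_, hR', fun ν hν => ?_⟩
    have hν' : ν.Ok c.k c.fl (Iio c.γ ∪ (l : Set Ordinal.{u})) (Iio ω₁) := hν
    have e1 := hz1 ⟨ν, hν'⟩
    have e2 := htr (ν.sb j z) ((hν'.mono (subset_insert z _) subset_rfl).sb j (mem_insert z _))
    change (AE A lam fun z => ν.sb j z ∈ T) ↔ _
    rw [← e1, e2, Str.Tr, Str.Tr, hden]
  · intro ν ξ h
    have ho := hok _ h
    obtain ⟨hν, hξ⟩ := ok_cons.1 (ok_op.1 ho)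
    have hξ' : ξ < lam := ok_cst.1 hξ
    by_contra hne
    have h1 : ∀ ξ' < ξ, AE A lam fun z => eqN (ν.sb j z) (cst ξ') ∉ T := by
      intro ξ' h'
      have h2 : (eqN ν (cst ξ')).Ok c.k c.fl (Iio lam) (Iio ω₁) :=
        ok_op.2 (ok_cons.2 ⟨hν, ok_cst.2 (lt_trans h' hξ')⟩)
      rcases PP.dec hl hP hv hT h2 j with h3 | h3
      · exact (hne ⟨ξ', h', h3⟩).elim
      · exact h3.mono fun z _ hz => by rwa [Amen_sb_opc] at hz
    have h' : AE A lam fun z => (elN ν (cst ξ)).sb j z ∈ T := h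
    obtain ⟨z, -, -, hz1, hz2⟩ := AE.exists hA (h'.and (ae_all_lt hl hξ' h1))
    rw [Amen_sb_opc] at hz1
    obtain ⟨ξ', h3, h4⟩ := hT.std _ _ hz1
    exact hz2 ξ' h3 h4
  · rw [wellFounded_iff_isEmpty_descending_chain]
    refine ⟨fun f => ?_⟩
    have h1 : AE A lam fun z => ∀ n : ℕ, (elN (f.1 (n + 1)) (f.1 n)).sb j z ∈ T :=
      ae_all hl (few_countable hl ℕ) fun n => f.2 n
    obtain ⟨z, -, -, hz⟩ := AE.exists hA h1
    exact (wellFounded_iff_isEmpty_descending_chain.1 hT.wfd).false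
      ⟨fun n => (f.1 n).sb j z, hz⟩

/-- The iterated limits of `T`. -/
def Amen_TL (A : Set Ordinal.{u}) (lam : Ordinal.{u}) (T : Set (Nm.{u} Ordinal.{u})) (r : ℕ) :
    ℕ → Set (Nm.{u} Ordinal.{u})
  | 0 => T
  | n + 1 => {ν | AE A lam fun z => ν.sb (r + n) z ∈ Amen_TL A lam T r n}

theorem Amen_TL_good (hl : Reg lam) (hA : Unb A lam) (hP : PP A lam) (hv : c.Valid lam)
    (hT : Good c lam T) {r : ℕ} (hr : c.r ≤ r) (hr1 : 1 ≤ r) (n : ℕ) :
    ∃ r', r' ≤ r + n ∧ Good { c with r := r' } lam (Amen_TL A lam T r n) := by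
  induction n with
  | zero => exact ⟨c.r, hr, hT⟩
  | succ n ih =>
    obtain ⟨r', h1, h2⟩ := ih
    exact ⟨r + n + 1, le_rfl, good_amen (c := { c with r := r' }) hl hA hP hv h2 h1 (by omega)⟩

theorem Amen_TL_iff {r : ℕ} (n : ℕ) (ν : Nm.{u} Ordinal.{u}) :
    ν ∈ Amen_TL A lam T r n ↔ AEn A lam n fun l => subL r l ν ∈ T := by
  induction n generalizing ν with
  | zero => exact Iff.rfl
  | succ n ih =>
    have key : ∀ z, (ν.sb (r + n) z ∈ Amen_TL A lam T r n ↔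
        AEn A lam n fun l => subL r (z :: l) ν ∈ T) := by
      intro z
      rw [ih]
      refine aen_congr fun l hl => ?_
      simp only [subL]
      rw [hl.1]
    change (AE A lam fun z => ν.sb (r + n) z ∈ Amen_TL A lam T r n) ↔
      AE A lam fun z => AEn A lam n fun l => subL r (z :: l) ν ∈ T
    exact ⟨fun h => h.mono fun z _ hz => (key z).1 hz, fun h => h.mono fun z _ hz => (key z).2 hz⟩

theorem Amen_mn (hl : Reg lam) (hA : Unb A lam) (hP : PP A lam) (hv : c.Valid lam)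
    (hT : Good c lam T) {r : ℕ} (hr : c.r ≤ r) (hr1 : 1 ≤ r) (n : ℕ) {ν : Nm.{u} Ordinal.{u}}
    (hν : ν.Ok c.k c.fl (Iio lam) (Iio ω₁)) : Mn A lam n fun l => subL r l ν ∈ T := by
  induction n generalizing ν with
  | zero => trivial
  | succ n ih =>
    have key : ∀ z, (ν.sb (r + n) z ∈ Amen_TL A lam T r n ↔
        AEn A lam n fun l => subL r (z :: l) ν ∈ T) := by
      intro z
      rw [Amen_TL_iff]
      refine aen_congr fun l hl => ?_
      simp only [subL]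
      rw [hl.1]
    refine ⟨fun z hz => ?_, ?_⟩
    · refine (ih (hν.sb (r + n) hz)).congr fun l hl => ?_
      simp only [subL]
      rw [hl.1]
    · obtain ⟨r', -, h2⟩ := Amen_TL_good hl hA hP hv hT hr hr1 n
      rcases PP.dec (c := { c with r := r' }) hl hP hv h2 hν (r + n) with h | h
      · exact Or.inl (h.mono fun z _ hz => (key z).1 hz)
      · exact Or.inr (h.mono fun z _ hz h' => hz ((key z).2 h'))

theorem goodR_subL (hl : Reg lam) (hA : Unb A lam) (hP : PP A lam) (hv : c.Valid lam)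
    (hT : Good c lam T) {r : ℕ} (hr : c.r ≤ r) (hr1 : 1 ≤ r) (N : ℕ) {ν : Nm.{u} Ordinal.{u}}
    (hν : ν.Ok c.k c.fl (Iio lam) (Iio ω₁)) :
    GoodR A lam N fun l z => eqN (subL r l ν) (cst z) ∈ T := by
  refine ⟨?_, ?_⟩
  · have h1 : (eqN ν (cst 1)).Ok c.k c.fl (Iio lam) (Iio ω₁) :=
      ok_op.2 (ok_cons.2 ⟨hν, ok_cst.2 hl.one_lt⟩)
    refine (Amen_mn hl hA hP hv hT hr hr1 N h1).congr fun l _ => ?_
    rw [Amen_subL_opc]
  · cases N with
    | zero =>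
      by_cases h : ∃ z0, eqN ν (cst z0) ∈ T
      · obtain ⟨z0, h0⟩ := h
        exact ⟨z0, fun z _ hz _ => Amen_uniq hT hz h0⟩
      · exact ⟨0, fun z _ hz _ => (h ⟨z, hz⟩).elim⟩
    | succ n =>
      obtain ⟨r', -, h2⟩ := Amen_TL_good hl hA hP hv hT hr hr1 n
      obtain ⟨v, hv'⟩ := hP { c with r := r' } hv _ h2 ν hν (r + n)
      refine ⟨v.getD 0, hv'.mono fun z1 hz1 hfo => ?_⟩
      have h3 : ∀ z : Iio z1, AEn A lam n fun l =>
          eqN (subL r (z1 :: l) ν) (cst z.1) ∈ T → z.1 = v.getD 0 := by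
        intro z
        by_cases hz : z.1 = v.getD 0
        · exact AEn.of_forall hl.pos fun l _ _ => hz
        · have hn : eqN (ν.sb (r + n) z1) (cst z.1) ∉ Amen_TL A lam T r n := by
            intro h
            have := (Amen_fo_some h2).2 ⟨z.2, h⟩
            rw [hfo] at this
            exact hz (by rw [this]; rfl)
          have h4 : (eqN (ν.sb (r + n) z1) (cst z.1)).Ok c.k c.fl (Iio lam) (Iio ω₁) :=
            ok_op.2 (ok_cons.2 ⟨hν.sb _ hz1, ok_cst.2 (lt_trans z.2 hz1)⟩)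
          rcases (Amen_mn hl hA hP hv hT hr hr1 n h4).dec with h | h
          · exact (hn ((Amen_TL_iff n _).2 h)).elim
          · refine h.mono fun l hl' h5 h6 => (h5 ?_).elim
            rw [Amen_subL_opc]
            simp only [subL] at h6
            rwa [hl'.1] at h6
      refine (aen_all hl (few_Iio hl hz1) h3).mono fun l _ h z _ hz hlt => ?_
      exact h ⟨z, hlt z1 rfl⟩ hz

end Pool.Agent.P.MP_833f7a_lc
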