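import Pool.Agent.P.MP_833f7a_lc.NmL

/-!
Borel predicates; reductions are Borel.
-/

universe u v w

namespace Pool.Agent.P.MP_833f7a_lc

open Cardinal Ordinal Set Code Nm

variable {κ : Ordinal.{u}} {P Q : Set Ordinal.{u} → Prop}

theorem Bor.congr (h : Bor κ P) (hPQ : ∀ y, P y ↔ Q y) : Bor κ Q := by
  have e : P = Q := funext fun y => propext (hPQ y)
  exact e ▸ h

theorem BorL_true (hκ : ω ≤ κ) : Bor κ fun _ => True := by
  classical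
  have h0 : (0 : Ordinal.{u}) < κ := omega0_pos.trans_le hκ
  have h1 : (1 : Ordinal.{u}) < κ := one_lt_omega0.trans_le hκ
  refine (Bor.ex (fun ξ y => if ξ = 0 then (0 : Ordinal.{u}) ∈ y else ¬ (0 : Ordinal.{u}) ∈ y)
    fun ξ _ => ?_).congr fun y => iff_true_intro ?_
  · by_cases h : ξ = 0
    · exact (Bor.base 0 h0).congr fun y => by rw [if_pos h]
    · exact (Bor.base 0 h0).not.congr fun y => by rw [if_neg h]
  · by_cases h : (0 : Ordinal.{u}) ∈ y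
    · exact ⟨0, h0, by rw [if_pos rfl]; exact h⟩
    · exact ⟨1, h1, by rw [if_neg one_ne_zero]; exact h⟩

theorem bor_const (hκ : ω ≤ κ) (p : Prop) : Bor κ fun _ => p := by
  by_cases h : p
  · exact (BorL_true hκ).congr fun _ => (iff_true_intro h).symm
  · exact (BorL_true hκ).not.congr fun _ => ⟨fun h' => (h' trivial).elim, fun h' => (h h').elim⟩
theorem bor_ex (hκ : ω ≤ κ) {J : Type v} (hJ : Few (nxt κ) J) {P : J → Set Ordinal.{u} → Prop}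
    (h : ∀ j, Bor κ (P j)) : Bor κ fun y => ∃ j, P j y := by
  rcases isEmpty_or_nonempty J with hE | hN
  · exact (bor_const hκ False).congr fun _ => ⟨False.elim, fun ⟨j, _⟩ => hE.elim j⟩
  · obtain ⟨f, hf⟩ := hJ.enum_nxt
    refine (Bor.ex (fun ξ => P (f ξ)) fun ξ _ => h _).congr fun y =>
      ⟨fun ⟨ξ, _, hξ⟩ => ⟨_, hξ⟩, fun ⟨j, hj⟩ => ?_⟩
    obtain ⟨ξ, h1, h2⟩ := hf j
    exact ⟨ξ, h1, h2 ▸ hj⟩
theorem bor_all (hκ : ω ≤ κ) {J : Type v} (hJ : Few (nxt κ) J) {P : J → Set Ordinal.{u} → Prop}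
    (h : ∀ j, Bor κ (P j)) : Bor κ fun y => ∀ j, P j y :=
  (bor_ex hκ hJ fun j => (h j).not).not.congr fun _ => by
    simp only [not_exists, not_not]
theorem Bor.or (hκ : ω ≤ κ) (h : Bor κ P) (h' : Bor κ Q) : Bor κ fun y => P y ∨ Q y := by
  refine (bor_ex hκ (few_countable (reg_nxt hκ) Bool) (P := fun i => cond i P Q) ?_).congr
    fun y => ?_
  · rintro (_ | _)
    exacts [h', h]
  · rw [Bool.exists_bool]
    exact or_comm
theorem Bor.and (hκ : ω ≤ κ) (h : Bor κ P) (h' : Bor κ Q) : Bor κ fun y => P y ∧ Q y :=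
  (h.not.or hκ h'.not).not.congr fun _ => by
    simp only [not_or, not_not]
theorem Bor.imp (hκ : ω ≤ κ) (h : Bor κ P) (h' : Bor κ Q) : Bor κ fun y => P y → Q y :=
  (h.not.or hκ h').congr fun _ => imp_iff_not_or.symm

theorem few_okK {ι : Type v} [Countable ι] (hκ : ω ≤ κ) (c : Cls.{u}) :
    Few (nxt κ) {n : Nm.{u} ι | OkK c κ n} :=
  few_names (reg_nxt hκ) (few_Iio_nxt κ) ((few_countable (reg_nxt hκ) ι).set univ)
theorem few_redD (hκ : ω ≤ κ) (c : Cls.{u}) : Few (nxt κ) {d : RedD.{u} | d.Valid c κ} := by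
  have hr := reg_nxt hκ
  have hI : Countable I2 := inferInstanceAs (Countable (ℕ × ℕ))
  have h1 := few_okK (ι := I2) hκ c
  refine (Few.prod hr (few_countable hr (Prop × ℕ)) (Few.prod hr h1 (Few.lists hr h1))).of_inj
    (fun d => ((d.1.strict, d.1.m), ⟨d.1.nb, d.2.1⟩, ⟨d.1.np, d.2.2⟩)) ?_
  rintro ⟨⟨a, m, n, l⟩, _⟩ ⟨⟨a', m', n', l'⟩, _⟩ h
  simp only [Prod.mk.injEq, Subtype.mk.injEq] at h
  obtain ⟨⟨rfl, rfl⟩, rfl, rfl⟩ := h
  rfl

theorem bor_ext {ι : Type v} [LinearOrder ι] (hκ : ω₁ ≤ κ) {c : Cls.{u}}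
    {cd : Nm.{u} Ordinal.{u} → Ordinal.{u}}
    (hcd : ∀ ν, ν.Ok c.k c.fl (Iio κ) (Iio ω₁) → cd ν < κ) (n : Nm.{u} ι) :
    Bor κ fun y => n ∈ Ext {ν | ν.Ok c.k c.fl (Iio κ) (Iio ω₁) ∧ cd ν ∈ y} := by
  have hω : ω ≤ κ := reg_omega1.omega_lt.le.trans hκ
  have hr := reg_nxt hω
  have hJ : Few (nxt κ) {ν : Nm.{u} Ordinal.{u} | ν.Ok c.k c.fl (Iio κ) (Iio ω₁)} :=
    few_names hr (few_Iio_nxt κ) (few_Iio hr (hκ.trans_lt (lt_nxt κ)))
  refine (bor_ex hω hJ (P := fun j y => (∃ τ : ι → Ordinal.{u}, StrictMonoOn τ n.idx ∧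
    (∀ i ∈ n.idx, τ i < ω₁) ∧ n.map τ = j.1) ∧ cd j.1 ∈ y) fun j =>
      (bor_const hω _).and hω (Bor.base _ (hcd _ j.2))).congr fun y => ⟨?_, ?_⟩
  · rintro ⟨j, ⟨τ, h1, h2, h3⟩, h4⟩
    exact ⟨τ, h1, h2, h3 ▸ ⟨j.2, h4⟩⟩
  · rintro ⟨τ, h1, h2, h3, h4⟩
    exact ⟨⟨_, h3⟩, ⟨τ, h1, h2, rfl⟩, h4⟩

section Red

variable {c : Cls.{u}} {W : Set Ordinal.{u} → Set (Nm.{u} I2)}

theorem BorL_exN (hκ : ω ≤ κ) {F : Nm.{u} I2 → Set Ordinal.{u} → Prop} (h : ∀ n, Bor κ (F n)) :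
    Bor κ fun y => ∃ n, OkK c κ n ∧ F n y := by
  have hI : Countable I2 := inferInstanceAs (Countable (ℕ × ℕ))
  exact (bor_ex hκ (few_okK (ι := I2) hκ c) (P := fun j => F j.1) fun j => h j.1).congr fun y =>
    ⟨fun ⟨j, hj⟩ => ⟨j.1, j.2, hj⟩, fun ⟨n, h1, h2⟩ => ⟨⟨n, h1⟩, h2⟩⟩

theorem BorL_allN (hκ : ω ≤ κ) {F : Nm.{u} I2 → Set Ordinal.{u} → Prop} (h : ∀ n, Bor κ (F n)) :
    Bor κ fun y => ∀ n, OkK c κ n → F n y := by
  have hI : Countable I2 := inferInstanceAs (Countable (ℕ × ℕ))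
  exact (bor_all hκ (few_okK (ι := I2) hκ c) (P := fun j => F j.1) fun j => h j.1).congr fun y =>
    ⟨fun hj n h1 => hj ⟨n, h1⟩, fun hj j => hj j.1 j.2⟩

theorem BorL_same (hκ : ω ≤ κ) (hW : ∀ n, Bor κ fun y => n ∈ W y) (n n' : Nm.{u} I2) :
    Bor κ fun y => Same (W y) n n' :=
  bor_all hκ (few_countable (reg_nxt hκ) ℕ) fun _ => hW _

theorem BorL_eps (hκ : ω ≤ κ) (hW : ∀ n, Bor κ fun y => n ∈ W y) (ψ : Trm) (n1 n : Nm.{u} I2) :
    Bor κ fun y => EpsB c κ (W y) ψ n1 n :=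
  (BorL_exN hκ fun _ => (hW _).and hκ ((BorL_allN hκ fun _ => (hW _).imp hκ (hW _).not).and hκ
    (BorL_same hκ hW _ _))).or hκ
      ((BorL_allN hκ fun _ => (hW _).not).and hκ (BorL_same hκ hW _ _))

theorem BorL_redB (hκ : ω ≤ κ) (d : RedD.{u}) (hW : ∀ n, Bor κ fun y => n ∈ W y)
    (ν : Nm.{u} ℕ) : ∀ n, Bor κ fun y => RedB c κ d (W y) ν n := by
  induction ν with
  | lf x =>
    intro n
    rcases x with ξ | i
    exacts [BorL_same hκ hW _ _, BorL_same hκ hW _ _]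
  | b j => exact fun n => BorL_same hκ hW _ _
  | u j g ih =>
    intro n
    have hc : ∀ n1 : Nm.{u} I2,
        Bor κ fun y => c.hb ∧ uN n1 ∈ W y ∧ (d.strict → elN n1 d.nb ∈ W y) := fun n1 =>
      (bor_const hκ _).and hκ ((hW _).and hκ ((bor_const hκ _).imp hκ (hW _)))
    exact BorL_exN hκ fun n1 => (ih n1).and hκ (((hc n1).and hκ (BorL_exN hκ fun _ =>
      (bor_const hκ _).and hκ ((hW _).and hκ (BorL_same hκ hW _ _)))).or hκ
        ((hc n1).not.and hκ (BorL_same hκ hW _ _)))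
  | app t ν ih =>
    intro n
    have he : ∀ n1 : Nm.{u} I2, Bor κ fun y => ∃ ψ, t = .eps ψ ∧ EpsB c κ (W y) ψ n1 n := by
      intro n1
      by_cases h : ∃ ψ, t = .eps ψ
      · obtain ⟨ψ, rfl⟩ := h
        refine (BorL_eps (c := c) hκ hW ψ n1 n).congr fun y => ⟨fun h => ⟨ψ, rfl, h⟩, ?_⟩
        rintro ⟨ψ', h1, h2⟩
        cases h1
        exact h2
      · exact (bor_const hκ False).congr fun _ => ⟨False.elim, fun ⟨ψ, h1, _⟩ => h ⟨ψ, h1⟩⟩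
    exact BorL_exN hκ fun n1 => (ih n1).and hκ
      (((bor_const hκ _).and hκ (BorL_same hκ hW _ _)).or hκ
        (((bor_const hκ _).and hκ ((bor_const hκ _).and hκ (BorL_same hκ hW _ _))).or hκ
          ((bor_const hκ _).and hκ ((bor_const hκ _).and hκ (he n1)))))
  | cons ν ν' ih ih' =>
    intro n
    refine (BorL_exN (c := c) hκ fun n1 => BorL_exN (c := c) hκ fun n2 => (ih n1).and hκ
      ((ih' n2).and hκ (BorL_same hκ hW n (cons n1 n2)))).congr fun y => ⟨?_, ?_⟩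
    · rintro ⟨n1, h1, n2, h2, h⟩
      exact ⟨n1, n2, h1, h2, h⟩
    · rintro ⟨n1, n2, h1, h2, h⟩
      exact ⟨n1, h1, n2, h2, h⟩

end Red

theorem bor_red (hκ : ω ≤ κ) (c : Cls.{u}) (d : RedD.{u})
    {W : Set Ordinal.{u} → Set (Nm.{u} I2)} (hW : ∀ n, Bor κ fun y => n ∈ W y) (ν : Nm.{u} ℕ) :
    Bor κ fun y => Red c κ d (W y) ν :=
  BorL_exN hκ fun n => (BorL_redB hκ d hW ν n).and hκ (hW n)

end Pool.Agent.P.MP_833f7a_lc
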