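import Pool.Agent.P.MP_833f7a_lc.NmL

/-!
Counting classes.
-/

universe u v w

namespace Pool.Agent.P.MP_833f7a_lc

open Cardinal Ordinal Set Code Nm

theorem few_cls {κ : Ordinal.{u}} (hκ : Inacc κ) {α : Ordinal.{u}} (hα : α < κ) :
    Few κ {c : Cls.{u} | c.Valid α} := by
  have h1 : Few κ (Iio α) := few_Iio hκ.1 hα
  have h2 : Few κ {t : Set Ordinal.{u} | t ⊆ Iio α} := hκ.subsets h1
  have h3 : Few κ (ℕ × Prop × Prop × ℕ) := few_countable hκ.1 _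
  have h4 := Few.prod hκ.1 h1 (Few.prod hκ.1 h2 (Few.prod hκ.1 h2 h3))
  refine h4.of_inj (fun c => (⟨c.1.γ, c.2.2.1⟩,
    ⟨c.1.S0, c.2.2.2.1.trans (Iio_subset_Iio c.2.2.1.le)⟩,
    ⟨c.1.A0, c.2.2.2.2.trans (Iio_subset_Iio c.2.2.1.le)⟩, c.1.k, c.1.fl, c.1.hb, c.1.r)) ?_
  rintro ⟨⟨γ, S0, A0, k, fl, hb, r⟩, h⟩ ⟨⟨γ', S0', A0', k', fl', hb', r'⟩, h'⟩ e
  simp only [Prod.mk.injEq, Subtype.mk.injEq] at e
  obtain ⟨rfl, rfl, rfl, rfl, rfl, rfl, rfl⟩ := e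
  rfl

theorem few_cls_nxt {κ : Ordinal.{u}} (hκ : Inacc κ) : Few (nxt κ) {c : Cls.{u} | c.Valid κ} := by
  have hr : Reg (nxt κ) := reg_nxt hκ.1.omega_lt.le
  refine (Few.iUnion hr (few_Iio_nxt κ) (s := fun α : Iio κ => {c : Cls.{u} | c.Valid α.1})
    fun α => (few_cls hκ α.2).mono (lt_nxt κ).le).subset ?_
  intro c hc
  exact mem_iUnion.2 ⟨⟨c.γ + 1, hκ.1.succ_lt hc.2.1⟩, hc.1, lt_add_one _, hc.2.2⟩

end Pool.Agent.P.MP_833f7a_lc
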