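import Mathlib.SetTheory.ZFC.Cardinal
import Pool.Agent.P.MP_af0a18_lc.Defs
import Pool.Agent.P.MP_37b794_lc.Defs

/-!
The notions of the problem. The universe of sets is `ZFSet`; ordinals are Mathlib's ordinals,
`toZFSet` gives the von Neumann ordinal.
-/

universe u v

namespace Pool.Agent.P.MP_833f7a_lc

open ZFSet Cardinal Set Pool.Agent.Lib.Forcing Pool.Agent.P.MP_af0a18_lc

/-- Bounded (`Δ₀`) formulas: every quantifier has the form `∀ x ∈ v_i`. -/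
inductive Bounded : Fml → Prop
  | mem (i j : ℕ) : Bounded (.mem i j)
  | eq (i j : ℕ) : Bounded (.eq i j)
  | neg {φ : Fml} : Bounded φ → Bounded (.neg φ)
  | and {φ ψ : Fml} : Bounded φ → Bounded ψ → Bounded (.and φ ψ)
  | ball (i : ℕ) {φ : Fml} :
      Bounded φ → Bounded (.all (.neg (.and (.mem 0 (i + 1)) (.neg φ))))

/-- `D = {x | ∃ w, ψ(w, x, p, κ)}` in the universe, with `ψ` bounded and `p ∈ H(κ)`. -/
def Sigma1Def (κ : Cardinal.{u}) (D : Set ZFSet.{u}) : Prop :=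
  ∃ (ψ : Fml) (p : ZFSet.{u}), Bounded ψ ∧
    (∃ T : ZFSet.{u}, T.IsTransitive ∧ p ∈ T ∧ T.card < κ) ∧
    ∀ x, x ∈ D ↔ ∃ w, Sat univ ψ (cons w (cons x (cons p fun _ => κ.ord.toZFSet)))

/-- Sequences of length less than `κ` with values in `β`. -/
def Node (κ : Ordinal.{u}) (β : Type v) : Type (max (u + 1) v) := Σ α : Iio κ, Iio α.1 → β

/-- `s` is an initial segment of `t`. -/
def Node.Le {κ : Ordinal.{u}} {β : Type v} (s t : Node κ β) : Prop :=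
  ∃ h : s.1.1 ≤ t.1.1, ∀ ξ : Iio s.1.1, s.2 ξ = t.2 ⟨ξ.1, lt_of_lt_of_le ξ.2 h⟩

/-- The restriction of `x` to `α`. -/
def Node.res {κ : Ordinal.{u}} {β : Type v} (x : Iio κ → β) (α : Iio κ) : Node κ β :=
  ⟨α, fun ξ => x ⟨ξ.1, lt_trans (mem_Iio.1 ξ.2) (mem_Iio.1 α.2)⟩⟩

/-- Perfect embeddings of `κ^κ` into `P(κ)`. -/
def IsPerfectEmb (κ : Ordinal.{u}) (ι : (Iio κ → Iio κ) → ZFSet.{u}) : Prop :=
  ∃ i : Node κ (Iio κ) → Node κ Bool,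
    (∀ s t, s.Le t → s ≠ t → (i s).Le (i t) ∧ i s ≠ i t) ∧
    (∀ s t, ¬ s.Le t → ¬ t.Le s → ¬ (i s).Le (i t) ∧ ¬ (i t).Le (i s)) ∧
    ∀ x, ι x ⊆ κ.toZFSet ∧ ∀ (ξ : Iio κ) (b : Bool), (b = true ↔ ξ.1.toZFSet ∈ ι x) ↔
      ∃ α, ∃ h : ξ.1 < (i (Node.res x α)).1.1, (i (Node.res x α)).2 ⟨ξ.1, h⟩ = b

/-- The property `(*)_κ`. -/
def PerfectSetProp (κ : Cardinal.{u}) : Prop :=
  ∀ D : Set ZFSet.{u}, (∀ x ∈ D, x ⊆ κ.ord.toZFSet) → Cardinal.lift.{u + 1} κ < #D →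
    Sigma1Def κ D → ∃ ι, IsPerfectEmb κ.ord ι ∧ ∀ x, ι x ∈ D

/-- `κ` is uncountable and `κ → (κ)²₂`. -/
def WeaklyCompact (κ : Cardinal.{u}) : Prop :=
  ℵ₀ < κ ∧ ∀ c : Ordinal.{u} → Ordinal.{u} → Bool, ∃ H ⊆ Iio κ.ord,
    #H = Cardinal.lift.{u + 1} κ ∧ ∃ b, ∀ α ∈ H, ∀ β ∈ H, α < β → c α β = b

/-- In `M`, `δ` is an uncountable cardinal and `δ → (δ)²₂`; a colouring is given by the set `c`
of the pairs that get the first colour. -/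
def WeaklyCompactIn (M : Set ZFSet.{u}) (δ : ZFSet.{u}) : Prop :=
  IsCardinalIn M δ ∧ omega ∈ δ ∧ ∀ c ∈ M, ∃ H ∈ M, H ⊆ δ ∧ HasCard M H δ ∧
    ((∀ α ∈ H, ∀ β ∈ H, α ∈ β → pair α β ∈ c) ∨ ∀ α ∈ H, ∀ β ∈ H, α ∈ β → pair α β ∉ c)

/-- `M` contains an order isomorphism from the ordinal `m` onto the set of ordinals `S`. -/
def OrderTypeIn (M : Set ZFSet.{u}) (S m : ZFSet.{u}) : Prop :=
  ∃ f ∈ M, IsFunc m S f ∧ (∀ y ∈ S, ∃ x, pair x y ∈ f) ∧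
    ∀ x y x' y', pair x y ∈ f → pair x' y' ∈ f → x ∈ x' → y ∈ y'

end Pool.Agent.P.MP_833f7a_lc
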