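import Mathlib.SetTheory.Cardinal.Regular
import Mathlib.SetTheory.Ordinal.Enum
import Mathlib.Logic.Small.Set
import Mathlib.Data.Nat.Pairing
import Pool.Agent.P.MP_833f7a_lc.Stmt

/-!
Definitions, part 1: small cardinalities, tail quantifiers, codes, terms and their evaluation.
-/

universe u v

namespace Pool.Agent.P.MP_833f7a_lc

open Cardinal Ordinal Set
open scoped Classical

/-! ### Cardinalities -/

/-- `α` has fewer than `|μ|` elements. -/
def Few (μ : Ordinal.{u}) (α : Type v) : Prop :=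
  Cardinal.lift.{u} #α < Cardinal.lift.{v} μ.card

/-- Uncountable regular initial ordinals. -/
def Reg (μ : Ordinal.{u}) : Prop := ℵ₀ < μ.card ∧ μ.card.IsRegular ∧ μ.card.ord = μ

/-- Inaccessible initial ordinals. -/
def Inacc (μ : Ordinal.{u}) : Prop := Reg μ ∧ ∀ δ < μ, Few μ (Set (Iio δ))

/-- The next cardinal; `Few (nxt μ) α` says that `α` has at most `|μ|` elements. -/
noncomputable def nxt (μ : Ordinal.{u}) : Ordinal.{u} := (Order.succ μ.card).ord

/-- The regular cardinals to which blueprints are stretched. -/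
noncomputable def th (κ ξ : Ordinal.{u}) : Ordinal.{u} := (Order.succ (ℵ_ (κ + ξ))).ord

/-! ### Tail quantifiers -/

/-- For all `η` in a tail of `A ∩ μ`. -/
def AE (A : Set Ordinal.{u}) (μ : Ordinal.{u}) (P : Ordinal.{u} → Prop) : Prop :=
  ∃ δ < μ, ∀ η ∈ A, δ ≤ η → η < μ → P η

def Unb (A : Set Ordinal.{u}) (μ : Ordinal.{u}) : Prop := ∀ δ < μ, ∃ η ∈ A, δ ≤ η ∧ η < μ

/-- Iterated tail quantifier, first variable outermost. -/
def AEn (A : Set Ordinal.{u}) (μ : Ordinal.{u}) : ℕ → (List Ordinal.{u} → Prop) → Prop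
  | 0, R => R []
  | n + 1, R => AE A μ fun z => AEn A μ n fun l => R (z :: l)

/-- Measured relations. -/
def Mn (A : Set Ordinal.{u}) (μ : Ordinal.{u}) : ℕ → (List Ordinal.{u} → Prop) → Prop
  | 0, _ => True
  | n + 1, R => (∀ z < μ, Mn A μ n fun l => R (z :: l)) ∧
      (AE A μ (fun z => AEn A μ n fun l => R (z :: l)) ∨
        AE A μ fun z => ¬ AEn A μ n fun l => R (z :: l))

/-- Lists of length `n` below `μ`. -/
def Dom (μ : Ordinal.{u}) (n : ℕ) (l : List Ordinal.{u}) : Prop := l.length = n ∧ ∀ z ∈ l, z < μ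

/-- `V l z` reads: the value at `l` is the ordinal `z`. The truth set is measured and
regressive values are almost constant. -/
def GoodR (A : Set Ordinal.{u}) (μ : Ordinal.{u}) (N : ℕ)
    (V : List Ordinal.{u} → Ordinal.{u} → Prop) : Prop :=
  Mn A μ N (fun l => V l 1) ∧
    ∃ z0, AEn A μ N fun l => ∀ z < μ, V l z → (∀ h ∈ l.head?, z < h) → z = z0

/-- `f` enumerates a club of `θ`. -/
def ClubEnum (θ : Ordinal.{u}) (f : Ordinal.{u} → Ordinal.{u}) : Prop :=
  StrictMonoOn f (Iio θ) ∧ (∀ η < θ, f η < θ) ∧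
    ∀ η < θ, Order.IsSuccLimit η → ∀ z < f η, ∃ η' < η, z < f η'

/-! ### Filter systems -/

abbrev FSys := Ordinal.{u} → Set Ordinal.{u} → Prop

structure FS (F : FSys.{u}) : Prop where
  mono : ∀ μ X Y, F μ X → X ⊆ Y → F μ Y
  meet : ∀ μ X Y, F μ X → F μ Y → ∃ η < μ, η ∈ X ∧ η ∈ Y

def dom (F : FSys.{u}) (μ : Ordinal.{u}) : Prop := F μ (Iio μ)

def tailF (S A : Set Ordinal.{u}) : FSys.{u} := fun μ X => μ ∈ S ∧ AE A μ (· ∈ X)

/-! ### Terms and codes -/

inductive Op : Type
  | zero | fst | eq | lt | nand | lv | nm | q1 | q2 | el | eqv | dif | mat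

/-- Terms denote maps from environments to environments. -/
inductive Trm : Type
  | id | tl | cut
  | op (o : Op)
  | cons (s t : Trm)
  | comp (s t : Trm)
  | mk (t : Trm)
  | low (t : Trm)
  | eps (t : Trm)
  | lim (t : Trm)

def Op.num : Op → ℕ
  | .zero => 0 | .fst => 1 | .eq => 2 | .lt => 3 | .nand => 4 | .lv => 5 | .nm => 6
  | .q1 => 7 | .q2 => 8 | .el => 9 | .eqv => 10 | .dif => 11 | .mat => 12

def Trm.num : Trm → ℕ
  | .id => Nat.pair 0 0
  | .tl => Nat.pair 1 0
  | .cut => Nat.pair 2 0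
  | .op o => Nat.pair 3 o.num
  | .cons s t => Nat.pair 4 (Nat.pair s.num t.num)
  | .comp s t => Nat.pair 5 (Nat.pair s.num t.num)
  | .mk t => Nat.pair 6 t.num
  | .low t => Nat.pair 7 t.num
  | .eps t => Nat.pair 8 t.num
  | .lim t => Nat.pair 9 t.num

def Trm.depth : Trm → ℕ
  | .id => 0
  | .tl => 0
  | .cut => 0
  | .op _ => 0
  | .cons s t => max s.depth t.depth
  | .comp s t => max s.depth t.depth
  | .mk _ => 0
  | .low _ => 0
  | .eps t => t.depth + 1
  | .lim t => t.depth

/-- Drop `n` entries. -/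
def Trm.tls : ℕ → Trm
  | 0 => .id
  | n + 1 => .comp (Trm.tls n) .tl

/-- The environment with the listed entries, then zeros. -/
def Trm.sel : List ℕ → Trm
  | [] => .op .zero
  | i :: l => .cons (Trm.tls i) (Trm.sel l)

/-- The constant term true. -/
def Trm.tt : Trm := .comp (.op .eq) (.op .zero)

inductive Code : Type (u + 1)
  | od (a : Ordinal.{u})
  | st (a : Ordinal.{u}) (t : Trm) (x y : Code)

namespace Code

def lv : Code.{u} → Ordinal.{u}
  | od a => a
  | st a _ _ _ => a

/-- Valid codes of level below `b`. -/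
def In : Code.{u} → Ordinal.{u} → Prop
  | od a, b => a < b
  | st a _ x y, b => ω ≤ a ∧ a < b ∧ x.In a ∧ y.In a

/-- The lexicographic order; it well-orders the valid codes. -/
def Lt : Code.{u} → Code.{u} → Prop
  | od a, od b => a < b
  | od a, st b _ _ _ => a ≤ b
  | st a _ _ _, od b => a < b
  | st a t x y, st b s x' y' =>
      a < b ∨ a = b ∧ (t.num < s.num ∨ t = s ∧ (x.Lt x' ∨ x = x' ∧ y.Lt y'))

noncomputable def nm : Code.{u} → Code.{u}
  | od _ => od 0
  | st _ t _ _ => od ((t.num + 1 : ℕ) : Ordinal.{u})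

noncomputable def q1 : Code.{u} → Code.{u}
  | od _ => od 0
  | st _ _ x _ => x

noncomputable def q2 : Code.{u} → Code.{u}
  | od _ => od 0
  | st _ _ _ y => y

theorem In.lv_lt {x : Code.{u}} {b : Ordinal.{u}} (h : x.In b) : x.lv < b := by
  cases x with
  | od a => exact h
  | st a t x y => exact h.2.1

end Code

open Code

theorem Op.num_inj : Function.Injective Op.num := by
  intro a b h; cases a <;> cases b <;> first | rfl | (simp [Op.num] at h)

theorem Trm.num_inj : Function.Injective Trm.num := by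
  intro s
  induction s with
  | op o => intro t e; cases t <;> simp [Trm.num, Nat.pair_eq_pair] at e ⊢; exact Op.num_inj e
  | cons a b ih1 ih2 =>
    intro t e; cases t <;> simp [Trm.num, Nat.pair_eq_pair] at e ⊢; exact ⟨ih1 e.1, ih2 e.2⟩
  | comp a b ih1 ih2 =>
    intro t e; cases t <;> simp [Trm.num, Nat.pair_eq_pair] at e ⊢; exact ⟨ih1 e.1, ih2 e.2⟩
  | mk a ih => intro t e; cases t <;> simp [Trm.num, Nat.pair_eq_pair] at e ⊢; exact ih e
  | low a ih => intro t e; cases t <;> simp [Trm.num, Nat.pair_eq_pair] at e ⊢; exact ih e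
  | eps a ih => intro t e; cases t <;> simp [Trm.num, Nat.pair_eq_pair] at e ⊢; exact ih e
  | lim a ih => intro t e; cases t <;> simp [Trm.num, Nat.pair_eq_pair] at e ⊢; exact ih e
  | _ => intro t e; cases t <;> simp [Trm.num, Nat.pair_eq_pair] at e ⊢

instance : Countable Trm := ⟨⟨Trm.num, Trm.num_inj⟩⟩

instance small_In (a : Ordinal.{u}) : Small.{u} {x : Code.{u} | x.In a} := by
  induction a using WellFoundedLT.induction with
  | ind a ih =>
    have h1 : ∀ b : Iio a, Small.{u} {x : Code.{u} | x.In b.1} := fun b => ih b.1 b.2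
    have h2 : Small.{u} (Σ b : Iio a, Unit ⊕ Trm × {x : Code.{u} | x.In b.1} ×
      {x : Code.{u} | x.In b.1}) := inferInstance
    refine small_subset (s := range fun p : (Σ b : Iio a, Unit ⊕ Trm ×
      {x : Code.{u} | x.In b.1} × {x : Code.{u} | x.In b.1}) =>
        p.2.elim (fun _ => od p.1.1) fun q => Code.st p.1.1 q.1 q.2.1.1 q.2.2.1) ?_
    rintro (c | ⟨c, t, x, y⟩) h
    · exact ⟨⟨⟨c, h⟩, Sum.inl ()⟩, rfl⟩
    · exact ⟨⟨⟨c, h.2.1⟩, Sum.inr (t, ⟨x, h.2.2.1⟩, ⟨y, h.2.2.2⟩)⟩, rfl⟩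

/-- Environments. -/
abbrev CE := ℕ → Code.{u}

def ec (x : Code.{u}) (e : CE.{u}) : CE.{u}
  | 0 => x
  | n + 1 => e n

@[simp] theorem ec_zero (x : Code.{u}) (e : CE.{u}) : ec x e 0 = x := rfl
@[simp] theorem ec_succ (x : Code.{u}) (e : CE.{u}) (n : ℕ) : ec x e (n + 1) = e n := rfl

/-- The environment with the entries of `l`, then those of `e`. -/
def apL (l : List Code.{u}) (e : CE.{u}) : CE.{u} := l.foldr ec e

/-- The environment with the entries of `l`, then zeros. -/
noncomputable def ofL (l : List Code.{u}) : CE.{u} := apL l fun _ => od 0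

def InE (e : CE.{u}) (b : Ordinal.{u}) : Prop := ∀ i, (e i).In b

/-- True. -/
noncomputable abbrev tt : Code.{u} := od 1

noncomputable def bl (p : Prop) : Code.{u} := if p then od 1 else od 0

noncomputable def least (P : Code.{u} → Prop) : Code.{u} :=
  if h : ∃ x, P x ∧ ∀ y, P y → ¬ y.Lt x then h.choose else od 0

/-- The value taken on an `F μ`-large set, or `0`. -/
noncomputable def limF (F : FSys.{u}) (μ : Ordinal.{u}) (f : Ordinal.{u} → Code.{u}) : Code.{u} :=
  if h : ∃ η0 < μ, F μ {η | η < μ ∧ f η = f η0} then f h.choose else od 0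

instance small_In_sep (a : Ordinal.{u}) (P : Code.{u} → Prop) :
    Small.{u} {x : Code.{u} | x.In a ∧ P x} :=
  small_subset (s := {x : Code.{u} | x.In a}) fun _ h => h.1

/-- The collapse along a membership relation `E` on codes. -/
noncomputable def col (E : Code.{u} → Code.{u} → Prop) (z : Code.{u}) : ZFSet.{u} :=
  ZFSet.range fun x : {x : Code.{u} | x.In z.lv ∧ E x z} => col E x.1
termination_by z.lv
decreasing_by exact x.2.1.lv_lt

noncomputable def opv (E : Code.{u} → Code.{u} → Prop) : Op → Code.{u} → Code.{u} → Code.{u}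
  | .zero, _, _ => od 0
  | .fst, x, _ => x
  | .eq, x, y => bl (x = y)
  | .lt, x, y => bl (x.Lt y)
  | .nand, x, y => bl (¬ (x = tt ∧ y = tt))
  | .lv, x, _ => od x.lv
  | .nm, x, _ => x.nm
  | .q1, x, _ => x.q1
  | .q2, x, _ => x.q2
  | .el, x, y => bl (E x y)
  | .eqv, x, y => bl (col E x = col E y)
  | .dif, x, y => least fun w => w.In x.lv ∧ E w x ∧ col E w ∉ col E y
  | .mat, x, y => least fun w => w.In y.lv ∧ E w y ∧ col E w = col E x

noncomputable def cutc : Code.{u} → Code.{u} → Code.{u}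
  | od a, y => if y.In a then y else od 0
  | .st _ _ _ _, _ => od 0

/-- Drop the head `od a` and replace the entries that are not below `a` by `0`. -/
noncomputable def cutE (e : CE.{u}) : CE.{u} := fun i => cutc (e 0) (e (i + 1))

noncomputable def mkc (t : Trm) : Code.{u} → Code.{u} → Code.{u} → Code.{u}
  | od a, x, y => if ω ≤ a ∧ x.In a ∧ y.In a then .st a t x y else od 0
  | .st _ _ _ _, _, _ => od 0

noncomputable def lowc (f : Ordinal.{u} → CE.{u}) : Code.{u} → CE.{u}
  | od a => if ω ≤ a then f a else fun _ => od 0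
  | .st _ _ _ _ => fun _ => od 0

noncomputable def limc (F : FSys.{u}) (f : Ordinal.{u} → Code.{u}) : Code.{u} → Code.{u}
  | od μ => limF F μ f
  | .st _ _ _ _ => od 0

/-- Evaluation at level `b`, with the membership relation on codes as a parameter. -/
noncomputable def evE (F : FSys.{u}) (E : Code.{u} → Code.{u} → Prop) :
    Trm → Ordinal.{u} → CE.{u} → CE.{u}
  | .id, _, e => e
  | .tl, _, e => fun i => e (i + 1)
  | .cut, _, e => cutE e
  | .op o, _, e => fun _ => opv E o (e 0) (e 1)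
  | .cons s t, b, e => ec (evE F E s b e 0) (evE F E t b e)
  | .comp s t, b, e => evE F E s b (evE F E t b e)
  | .mk t, _, e => fun _ => mkc t (e 0) (e 1) (e 2)
  | .low t, _, e => lowc (fun a => evE F E t a (cutE e)) (e 0)
  | .eps t, b, e => fun _ => least fun x => x.In b ∧ evE F E t b (ec x e) 0 = tt
  | .lim t, b, e => fun _ => limc F (fun η => evE F E t b (ec (od η) e) 0) (e 0)

/-- The elements of a code. -/
noncomputable def ElS (F : FSys.{u}) : Code.{u} → Set Code.{u}
  | od a => {x | ∃ c < a, x = od c}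
  | .st a t p q => {x | x.In a ∧
      evE F (fun w z => ∃ _ : z.lv < a, w ∈ ElS F z) t a (ofL [x, p, q]) 0 = tt}
termination_by z => z.lv
decreasing_by assumption

def El (F : FSys.{u}) (x z : Code.{u}) : Prop := x ∈ ElS F z

noncomputable def ev (F : FSys.{u}) : Trm → Ordinal.{u} → CE.{u} → CE.{u} := evE F (El F)

/-- The set coded by a code. -/
noncomputable def cl (F : FSys.{u}) : Code.{u} → ZFSet.{u} := col (El F)

/-- The level `M_b` of the model. -/
noncomputable def Mz (F : FSys.{u}) (b : Ordinal.{u}) : ZFSet.{u} :=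
  ZFSet.range fun x : {x : Code.{u} | x.In b} => cl F x.1

section
variable (F : FSys.{u}) (b : Ordinal.{u}) (e : CE.{u})
@[simp] theorem ev_id : ev F .id b e = e := rfl
@[simp] theorem ev_tl : ev F .tl b e = fun i => e (i + 1) := rfl
@[simp] theorem ev_cut : ev F .cut b e = cutE e := rfl
@[simp] theorem ev_op (o : Op) : ev F (.op o) b e = fun _ => opv (El F) o (e 0) (e 1) := rfl
@[simp] theorem ev_cons (s t : Trm) :
    ev F (.cons s t) b e = ec (ev F s b e 0) (ev F t b e) := rfl
@[simp] theorem ev_comp (s t : Trm) : ev F (.comp s t) b e = ev F s b (ev F t b e) := rfl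
@[simp] theorem ev_mk (t : Trm) : ev F (.mk t) b e = fun _ => mkc t (e 0) (e 1) (e 2) := rfl
@[simp] theorem ev_low (t : Trm) :
    ev F (.low t) b e = lowc (fun a => ev F t a (cutE e)) (e 0) := rfl
@[simp] theorem ev_eps (t : Trm) :
    ev F (.eps t) b e = fun _ => least fun x => x.In b ∧ ev F t b (ec x e) 0 = tt := rfl
@[simp] theorem ev_lim (t : Trm) :
    ev F (.lim t) b e = fun _ => limc F (fun η => ev F t b (ec (od η) e) 0) (e 0) := rfl
end

def GoodF (A : Set Ordinal.{u}) (μ : Ordinal.{u}) (N : ℕ) (G : List Ordinal.{u} → Code.{u}) :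
    Prop := GoodR A μ N fun l z => G l = od z

/-- The statement `H(b, k, μ)`. -/
def HH (S A : Set Ordinal.{u}) (b : Ordinal.{u}) (k : ℕ) (μ : Ordinal.{u}) : Prop :=
  ∀ t : Trm, t.depth ≤ k → ∀ q : List Code.{u}, (∀ x ∈ q, x.In b) → ∀ N,
    GoodF A μ N fun l => ev (tailF S A) t b (ofL (l.map od ++ q)) 0

/-- Environment maps given at level `b` by a term with parameters from `Cs`. -/
def TE (F : FSys.{u}) (b : Ordinal.{u}) (Cs : Set Code.{u}) (G : CE.{u} → CE.{u}) : Prop :=
  ∃ (t : Trm) (q : List Code.{u}), (∀ y ∈ q, y ∈ Cs) ∧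
    ∀ e, InE e b → ev F t b (apL q e) = G e

def TD (F : FSys.{u}) (b : Ordinal.{u}) (Cs : Set Code.{u}) (g : CE.{u} → Code.{u}) : Prop :=
  TE F b Cs fun e _ => g e

def PD (F : FSys.{u}) (b : Ordinal.{u}) (Cs : Set Code.{u}) (P : CE.{u} → Prop) : Prop :=
  TD F b Cs fun e => bl (P e)

end Pool.Agent.P.MP_833f7a_lc
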