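import Pool.Agent.P.MP_833f7a_lc.FewL

/-!
The order of codes, least elements, limits, lists as environments.
-/

universe u v w

namespace Pool.Agent.P.MP_833f7a_lc

open Cardinal Ordinal Set Code

variable {x y z : Code.{u}} {a b : Ordinal.{u}} {F : FSys.{u}}

@[simp] theorem in_od : (od a).In b ↔ a < b := Iff.rfl
@[simp] theorem in_st {t : Trm} : (st a t x y).In b ↔ ω ≤ a ∧ a < b ∧ x.In a ∧ y.In a := Iff.rfl
@[simp] theorem lv_od : (od a).lv = a := rfl
@[simp] theorem lv_st {t : Trm} : (st a t x y).lv = a := rfl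
@[simp] theorem lt_od_od : (od a).Lt (od b) ↔ a < b := Iff.rfl

theorem Code.In.mono (h : x.In a) (hab : a ≤ b) : x.In b := by
  cases x with
  | od c => exact lt_of_lt_of_le (show c < a from h) hab
  | st c t p q => exact ⟨h.1, h.2.1.trans_le hab, h.2.2⟩
theorem Code.In.of_lv (h : x.In b) (ha : x.lv < a) : x.In a := by
  cases x with
  | od c => exact ha
  | st c t p q => exact ⟨h.1, ha, h.2.2⟩
theorem Code.In.iff_lv (h : x.In b) : x.In a ↔ x.lv < a := ⟨Code.In.lv_lt, h.of_lv⟩
theorem Code.In.q1 (h : x.In b) : x.q1.In b := by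
  cases x with
  | od c => exact lt_of_le_of_lt zero_le (show c < b from h)
  | st c t p q => exact h.2.2.1.mono h.2.1.le
theorem Code.In.q2 (h : x.In b) : x.q2.In b := by
  cases x with
  | od c => exact lt_of_le_of_lt zero_le (show c < b from h)
  | st c t p q => exact h.2.2.2.mono h.2.1.le
theorem Code.In.nm (x : Code.{u}) (hb : ω ≤ b) : x.nm.In b := by
  cases x with
  | od c => exact omega0_pos.trans_le hb
  | st c t p q => exact (natCast_lt_omega0 _).trans_le hb
theorem Code.lt_irrefl (x : Code.{u}) : ¬ x.Lt x := by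
  induction x with
  | od c => exact _root_.lt_irrefl c
  | st c t p q ih1 ih2 =>
    rintro (h | ⟨-, h | ⟨-, h | ⟨-, h⟩⟩⟩)
    · exact _root_.lt_irrefl _ h
    · exact _root_.lt_irrefl _ h
    · exact ih1 h
    · exact ih2 h
theorem Code.Lt.trans (h : x.Lt y) (h' : y.Lt z) : x.Lt z := by
  induction x generalizing y z with
  | od c =>
    cases y with
    | od d =>
      cases z with
      | od e => exact lt_trans (show c < d from h) (show d < e from h')
      | st e s p q => exact (show c < d from h).le.trans (show d ≤ e from h')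
    | st d t p q =>
      cases z with
      | od e => exact lt_of_le_of_lt (show c ≤ d from h) (show d < e from h')
      | st e s p' q' =>
        have h1 : c ≤ d := h
        have h2 : d ≤ e := by
          rcases h' with h' | h'
          · exact h'.le
          · exact h'.1.le
        exact h1.trans h2
  | st c t p q ih1 ih2 =>
    cases y with
    | od d =>
      cases z with
      | od e => exact lt_trans (show c < d from h) (show d < e from h')
      | st e s p' q' => exact Or.inl (lt_of_lt_of_le (show c < d from h) (show d ≤ e from h'))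
    | st d s p' q' =>
      cases z with
      | od e =>
        have h2 : c ≤ d := by
          rcases h with h | h
          · exact h.le
          · exact h.1.le
        exact lt_of_le_of_lt h2 (show d < e from h')
      | st e r p'' q'' =>
        rcases h with h | ⟨rfl, h⟩
        · rcases h' with h' | ⟨rfl, -⟩
          · exact Or.inl (h.trans h')
          · exact Or.inl h
        rcases h' with h' | ⟨rfl, h'⟩
        · exact Or.inl h'
        refine Or.inr ⟨rfl, ?_⟩
        rcases h with h | ⟨rfl, h⟩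
        · rcases h' with h' | ⟨rfl, -⟩
          · exact Or.inl (h.trans h')
          · exact Or.inl h
        rcases h' with h' | ⟨rfl, h'⟩
        · exact Or.inl h'
        refine Or.inr ⟨rfl, ?_⟩
        rcases h with h | ⟨rfl, h⟩
        · rcases h' with h' | ⟨rfl, -⟩
          · exact Or.inl (ih1 h h')
          · exact Or.inl h
        rcases h' with h' | ⟨rfl, h'⟩
        · exact Or.inl h'
        exact Or.inr ⟨rfl, ih2 h h'⟩
theorem Code.lt_trichotomy (x y : Code.{u}) : x.Lt y ∨ x = y ∨ y.Lt x := by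
  induction x generalizing y with
  | od c =>
    cases y with
    | od d =>
      rcases _root_.lt_trichotomy c d with h | rfl | h
      · exact Or.inl h
      · exact Or.inr (Or.inl rfl)
      · exact Or.inr (Or.inr h)
    | st d s p q =>
      rcases le_or_gt c d with h | h
      · exact Or.inl h
      · exact Or.inr (Or.inr h)
  | st c t p q ih1 ih2 =>
    cases y with
    | od d =>
      rcases le_or_gt d c with h | h
      · exact Or.inr (Or.inr h)
      · exact Or.inl h
    | st d s p' q' =>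
      rcases _root_.lt_trichotomy c d with h | rfl | h
      · exact Or.inl (Or.inl h)
      swap
      · exact Or.inr (Or.inr (Or.inl h))
      rcases _root_.lt_trichotomy t.num s.num with h | h | h
      · exact Or.inl (Or.inr ⟨rfl, Or.inl h⟩)
      swap
      · exact Or.inr (Or.inr (Or.inr ⟨rfl, Or.inl h⟩))
      obtain rfl := Trm.num_inj h
      rcases ih1 p' with h | rfl | h
      · exact Or.inl (Or.inr ⟨rfl, Or.inr ⟨rfl, Or.inl h⟩⟩)
      swap
      · exact Or.inr (Or.inr (Or.inr ⟨rfl, Or.inr ⟨rfl, Or.inl h⟩⟩))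
      rcases ih2 q' with h | rfl | h
      · exact Or.inl (Or.inr ⟨rfl, Or.inr ⟨rfl, Or.inr ⟨rfl, h⟩⟩⟩)
      · exact Or.inr (Or.inl rfl)
      · exact Or.inr (Or.inr (Or.inr ⟨rfl, Or.inr ⟨rfl, Or.inr ⟨rfl, h⟩⟩⟩))
theorem Code.Lt.lv_le (h : x.Lt y) : x.lv ≤ y.lv := by
  cases x with
  | od c =>
    cases y with
    | od d => exact le_of_lt h
    | st d s p q => exact h
  | st c t p q =>
    cases y with
    | od d => exact le_of_lt h
    | st d s p' q' =>
      rcases h with h | h
      · exact h.le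
      · exact h.1.le
theorem Code.lt_of_lv_lt (h : x.lv < y.lv) : x.Lt y := by
  cases x with
  | od c =>
    cases y with
    | od d => exact h
    | st d s p q => exact le_of_lt h
  | st c t p q =>
    cases y with
    | od d => exact h
    | st d s p' q' => exact Or.inl h
theorem CodeA_acc (b : Ordinal.{u}) : ∀ y : Code.{u}, y.In b →
    Acc (fun x y : Code.{u} => (∃ b, x.In b) ∧ x.Lt y) y := by
  induction b using WellFoundedLT.induction with
  | ind b ih =>
    have hod : ∀ a < b, Acc (fun x y : Code.{u} => (∃ b, x.In b) ∧ x.Lt y) (od a) := by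
      intro a ha
      refine Acc.intro _ ?_
      rintro x ⟨⟨c, hc⟩, hx⟩
      refine ih a ha x (hc.of_lv ?_)
      cases x with
      | od d => exact hx
      | st d t p q => exact hx
    have hst : ∀ a < b, ∀ n : ℕ, ∀ t : Trm, t.num = n → ∀ p : Code.{u}, p.In a →
        ∀ q : Code.{u}, q.In a →
        Acc (fun x y : Code.{u} => (∃ b, x.In b) ∧ x.Lt y) (st a t p q) := by
      intro a ha n
      induction n using Nat.strong_induction_on with
      | _ n ihn =>
        intro t ht p hp
        have hap := ih a ha p hp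
        induction hap with
        | intro p _ ihp =>
          intro q hq
          have haq := ih a ha q hq
          induction haq with
          | intro q _ ihq =>
            refine Acc.intro _ ?_
            rintro x ⟨⟨c, hc⟩, hx⟩
            cases x with
            | od d =>
              rcases lt_or_eq_of_le (show d ≤ a from hx) with h | rfl
              · exact ih a ha _ h
              · exact hod _ ha
            | st d s p' q' =>
              rcases hx with h | ⟨rfl, h | ⟨rfl, h | ⟨rfl, h⟩⟩⟩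
              · exact ih a ha _ (hc.of_lv h)
              · exact ihn _ (ht ▸ h) s rfl p' hc.2.2.1 q' hc.2.2.2
              · exact ihp p' ⟨⟨_, hc.2.2.1⟩, h⟩ hc.2.2.1 q' hc.2.2.2
              · exact ihq q' ⟨⟨_, hc.2.2.2⟩, h⟩ hc.2.2.2
    intro y hy
    cases y with
    | od a => exact hod a hy
    | st a t p q => exact hst a hy.2.1 _ t rfl p hy.2.2.1 q hy.2.2.2

theorem Code.lt_wf : WellFounded fun x y : Code.{u} => (∃ b, x.In b) ∧ x.Lt y :=
  ⟨fun _ => Acc.intro _ fun x hx => hx.1.elim fun b hb => CodeA_acc b x hb⟩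

theorem least_spec {P : Code.{u} → Prop} (hP : ∀ x, P x → ∃ b, x.In b) (h : ∃ x, P x) :
    P (least P) ∧ ∀ y, P y → ¬ y.Lt (least P) := by
  have h' : ∃ x, P x ∧ ∀ y, P y → ¬ y.Lt x := by
    obtain ⟨m, hm, hmin⟩ := Code.lt_wf.has_min {x | P x} h
    exact ⟨m, hm, fun y hy hlt => hmin y hy ⟨hP y hy, hlt⟩⟩
  unfold least
  rw [dif_pos h']
  exact h'.choose_spec
theorem least_eq {P : Code.{u} → Prop} (hx : P x) (h : ∀ y, P y → ¬ y.Lt x) : least P = x := by
  have h' : ∃ x, P x ∧ ∀ y, P y → ¬ y.Lt x := ⟨x, hx, h⟩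
  unfold least
  rw [dif_pos h']
  obtain ⟨h1, h2⟩ := h'.choose_spec
  rcases Code.lt_trichotomy h'.choose x with h3 | h3 | h3
  · exact absurd h3 (h _ h1)
  · exact h3
  · exact absurd h3 (h2 _ hx)
theorem least_of_not {P : Code.{u} → Prop} (h : ¬ ∃ x, P x) : least P = od 0 := by
  unfold least
  rw [dif_neg]
  rintro ⟨x, hx, -⟩
  exact h ⟨x, hx⟩
theorem least_in {P : Code.{u} → Prop} (hP : ∀ x, P x → x.In b) (hb : 0 < b) :
    (least P).In b := by
  by_cases h : ∃ x, P x
  · exact hP _ (least_spec (fun x hx => ⟨b, hP x hx⟩) h).1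
  · rw [least_of_not h]; exact hb
theorem least_congr {P Q : Code.{u} → Prop} (h : ∀ x, P x ↔ Q x) : least P = least Q := by
  obtain rfl : P = Q := funext fun x => propext (h x)
  rfl

@[simp] theorem bl_eq_tt {p : Prop} : (bl p : Code.{u}) = tt ↔ p := by
  unfold bl
  by_cases h : p <;> simp [h]
@[simp] theorem bl_eq_zero {p : Prop} : (bl p : Code.{u}) = od 0 ↔ ¬ p := by
  unfold bl
  by_cases h : p <;> simp [h]
theorem bl_congr {p q : Prop} (h : p ↔ q) : (bl p : Code.{u}) = bl q := by
  rw [propext h]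
theorem bl_in (p : Prop) (hb : 1 < b) : (bl p : Code.{u}).In b := by
  unfold bl
  split_ifs
  · exact hb
  · exact zero_lt_one.trans hb
theorem tt_ne_zero : (tt : Code.{u}) ≠ od 0 := by simp

@[simp] theorem apL_nil (e : CE.{u}) : apL [] e = e := rfl
@[simp] theorem apL_cons (l : List Code.{u}) (e : CE.{u}) : apL (x :: l) e = ec x (apL l e) := rfl
@[simp] theorem ofL_nil : (ofL [] : CE.{u}) = fun _ => od 0 := rfl
@[simp] theorem ofL_cons (l : List Code.{u}) : ofL (x :: l) = ec x (ofL l) := rfl
theorem ofL_apply (l : List Code.{u}) (i : ℕ) : ofL l i = l.getD i (od 0) := by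
  induction l generalizing i with
  | nil => simp
  | cons x l ih =>
    cases i with
    | zero => simp
    | succ i => rw [ofL_cons, ec_succ, ih, List.getD_cons_succ]
theorem apL_append (l l' : List Code.{u}) (e : CE.{u}) : apL (l ++ l') e = apL l (apL l' e) :=
  List.foldr_append
theorem ofL_append (l l' : List Code.{u}) : ofL (l ++ l') = apL l (ofL l') := apL_append _ _ _
theorem apL_lt (l : List Code.{u}) (e : CE.{u}) {i : ℕ} (h : i < l.length) : apL l e i = l[i] := by
  induction l generalizing i with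
  | nil => simp at h
  | cons x l ih =>
    cases i with
    | zero => rfl
    | succ i => rw [apL_cons, ec_succ, ih (by simpa using h)]; rfl
theorem apL_add (l : List Code.{u}) (e : CE.{u}) (i : ℕ) : apL l e (i + l.length) = e i := by
  induction l with
  | nil => rfl
  | cons x l ih => exact ih
theorem ec_eta (e : CE.{u}) : ec (e 0) (fun i => e (i + 1)) = e := by
  funext i
  cases i <;> rfl
theorem InE.mono {e : CE.{u}} (h : InE e a) (hab : a ≤ b) : InE e b := fun i => (h i).mono hab
theorem inE_ec {e : CE.{u}} : InE (ec x e) b ↔ x.In b ∧ InE e b := by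
  refine ⟨fun h => ⟨h 0, fun i => h (i + 1)⟩, fun h i => ?_⟩
  cases i with
  | zero => exact h.1
  | succ i => exact h.2 i
theorem inE_zero (hb : 0 < b) : InE (fun _ => od 0) b := fun _ => hb
theorem inE_apL {l : List Code.{u}} {e : CE.{u}} (hl : ∀ x ∈ l, x.In b) (he : InE e b) :
    InE (apL l e) b := by
  induction l with
  | nil => exact he
  | cons x l ih =>
    exact inE_ec.2 ⟨hl x List.mem_cons_self, ih fun y hy => hl y (List.mem_cons_of_mem _ hy)⟩
theorem inE_ofL {l : List Code.{u}} (hl : ∀ x ∈ l, x.In b) (hb : 0 < b) : InE (ofL l) b :=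
  inE_apL hl (inE_zero hb)
theorem exists_level {l : List Code.{u}} (hb : Order.IsSuccLimit b) (hl : ∀ x ∈ l, x.In b) :
    ∃ a < b, ∀ x ∈ l, x.In a := by
  induction l with
  | nil => exact ⟨0, hb.pos, by simp⟩
  | cons x l ih =>
    obtain ⟨a, ha, h⟩ := ih fun y hy => hl y (List.mem_cons_of_mem _ hy)
    have hx := hl x List.mem_cons_self
    refine ⟨max a (Order.succ x.lv), max_lt ha (hb.succ_lt hx.lv_lt), fun y hy => ?_⟩
    rcases List.mem_cons.1 hy with rfl | hy
    · exact hx.of_lv ((Order.lt_succ _).trans_le (le_max_right _ _))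
    · exact (h y hy).mono (le_max_left _ _)
theorem cutE_of_inE {e : CE.{u}} (h : InE e a) : cutE (ec (od a) e) = e := by
  funext i
  simp only [cutE, ec_zero, ec_succ, cutc, h i, if_true]
theorem inE_cutE {e : CE.{u}} (h : e 0 = od a) (ha : 0 < a) : InE (cutE e) a := by
  intro i
  simp only [cutE, h, cutc]
  split_ifs with h'
  · exact h'
  · exact ha

theorem few_In {μ : Ordinal.{u}} (h : Reg μ) (hb : b < μ) : Few μ {x : Code.{u} | x.In b} := by
  induction b using WellFoundedLT.induction with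
  | ind a ih =>
    have h1 : ∀ c : Iio a, Few μ {x : Code.{u} | x.In c.1} := fun c => ih c.1 c.2 (c.2.trans hb)
    have h2 : Few μ (Σ c : Iio a, Unit ⊕ Trm × {x : Code.{u} | x.In c.1} ×
        {x : Code.{u} | x.In c.1}) :=
      Few.sigma h (few_Iio h hb) fun c => Few.sum h (few_countable h Unit)
        (Few.prod h (few_countable h Trm) (Few.prod h (h1 c) (h1 c)))
    refine Few.subset (h2.range fun p : (Σ c : Iio a, Unit ⊕ Trm ×
      {x : Code.{u} | x.In c.1} × {x : Code.{u} | x.In c.1}) =>
        p.2.elim (fun _ => od p.1.1) fun q => Code.st p.1.1 q.1 q.2.1.1 q.2.2.1) ?_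
    rintro (c | ⟨c, t, x, y⟩) h
    · exact ⟨⟨⟨c, h⟩, Sum.inl ()⟩, rfl⟩
    · exact ⟨⟨⟨c, h.2.1⟩, Sum.inr (t, ⟨x, h.2.2.1⟩, ⟨y, h.2.2.2⟩)⟩, rfl⟩

section lim
variable {μ : Ordinal.{u}} {f g : Ordinal.{u} → Code.{u}}
theorem limF_eq (hF : FS F) (h : F μ {η | η < μ ∧ f η = z}) : limF F μ f = z := by
  obtain ⟨η, hη, h1, -⟩ := hF.meet μ _ _ h h
  have h' : ∃ η0 < μ, F μ {η | η < μ ∧ f η = f η0} := ⟨η, hη, by rw [h1.2]; exact h⟩
  unfold limF
  rw [dif_pos h']
  obtain ⟨ξ, -, h2, h3⟩ := hF.meet μ _ _ h h'.choose_spec.2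
  exact h3.2.symm.trans h2.2
theorem limF_of_not (h : ¬ ∃ z, F μ {η | η < μ ∧ f η = z}) : limF F μ f = od 0 := by
  unfold limF
  rw [dif_neg]
  rintro ⟨η, -, h'⟩
  exact h ⟨_, h'⟩
theorem limF_cases (F : FSys.{u}) (μ : Ordinal.{u}) (f : Ordinal.{u} → Code.{u}) :
    (∃ η0 < μ, F μ {η | η < μ ∧ f η = f η0} ∧ limF F μ f = f η0) ∨
      (¬ ∃ η0 < μ, F μ {η | η < μ ∧ f η = f η0}) ∧ limF F μ f = od 0 := by
  by_cases h : ∃ η0 < μ, F μ {η | η < μ ∧ f η = f η0}
  · refine Or.inl ⟨h.choose, h.choose_spec.1, h.choose_spec.2, ?_⟩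
    unfold limF
    rw [dif_pos h]
  · refine Or.inr ⟨h, ?_⟩
    unfold limF
    rw [dif_neg h]
theorem limF_eq_tt (hF : FS F) : limF F μ f = tt ↔ F μ {η | η < μ ∧ f η = tt} := by
  refine ⟨fun h => ?_, limF_eq hF⟩
  rcases limF_cases F μ f with ⟨η, -, h1, h2⟩ | ⟨-, h2⟩
  · rwa [← h2, h] at h1
  · exact absurd (h.symm.trans h2) tt_ne_zero
theorem limF_congr (h : ∀ η < μ, f η = g η) : limF F μ f = limF F μ g := by
  have hP : (fun η0 => η0 < μ ∧ F μ {η | η < μ ∧ f η = f η0}) =
      fun η0 => η0 < μ ∧ F μ {η | η < μ ∧ g η = g η0} := by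
    funext η0
    refine propext (and_congr_right fun h0 => ?_)
    have : {η | η < μ ∧ f η = f η0} = {η | η < μ ∧ g η = g η0} := by
      ext η
      exact and_congr_right fun h1 => by rw [h η h1, h η0 h0]
    rw [this]
  have key : ∀ (P Q : Ordinal.{u} → Prop) (_ : P = Q) (hp : ∃ a, P a) (hq : ∃ a, Q a),
      hp.choose = hq.choose := by
    rintro P Q rfl hp hq
    rfl
  unfold limF
  by_cases h1 : ∃ η0 < μ, F μ {η | η < μ ∧ f η = f η0}
  · have h2 : ∃ η0 < μ, F μ {η | η < μ ∧ g η = g η0} := hP ▸ h1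
    rw [dif_pos h1, dif_pos h2, h _ h1.choose_spec.1, key _ _ hP h1 h2]
  · have h2 : ¬ ∃ η0 < μ, F μ {η | η < μ ∧ g η = g η0} := hP ▸ h1
    rw [dif_neg h1, dif_neg h2]
theorem limF_congr_F {F' : FSys.{u}} (h : F μ = F' μ) : limF F μ f = limF F' μ f := by
  have key : ∀ G : FSys.{u}, limF G μ f = limF (fun _ => G μ) μ f := fun _ => rfl
  rw [key F, key F', h]
theorem limF_of_not_dom (hF : FS F) (h : ¬ dom F μ) : limF F μ f = od 0 := by
  refine limF_of_not ?_
  rintro ⟨z, hz⟩
  exact h (hF.mono μ _ _ hz fun η hη => hη.1)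
theorem limF_in (h : ∀ η < μ, (f η).In b) (hb : 0 < b) : (limF F μ f).In b := by
  rcases limF_cases F μ f with ⟨η, h0, -, h2⟩ | ⟨-, h2⟩
  · rw [h2]; exact h η h0
  · rw [h2]; exact hb
end lim

end Pool.Agent.P.MP_833f7a_lc
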