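import Pool.Agent.P.MP_833f7a_lc.CodeA

/-!
Evaluation of terms: closure, locality, elements of codes, support, rearrangement.
-/

universe u v w

namespace Pool.Agent.P.MP_833f7a_lc

open Cardinal Ordinal Set Code

variable {x y z : Code.{u}} {a b : Ordinal.{u}} {F : FSys.{u}} {e e' : CE.{u}}

theorem opv_in (E : Code.{u} → Code.{u} → Prop) (o : Op) (hb : ω ≤ b) (hx : x.In b) (hy : y.In b) :
    (opv E o x y).In b := by
  have h0 : 0 < b := omega0_pos.trans_le hb
  have h1 : 1 < b := one_lt_omega0.trans_le hb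
  cases o with
  | zero => exact h0
  | fst => exact hx
  | eq => exact bl_in _ h1
  | lt => exact bl_in _ h1
  | nand => exact bl_in _ h1
  | lv => exact hx.lv_lt
  | nm => exact Code.In.nm x hb
  | q1 => exact hx.q1
  | q2 => exact hx.q2
  | el => exact bl_in _ h1
  | eqv => exact bl_in _ h1
  | dif => exact least_in (fun w hw => hw.1.mono hx.lv_lt.le) h0
  | mat => exact least_in (fun w hw => hw.1.mono hy.lv_lt.le) h0

theorem CodeB_cutE_in (hb : ω ≤ b) (he : InE e b) : InE (cutE e) b := by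
  have h0 : 0 < b := omega0_pos.trans_le hb
  intro i
  unfold cutE
  cases h : e 0 with
  | od c =>
    simp only [cutc]
    split_ifs
    · exact he (i + 1)
    · exact h0
  | st c t p q => exact h0

theorem evE_in (E : Code.{u} → Code.{u} → Prop) (t : Trm) (hb : ω ≤ b) (he : InE e b) :
    InE (evE F E t b e) b := by
  induction t generalizing b e with
  | id => exact he
  | tl => exact fun i => he (i + 1)
  | cut => exact CodeB_cutE_in hb he
  | op o => exact fun _ => opv_in E o hb (he 0) (he 1)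
  | cons s t ih1 ih2 => exact inE_ec.2 ⟨ih1 hb he 0, ih2 hb he⟩
  | comp s t ih1 ih2 => exact ih1 hb (ih2 hb he)
  | mk t ih =>
    have h0 : 0 < b := omega0_pos.trans_le hb
    intro i
    have h1 := he 0
    simp only [evE]
    cases h : e 0 with
    | od c =>
      rw [h] at h1
      simp only [mkc]
      split_ifs with h2
      · exact ⟨h2.1, h1, h2.2⟩
      · exact h0
    | st c t p q => exact h0
  | low t ih =>
    have h0 : 0 < b := omega0_pos.trans_le hb
    have h1 := he 0
    simp only [evE]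
    cases h : e 0 with
    | od c =>
      rw [h] at h1
      simp only [lowc]
      split_ifs with h2
      · exact (ih h2 (inE_cutE h (omega0_pos.trans_le h2))).mono (le_of_lt h1)
      · exact inE_zero h0
    | st c t p q => exact inE_zero h0
  | eps t ih => exact fun _ => least_in (fun w hw => hw.1) (omega0_pos.trans_le hb)
  | lim t ih =>
    have h0 : 0 < b := omega0_pos.trans_le hb
    intro i
    have h1 := he 0
    simp only [evE]
    cases h : e 0 with
    | od c =>
      rw [h] at h1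
      exact limF_in (fun η hη => ih hb ((inE_ec (x := od η)).2 ⟨lt_trans hη h1, he⟩) 0) h0
    | st c t p q => exact h0

theorem ev_in (t : Trm) (hb : ω ≤ b) (he : InE e b) : InE (ev F t b e) b := evE_in _ t hb he

theorem CodeB_mem_col {E : Code.{u} → Code.{u} → Prop} {s : ZFSet.{u}} :
    s ∈ col E z ↔ ∃ x : Code.{u}, x.In z.lv ∧ E x z ∧ col E x = s := by
  rw [col, ZFSet.mem_range]
  constructor
  · rintro ⟨⟨w, h1, h2⟩, h3⟩
    exact ⟨w, h1, h2, h3⟩
  · rintro ⟨w, h1, h2, h3⟩
    exact ⟨⟨w, h1, h2⟩, h3⟩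

theorem CodeB_col_congr {E E' : Code.{u} → Code.{u} → Prop}
    (h : ∀ w z : Code.{u}, z.lv < b → (E w z ↔ E' w z)) :
    ∀ c, ∀ z : Code.{u}, z.lv = c → z.lv < b → col E z = col E' z := by
  intro c
  induction c using WellFoundedLT.induction with
  | ind c ih =>
    rintro z rfl hz
    ext s
    rw [CodeB_mem_col, CodeB_mem_col]
    refine exists_congr fun w => and_congr_right fun hw => ?_
    rw [h w z hz, ih _ hw.lv_lt w rfl (hw.lv_lt.trans hz)]

theorem CodeB_opv_congr {E E' : Code.{u} → Code.{u} → Prop}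
    (h : ∀ w z : Code.{u}, z.lv < b → (E w z ↔ E' w z)) (o : Op) (hx : x.In b) (hy : y.In b) :
    opv E o x y = opv E' o x y := by
  have hc : ∀ z : Code.{u}, z.lv < b → col E z = col E' z :=
    fun z hz => CodeB_col_congr h _ z rfl hz
  cases o with
  | el => exact bl_congr (h x y hy.lv_lt)
  | eqv =>
    simp only [opv]
    rw [hc x hx.lv_lt, hc y hy.lv_lt]
  | dif =>
    refine least_congr fun w => and_congr_right fun hw => ?_
    rw [h w x hx.lv_lt, hc y hy.lv_lt, hc w (hw.lv_lt.trans hx.lv_lt)]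
  | mat =>
    refine least_congr fun w => and_congr_right fun hw => ?_
    rw [h w y hy.lv_lt, hc x hx.lv_lt, hc w (hw.lv_lt.trans hy.lv_lt)]
  | _ => rfl

theorem CodeB_evE_congr {E E' : Code.{u} → Code.{u} → Prop} (t : Trm)
    (h : ∀ w z : Code.{u}, z.lv < b → (E w z ↔ E' w z)) (hb : ω ≤ b) (he : InE e b) :
    evE F E t b e = evE F E' t b e := by
  induction t generalizing b e with
  | id => rfl
  | tl => rfl
  | cut => rfl
  | op o =>
    funext i
    exact CodeB_opv_congr h o (he 0) (he 1)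
  | cons s t ih1 ih2 =>
    simp only [evE]
    rw [ih1 h hb he, ih2 h hb he]
  | comp s t ih1 ih2 =>
    simp only [evE]
    rw [← ih2 h hb he, ih1 h hb (evE_in E t hb he)]
  | mk t ih => rfl
  | low t ih =>
    have h1 := he 0
    simp only [evE]
    cases h0 : e 0 with
    | od c =>
      rw [h0] at h1
      simp only [lowc]
      split_ifs with h2
      · exact ih (fun w z hz => h w z (hz.trans h1)) h2 (inE_cutE h0 (omega0_pos.trans_le h2))
      · rfl
    | st c t p q => rfl
  | eps t ih =>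
    funext i
    refine least_congr fun w => and_congr_right fun hw => ?_
    rw [ih h hb (inE_ec.2 ⟨hw, he⟩)]
  | lim t ih =>
    funext i
    have h1 := he 0
    simp only [evE]
    cases h0 : e 0 with
    | od c =>
      rw [h0] at h1
      refine limF_congr fun η hη => ?_
      rw [ih h hb ((inE_ec (x := od η)).2 ⟨lt_trans hη h1, he⟩)]
    | st c t p q => rfl

@[simp] theorem el_od : El F x (od a) ↔ ∃ c < a, x = od c := by
  unfold El
  rw [ElS]
  rfl
theorem el_od_od : El F (od b) (od a) ↔ b < a := by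
  rw [el_od]
  constructor
  · rintro ⟨c, hc, h⟩
    cases h
    exact hc
  · exact fun h => ⟨b, h, rfl⟩
theorem El.isIn (h : El F x z) : x.In z.lv := by
  cases z with
  | od c =>
    obtain ⟨d, hd, rfl⟩ := el_od.1 h
    exact hd
  | st c t p q =>
    unfold El at h
    rw [ElS] at h
    exact h.1
theorem El.lv_lt (h : El F x z) : x.lv < z.lv := h.isIn.lv_lt
/-- The elements of a valid code (locality of evaluation). -/
theorem el_st {t : Trm} (h : (st a t y z).In b) :
    El F x (st a t y z) ↔ x.In a ∧ ev F t a (ofL [x, y, z]) 0 = tt := by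
  unfold El
  rw [ElS]
  refine and_congr_right fun hx => ?_
  have he : InE (ofL [x, y, z]) a := by
    refine inE_ofL ?_ (omega0_pos.trans_le h.1)
    intro w hw
    simp only [List.mem_cons, List.not_mem_nil, or_false] at hw
    rcases hw with rfl | rfl | rfl
    · exact hx
    · exact h.2.2.1
    · exact h.2.2.2
  unfold ev
  rw [CodeB_evE_congr (E' := El F) t (fun w z hz => ⟨fun h => h.2, fun h => ⟨hz, h⟩⟩) h.1 he]
theorem mem_cl {s : ZFSet.{u}} : s ∈ cl F z ↔ ∃ x, El F x z ∧ cl F x = s := by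
  unfold cl
  rw [CodeB_mem_col]
  exact exists_congr fun w => ⟨fun h => h.2, fun h => ⟨h.1.isIn, h⟩⟩
@[simp] theorem cl_od : cl F (od a) = a.toZFSet := by
  induction a using WellFoundedLT.induction with
  | ind a ih =>
    ext s
    rw [mem_cl, Ordinal.mem_toZFSet_iff]
    constructor
    · rintro ⟨w, hw, rfl⟩
      obtain ⟨c, hc, rfl⟩ := el_od.1 hw
      exact ⟨c, hc, (ih c hc).symm⟩
    · rintro ⟨c, hc, rfl⟩
      exact ⟨od c, el_od_od.2 hc, ih c hc⟩
theorem cl_eq_iff : cl F x = cl F y ↔ (∀ w, El F w x → ∃ w', El F w' y ∧ cl F w' = cl F w) ∧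
    ∀ w, El F w y → ∃ w', El F w' x ∧ cl F w' = cl F w := by
  constructor
  · intro h
    exact ⟨fun w hw => mem_cl.1 (h ▸ mem_cl.2 ⟨w, hw, rfl⟩),
      fun w hw => mem_cl.1 (h.symm ▸ mem_cl.2 ⟨w, hw, rfl⟩)⟩
  · rintro ⟨h1, h2⟩
    ext s
    constructor
    · intro hs
      obtain ⟨w, hw, rfl⟩ := mem_cl.1 hs
      exact mem_cl.2 (h1 w hw)
    · intro hs
      obtain ⟨w, hw, rfl⟩ := mem_cl.1 hs
      exact mem_cl.2 (h2 w hw)
theorem opv_eqv : opv (El F) .eqv x y = bl (cl F x = cl F y) := rfl
theorem opv_dif : opv (El F) .dif x y = least fun w => El F w x ∧ cl F w ∉ cl F y :=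
  least_congr fun _ => ⟨fun h => h.2, fun h => ⟨h.1.isIn, h⟩⟩
theorem opv_mat : opv (El F) .mat x y = least fun w => El F w y ∧ cl F w = cl F x :=
  least_congr fun _ => ⟨fun h => h.2, fun h => ⟨h.1.isIn, h⟩⟩
theorem mem_Mz {s : ZFSet.{u}} : s ∈ Mz F b ↔ ∃ x : Code.{u}, x.In b ∧ cl F x = s := by
  rw [Mz, ZFSet.mem_range]
  constructor
  · rintro ⟨⟨w, h1⟩, h3⟩
    exact ⟨w, h1, h3⟩
  · rintro ⟨w, h1, h3⟩
    exact ⟨⟨w, h1⟩, h3⟩

/-- Terms of depth zero do not depend on the level. -/
theorem ev_depth_zero {t : Trm} (h : t.depth = 0) (b b' : Ordinal.{u}) (e : CE.{u}) :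
    ev F t b e = ev F t b' e := by
  induction t generalizing e with
  | cons s t ih1 ih2 =>
    have h' : s.depth = 0 ∧ t.depth = 0 := by simpa [Trm.depth] using h
    rw [ev_cons, ev_cons, ih1 h'.1, ih2 h'.2]
  | comp s t ih1 ih2 =>
    have h' : s.depth = 0 ∧ t.depth = 0 := by simpa [Trm.depth] using h
    rw [ev_comp, ev_comp, ih1 h'.1, ih2 h'.2]
  | eps t ih => simp [Trm.depth] at h
  | lim t ih =>
    have h' : t.depth = 0 := h
    rw [ev_lim, ev_lim]
    simp only [ih h']
  | _ => rfl

theorem CodeB_ec_agree {n : ℕ} (x : Code.{u}) (h : ∀ i < n, e i = e' i) :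
    ∀ i < n + 1, ec x e i = ec x e' i := by
  intro i hi
  cases i with
  | zero => rfl
  | succ i => exact h i (by omega)

/-- Finite support. -/
theorem ev_supp (t : Trm) (m : ℕ) : ∃ n, ∀ (F : FSys.{u}) (b : Ordinal.{u}) (e e' : CE.{u}),
    (∀ i < n, e i = e' i) → ∀ i < m, ev F t b e i = ev F t b e' i := by
  induction t generalizing m with
  | id => exact ⟨m, fun F b e e' h => h⟩
  | tl => exact ⟨m + 1, fun F b e e' h i hi => h (i + 1) (by omega)⟩
  | cut =>
    refine ⟨m + 1, fun F b e e' h i hi => ?_⟩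
    simp only [ev_cut, cutE]
    rw [h 0 (by omega), h (i + 1) (by omega)]
  | op o =>
    refine ⟨2, fun F b e e' h i hi => ?_⟩
    simp only [ev_op]
    rw [h 0 (by omega), h 1 (by omega)]
  | cons s t ih1 ih2 =>
    obtain ⟨n1, h1⟩ := ih1 1
    obtain ⟨n2, h2⟩ := ih2 m
    refine ⟨max n1 n2, fun F b e e' h i hi => ?_⟩
    rw [ev_cons, ev_cons]
    cases i with
    | zero => exact h1 F b e e' (fun j hj => h j (by omega)) 0 (by omega)
    | succ i => exact h2 F b e e' (fun j hj => h j (by omega)) i (by omega)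
  | comp s t ih1 ih2 =>
    obtain ⟨n1, h1⟩ := ih1 m
    obtain ⟨n2, h2⟩ := ih2 n1
    exact ⟨n2, fun F b e e' h => h1 F b _ _ (h2 F b e e' h)⟩
  | mk t ih =>
    refine ⟨3, fun F b e e' h i hi => ?_⟩
    simp only [ev_mk]
    rw [h 0 (by omega), h 1 (by omega), h 2 (by omega)]
  | low t ih =>
    obtain ⟨n, h1⟩ := ih m
    refine ⟨n + 1, fun F b e e' h i hi => ?_⟩
    rw [ev_low, ev_low, ← h 0 (by omega)]
    cases h0 : e 0 with
    | od c =>
      simp only [lowc]
      split_ifs
      · refine h1 F c _ _ (fun j hj => ?_) i hi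
        simp only [cutE]
        rw [h 0 (by omega), h (j + 1) (by omega)]
      · rfl
    | st c t p q => rfl
  | eps t ih =>
    obtain ⟨n, h1⟩ := ih 1
    refine ⟨n, fun F b e e' h i hi => ?_⟩
    refine least_congr fun w => and_congr_right fun _ => ?_
    show ev F t b (ec w e) 0 = tt ↔ ev F t b (ec w e') 0 = tt
    rw [h1 F b _ _ (fun j hj => CodeB_ec_agree w h j (by omega)) 0 (by omega)]
  | lim t ih =>
    obtain ⟨n, h1⟩ := ih 1
    refine ⟨n + 1, fun F b e e' h i hi => ?_⟩
    simp only [ev_lim]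
    rw [← h 0 (by omega)]
    congr 1
    funext η
    exact h1 F b _ _ (fun j hj => CodeB_ec_agree (od η) h j (by omega)) 0 (by omega)

@[simp] theorem depth_tls (n : ℕ) : (Trm.tls n).depth = 0 := by
  induction n with
  | zero => rfl
  | succ n ih => simp [Trm.tls, Trm.depth, ih]
@[simp] theorem depth_sel (l : List ℕ) : (Trm.sel l).depth = 0 := by
  induction l with
  | nil => rfl
  | cons i l ih => simp [Trm.sel, Trm.depth, ih]
@[simp] theorem depth_tt : Trm.tt.depth = 0 := rfl
@[simp] theorem ev_tls (n : ℕ) : ev F (Trm.tls n) b e = fun i => e (i + n) := by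
  induction n generalizing e with
  | zero => rfl
  | succ n ih =>
    rw [Trm.tls, ev_comp, ih]
    rfl
@[simp] theorem ev_sel (l : List ℕ) : ev F (Trm.sel l) b e = ofL (l.map e) := by
  induction l with
  | nil => rfl
  | cons i l ih =>
    rw [Trm.sel, ev_cons, ih, ev_tls]
    simp
@[simp] theorem ev_tt : ev F Trm.tt b e = fun _ => tt := by
  funext i
  exact bl_eq_tt.2 rfl
theorem ofL_range_apply (e : CE.{u}) {n i : ℕ} (h : i < n) :
    ofL ((List.range n).map e) i = e i := by
  rw [ofL_apply]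
  simp [h]
/-- Rearrangement of lists, uniformly in the valuation. -/
theorem exists_sel {α : Type v} {L L' : List α} (h : ∀ x ∈ L, x ∈ L') :
    ∃ is : List ℕ, ∀ v : α → Code.{u}, is.map (ofL (L'.map v)) = L.map v := by
  induction L with
  | nil => exact ⟨[], fun _ => rfl⟩
  | cons x L ih =>
    obtain ⟨is, his⟩ := ih fun y hy => h y (List.mem_cons_of_mem _ hy)
    obtain ⟨i, hi, hx⟩ := List.getElem_of_mem (h x List.mem_cons_self)
    refine ⟨i :: is, fun v => ?_⟩
    rw [List.map_cons, List.map_cons, his v, ofL_apply]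
    simp [hi, hx]
theorem ev_low_od (t : Trm) (ha : ω ≤ a) (he : InE e a) :
    ev F (.low t) b (ec (od a) e) = ev F t a e := by
  rw [ev_low, cutE_of_inE he]
  simp only [ec_zero, lowc, ha, if_true]
theorem ev_lim_od (t : Trm) {μ : Ordinal.{u}} (h : e 0 = od μ) :
    ev F (.lim t) b e = fun _ => limF F μ fun η => ev F t b (ec (od η) e) 0 := by
  rw [ev_lim, h]
  rfl
/-- A term that forgets the second entry. -/
theorem ev_drop2 (t : Trm) :
    ev F (.comp t (.cons .id (Trm.tls 2))) b (ec x (ec y e)) = ev F t b (ec x e) := by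
  rw [ev_comp, ev_cons, ev_tls]
  rfl
theorem ev_dom (hF : FS F) :
    ev F (.lim .tt) b e 0 = tt ↔ ∃ μ, e 0 = od μ ∧ dom F μ := by
  cases h : e 0 with
  | od μ =>
    rw [ev_lim_od _ h]
    simp only [ev_tt]
    rw [limF_eq_tt hF]
    have : {η : Ordinal.{u} | η < μ ∧ (tt : Code.{u}) = tt} = Iio μ := by
      ext η
      simp
    rw [this]
    constructor
    · exact fun h' => ⟨μ, rfl, h'⟩
    · rintro ⟨ν, h1, h2⟩
      cases h1
      exact h2
  | st c t p q =>
    rw [ev_lim, h]
    constructor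
    · intro h'
      exact absurd h'.symm tt_ne_zero
    · rintro ⟨ν, h1, -⟩
      cases h1

end Pool.Agent.P.MP_833f7a_lc
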