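import Pool.Agent.P.MP_833f7a_lc.NmL

/-!
Transport of realisations along index maps and leaf maps.
-/

universe u v w

namespace Pool.Agent.P.MP_833f7a_lc

open Cardinal Ordinal Set Code Nm

variable {ι : Type v} {ι' : Type w} [LinearOrder ι] [LinearOrder ι'] {c : Cls.{u}}
  {R : Str.{u} ι} {C C' : Set Ordinal.{u}} {I : Set ι}

omit [LinearOrder ι] [LinearOrder ι'] in
theorem Trans_pull {τ : ι' → ι} {S : Set ι'} (g : Nm.{u} ι) (h : g.idx ⊆ τ '' S) :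
    ∃ g' : Nm.{u} ι', g'.map τ = g ∧ g'.idx ⊆ S := by
  induction g with
  | lf x => exact ⟨lf x, rfl, by simp⟩
  | b η =>
    obtain ⟨i, hi, rfl⟩ := h (show η ∈ (b η : Nm.{u} ι).idx by simp)
    exact ⟨b i, rfl, by simpa using hi⟩
  | u η g ih =>
    rw [Nm.idx_u, insert_subset_iff] at h
    obtain ⟨i, hi, rfl⟩ := h.1
    obtain ⟨g', rfl, hg⟩ := ih h.2
    exact ⟨u i g', rfl, by rw [Nm.idx_u, insert_subset_iff]; exact ⟨hi, hg⟩⟩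
  | app t ν ih =>
    rw [Nm.idx_app] at h
    obtain ⟨g', rfl, hg⟩ := ih h
    exact ⟨app t g', rfl, by rwa [Nm.idx_app]⟩
  | cons ν ν' ih ih' =>
    rw [Nm.idx_cons, union_subset_iff] at h
    obtain ⟨g, rfl, hg⟩ := ih h.1
    obtain ⟨g', rfl, hg'⟩ := ih' h.2
    exact ⟨cons g g', rfl, by rw [Nm.idx_cons]; exact union_subset hg hg'⟩

omit [LinearOrder ι] [LinearOrder ι'] in
theorem Trans_map_fst (τ : ι' → ι) (ρ : Nm.{u} (ι' × ι')) :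
    (ρ.map (Prod.map τ τ)).map Prod.fst = (ρ.map Prod.fst).map τ := by
  rw [Nm.map_map, Nm.map_map]
  rfl

omit [LinearOrder ι] [LinearOrder ι'] in
theorem Trans_map_snd (τ : ι' → ι) (ρ : Nm.{u} (ι' × ι')) :
    (ρ.map (Prod.map τ τ)).map Prod.snd = (ρ.map Prod.snd).map τ := by
  rw [Nm.map_map, Nm.map_map]
  rfl

omit [LinearOrder ι] [LinearOrder ι'] in
theorem Trans_occ_map {f : ι → ι'} {ν : Nm.{u} ι} {i : ι} {g : Nm.{u} ι} (h : (i, g) ∈ ν.occ) :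
    (f i, g.map f) ∈ (ν.map f).occ := by
  rw [Nm.occ_map]
  exact List.mem_map.2 ⟨(i, g), h, rfl⟩

omit [LinearOrder ι] [LinearOrder ι'] in
theorem Trans_of_occ_map {f : ι → ι'} {ν : Nm.{u} ι} {i : ι'} {g : Nm.{u} ι'}
    (h : (i, g) ∈ (ν.map f).occ) : ∃ i0 g0, (i0, g0) ∈ ν.occ ∧ f i0 = i ∧ g0.map f = g := by
  rw [Nm.occ_map] at h
  obtain ⟨⟨i0, g0⟩, h0, e⟩ := List.mem_map.1 h
  exact ⟨i0, g0, h0, (Prod.mk.inj e).1, (Prod.mk.inj e).2⟩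

omit [LinearOrder ι] in
theorem Trans_of_occ_lmap {φ : Leaf.{u} → Leaf.{u}} (h0 : φ (.inr 0) = .inr 0) {ν : Nm.{u} ι}
    {i : ι} {g : Nm.{u} ι} (h : (i, g) ∈ (ν.lmap φ).occ) :
    ∃ g0, (i, g0) ∈ ν.occ ∧ g0.lmap φ = g := by
  rw [Nm.occ_lmap h0] at h
  obtain ⟨⟨i0, g0⟩, h1, e⟩ := List.mem_map.1 h
  obtain ⟨rfl, e'⟩ := Prod.mk.inj e
  exact ⟨g0, h1, e'⟩

section reidx

variable {J : Set ι'} {τ : ι' → ι} {k : ℕ} {fl : Prop}

theorem Trans_mv (hτ : StrictMonoOn τ J) {ρ : Nm.{u} (ι' × ι')}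
    (h1 : (ρ.map Prod.fst).Ok k fl C J) (h2 : (ρ.map Prod.snd).Ok k fl C J)
    (hm : (R.reidx fun _ => τ).Mv ρ) : R.Mv (ρ.map (Prod.map τ τ)) := by
  intro p g q g' hp hq μ hμ e1 e2
  obtain ⟨p0, g0, hp0, rfl, rfl⟩ := Trans_of_occ_map hp
  obtain ⟨q0, g0', hq0, rfl, rfl⟩ := Trans_of_occ_map hq
  rw [Trans_map_fst, den_map] at e1 e2
  have := hm p0 g0 q0 g0' hp0 hq0 μ hμ e1 e2
  have a1 := (h1.occ (Trans_occ_map hp0)).1
  have a2 := (h1.occ (Trans_occ_map hq0)).1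
  have a3 := (h2.occ (Trans_occ_map hp0)).1
  have a4 := (h2.occ (Trans_occ_map hq0)).1
  exact (hτ.lt_iff_lt a1 a2).trans (this.trans (hτ.lt_iff_lt a3 a4).symm)

omit [LinearOrder ι] [LinearOrder ι'] in
theorem Trans_fix {ρ : Nm.{u} (ι' × ι')} (h1 : (ρ.map Prod.fst).Ok k fl C J)
    {P : Ordinal.{u} → ι → Prop} {P' : Ordinal.{u} → ι' → Prop}
    (hP : ∀ μ, ∀ i ∈ J, P μ (τ i) → P' μ i)
    (hm : (R.reidx fun _ => τ).Fix ρ P') : R.Fix (ρ.map (Prod.map τ τ)) P := by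
  intro p g hp μ hμ e1 hp'
  obtain ⟨p0, g0, hp0, rfl, rfl⟩ := Trans_of_occ_map hp
  rw [Trans_map_fst, den_map] at e1
  exact congrArg τ (hm p0 g0 hp0 μ hμ e1 (hP μ _ (h1.occ (Trans_occ_map hp0)).1 hp'))

theorem Trans_abv (hτ : StrictMonoOn τ J) {ν : Nm.{u} ι'} (h1 : ν.Ok k fl C J)
    {μ : Ordinal.{u}} {η : ι'} (hη : η ∈ J) (hm : (R.reidx fun _ => τ).Abv ν μ η) :
    R.Abv (ν.map τ) μ (τ η) := by
  intro i g hi e
  obtain ⟨i0, g0, h0, rfl, rfl⟩ := Trans_of_occ_map hi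
  rw [den_map] at e
  exact hτ (h1.occ h0).1 hη (hm i0 g0 h0 e)

end reidx

theorem Real.reidx (h : Real c R C I) {J : Set ι'} {τ : ι' → ι} (hτ : StrictMonoOn τ J)
    (hJ : ∀ j ∈ J, τ j ∈ I) : Real c (R.reidx fun _ => τ) C J := by
  have hok : ∀ {ν : Nm.{u} ι'}, ν.Ok c.k c.fl C J → (ν.map τ).Ok c.k c.fl C I :=
    fun hν => hν.map τ fun i hi => hJ i (hν.2.2 hi)
  refine ⟨h.fs, h.low, h.om, h.sub, h.cid, h.cmono, h.clt, h.pin, h.pz, h.hb, h.p0, h.dm,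
    fun μ hμ => ⟨(h.inc μ hμ).1.comp hτ hJ, fun η hη => (h.inc μ hμ).2 _ (hJ η hη)⟩,
    ?_, ?_, ?_, ?_, ?_, ?_⟩
  · intro ρ h1 h2 hm
    have := h.inv (ρ.map (Prod.map τ τ)) (by rw [Trans_map_fst]; exact hok h1)
      (by rw [Trans_map_snd]; exact hok h2) (Trans_mv hτ h1 h2 hm)
    rwa [Trans_map_fst, Trans_map_snd, Str.Tr, Str.Tr, den_map τ, den_map τ] at this
  · intro ρ h1 h2 hm hf z hz
    have := h.indU (ρ.map (Prod.map τ τ)) (by rw [Trans_map_fst]; exact hok h1)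
      (by rw [Trans_map_snd]; exact hok h2) (Trans_mv hτ h1 h2 hm)
      (Trans_fix h1 (fun _ _ _ e => e) hf) z hz
    rwa [Trans_map_fst, Trans_map_snd, den_map τ, den_map τ] at this
  · intro ρ h1 h2 hm μ η hμ hη hf z hz
    have := h.indE (ρ.map (Prod.map τ τ)) (by rw [Trans_map_fst]; exact hok h1)
      (by rw [Trans_map_snd]; exact hok h2) (Trans_mv hτ h1 h2 hm) μ (τ η) hμ (hJ η hη)
      (Trans_fix h1 (fun _ i hi e => e.imp_right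
        fun e' => ⟨e'.1, (hτ.lt_iff_lt hi hη).1 e'.2⟩) hf) z hz
    rwa [Trans_map_fst, Trans_map_snd, den_map τ, den_map τ] at this
  · intro ν t μ η η' hν ht hμ hη hη' hlt ha f hf
    exact h.coh (ν.map τ) t μ (τ η) (τ η') (hok hν) ht hμ (hJ η hη) (hJ η' hη') (hτ hη hη' hlt)
      (Trans_abv hτ hν hη ha) f (by rw [den_map]; exact hf)
  · intro ν μ η hν hμ hη ha z hz e
    exact h.rem (ν.map τ) μ (τ η) (hok hν) hμ (hJ η hη) (Trans_abv hτ hν hη ha) z hz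
      (by rw [den_map]; exact e)
  · intro ν hν z hz e
    obtain ⟨g, g1, g2, g3⟩ := h.short (ν.map τ) (hok hν) z hz (by rw [den_map]; exact e)
    obtain ⟨g', rfl, hg⟩ := Trans_pull (τ := τ) (S := ν.idx) g
      (by rw [← Nm.idx_map]; exact g2.2.2)
    refine ⟨g', (Nm.t1_map τ).1 g1, ⟨(Nm.wf_map τ).1 g2.1, ?_, hg⟩, ?_⟩
    · rw [← Nm.cs_map τ]
      exact g2.2.1
    · rwa [den_map] at g3

/-- `φ` sends new leaves to old leaves with the same value, `ψ` goes back. -/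
theorem Real.releaf (h : Real c R C I) {r' : ℕ} {cv : Ordinal.{u} → Ordinal.{u}}
    {pv : ℕ → Code.{u}} (φ ψ : Leaf.{u} → Leaf.{u})
    (hφ0 : φ (.inr 0) = .inr 0)
    (hφ1 : ∀ ξ ∈ C', od (cv ξ) = R.lfv (φ (.inl ξ)) ∧ ∀ ξ', φ (.inl ξ) = .inl ξ' → ξ' ∈ C)
    (hφ2 : ∀ i, pv i = R.lfv (φ (.inr i)) ∧ ∀ ξ', φ (.inr i) = .inl ξ' → ξ' ∈ C)
    (hψ1 : ∀ ξ ∈ C, (R.releaf cv pv).lfv (ψ (.inl ξ)) = od (R.cv ξ) ∧
      ∀ ξ', ψ (.inl ξ) = .inl ξ' → ξ' ∈ C')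
    (hψ2 : ∀ i, (R.releaf cv pv).lfv (ψ (.inr i)) = R.pv i ∧ ∀ ξ', ψ (.inr i) = .inl ξ' → ξ' ∈ C')
    (hsub : Iio c.γ ⊆ C') (hid : ∀ ξ < c.γ, cv ξ = ξ) (hmono : StrictMonoOn cv C')
    (hz : ∀ i, r' ≤ i → pv i = od 0) :
    Real { c with r := r' } (R.releaf cv pv) C' I := by
  have hin : ∀ x : Leaf.{u}, (∀ ξ', x = .inl ξ' → ξ' ∈ C) → (R.lfv x).In R.β := by
    rintro (ξ | i) hx
    · exact h.clt ξ (hx ξ rfl)
    · exact h.pin i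
  have hok : ∀ {ν : Nm.{u} ι}, ν.Ok c.k c.fl C' I → (ν.lmap φ).Ok c.k c.fl C I :=
    fun hν => hν.lmap (fun ξ hξ => (hφ1 ξ (hν.2.1 ξ hξ)).2) fun i => (hφ2 i).2
  have hden : ∀ {ν : Nm.{u} ι}, ν.Ok c.k c.fl C' I →
      R.den (ν.lmap φ) = (R.releaf cv pv).den ν :=
    fun hν => den_lmap (fun ξ hξ => (hφ1 ξ (hν.2.1 ξ hξ)).1) fun i => (hφ2 i).1
  have hmv : ∀ {ρ : Nm.{u} (ι × ι)}, (ρ.map Prod.fst).Ok c.k c.fl C' I →
      (R.releaf cv pv).Mv ρ → R.Mv (ρ.lmap φ) := by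
    intro ρ h1 hm p g q g' hp hq μ hμ e1 e2
    obtain ⟨g0, hp0, rfl⟩ := Trans_of_occ_lmap hφ0 hp
    obtain ⟨g0', hq0, rfl⟩ := Trans_of_occ_lmap hφ0 hq
    rw [← Nm.lmap_map, hden (h1.occ (Trans_occ_map hp0)).2] at e1
    rw [← Nm.lmap_map, hden (h1.occ (Trans_occ_map hq0)).2] at e2
    exact hm p g0 q g0' hp0 hq0 μ hμ e1 e2
  have hfix : ∀ {ρ : Nm.{u} (ι × ι)} {P : Ordinal.{u} → ι → Prop},
      (ρ.map Prod.fst).Ok c.k c.fl C' I → (R.releaf cv pv).Fix ρ P → R.Fix (ρ.lmap φ) P := by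
    intro ρ P h1 hm p g hp μ hμ e1
    obtain ⟨g0, hp0, rfl⟩ := Trans_of_occ_lmap hφ0 hp
    rw [← Nm.lmap_map, hden (h1.occ (Trans_occ_map hp0)).2] at e1
    exact hm p g0 hp0 μ hμ e1
  have habv : ∀ {ν : Nm.{u} ι} {μ : Ordinal.{u}} {η : ι}, ν.Ok c.k c.fl C' I →
      (R.releaf cv pv).Abv ν μ η → R.Abv (ν.lmap φ) μ η := by
    intro ν μ η h1 hm i g hi e
    obtain ⟨g0, h0, rfl⟩ := Trans_of_occ_lmap hφ0 hi
    rw [hden (h1.occ h0).2] at e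
    exact hm i g0 h0 e
  refine ⟨h.fs, h.low, h.om, hsub, hid, hmono, ?_, ?_, hz, h.hb, ?_, h.dm, h.inc,
    ?_, ?_, ?_, ?_, ?_, ?_⟩
  · intro ξ hξ
    have := hin _ (hφ1 ξ hξ).2
    rw [← (hφ1 ξ hξ).1] at this
    exact this
  · intro i
    have := hin _ (hφ2 i).2
    rw [← (hφ2 i).1] at this
    exact this
  · intro h0
    have := (hφ2 0).1
    rw [hφ0] at this
    exact this.trans (h.p0 h0)
  · intro ρ h1 h2 hm
    have := h.inv (ρ.lmap φ) (by rw [← Nm.lmap_map]; exact hok h1)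
      (by rw [← Nm.lmap_map]; exact hok h2) (hmv h1 hm)
    rwa [← Nm.lmap_map, ← Nm.lmap_map, Str.Tr, Str.Tr, hden h1, hden h2] at this
  · intro ρ h1 h2 hm hf z hz'
    have := h.indU (ρ.lmap φ) (by rw [← Nm.lmap_map]; exact hok h1)
      (by rw [← Nm.lmap_map]; exact hok h2) (hmv h1 hm) (hfix h1 hf) z hz'
    rwa [← Nm.lmap_map, ← Nm.lmap_map, hden h1, hden h2] at this
  · intro ρ h1 h2 hm μ η hμ hη hf z hz'
    have := h.indE (ρ.lmap φ) (by rw [← Nm.lmap_map]; exact hok h1)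
      (by rw [← Nm.lmap_map]; exact hok h2) (hmv h1 hm) μ η hμ hη (hfix h1 hf) z hz'
    rwa [← Nm.lmap_map, ← Nm.lmap_map, hden h1, hden h2] at this
  · intro ν t μ η η' hν ht hμ hη hη' hlt ha f hf
    exact h.coh (ν.lmap φ) t μ η η' (hok hν) ht hμ hη hη' hlt (habv hν ha) f
      (by rw [hden hν]; exact hf)
  · intro ν μ η hν hμ hη ha z hz' e
    exact h.rem (ν.lmap φ) μ η (hok hν) hμ hη (habv hν ha) z hz' (by rw [hden hν]; exact e)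
  · intro ν hν z hz' e
    obtain ⟨g, g1, g2, g3⟩ := h.short (ν.lmap φ) (hok hν) z hz' (by rw [hden hν]; exact e)
    rw [Nm.idx_lmap] at g2
    refine ⟨g.lmap ψ, (Nm.t1_lmap ψ).2 g1,
      g2.lmap (fun ξ hξ => (hψ1 ξ (g2.2.1 ξ hξ)).2) fun i => (hψ2 i).2, ?_⟩
    rw [den_lmap (R := R.releaf cv pv) (cv := R.cv) (pv := R.pv)
      (fun ξ hξ => (hψ1 ξ (g2.2.1 ξ hξ)).1.symm) fun i => (hψ2 i).1.symm]
    exact g3

/-- Renaming the constants along an order isomorphism that fixes `γ` pointwise. -/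
theorem Real.recst (h : Real c R C I) {f : Ordinal.{u} → Ordinal.{u}} (hf : StrictMonoOn f C')
    (him : f '' C' = C) (hsub : Iio c.γ ⊆ C') (hid : ∀ ξ < c.γ, f ξ = ξ) :
    Real c (R.releaf (R.cv ∘ f) R.pv) C' I ∧ ∀ ν : Nm.{u} ι,
      (R.releaf (R.cv ∘ f) R.pv).den ν = R.den (ν.lmap (Sum.map f id)) := by
  have hm : MapsTo f C' C := fun ξ hξ => him ▸ mem_image_of_mem f hξ
  refine ⟨?_, fun ν => (den_lmap (φ := Sum.map f id) (cv := R.cv ∘ f) (pv := R.pv)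
    (fun _ _ => rfl) fun _ => rfl).symm⟩
  refine h.releaf (r' := c.r) (Sum.map f id) (Sum.map (Function.invFunOn f C') id) rfl
    (fun ξ hξ => ⟨rfl, ?_⟩) (fun i => ⟨rfl, ?_⟩) (fun ξ hξ => ?_) (fun i => ⟨rfl, ?_⟩) hsub
    (fun ξ hξ => ?_) (h.cmono.comp hf hm) h.pz
  · intro ξ' e
    exact Sum.inl.inj e ▸ hm hξ
  · intro ξ' e
    exact absurd e Sum.inr_ne_inl
  · have hex : ∃ a ∈ C', f a = ξ := by
      rw [← him] at hξ
      exact hξ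
    refine ⟨?_, fun ξ' e => Sum.inl.inj e ▸ Function.invFunOn_mem hex⟩
    exact congrArg (fun x => od (R.cv x)) (Function.invFunOn_eq hex)
  · intro ξ' e
    exact absurd e Sum.inr_ne_inl
  · rw [Function.comp_apply, hid ξ hξ, h.cid ξ hξ]

/-- Turning the constant `z` into the parameter `j`. -/
theorem Real.toPar {z : Ordinal.{u}} (h : Real c R (insert z C) I) (hz : z ∉ C)
    (hsub : Iio c.γ ⊆ C) (h0 : 0 < c.γ) {j : ℕ} (hj : c.r ≤ j) (hj1 : 1 ≤ j) :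
    Real { c with r := j + 1 } (R.releaf R.cv (Function.update R.pv j (od (R.cv z)))) C I ∧
      ∀ ν : Nm.{u} ι, (R.releaf R.cv (Function.update R.pv j (od (R.cv z)))).den ν =
        R.den (ν.sb j z) := by
  classical
  obtain ⟨φ, hsb, φ1, φ2, φ3⟩ : ∃ φ : Leaf.{u} → Leaf.{u}, (∀ ν : Nm.{u} ι, ν.sb j z = ν.lmap φ) ∧
      (∀ ξ, φ (.inl ξ) = .inl ξ) ∧ φ (.inr j) = .inl z ∧ ∀ i, i ≠ j → φ (.inr i) = .inr i :=
    ⟨_, fun _ => rfl, fun _ => if_neg Sum.inl_ne_inr, if_pos rfl,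
      fun _ hi => if_neg fun e => hi (Sum.inr.inj e)⟩
  obtain ⟨ψ, ψ1, ψ2, ψ3, ψ4⟩ : ∃ ψ : Leaf.{u} → Leaf.{u}, ψ (.inl z) = .inr j ∧
      (∀ ξ, ξ ≠ z → ψ (.inl ξ) = .inl ξ) ∧ ψ (.inr j) = .inl 0 ∧
      ∀ i, i ≠ j → ψ (.inr i) = .inr i :=
    ⟨Sum.elim (fun ξ => if ξ = z then .inr j else .inl ξ)
      (fun i => if i = j then .inl 0 else .inr i), if_pos rfl, fun _ e => if_neg e, if_pos rfl,
      fun _ e => if_neg e⟩
  have hφ2 : ∀ i, Function.update R.pv j (od (R.cv z)) i = R.lfv (φ (.inr i)) ∧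
      ∀ ξ', φ (.inr i) = .inl ξ' → ξ' ∈ insert z C := by
    intro i
    by_cases hi : i = j
    · subst hi
      rw [φ2, Function.update_self]
      exact ⟨rfl, fun ξ' e => Sum.inl.inj e ▸ mem_insert z C⟩
    · rw [φ3 i hi, Function.update_of_ne hi]
      exact ⟨rfl, fun ξ' e => absurd e Sum.inr_ne_inl⟩
  refine ⟨?_, fun ν => ?_⟩
  · refine h.releaf φ ψ (φ3 0 (by omega)) (fun ξ hξ => ?_) hφ2 (fun ξ hξ => ?_) (fun i => ?_)
      hsub h.cid (h.cmono.mono (subset_insert z C)) (fun i hi => ?_)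
    · rw [φ1]
      exact ⟨rfl, fun ξ' e => Sum.inl.inj e ▸ mem_insert_of_mem z hξ⟩
    · by_cases e : ξ = z
      · subst e
        rw [ψ1]
        exact ⟨Function.update_self j _ R.pv, fun ξ' e => absurd e Sum.inr_ne_inl⟩
      · rw [ψ2 ξ e]
        exact ⟨rfl, fun ξ' e' => Sum.inl.inj e' ▸ hξ.resolve_left e⟩
    · by_cases hi : i = j
      · subst hi
        rw [ψ3, h.pz i hj]
        exact ⟨congrArg od (h.cid 0 h0), fun ξ' e => Sum.inl.inj e ▸ hsub h0⟩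
      · rw [ψ4 i hi]
        exact ⟨Function.update_of_ne hi _ R.pv, fun ξ' e => absurd e Sum.inr_ne_inl⟩
    · rw [Function.update_of_ne (by omega)]
      exact h.pz i (by omega)
  · rw [hsb]
    exact (den_lmap (fun ξ _ => by rw [φ1]; rfl) fun i => (hφ2 i).1).symm

end Pool.Agent.P.MP_833f7a_lc
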