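import Pool.Agent.P.MP_833f7a_lc.NmL

/-!
Basic facts on coherent families of realisations; ranks.
-/

universe u v w

namespace Pool.Agent.P.MP_833f7a_lc

open Cardinal Ordinal Set Code Nm

section rnk
variable {α : Type (u + 1)} {r : α → α → Prop} (hr : WellFounded r) (X : Set α) [Small.{u} X]
omit [Small.{u} X] in
theorem UML_rnk (a : α) : rnk hr X a = ⨆ x : {x // x ∈ X ∧ r x a}, (rnk hr X x.1 + 1) := by
  rw [rnk, hr.fix_eq]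
theorem UML_small (P : α → Prop) : Small.{u} {x // x ∈ X ∧ P x} :=
  small_subset (s := X) (t := {x | x ∈ X ∧ P x}) fun _ h => h.1
theorem rnk_lt {x a : α} (hx : x ∈ X) (h : r x a) : rnk hr X x < rnk hr X a := by
  have := UML_small X fun x => r x a
  rw [UML_rnk hr X a]
  exact (lt_add_one _).trans_le
    (Ordinal.le_iSup (fun x : {x // x ∈ X ∧ r x a} => rnk hr X x.1 + 1) ⟨x, hx, h⟩)
theorem lt_rnk {a : α} {ξ : Ordinal.{u}} (h : ξ < rnk hr X a) :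
    ∃ x ∈ X, r x a ∧ ξ ≤ rnk hr X x := by
  have := UML_small X fun x => r x a
  rw [UML_rnk, Ordinal.lt_iSup_iff] at h
  obtain ⟨x, hx⟩ := h
  exact ⟨x.1, x.2.1, x.2.2, Order.lt_add_one_iff.1 hx⟩
theorem rnk_le_of_sub {a a' : α} (h : ∀ x ∈ X, r x a → r x a') : rnk hr X a ≤ rnk hr X a' := by
  refine le_of_not_gt fun h1 => ?_
  obtain ⟨x, hx, h2, h3⟩ := lt_rnk hr X h1
  exact (rnk_lt hr X hx (h x hx h2)).not_ge h3
theorem UML_surj (P : α → Prop) (h1 : ∀ x a, r x a → P a → P x)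
    (h2 : ∀ x y a, P a → r x y → r y a → r x a) (a : α) (ha : P a) {ξ : Ordinal.{u}}
    (h : ξ < rnk hr X a) : ∃ x ∈ X, r x a ∧ rnk hr X x = ξ := by
  induction a using hr.induction with
  | _ a ih =>
    obtain ⟨x, hx, h3, h4⟩ := lt_rnk hr X h
    rcases h4.eq_or_lt with h4 | h4
    · exact ⟨x, hx, h3, h4.symm⟩
    · obtain ⟨y, hy, h5, h6⟩ := ih x h3 (h1 x a h3 ha) h4
      exact ⟨y, hy, h2 y x a ha h5 h3, h6⟩
end rnk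

namespace UM

variable {c : Cls.{u}} {κ : Ordinal.{u}} {m : UM c κ} {P Q : Str.{u} Ordinal.{u} → Prop}
  {ν ν' ν'' g g' : Nm.{u} Ordinal.{u}}

theorem Ev.mono (h : m.Ev P) (hPQ : ∀ R, P R → Q R) : m.Ev Q :=
  Filter.Eventually.mono h fun _ => hPQ _
theorem Ev.and (h : m.Ev P) (h' : m.Ev Q) : m.Ev fun R => P R ∧ Q R :=
  Filter.Eventually.and h h'
theorem ev_or : (m.Ev fun R => P R ∨ Q R) ↔ m.Ev P ∨ m.Ev Q := Ultrafilter.eventually_or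
theorem ev_not : (m.Ev fun R => ¬ P R) ↔ ¬ m.Ev P := Ultrafilter.eventually_not
theorem Ev.exists (h : m.Ev P) : ∃ s, P (m.R s) := Filter.Eventually.exists h
theorem ev_of_forall (h : ∀ s, P (m.R s)) : m.Ev P := Filter.Eventually.of_forall h
theorem ev_list {α : Type v} {L : List α} {P : α → Str.{u} Ordinal.{u} → Prop}
    (h : ∀ a ∈ L, m.Ev (P a)) : m.Ev fun R => ∀ a ∈ L, P a R := by
  induction L with
  | nil => exact ev_of_forall fun _ _ h => (List.not_mem_nil h).elim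
  | cons a L ih =>
    exact ((h a List.mem_cons_self).and (ih fun b hb => h b (List.mem_cons_of_mem _ hb))).mono
      fun _ h => List.forall_mem_cons.2 h
theorem ev_mem (i : Ordinal.{u}) : ∀ᶠ s in m.𝒰, i ∈ m.I s :=
  (m.cover (b i) (ok_b.2 trivial)).mono fun _ h => ok_b.1 h
theorem ev_in (h : OkK c κ ν) : m.Ev fun R => InE (R.den ν) R.β :=
  (m.cover ν h).mono fun s hs => (m.real s).den_in hs
theorem ev_fs : m.Ev fun R => FS R.F ∧ ω ≤ R.β ∧ (c.hb ↔ R.μ0 < R.β) ∧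
    (R.μ0 < R.β → R.pv 0 = od R.μ0) ∧ ∀ ξ < c.γ, R.cv ξ = ξ :=
  ev_of_forall fun s =>
    ⟨(m.real s).fs, (m.real s).om, (m.real s).hb, (m.real s).p0, (m.real s).cid⟩
theorem stab_eq {s : Ix.{u}} (h : ν.Ok c.k c.fl (m.C s) (m.I s))
    (h' : ν'.Ok c.k c.fl (m.C s) (m.I s)) :
    (m.R s).den ν 0 = (m.R s).den ν' 0 ↔ m.EqE ν ν' := by
  have := m.stab s (eqN ν ν') (ok_op.2 (ok_cons.2 ⟨h, h'⟩))
  simp only [tr_eqN] at this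
  exact this
theorem EqE.refl (ν : Nm.{u} Ordinal.{u}) : m.EqE ν ν := ev_of_forall fun _ => rfl
theorem EqE.symm (h : m.EqE ν ν') : m.EqE ν' ν := Ev.mono h fun _ => Eq.symm
theorem EqE.trans (h : m.EqE ν ν') (h' : m.EqE ν' ν'') : m.EqE ν ν'' :=
  (Ev.and h h').mono fun _ h => h.1.trans h.2
theorem ElE.ordE (h : m.ElE ν ν') (h' : m.OrdE ν') : m.OrdE ν :=
  (Ev.and h h').mono fun R ⟨h1, z, h2⟩ => by
    rw [h2, el_od] at h1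
    obtain ⟨a, -, h3⟩ := h1
    exact ⟨a, h3⟩
theorem UML_el_trans (o : m.OrdE ν'') (h : m.ElE ν ν') (h' : m.ElE ν' ν'') : m.ElE ν ν'' :=
  (Ev.and o (Ev.and h h')).mono fun R ⟨⟨z, h0⟩, h1, h2⟩ => by
    rw [h0, el_od] at h2 ⊢
    obtain ⟨a, ha, h3⟩ := h2
    rw [h3, el_od] at h1
    obtain ⟨a', ha', h4⟩ := h1
    exact ⟨a', ha'.trans ha, h4⟩
theorem UML_el_eq (h : m.ElE ν ν') (e : m.EqE ν' ν'') : m.ElE ν ν'' :=
  (Ev.and h e).mono fun _ h => h.2 ▸ h.1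
theorem UpE.ordE (h : m.UpE g) : m.OrdE g := Ev.mono h fun _ ⟨μ, _, h⟩ => ⟨μ, h⟩
theorem UpE.hb (h : m.UpE g) : c.hb := by
  obtain ⟨s, μ, h1, -⟩ := Ev.exists h
  exact (m.real s).hb.2 (h1.lt.1.trans_lt h1.lt.2)
theorem UpE.congr (h : m.UpE g) (h' : m.EqE g g') : m.UpE g' :=
  (Ev.and h h').mono fun _ ⟨⟨μ, h1, h2⟩, h3⟩ => ⟨μ, h1, h3 ▸ h2⟩
theorem upE_par0 (h : c.hb) : m.UpE (par 0) := ev_of_forall fun s =>
  ⟨_, Or.inl ⟨rfl, (m.real s).hb.1 h⟩, (m.real s).p0 ((m.real s).hb.1 h)⟩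
theorem ordE_cst (ξ : Ordinal.{u}) : m.OrdE (cst ξ) := ev_of_forall fun _ => ⟨_, rfl⟩
theorem ordE_lv (ν : Nm.{u} Ordinal.{u}) : m.OrdE (op1 .lv ν) := ev_of_forall fun _ => ⟨_, rfl⟩
theorem ord_trichotomy (h : m.OrdE ν) (h' : m.OrdE ν') : m.ElE ν ν' ∨ m.EqE ν ν' ∨ m.ElE ν' ν := by
  simp only [ElE, EqE, ← ev_or]
  refine (Ev.and h h').mono fun R ⟨⟨a, h1⟩, a', h2⟩ => ?_
  rw [h1, h2, el_od_od, el_od_od, od.injEq]
  exact lt_trichotomy a a'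
theorem std' {ξ : Ordinal.{u}} (h : OkK c κ ν) (hξ : ξ < κ) (h' : m.ElE ν (cst ξ)) :
    ∃ ξ' < ξ, m.EqE ν (cst ξ') := by
  have := m.std ν ξ h hξ (by simp only [tr_elN]; exact h')
  simp only [tr_eqN] at this
  exact this

instance small_fam0 : Small.{u} m.Fam0 :=
  ((few_names (k := c.k) (fl := c.fl) (reg_th κ 1) (few_Iio (reg_th κ 1) (lt_th κ 1))
    (few_Iio (reg_th κ 1) (th_strictMono κ zero_lt_one))).subset (s := m.Fam0)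
      fun _ h => h.1).small
instance small_adm : Small.{u} {ν | m.Adm ν} := by
  obtain ⟨L, hL⟩ : ∃ L, ∀ g, m.fi g ≤ L := by
    refine ⟨⨆ x : m.Fam0, (m.fi x.1 + 1), fun g => le_of_not_gt fun h => ?_⟩
    obtain ⟨x, hx, -, h1⟩ := lt_rnk m.wfd m.Fam0 h
    exact ((lt_add_one _).trans_le
      (Ordinal.le_iSup (fun x : m.Fam0 => m.fi x.1 + 1) ⟨x, hx⟩)).not_ge h1
  have hb : ∀ g, m.bnd g ≤ th κ L := fun g => by
    unfold bnd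
    split_ifs
    exacts [(th_strictMono κ).monotone (hL g), (lt_th κ L).le]
  exact ((few_names (k := c.k) (fl := c.fl) (reg_th κ (L + 1)) (few_Iio (reg_th _ _) (lt_th κ _))
    (few_Iio (reg_th _ _) (th_strictMono κ (lt_add_one L)))).subset (s := {ν | m.Adm ν})
      fun ν h => ⟨h.1.1, h.1.2.1, fun i ⟨g, hg⟩ => (h.2 i g hg).trans_le (hb g)⟩).small

theorem le_bnd (g : Nm.{u} Ordinal.{u}) : κ ≤ m.bnd g := by
  unfold bnd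
  split_ifs
  exacts [(lt_th κ _).le, le_rfl]
theorem UML_congr (X : Set (Nm.{u} Ordinal.{u})) [Small.{u} X] (h : OkK c κ g) (h' : OkK c κ g')
    (e : m.EqE g g') : rnk m.wfd X g = rnk m.wfd X g' :=
  le_antisymm (rnk_le_of_sub _ _ fun _ _ h1 => ⟨h1.1, h', UML_el_eq h1.2.2 e⟩)
    (rnk_le_of_sub _ _ fun _ _ h1 => ⟨h1.1, h, UML_el_eq h1.2.2 e.symm⟩)
theorem UML_surj' (X : Set (Nm.{u} Ordinal.{u})) [Small.{u} X] (o : m.OrdE g) {ξ : Ordinal.{u}}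
    (hξ : ξ < rnk m.wfd X g) : ∃ g' ∈ X, m.ElE g' g ∧ rnk m.wfd X g' = ξ := by
  obtain ⟨x, hx, h1, h2⟩ := UML_surj m.wfd X m.OrdE (fun _ _ h => ElE.ordE h.2.2)
    (fun _ _ _ o h h' => ⟨h.1, h'.2.1, UML_el_trans o h.2.2 h'.2.2⟩) g o hξ
  exact ⟨x, hx, h1.2.2, h2⟩
theorem fi_congr (h : OkK c κ g) (h' : OkK c κ g') (e : m.EqE g g') : m.fi g = m.fi g' :=
  UML_congr _ h h' e
theorem bnd_congr (h : OkK c κ g) (h' : OkK c κ g') (e : m.EqE g g') : m.bnd g = m.bnd g' := by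
  have : m.UpE g ↔ m.UpE g' := ⟨fun h => h.congr e, fun h => h.congr e.symm⟩
  rw [bnd, bnd, fi_congr h h' e, propext this]
theorem fi_par0 : m.fi (par 0) = 0 := by
  refine le_antisymm (le_of_not_gt fun h => ?_) bot_le
  obtain ⟨x, hx, h1, -⟩ := lt_rnk m.wfd m.Fam0 h
  obtain ⟨s, ⟨μ, h2, h3⟩, h4⟩ := (Ev.and hx.2 (show m.ElE x (par 0) from h1.2.2)).exists
  rw [h3, den_par, (m.real s).p0 (h2.lt.1.trans_lt h2.lt.2), el_od_od] at h4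
  exact h4.not_ge h2.lt.1
theorem fi_lt (h : g ∈ m.Fam0) (h' : OkK c κ g') (e : m.ElE g g') : m.fi g < m.fi g' :=
  rnk_lt m.wfd m.Fam0 h ⟨h.1.mono subset_rfl (subset_univ _), h', e⟩
theorem fi_surj (h : OkK c κ g) (hu : m.UpE g) {ξ : Ordinal.{u}} (hξ : ξ < m.fi g) :
    ∃ g' ∈ m.Fam0, m.ElE g' g ∧ m.fi g' = ξ := (fun _ => UML_surj' _ hu.ordE hξ) h

theorem Adm.okK (h : m.Adm ν) : OkK c κ ν := h.1
theorem adm_cst {ξ : Ordinal.{u}} (h : ξ < κ) : m.Adm (cst ξ) :=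
  ⟨ok_cst.2 h, fun _ _ h => (List.not_mem_nil h).elim⟩
theorem adm_par (i : ℕ) : m.Adm (par i) := ⟨ok_par, fun _ _ h => (List.not_mem_nil h).elim⟩
theorem adm_cons : m.Adm (cons ν ν') ↔ m.Adm ν ∧ m.Adm ν' :=
  ⟨fun h => ⟨⟨(ok_cons.1 h.1).1, fun i g hg => h.2 i g (List.mem_append_left _ hg)⟩,
    (ok_cons.1 h.1).2, fun i g hg => h.2 i g (List.mem_append_right _ hg)⟩,
    fun h => ⟨ok_cons.2 ⟨h.1.1, h.2.1⟩, fun i g hg =>
      (List.mem_append.1 hg).elim (h.1.2 i g) (h.2.2 i g)⟩⟩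
theorem adm_app {t : Trm} : m.Adm (app t ν) ↔ m.Adm ν ∧ OkK c κ (app t ν) :=
  ⟨fun h => ⟨⟨h.1.of_app, h.2⟩, h.1⟩, fun h => ⟨h.2, h.1.2⟩⟩
theorem Adm.app (h : m.Adm ν) {t : Trm} (ht : t.depth ≤ c.k) : m.Adm (Nm.app t ν) :=
  ⟨h.1.app ht, h.2⟩
theorem Adm.op (h : m.Adm ν) (o : Op) : m.Adm (op1 o ν) := ⟨ok_op.2 h.1, h.2⟩
theorem Adm.ent (h : m.Adm ν) (i : ℕ) : m.Adm (Nm.ent i ν) := ⟨ok_ent.2 h.1, h.2⟩
theorem Adm.occ (h : m.Adm ν) {i : Ordinal.{u}} (hg : (i, g) ∈ ν.occ) : m.Adm g :=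
  ⟨(h.1.occ hg).2, fun j g' h' => h.2 j g' (Nm.occ_trans hg h')⟩
theorem adm_lst {l : List (Nm.{u} Ordinal.{u})} : m.Adm (lst l) ↔ ∀ n ∈ l, m.Adm n :=
  ⟨fun h n hn => ⟨ok_lst.1 h.1 n hn, fun i g hg => h.2 i g (occ_lst.2 ⟨n, hn, hg⟩)⟩,
    fun h => ⟨ok_lst.2 fun n hn => (h n hn).1, fun i g hg =>
      (occ_lst.1 hg).elim fun n hn => (h n hn.1).2 i g hn.2⟩⟩

theorem rk_congr (h : OkK c κ ν) (h' : OkK c κ ν') (e : m.EqE ν ν') : m.rk ν = m.rk ν' :=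
  UML_congr _ h h' e
theorem rk_lt (h : m.Adm ν) (h' : OkK c κ ν') (e : m.ElE ν ν') : m.rk ν < m.rk ν' :=
  rnk_lt m.wfd {ν | m.Adm ν} h ⟨h.1, h', e⟩
theorem rk_lt_iff (h : m.Adm ν) (h' : m.Adm ν') (o : m.OrdE ν) (o' : m.OrdE ν') :
    m.rk ν < m.rk ν' ↔ m.ElE ν ν' := by
  refine ⟨fun h1 => ?_, rk_lt h h'.1⟩
  rcases ord_trichotomy o o' with e | e | e
  exacts [e, (h1.ne (rk_congr h.1 h'.1 e)).elim, (h1.not_gt (rk_lt h' h.1 e)).elim]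
theorem rk_eq_iff (h : m.Adm ν) (h' : m.Adm ν') (o : m.OrdE ν) (o' : m.OrdE ν') :
    m.rk ν = m.rk ν' ↔ m.EqE ν ν' := by
  refine ⟨fun h1 => ?_, rk_congr h.1 h'.1⟩
  rcases ord_trichotomy o o' with e | e | e
  exacts [((rk_lt h h'.1 e).ne h1).elim, e, ((rk_lt h' h.1 e).ne h1.symm).elim]
theorem rk_surj (h : OkK c κ ν) (o : m.OrdE ν) {ξ : Ordinal.{u}} (hξ : ξ < m.rk ν) :
    ∃ ν', m.Adm ν' ∧ m.ElE ν' ν ∧ m.rk ν' = ξ := (fun _ => UML_surj' _ o hξ) h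
theorem rk_cst {ξ : Ordinal.{u}} (h : ξ < κ) : m.rk (cst ξ) = ξ := by
  induction ξ using WellFoundedLT.induction with
  | ind ξ ih =>
    refine le_antisymm (le_of_not_gt fun h1 => ?_) (le_of_forall_lt fun ξ' h1 => ?_)
    · obtain ⟨x, hx, h2, h3⟩ := lt_rnk m.wfd {ν | m.Adm ν} h1
      obtain ⟨ξ', h4, h5⟩ := std' h2.1 h h2.2.2
      have h6 := rk_congr h2.1 (ok_cst.2 (h4.trans h)) h5
      rw [ih ξ' h4 (h4.trans h)] at h6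
      exact h4.not_ge (h3.trans_eq h6)
    · rw [← ih ξ' h1 (h1.trans h)]
      refine rk_lt (adm_cst (h1.trans h)) (ok_cst.2 h) ?_
      filter_upwards [m.cover (cst ξ) (ok_cst.2 h), m.cover (cst ξ') (ok_cst.2 (h1.trans h))]
        with s h2 h3
      exact el_od_od.2 ((m.real s).cmono (ok_cst.1 h3) (ok_cst.1 h2) h1)
theorem rk_lt_ht (h : m.Adm ν) (o : m.OrdE ν) : m.rk ν < m.ht := by
  have : Small.{u} {ν // m.Adm ν ∧ m.OrdE ν} := UML_small {ν | m.Adm ν} m.OrdE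
  exact (lt_add_one _).trans_le
    (Ordinal.le_iSup (fun x : {ν // m.Adm ν ∧ m.OrdE ν} => m.rk x.1 + 1) ⟨ν, h, o⟩)
theorem ht_surj {ξ : Ordinal.{u}} (h : ξ < m.ht) : ∃ ν, m.Adm ν ∧ m.OrdE ν ∧ m.rk ν = ξ := by
  have : Small.{u} {ν // m.Adm ν ∧ m.OrdE ν} := UML_small {ν | m.Adm ν} m.OrdE
  rw [ht, Ordinal.lt_iSup_iff] at h
  obtain ⟨⟨x, hx, o⟩, h1⟩ := h
  rcases (Order.lt_add_one_iff.1 h1).eq_or_lt with h2 | h2
  · exact ⟨x, hx, o, h2.symm⟩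
  · obtain ⟨y, hy, h3, h4⟩ := rk_surj hx.1 o h2
    exact ⟨y, hy, h3.ordE o, h4⟩
theorem le_ht : κ ≤ m.ht := le_of_forall_lt fun ξ h =>
  (rk_cst (m := m) h).symm.trans_lt (rk_lt_ht (adm_cst h) (ordE_cst ξ))
/-- Counting. -/
theorem rk_lt_of_few {θ : Ordinal.{u}} {Z : Set (Nm.{u} Ordinal.{u})} (hZ : Few θ Z)
    (h : OkK c κ ν) (o : m.OrdE ν)
    (hz : ∀ ν', m.Adm ν' → m.ElE ν' ν → ∃ z ∈ Z, m.EqE ν' z) : m.rk ν < θ := by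
  have key : ∀ ξ : Iio (m.rk ν), ∃ z : Z, ∃ ν', m.Adm ν' ∧ m.rk ν' = ξ ∧ m.EqE ν' z := by
    intro ξ
    obtain ⟨ν', h1, h2, h3⟩ := rk_surj h o ξ.2
    obtain ⟨z, h4, h5⟩ := hz ν' h1 h2
    exact ⟨⟨z, h4⟩, ν', h1, h3, h5⟩
  choose z n h1 h2 h3 using key
  refine hZ.lt_of_inj z fun ξ ξ' e => Subtype.ext ?_
  rw [← h2, ← h2]
  exact rk_congr (h1 ξ).1 (h1 ξ').1 ((h3 ξ).trans (e ▸ (h3 ξ').symm))
theorem ht_lt_of_few {θ : Ordinal.{u}} (h : Few θ {ν | m.Adm ν}) : m.ht < θ := by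
  choose n h1 _ h3 using fun ξ : Iio m.ht => ht_surj ξ.2
  refine h.lt_of_inj (fun ξ => ⟨n ξ, h1 ξ⟩) fun ξ ξ' e => Subtype.ext ?_
  rw [← h3, ← h3, show n ξ = n ξ' from congrArg Subtype.val e]

end UM

end Pool.Agent.P.MP_833f7a_lc
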