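import Pool.Agent.P.MP_833f7a_lc.SigB
import Pool.Agent.P.MP_833f7a_lc.Trans
import Pool.Agent.P.MP_833f7a_lc.UML

/-!
The codes of the good theories of a class form a `Σ₁` set.
-/

universe u v w

namespace Pool.Agent.P.MP_833f7a_lc

open Cardinal Ordinal Set Code Nm
open scoped Classical

variable {c : Cls.{u}}

theorem CodeN_cs_lmap (h : Ordinal.{u} → Ordinal.{u}) (ν : Nm.{u} Ordinal.{u}) :
    (ν.lmap (Sum.map h id)).cs = ν.cs.map h := by
  induction ν with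
  | lf x => cases x <;> rfl
  | b η => rfl
  | u η g ih => exact ih
  | app t ν ih => exact ih
  | cons ν ν' ih ih' =>
    show (ν.lmap _).cs ++ (ν'.lmap _).cs = (ν.cs ++ ν'.cs).map h
    rw [ih, ih', List.map_append]

theorem CodeN_lmap_congr {f g : Ordinal.{u} → Ordinal.{u}} {ν : Nm.{u} Ordinal.{u}}
    (h : ∀ ξ ∈ ν.cs, f ξ = g ξ) : ν.lmap (Sum.map f id) = ν.lmap (Sum.map g id) :=
  Nm.lmap_congr (fun ξ hξ => congrArg Sum.inl (h ξ hξ)) fun _ => rfl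

theorem CodeN_lmap_comp (f g : Ordinal.{u} → Ordinal.{u}) (ν : Nm.{u} Ordinal.{u}) :
    (ν.lmap (Sum.map f id)).lmap (Sum.map g id) = ν.lmap (Sum.map (g ∘ f) id) := by
  rw [Nm.lmap_lmap]
  exact Nm.lmap_congr (fun _ _ => rfl) fun _ => rfl

theorem CodeN_lmap_fix {f : Ordinal.{u} → Ordinal.{u}} {ν : Nm.{u} Ordinal.{u}}
    (h : ∀ ξ ∈ ν.cs, f ξ = ξ) : ν.lmap (Sum.map f id) = ν := by
  refine Eq.trans ?_ (Nm.lmap_id ν)
  exact Nm.lmap_congr (fun ξ hξ => congrArg Sum.inl (h ξ hξ)) fun _ => rfl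

theorem CodeN_ok_lmap {k : ℕ} {fl : Prop} {C C' I : Set Ordinal.{u}} {ν : Nm.{u} Ordinal.{u}}
    (hν : ν.Ok k fl C I) {f : Ordinal.{u} → Ordinal.{u}} (hf : ∀ ξ ∈ ν.cs, f ξ ∈ C') :
    (ν.lmap (Sum.map f id)).Ok k fl C' I :=
  hν.lmap (fun ξ hξ ξ' e => by
    have e' : f ξ = ξ' := Sum.inl.inj e
    exact e' ▸ hf ξ hξ) fun i ξ' e => by cases e

theorem CodeN_ok_of_cs {k : ℕ} {fl : Prop} {C C' I : Set Ordinal.{u}} {ν : Nm.{u} Ordinal.{u}}
    (hν : ν.Ok k fl C I) (h : ∀ ξ ∈ ν.cs, ξ ∈ C') : ν.Ok k fl C' I := ⟨hν.1, h, hν.2.2⟩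

theorem CodeN_lmap_inj {f : Ordinal.{u} → Ordinal.{u}} {A : Set Ordinal.{u}} (hf : InjOn f A)
    {ν ν' : Nm.{u} Ordinal.{u}} (hν : ∀ ξ ∈ ν.cs, ξ ∈ A) (hν' : ∀ ξ ∈ ν'.cs, ξ ∈ A)
    (h : ν.lmap (Sum.map f id) = ν'.lmap (Sum.map f id)) : ν = ν' := by
  have key : ∀ n : Nm.{u} Ordinal.{u}, (∀ ξ ∈ n.cs, ξ ∈ A) →
      (n.lmap (Sum.map f id)).lmap (Sum.map (Function.invFunOn f A) id) = n := by
    intro n hn
    rw [CodeN_lmap_comp]
    exact CodeN_lmap_fix fun ξ hξ => hf.leftInvOn_invFunOn (hn ξ hξ)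
  rw [← key ν hν, h, key ν' hν']

/-- Pulling a name back along a map whose image contains the constants. -/
theorem CodeN_pull {k : ℕ} {fl : Prop} {A I : Set Ordinal.{u}} (h : Ordinal.{u} → Ordinal.{u})
    {ν : Nm.{u} Ordinal.{u}} (hν : ν.Ok k fl (h '' A) I) :
    (ν.lmap (Sum.map (Function.invFunOn h A) id)).Ok k fl A I ∧
      (ν.lmap (Sum.map (Function.invFunOn h A) id)).lmap (Sum.map h id) = ν := by
  refine ⟨CodeN_ok_lmap hν fun ξ hξ => Function.invFunOn_mem (hν.2.1 ξ hξ), ?_⟩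
  rw [CodeN_lmap_comp]
  exact CodeN_lmap_fix fun ξ hξ => Function.invFunOn_eq (hν.2.1 ξ hξ)

/-- The big constants. -/
noncomputable def CodeN_big (γ : Ordinal.{u}) (ν : Nm.{u} Ordinal.{u}) : Finset Ordinal.{u} :=
  ν.cs.toFinset.filter (γ ≤ ·)

/-- The collapse of the big constants. -/
noncomputable def CodeN_nrm (γ : Ordinal.{u}) (s : Finset Ordinal.{u}) (ξ : Ordinal.{u}) :
    Ordinal.{u} := if ξ < γ then ξ else γ + ((s.filter (· < ξ)).card : ℕ)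

theorem CodeN_mem_big {γ ξ : Ordinal.{u}} {ν : Nm.{u} Ordinal.{u}} :
    ξ ∈ CodeN_big γ ν ↔ ξ ∈ ν.cs ∧ γ ≤ ξ := by
  simp [CodeN_big]

theorem CodeN_nrm_mono (γ : Ordinal.{u}) (s : Finset Ordinal.{u}) :
    StrictMonoOn (CodeN_nrm γ s) (Iio γ ∪ s) := by
  intro a ha b _ hab
  unfold CodeN_nrm
  by_cases h1 : a < γ
  · rw [if_pos h1]
    by_cases h2 : b < γ
    · rw [if_pos h2]
      exact hab
    · rw [if_neg h2]
      exact h1.trans_le le_self_add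
  · have h2 : ¬ b < γ := fun h => h1 (hab.trans h)
    rw [if_neg h1, if_neg h2]
    have has : a ∈ s := ha.resolve_left h1
    refine (add_lt_add_iff_left γ).2 (Nat.cast_lt.2 (Finset.card_lt_card ⟨?_, fun h => ?_⟩))
    · intro x hx
      rw [Finset.mem_filter] at hx ⊢
      exact ⟨hx.1, hx.2.trans hab⟩
    · exact lt_irrefl a (Finset.mem_filter.1 (h (Finset.mem_filter.2 ⟨has, hab⟩))).2

theorem CodeN_nrm_lt (γ : Ordinal.{u}) (s : Finset Ordinal.{u}) (ξ : Ordinal.{u}) :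
    CodeN_nrm γ s ξ < γ + ω := by
  unfold CodeN_nrm
  by_cases h1 : ξ < γ
  · rw [if_pos h1]
    exact h1.trans_le le_self_add
  · rw [if_neg h1]
    exact (add_lt_add_iff_left γ).2 (natCast_lt_omega0 _)

theorem CodeN_le_of_fix {γ : Ordinal.{u}} {C : Set Ordinal.{u}} {h : Ordinal.{u} → Ordinal.{u}}
    (hC : Iio γ ⊆ C) (hid : ∀ ξ < γ, h ξ = ξ) (hm : StrictMonoOn h C) {ξ : Ordinal.{u}}
    (hξ : ξ ∈ C) (hγ : γ ≤ ξ) : γ ≤ h ξ := by
  refine le_of_forall_lt fun η hη => ?_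
  rw [← hid η hη]
  exact hm (hC hη) hξ (hη.trans_le hγ)

/-- Names as finite sets of ordinals: a shape below `γ` and the big constants. -/
theorem exists_name_code (hγ : ω₁ ≤ c.γ) :
    ∃ (cd : Nm.{u} Ordinal.{u} → Finset Ordinal.{u}) (s0 : Ordinal.{u}), s0 < c.γ ∧
      InjOn cd {ν | ν.Ok c.k c.fl univ (Iio ω₁)} ∧
      (∀ ξ, c.γ ≤ ξ → cd (cst ξ) = {s0, ξ}) ∧
      (∀ ν, ν.Ok c.k c.fl univ (Iio ω₁) → ∀ ξ, c.γ ≤ ξ → (ξ ∈ cd ν ↔ ξ ∈ ν.cs)) ∧
      ∀ (C : Set Ordinal.{u}) (h : Ordinal.{u} → Ordinal.{u}), Iio c.γ ⊆ C → (∀ ξ < c.γ, h ξ = ξ) →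
        StrictMonoOn h C → ∀ ν, ν.Ok c.k c.fl C (Iio ω₁) →
          cd (ν.lmap (Sum.map h id)) = (cd ν).image h := by
  have hω : (ω : Ordinal.{u}) ≤ c.γ := reg_omega1.omega_lt.le.trans hγ
  have hreg : Reg (nxt c.γ) := reg_nxt hω
  have hfew : Few (nxt c.γ)
      {ν : Nm.{u} Ordinal.{u} | ν.Ok c.k c.fl (Iio (c.γ + ω)) (Iio ω₁)} :=
    few_names hreg (few_Iio hreg (hreg.add_lt (lt_nxt _) hreg.omega_lt))
      (few_Iio hreg (hγ.trans_lt (lt_nxt _)))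
  obtain ⟨f, hf, hfγ⟩ := hfew.exists_inj_nxt
  have h0 : 0 < c.γ := reg_omega1.pos.trans_le hγ
  let sh : Nm.{u} Ordinal.{u} → Ordinal.{u} := fun ν =>
    if h : ν.Ok c.k c.fl (Iio (c.γ + ω)) (Iio ω₁) then f ⟨ν, h⟩ else 0
  have hsh : ∀ ν, sh ν < c.γ := by
    intro ν
    by_cases h : ν.Ok c.k c.fl (Iio (c.γ + ω)) (Iio ω₁)
    · simp only [sh, dif_pos h]
      exact hfγ _
    · simp only [sh, dif_neg h]
      exact h0
  have hshi : ∀ ν ν', ν.Ok c.k c.fl (Iio (c.γ + ω)) (Iio ω₁) →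
      ν'.Ok c.k c.fl (Iio (c.γ + ω)) (Iio ω₁) → sh ν = sh ν' → ν = ν' := by
    intro ν ν' h h' e
    simp only [sh, dif_pos h, dif_pos h'] at e
    exact congrArg Subtype.val (hf e)
  let nr : Nm.{u} Ordinal.{u} → Nm.{u} Ordinal.{u} := fun ν =>
    ν.lmap (Sum.map (CodeN_nrm c.γ (CodeN_big c.γ ν)) id)
  have hmem : ∀ ν ξ, c.γ ≤ ξ →
      (ξ ∈ insert (sh (nr ν)) (CodeN_big c.γ ν) ↔ ξ ∈ CodeN_big c.γ ν) := by
    intro ν ξ hξ
    rw [Finset.mem_insert]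
    exact or_iff_right fun e => absurd (hsh (nr ν)) (not_lt.2 (e ▸ hξ))
  have hcs : ∀ ν : Nm.{u} Ordinal.{u}, ∀ ξ ∈ ν.cs, ξ ∈ Iio c.γ ∪ (CodeN_big c.γ ν : Set _) := by
    intro ν ξ hξ
    rcases lt_or_ge ξ c.γ with h | h
    · exact Or.inl h
    · exact Or.inr (CodeN_mem_big.2 ⟨hξ, h⟩)
  refine ⟨fun ν => insert (sh (nr ν)) (CodeN_big c.γ ν), sh (cst c.γ), hsh _, ?_, ?_, ?_, ?_⟩
  · intro ν hν ν' hν' e
    have e' : insert (sh (nr ν)) (CodeN_big c.γ ν) = insert (sh (nr ν')) (CodeN_big c.γ ν') := e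
    have hb : CodeN_big c.γ ν = CodeN_big c.γ ν' := by
      ext ξ
      constructor
      · intro h
        have h1 := (CodeN_mem_big.1 h).2
        rw [← hmem ν' ξ h1, ← e', hmem ν ξ h1]
        exact h
      · intro h
        have h1 := (CodeN_mem_big.1 h).2
        rw [← hmem ν ξ h1, e', hmem ν' ξ h1]
        exact h
    have hs : sh (nr ν) = sh (nr ν') := by
      have h1 : sh (nr ν) ∈ insert (sh (nr ν')) (CodeN_big c.γ ν') :=
        e' ▸ Finset.mem_insert_self _ _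
      rcases Finset.mem_insert.1 h1 with h | h
      · exact h
      · exact absurd (hsh (nr ν)) (not_lt.2 (CodeN_mem_big.1 h).2)
    have hn : nr ν = nr ν' := hshi _ _ (CodeN_ok_lmap hν fun ξ _ => CodeN_nrm_lt _ _ ξ)
      (CodeN_ok_lmap hν' fun ξ _ => CodeN_nrm_lt _ _ ξ) hs
    refine CodeN_lmap_inj (CodeN_nrm_mono c.γ (CodeN_big c.γ ν)).injOn (hcs ν) (hb ▸ hcs ν') ?_
    refine Eq.trans hn ?_
    rw [hb]
  · intro ξ hξ
    have hb : CodeN_big c.γ (cst ξ) = {ξ} := by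
      ext η
      rw [CodeN_mem_big, Finset.mem_singleton]
      show η ∈ [ξ] ∧ _ ↔ _
      rw [List.mem_singleton]
      exact ⟨fun h => h.1, fun h => ⟨h, h ▸ hξ⟩⟩
    have hn : nr (cst ξ) = cst c.γ := by
      show (cst (CodeN_nrm c.γ (CodeN_big c.γ (cst ξ)) ξ) : Nm.{u} Ordinal.{u}) = cst c.γ
      rw [hb, CodeN_nrm, if_neg (not_lt.2 hξ)]
      simp [Finset.filter_singleton]
    show insert (sh (nr (cst ξ))) (CodeN_big c.γ (cst ξ)) = _
    rw [hn, hb]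
  · intro ν _ ξ hξ
    show ξ ∈ insert (sh (nr ν)) (CodeN_big c.γ ν) ↔ _
    rw [hmem ν ξ hξ, CodeN_mem_big]
    exact and_iff_left hξ
  · intro C h hC hid hm ν hν
    have hb : CodeN_big c.γ (ν.lmap (Sum.map h id)) = (CodeN_big c.γ ν).image h := by
      ext η
      rw [CodeN_mem_big, CodeN_cs_lmap, List.mem_map, Finset.mem_image]
      constructor
      · rintro ⟨⟨ξ, hξ, rfl⟩, hη⟩
        refine ⟨ξ, CodeN_mem_big.2 ⟨hξ, not_lt.1 fun hlt => ?_⟩, rfl⟩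
        rw [hid ξ hlt] at hη
        exact absurd hlt (not_lt.2 hη)
      · rintro ⟨ξ, hξ, rfl⟩
        obtain ⟨h1, h2⟩ := CodeN_mem_big.1 hξ
        exact ⟨⟨ξ, h1, rfl⟩, CodeN_le_of_fix hC hid hm (hν.2.1 ξ h1) h2⟩
    have hbC : ∀ ξ ∈ CodeN_big c.γ ν, ξ ∈ C := fun ξ hξ => hν.2.1 ξ (CodeN_mem_big.1 hξ).1
    have hn : nr (ν.lmap (Sum.map h id)) = nr ν := by
      show (ν.lmap (Sum.map h id)).lmap (Sum.map (CodeN_nrm c.γ
        (CodeN_big c.γ (ν.lmap (Sum.map h id)))) id) = ν.lmap _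
      rw [CodeN_lmap_comp, hb]
      refine CodeN_lmap_congr fun ξ hξ => ?_
      show CodeN_nrm c.γ _ (h ξ) = CodeN_nrm c.γ _ ξ
      unfold CodeN_nrm
      by_cases h1 : ξ < c.γ
      · rw [hid ξ h1, if_pos h1, if_pos h1]
      · have hξC := hν.2.1 ξ hξ
        rw [if_neg h1, if_neg (not_lt.2 (CodeN_le_of_fix hC hid hm hξC (not_lt.1 h1)))]
        have h2 : ((CodeN_big c.γ ν).image h).filter (· < h ξ) =
            ((CodeN_big c.γ ν).filter (· < ξ)).image h := by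
          rw [Finset.filter_image]
          congr 1
          exact Finset.filter_congr fun η hη => hm.lt_iff_lt (hbC η hη) hξC
        rw [h2, Finset.card_image_of_injOn
          (hm.injOn.mono fun η hη => hbC η (Finset.mem_filter.1 hη).1)]
    show insert (sh (nr (ν.lmap (Sum.map h id)))) (CodeN_big c.γ (ν.lmap (Sum.map h id))) =
      (insert (sh (nr ν)) (CodeN_big c.γ ν)).image h
    rw [hn, hb, Finset.image_insert, hid _ (hsh _)]

theorem CodeN_el_od {F : FSys.{u}} {x : Code.{u}} {a : Ordinal.{u}} :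
    El F x (od a) ↔ ∃ z < a, x = od z := by
  rw [El, ElS]
  rfl

theorem CodeN_el_od_od {F : FSys.{u}} {a b : Ordinal.{u}} : El F (od a) (od b) ↔ a < b := by
  rw [CodeN_el_od]
  exact ⟨fun ⟨z, hz, e⟩ => Code.od.inj e ▸ hz, fun h => ⟨a, h, rfl⟩⟩

/-- A realisation for a given list of constants. -/
theorem CodeN_real {lam : Ordinal.{u}} {T : Set (Nm.{u} Ordinal.{u})}
    (hfin : ∀ l : Finset Ordinal.{u}, (∀ ξ ∈ l, ξ < lam) → ∃ R : Str.{u} Ordinal.{u},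
      Real c R (Iio c.γ ∪ l) (Iio ω₁) ∧
        ∀ ν : Nm.{u} Ordinal.{u}, ν.Ok c.k c.fl (Iio c.γ ∪ l) (Iio ω₁) → (ν ∈ T ↔ R.Tr ν))
    (L : List Ordinal.{u}) (hL : ∀ ξ ∈ L, ξ < lam) :
    ∃ (R : Str.{u} Ordinal.{u}) (C : Set Ordinal.{u}), Real c R C (Iio ω₁) ∧ (∀ ξ ∈ L, ξ ∈ C) ∧
      ∀ ν : Nm.{u} Ordinal.{u}, ν.Ok c.k c.fl C (Iio ω₁) → (ν ∈ T ↔ R.Tr ν) := by
  obtain ⟨R, hR, hT⟩ := hfin L.toFinset fun ξ hξ => hL ξ (List.mem_toFinset.1 hξ)
  exact ⟨R, _, hR, fun ξ hξ => Or.inr (List.mem_toFinset.2 hξ), hT⟩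

theorem CodeN_el_cst {lam : Ordinal.{u}} {T : Set (Nm.{u} Ordinal.{u})}
    (hfin : ∀ l : Finset Ordinal.{u}, (∀ ξ ∈ l, ξ < lam) → ∃ R : Str.{u} Ordinal.{u},
      Real c R (Iio c.γ ∪ l) (Iio ω₁) ∧
        ∀ ν : Nm.{u} Ordinal.{u}, ν.Ok c.k c.fl (Iio c.γ ∪ l) (Iio ω₁) → (ν ∈ T ↔ R.Tr ν))
    {a b : Ordinal.{u}} (hab : a < b) (hb : b < lam) : elN (cst a) (cst b) ∈ T := by
  obtain ⟨R, C, hR, hL, hT⟩ := CodeN_real hfin [a, b] (by
    intro ξ hξ
    rcases List.mem_pair.1 hξ with rfl | rfl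
    exacts [hab.trans hb, hb])
  have ha : a ∈ C := hL a (by simp)
  have hb' : b ∈ C := hL b (by simp)
  rw [hT _ (by simp [ha, hb']), tr_elN]
  exact CodeN_el_od_od.2 (hR.cmono ha hb' hab)

/-- Standardness and well-foundedness are witnessed by a rank function. -/
theorem good_iff_rank {lam : Ordinal.{u}} (hv : c.Valid lam) {T : Set (Nm.{u} Ordinal.{u})}
    (hok : ∀ ν ∈ T, ν.Ok c.k c.fl (Iio lam) (Iio ω₁))
    (hfin : ∀ l : Finset Ordinal.{u}, (∀ ξ ∈ l, ξ < lam) → ∃ R : Str.{u} Ordinal.{u},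
      Real c R (Iio c.γ ∪ l) (Iio ω₁) ∧
        ∀ ν : Nm.{u} Ordinal.{u}, ν.Ok c.k c.fl (Iio c.γ ∪ l) (Iio ω₁) → (ν ∈ T ↔ R.Tr ν)) :
    Good c lam T ↔ ∃ o : Nm.{u} Ordinal.{u} → Ordinal.{u},
      (∀ ξ, c.γ ≤ ξ → ξ < lam → o (cst ξ) = ξ) ∧ ∀ ν ν', elN ν ν' ∈ T → o ν < o ν' := by
  have hel : ∀ ν ν', elN ν ν' ∈ T →
      ν.Ok c.k c.fl (Iio lam) (Iio ω₁) ∧ ν'.Ok c.k c.fl (Iio lam) (Iio ω₁) :=
    fun ν ν' h => ok_cons.1 (ok_op.1 (hok _ h))
  constructor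
  · intro hT
    have h1 : (ω₁ : Ordinal.{u}) < lam := hv.1.trans_lt hv.2.1
    have hreg : Reg (nxt lam) := reg_nxt (reg_omega1.omega_lt.le.trans h1.le)
    set X : Set (Nm.{u} Ordinal.{u}) := {ν | ν.Ok c.k c.fl (Iio lam) (Iio ω₁)} with hX
    have : Small.{u} X :=
      (few_names hreg (few_Iio_nxt lam) (few_Iio hreg (h1.trans (lt_nxt _)))).small
    have hlt : ∀ ν ν', elN ν ν' ∈ T → rnk hT.wfd X ν < rnk hT.wfd X ν' :=
      fun ν ν' h => rnk_lt hT.wfd X (hel ν ν' h).1 h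
    have hc : ∀ ξ, ξ < lam → rnk hT.wfd X (cst ξ) = ξ := by
      intro ξ
      induction ξ using WellFoundedLT.induction with
      | ind ξ ih =>
        intro hξ
        refine le_antisymm (not_lt.1 fun h => ?_) (le_of_forall_lt fun η hη => ?_)
        · obtain ⟨x, hx, hxξ, hle⟩ := lt_rnk hT.wfd X h
          obtain ⟨η, hη, he⟩ := hT.std x ξ hxξ
          have h2 : rnk hT.wfd X x ≤ rnk hT.wfd X (cst η) := by
            refine rnk_le_of_sub hT.wfd X fun y hy hyx => ?_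
            obtain ⟨R, C, -, hL, hR⟩ := CodeN_real hfin (η :: (x.cs ++ y.cs)) (by
              intro z hz
              rcases List.mem_cons.1 hz with rfl | hz
              · exact hη.trans hξ
              · rcases List.mem_append.1 hz with hz | hz
                exacts [hx.2.1 z hz, hy.2.1 z hz])
            have hxC : x.Ok c.k c.fl C (Iio ω₁) :=
              CodeN_ok_of_cs hx fun z hz => hL z (by simp [hz])
            have hyC : y.Ok c.k c.fl C (Iio ω₁) :=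
              CodeN_ok_of_cs hy fun z hz => hL z (by simp [hz])
            have hηC : η ∈ C := hL η (by simp)
            have e1 := tr_eqN.1 ((hR _ (by simp [hxC, hηC])).1 he)
            have e2 := tr_elN.1 ((hR _ (by simp [hxC, hyC])).1 hyx)
            refine (hR _ (by simp [hyC, hηC])).2 (tr_elN.2 ?_)
            rw [← e1]
            exact e2
          rw [ih η hη (hη.trans hξ)] at h2
          exact absurd hη (not_lt.2 (hle.trans h2))
        · rw [← ih η hη (hη.trans hξ)]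
          exact hlt _ _ (CodeN_el_cst hfin hη hξ)
    exact ⟨rnk hT.wfd X, fun ξ _ hξ => hc ξ hξ, hlt⟩
  · rintro ⟨o, hoc, ho⟩
    have hge : ∀ ξ, ξ < lam → ξ ≤ o (cst ξ) := by
      intro ξ
      induction ξ using WellFoundedLT.induction with
      | ind ξ ih =>
        intro hξ
        exact le_of_forall_lt fun η hη =>
          (ih η hη (hη.trans hξ)).trans_lt (ho _ _ (CodeN_el_cst hfin hη hξ))
    refine ⟨hok, hfin, fun ν ξ h => ?_,
      Subrelation.wf (fun {ν ν'} h => ho ν ν' h) (InvImage.wf o wellFounded_lt)⟩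
    obtain ⟨hν, hξ⟩ := hel _ _ h
    have hξ' : ξ < lam := ok_cst.1 hξ
    have ha : min (o ν) ξ < lam := (min_le_right _ _).trans_lt hξ'
    obtain ⟨R, C, hre, hL, hR⟩ := CodeN_real hfin (ξ :: min (o ν) ξ :: ν.cs) (by
      intro z hz
      rcases List.mem_cons.1 hz with rfl | hz
      · exact hξ'
      · rcases List.mem_cons.1 hz with rfl | hz
        exacts [ha, hν.2.1 z hz])
    have hνC : ν.Ok c.k c.fl C (Iio ω₁) := CodeN_ok_of_cs hν fun z hz =>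
      hL z (List.mem_cons_of_mem _ (List.mem_cons_of_mem _ hz))
    have hξC : ξ ∈ C := hL ξ List.mem_cons_self
    have haC : min (o ν) ξ ∈ C := hL _ (List.mem_cons_of_mem _ List.mem_cons_self)
    obtain ⟨z, hz, e⟩ := CodeN_el_od.1 (tr_elN.1 ((hR _ (by simp [hνC, hξC])).1 h))
    have hsmall : z < c.γ → z < ξ → ∃ ξ' < ξ, eqN ν (cst ξ') ∈ T := by
      intro h1 h2
      refine ⟨z, h2, (hR _ (by simp [hνC, hre.sub h1])).2 (tr_eqN.2 ?_)⟩
      rw [e]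
      exact congrArg od (hre.cid z h1).symm
    rcases lt_or_ge ξ c.γ with h1 | h1
    · rw [hre.cid ξ h1] at hz
      exact hsmall (hz.trans h1) hz
    rcases lt_or_ge z c.γ with h2 | h2
    · exact hsmall h2 (h2.trans_le h1)
    have h3 : o ν < ξ := hoc ξ h1 hξ' ▸ ho _ _ h
    rw [min_eq_left h3.le] at ha haC
    rcases lt_trichotomy z (R.cv (o ν)) with h4 | h4 | h4
    · exfalso
      have h5 : elN ν (cst (o ν)) ∈ T := by
        refine (hR _ (by simp [hνC, haC])).2 (tr_elN.2 ?_)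
        rw [e]
        exact CodeN_el_od_od.2 h4
      rcases lt_or_ge (o ν) c.γ with h6 | h6
      · rw [hre.cid _ h6] at h4
        exact absurd (h4.trans h6) (not_lt.2 h2)
      · have h7 := ho _ _ h5
        rw [hoc _ h6 ha] at h7
        exact lt_irrefl _ h7
    · refine ⟨o ν, h3, (hR _ (by simp [hνC, haC])).2 (tr_eqN.2 ?_)⟩
      rw [e, h4]
      rfl
    · exfalso
      have h5 : elN (cst (o ν)) ν ∈ T := by
        refine (hR _ (by simp [hνC, haC])).2 (tr_elN.2 ?_)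
        rw [e]
        exact CodeN_el_od_od.2 h4
      exact absurd (ho _ _ h5) (not_lt.2 (hge _ ha))

/-- Enumeration of `γ` together with finitely many further ordinals. -/
theorem CodeN_enum (γ : Ordinal.{u}) (l : Finset Ordinal.{u}) :
    ∃ (n : ℕ) (h : Ordinal.{u} → Ordinal.{u}), (∀ ξ < γ, h ξ = ξ) ∧
      StrictMonoOn h (Iio (γ + n)) ∧ h '' Iio (γ + n) = Iio γ ∪ l := by
  induction l using Finset.induction_on_max with
  | empty => exact ⟨0, id, fun _ _ => rfl, strictMono_id.strictMonoOn _, by simp⟩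
  | insert a s hs ih =>
    obtain ⟨n, h, hid, hm, him⟩ := ih
    rcases lt_or_ge a γ with ha | ha
    · refine ⟨n, h, hid, hm, ?_⟩
      rw [him, Finset.coe_insert, union_insert,
        insert_eq_of_mem (mem_union_left _ (mem_Iio.2 ha))]
    · have hI : Iio (γ + ((n + 1 : ℕ) : Ordinal.{u})) = insert (γ + n) (Iio (γ + n)) := by
        rw [Nat.cast_succ, ← add_assoc, Iio_insert]
        ext x
        rw [mem_Iio, mem_Iic]
        exact Order.lt_add_one_iff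
      have hup : ∀ ξ < γ + n, Function.update h (γ + n) a ξ = h ξ :=
        fun ξ hξ => Function.update_of_ne hξ.ne _ _
      have hlt : ∀ ξ < γ + n, h ξ < a := by
        intro ξ hξ
        have h1 : h ξ ∈ Iio γ ∪ (s : Set Ordinal.{u}) := him ▸ mem_image_of_mem h hξ
        rcases h1 with h1 | h1
        exacts [lt_of_lt_of_le h1 ha, hs _ h1]
      refine ⟨n + 1, Function.update h (γ + n) a, fun ξ hξ => ?_, ?_, ?_⟩
      · rw [hup ξ (hξ.trans_le le_self_add), hid ξ hξ]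
      · rw [hI]
        intro x hx y hy hxy
        rcases hy with rfl | hy
        · rw [Function.update_self, hup x hxy]
          exact hlt x hxy
        · rw [hup y hy, hup x (hxy.trans hy)]
          exact hm (hxy.trans hy) hy hxy
      · rw [hI, image_insert_eq, Function.update_self,
          image_congr (s := Iio (γ + n)) fun ξ hξ => hup ξ hξ, him, Finset.coe_insert,
          union_insert]

theorem CodeN_image {γ : Ordinal.{u}} (n : ℕ) {h : Ordinal.{u} → Ordinal.{u}}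
    (hid : ∀ ξ < γ, h ξ = ξ) :
    h '' Iio (γ + n) = Iio γ ∪ ((Finset.range n).image fun i : ℕ => h (γ + i) : Finset _) := by
  ext y
  constructor
  · rintro ⟨ξ, hξ, rfl⟩
    rcases lt_or_ge ξ γ with h1 | h1
    · exact Or.inl (by rw [hid ξ h1]; exact h1)
    · obtain ⟨d, rfl⟩ := exists_add_of_le h1
      have h2 : d < (n : Ordinal.{u}) := (add_lt_add_iff_left γ).1 hξ
      obtain ⟨i, rfl⟩ := lt_omega0.1 (h2.trans (natCast_lt_omega0 n))
      exact Or.inr (Finset.mem_coe.2 (Finset.mem_image.2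
        ⟨i, Finset.mem_range.2 (Nat.cast_lt.1 h2), rfl⟩))
  · rintro (h1 | h1)
    · exact ⟨y, lt_of_lt_of_le (mem_Iio.1 h1) le_self_add, hid y h1⟩
    · obtain ⟨i, hi, rfl⟩ := Finset.mem_image.1 (Finset.mem_coe.1 h1)
      exact ⟨γ + i, (add_lt_add_iff_left γ).2 (Nat.cast_lt.2 (Finset.mem_range.1 hi)), rfl⟩

theorem CodeN_image_inj {h : Ordinal.{u} → Ordinal.{u}} {A : Set Ordinal.{u}} (hi : InjOn h A)
    {b b' : Finset Ordinal.{u}} (hb : ↑b ⊆ A) (hb' : ↑b' ⊆ A) (e : b.image h = b'.image h) :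
    b = b' := by
  have e' : h '' (b : Set Ordinal.{u}) = h '' (b' : Set Ordinal.{u}) := by
    rw [← Finset.coe_image, ← Finset.coe_image, e]
  exact Finset.coe_injective ((hi.image_eq_image_iff hb hb').1 e')

theorem exists_coding {κ : Cardinal.{u}} (hκ : Inacc κ.ord) (hv : c.Valid κ.ord) :
    ∃ cd : Nm.{u} Ordinal.{u} → Ordinal.{u},
      (∀ ν, ν.Ok c.k c.fl (Iio κ.ord) (Iio ω₁) → cd ν < κ.ord) ∧
      InjOn cd {ν | ν.Ok c.k c.fl (Iio κ.ord) (Iio ω₁)} ∧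
      Sigma1Def κ {x | ∃ T, Good c κ.ord T ∧ ∀ y, y ∈ x ↔ ∃ ν ∈ T, y = (cd ν).toZFSet} := by
  obtain ⟨cd, s0, hs0, hinj, hcst, hbig, heq⟩ := exists_name_code (c := c) hv.1
  have hγκ : c.γ < κ.ord := hv.2.1
  have hne : Nonempty (Nm.{u} Ordinal.{u}) := ⟨par 0⟩
  have huniv : ∀ {C : Set Ordinal.{u}} {ν : Nm.{u} Ordinal.{u}}, ν.Ok c.k c.fl C (Iio ω₁) →
      ν.Ok c.k c.fl univ (Iio ω₁) := fun h => h.mono (subset_univ _) Subset.rfl
  have hsub : ∀ {δ : Ordinal.{u}} {ν : Nm.{u} Ordinal.{u}}, c.γ ≤ δ →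
      ν.Ok c.k c.fl (Iio δ) (Iio ω₁) → ↑(cd ν) ⊆ Iio δ := by
    intro δ ν hδ hν ξ hξ
    rcases lt_or_ge ξ c.γ with h | h
    · exact h.trans_le hδ
    · exact hν.2.1 ξ ((hbig ν (huniv hν) ξ h).1 hξ)
  have hI : ∀ n : ℕ, Iio c.γ ⊆ Iio (c.γ + n) := fun n => Iio_subset_Iio le_self_add
  let 𝓡 : ℕ → Set (Set (Finset Ordinal.{u}) × Set (Finset Ordinal.{u} × Finset Ordinal.{u})) :=
    fun n => {p | ∃ R : Str.{u} Ordinal.{u}, Real c R (Iio (c.γ + n)) (Iio ω₁) ∧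
      (∀ b, b ∈ p.1 ↔ ∃ ν, ν.Ok c.k c.fl (Iio (c.γ + n)) (Iio ω₁) ∧ R.Tr ν ∧ cd ν = b) ∧
      ∀ q, q ∈ p.2 ↔ ∃ ν ν', ν.Ok c.k c.fl (Iio (c.γ + n)) (Iio ω₁) ∧
        ν'.Ok c.k c.fl (Iio (c.γ + n)) (Iio ω₁) ∧ R.Tr (elN ν ν') ∧ (cd ν, cd ν') = q}
  obtain ⟨g, hg, hgi, hS⟩ := sigma1_pattern hκ hγκ hs0 𝓡 (by
    rintro n p ⟨R, -, h1, h2⟩
    refine ⟨fun b hb => ?_, fun q hq => ?_⟩
    · obtain ⟨ν, hν, -, rfl⟩ := (h1 b).1 hb
      exact hsub le_self_add hν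
    · obtain ⟨ν, ν', hν, hν', -, rfl⟩ := (h2 q).1 hq
      exact ⟨hsub le_self_add hν, hsub le_self_add hν'⟩)
  refine ⟨fun ν => g (cd ν), fun ν hν => hg _ (hsub hγκ.le hν), fun ν hν ν' hν' e =>
    hinj (huniv hν) (huniv hν') (hgi (hsub hγκ.le hν) (hsub hγκ.le hν') e), ?_⟩
  convert hS using 1
  ext x
  constructor
  · rintro ⟨T, hT, hx⟩
    obtain ⟨o, hoc, ho⟩ := (good_iff_rank hv hT.ok hT.fin).1 hT
    have hinv : ∀ ν : Nm.{u} Ordinal.{u}, ν.Ok c.k c.fl univ (Iio ω₁) →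
        Function.invFunOn cd {ν | ν.Ok c.k c.fl univ (Iio ω₁)} (cd ν) = ν :=
      fun ν hν => hinj.leftInvOn_invFunOn hν
    refine ⟨fun y hy => ?_,
      fun b => o (Function.invFunOn cd {ν | ν.Ok c.k c.fl univ (Iio ω₁)} b),
      fun ξ h1 h2 => ?_, fun n h hid hm hlt => ?_⟩
    · obtain ⟨ν, hν, rfl⟩ := (hx y).1 hy
      exact ⟨cd ν, hsub hγκ.le (hT.ok ν hν), rfl⟩
    · show o (Function.invFunOn cd _ {s0, ξ}) = ξ
      rw [← hcst ξ h1, hinv _ (ok_cst.2 (mem_univ _)), hoc ξ h1 h2]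
    · have him := CodeN_image n hid
      obtain ⟨R, hR, hRT⟩ := hT.fin ((Finset.range n).image fun i : ℕ => h (c.γ + i)) (by
        intro ξ hξ
        obtain ⟨i, hi, rfl⟩ := Finset.mem_image.1 hξ
        exact hlt _ ((add_lt_add_iff_left c.γ).2 (Nat.cast_lt.2 (Finset.mem_range.1 hi))))
      obtain ⟨hR', hden⟩ := hR.recst hm him (hI n) hid
      rw [← him] at hRT
      have hpush : ∀ ν : Nm.{u} Ordinal.{u}, ν.Ok c.k c.fl (Iio (c.γ + n)) (Iio ω₁) →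
          (ν.lmap (Sum.map h id) ∈ T ↔ (R.releaf (R.cv ∘ h) R.pv).Tr ν) := by
        intro ν hν
        rw [hRT _ (CodeN_ok_lmap hν fun ξ hξ => mem_image_of_mem h (hν.2.1 ξ hξ)), Str.Tr, Str.Tr,
          hden]
      refine ⟨(_, _), ⟨_, hR', fun _ => Iff.rfl, fun _ => Iff.rfl⟩, fun b hb => ?_, ?_⟩
      · constructor
        · rintro ⟨ν, hν, htr, rfl⟩
          exact (hx _).2 ⟨_, (hpush ν hν).2 htr, by rw [← heq _ h (hI n) hid hm ν hν]⟩
        · intro hbx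
          obtain ⟨ν₁, hν₁, e⟩ := (hx _).1 hbx
          have hb' : ↑(b.image h) ⊆ Iio κ.ord := by
            rw [Finset.coe_image]
            rintro _ ⟨ξ, hξ, rfl⟩
            exact hlt ξ (hb hξ)
          have e1 : b.image h = cd ν₁ :=
            hgi hb' (hsub hγκ.le (hT.ok _ hν₁)) (Ordinal.toZFSet_injective e)
          have hok : ν₁.Ok c.k c.fl (h '' Iio (c.γ + n)) (Iio ω₁) := by
            refine CodeN_ok_of_cs (hT.ok _ hν₁) fun ξ hξ => ?_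
            rcases lt_or_ge ξ c.γ with h1 | h1
            · exact ⟨ξ, hI n h1, hid ξ h1⟩
            · have h2 := (hbig ν₁ (huniv (hT.ok _ hν₁)) ξ h1).2 hξ
              rw [← e1] at h2
              obtain ⟨η, hη, rfl⟩ := Finset.mem_image.1 h2
              exact mem_image_of_mem h (hb hη)
          obtain ⟨h1, h2⟩ := CodeN_pull h hok
          refine ⟨_, h1, (hpush _ h1).1 (h2.symm ▸ hν₁), ?_⟩
          refine CodeN_image_inj hm.injOn (hsub le_self_add h1) hb ?_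
          rw [← heq _ h (hI n) hid hm _ h1, h2, e1]
      · rintro q ⟨ν, ν', hν, hν', htr, rfl⟩
        have h1 : elN (ν.lmap (Sum.map h id)) (ν'.lmap (Sum.map h id)) ∈ T :=
          (hpush (elN ν ν') (ok_op.2 (ok_cons.2 ⟨hν, hν'⟩))).2 htr
        show o (Function.invFunOn cd _ ((cd ν).image h)) <
          o (Function.invFunOn cd _ ((cd ν').image h))
        rw [← heq _ h (hI n) hid hm ν hν, ← heq _ h (hI n) hid hm ν' hν',
          hinv _ (CodeN_ok_lmap hν fun _ _ => mem_univ _),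
          hinv _ (CodeN_ok_lmap hν' fun _ _ => mem_univ _)]
        exact ho _ _ h1
  · rintro ⟨hx, o, hoc, hp⟩
    set T : Set (Nm.{u} Ordinal.{u}) :=
      {ν | ν.Ok c.k c.fl (Iio κ.ord) (Iio ω₁) ∧ (g (cd ν)).toZFSet ∈ x} with hT
    have key : ∀ l : Finset Ordinal.{u}, (∀ ξ ∈ l, ξ < κ.ord) →
        ∃ (n : ℕ) (h : Ordinal.{u} → Ordinal.{u}) (R : Str.{u} Ordinal.{u}),
          (∀ ξ < c.γ, h ξ = ξ) ∧ StrictMonoOn h (Iio (c.γ + n)) ∧
          h '' Iio (c.γ + n) = Iio c.γ ∪ l ∧ Real c R (Iio (c.γ + n)) (Iio ω₁) ∧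
          (∀ ν : Nm.{u} Ordinal.{u}, ν.Ok c.k c.fl (Iio (c.γ + n)) (Iio ω₁) →
            (ν.lmap (Sum.map h id) ∈ T ↔ R.Tr ν)) ∧
          (∀ b : Finset Ordinal.{u}, ↑b ⊆ Iio (c.γ + n) → (g (b.image h)).toZFSet ∈ x →
            ∃ ν ∈ T, cd ν = b.image h) ∧
          ∀ ν ν' : Nm.{u} Ordinal.{u}, ν.Ok c.k c.fl (Iio (c.γ + n)) (Iio ω₁) →
            ν'.Ok c.k c.fl (Iio (c.γ + n)) (Iio ω₁) → R.Tr (elN ν ν') →
              o (cd (ν.lmap (Sum.map h id))) < o (cd (ν'.lmap (Sum.map h id))) := by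
      intro l hl
      obtain ⟨n, h, hid, hm, him⟩ := CodeN_enum c.γ l
      have hlt : ∀ ξ < c.γ + n, h ξ < κ.ord := by
        intro ξ hξ
        have h1 : h ξ ∈ Iio c.γ ∪ (l : Set Ordinal.{u}) := him ▸ mem_image_of_mem h hξ
        rcases h1 with h1 | h1
        exacts [lt_trans h1 hγκ, hl _ h1]
      obtain ⟨p, ⟨R, hR, h1, h2⟩, h3, h4⟩ := hp n h hid hm hlt
      have hok : ∀ ν : Nm.{u} Ordinal.{u}, ν.Ok c.k c.fl (Iio (c.γ + n)) (Iio ω₁) →
          (ν.lmap (Sum.map h id)).Ok c.k c.fl (Iio κ.ord) (Iio ω₁) :=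
        fun ν hν => CodeN_ok_lmap hν fun ξ hξ => hlt ξ (hν.2.1 ξ hξ)
      refine ⟨n, h, R, hid, hm, him, hR, fun ν hν => ?_, fun b hb hbx => ?_,
        fun ν ν' hν hν' htr => ?_⟩
      · show _ ∧ _ ↔ _
        rw [and_iff_right (hok ν hν), heq _ h (hI n) hid hm ν hν,
          ← h3 _ (hsub le_self_add hν), h1]
        constructor
        · rintro ⟨ν', hν', htr, e⟩
          exact hinj (huniv hν') (huniv hν) e ▸ htr
        · exact fun htr => ⟨ν, hν, htr, rfl⟩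
      · obtain ⟨ν, hν, -, rfl⟩ := (h1 b).1 ((h3 b hb).2 hbx)
        have e := heq _ h (hI n) hid hm ν hν
        exact ⟨_, ⟨hok ν hν, e ▸ hbx⟩, e⟩
      · rw [heq _ h (hI n) hid hm ν hν, heq _ h (hI n) hid hm ν' hν']
        exact h4 (cd ν, cd ν') ((h2 _).2 ⟨ν, ν', hν, hν', htr, rfl⟩)
    refine ⟨T, (good_iff_rank hv (fun ν hν => hν.1) fun l hl => ?_).2
      ⟨fun ν => o (cd ν), fun ξ h1 h2 => ?_, fun ν ν' hνν => ?_⟩, fun y => ⟨fun hy => ?_, ?_⟩⟩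
    · obtain ⟨n, h, R, hid, hm, him, hR, htr, -, -⟩ := key l hl
      have hfm : ∀ ξ ∈ Iio c.γ ∪ (l : Set Ordinal.{u}),
          Function.invFunOn h (Iio (c.γ + n)) ξ ∈ Iio (c.γ + n) ∧
            h (Function.invFunOn h (Iio (c.γ + n)) ξ) = ξ := by
        intro ξ hξ
        rw [← him] at hξ
        exact Function.invFunOn_pos hξ
      obtain ⟨hR', hden⟩ := hR.recst (f := Function.invFunOn h (Iio (c.γ + n)))
        (C' := Iio c.γ ∪ l) (fun a ha b hb hab => by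
          rw [← hm.lt_iff_lt (hfm a ha).1 (hfm b hb).1, (hfm a ha).2, (hfm b hb).2]
          exact hab)
        (by rw [← him]; exact hm.injOn.invFunOn_image Subset.rfl) subset_union_left
        (fun ξ hξ => by
          have h1 := hm.injOn.leftInvOn_invFunOn (hI n hξ)
          rwa [hid ξ hξ] at h1)
      refine ⟨_, hR', fun ν hν => ?_⟩
      rw [← him] at hν
      obtain ⟨h1, h2⟩ := CodeN_pull h hν
      rw [Str.Tr, hden, ← Str.Tr, ← htr _ h1, h2]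
    · show o (cd (cst ξ)) = ξ
      rw [hcst ξ h1, hoc ξ h1 h2]
    · obtain ⟨n, h, R, hid, hm, him, hR, htr, -, hlt⟩ := key (elN ν ν').cs.toFinset
        fun ξ hξ => hνν.1.2.1 ξ (List.mem_toFinset.1 hξ)
      have hok : (elN ν ν').Ok c.k c.fl (h '' Iio (c.γ + n)) (Iio ω₁) :=
        CodeN_ok_of_cs hνν.1 fun ξ hξ => him ▸ Or.inr (List.mem_toFinset.2 hξ)
      obtain ⟨hν, hν'⟩ := ok_cons.1 (ok_op.1 hok)
      obtain ⟨h1, h2⟩ := CodeN_pull h hν
      obtain ⟨h3, h4⟩ := CodeN_pull h hν'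
      obtain ⟨h5, h6⟩ := CodeN_pull h hok
      have h7 := hlt _ _ h1 h3 ((htr _ h5).1 (h6.symm ▸ hνν))
      rwa [h2, h4] at h7
    · obtain ⟨b, hb, rfl⟩ := hx y hy
      obtain ⟨n, h, R, hid, hm, him, hR, -, hex, -⟩ := key b fun ξ hξ => hb hξ
      have hbm : ∀ ξ ∈ b, ∃ a ∈ Iio (c.γ + n), h a = ξ := by
        intro ξ hξ
        have h1 : ξ ∈ h '' Iio (c.γ + n) := him ▸ Or.inr hξ
        exact h1
      have e : (b.image (Function.invFunOn h (Iio (c.γ + n)))).image h = b := by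
        rw [Finset.image_image]
        refine Eq.trans (Finset.image_congr fun ξ hξ => ?_) Finset.image_id
        exact Function.invFunOn_eq (hbm ξ hξ)
      obtain ⟨ν, hν, e'⟩ := hex (b.image (Function.invFunOn h (Iio (c.γ + n)))) (by
        rw [Finset.coe_image]
        rintro _ ⟨ξ, hξ, rfl⟩
        exact Function.invFunOn_mem (hbm ξ hξ)) (e.symm ▸ hy)
      exact ⟨ν, hν, by rw [← e, ← e']⟩
    · rintro ⟨ν, hν, rfl⟩
      exact hν.2

end Pool.Agent.P.MP_833f7a_lc
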