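import Pool.Agent.P.MP_833f7a_lc.Code

/-!
Small cardinalities, regular ordinals and the ordinals `th κ ξ`.
-/

universe u v w

namespace Pool.Agent.P.MP_833f7a_lc

open Cardinal Ordinal Set

variable {μ κ : Ordinal.{u}} {α : Type v} {β : Type w}

theorem FewL_lt_iff (h : Reg μ) {a : Ordinal.{u}} : a < μ ↔ a.card < μ.card := by
  have := Cardinal.lt_ord (c := μ.card) (o := a)
  rwa [h.2.2] at this

theorem FewL_lt_of_card {a b : Ordinal.{u}} (h : a.card < b.card) : a < b :=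
  lt_of_not_ge fun hle => absurd (Ordinal.card_le_card hle) (not_le.2 h)

theorem Reg.isSuccLimit (h : Reg μ) : Order.IsSuccLimit μ := by
  have := Cardinal.isSuccLimit_ord h.1.le
  rwa [h.2.2] at this
theorem Reg.omega_lt (h : Reg μ) : ω < μ :=
  FewL_lt_of_card (by rw [Ordinal.card_omega0]; exact h.1)
theorem Reg.omega1_le (h : Reg μ) : ω₁ ≤ μ := by
  rw [← Cardinal.ord_aleph, Cardinal.ord_le, ← Cardinal.succ_aleph0]
  exact Order.succ_le_of_lt h.1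
theorem Reg.pos (h : Reg μ) : 0 < μ := Ordinal.omega0_pos.trans h.omega_lt
theorem Reg.one_lt (h : Reg μ) : 1 < μ := Ordinal.one_lt_omega0.trans h.omega_lt
theorem Reg.nat_lt (h : Reg μ) (n : ℕ) : (n : Ordinal.{u}) < μ :=
  (Ordinal.natCast_lt_omega0 n).trans h.omega_lt
theorem Reg.succ_lt (h : Reg μ) {a : Ordinal.{u}} (ha : a < μ) : a + 1 < μ :=
  h.isSuccLimit.succ_lt ha
theorem Reg.add_lt (h : Reg μ) {a b : Ordinal.{u}} (ha : a < μ) (hb : b < μ) : a + b < μ := by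
  rw [FewL_lt_iff h] at ha hb ⊢
  rw [Ordinal.card_add]
  exact Cardinal.add_lt_of_lt h.1.le ha hb

theorem FewL_reg_ord {c : Cardinal.{u}} (h : c.IsRegular) (h0 : ℵ₀ < c) : Reg c.ord := by
  refine ⟨?_, ?_, ?_⟩ <;> rw [Cardinal.card_ord]
  · exact h0
  · exact h

theorem reg_omega1 : Reg (ω₁ : Ordinal.{u}) := by
  rw [← Cardinal.ord_aleph]
  exact FewL_reg_ord Cardinal.isRegular_aleph_one Cardinal.aleph0_lt_aleph_one
theorem reg_nxt (h : ω ≤ κ) : Reg (nxt κ) := by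
  have h1 : ℵ₀ ≤ κ.card := Ordinal.aleph0_le_card.2 h
  exact FewL_reg_ord (Cardinal.isRegular_succ h1) (h1.trans_lt (Order.lt_succ _))
theorem lt_nxt (κ : Ordinal.{u}) : κ < nxt κ := Cardinal.lt_ord_succ_card κ
theorem Reg.nxt_le (h : Reg μ) (hκ : κ < μ) : nxt κ ≤ μ :=
  Cardinal.ord_le.2 (Order.succ_le_of_lt ((FewL_lt_iff h).1 hκ))
theorem reg_ord {c : Cardinal.{u}} (h : c.IsRegular) (h0 : ℵ₀ < c) : Reg c.ord :=
  FewL_reg_ord h h0

/-- A small copy of a type with few elements. -/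
theorem FewL_equiv (h : Few μ α) : ∃ γ : Type u, #γ < μ.card ∧ Nonempty (α ≃ γ) := by
  obtain ⟨c, hc, e⟩ := Cardinal.lt_lift_iff.1 h
  refine ⟨c.out, by rwa [Cardinal.mk_out], ?_⟩
  apply Cardinal.lift_mk_eq'.1
  rw [Cardinal.mk_out, e]

theorem FewL_of_inj {γ : Type u} (hγ : #γ < μ.card) (f : α → γ) (hf : Function.Injective f) :
    Few μ α :=
  (Cardinal.lift_mk_le'.2 ⟨⟨f, hf⟩⟩).trans_lt (Cardinal.lift_lt.2 hγ)

theorem Few.mono {μ' : Ordinal.{u}} (h : Few μ α) (hle : μ ≤ μ') : Few μ' α :=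
  lt_of_lt_of_le h (Cardinal.lift_le.2 (Ordinal.card_le_card hle))
theorem Few.of_inj (h : Few μ β) (f : α → β) (hf : Function.Injective f) : Few μ α := by
  obtain ⟨γ, hγ, ⟨e⟩⟩ := FewL_equiv h
  exact FewL_of_inj hγ (e ∘ f) (e.injective.comp hf)
theorem Few.of_surj (h : Few μ α) (f : α → β) (hf : Function.Surjective f) : Few μ β :=
  h.of_inj (Function.surjInv hf) (Function.injective_surjInv hf)
theorem Few.subset {s t : Set α} (h : Few μ t) (hst : s ⊆ t) : Few μ s :=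
  h.of_inj (Set.inclusion hst) (Set.inclusion_injective hst)
theorem Few.subtype (h : Few μ α) (p : α → Prop) : Few μ {x // p x} :=
  h.of_inj Subtype.val Subtype.val_injective
theorem Few.set (h : Few μ α) (s : Set α) : Few μ s :=
  h.of_inj Subtype.val Subtype.val_injective
theorem Few.image {s : Set α} (h : Few μ s) (f : α → β) : Few μ (f '' s) :=
  h.of_surj (fun x => ⟨f x.1, x.1, x.2, rfl⟩) (by
    rintro ⟨_, x, hx, rfl⟩
    exact ⟨⟨x, hx⟩, rfl⟩)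
theorem Few.range (h : Few μ α) (f : α → β) : Few μ (range f) :=
  h.of_surj (fun x => ⟨f x, x, rfl⟩) (by
    rintro ⟨_, x, rfl⟩
    exact ⟨x, rfl⟩)
theorem few_countable (h : Reg μ) (α : Type v) [Countable α] : Few μ α := by
  obtain ⟨f, hf⟩ := exists_injective_nat α
  refine FewL_of_inj (γ := ULift.{u} ℕ) ?_ (fun a => ⟨f a⟩) fun a b e => hf (congrArg ULift.down e)
  rw [Cardinal.mk_uLift, Cardinal.mk_nat, Cardinal.lift_aleph0]
  exact h.1
theorem few_finite (h : Reg μ) {s : Set α} (hs : s.Finite) : Few μ s := by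
  have := hs.to_subtype
  exact few_countable h s
theorem Few.prod (h : Reg μ) (ha : Few μ α) (hb : Few μ β) : Few μ (α × β) := by
  obtain ⟨γ, hγ, ⟨e⟩⟩ := FewL_equiv ha
  obtain ⟨γ', hγ', ⟨e'⟩⟩ := FewL_equiv hb
  refine FewL_of_inj (γ := γ × γ') ?_ (e.prodCongr e') (e.prodCongr e').injective
  rw [Cardinal.mk_prod, Cardinal.lift_id, Cardinal.lift_id]
  exact Cardinal.mul_lt_of_lt h.1.le hγ hγ'
theorem Few.sum (h : Reg μ) (ha : Few μ α) (hb : Few μ β) : Few μ (α ⊕ β) := by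
  obtain ⟨γ, hγ, ⟨e⟩⟩ := FewL_equiv ha
  obtain ⟨γ', hγ', ⟨e'⟩⟩ := FewL_equiv hb
  refine FewL_of_inj (γ := γ ⊕ γ') ?_ (e.sumCongr e') (e.sumCongr e').injective
  rw [Cardinal.mk_sum, Cardinal.lift_id, Cardinal.lift_id]
  exact Cardinal.add_lt_of_lt h.1.le hγ hγ'
theorem Few.option (h : Reg μ) (ha : Few μ α) : Few μ (Option α) :=
  (Few.sum h ha (few_countable h PUnit.{1})).of_inj (Equiv.optionEquivSumPUnit.{0} α)
    (Equiv.injective _)
theorem Few.list (h : Reg μ) (ha : Few μ α) : Few μ (List α) := by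
  obtain ⟨γ, hγ, ⟨e⟩⟩ := FewL_equiv ha
  refine FewL_of_inj (γ := List γ) ?_ (List.map e) (List.map_injective_iff.2 e.injective)
  exact (Cardinal.mk_list_le_max γ).trans_lt (max_lt h.1 hγ)
theorem Few.lists (h : Reg μ) {s : Set α} (hs : Few μ s) :
    Few μ {l : List α | ∀ x ∈ l, x ∈ s} := by
  refine (Few.list h hs).of_surj (fun l => ⟨l.map Subtype.val, ?_⟩) ?_
  · intro x hx
    obtain ⟨y, -, rfl⟩ := List.mem_map.1 hx
    exact y.2
  · rintro ⟨l, hl⟩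
    refine ⟨l.attach.map fun x => ⟨x.1, hl x.1 x.2⟩, ?_⟩
    apply Subtype.ext
    simp only [List.map_map]
    exact List.attach_map_subtype_val l
theorem Few.finsets (h : Reg μ) {s : Set α} (hs : Few μ s) :
    Few μ {l : Finset α | ↑l ⊆ s} := by
  refine (Few.lists h hs).of_inj
    (fun l => ⟨l.1.toList, fun x hx => l.2 (Finset.mem_coe.2 (Finset.mem_toList.1 hx))⟩) ?_
  intro a b e
  have e' : a.1.toList = b.1.toList := congrArg Subtype.val e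
  apply Subtype.ext
  ext x
  rw [← Finset.mem_toList, ← Finset.mem_toList, e']
theorem Few.union (h : Reg μ) {s t : Set α} (hs : Few μ s) (ht : Few μ t) :
    Few μ (s ∪ t : Set α) := by
  refine (Few.sum h hs ht).of_surj
    (Sum.elim (fun x => ⟨x.1, Or.inl x.2⟩) fun x => ⟨x.1, Or.inr x.2⟩) ?_
  rintro ⟨x, hx | hx⟩
  · exact ⟨Sum.inl ⟨x, hx⟩, rfl⟩
  · exact ⟨Sum.inr ⟨x, hx⟩, rfl⟩
theorem Few.sigma (h : Reg μ) {γ : α → Type w} (ha : Few μ α) (hb : ∀ a, Few μ (γ a)) :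
    Few μ (Σ a, γ a) := by
  obtain ⟨α', hα, ⟨e⟩⟩ := FewL_equiv ha
  choose δ hδ hE using fun a => FewL_equiv (hb a)
  have E : ∀ a, γ a ≃ δ a := fun a => (hE a).some
  have e2 : (Σ a, γ a) ≃ Σ a' : α', δ (e.symm a') :=
    (Equiv.sigmaCongrRight E).trans (Equiv.sigmaCongrLeft e.symm).symm
  refine FewL_of_inj (γ := Σ a' : α', δ (e.symm a')) ?_ e2 e2.injective
  rw [Cardinal.mk_sigma]
  exact Cardinal.sum_lt_of_isRegular h.2.1 hα fun a => hδ _
theorem Few.iUnion (h : Reg μ) (ha : Few μ α) {s : α → Set β} (hs : ∀ a, Few μ (s a)) :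
    Few μ (⋃ a, s a) := by
  refine (Few.sigma (γ := fun a => s a) h ha hs).of_surj
    (fun p => ⟨p.2.1, Set.mem_iUnion.2 ⟨p.1, p.2.2⟩⟩) ?_
  rintro ⟨x, hx⟩
  obtain ⟨a, ha⟩ := Set.mem_iUnion.1 hx
  exact ⟨⟨a, x, ha⟩, rfl⟩

theorem FewL_Iio {δ : Ordinal.{u}} : Few μ (Iio δ) ↔ δ.card < μ.card := by
  unfold Few
  rw [Cardinal.mk_Iio_ordinal, Cardinal.lift_lift, Cardinal.lift_lt]

theorem few_Iio (h : Reg μ) {δ : Ordinal.{u}} (hδ : δ < μ) : Few μ (Iio δ) :=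
  FewL_Iio.2 ((FewL_lt_iff h).1 hδ)
theorem few_Iic (h : Reg μ) {δ : Ordinal.{u}} (hδ : δ < μ) : Few μ (Iic δ) :=
  (few_Iio h (h.succ_lt hδ)).subset fun _ hx => lt_of_le_of_lt hx (lt_add_one δ)
theorem few_Iio_nxt (κ : Ordinal.{u}) : Few (nxt κ) (Iio κ) := by
  rw [FewL_Iio, nxt, Cardinal.card_ord]
  exact Order.lt_succ _
theorem not_few_Iio (μ : Ordinal.{u}) : ¬ Few μ (Iio μ) := by
  rw [FewL_Iio]
  exact lt_irrefl _
theorem Few.small (h : Few μ α) : Small.{u} α := by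
  obtain ⟨γ, -, ⟨e⟩⟩ := FewL_equiv h
  exact ⟨⟨γ, ⟨e⟩⟩⟩
/-- Few ordinals below a regular ordinal are bounded. -/
theorem Few.bdd (h : Reg μ) (ha : Few μ α) (f : α → Ordinal.{u}) (hf : ∀ a, f a < μ) :
    ∃ δ < μ, ∀ a, f a < δ := by
  obtain ⟨γ, hγ, ⟨e⟩⟩ := FewL_equiv ha
  have hc : μ.cof = μ.card := by
    have := h.2.1.cof_ord
    rwa [h.2.2] at this
  refine ⟨⨆ x : γ, f (e.symm x) + 1, ?_, fun a => ?_⟩
  · exact Ordinal.iSup_lt_of_lt_cof (by rwa [hc]) fun x => h.succ_lt (hf _)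
  · have := Ordinal.le_iSup (fun x : γ => f (e.symm x) + 1) (e a)
    simp only [Equiv.symm_apply_apply] at this
    exact lt_of_lt_of_le (lt_add_one _) this

theorem FewL_inj_Iio {δ : Ordinal.{u}} (hle : Cardinal.lift.{u} #α ≤ Cardinal.lift.{v} δ.card) :
    ∃ f : α → Ordinal.{u}, Function.Injective f ∧ ∀ a, f a < δ := by
  have h1 : Nonempty (α ↪ δ.ToType) := by
    apply Cardinal.lift_mk_le'.1
    rwa [Cardinal.mk_toType]
  obtain ⟨g⟩ := h1
  have e : δ.ToType ≃ Iio δ := Ordinal.ToType.mk.symm.toEquiv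
  exact ⟨fun a => (e (g a)).1, fun a b hab => g.injective (e.injective (Subtype.ext hab)),
    fun a => (e (g a)).2⟩

theorem Few.exists_inj (h : Reg μ) (ha : Few μ α) :
    ∃ δ < μ, ∃ f : α → Ordinal.{u}, Function.Injective f ∧ ∀ a, f a < δ := by
  obtain ⟨c, hc, e⟩ := Cardinal.lt_lift_iff.1 ha
  refine ⟨c.ord, (FewL_lt_iff h).2 (by rwa [Cardinal.card_ord]), FewL_inj_Iio ?_⟩
  rw [Cardinal.card_ord, e]

theorem FewL_nxt_iff :
    Few (nxt κ) α ↔ Cardinal.lift.{u} #α ≤ Cardinal.lift.{v} κ.card := by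
  unfold Few nxt
  rw [Cardinal.card_ord, Cardinal.lift_succ, Order.lt_succ_iff]

theorem Few.exists_inj_nxt (ha : Few (nxt κ) α) :
    ∃ f : α → Ordinal.{u}, Function.Injective f ∧ ∀ a, f a < κ :=
  FewL_inj_Iio (FewL_nxt_iff.1 ha)
theorem Few.enum_nxt (ha : Few (nxt κ) α) [Nonempty α] :
    ∃ f : Ordinal.{u} → α, ∀ a, ∃ ξ < κ, f ξ = a := by
  obtain ⟨f, hf, hlt⟩ := ha.exists_inj_nxt
  exact ⟨Function.invFun f, fun a => ⟨f a, hlt a, Function.leftInverse_invFun hf a⟩⟩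
theorem Few.lt_of_inj (ha : Few μ α) {ρ : Ordinal.{u}} (f : Iio ρ → α)
    (hf : Function.Injective f) : ρ < μ :=
  FewL_lt_of_card (FewL_Iio.1 (ha.of_inj f hf))
theorem few_nxt_iff : Few (nxt κ) α ↔ Cardinal.lift.{u} #α ≤ Cardinal.lift.{v} κ.card :=
  FewL_nxt_iff
/-- An unbounded subset of a regular ordinal has full size, and conversely. -/
theorem unb_iff_not_few (h : Reg μ) {A : Set Ordinal.{u}} :
    Unb A μ ↔ ¬ Few μ (A ∩ Iio μ : Set Ordinal.{u}) := by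
  constructor
  · intro hu hf
    obtain ⟨δ, hδ, hb⟩ := Few.bdd h hf Subtype.val fun a => a.2.2
    obtain ⟨η, hη, h1, h2⟩ := hu δ hδ
    exact absurd (hb ⟨η, hη, h2⟩) (not_lt.2 h1)
  · intro hn δ hδ
    by_contra hc
    refine hn ((few_Iio h hδ).subset fun η hη => ?_)
    by_contra h1
    exact hc ⟨η, hη.1, not_lt.1 h1, hη.2⟩
theorem Inacc.set (h : Inacc μ) (ha : Few μ α) : Few μ (Set α) := by
  obtain ⟨δ, hδ, f, hf, hlt⟩ := Few.exists_inj h.1 ha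
  refine (h.2 δ hδ).of_inj (Set.image fun a => (⟨f a, hlt a⟩ : Iio δ)) ?_
  exact Set.image_injective.2 fun a b e => hf (congrArg Subtype.val e)
theorem Inacc.subsets (h : Inacc μ) {s : Set α} (hs : Few μ s) : Few μ {t : Set α | t ⊆ s} := by
  refine (h.set hs).of_surj (fun t => ⟨Subtype.val '' t, ?_⟩) ?_
  · rintro _ ⟨x, -, rfl⟩
    exact x.2
  · rintro ⟨t, ht⟩
    refine ⟨Subtype.val ⁻¹' t, Subtype.ext ?_⟩
    ext x
    constructor
    · rintro ⟨y, hy, rfl⟩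
      exact hy
    · intro hx
      exact ⟨⟨x, ht hx⟩, hx, rfl⟩

theorem FewL_le_aleph_add (κ ξ : Ordinal.{u}) : κ ≤ (ℵ_ (κ + ξ)).ord := by
  rw [Cardinal.ord_aleph]
  exact le_self_add.trans (Ordinal.le_omega_self _)

theorem FewL_aleph_lt_th (κ ξ : Ordinal.{u}) : (ℵ_ (κ + ξ)).ord < th κ ξ :=
  Cardinal.ord_lt_ord.2 (Order.lt_succ _)

theorem FewL_th_le (κ : Ordinal.{u}) {ξ ξ' : Ordinal.{u}} (h : ξ' < ξ) :
    th κ ξ' ≤ (ℵ_ (κ + ξ)).ord :=
  Cardinal.ord_le_ord.2 (Order.succ_le_of_lt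
    (Cardinal.aleph_lt_aleph.2 ((add_lt_add_iff_left κ).2 h)))

theorem reg_th (κ ξ : Ordinal.{u}) : Reg (th κ ξ) :=
  FewL_reg_ord (Cardinal.isRegular_succ (Cardinal.aleph0_le_aleph _))
    ((Cardinal.aleph0_le_aleph _).trans_lt (Order.lt_succ _))
theorem th_strictMono (κ : Ordinal.{u}) : StrictMono (th κ) := fun _ b h =>
  (FewL_th_le κ h).trans_lt (FewL_aleph_lt_th κ b)
theorem lt_th (κ ξ : Ordinal.{u}) : κ < th κ ξ :=
  (FewL_le_aleph_add κ ξ).trans_lt (FewL_aleph_lt_th κ ξ)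
theorem aleph_lt_th (κ ξ : Ordinal.{u}) : (ℵ_ (κ + ξ)).ord < th κ ξ := FewL_aleph_lt_th κ ξ
theorem th_le_aleph (κ : Ordinal.{u}) {ξ ξ' : Ordinal.{u}} (h : ξ' < ξ) :
    th κ ξ' ≤ (ℵ_ (κ + ξ)).ord := FewL_th_le κ h
theorem le_aleph_add (κ ξ : Ordinal.{u}) : κ ≤ (ℵ_ (κ + ξ)).ord := FewL_le_aleph_add κ ξ

end Pool.Agent.P.MP_833f7a_lc
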