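import Pool.Agent.P.MP_833f7a_lc.Names
import Pool.Agent.P.MP_833f7a_lc.FewL

/-!
The Baire property of Borel predicates along a perfect embedding, and the diagonal argument.
-/

universe u v w

namespace Pool.Agent.P.MP_833f7a_lc

open Cardinal Ordinal Set

section
variable {κ : Ordinal.{u}} {β : Type v}

/-- The node `s` lies on the branch `x`. -/
def Diag_On (x : Iio κ → β) (s : Node κ β) : Prop :=
  ∀ ξ : Iio s.1.1, s.2 ξ = x ⟨ξ.1, lt_trans (mem_Iio.1 ξ.2) (mem_Iio.1 s.1.2)⟩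

theorem Diag_on_iff {x : Iio κ → β} {s : Node κ β} : s = Node.res x s.1 ↔ Diag_On x s := by
  obtain ⟨α, f⟩ := s
  constructor
  · intro h ξ
    exact congrFun (eq_of_heq (Sigma.mk.inj h).2) ξ
  · intro h
    exact congrArg (Sigma.mk α) (funext h)

theorem Diag_on_res (x : Iio κ → β) (α : Iio κ) : Diag_On x (Node.res x α) := fun _ => rfl

theorem Diag_le_refl (s : Node κ β) : s.Le s := ⟨le_rfl, fun _ => rfl⟩

theorem Diag_le_trans {s t r : Node κ β} (h : s.Le t) (h' : t.Le r) : s.Le r :=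
  ⟨h.1.trans h'.1, fun ξ => (h.2 ξ).trans (h'.2 _)⟩

theorem Diag_On.of_le {x : Iio κ → β} {s t : Node κ β} (ht : Diag_On x t) (h : s.Le t) :
    Diag_On x s := fun ξ => (h.2 ξ).trans (ht _)

theorem Diag_On.le {x : Iio κ → β} {s t : Node κ β} (hs : Diag_On x s) (ht : Diag_On x t)
    (h : s.1.1 ≤ t.1.1) : s.Le t :=
  ⟨h, fun ξ => (hs ξ).trans (ht ⟨ξ.1, lt_of_lt_of_le ξ.2 h⟩).symm⟩

theorem Diag_glue (b : β) {I : Type w} (f : I → Node κ β)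
    (hf : ∀ a a', (f a).Le (f a') ∨ (f a').Le (f a)) : ∃ x : Iio κ → β, ∀ a, Diag_On x (f a) := by
  classical
  refine ⟨fun ζ => if h : ∃ a, ζ.1 < (f a).1.1 then (f h.choose).2 ⟨ζ.1, h.choose_spec⟩ else b,
    fun a ξ => ?_⟩
  have h : ∃ a', ξ.1 < (f a').1.1 := ⟨a, ξ.2⟩
  dsimp only
  rw [dif_pos h]
  rcases hf a h.choose with h1 | h1
  · exact h1.2 ξ
  · exact (h1.2 ⟨ξ.1, h.choose_spec⟩).symm

theorem Diag_ub (hκ : Reg κ) (b : β) {I : Type w} (hI : Few κ I) (f : I → Node κ β)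
    (hf : ∀ a a', (f a).Le (f a') ∨ (f a').Le (f a)) : ∃ t : Node κ β, ∀ a, (f a).Le t := by
  obtain ⟨x, hx⟩ := Diag_glue b f hf
  obtain ⟨δ, hδ, h⟩ := Few.bdd hκ hI (fun a => (f a).1.1) (fun a => (f a).1.2)
  exact ⟨Node.res x ⟨δ, hδ⟩, fun a => (hx a).le (Diag_on_res x _) (h a).le⟩

/-- A branch through `s` with the value `b` after `s`. -/
theorem Diag_branch (b : β) (s : Node κ β) :
    ∃ x : Iio κ → β, Diag_On x s ∧ x s.1 = b := by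
  classical
  refine ⟨fun ζ => if h : ζ.1 < s.1.1 then s.2 ⟨ζ.1, h⟩ else b, fun ξ => ?_, ?_⟩
  · dsimp only
    rw [dif_pos (mem_Iio.1 ξ.2)]
  · exact dif_neg (lt_irrefl _)

end

/-- At most `κ` dense sets of pairs of nodes are met by a pair of branches. -/
theorem exists_generic_pair {κ : Ordinal.{u}} (hκ : Reg κ) {J : Type v} (hJ : Few (nxt κ) J)
    (D : J → Set (Node κ (Iio κ) × Node κ (Iio κ)))
    (hD : ∀ j (s t : Node κ (Iio κ)), ∃ p ∈ D j, s.Le p.1 ∧ t.Le p.2) :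
    ∃ x y : Iio κ → Iio κ, ∀ j, ∃ p ∈ D j,
      p.1 = Node.res x p.1.1 ∧ p.2 = Node.res y p.2.1 := by
  classical
  rcases isEmpty_or_nonempty J with hJ0 | hJ0
  · exact ⟨id, id, fun j => hJ0.elim j⟩
  obtain ⟨e, he⟩ := hJ.enum_nxt
  let o : Iio κ := ⟨0, hκ.pos⟩
  let Q := Node κ (Iio κ) × Node κ (Iio κ)
  let LeQ : Q → Q → Prop := fun p q => p.1.Le q.1 ∧ p.2.Le q.2
  choose st hst hle using hD
  let ub : (ξ : Ordinal.{u}) → (∀ η, η < ξ → Q) → Q := fun ξ g =>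
    if h : ∃ q, ∀ η hη, LeQ (g η hη) q then h.choose else (Node.res id o, Node.res id o)
  let p : Ordinal.{u} → Q := wellFounded_lt.fix fun ξ g => st (e ξ) (ub ξ g).1 (ub ξ g).2
  have hp : ∀ ξ, p ξ = st (e ξ) (ub ξ fun η _ => p η).1 (ub ξ fun η _ => p η).2 := fun ξ =>
    wellFounded_lt.fix_eq _ ξ
  have hmono : ∀ ξ < κ, ∀ η < ξ, LeQ (p η) (p ξ) := by
    intro ξ
    induction ξ using WellFoundedLT.induction with
    | ind ξ ih =>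
    intro hξ η hη
    have hc : ∀ a a' : Iio ξ, LeQ (p a) (p a') ∨ LeQ (p a') (p a) := by
      intro a a'
      rcases lt_trichotomy a.1 a'.1 with h | h | h
      · exact .inl (ih _ a'.2 (lt_trans a'.2 hξ) _ h)
      · rw [h]; exact .inl ⟨Diag_le_refl _, Diag_le_refl _⟩
      · exact .inr (ih _ a.2 (lt_trans a.2 hξ) _ h)
    obtain ⟨t1, h1⟩ := Diag_ub hκ o (few_Iio hκ hξ) (fun a : Iio ξ => (p a).1)
      fun a a' => (hc a a').imp And.left And.left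
    obtain ⟨t2, h2⟩ := Diag_ub hκ o (few_Iio hκ hξ) (fun a : Iio ξ => (p a).2)
      fun a a' => (hc a a').imp And.right And.right
    have hex : ∃ q, ∀ η (_ : η < ξ), LeQ (p η) q :=
      ⟨(t1, t2), fun η hη => ⟨h1 ⟨η, hη⟩, h2 ⟨η, hη⟩⟩⟩
    have hub : LeQ (p η) (ub ξ fun η _ => p η) := by
      have : (ub ξ fun η _ => p η) = hex.choose := dif_pos hex
      rw [this]
      exact hex.choose_spec η hη
    rw [hp ξ]
    exact ⟨Diag_le_trans hub.1 (hle _ _ _).1, Diag_le_trans hub.2 (hle _ _ _).2⟩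
  have hc : ∀ a a' : Iio κ, LeQ (p a) (p a') ∨ LeQ (p a') (p a) := by
    intro a a'
    rcases lt_trichotomy a.1 a'.1 with h | h | h
    · exact .inl (hmono _ a'.2 _ h)
    · rw [h]; exact .inl ⟨Diag_le_refl _, Diag_le_refl _⟩
    · exact .inr (hmono _ a.2 _ h)
  obtain ⟨x, hx⟩ := Diag_glue o (fun a : Iio κ => (p a).1)
    fun a a' => (hc a a').imp And.left And.left
  obtain ⟨y, hy⟩ := Diag_glue o (fun a : Iio κ => (p a).2)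
    fun a a' => (hc a a').imp And.right And.right
  refine ⟨x, y, fun j => ?_⟩
  obtain ⟨ξ, hξ, rfl⟩ := he j
  refine ⟨p ξ, ?_, Diag_on_iff.2 (hx ⟨ξ, hξ⟩), Diag_on_iff.2 (hy ⟨ξ, hξ⟩)⟩
  rw [hp ξ]
  exact hst _ _ _

theorem Diag_bit {κ : Ordinal.{u}} {ι : (Iio κ → Iio κ) → ZFSet.{u}}
    {i : Node κ (Iio κ) → Node κ Bool}
    (h3 : ∀ x, ι x ⊆ κ.toZFSet ∧ ∀ (ξ : Iio κ) (b : Bool), (b = true ↔ ξ.1.toZFSet ∈ ι x) ↔
      ∃ α, ∃ h : ξ.1 < (i (Node.res x α)).1.1, (i (Node.res x α)).2 ⟨ξ.1, h⟩ = b)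
    {t : Node κ (Iio κ)} {ξ : Ordinal.{u}} (h : ξ < (i t).1.1) {x : Iio κ → Iio κ}
    (hx : t = Node.res x t.1) : (i t).2 ⟨ξ, h⟩ = true ↔ ξ ∈ ords (ι x) := by
  refine ((h3 x).2 ⟨ξ, lt_trans h (i t).1.2⟩ _).2 ⟨t.1, ?_⟩
  rw [← hx]
  exact ⟨h, rfl⟩

/-- The Baire property. -/
theorem Bor.baire {κ : Ordinal.{u}} (hκ : Reg κ) {ι : (Iio κ → Iio κ) → ZFSet.{u}}
    (hι : IsPerfectEmb κ ι) {P : Set Ordinal.{u} → Prop} (hP : Bor κ P) :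
    ∃ G : Set (Set (Node κ (Iio κ))), Few (nxt κ) G ∧ (∀ E ∈ G, ∀ s : Node κ (Iio κ), ∃ t ∈ E, s.Le t) ∧
      ∀ s : Node κ (Iio κ), ∃ t, s.Le t ∧
        ((∀ x, (∀ E ∈ G, ∃ α, Node.res x α ∈ E) → t = Node.res x t.1 → P (ords (ι x))) ∨
          ∀ x, (∀ E ∈ G, ∃ α, Node.res x α ∈ E) → t = Node.res x t.1 → ¬ P (ords (ι x))) := by
  classical
  induction hP with
  | base ξ hξ =>
    obtain ⟨i, h1, -, h3⟩ := hι
    refine ⟨∅, few_finite (reg_nxt hκ.omega_lt.le) finite_empty, fun _ h => h.elim, fun s => ?_⟩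
    obtain ⟨x, hx, -⟩ := Diag_branch s.1 s
    obtain ⟨α, hα, -⟩ := ((h3 x).2 ⟨ξ, hξ⟩ (decide (ξ.toZFSet ∈ ι x))).1 decide_eq_true_iff
    have hle : (Node.res x α).Le (Node.res x (max α s.1)) :=
      (Diag_on_res x _).le (Diag_on_res x _) (le_max_left α s.1)
    have hlen : ξ < (i (Node.res x (max α s.1))).1.1 := by
      by_cases e : Node.res x α = Node.res x (max α s.1)
      · rw [← e]; exact hα
      · exact lt_of_lt_of_le hα (h1 _ _ hle e).1.1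
    refine ⟨Node.res x (max α s.1), hx.le (Diag_on_res x _) (le_max_right α s.1), ?_⟩
    by_cases hb : (i (Node.res x (max α s.1))).2 ⟨ξ, hlen⟩ = true
    · exact .inl fun y _ hy => (Diag_bit h3 hlen hy).1 hb
    · exact .inr fun y _ hy h => hb ((Diag_bit h3 hlen hy).2 h)
  | not _ ih =>
    obtain ⟨G, h1, h2, h3⟩ := ih
    refine ⟨G, h1, h2, fun s => ?_⟩
    obtain ⟨t, ht, h | h⟩ := h3 s
    · exact ⟨t, ht, .inr fun x hx e => not_not.2 (h x hx e)⟩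
    · exact ⟨t, ht, .inl h⟩
  | ex P _ ih =>
    have hn := reg_nxt hκ.omega_lt.le
    choose G hG1 hG2 hG3 using fun ξ : Iio κ => ih ξ.1 ξ.2
    let Dec : Iio κ → Set (Node κ (Iio κ)) := fun ξ => {t |
      (∀ x, (∀ E ∈ G ξ, ∃ α, Node.res x α ∈ E) → t = Node.res x t.1 → P ξ (ords (ι x))) ∨
        ∀ x, (∀ E ∈ G ξ, ∃ α, Node.res x α ∈ E) → t = Node.res x t.1 → ¬ P ξ (ords (ι x))}
    refine ⟨(⋃ ξ, G ξ) ∪ range Dec, Few.union hn (Few.iUnion hn (few_Iio_nxt κ) hG1)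
      ((few_Iio_nxt κ).range Dec), ?_, fun s => ?_⟩
    · rintro E (hE | ⟨ξ, rfl⟩) s
      · obtain ⟨ξ, hξ⟩ := mem_iUnion.1 hE
        exact hG2 ξ E hξ s
      · obtain ⟨t, h1, h2⟩ := hG3 ξ s
        exact ⟨t, h2, h1⟩
    · by_cases hc : ∃ (ξ : Iio κ) (t : Node κ (Iio κ)), s.Le t ∧ ∀ x,
          (∀ E ∈ G ξ, ∃ α, Node.res x α ∈ E) → t = Node.res x t.1 → P ξ (ords (ι x))
      · obtain ⟨ξ, t, h1, h2⟩ := hc
        exact ⟨t, h1, .inl fun x hx e =>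
          ⟨ξ.1, ξ.2, h2 x (fun E hE => hx E (.inl (mem_iUnion.2 ⟨ξ, hE⟩))) e⟩⟩
      · refine ⟨s, Diag_le_refl s, .inr fun x hx e ⟨ξ, hξ, hP⟩ => ?_⟩
        obtain ⟨α, h | h⟩ := hx (Dec ⟨ξ, hξ⟩) (.inr ⟨_, rfl⟩)
        · refine hc ⟨⟨ξ, hξ⟩, Node.res x (max α s.1),
            (Diag_on_iff.1 e).le (Diag_on_res x _) (le_max_right α s.1), fun y hy e' => ?_⟩
          exact h y hy (Diag_on_iff.2 ((Diag_on_iff.1 e').of_le
            ((Diag_on_res x _).le (Diag_on_res x _) (le_max_left α s.1))))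
        · exact h x (fun E hE => hx E (.inl (mem_iUnion.2 ⟨⟨ξ, hξ⟩, hE⟩))) rfl hP

theorem Diag_split {κ : Ordinal.{u}} (hκ : Reg κ) {ι : (Iio κ → Iio κ) → ZFSet.{u}}
    (hι : IsPerfectEmb κ ι) (s : Node κ (Iio κ)) : ∃ ξ < κ, ∃ s₀ s₁ : Node κ (Iio κ),
      s.Le s₀ ∧ s.Le s₁ ∧ (∀ x, s₀ = Node.res x s₀.1 → ξ ∉ ords (ι x)) ∧
        ∀ x, s₁ = Node.res x s₁.1 → ξ ∈ ords (ι x) := by
  obtain ⟨i, -, h2, h3⟩ := hι
  obtain ⟨x₀, hx₀, e₀⟩ := Diag_branch (⟨0, hκ.pos⟩ : Iio κ) s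
  obtain ⟨x₁, hx₁, e₁⟩ := Diag_branch (⟨1, hκ.one_lt⟩ : Iio κ) s
  let α : Iio κ := ⟨s.1.1 + 1, hκ.succ_lt s.1.2⟩
  have hlt : s.1.1 < α.1 := lt_add_one _
  have hne : x₀ s.1 ≠ x₁ s.1 := by
    rw [e₀, e₁]
    exact fun h => zero_ne_one (congrArg Subtype.val h)
  obtain ⟨n1, n2⟩ := h2 (Node.res x₀ α) (Node.res x₁ α) (fun h => hne (h.2 ⟨s.1.1, hlt⟩))
    (fun h => hne (h.2 ⟨s.1.1, hlt⟩).symm)
  have l₀ : s.Le (Node.res x₀ α) := hx₀.le (Diag_on_res _ _) hlt.le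
  have l₁ : s.Le (Node.res x₁ α) := hx₁.le (Diag_on_res _ _) hlt.le
  obtain ⟨ξ, k₀, k₁, hξ⟩ : ∃ ξ, ∃ (k₀ : ξ < (i (Node.res x₀ α)).1.1)
      (k₁ : ξ < (i (Node.res x₁ α)).1.1),
      (i (Node.res x₀ α)).2 ⟨ξ, k₀⟩ ≠ (i (Node.res x₁ α)).2 ⟨ξ, k₁⟩ := by
    by_contra hn
    push Not at hn
    rcases le_total (i (Node.res x₀ α)).1.1 (i (Node.res x₁ α)).1.1 with h | h
    · exact n1 ⟨h, fun ξ => hn ξ.1 ξ.2 _⟩
    · exact n2 ⟨h, fun ξ => (hn ξ.1 _ ξ.2).symm⟩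
  have hξκ : ξ < κ := lt_trans k₀ (i (Node.res x₀ α)).1.2
  by_cases hb : (i (Node.res x₁ α)).2 ⟨ξ, k₁⟩ = true
  · exact ⟨ξ, hξκ, _, _, l₀, l₁, fun x hx h => hξ (((Diag_bit h3 k₀ hx).2 h).trans hb.symm),
      fun x hx => (Diag_bit h3 k₁ hx).1 hb⟩
  · refine ⟨ξ, hξκ, _, _, l₁, l₀, fun x hx h => hb ((Diag_bit h3 k₁ hx).2 h),
      fun x hx => (Diag_bit h3 k₀ hx).1 ?_⟩
    by_contra hb'
    exact hξ ((Bool.eq_false_iff.2 hb').trans (Bool.eq_false_iff.2 hb).symm)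

theorem no_perfect {κ : Ordinal.{u}} (hκ : Reg κ) {E : Type v} (hE : Few (nxt κ) E)
    (Φ : E → Ordinal.{u} → Set Ordinal.{u} → Prop) (hΦ : ∀ e ξ, Bor κ (Φ e ξ))
    {D : Set ZFSet.{u}}
    (h : ∀ x ∈ D, ∀ y ∈ D, ∃ e, (∀ ξ < κ, (ξ ∈ ords x ↔ Φ e ξ (ords y))) ∨
      ∀ ξ < κ, (ξ ∈ ords y ↔ Φ e ξ (ords x))) :
    ¬ ∃ ι, IsPerfectEmb κ ι ∧ ∀ x, ι x ∈ D := by
  rintro ⟨ι, hι, hD⟩
  have hn := reg_nxt hκ.omega_lt.le
  choose G hG1 hG2 hG3 using fun q : E × Iio κ => (hΦ q.1 q.2.1).baire hκ hι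
  set GG : Set (Set (Node κ (Iio κ))) := ⋃ q, G q with hGG
  have hF : Few (nxt κ) GG := Few.iUnion hn (Few.prod hn hE (few_Iio_nxt κ)) hG1
  have hd : ∀ F ∈ GG, ∀ s : Node κ (Iio κ), ∃ t ∈ F, s.Le t := fun F hF s => by
    obtain ⟨q, hq⟩ := mem_iUnion.1 hF
    exact hG2 q F hq s
  let W : E → Node κ (Iio κ) → Node κ (Iio κ) → Prop := fun e s t => ∃ ξ < κ, ∀ x y,
    s = Node.res x s.1 → t = Node.res y t.1 → (∀ F ∈ GG, ∃ α, Node.res y α ∈ F) →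
      ¬ (ξ ∈ ords (ι x) ↔ Φ e ξ (ords (ι y)))
  have hW : ∀ e (s t : Node κ (Iio κ)), ∃ s' t', W e s' t' ∧ s.Le s' ∧ t.Le t' := by
    intro e s t
    obtain ⟨ξ, hξ, s₀, s₁, l₀, l₁, h₀, h₁⟩ := Diag_split hκ hι s
    have hg : ∀ y : Iio κ → Iio κ, (∀ F ∈ GG, ∃ α, Node.res y α ∈ F) →
        ∀ F ∈ G (e, ⟨ξ, hξ⟩), ∃ α, Node.res y α ∈ F :=
      fun y hy F hF => hy F (mem_iUnion.2 ⟨_, hF⟩)
    obtain ⟨t', ht', h | h⟩ := hG3 (e, ⟨ξ, hξ⟩) t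
    · exact ⟨s₀, t', ⟨ξ, hξ, fun x y hx hy gy hi => h₀ x hx (hi.2 (h y (hg y gy) hy))⟩, l₀, ht'⟩
    · exact ⟨s₁, t', ⟨ξ, hξ, fun x y hx hy gy hi => h y (hg y gy) hy (hi.1 (h₁ x hx))⟩, l₁, ht'⟩
  obtain ⟨x, y, hxy⟩ := exists_generic_pair hκ
    (Few.sum hn (Few.sum hn hF hF) (Few.sum hn hE hE))
    (Sum.elim (Sum.elim (fun F => {p | p.1 ∈ F.1}) (fun F => {p | p.2 ∈ F.1}))
      (Sum.elim (fun e => {p | W e p.1 p.2}) (fun e => {p | W e p.2 p.1}))) (by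
      rintro ((F | F) | (e | e)) s t
      · obtain ⟨s', h1, h2⟩ := hd F.1 F.2 s
        exact ⟨(s', t), h1, h2, Diag_le_refl t⟩
      · obtain ⟨t', h1, h2⟩ := hd F.1 F.2 t
        exact ⟨(s, t'), h1, Diag_le_refl s, h2⟩
      · obtain ⟨s', t', h1, h2, h3⟩ := hW e s t
        exact ⟨(s', t'), h1, h2, h3⟩
      · obtain ⟨t', s', h1, h2, h3⟩ := hW e t s
        exact ⟨(s', t'), h1, h3, h2⟩)
  have gx : ∀ F ∈ GG, ∃ α, Node.res x α ∈ F := fun F hF => by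
    obtain ⟨p, hp, h1, -⟩ := hxy (.inl (.inl ⟨F, hF⟩))
    exact ⟨p.1.1, h1 ▸ hp⟩
  have gy : ∀ F ∈ GG, ∃ α, Node.res y α ∈ F := fun F hF => by
    obtain ⟨p, hp, -, h1⟩ := hxy (.inl (.inr ⟨F, hF⟩))
    exact ⟨p.2.1, h1 ▸ hp⟩
  obtain ⟨e, he | he⟩ := h _ (hD x) _ (hD y)
  · obtain ⟨p, ⟨ξ, hξ, hp⟩, h1, h2⟩ := hxy (.inr (.inl e))
    exact hp x y h1 h2 gy (he ξ hξ)
  · obtain ⟨p, ⟨ξ, hξ, hp⟩, h1, h2⟩ := hxy (.inr (.inr e))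
    exact hp y x h2 h1 gx (he ξ hξ)

end Pool.Agent.P.MP_833f7a_lc
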