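import Pool.Agent.P.MP_833f7a_lc.FlatN

/-!
Elimination of the new upper atoms.
-/

universe u v w

namespace Pool.Agent.P.MP_833f7a_lc

open Cardinal Ordinal Set Code Nm

variable {S A : Set Ordinal.{u}} {μ β : Ordinal.{u}} {c : Cls.{u}} {Y : Set Code.{u}}
  {P : ℕ → Code.{u}} {e : Ordinal.{u} → Ordinal.{u} → Ordinal.{u}}

section
variable {ι : Type v} {k : ℕ} {fl : Prop} {C : Set Ordinal.{u}} {I : Set ι}

theorem Elim_single (n : Nm.{u} ι) (h : ∀ R : Str.{u} ι, R.den n = fun _ => R.den n 0)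
    (R : Str.{u} ι) : R.den n = ev R.F (.op .fst) R.β (ofL ([n].map fun n => R.den n 0)) := by
  rw [h R]
  rfl

theorem Elim_sel {L L' : List (Nm.{u} ι)} (h : ∀ x ∈ L, x ∈ L') (t : Trm) :
    ∃ t' : Trm, t'.depth = t.depth ∧ ∀ R : Str.{u} ι,
      ev R.F t' R.β (ofL (L'.map fun n => R.den n 0)) =
        ev R.F t R.β (ofL (L.map fun n => R.den n 0)) := by
  obtain ⟨is, his⟩ := exists_sel h
  refine ⟨.comp t (.sel is), by simp [Trm.depth], fun R => ?_⟩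
  rw [ev_comp, ev_sel, his]

theorem Elim_occ_t1 {ν g : Nm.{u} ι} {i : ι} (h : ν.WF k fl) (hg : (i, g) ∈ ν.occ) :
    g.T1 fl := by
  induction ν with
  | lf x => simp [occ] at hg
  | b η =>
    simp only [occ, List.mem_singleton, Prod.mk.injEq] at hg
    rw [hg.2]
    trivial
  | u η g' ih =>
    rcases List.mem_cons.1 hg with h1 | h1
    · rw [(Prod.mk.inj h1).2]
      exact h.1
    · exact ih h.2 h1
  | app t ν ih => exact ih h.1 hg
  | cons ν ν' ih ih' => exact (List.mem_append.1 hg).elim (ih h.1) (ih' h.2)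

theorem Elim_occ_par {ν g : Nm.{u} ι} {i : ι} (h : ν.T1 fl) (hg : (i, g) ∈ ν.occ) :
    g = par 0 ∨ fl := by
  induction ν with
  | lf x => simp [occ] at hg
  | b η =>
    simp only [occ, List.mem_singleton, Prod.mk.injEq] at hg
    exact Or.inl hg.2
  | u η g' _ => exact Or.inr h.1
  | app t ν ih => exact ih h hg
  | cons ν ν' ih ih' => exact (List.mem_append.1 hg).elim (ih h.1) (ih' h.2)

theorem Elim_conj (L : List (Nm.{u} ι)) (h : ∀ n ∈ L, n.T1 fl ∧ n.Ok k fl C I) :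
    ∃ χ : Nm.{u} ι, χ.T1 fl ∧ χ.Ok k fl C I ∧ ∀ R : Str.{u} ι, R.Tr χ ↔ ∀ n ∈ L, R.Tr n := by
  induction L with
  | nil => exact ⟨eqN (par 0) (par 0), ⟨trivial, trivial⟩, by simp, fun R => by simp⟩
  | cons n L ih =>
    obtain ⟨χ, h1, h2, h3⟩ := ih fun m hm => h m (List.mem_cons_of_mem _ hm)
    obtain ⟨h4, h5⟩ := h n List.mem_cons_self
    refine ⟨andN n χ, ⟨⟨h4, h1⟩, h4, h1⟩, by simp [h2, h5], fun R => ?_⟩
    rw [tr_andN, h3, List.forall_mem_cons]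

end

/-- A name is a term of depth at most `k` in leaves that are old, or bottom atoms, or new atoms
of `T1` families; the last kind does not occur if the name is `T1`. -/
theorem exists_leaves {ι : Type v} {k : ℕ} {fl : Prop} {C : Set Ordinal.{u}} {I : Set ι}
    {ν : Nm.{u} ι} (h : ν.Ok k fl C I) : ∃ (t : Trm) (Ls : List (Nm.{u} ι)), t.depth ≤ k ∧
      (∀ n ∈ Ls, n.Ok k fl C ν.idx ∧ (∀ i ∈ n.bix, i ∈ ν.bix) ∧
        (n.Old fl ∨ (∃ η, n = b η) ∨ ¬ ν.T1 fl ∧ ∃ η g, n = u η g)) ∧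
      ∀ R : Str.{u} ι, R.den ν = ev R.F t R.β (ofL (Ls.map fun n => R.den n 0)) := by
  induction ν with
  | lf x =>
    refine ⟨.op .fst, [lf x], Nat.zero_le _, fun n hn => ?_, Elim_single _ fun _ => rfl⟩
    rw [List.mem_singleton.1 hn]
    exact ⟨h.self, fun _ hi => hi, Or.inl trivial⟩
  | b η =>
    refine ⟨.op .fst, [b η], Nat.zero_le _, fun n hn => ?_, Elim_single _ fun _ => rfl⟩
    rw [List.mem_singleton.1 hn]
    exact ⟨h.self, fun _ hi => hi, Or.inr (Or.inl ⟨η, rfl⟩)⟩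
  | u η g _ =>
    refine ⟨.op .fst, [u η g], Nat.zero_le _, fun n hn => ?_, Elim_single _ fun _ => rfl⟩
    rw [List.mem_singleton.1 hn]
    refine ⟨h.self, fun _ hi => hi, ?_⟩
    by_cases h1 : (u η g).T1 fl
    · exact Or.inl h1
    · exact Or.inr (Or.inr ⟨h1, η, g, rfl⟩)
  | app t ν ih =>
    obtain ⟨h1, h2 | ⟨ψ, rfl, -, h2⟩⟩ := ok_app.1 h
    · obtain ⟨s, Ls, hs, hL, hd⟩ := ih h1
      refine ⟨.comp t s, Ls, max_le h2 hs, fun n hn => ?_, fun R => ?_⟩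
      · rw [Nm.idx_app]
        exact hL n hn
      · rw [den_app, hd R, ev_comp]
    · refine ⟨.op .fst, [app (.eps ψ) ν], Nat.zero_le _, fun n hn => ?_,
        Elim_single _ fun _ => rfl⟩
      rw [List.mem_singleton.1 hn]
      exact ⟨h.self, fun _ hi => hi, Or.inl h2⟩
  | cons ν ν' ih ih' =>
    obtain ⟨h1, h2⟩ := ok_cons.1 h
    obtain ⟨s, Ls, hs, hL, hd⟩ := ih h1
    obtain ⟨s', Ls', hs', hL', hd'⟩ := ih' h2
    obtain ⟨t, ht, he⟩ := Elim_sel (L' := Ls ++ Ls') (fun x hx => List.mem_append_left _ hx) s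
    obtain ⟨t', ht', he'⟩ :=
      Elim_sel (L' := Ls ++ Ls') (fun x hx => List.mem_append_right _ hx) s'
    refine ⟨.cons t t', Ls ++ Ls', max_le (ht ▸ hs) (ht' ▸ hs'), fun n hn => ?_, fun R => ?_⟩
    · rw [Nm.idx_cons]
      rcases List.mem_append.1 hn with hn | hn
      · obtain ⟨a1, a2, a3⟩ := hL n hn
        exact ⟨a1.mono subset_rfl subset_union_left, fun i hi => List.mem_append_left _ (a2 i hi),
          a3.imp_right (Or.imp_right (And.imp_left fun a4 a5 => a4 a5.1))⟩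
      · obtain ⟨a1, a2, a3⟩ := hL' n hn
        exact ⟨a1.mono subset_rfl subset_union_right,
          fun i hi => List.mem_append_right _ (a2 i hi),
          a3.imp_right (Or.imp_right (And.imp_left fun a4 a5 => a4 a5.2))⟩
    · rw [den_cons, ev_cons, he, he', ← hd, ← hd']

/-- The top index of an upper atom. -/
noncomputable def Elim_ix : Nm.{u} Ordinal.{u} → Ordinal.{u}
  | .u η _ => η
  | _ => 0

/-- One step: the atom `u η g` equals a simpler leaf, or lies above its family in `rest`. -/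
theorem Elim_step (h : Src S A μ β c Y P e) {C I : Set Ordinal.{u}} (hC : C ⊆ Iio μ)
    (hI : I ⊆ Iio ω₁) {cc : Ordinal.{u} → Ordinal.{u}} (hc : ∀ i, cc i < μ) {η : Ordinal.{u}}
    {g : Nm.{u} Ordinal.{u}} (ha : (u η g).Ok c.k c.fl C I) {rest : List (Nm.{u} Ordinal.{u})}
    (hr : ∀ n ∈ rest, n.Ok c.k c.fl C I ∧ (n.T1 c.fl ∨ ∃ η' g', n = u η' g' ∧ η' ≤ η)) :
    ∃ χ : Nm.{u} Ordinal.{u}, χ.T1 c.fl ∧ χ.Ok c.k c.fl C I ∧ (SR S A μ β P e cc).Tr χ ∧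
      ((∃ x : Nm.{u} Ordinal.{u}, (x.T1 c.fl ∧ x.Ok c.k c.fl C I ∨ x ∈ rest) ∧
        ∀ c' : Ordinal.{u} → Ordinal.{u}, (∀ i, c' i < μ) → (SR S A μ β P e c').Tr χ →
          (SR S A μ β P e c').den (u η g) 0 = (SR S A μ β P e c').den x 0) ∨
      ∀ c' : Ordinal.{u} → Ordinal.{u}, (∀ i, c' i < μ) → (SR S A μ β P e c').Tr χ →
        ∃ μ', UU S μ β μ' ∧ (SR S A μ β P e c').den g 0 = od μ' ∧
          (SR S A μ β P e c').Abv (lst rest) μ' η) := by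
  classical
  obtain ⟨hη, hg1, hg⟩ := ok_u.1 ha
  have hz : (op1 .zero (par 0) : Nm.{u} Ordinal.{u}).T1 c.fl ∧
      (op1 .zero (par 0) : Nm.{u} Ordinal.{u}).Ok c.k c.fl C I := ⟨trivial, by simp⟩
  by_cases hb : μ < β
  swap
  · refine ⟨eqN (par 0) (par 0), ⟨trivial, trivial⟩, by simp, by simp,
      Or.inl ⟨_, Or.inl hz, fun c' _ _ => ?_⟩⟩
    rw [den_u_of_not]
    · rfl
    · rintro ⟨μ', -, h1⟩
      exact hb (h1.1.trans h1.2.1)
  have hu : ∀ c' : Ordinal.{u} → Ordinal.{u}, (∀ i, c' i < μ) →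
      ((SR S A μ β P e c').Tr (uN g) ↔
        ∃ μ', (SR S A μ β P e c').den g 0 = od μ' ∧ (SR S A μ β P e c').U μ') := fun c' hc' =>
    tr_uN h.fh.bs.fs (h.p0 hb) (h.den_in (hg.mono hC hI) hc' 0)
  have hu1 : (uN g).T1 c.fl := ⟨⟨⟨trivial, hg1⟩, hg1⟩, ⟨trivial, hg1⟩, hg1⟩
  have hu2 : (uN g).Ok c.k c.fl C I := by simp [hg]
  by_cases h1 : (SR S A μ β P e cc).Tr (uN g)
  swap
  · refine ⟨notN (uN g), ⟨hu1, hu1⟩, by simp [hg], tr_notN.2 h1,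
      Or.inl ⟨_, Or.inl hz, fun c' hc' h2 => ?_⟩⟩
    rw [den_u_of_not fun h3 => tr_notN.1 h2 ((hu c' hc').2 h3)]
    rfl
  have hrest : (lst rest).Ok c.k c.fl C I := ok_lst.2 fun n hn => (hr n hn).1
  by_cases h2 : ∃ p ∈ (lst rest).occ, η ≤ p.1 ∧
      (SR S A μ β P e cc).den g 0 = (SR S A μ β P e cc).den p.2 0
  · obtain ⟨⟨i, g'⟩, hp, hi, he⟩ := h2
    have hg2 := (hrest.occ hp).2
    have hg3 := Elim_occ_t1 hrest.1 hp
    refine ⟨eqN g g', ⟨hg1, hg3⟩, by simp [hg, hg2], tr_eqN.2 he,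
      Or.inl ⟨u η g', ?_, fun c' _ h3 => ?_⟩⟩
    swap
    · rw [den_u, den_u, tr_eqN.1 h3]
    have key : ∀ n : Nm.{u} Ordinal.{u}, n.T1 c.fl → (i, g') ∈ n.occ →
        (u η g').T1 c.fl ∧ (u η g').Ok c.k c.fl C I := fun n hn hm => by
      refine ⟨⟨(Elim_occ_par hn hm).resolve_left fun h4 => ?_, hn.old_of_occ hm⟩,
        ok_u.2 ⟨hη, hg3, hg2⟩⟩
      obtain ⟨μ', h5, h6⟩ := (hu cc hc).1 h1
      have h7 : (SR S A μ β P e cc).den g' 0 = od μ := by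
        rw [h4]
        exact h.p0 hb
      have h8 : od μ' = od μ := h5.symm.trans (he.trans h7)
      exact h6.1.ne' (od.inj h8)
    obtain ⟨n, hn, hm⟩ := occ_lst.1 hp
    obtain ⟨h4, h5 | ⟨η', g'', rfl, h5⟩⟩ := hr n hn
    · exact Or.inl (key n h5 hm)
    · rcases List.mem_cons.1 hm with h6 | h6
      · obtain ⟨rfl, rfl⟩ := Prod.mk.inj h6
        obtain rfl := le_antisymm hi h5
        exact Or.inr hn
      · exact Or.inl (key g'' (ok_u.1 h4).2.1 h6)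
  · obtain ⟨χ, a1, a2, a3⟩ := Elim_conj (k := c.k) (fl := c.fl) (C := C) (I := I)
      (uN g :: ((lst rest).occ.filter fun p => η ≤ p.1).map fun p => notN (eqN g p.2)) (by
        refine List.forall_mem_cons.2 ⟨⟨hu1, hu2⟩, fun n hn => ?_⟩
        obtain ⟨⟨i, g'⟩, hp, rfl⟩ := List.mem_map.1 hn
        have hp' := (List.mem_filter.1 hp).1
        have hg2 := (hrest.occ hp').2
        have hg3 := Elim_occ_t1 hrest.1 hp'
        exact ⟨⟨⟨hg1, hg3⟩, hg1, hg3⟩, by simp [hg, hg2]⟩)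
    refine ⟨χ, a1, a2, (a3 _).2 (List.forall_mem_cons.2 ⟨h1, fun n hn => ?_⟩),
      Or.inr fun c' hc' h3 => ?_⟩
    · obtain ⟨p, hp, rfl⟩ := List.mem_map.1 hn
      obtain ⟨h4, h5⟩ := List.mem_filter.1 hp
      exact tr_notN.2 fun h6 => h2 ⟨p, h4, of_decide_eq_true h5, tr_eqN.1 h6⟩
    · obtain ⟨h4, h5⟩ := List.forall_mem_cons.1 ((a3 _).1 h3)
      obtain ⟨μ', h6, h7⟩ := (hu c' hc').1 h4
      refine ⟨μ', (sr_U h.fh.bs).1 h7, h6, fun i g' hp h8 => lt_of_not_ge fun hi => ?_⟩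
      exact tr_notN.1 (h5 _ (List.mem_map.2 ⟨(i, g'),
        List.mem_filter.2 ⟨hp, decide_eq_true hi⟩, rfl⟩)) (tr_eqN.2 (h6.trans h8.symm))

open scoped Classical in
theorem Elim_main (h : Src S A μ β c Y P e) {C I : Set Ordinal.{u}} (hC : C ⊆ Iio μ)
    (hI : I ⊆ Iio ω₁) {cc : Ordinal.{u} → Ordinal.{u}} (hc : ∀ i, cc i < μ) (m : ℕ) :
    ∀ (t : Trm) (Ls : List (Nm.{u} Ordinal.{u})), t.depth ≤ c.k →
      (∀ n ∈ Ls, n.Ok c.k c.fl C I ∧ (n.T1 c.fl ∨ ∃ η g, n = u η g)) →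
      (Ls.toFinset.filter fun n => ¬ n.T1 c.fl).card = m →
      ∃ χ ν1 : Nm.{u} Ordinal.{u}, χ.T1 c.fl ∧ ν1.T1 c.fl ∧
        χ.Ok c.k c.fl C I ∧ ν1.Ok c.k c.fl C I ∧ (SR S A μ β P e cc).Tr χ ∧
        ∀ c' : Ordinal.{u} → Ordinal.{u}, (∀ i, c' i < μ) → (SR S A μ β P e c').Tr χ →
          (∀ y ∈ Y, (SR S A μ β P e c').den (app t (lst Ls)) 0 = y →
            (SR S A μ β P e c').den ν1 0 = y) ∧
          ((SR S A μ β P e c').Tr ν1 → (SR S A μ β P e c').Tr (app t (lst Ls))) := by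
  induction m using Nat.strong_induction_on with
  | _ m ih =>
  intro t Ls ht hL hm
  rcases (Ls.toFinset.filter fun n => ¬ n.T1 c.fl).eq_empty_or_nonempty with h0 | h0
  · refine ⟨eqN (par 0) (par 0), app t (lst Ls), ⟨trivial, trivial⟩, t1_lst.2 fun n hn => ?_,
      by simp, (ok_lst.2 fun n hn => (hL n hn).1).app ht, by simp,
      fun _ _ _ => ⟨fun _ _ h => h, fun h => h⟩⟩
    exact not_not.1 (Finset.filter_eq_empty_iff.1 h0 (List.mem_toFinset.2 hn))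
  obtain ⟨a, ha, hmax⟩ := Finset.exists_max_image _ Elim_ix h0
  obtain ⟨ha1, ha2⟩ := Finset.mem_filter.1 ha
  rw [List.mem_toFinset] at ha1
  obtain ⟨η, g, rfl⟩ := (hL a ha1).2.resolve_left ha2
  set rest := Ls.filter fun n => n ≠ u η g with hrest
  have hmem : ∀ n, n ∈ rest ↔ n ∈ Ls ∧ n ≠ u η g := fun n => by simp [hrest]
  obtain ⟨t', ht', he⟩ := Elim_sel (L := Ls) (L' := u η g :: rest) (fun x hx => by
    by_cases h1 : x = u η g
    · exact h1 ▸ List.mem_cons_self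
    · exact List.mem_cons_of_mem _ ((hmem x).2 ⟨hx, h1⟩)) t
  have hd : ∀ c', (SR S A μ β P e c').den (app t (lst Ls)) 0 = ev (tailF S A) t' β
      (ec ((SR S A μ β P e c').den (u η g) 0) ((SR S A μ β P e c').den (lst rest))) 0 :=
    fun c' => by rw [den_app, den_lst, den_lst, ← he]; rfl
  have hd2 : ∀ c' s x, (SR S A μ β P e c').den (app s (lst (x :: rest))) 0 = ev (tailF S A) s β
      (ec ((SR S A μ β P e c').den x 0) ((SR S A μ β P e c').den (lst rest))) 0 :=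
    fun c' s x => rfl
  have hnext : ∀ (s : Trm) (x : Nm.{u} Ordinal.{u}), s.depth ≤ c.k →
      (x.T1 c.fl ∧ x.Ok c.k c.fl C I ∨ x ∈ rest) → _ := fun s x hs hx =>
    ih _ (show ((x :: rest).toFinset.filter fun n => ¬ n.T1 c.fl).card < m by
      rw [← hm]
      refine Finset.card_lt_card ⟨fun n hn => ?_, fun hsub => ?_⟩
      · obtain ⟨h1, h2⟩ := Finset.mem_filter.1 hn
        refine Finset.mem_filter.2 ⟨List.mem_toFinset.2 ?_, h2⟩
        rcases List.mem_cons.1 (List.mem_toFinset.1 h1) with rfl | h3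
        · exact ((hmem _).1 (hx.resolve_left fun h4 => h2 h4.1)).1
        · exact ((hmem _).1 h3).1
      · rcases List.mem_cons.1 (List.mem_toFinset.1 (Finset.mem_filter.1 (hsub ha)).1) with
          h3 | h3
        · exact ((hmem _).1 (hx.resolve_left fun h4 => ha2 (h3 ▸ h4.1))).2 h3.symm
        · exact ((hmem _).1 h3).2 rfl) s (x :: rest) hs (by
      refine List.forall_mem_cons.2 ⟨?_, fun n hn => hL n ((hmem n).1 hn).1⟩
      exact hx.elim (fun h1 => ⟨h1.2, Or.inl h1.1⟩) fun h1 => hL x ((hmem x).1 h1).1) rfl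
  obtain ⟨hη, hg1, hg⟩ := ok_u.1 (hL _ ha1).1
  obtain ⟨χ0, b1, b2, b3, b4⟩ := Elim_step h hC hI hc (hL _ ha1).1 (rest := rest) fun n hn => by
    have h1 := ((hmem n).1 hn).1
    refine ⟨(hL n h1).1, ?_⟩
    by_cases h2 : n.T1 c.fl
    · exact Or.inl h2
    · obtain ⟨η', g', rfl⟩ := (hL n h1).2.resolve_left h2
      exact Or.inr ⟨η', g', rfl, hmax _ (Finset.mem_filter.2 ⟨List.mem_toFinset.2 h1, h2⟩)⟩
  rcases b4 with ⟨x, hx, b4⟩ | b4
  · obtain ⟨χ, ν1, a1, a2, a3, a4, a5, a6⟩ := hnext t' x (ht' ▸ ht) hx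
    refine ⟨andN χ0 χ, ν1, ⟨⟨b1, a1⟩, b1, a1⟩, a2, by simp [b2, a3], a4, tr_andN.2 ⟨b3, a5⟩,
      fun c' hc' h1 => ?_⟩
    obtain ⟨h2, h3⟩ := tr_andN.1 h1
    have h4 := a6 c' hc' h3
    unfold Str.Tr at h4 ⊢
    rwa [hd, b4 c' hc' h2, ← hd2]
  · obtain ⟨χ, ν1, a1, a2, a3, a4, a5, a6⟩ := hnext (.lim (.comp t' (.cons .id (Trm.tls 2)))) g
      (by simpa [Trm.depth, ht'] using ht) (Or.inl ⟨hg1, hg⟩)
    refine ⟨andN χ0 χ, ν1, ⟨⟨b1, a1⟩, b1, a1⟩, a2, by simp [b2, a3], a4, tr_andN.2 ⟨b3, a5⟩,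
      fun c' hc' h1 => ?_⟩
    obtain ⟨h2, h3⟩ := tr_andN.1 h1
    obtain ⟨h4, h5⟩ := a6 c' hc' h3
    obtain ⟨μ', hU, h6, h7⟩ := b4 c' hc' h2
    have h8 : (SR S A μ β P e c').den (u η g) 0 = od (e μ' η) := by
      rw [den_u_of_U h6 ((sr_U h.fh.bs).2 hU), sr_e hU]
    have h9 : (lst rest).Ok c.k c.fl (Iio μ) (Iio ω₁) :=
      ok_lst.2 fun n hn => (hL n ((hmem n).1 hn).1).1.mono hC hI
    have h10 : t'.depth ≤ c.kk := (ht' ▸ ht).trans (Src.k_le c)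
    unfold Str.Tr at h5 ⊢
    rw [hd2, h6, ev_lim_od _ rfl] at h4 h5
    simp only [ev_drop2] at h4 h5
    rw [hd, h8]
    refine ⟨fun y hy hv => h4 y hy
      (h.coh_val h9 hc' hU (hI hη) h7 h10 (fun _ => rfl) hy hv), fun hv => ?_⟩
    exact (h.coh_name h9 hc' hU (hI hη) h7 h10).1
      ((tailF_iff hU.1).1 ((limF_eq_tt h.fh.bs.fs).1 (h5 hv)))

theorem Src.elim (h : Src S A μ β c Y P e) {C : Set Ordinal.{u}} (hC : C ⊆ Iio μ)
    {ν : Nm.{u} Ordinal.{u}} (hν : ν.Ok c.k c.fl C (Iio ω₁)) {cc : Ordinal.{u} → Ordinal.{u}}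
    (hc : ∀ i, cc i < μ) : ∃ χ ν1 : Nm.{u} Ordinal.{u}, χ.T1 c.fl ∧ ν1.T1 c.fl ∧
      χ.Ok c.k c.fl C ν.idx ∧ ν1.Ok c.k c.fl C ν.idx ∧ (SR S A μ β P e cc).Tr χ ∧
      ∀ c' : Ordinal.{u} → Ordinal.{u}, (∀ i, c' i < μ) → (SR S A μ β P e c').Tr χ →
        (∀ y ∈ Y, (SR S A μ β P e c').den ν 0 = y → (SR S A μ β P e c').den ν1 0 = y) ∧
        ((SR S A μ β P e c').Tr ν1 → (SR S A μ β P e c').Tr ν) := by
  obtain ⟨t, Ls, ht, hL, hd⟩ := exists_leaves hν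
  obtain ⟨χ, ν1, a1, a2, a3, a4, a5, a6⟩ := Elim_main h hC hν.2.2 hc _ t Ls ht (fun n hn => by
    obtain ⟨h1, -, h2 | ⟨η, rfl⟩ | h2⟩ := hL n hn
    · exact ⟨h1, Or.inl h2.t1⟩
    · exact ⟨h1, Or.inl trivial⟩
    · exact ⟨h1, Or.inr h2.2⟩) rfl
  refine ⟨χ, ν1, a1, a2, a3, a4, a5, fun c' hc' h1 => ?_⟩
  have h2 := a6 c' hc' h1
  unfold Str.Tr at h2
  rw [den_app, den_lst, ← hd] at h2
  exact h2

end Pool.Agent.P.MP_833f7a_lc
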