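import Mathlib.Order.Filter.Ultrafilter.Basic
import Mathlib.Order.Filter.AtTopBot.Finset
import Mathlib.Data.Prod.Lex
import Mathlib.Data.Finset.Sort
import Pool.Agent.P.MP_833f7a_lc.Code

/-!
Definitions, part 2: names, structures, realisations, good theories, the stretch, reductions.
-/

universe u v w

namespace Pool.Agent.P.MP_833f7a_lc

open Cardinal Ordinal Set Code
open scoped Classical

/-- Leaves: ordinal constants and parameters. -/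
abbrev Leaf := Ordinal.{u} ⊕ ℕ

/-- Names; a name denotes an environment, its value is entry `0`. -/
inductive Nm (ι : Type v) : Type (max v (u + 1))
  | lf (x : Leaf.{u})
  | b (η : ι)
  | u (η : ι) (g : Nm ι)
  | app (t : Trm) (ν : Nm ι)
  | cons (ν ν' : Nm ι)

namespace Nm

variable {ι : Type v} {ι' : Type w}

abbrev cst (ξ : Ordinal.{u}) : Nm.{u} ι := lf (Sum.inl ξ)
abbrev par (i : ℕ) : Nm.{u} ι := lf (Sum.inr i)

def map (f : ι → ι') : Nm.{u} ι → Nm.{u} ι'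
  | lf x => lf x
  | b η => b (f η)
  | u η g => u (f η) (g.map f)
  | app t ν => app t (ν.map f)
  | cons ν ν' => cons (ν.map f) (ν'.map f)

def lmap (φ : Leaf.{u} → Leaf.{u}) : Nm.{u} ι → Nm.{u} ι
  | lf x => lf (φ x)
  | b η => b η
  | u η g => u η (g.lmap φ)
  | app t ν => app t (ν.lmap φ)
  | cons ν ν' => cons (ν.lmap φ) (ν'.lmap φ)

/-- The move that sends the index `η` of an atom of the family `g` to `f g η`. -/
def mv (f : Nm.{u} ι → ι → ι') : Nm.{u} ι → Nm.{u} (ι × ι')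
  | lf x => lf x
  | b η => b (η, f (par 0) η)
  | u η g => u (η, f g η) (g.mv f)
  | app t ν => app t (ν.mv f)
  | cons ν ν' => cons (ν.mv f) (ν'.mv f)

/-- Occurrences of atoms: index and name of the family (`par 0` for the bottom family). -/
def occ : Nm.{u} ι → List (ι × Nm.{u} ι)
  | lf _ => []
  | b η => [(η, par 0)]
  | u η g => (η, g) :: g.occ
  | app _ ν => ν.occ
  | cons ν ν' => ν.occ ++ ν'.occ

def idx (ν : Nm.{u} ι) : Set ι := {i | ∃ g, (i, g) ∈ ν.occ}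

/-- The indices of the bottom atoms. -/
def bix : Nm.{u} ι → List ι
  | lf _ => []
  | b η => [η]
  | u _ g => g.bix
  | app _ ν => ν.bix
  | cons ν ν' => ν.bix ++ ν'.bix

/-- The constants. -/
def cs : Nm.{u} ι → List Ordinal.{u}
  | lf (Sum.inl ξ) => [ξ]
  | lf (Sum.inr _) => []
  | b _ => []
  | u _ g => g.cs
  | app _ ν => ν.cs
  | cons ν ν' => ν.cs ++ ν'.cs

def Old (fl : Prop) : Nm.{u} ι → Prop
  | lf _ => True
  | b _ => False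
  | u _ g => fl ∧ g.Old fl
  | app _ ν => ν.Old fl
  | cons ν ν' => ν.Old fl ∧ ν'.Old fl

def T1 (fl : Prop) : Nm.{u} ι → Prop
  | lf _ => True
  | b _ => True
  | u _ g => fl ∧ g.Old fl
  | app _ ν => ν.T1 fl
  | cons ν ν' => ν.T1 fl ∧ ν'.T1 fl

def WF (k : ℕ) (fl : Prop) : Nm.{u} ι → Prop
  | lf _ => True
  | b _ => True
  | u _ g => g.T1 fl ∧ g.WF k fl
  | app t ν => ν.WF k fl ∧ (t.depth ≤ k ∨ ∃ ψ, t = .eps ψ ∧ ψ.depth ≤ k ∧ ν.Old fl)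
  | cons ν ν' => ν.WF k fl ∧ ν'.WF k fl

/-- Well formed, constants in `C`, indices in `I`. -/
def Ok (k : ℕ) (fl : Prop) (C : Set Ordinal.{u}) (I : Set ι) (ν : Nm.{u} ι) : Prop :=
  ν.WF k fl ∧ (∀ ξ ∈ ν.cs, ξ ∈ C) ∧ ν.idx ⊆ I

abbrev op1 (o : Op) (ν : Nm.{u} ι) : Nm.{u} ι := app (.op o) ν
abbrev op2 (o : Op) (ν ν' : Nm.{u} ι) : Nm.{u} ι := app (.op o) (cons ν ν')
abbrev eqN (ν ν' : Nm.{u} ι) : Nm.{u} ι := op2 .eq ν ν'
abbrev elN (ν ν' : Nm.{u} ι) : Nm.{u} ι := op2 .el ν ν'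
abbrev ltN (ν ν' : Nm.{u} ι) : Nm.{u} ι := op2 .lt ν ν'
abbrev notN (ν : Nm.{u} ι) : Nm.{u} ι := op2 .nand ν ν
abbrev andN (ν ν' : Nm.{u} ι) : Nm.{u} ι := notN (op2 .nand ν ν')
abbrev orN (ν ν' : Nm.{u} ι) : Nm.{u} ι := op2 .nand (notN ν) (notN ν')
/-- Entry `i` as the value. -/
abbrev ent (i : ℕ) (ν : Nm.{u} ι) : Nm.{u} ι := app (Trm.tls i) ν
/-- The value carries a filter. -/
abbrev domN (g : Nm.{u} ι) : Nm.{u} ι := app (.lim .tt) g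
/-- The value is an upper family. -/
abbrev uN (g : Nm.{u} ι) : Nm.{u} ι := andN (elN (par 0) g) (domN g)
/-- The value is a family. -/
abbrev upN (g : Nm.{u} ι) : Nm.{u} ι := orN (eqN g (par 0)) (uN g)

/-- A list of names as one name. -/
noncomputable def lst (l : List (Nm.{u} ι)) : Nm.{u} ι := l.foldr cons (op1 .zero (par 0))

/-- Substitute the constant `z` for the parameter `j`. -/
noncomputable def sb (j : ℕ) (z : Ordinal.{u}) : Nm.{u} ι → Nm.{u} ι :=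
  lmap fun x => if x = Sum.inr j then Sum.inl z else x

/-- Substitute the entries of `l` (length `N`) for the parameters `r + N - 1, …, r`. -/
noncomputable def subL (r : ℕ) : List Ordinal.{u} → Nm.{u} ι → Nm.{u} ι
  | [], ν => ν
  | z :: l, ν => subL r l (ν.sb (r + l.length) z)

end Nm

open Nm

/-- Structures in which names are evaluated. -/
structure Str (ι : Type v) : Type (max v (u + 1)) where
  F : FSys.{u}
  β : Ordinal.{u}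
  μ0 : Ordinal.{u}
  cv : Ordinal.{u} → Ordinal.{u}
  pv : ℕ → Code.{u}
  e : Ordinal.{u} → ι → Ordinal.{u}

namespace Str

variable {ι : Type v} {ι' : Type w} (R : Str.{u} ι)

/-- Upper families. -/
def U (μ : Ordinal.{u}) : Prop := R.μ0 < μ ∧ μ < R.β ∧ dom R.F μ

/-- Families. -/
def Up (μ : Ordinal.{u}) : Prop := μ = R.μ0 ∧ μ < R.β ∨ R.U μ

def lfv : Leaf.{u} → Code.{u}
  | Sum.inl ξ => od (R.cv ξ)
  | Sum.inr i => R.pv i

noncomputable def uval (η : ι) : Code.{u} → Code.{u}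
  | od μ => if R.U μ then od (R.e μ η) else od 0
  | st _ _ _ _ => od 0

noncomputable def den : Nm.{u} ι → CE.{u}
  | .lf x => fun _ => R.lfv x
  | .b η => fun _ => if R.μ0 < R.β then od (R.e R.μ0 η) else od 0
  | .u η g => fun _ => R.uval η (den g 0)
  | .app t ν => ev R.F t R.β (den ν)
  | .cons ν ν' => ec (den ν 0) (den ν')

def Tr (ν : Nm.{u} ι) : Prop := R.den ν 0 = tt

/-- Change the indices, family by family. -/
def reidx (σ : Ordinal.{u} → ι' → ι) : Str.{u} ι' :=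
  ⟨R.F, R.β, R.μ0, R.cv, R.pv, fun μ i => R.e μ (σ μ i)⟩

/-- Change the leaves. -/
def releaf (cv : Ordinal.{u} → Ordinal.{u}) (pv : ℕ → Code.{u}) : Str.{u} ι :=
  ⟨R.F, R.β, R.μ0, cv, pv, R.e⟩

/-- The move `ρ` preserves the order inside each family. -/
def Mv [LT ι] (ρ : Nm.{u} (ι × ι)) : Prop :=
  ∀ p g q g', (p, g) ∈ ρ.occ → (q, g') ∈ ρ.occ → ∀ μ, R.Up μ →
    R.den (g.map Prod.fst) 0 = od μ → R.den (g'.map Prod.fst) 0 = od μ → (p.1 < q.1 ↔ p.2 < q.2)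

/-- The move `ρ` preserves the order inside each upper family. -/
def MvU [LT ι] (ρ : Nm.{u} (ι × ι)) : Prop :=
  ∀ p g q g', (p, g) ∈ ρ.occ → (q, g') ∈ ρ.occ → ∀ μ, R.U μ →
    R.den (g.map Prod.fst) 0 = od μ → R.den (g'.map Prod.fst) 0 = od μ → (p.1 < q.1 ↔ p.2 < q.2)

/-- The move `ρ` fixes the atoms that satisfy `P`. -/
def Fix (ρ : Nm.{u} (ι × ι)) (P : Ordinal.{u} → ι → Prop) : Prop :=
  ∀ p g, (p, g) ∈ ρ.occ → ∀ μ, R.Up μ → R.den (g.map Prod.fst) 0 = od μ → P μ p.1 → p.2 = p.1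

/-- `η` is above the indices of the family `μ` in `ν`. -/
def Abv [LT ι] (ν : Nm.{u} ι) (μ : Ordinal.{u}) (η : ι) : Prop :=
  ∀ i g, (i, g) ∈ ν.occ → R.den g 0 = od μ → i < η

end Str

/-- Classes of blueprints. -/
structure Cls : Type (u + 1) where
  γ : Ordinal.{u}
  S0 : Set Ordinal.{u}
  A0 : Set Ordinal.{u}
  k : ℕ
  fl : Prop
  hb : Prop
  r : ℕ

def Cls.Valid (c : Cls.{u}) (lam : Ordinal.{u}) : Prop :=
  ω₁ ≤ c.γ ∧ c.γ < lam ∧ c.S0 ⊆ Iio c.γ ∧ c.A0 ⊆ Iio c.γ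

/-- Realisations. -/
structure Real {ι : Type v} [LinearOrder ι] (c : Cls.{u}) (R : Str.{u} ι) (C : Set Ordinal.{u})
    (I : Set ι) : Prop where
  fs : FS R.F
  low : ∀ μ < c.γ, R.F μ = tailF c.S0 c.A0 μ
  om : ω ≤ R.β
  sub : Iio c.γ ⊆ C
  cid : ∀ ξ < c.γ, R.cv ξ = ξ
  cmono : StrictMonoOn R.cv C
  clt : ∀ ξ ∈ C, R.cv ξ < R.β
  pin : ∀ i, (R.pv i).In R.β
  pz : ∀ i, c.r ≤ i → R.pv i = od 0
  hb : c.hb ↔ R.μ0 < R.β
  p0 : R.μ0 < R.β → R.pv 0 = od R.μ0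
  dm : ∀ μ < R.β, dom R.F μ → μ < c.γ ∨ R.μ0 ≤ μ
  inc : ∀ μ, R.Up μ → StrictMonoOn (R.e μ) I ∧ ∀ η ∈ I, R.e μ η < μ
  inv : ∀ ρ : Nm.{u} (ι × ι), (ρ.map Prod.fst).Ok c.k c.fl C I →
    (ρ.map Prod.snd).Ok c.k c.fl C I → R.Mv ρ →
    (R.Tr (ρ.map Prod.fst) ↔ R.Tr (ρ.map Prod.snd))
  indU : ∀ ρ : Nm.{u} (ι × ι), (ρ.map Prod.fst).Ok c.k c.fl C I →
    (ρ.map Prod.snd).Ok c.k c.fl C I → R.Mv ρ → R.Fix ρ (fun μ _ => μ = R.μ0) →
    ∀ z, R.U z → R.den (ρ.map Prod.fst) 0 = od z → R.den (ρ.map Prod.snd) 0 = od z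
  indE : ∀ ρ : Nm.{u} (ι × ι), (ρ.map Prod.fst).Ok c.k c.fl C I →
    (ρ.map Prod.snd).Ok c.k c.fl C I → R.Mv ρ → ∀ μ η, R.Up μ → η ∈ I →
    R.Fix ρ (fun μ' i => μ' < μ ∨ μ' = μ ∧ i < η) →
    ∀ z < R.e μ η, R.den (ρ.map Prod.fst) 0 = od z → R.den (ρ.map Prod.snd) 0 = od z
  coh : ∀ (ν : Nm.{u} ι) (t : Trm) μ η η', ν.Ok c.k c.fl C I → t.depth ≤ c.k → R.Up μ →
    η ∈ I → η' ∈ I → η < η' → R.Abv ν μ η →
    ∀ f : Ordinal.{u} → Code.{u}, (∀ z, f z = ev R.F t R.β (ec (od z) (R.den ν)) 0) →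
      (f (R.e μ η) = f (R.e μ η') → limF R.F μ f = f (R.e μ η)) ∧
      (f (R.e μ η) ≠ f (R.e μ η') → limF R.F μ f = od 0)
  rem : ∀ (ν : Nm.{u} ι) μ η, ν.Ok c.k c.fl C I → R.Up μ → η ∈ I → R.Abv ν μ η →
    ∀ z < μ, R.den ν 0 = od z → z < R.e μ η
  short : ∀ ν : Nm.{u} ι, ν.Ok c.k c.fl C I → ∀ z, R.U z → R.den ν 0 = od z →
    ∃ g : Nm.{u} ι, g.T1 c.fl ∧ g.Ok c.k c.fl C ν.idx ∧ R.den g 0 = od z

/-- Good theories at `lam`. -/
structure Good (c : Cls.{u}) (lam : Ordinal.{u}) (T : Set (Nm.{u} Ordinal.{u})) : Prop where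
  ok : ∀ ν ∈ T, ν.Ok c.k c.fl (Iio lam) (Iio ω₁)
  fin : ∀ l : Finset Ordinal.{u}, (∀ ξ ∈ l, ξ < lam) → ∃ R : Str.{u} Ordinal.{u},
    Real c R (Iio c.γ ∪ l) (Iio ω₁) ∧
      ∀ ν : Nm.{u} Ordinal.{u}, ν.Ok c.k c.fl (Iio c.γ ∪ l) (Iio ω₁) → (ν ∈ T ↔ R.Tr ν)
  std : ∀ ν ξ, elN ν (cst ξ) ∈ T → ∃ ξ' < ξ, eqN ν (cst ξ') ∈ T
  wfd : WellFounded fun ν ν' => elN ν ν' ∈ T

/-- Extension of a theory to names with indices in any linear order. -/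
def Ext {ι : Type v} [LinearOrder ι] (T : Set (Nm.{u} Ordinal.{u})) : Set (Nm.{u} ι) :=
  {ν | ∃ τ : ι → Ordinal.{u}, StrictMonoOn τ ν.idx ∧ (∀ i ∈ ν.idx, τ i < ω₁) ∧ ν.map τ ∈ T}

/-- Well formed names with constants below `κ`. -/
abbrev OkK {ι : Type v} (c : Cls.{u}) (κ : Ordinal.{u}) (ν : Nm.{u} ι) : Prop :=
  ν.Ok c.k c.fl (Iio κ) univ

/-! ### The stretch -/

abbrev Ix := Finset Ordinal.{u} × Finset Ordinal.{u}

/-- A coherent family of realisations with an ultrafilter. -/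
structure UM (c : Cls.{u}) (κ : Ordinal.{u}) : Type (u + 1) where
  𝒰 : Ultrafilter Ix.{u}
  R : Ix.{u} → Str.{u} Ordinal.{u}
  C : Ix.{u} → Set Ordinal.{u}
  I : Ix.{u} → Set Ordinal.{u}
  real : ∀ s, Real c (R s) (C s) (I s)
  csub : ∀ s, C s ⊆ Iio κ
  cover : ∀ ν : Nm.{u} Ordinal.{u}, OkK c κ ν → ∀ᶠ s in 𝒰, ν.Ok c.k c.fl (C s) (I s)
  stab : ∀ s (ν : Nm.{u} Ordinal.{u}), ν.Ok c.k c.fl (C s) (I s) →
    ((R s).Tr ν ↔ ∀ᶠ s' in 𝒰, (R s').Tr ν)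
  std : ∀ (ν : Nm.{u} Ordinal.{u}) ξ, OkK c κ ν → ξ < κ →
    (∀ᶠ s in 𝒰, (R s).Tr (elN ν (cst ξ))) → ∃ ξ' < ξ, ∀ᶠ s in 𝒰, (R s).Tr (eqN ν (cst ξ'))
  wfd : WellFounded fun ν ν' : Nm.{u} Ordinal.{u} =>
    OkK c κ ν ∧ OkK c κ ν' ∧ ∀ᶠ s in 𝒰, El (R s).F ((R s).den ν 0) ((R s).den ν' 0)

/-- Rank along `r`, counting only predecessors in `X`. -/
noncomputable def rnk {α : Type (u + 1)} {r : α → α → Prop} (hr : WellFounded r) (X : Set α) :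
    α → Ordinal.{u} :=
  hr.fix fun a ih => ⨆ x : {x // x ∈ X ∧ r x a}, (ih x.1 x.2.2 + 1)

namespace UM

variable {c : Cls.{u}} {κ : Ordinal.{u}} (m : UM c κ)

def Ev (P : Str.{u} Ordinal.{u} → Prop) : Prop := ∀ᶠ s in m.𝒰, P (m.R s)

def EqE (ν ν' : Nm.{u} Ordinal.{u}) : Prop := m.Ev fun R => R.den ν 0 = R.den ν' 0
def ElE (ν ν' : Nm.{u} Ordinal.{u}) : Prop := m.Ev fun R => El R.F (R.den ν 0) (R.den ν' 0)
def OrdE (ν : Nm.{u} Ordinal.{u}) : Prop := m.Ev fun R => ∃ z, R.den ν 0 = od z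
def UpE (g : Nm.{u} Ordinal.{u}) : Prop := m.Ev fun R => ∃ μ, R.Up μ ∧ R.den g 0 = od μ

def Fam0 : Set (Nm.{u} Ordinal.{u}) := {g | g.Ok c.k c.fl (Iio κ) (Iio (th κ 0)) ∧ m.UpE g}

/-- The number of a family. -/
noncomputable def fi : Nm.{u} Ordinal.{u} → Ordinal.{u} := rnk m.wfd m.Fam0

noncomputable def bnd (g : Nm.{u} Ordinal.{u}) : Ordinal.{u} :=
  if m.UpE g then th κ (m.fi g) else κ

/-- Admissible names. -/
def Adm (ν : Nm.{u} Ordinal.{u}) : Prop := OkK c κ ν ∧ ∀ i g, (i, g) ∈ ν.occ → i < m.bnd g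

noncomputable def rk : Nm.{u} Ordinal.{u} → Ordinal.{u} := rnk m.wfd {ν | m.Adm ν}

/-- The height of the stretch. -/
noncomputable def ht : Ordinal.{u} := ⨆ ν : {ν // m.Adm ν ∧ m.OrdE ν}, (m.rk ν.1 + 1)

/-- The code named by a name in the stretch. -/
noncomputable def pi (ν : Nm.{u} Ordinal.{u}) : Code.{u} :=
  if h : ∃ t : Trm, m.Ev (fun R => ∃ a x y, R.den ν 0 = st a t x y) ∧
      m.rk (op1 .lv (op1 .q1 ν)) < m.rk (op1 .lv ν) ∧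
      m.rk (op1 .lv (op1 .q2 ν)) < m.rk (op1 .lv ν) then
    st (m.rk (op1 .lv ν)) h.choose (pi (op1 .q1 ν)) (pi (op1 .q2 ν))
  else od (m.rk ν)
termination_by m.rk (op1 .lv ν)
decreasing_by exacts [h.choose_spec.2.1, h.choose_spec.2.2]

/-- The environment named by a name in the stretch. -/
noncomputable def Pi (ν : Nm.{u} Ordinal.{u}) : CE.{u} := fun i => m.pi (ent i ν)

/-- `a η` names the atom number `η` of the family `g`. -/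
def Atoms (g : Nm.{u} Ordinal.{u}) (a : Ordinal.{u} → Nm.{u} Ordinal.{u}) : Prop :=
  (∀ η < th κ (m.fi g), m.Adm (a η)) ∧ (∀ η, OkK c κ (a η)) ∧
    ∀ η, m.Ev fun R => ∀ μ, R.den g 0 = od μ → R.den (a η) = fun _ => od (R.e μ η)

/-- A level: the top, or an admissible name of an infinite ordinal. -/
def Lv : Option (Nm.{u} Ordinal.{u}) → Prop
  | none => True
  | some a => m.Adm a ∧ m.Ev fun R => ∃ z, ω ≤ z ∧ R.den a 0 = od z

noncomputable def lvs : Option (Nm.{u} Ordinal.{u}) → Ordinal.{u}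
  | none => m.ht
  | some a => m.rk a

end UM

/-- The value of a level in a structure. -/
noncomputable def Str.lvl {ι : Type v} (R : Str.{u} ι) : Option (Nm.{u} ι) → Ordinal.{u}
  | none => R.β
  | some a => (R.den a 0).lv

/-- Apply a term at a level. -/
def LOW {ι : Type v} : Option (Nm.{u} ι) → Trm → Nm.{u} ι → Nm.{u} ι
  | none, t, ν => .app t ν
  | some a, t, ν => .app (.low t) (.cons a ν)

/-- The canonical filter system: the given tail filters below `γ`, club filters at the `th κ ξ`. -/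
def Fcan (c : Cls.{u}) (κ : Ordinal.{u}) : FSys.{u} := fun μ X =>
  μ < c.γ ∧ tailF c.S0 c.A0 μ X ∨
    (∃ ξ, μ = th κ ξ) ∧ ∃ f, ClubEnum μ f ∧ ∀ η < μ, f η ∈ X

namespace UM

variable {c : Cls.{u}} {κ : Ordinal.{u}} (m : UM c κ)

def Below (a : Option (Nm.{u} Ordinal.{u})) (ν : Nm.{u} Ordinal.{u}) : Prop :=
  m.Ev fun R => InE (R.den ν) (R.lvl a)

/-- Recognition of the term `t` at the level `a`. -/
def Rec (a : Option (Nm.{u} Ordinal.{u})) (t : Trm) : Prop :=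
  ∀ ν, m.Adm ν → m.Below a ν → m.Pi (LOW a t ν) = ev (Fcan c κ) t (m.lvs a) (m.Pi ν)

/-- Recognition of all terms at all named levels below `z`. -/
def RecLt (z : Ordinal.{u}) : Prop := ∀ a, m.Lv (some a) → m.rk a < z → ∀ t, m.Rec (some a) t

end UM

/-- Canonical structures. -/
structure Can (c : Cls.{u}) (κ : Ordinal.{u}) (R : Str.{u} Ordinal.{u}) : Prop where
  F : R.F = Fcan c κ
  fs : FS R.F
  le : κ ≤ R.β
  mu : R.μ0 = th κ 0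
  cv : ∀ ξ < κ, R.cv ξ = ξ
  pin : ∀ i, (R.pv i).In R.β
  pz : ∀ i, c.r ≤ i → R.pv i = od 0
  hb : c.hb ↔ R.μ0 < R.β
  p0 : R.μ0 < R.β → R.pv 0 = od R.μ0
  club : ∀ μ, R.Up μ → Reg μ ∧ κ < μ ∧ ClubEnum μ (R.e μ)

/-- Admissibility read in a canonical structure. -/
def AdmS (c : Cls.{u}) (κ : Ordinal.{u}) (R : Str.{u} Ordinal.{u}) (ν : Nm.{u} Ordinal.{u}) :
    Prop :=
  OkK c κ ν ∧ ∀ i g, (i, g) ∈ ν.occ →
    (∀ μ, R.Up μ → R.den g 0 = od μ → i < μ) ∧ ((¬ ∃ μ, R.Up μ ∧ R.den g 0 = od μ) → i < κ)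

/-- `R` is a stretch of `T`. -/
structure IsStretch (c : Cls.{u}) (κ : Ordinal.{u}) (T : Set (Nm.{u} Ordinal.{u}))
    (R : Str.{u} Ordinal.{u}) : Prop where
  can : Can c κ R
  tr : ∀ ν, AdmS c κ R ν → (ν ∈ Ext T ↔ R.Tr ν)
  onto : ∀ x : Code.{u}, x.In R.β → ∃ ν, AdmS c κ R ν ∧ R.den ν 0 = x

/-! ### Reductions -/

abbrev I2 := ℕ ×ₗ ℕ

structure RedD : Type (u + 1) where
  strict : Prop
  m : ℕ
  nb : Nm.{u} I2
  np : List (Nm.{u} I2)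

def RedD.Valid (d : RedD.{u}) (c : Cls.{u}) (κ : Ordinal.{u}) : Prop :=
  OkK c κ d.nb ∧ ∀ n ∈ d.np, OkK c κ n

/-- `W` says that the two names denote the same environment. -/
def Same (W : Set (Nm.{u} I2)) (n n' : Nm.{u} I2) : Prop := ∀ i, eqN (ent i n) (ent i n') ∈ W

def EpsB (c : Cls.{u}) (κ : Ordinal.{u}) (W : Set (Nm.{u} I2)) (ψ : Trm) (n1 n : Nm.{u} I2) :
    Prop :=
  (∃ n0, OkK c κ n0 ∧ app ψ (cons n0 n1) ∈ W ∧
    (∀ n', OkK c κ n' → app ψ (cons n' n1) ∈ W → ltN n' n0 ∉ W) ∧ Same W n (op1 .fst n0)) ∨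
  (∀ n', OkK c κ n' → app ψ (cons n' n1) ∉ W) ∧ Same W n (cst 0)

/-- `W` says that `n` denotes what `ν` denotes in the smaller structure. -/
def RedB (c : Cls.{u}) (κ : Ordinal.{u}) (d : RedD.{u}) (W : Set (Nm.{u} I2)) :
    Nm.{u} ℕ → Nm.{u} I2 → Prop
  | .lf (Sum.inl ξ), n => Same W n (cst ξ)
  | .lf (Sum.inr i), n => Same W n (op1 .fst (d.np.getD i (cst 0)))
  | .b j, n => Same W n (b (toLex (d.m + j, 0)))
  | .u j g, n => ∃ n1, OkK c κ n1 ∧ RedB c κ d W g n1 ∧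
      ((c.hb ∧ uN n1 ∈ W ∧ (d.strict → elN n1 d.nb ∈ W)) ∧
          (∃ g1, OkK c κ g1 ∧ g1.T1 c.fl ∧ eqN g1 n1 ∈ W ∧
            Same W n (u (toLex (d.m + j, 0)) g1)) ∨
        ¬ (c.hb ∧ uN n1 ∈ W ∧ (d.strict → elN n1 d.nb ∈ W)) ∧ Same W n (cst 0))
  | .app t ν, n => ∃ n1, OkK c κ n1 ∧ RedB c κ d W ν n1 ∧
      (d.strict ∧ Same W n (app (.low t) (cons d.nb n1)) ∨
        ¬ d.strict ∧ t.depth ≤ c.k ∧ Same W n (app t n1) ∨
        ¬ d.strict ∧ ¬ t.depth ≤ c.k ∧ ∃ ψ, t = .eps ψ ∧ EpsB c κ W ψ n1 n)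
  | .cons ν ν', n => ∃ n1 n2, OkK c κ n1 ∧ OkK c κ n2 ∧ RedB c κ d W ν n1 ∧
      RedB c κ d W ν' n2 ∧ Same W n (cons n1 n2)

def Red (c : Cls.{u}) (κ : Ordinal.{u}) (d : RedD.{u}) (W : Set (Nm.{u} I2)) (ν : Nm.{u} ℕ) :
    Prop := ∃ n, OkK c κ n ∧ RedB c κ d W ν n ∧ n ∈ W

/-- The situation in which the reduction is correct. -/
structure RedHyp (c : Cls.{u}) (κ : Ordinal.{u}) (d : RedD.{u}) (W : Set (Nm.{u} I2))
    (R1 : Str.{u} ℕ) (R2 : Str.{u} I2) : Prop where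
  pos : 0 < κ
  valid : d.Valid c κ
  F : R1.F = R2.F
  fs : FS R2.F
  om : ω ≤ R1.β
  le : R1.β ≤ R2.β
  strict : d.strict ↔ R1.β < R2.β
  nb : d.strict → R2.den d.nb 0 = od R1.β
  np : ∀ i, R2.den (d.np.getD i (cst 0)) 0 = R1.pv i
  mu : R1.μ0 = R2.μ0
  cv : ∀ ξ < κ, R1.cv ξ = R2.cv ξ
  cv0 : R2.cv 0 = 0
  hb1 : c.hb ↔ R1.μ0 < R1.β
  hb2 : c.hb ↔ R2.μ0 < R2.β
  p0 : R2.μ0 < R2.β → R2.pv 0 = od R2.μ0
  e : ∀ μ, R1.Up μ → ∀ j, R1.e μ j = R2.e μ (toLex (d.m + j, 0))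
  in1 : ∀ ν, OkK c κ ν → InE (R1.den ν) R1.β
  in2 : ∀ n, OkK c κ n → InE (R2.den n) R2.β
  tr : ∀ n, OkK c κ n → (n ∈ W ↔ R2.Tr n)
  short : ∀ n, OkK c κ n → ∀ z, R2.U z → R2.den n 0 = od z →
    ∃ g, OkK c κ g ∧ g.T1 c.fl ∧ R2.den g 0 = od z
  elem : ∀ ψ : Trm, ψ.depth ≤ c.k → ∀ n, OkK c κ n → ∀ x : Code.{u}, x.In R2.β →
    ev R2.F ψ R2.β (ec x (R2.den n)) 0 = tt →
    ∃ n0, OkK c κ n0 ∧ ev R2.F ψ R2.β (ec (R2.den n0 0) (R2.den n)) 0 = tt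

/-- `κ`-Borel predicates of a subset of `κ`. -/
inductive Bor (κ : Ordinal.{u}) : (Set Ordinal.{u} → Prop) → Prop
  | base (ξ : Ordinal.{u}) (h : ξ < κ) : Bor κ fun y => ξ ∈ y
  | not {P : Set Ordinal.{u} → Prop} : Bor κ P → Bor κ fun y => ¬ P y
  | ex (P : Ordinal.{u} → Set Ordinal.{u} → Prop) : (∀ ξ < κ, Bor κ (P ξ)) →
      Bor κ fun y => ∃ ξ < κ, P ξ y

/-- The ordinals in a set. -/
def ords (x : ZFSet.{u}) : Set Ordinal.{u} := {ξ | ξ.toZFSet ∈ x}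

/-! ### Homogeneous sets -/

/-- The least `z' < z` with `ν[par j := z] = z'` in `T`. -/
noncomputable def fo (T : Set (Nm.{u} Ordinal.{u})) (ν : Nm.{u} Ordinal.{u}) (j : ℕ)
    (z : Ordinal.{u}) : Option Ordinal.{u} :=
  if ∃ z' < z, eqN (ν.sb j z) (cst z') ∈ T then
    some (sInf {z' | z' < z ∧ eqN (ν.sb j z) (cst z') ∈ T}) else none

def PP (A : Set Ordinal.{u}) (lam : Ordinal.{u}) : Prop :=
  ∀ c : Cls.{u}, c.Valid lam → ∀ T, Good c lam T →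
    ∀ ν : Nm.{u} Ordinal.{u}, ν.Ok c.k c.fl (Iio lam) (Iio ω₁) → ∀ j,
      ∃ v, AE A lam fun z => fo T ν j z = v

end Pool.Agent.P.MP_833f7a_lc
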