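import Pool.Agent.P.MP_833f7a_lc.AE1
import Pool.Agent.P.MP_833f7a_lc.Names

/-!
Clubs, blocks and gaps.
-/

universe u v w

namespace Pool.Agent.P.MP_833f7a_lc

open Cardinal Ordinal Set

variable {θ : Ordinal.{u}} {f g : Ordinal.{u} → Ordinal.{u}}

theorem ClubEnum.le (h : ClubEnum θ f) {η : Ordinal.{u}} (hη : η < θ) : η ≤ f η := by
  induction η using WellFoundedLT.induction with
  | ind η ih =>
    by_contra hlt
    rw [not_le] at hlt
    have h1 : f η < θ := hlt.trans hη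
    exact absurd (h.1 h1 hη hlt) (not_lt.2 (ih _ hlt h1))

theorem clubEnum_id (θ : Ordinal.{u}) : ClubEnum θ id :=
  ⟨fun _ _ _ _ h => h, fun _ h => h, fun _ _ hl z hz =>
    ⟨Order.succ z, hl.succ_lt hz, Order.lt_succ z⟩⟩

/-- A tail of a club is a club. -/
theorem ClubEnum.tail (hθ : Reg θ) (h : ClubEnum θ f) {δ : Ordinal.{u}} (hδ : δ < θ) :
    ClubEnum θ fun η => f (δ + η) := by
  refine ⟨fun a ha b hb hab => h.1 (hθ.add_lt hδ ha) (hθ.add_lt hδ hb) (add_lt_add_right hab δ),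
    fun η hη => h.2.1 _ (hθ.add_lt hδ hη), fun η hη hl z hz => ?_⟩
  obtain ⟨a, ha, hza⟩ := h.2.2 _ (hθ.add_lt hδ hη) (Ordinal.isSuccLimit_add δ hl) z hz
  obtain ⟨d, hd, had⟩ := (Ordinal.lt_add_iff hl.ne_bot).1 ha
  exact ⟨d, hd, hza.trans_le (h.1.monotoneOn (ha.trans (hθ.add_lt hδ hη))
    (hθ.add_lt hδ (hd.trans hη)) had)⟩

/-- Two clubs meet unboundedly often. -/
theorem club_meet (hθ : Reg θ) (hf : ClubEnum θ f) (hg : ClubEnum θ g) :
    Unb {η | ∃ η' < θ, f η = g η'} θ := by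
  intro δ hδ
  let a : ℕ → Ordinal.{u} := fun n => Nat.rec δ (fun _ x => max (f x) (g x) + 1) n
  have has : ∀ n, a (n + 1) = max (f (a n)) (g (a n)) + 1 := fun _ => rfl
  have ha : ∀ n, a n < θ := by
    intro n
    induction n with
    | zero => exact hδ
    | succ n ih => exact hθ.succ_lt (max_lt (hf.2.1 _ ih) (hg.2.1 _ ih))
  have hfa : ∀ n, f (a n) < a (n + 1) := fun n => (le_max_left _ _).trans_lt (lt_add_one _)
  have hga : ∀ n, g (a n) < a (n + 1) := fun n => (le_max_right _ _).trans_lt (lt_add_one _)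
  have hlt : ∀ n, a n < a (n + 1) := fun n => (hf.le (ha n)).trans_lt (hfa n)
  obtain ⟨b, hb, hab⟩ := Few.bdd hθ (few_countable hθ ℕ) a ha
  have hle : ∀ n, a n ≤ ⨆ n, a n := fun n => Ordinal.le_iSup a n
  have hη : (⨆ n, a n) < θ := (Ordinal.iSup_le fun n => (hab n).le).trans_lt hb
  have hex : ∀ z < ⨆ n, a n, ∃ n, z < a n := fun z hz => Ordinal.lt_iSup_iff.1 hz
  have hl : Order.IsSuccLimit (⨆ n, a n) := by
    refine (Order.isSuccLimit_iff _).2 ⟨not_isMin_of_lt ((hlt 0).trans_le (hle 1)), ?_⟩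
    refine Order.isSuccPrelimit_of_succ_lt fun z hz => ?_
    obtain ⟨n, hn⟩ := hex z hz
    exact (Order.succ_le_of_lt hn).trans_lt ((hlt n).trans_le (hle (n + 1)))
  have key : ∀ k : Ordinal.{u} → Ordinal.{u}, ClubEnum θ k → (∀ n, k (a n) < a (n + 1)) →
      k (⨆ n, a n) = ⨆ n, a n := by
    intro k hk hka
    refine le_antisymm (le_of_forall_lt fun z hz => ?_) (hk.le hη)
    obtain ⟨c, hc, hzc⟩ := hk.2.2 _ hη hl z hz
    obtain ⟨n, hn⟩ := hex c hc
    exact hzc.trans ((hk.1 (hc.trans hη) (ha n) hn).trans ((hka n).trans_le (hle (n + 1))))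
  exact ⟨_, ⟨_, hη, (key f hf hfa).trans (key g hg hga).symm⟩, hle 0, hη⟩

theorem fs_Fcan {c : Cls.{u}} {κ : Ordinal.{u}} (hγ : c.γ ≤ κ) {F : FSys.{u}} (hF : FS F)
    (hlow : ∀ μ < c.γ, F μ = tailF c.S0 c.A0 μ) : FS (Fcan c κ) := by
  constructor
  · rintro μ X Y (⟨h1, h2⟩ | ⟨h1, f, hf, hX⟩) hXY
    · left
      refine ⟨h1, ?_⟩
      rw [← hlow μ h1] at h2 ⊢
      exact hF.mono _ _ _ h2 hXY
    · exact Or.inr ⟨h1, f, hf, fun η hη => hXY (hX η hη)⟩
  · rintro μ X Y (⟨h1, h2⟩ | ⟨⟨ξ, rfl⟩, f, hf, hX⟩) (⟨h3, h4⟩ | ⟨⟨ξ', h3⟩, g, hg, hY⟩)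
    · rw [← hlow μ h1] at h2 h4
      exact hF.meet _ _ _ h2 h4
    · subst h3
      exact absurd (h1.trans_le hγ) (lt_th κ ξ').not_gt
    · exact absurd (h3.trans_le hγ) (lt_th κ ξ).not_gt
    · obtain ⟨η, ⟨η', h5, h6⟩, -, h7⟩ := club_meet (reg_th κ ξ) hf hg 0 (reg_th κ ξ).pos
      exact ⟨f η, hf.2.1 _ h7, hX _ h7, h6 ▸ hY _ h5⟩

theorem Fcan_low {c : Cls.{u}} {κ μ : Ordinal.{u}} (hγ : c.γ ≤ κ) (h : μ < c.γ) :
    Fcan c κ μ = tailF c.S0 c.A0 μ := by
  funext X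
  apply propext
  constructor
  · rintro (⟨-, h2⟩ | ⟨⟨ξ, rfl⟩, -⟩)
    · exact h2
    · exact absurd (h.trans_le hγ) (lt_th κ ξ).not_gt
  · exact fun h2 => Or.inl ⟨h, h2⟩

theorem Fcan_th {c : Cls.{u}} {κ ξ : Ordinal.{u}} (hγ : c.γ ≤ κ) {X : Set Ordinal.{u}} :
    Fcan c κ (th κ ξ) X ↔ ∃ f, ClubEnum (th κ ξ) f ∧ ∀ η < th κ ξ, f η ∈ X := by
  constructor
  · rintro (⟨h, -⟩ | ⟨-, h⟩)
    · exact absurd (h.trans_le hγ) (lt_th κ ξ).not_gt
    · exact h
  · exact fun h => Or.inr ⟨⟨ξ, rfl⟩, h⟩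

theorem dom_Fcan {c : Cls.{u}} {κ μ : Ordinal.{u}} (h : dom (Fcan c κ) μ) :
    μ < c.γ ∨ ∃ ξ, μ = th κ ξ :=
  Or.imp And.left And.left h

theorem dom_Fcan_th {c : Cls.{u}} {κ ξ : Ordinal.{u}} : dom (Fcan c κ) (th κ ξ) :=
  Or.inr ⟨⟨ξ, rfl⟩, id, clubEnum_id _, fun _ h => h⟩

/-- The block lemma. -/
theorem exists_blocks {μ : Ordinal.{u}} (hμ : Reg μ) (K : Finset Ordinal.{u}) {m : ℕ}
    (hm : K.card < m) {D : Set Ordinal.{u}} (hD : Unb D μ) :
    ∃ σ : I2 → Ordinal.{u}, StrictMono σ ∧ (∀ p, σ p < μ) ∧ σ (toLex (0, 0)) = 0 ∧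
      (∀ i n, σ (toLex (i, n + 1)) = σ (toLex (i, n)) + 1) ∧
      (∀ η ∈ K, η < μ → η ∈ range σ) ∧ ∀ n, σ (toLex (m + n, 0)) ∈ D := by
  classical
  let L : Finset Ordinal.{u} := (K.filter (· < μ)).image fun η => ω * (η / ω)
  have hL : ∀ x ∈ L, x < μ ∧ Order.IsSuccPrelimit x := by
    intro x hx
    obtain ⟨η, hη, rfl⟩ := Finset.mem_image.1 hx
    exact ⟨(Ordinal.mul_div_le η ω).trans_lt (Finset.mem_filter.1 hη).2,
      Ordinal.isSuccPrelimit_iff_omega0_dvd.2 (dvd_mul_right _ _)⟩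
  have hLc : L.card < m := (Finset.card_image_le.trans (Finset.card_filter_le _ _)).trans_lt hm
  have hstep : ∀ x : Ordinal.{u}, ∃ y, x < μ → y < μ ∧ (∀ n : ℕ, x + n < y) ∧
      (∀ z ∈ L, x < z → y ≤ z) ∧ ((∃ z ∈ L, x < z) → y ∈ L) ∧ ((∀ z ∈ L, z ≤ x) → y ∈ D) := by
    intro x
    by_cases hx : x < μ
    swap
    · exact ⟨0, fun h => absurd h hx⟩
    by_cases hz : (L.filter (x < ·)).Nonempty
    · obtain ⟨y, hy, hmin⟩ := Finset.exists_min_image _ id hz
      rw [Finset.mem_filter] at hy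
      refine ⟨y, fun _ => ⟨(hL y hy.1).1, fun n => ?_, fun z h1 h2 =>
        hmin z (Finset.mem_filter.2 ⟨h1, h2⟩), fun _ => hy.1, fun h =>
          absurd hy.2 (h y hy.1).not_gt⟩⟩
      induction n with
      | zero => simpa using hy.2
      | succ n ih =>
        rw [Nat.cast_succ, ← add_assoc]
        exact (hL y hy.1).2.succ_lt ih
    · obtain ⟨y, hy, h1, h2⟩ := hD (x + ω) (hμ.add_lt hx hμ.omega_lt)
      have hno : ∀ z ∈ L, ¬ x < z := fun z h3 h4 => hz ⟨z, Finset.mem_filter.2 ⟨h3, h4⟩⟩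
      exact ⟨y, fun _ => ⟨h2, fun n => (add_lt_add_right (Ordinal.natCast_lt_omega0 n) x).trans_le h1,
        fun z h3 h4 => absurd h4 (hno z h3), fun ⟨z, h3, h4⟩ => absurd h4 (hno z h3),
        fun _ => hy⟩⟩
  choose nx hnx using hstep
  obtain ⟨δ, hδ0, hδs⟩ : ∃ δ : ℕ → Ordinal.{u}, δ 0 = 0 ∧ ∀ n, δ (n + 1) = nx (δ n) :=
    ⟨fun n => Nat.rec 0 (fun _ x => nx x) n, rfl, fun _ => rfl⟩
  have hδ : ∀ n, δ n < μ := by
    intro n
    induction n with
    | zero => exact hδ0 ▸ hμ.pos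
    | succ n ih => exact hδs n ▸ (hnx _ ih).1
  replace hnx := fun i => hδs i ▸ hnx _ (hδ i)
  have hlt : ∀ i (n : ℕ), δ i + n < δ (i + 1) := fun i => (hnx i).2.1
  have hmono : StrictMono δ := strictMono_nat_of_lt_succ fun i => by simpa using hlt i 0
  have hcard : ∀ i : ℕ, (∃ z ∈ L, δ i < z) → (L.filter fun x : Ordinal.{u} => δ i < x).card + i ≤ L.card := by
    intro i
    induction i with
    | zero => exact fun _ => by simpa using Finset.card_filter_le L _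
    | succ i ih =>
      rintro ⟨z, h1, h2⟩
      have h3 : ∃ z ∈ L, δ i < z := ⟨z, h1, (hmono (Nat.lt_succ_self i)).trans h2⟩
      have h4 : (L.filter fun x : Ordinal.{u} => δ (i + 1) < x).card < (L.filter fun x : Ordinal.{u} => δ i < x).card := by
        refine Finset.card_lt_card ⟨fun w hw => ?_, fun hs => ?_⟩
        · rw [Finset.mem_filter] at hw ⊢
          exact ⟨hw.1, (hmono (Nat.lt_succ_self i)).trans hw.2⟩
        · have := hs (Finset.mem_filter.2 ⟨(hnx i).2.2.2.1 h3, hmono (Nat.lt_succ_self i)⟩)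
          exact lt_irrefl _ (Finset.mem_filter.1 this).2
      have := ih h3
      omega
  have hbig : ∀ i, L.card ≤ i → ∀ z ∈ L, z ≤ δ i := by
    intro i hi z hz
    by_contra hlt
    rw [not_le] at hlt
    have h1 := hcard i ⟨z, hz, hlt⟩
    have h2 : 0 < (L.filter fun x : Ordinal.{u} => δ i < x).card :=
      Finset.card_pos.2 ⟨z, Finset.mem_filter.2 ⟨hz, hlt⟩⟩
    omega
  have hran : ∀ i, ∀ z ∈ L, z ≤ δ i → ∃ j, δ j = z := by
    intro i
    induction i with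
    | zero => exact fun z _ h => ⟨0, le_antisymm (hδ0 ▸ zero_le) h⟩
    | succ i ih =>
      intro z hz h
      by_cases h1 : z ≤ δ i
      · exact ih z hz h1
      · exact ⟨i + 1, le_antisymm ((hnx i).2.2.1 z hz (not_le.1 h1)) h⟩
  refine ⟨fun p => δ (ofLex p).1 + (ofLex p).2, fun p q hpq => ?_, fun p =>
    hμ.add_lt (hδ _) (hμ.nat_lt _), by simp [hδ0], fun i n => by simp [add_assoc], fun η h1 h2 => ?_,
    fun n => ?_⟩
  · rcases Prod.Lex.lt_iff.1 hpq with h | ⟨h, h'⟩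
    · exact (hlt _ _).trans_le ((hmono.monotone h).trans le_self_add)
    · simp only [h]
      exact add_lt_add_right (Nat.cast_lt.2 h') _
  · have h3 : ω * (η / ω) ∈ L := Finset.mem_image_of_mem _ (Finset.mem_filter.2 ⟨h1, h2⟩)
    obtain ⟨j, hj⟩ := hran _ _ h3 (hbig _ le_rfl _ h3)
    obtain ⟨n, hn⟩ := Ordinal.lt_omega0.1 (Ordinal.mod_lt η Ordinal.omega0_ne_zero)
    refine ⟨toLex (j, n), ?_⟩
    simp only [ofLex_toLex, hj, ← hn]
    exact Ordinal.div_add_mod η ω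
  · obtain ⟨k, hk⟩ : ∃ k, m + n = k + 1 := ⟨m + n - 1, by omega⟩
    simp only [ofLex_toLex, Nat.cast_zero, add_zero, hk]
    exact (hnx k).2.2.2.2 (hbig k (by omega))

/-- The gap lemma. -/
theorem exists_gap {K : Set Ordinal.{u}} (h0 : 0 ∈ K) (hs : ∀ η ∈ K, η + 1 ∈ K)
    {J : Set Ordinal.{u}} (hJ : J.Finite) :
    ∃ τ : Ordinal.{u} → Ordinal.{u}, StrictMonoOn τ J ∧
      ∀ η ∈ J, τ η ∈ K ∧ τ η ≤ η ∧ (η ∈ K → τ η = η) := by
  classical
  obtain ⟨s, rfl⟩ := hJ.exists_finset_coe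
  induction s using Finset.induction_on_max with
  | empty => exact ⟨id, fun _ _ _ _ h => h, by simp⟩
  | insert a s has ih =>
    obtain ⟨τ, h1, h2⟩ := ih s.finite_toSet
    obtain ⟨c, hc, hca, hce, hcs⟩ : ∃ c ∈ K, c ≤ a ∧ (a ∈ K → c = a) ∧ ∀ b ∈ s, τ b < c := by
      by_cases ha : a ∈ K
      · exact ⟨a, ha, le_rfl, fun _ => rfl, fun b hb => (h2 b hb).2.1.trans_lt (has b hb)⟩
      · rcases s.eq_empty_or_nonempty with rfl | hne
        · exact ⟨0, h0, zero_le, fun h => absurd h ha, by simp⟩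
        · obtain ⟨b, hb, hmax⟩ := Finset.exists_max_image s τ hne
          exact ⟨τ b + 1, hs _ (h2 b hb).1,
            Order.add_one_le_of_lt ((h2 b hb).2.1.trans_lt (has b hb)), fun h => absurd h ha,
            fun x hx => (hmax x hx).trans_lt (lt_add_one _)⟩
    have e : ∀ b ∈ s, Function.update τ a c b = τ b := fun b hb =>
      Function.update_of_ne (has b hb).ne _ _
    refine ⟨Function.update τ a c, fun x hx y hy hxy => ?_, fun x hx => ?_⟩
    · simp only [Finset.coe_insert, mem_insert_iff, Finset.mem_coe] at hx hy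
      rcases hx with rfl | hx <;> rcases hy with rfl | hy
      · exact absurd hxy (lt_irrefl _)
      · exact absurd hxy (has y hy).not_gt
      · rw [e x hx, Function.update_self]
        exact hcs x hx
      · rw [e x hx, e y hy]
        exact h1 hx hy hxy
    · simp only [Finset.coe_insert, mem_insert_iff, Finset.mem_coe] at hx
      rcases hx with rfl | hx
      · rw [Function.update_self]
        exact ⟨hc, hca, hce⟩
      · rw [e x hx]
        exact h2 x hx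

theorem exists_strictMonoOn_nat {ι : Type v} [LinearOrder ι] {J : Set ι} (hJ : J.Finite) :
    ∃ τ : ι → ℕ, StrictMonoOn τ J := by
  classical
  refine ⟨fun i => (hJ.toFinset.filter (· < i)).card, fun x hx y _ hxy => ?_⟩
  refine Finset.card_lt_card ⟨fun w hw => ?_, fun hs => ?_⟩
  · rw [Finset.mem_filter] at hw ⊢
    exact ⟨hw.1, hw.2.trans hxy⟩
  · have := hs (Finset.mem_filter.2 ⟨hJ.mem_toFinset.2 hx, hxy⟩)
    exact lt_irrefl _ (Finset.mem_filter.1 this).2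

/-- Fix the indices below `η`, move the others into `[η, η + ω)`. -/
theorem exists_squeeze {J : Set Ordinal.{u}} (hJ : J.Finite) (η : Ordinal.{u}) :
    ∃ τ : Ordinal.{u} → Ordinal.{u}, StrictMonoOn τ J ∧ (∀ i < η, τ i = i) ∧
      ∀ i ∈ J, τ i < η + ω := by
  classical
  obtain ⟨n, hn⟩ := exists_strictMonoOn_nat hJ
  refine ⟨fun i => if i < η then i else η + n i, fun x hx y hy hxy => ?_,
    fun i hi => if_pos hi, fun i _ => ?_⟩
  · dsimp only
    split_ifs with h1 h2 h2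
    · exact hxy
    · exact h1.trans_le le_self_add
    · exact absurd (hxy.trans h2) h1
    · exact add_lt_add_right (Nat.cast_lt.2 (hn hx hy hxy)) _
  · dsimp only
    split_ifs with h1
    · exact h1.trans_le le_self_add
    · exact add_lt_add_right (Ordinal.natCast_lt_omega0 _) _

/-- Fix the indices below a limit `η`, move the others below `η`. -/
theorem exists_squeeze_lim {J : Set Ordinal.{u}} (hJ : J.Finite) {η : Ordinal.{u}}
    (hη : Order.IsSuccLimit η) :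
    ∃ τ : Ordinal.{u} → Ordinal.{u}, StrictMonoOn τ J ∧ (∀ i < η, τ i = i) ∧
      ∃ η' < η, ∀ i ∈ J, τ i < η' := by
  classical
  obtain ⟨n, hn⟩ := exists_strictMonoOn_nat hJ
  have hb : ∀ (k : Ordinal.{u} → Ordinal.{u}) (s : Set Ordinal.{u}), s.Finite →
      (∀ i ∈ s, k i < η) → ∃ b < η, ∀ i ∈ s, k i < b := by
    intro k s hs hk
    rcases s.eq_empty_or_nonempty with rfl | hne
    · exact ⟨0, hη.bot_lt, by simp⟩
    · obtain ⟨a, ha, hmax⟩ := Set.exists_max_image s k hs hne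
      exact ⟨Order.succ (k a), hη.succ_lt (hk a ha), fun i hi => Order.lt_succ_of_le (hmax i hi)⟩
  obtain ⟨b, hbη, hbJ⟩ := hb id (J ∩ Iio η) (hJ.subset inter_subset_left) fun i hi => hi.2
  refine ⟨fun i => if i < η then i else b + n i, fun x hx y hy hxy => ?_,
    fun i hi => if_pos hi, hb _ J hJ fun i _ => ?_⟩
  · dsimp only
    split_ifs with h1 h2 h2
    · exact hxy
    · exact (hbJ x ⟨hx, h1⟩).trans_le le_self_add
    · exact absurd (hxy.trans h2) h1
    · exact add_lt_add_right (Nat.cast_lt.2 (hn hx hy hxy)) _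
  · split_ifs with h1
    · exact h1
    · generalize n i = k
      induction k with
      | zero => simpa using hbη
      | succ k ih =>
        rw [Nat.cast_succ, ← add_assoc]
        exact hη.succ_lt ih

end Pool.Agent.P.MP_833f7a_lc
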