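import Pool.Agent.P.MP_833f7a_lc.Trans
import Pool.Agent.P.MP_833f7a_lc.Ordc

/-!
The extension of a good theory to arbitrary indices.
-/

universe u v w

namespace Pool.Agent.P.MP_833f7a_lc

open Cardinal Ordinal Set Code Nm

variable {ι : Type v} {ι' : Type w} [LinearOrder ι] [LinearOrder ι'] {c : Cls.{u}}
  {κ : Ordinal.{u}} {T : Set (Nm.{u} Ordinal.{u})}

theorem ExtL_nat {J : Set ι} (hJ : J.Finite) :
    ∃ τ : ι → Ordinal.{u}, StrictMonoOn τ J ∧ ∀ j, τ j < ω₁ := by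
  obtain ⟨τ, hτ⟩ := exists_strictMonoOn_nat hJ
  refine ⟨fun j => (τ j : Ordinal.{u}), fun a ha b hb hab => ?_, fun j => ?_⟩
  · exact Nat.cast_lt.mpr (hτ ha hb hab)
  · exact (natCast_lt_omega0 _).trans omega0_lt_omega_one

omit [LinearOrder ι] in
theorem ExtL_okcs {ν : Nm.{u} ι} {I : Set ι} {C : Set Ordinal.{u}}
    (h : ν.Ok c.k c.fl C I) : ν.Ok c.k c.fl (Iio c.γ ∪ (ν.cs.toFinset : Set Ordinal.{u})) I :=
  ⟨h.1, fun ξ hξ => Or.inr (by simpa using hξ), h.2.2⟩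

theorem ExtL_key (hT : Good c κ T) {ν : Nm.{u} ι} {τ τ' : ι → Ordinal.{u}}
    (hτ' : StrictMonoOn τ' ν.idx) (hτ : StrictMonoOn τ ν.idx) (hJ : ∀ j ∈ ν.idx, τ j < ω₁)
    (h : ν.map τ' ∈ T) : ν.map τ ∈ T := by
  have hok := hT.ok _ h
  have hν : ν.Ok c.k c.fl (Iio κ) univ := hok.of_map
  obtain ⟨R, hR, hTr⟩ := hT.fin ν.cs.toFinset (fun ξ hξ => hν.2.1 ξ (by simpa using hξ))
  have h1 : (ν.map τ').Ok c.k c.fl (Iio c.γ ∪ (ν.cs.toFinset : Set Ordinal.{u})) (Iio ω₁) := by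
    have := ExtL_okcs hok
    rwa [Nm.cs_map] at this
  have h2 : (ν.map τ).Ok c.k c.fl (Iio c.γ ∪ (ν.cs.toFinset : Set Ordinal.{u})) (Iio ω₁) :=
    (ExtL_okcs hν).map τ hJ
  have e1 : (ν.map fun i => (τ' i, τ i)).map Prod.fst = ν.map τ' := Nm.map_map _ _ _
  have e2 : (ν.map fun i => (τ' i, τ i)).map Prod.snd = ν.map τ := Nm.map_map _ _ _
  have hinv := hR.inv (ν.map fun i => (τ' i, τ i)) (by rw [e1]; exact h1) (by rw [e2]; exact h2) ?_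
  · rw [e1, e2] at hinv
    exact (hTr _ h2).mpr (hinv.mp ((hTr _ h1).mp h))
  · intro p g q g' hp hq μ _ _ _
    rw [Nm.occ_map, List.mem_map] at hp hq
    obtain ⟨⟨i, g0⟩, hi, e3⟩ := hp
    obtain ⟨⟨j, g1⟩, hj, e4⟩ := hq
    obtain ⟨rfl, -⟩ := Prod.mk.inj e3
    obtain ⟨rfl, -⟩ := Prod.mk.inj e4
    have hi' : i ∈ ν.idx := ⟨g0, hi⟩
    have hj' : j ∈ ν.idx := ⟨g1, hj⟩
    exact (hτ'.lt_iff_lt hi' hj').trans (hτ.lt_iff_lt hi' hj').symm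

theorem ExtL_iff (hT : Good c κ T) {ν : Nm.{u} ι} {τ : ι → Ordinal.{u}}
    (hτ : StrictMonoOn τ ν.idx) (hJ : ∀ j ∈ ν.idx, τ j < ω₁) : ν ∈ Ext T ↔ ν.map τ ∈ T :=
  ⟨fun ⟨_, h1, _, h3⟩ => ExtL_key hT h1 hτ hJ h3, fun h => ⟨τ, hτ, hJ, h⟩⟩

/-- Countably many indices are realised at once. -/
theorem Good.ext_real (hT : Good c κ T) (l : Finset Ordinal.{u}) (hl : ∀ ξ ∈ l, ξ < κ)
    {J : Set ι} {τ : ι → Ordinal.{u}} (hτ : StrictMonoOn τ J) (hJ : ∀ j ∈ J, τ j < ω₁) :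
    ∃ R : Str.{u} ι, Real c R (Iio c.γ ∪ l) J ∧
      ∀ ν : Nm.{u} ι, ν.Ok c.k c.fl (Iio c.γ ∪ l) J → (ν ∈ Ext T ↔ R.Tr ν) := by
  obtain ⟨R, hR, hTr⟩ := hT.fin l hl
  refine ⟨R.reidx fun _ => τ, hR.reidx hτ hJ, fun ν hν => ?_⟩
  rw [ExtL_iff hT (hτ.mono hν.2.2) (fun j hj => hJ j (hν.2.2 hj)),
    hTr _ (hν.map τ (fun j hj => hJ j (hν.2.2 hj)))]
  unfold Str.Tr
  rw [den_map]

/-- Finitely many names are realised at once. -/
theorem Good.ext_list (hT : Good c κ T) (L : List (Nm.{u} ι)) (hL : ∀ ν ∈ L, OkK c κ ν) :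
    ∃ (R : Str.{u} ι) (C : Set Ordinal.{u}) (J : Set ι), Real c R C J ∧ (c.γ ≤ κ → C ⊆ Iio κ) ∧
      (∀ ν ∈ L, ν.Ok c.k c.fl C J) ∧
      ∀ ν : Nm.{u} ι, ν.Ok c.k c.fl C J → (ν ∈ Ext T ↔ R.Tr ν) := by
  have hl : (lst L).Ok c.k c.fl (Iio κ) univ := ok_lst.mpr hL
  obtain ⟨τ, hτ, hJ⟩ := ExtL_nat (Nm.idx_finite (lst L))
  have hcs : ∀ ξ ∈ (lst L).cs.toFinset, ξ < κ := fun ξ hξ => hl.2.1 ξ (by simpa using hξ)
  obtain ⟨R, hR, hTr⟩ := hT.ext_real (lst L).cs.toFinset hcs hτ (fun j _ => hJ j)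
  refine ⟨R, _, _, hR, ?_, ok_lst.mp (ExtL_okcs hl.self), hTr⟩
  rintro hγ ξ (h | h)
  · exact lt_of_lt_of_le h hγ
  · exact hcs ξ h

theorem Good.ext_ok (hT : Good c κ T) {ν : Nm.{u} ι} (h : ν ∈ Ext T) : OkK c κ ν := by
  obtain ⟨τ, -, -, h⟩ := h
  exact (hT.ok _ h).of_map

theorem Good.ext_self (hT : Good c κ T) {ν : Nm.{u} Ordinal.{u}}
    (hν : ν.Ok c.k c.fl (Iio κ) (Iio ω₁)) : ν ∈ Ext T ↔ ν ∈ T := by
  rw [ExtL_iff hT (τ := id) (strictMono_id.strictMonoOn _) (fun j hj => hν.2.2 hj), Nm.map_id]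

theorem Good.ext_map (hT : Good c κ T) {ν : Nm.{u} ι} {τ : ι → ι'} (hτ : StrictMonoOn τ ν.idx) :
    ν.map τ ∈ Ext T ↔ ν ∈ Ext T := by
  obtain ⟨σ, hσ, hJ⟩ := ExtL_nat (Nm.idx_finite (ν.map τ))
  rw [ExtL_iff hT hσ (fun j _ => hJ j), Nm.map_map, ExtL_iff hT (τ := σ ∘ τ) ?_ (fun j _ => hJ _)]
  rw [Nm.idx_map] at hσ
  intro a ha b hb hab
  exact hσ (mem_image_of_mem _ ha) (mem_image_of_mem _ hb) (hτ ha hb hab)

/-- Invariance under moves that preserve the order inside each family. -/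
theorem Good.ext_inv (hT : Good c κ T) {ρ : Nm.{u} (ι × ι')} (hρ : OkK c κ (ρ.map Prod.fst))
    (h : ∀ p g q g', (p, g) ∈ ρ.occ → (q, g') ∈ ρ.occ → c.hb →
      upN (g.map Prod.fst) ∈ Ext T → eqN (g.map Prod.fst) (g'.map Prod.fst) ∈ Ext T →
      (p.1 < q.1 ↔ p.2 < q.2)) :
    ρ.map Prod.fst ∈ Ext T ↔ ρ.map Prod.snd ∈ Ext T := by
  obtain ⟨σ, hσ, hJ⟩ := ExtL_nat (Nm.idx_finite (ρ.map Prod.fst))
  obtain ⟨σ', hσ', hJ'⟩ := ExtL_nat (Nm.idx_finite (ρ.map Prod.snd))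
  have hρ0 : ρ.Ok c.k c.fl (Iio κ) univ := hρ.of_map
  obtain ⟨R, hR, hTr⟩ := hT.fin ρ.cs.toFinset (fun ξ hξ => hρ0.2.1 ξ (by simpa using hξ))
  have hρ1 := ExtL_okcs hρ0
  have e1 : ∀ n : Nm.{u} (ι × ι'), (n.map (Prod.map σ σ')).map Prod.fst =
      (n.map Prod.fst).map σ := fun n => by rw [Nm.map_map, Nm.map_map]; rfl
  have e2 : ∀ n : Nm.{u} (ι × ι'), (n.map (Prod.map σ σ')).map Prod.snd =
      (n.map Prod.snd).map σ' := fun n => by rw [Nm.map_map, Nm.map_map]; rfl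
  have h0 : (ρ.map Prod.fst).Ok c.k c.fl (Iio c.γ ∪ (ρ.cs.toFinset : Set Ordinal.{u})) univ :=
    hρ1.map _ (fun _ _ => mem_univ _)
  have h1 : ((ρ.map Prod.fst).map σ).Ok c.k c.fl
      (Iio c.γ ∪ (ρ.cs.toFinset : Set Ordinal.{u})) (Iio ω₁) := h0.map σ (fun j _ => hJ j)
  have h2 : ((ρ.map Prod.snd).map σ').Ok c.k c.fl
      (Iio c.γ ∪ (ρ.cs.toFinset : Set Ordinal.{u})) (Iio ω₁) :=
    (hρ1.map Prod.snd (J := univ) (fun _ _ => mem_univ _)).map σ' (fun j _ => hJ' j)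
  rw [ExtL_iff hT hσ (fun j _ => hJ j), ExtL_iff hT hσ' (fun j _ => hJ' j), hTr _ h1, hTr _ h2,
    ← e1, ← e2]
  apply hR.inv _ (by rw [e1]; exact h1) (by rw [e2]; exact h2)
  intro p g q g' hp hq μ hμ hg hg'
  rw [Nm.occ_map, List.mem_map] at hp hq
  obtain ⟨⟨i, g0⟩, hi, e3⟩ := hp
  obtain ⟨⟨j, g1⟩, hj, e4⟩ := hq
  obtain ⟨rfl, rfl⟩ := Prod.mk.inj e3
  obtain ⟨rfl, rfl⟩ := Prod.mk.inj e4
  simp only [e1] at hg hg'
  have oi : (i.1, g0.map Prod.fst) ∈ (ρ.map Prod.fst).occ := by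
    rw [Nm.occ_map, List.mem_map]; exact ⟨(i, g0), hi, rfl⟩
  have oj : (j.1, g1.map Prod.fst) ∈ (ρ.map Prod.fst).occ := by
    rw [Nm.occ_map, List.mem_map]; exact ⟨(j, g1), hj, rfl⟩
  have oi' : i.2 ∈ (ρ.map Prod.snd).idx := by
    rw [Nm.idx_map]; exact mem_image_of_mem _ ⟨g0, hi⟩
  have oj' : j.2 ∈ (ρ.map Prod.snd).idx := by
    rw [Nm.idx_map]; exact mem_image_of_mem _ ⟨g1, hj⟩
  have k0 : ((g0.map Prod.fst).map σ).Ok c.k c.fl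
      (Iio c.γ ∪ (ρ.cs.toFinset : Set Ordinal.{u})) (Iio ω₁) :=
    (h0.occ oi).2.map σ (fun j _ => hJ j)
  have k1 : ((g1.map Prod.fst).map σ).Ok c.k c.fl
      (Iio c.γ ∪ (ρ.cs.toFinset : Set Ordinal.{u})) (Iio ω₁) :=
    (h0.occ oj).2.map σ (fun j _ => hJ j)
  have hlt : R.μ0 < R.β := lt_of_le_of_lt hμ.lt.1 hμ.lt.2
  have s0 := Nm.idx_occ oi
  have s1 := Nm.idx_occ oj
  have hup : upN (g0.map Prod.fst) ∈ Ext T := by
    rw [ExtL_iff hT (τ := σ) (hσ.mono (by simpa using s0)) (fun j _ => hJ j)]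
    change upN ((g0.map Prod.fst).map σ) ∈ T
    rw [hTr _ (by simpa using k0), tr_upN hR.fs (hR.p0 hlt) (hR.den_in k0 0)]
    exact ⟨μ, hg, hμ⟩
  have heq : eqN (g0.map Prod.fst) (g1.map Prod.fst) ∈ Ext T := by
    rw [ExtL_iff hT (τ := σ) (hσ.mono (by simpa using ⟨s0, s1⟩)) (fun j _ => hJ j)]
    change eqN ((g0.map Prod.fst).map σ) ((g1.map Prod.fst).map σ) ∈ T
    rw [hTr _ (ok_op.mpr (ok_cons.mpr ⟨k0, k1⟩)), tr_eqN, hg, hg']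
  have := h i g0 j g1 hi hj (hR.hb.mpr hlt) hup heq
  exact (hσ.lt_iff_lt ⟨_, oi⟩ ⟨_, oj⟩).trans (this.trans (hσ'.lt_iff_lt oi' oj').symm)

theorem Good.ext_short (hT : Good c κ T) (hγ : c.γ ≤ κ) (hb : c.hb) {ν : Nm.{u} ι}
    (h : uN ν ∈ Ext T) : ∃ g, OkK c κ g ∧ g.T1 c.fl ∧ eqN g ν ∈ Ext T := by
  have hν : OkK c κ ν := by
    have := hT.ext_ok h
    simp only [ok_op, ok_cons, ok_par, ok_domN] at this
    exact this.1.2
  obtain ⟨R, C, J, hR, hC, hok, hTr⟩ := hT.ext_list [ν] (by simpa using hν)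
  have h1 : ν.Ok c.k c.fl C J := hok ν (by simp)
  rw [hTr _ (by simpa using h1), tr_uN hR.fs (hR.p0 (hR.hb.mp hb)) (hR.den_in h1 0)] at h
  obtain ⟨μ, h2, h3⟩ := h
  obtain ⟨g, g1, g2, g3⟩ := hR.short ν h1 μ h3 h2
  refine ⟨g, g2.mono (hC hγ) (subset_univ _), g1, ?_⟩
  rw [hTr _ (by simpa using ⟨g2.mono subset_rfl h1.2.2, h1⟩), tr_eqN, g3, h2]

theorem Good.ext_std (hT : Good c κ T) {ν : Nm.{u} ι} {ξ : Ordinal.{u}}
    (h : elN ν (cst ξ) ∈ Ext T) : ∃ ξ' < ξ, eqN ν (cst ξ') ∈ Ext T := by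
  obtain ⟨τ, h1, h2, h3⟩ := h
  obtain ⟨ξ', h4, h5⟩ := hT.std (ν.map τ) ξ h3
  exact ⟨ξ', h4, τ, by simpa using h1, by simpa using h2, h5⟩

/-- The collapse of the range of a sequence of ordinals. -/
noncomputable def ExtL_col (f : ℕ → Ordinal.{u}) (j : Ordinal.{u}) : Ordinal.{u} :=
  ⨆ n : {n : ℕ // f n < j}, ExtL_col f (f n.1) + 1
termination_by j
decreasing_by exact n.2

/-- A countable set of ordinals collapses into `ω₁`. -/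
theorem exists_collapse {J : Set Ordinal.{u}} (hJ : J.Countable) :
    ∃ τ : Ordinal.{u} → Ordinal.{u}, StrictMonoOn τ J ∧ ∀ j ∈ J, τ j < ω₁ := by
  rcases J.eq_empty_or_nonempty with rfl | hne
  · exact ⟨id, by simp [StrictMonoOn], by simp⟩
  obtain ⟨f, rfl⟩ := hJ.exists_eq_range hne
  refine ⟨ExtL_col f, ?_, fun j _ => ?_⟩
  · rintro _ ⟨n, rfl⟩ j - hlt
    conv_rhs => rw [ExtL_col]
    exact lt_of_lt_of_le (Order.lt_succ _)
      (Ordinal.le_iSup (fun n : {n : ℕ // f n < j} => ExtL_col f (f n.1) + 1) ⟨n, hlt⟩)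
  · induction j using WellFoundedLT.induction with
    | ind j ih =>
      rw [ExtL_col]
      apply Ordinal.iSup_lt_omega_one
      intro n
      exact (isSuccLimit_omega 1).succ_lt (ih _ n.2 (mem_range_self _))

theorem Good.ext_wf (hT : Good c κ T) :
    WellFounded fun ν ν' : Nm.{u} Ordinal.{u} => elN ν ν' ∈ Ext T := by
  rw [wellFounded_iff_isEmpty_descending_chain]
  refine ⟨fun ⟨s, hs⟩ => ?_⟩
  obtain ⟨τ, hτ, hJ⟩ := exists_collapse (J := ⋃ n, (s n).idx)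
    (countable_iUnion fun n => (Nm.idx_finite _).countable)
  refine (wellFounded_iff_isEmpty_descending_chain.mp hT.wfd).false
    ⟨fun n => (s n).map τ, fun n => ?_⟩
  have hsub : (elN (s (n + 1)) (s n)).idx ⊆ ⋃ n, (s n).idx := by
    simp only [Nm.idx_app, Nm.idx_cons]
    exact union_subset (subset_iUnion (fun n => (s n).idx) _) (subset_iUnion (fun n => (s n).idx) _)
  exact (ExtL_iff hT (hτ.mono hsub) (fun j hj => hJ j (hsub hj))).mp (hs n)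

theorem Good.exists_um (hT : Good c κ T) (hγ : c.γ ≤ κ) :
    ∃ m : UM c κ, ∀ ν, OkK c κ ν → (ν ∈ Ext T ↔ m.Ev fun R => R.Tr ν) := by
  classical
  have hex : ∀ s : Ix.{u}, ∃ R : Str.{u} Ordinal.{u},
      Real c R (Iio c.γ ∪ (s.1.filter (· < κ) : Finset Ordinal.{u})) s.2 ∧
      ∀ ν : Nm.{u} Ordinal.{u},
        ν.Ok c.k c.fl (Iio c.γ ∪ (s.1.filter (· < κ) : Finset Ordinal.{u})) s.2 →
          (ν ∈ Ext T ↔ R.Tr ν) := by
    intro s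
    obtain ⟨τ, hτ, hJ⟩ := ExtL_nat (s.2.finite_toSet)
    exact hT.ext_real _ (fun ξ hξ => (Finset.mem_filter.mp hξ).2) hτ (fun j _ => hJ j)
  choose R hR hTr using hex
  have hcs : ∀ s : Ix.{u},
      Iio c.γ ∪ ((s.1.filter (· < κ) : Finset Ordinal.{u}) : Set Ordinal.{u}) ⊆ Iio κ := by
    rintro s ξ (h | h)
    · exact lt_of_lt_of_le h hγ
    · exact (Finset.mem_filter.mp h).2
  have hcov : ∀ ν : Nm.{u} Ordinal.{u}, OkK c κ ν →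
      ∀ᶠ s in (Ultrafilter.of (Filter.atTop : Filter Ix.{u}) : Filter Ix.{u}),
        ν.Ok c.k c.fl (Iio c.γ ∪ (s.1.filter (· < κ) : Finset Ordinal.{u})) s.2 := by
    intro ν hν
    apply Filter.Eventually.filter_mono (Ultrafilter.of_le _)
    filter_upwards [Filter.eventually_ge_atTop (ν.cs.toFinset, (Nm.idx_finite ν).toFinset)]
      with s hs
    refine ⟨hν.1, fun ξ hξ => Or.inr ?_, fun i hi => ?_⟩
    · exact Finset.mem_filter.mpr ⟨hs.1 (by simpa using hξ), hν.2.1 ξ hξ⟩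
    · exact hs.2 (by simpa using hi)
  have key : ∀ ν : Nm.{u} Ordinal.{u}, OkK c κ ν → (ν ∈ Ext T ↔
      ∀ᶠ s in (Ultrafilter.of (Filter.atTop : Filter Ix.{u}) : Filter Ix.{u}), (R s).Tr ν) := by
    intro ν hν
    constructor
    · intro h
      filter_upwards [hcov ν hν] with s hs
      exact (hTr s ν hs).mp h
    · intro h
      obtain ⟨s, h1, h2⟩ := ((hcov ν hν).and h).exists
      exact (hTr s ν h1).mpr h2
  refine ⟨⟨Ultrafilter.of Filter.atTop, R, _, _, hR, hcs, hcov, ?_, ?_, ?_⟩, key⟩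
  · intro s ν hν
    rw [← hTr s ν hν, key ν (hν.mono (hcs s) (subset_univ _))]
  · intro ν ξ hν hξ h
    obtain ⟨ξ', h1, h2⟩ := hT.ext_std ((key _ (by simpa using ⟨hν, hξ⟩)).mpr h)
    exact ⟨ξ', h1, (key _ (by simpa using ⟨hν, h1.trans hξ⟩)).mp h2⟩
  · refine Subrelation.wf ?_ hT.ext_wf
    rintro ν ν' ⟨h1, h2, h3⟩
    rw [key _ (by simpa using ⟨h1, h2⟩)]
    filter_upwards [h3] with s hs
    exact tr_elN.mpr hs

end Pool.Agent.P.MP_833f7a_lc
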