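import Pool.Agent.P.MP_833f7a_lc.UML
import Pool.Agent.P.MP_833f7a_lc.Ordc

/-!
Moves in a coherent family; representatives and atoms of families.
-/

universe u v w

namespace Pool.Agent.P.MP_833f7a_lc

open Cardinal Ordinal Set Code Nm

namespace UM

variable {c : Cls.{u}} {κ : Ordinal.{u}} {m : UM c κ} {ν g g' : Nm.{u} Ordinal.{u}}
  {f : Nm.{u} Ordinal.{u} → Ordinal.{u} → Ordinal.{u}}

/-- The move given by `f` preserves the order inside each family of `ν`. -/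
def MvE (m : UM c κ) (f : Nm.{u} Ordinal.{u} → Ordinal.{u} → Ordinal.{u})
    (ν : Nm.{u} Ordinal.{u}) : Prop :=
  ∀ i g j g', (i, g) ∈ ν.occ → (j, g') ∈ ν.occ → m.UpE g → m.EqE g g' →
    (i < j ↔ f g i < f g' j)

theorem Fam_not_up (h : ¬ m.UpE g) :
    m.Ev fun R => ∀ μ, R.Up μ → R.den g 0 = od μ → False :=
  (ev_not.2 h).mono fun _ hR μ h1 h2 => hR ⟨μ, h1, h2⟩

theorem Fam_not_eq (h : ¬ m.EqE g g') : m.Ev fun R => R.den g 0 ≠ R.den g' 0 :=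
  ev_not.2 h

theorem Fam_mv (hf : m.MvE f ν) : m.Ev fun R => R.Mv (ν.mv f) := by
  have key : m.Ev fun R => ∀ p ∈ ν.occ, ∀ q ∈ ν.occ, ∀ μ, R.Up μ → R.den p.2 0 = od μ →
      R.den q.2 0 = od μ → (p.1 < q.1 ↔ f p.2 p.1 < f q.2 q.1) := by
    refine ev_list (L := ν.occ) (P := fun p R => ∀ q ∈ ν.occ, ∀ μ, R.Up μ → R.den p.2 0 = od μ →
      R.den q.2 0 = od μ → (p.1 < q.1 ↔ f p.2 p.1 < f q.2 q.1)) fun p hp => ?_
    refine ev_list (L := ν.occ) (P := fun q R => ∀ μ, R.Up μ → R.den p.2 0 = od μ →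
      R.den q.2 0 = od μ → (p.1 < q.1 ↔ f p.2 p.1 < f q.2 q.1)) fun q hq => ?_
    by_cases hu : m.UpE p.2
    · by_cases he : m.EqE p.2 q.2
      · exact ev_of_forall fun _ _ _ _ _ => hf p.1 p.2 q.1 q.2 hp hq hu he
      · exact (Fam_not_eq he).mono fun R hR μ _ h1 h2 => (hR (h1.trans h2.symm)).elim
    · exact (Fam_not_up hu).mono fun R hR μ h0 h1 _ => (hR μ h0 h1).elim
  refine key.mono fun R hR p g q g' hp hq μ hμ h1 h2 => ?_
  rw [Nm.occ_mv] at hp hq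
  obtain ⟨p0, hp0, ep⟩ := List.mem_map.1 hp
  obtain ⟨q0, hq0, eq⟩ := List.mem_map.1 hq
  obtain ⟨rfl, rfl⟩ := Prod.mk.inj ep
  obtain ⟨rfl, rfl⟩ := Prod.mk.inj eq
  rw [Nm.mv_fst] at h1 h2
  exact hR p0 hp0 q0 hq0 μ hμ h1 h2

theorem Fam_fix {P : Str.{u} Ordinal.{u} → Ordinal.{u} → Ordinal.{u} → Prop}
    (h : ∀ i g, (i, g) ∈ ν.occ → f g i ≠ i →
      m.Ev fun R => ∀ μ, R.Up μ → R.den g 0 = od μ → ¬ P R μ i) :
    m.Ev fun R => R.Fix (ν.mv f) (P R) := by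
  have key : m.Ev fun R => ∀ p ∈ ν.occ, ∀ μ, R.Up μ → R.den p.2 0 = od μ → P R μ p.1 →
      f p.2 p.1 = p.1 := by
    refine ev_list (L := ν.occ) (P := fun p R => ∀ μ, R.Up μ → R.den p.2 0 = od μ → P R μ p.1 →
      f p.2 p.1 = p.1) fun p hp => ?_
    by_cases e : f p.2 p.1 = p.1
    · exact ev_of_forall fun _ _ _ _ _ => e
    · exact (h p.1 p.2 hp e).mono fun R hR μ h0 h1 h2 => (hR μ h0 h1 h2).elim
  refine key.mono fun R hR p g hp μ hμ h1 h2 => ?_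
  rw [Nm.occ_mv] at hp
  obtain ⟨p0, hp0, ep⟩ := List.mem_map.1 hp
  obtain ⟨rfl, rfl⟩ := Prod.mk.inj ep
  rw [Nm.mv_fst] at h1
  exact hR p0 hp0 μ hμ h1 h2

theorem Fam_abv {η : Ordinal.{u}} (habv : ∀ i g', (i, g') ∈ ν.occ → m.EqE g' g → i < η) :
    m.Ev fun R => ∀ μ, R.den g 0 = od μ → R.Abv ν μ η := by
  have key : m.Ev fun R => ∀ p ∈ ν.occ, R.den p.2 0 = R.den g 0 → p.1 < η := by
    refine ev_list (L := ν.occ) (P := fun p R => R.den p.2 0 = R.den g 0 → p.1 < η) fun p hp => ?_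
    by_cases he : m.EqE p.2 g
    · exact ev_of_forall fun _ _ => habv p.1 p.2 hp he
    · exact (Fam_not_eq he).mono fun R hR h1 => (hR h1).elim
  exact key.mono fun R hR μ hμ i g' hi h1 => hR (i, g') hi (h1.trans hμ.symm)

theorem Fam_okmv (h : OkK c κ ν) (f : Nm.{u} Ordinal.{u} → Ordinal.{u} → Ordinal.{u}) :
    OkK c κ ((ν.mv f).map Prod.snd) :=
  h.mv f fun _ _ _ => mem_univ _

theorem um_inv (h : OkK c κ ν) (hf : m.MvE f ν) :
    (m.Ev fun R => R.Tr ν) ↔ m.Ev fun R => R.Tr ((ν.mv f).map Prod.snd) := by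
  refine Filter.eventually_congr ?_
  filter_upwards [m.cover ν h, m.cover _ (Fam_okmv h f), Fam_mv hf] with s h1 h2 h3
  have := (m.real s).inv (ν.mv f) (by rwa [Nm.mv_fst]) h2 h3
  rwa [Nm.mv_fst] at this

theorem um_indU (h : OkK c κ ν) (hf : m.MvE f ν)
    (hfix : ∀ i g, (i, g) ∈ ν.occ → m.UpE g → m.EqE g (par 0) → f g i = i)
    (hU : m.Ev fun R => ∃ z, R.U z ∧ R.den ν 0 = od z) : m.EqE ν ((ν.mv f).map Prod.snd) := by
  have hF : m.Ev fun R => R.Fix (ν.mv f) fun μ _ => μ = R.μ0 := by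
    refine Fam_fix (P := fun R μ _ => μ = R.μ0) fun i g hi hne => ?_
    by_cases hu : m.UpE g
    · have he : ¬ m.EqE g (par 0) := fun he => hne (hfix i g hi hu he)
      refine ((Fam_not_eq he).and ev_fs).mono fun R hR μ h0 h1 h2 => hR.1 ?_
      subst h2
      rw [h1, den_par, hR.2.2.2.2.1 h0.lt.2]
    · exact (Fam_not_up hu).mono fun R hR μ h0 h1 _ => hR μ h0 h1
  show ∀ᶠ s in (m.𝒰 : Filter Ix.{u}), _
  filter_upwards [m.cover ν h, m.cover _ (Fam_okmv h f), Fam_mv hf, hF, hU] with s h1 h2 h3 h4 h5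
  obtain ⟨z, hz, e⟩ := h5
  rw [e]
  exact ((m.real s).indU (ν.mv f) (by rwa [Nm.mv_fst]) h2 h3 h4 z hz (by rwa [Nm.mv_fst])).symm

theorem um_indE (h : OkK c κ ν) (hf : m.MvE f ν) {g0 : Nm.{u} Ordinal.{u}} (hu : m.UpE g0)
    {η : Ordinal.{u}}
    (hfix : ∀ i g, (i, g) ∈ ν.occ → m.UpE g → m.ElE g g0 ∨ m.EqE g g0 ∧ i < η → f g i = i)
    (hz : m.Ev fun R => ∃ μ z, R.den g0 0 = od μ ∧ z < R.e μ η ∧ R.den ν 0 = od z) :
    m.EqE ν ((ν.mv f).map Prod.snd) := by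
  have hF : m.Ev fun R => R.Fix (ν.mv f)
      fun μ' i => ∃ μ, R.den g0 0 = od μ ∧ (μ' < μ ∨ μ' = μ ∧ i < η) := by
    refine Fam_fix (P := fun R μ' i => ∃ μ, R.den g0 0 = od μ ∧ (μ' < μ ∨ μ' = μ ∧ i < η))
      fun i g hi hne => ?_
    by_cases hg : m.UpE g
    · have h1 : ¬ m.ElE g g0 := fun he => hne (hfix i g hi hg (Or.inl he))
      have h2 : m.Ev fun R => ¬ (R.den g 0 = R.den g0 0 ∧ i < η) := by
        by_cases hiη : i < η
        · have h3 : ¬ m.EqE g g0 := fun he => hne (hfix i g hi hg (Or.inr ⟨he, hiη⟩))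
          exact (Fam_not_eq h3).mono fun R hR h4 => hR h4.1
        · exact ev_of_forall fun _ h4 => hiη h4.2
      refine ((ev_not.2 h1).and h2).mono fun R hR μ' _ e1 ⟨μ, e2, h3⟩ => ?_
      rcases h3 with h3 | ⟨h3, h4⟩
      · exact hR.1 (by rw [e1, e2]; exact el_od_od.2 h3)
      · exact hR.2 ⟨by rw [e1, e2, h3], h4⟩
    · exact (Fam_not_up hg).mono fun R hR μ h0 h1 _ => hR μ h0 h1
  show ∀ᶠ s in (m.𝒰 : Filter Ix.{u}), _
  filter_upwards [m.cover ν h, m.cover _ (Fam_okmv h f), Fam_mv hf, hF, hu, hz, ev_mem (m := m) η]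
    with s h1 h2 h3 h4 h5 h6 h7
  obtain ⟨μ, z, e0, hlt, e⟩ := h6
  obtain ⟨μ', hμ, e0'⟩ := h5
  obtain rfl : μ' = μ := Code.od.inj (e0'.symm.trans e0)
  rw [e]
  refine ((m.real s).indE (ν.mv f) (by rwa [Nm.mv_fst]) h2 h3 μ' η hμ h7 ?_ z hlt
    (by rwa [Nm.mv_fst])).symm
  exact fun p g hp μ1 h8 h9 h10 => h4 p g hp μ1 h8 h9 ⟨μ', e0, h10⟩

theorem um_rem (h : OkK c κ ν) (hu : m.UpE g) {η : Ordinal.{u}}
    (habv : ∀ i g', (i, g') ∈ ν.occ → m.EqE g' g → i < η) (hlt : m.ElE ν g) :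
    m.Ev fun R => ∃ μ z, R.den g 0 = od μ ∧ z < R.e μ η ∧ R.den ν 0 = od z := by
  show ∀ᶠ s in (m.𝒰 : Filter Ix.{u}), _
  filter_upwards [m.cover ν h, hu, Fam_abv habv, hlt, ev_mem (m := m) η] with s h1 h2 h3 h4 h5
  obtain ⟨μ, hμ, e⟩ := h2
  rw [e] at h4
  obtain ⟨z, hz, e'⟩ := el_od.1 h4
  exact ⟨μ, z, e, (m.real s).rem ν μ η h1 hμ h5 (h3 μ e) z hz e', e'⟩

theorem um_coh (h : OkK c κ ν) (hu : m.UpE g) {t : Trm} (ht : t.depth ≤ c.k)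
    {η η' : Ordinal.{u}} (hlt : η < η')
    (habv : ∀ i g', (i, g') ∈ ν.occ → m.EqE g' g → i < η) :
    m.Ev fun R => ∃ μ, R.den g 0 = od μ ∧ ∀ f : Ordinal.{u} → Code.{u},
      (∀ z, f z = ev R.F t R.β (ec (od z) (R.den ν)) 0) →
      (f (R.e μ η) = f (R.e μ η') → limF R.F μ f = f (R.e μ η)) ∧
      (f (R.e μ η) ≠ f (R.e μ η') → limF R.F μ f = od 0) := by
  show ∀ᶠ s in (m.𝒰 : Filter Ix.{u}), _
  filter_upwards [m.cover ν h, hu, Fam_abv habv, ev_mem (m := m) η, ev_mem (m := m) η']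
    with s h1 h2 h3 h4 h5
  obtain ⟨μ, hμ, e⟩ := h2
  exact ⟨μ, e, (m.real s).coh ν t μ η η' h1 ht hμ h4 h5 hlt (h3 μ e)⟩

/-- A family that is not the bottom family is an upper family. -/
theorem Fam_upper (hu : m.UpE g) (he : ¬ m.EqE g (par 0)) :
    m.Ev fun R => ∃ z, R.U z ∧ R.den g 0 = od z := by
  refine ((hu.and (Fam_not_eq he)).and ev_fs).mono fun R hR => ?_
  obtain ⟨⟨⟨μ, hμ, e⟩, hne⟩, hfs⟩ := hR
  rcases hμ with ⟨h1, h2⟩ | hμ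
  · subst h1
    exact (hne (by rw [e, den_par, hfs.2.2.2.1 h2])).elim
  · exact ⟨μ, hμ, e⟩

open Classical in
/-- Keep the bottom atoms, give all other atoms finite indices. -/
noncomputable def Fam_f (m : UM c κ) (τ : Ordinal.{u} → ℕ) (g : Nm.{u} Ordinal.{u})
    (i : Ordinal.{u}) : Ordinal.{u} :=
  if m.UpE g ∧ m.EqE g (par 0) then i else (τ i : Ordinal.{u})

theorem Fam_f_pos {τ : Ordinal.{u} → ℕ} {i : Ordinal.{u}} (h : m.UpE g ∧ m.EqE g (par 0)) :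
    m.Fam_f τ g i = i := if_pos h

theorem Fam_f_neg {τ : Ordinal.{u} → ℕ} {i : Ordinal.{u}} (h : ¬ (m.UpE g ∧ m.EqE g (par 0))) :
    m.Fam_f τ g i = (τ i : Ordinal.{u}) := if_neg h

theorem Fam_f_mv {τ : Ordinal.{u} → ℕ} (hτ : StrictMonoOn τ ν.idx) : m.MvE (m.Fam_f τ) ν := by
  intro i g j g' hi hj hu he
  by_cases h : m.EqE g (par 0)
  · rw [Fam_f_pos ⟨hu, h⟩, Fam_f_pos ⟨hu.congr he, he.symm.trans h⟩]
  · rw [Fam_f_neg fun h' => h h'.2, Fam_f_neg fun h' => h (he.trans h'.2), Nat.cast_lt]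
    exact (hτ.lt_iff_lt ⟨g, hi⟩ ⟨g', hj⟩).symm

theorem Fam_f_eq {τ : Ordinal.{u} → ℕ} (h : OkK c κ g) (hτ : StrictMonoOn τ g.idx)
    (hU : m.Ev fun R => ∃ z, R.U z ∧ R.den g 0 = od z) :
    m.EqE g ((g.mv (m.Fam_f τ)).map Prod.snd) :=
  um_indU h (Fam_f_mv hτ) (fun _ _ _ h1 h2 => Fam_f_pos ⟨h1, h2⟩) hU

theorem Fam_bnd (hu : m.UpE g) : m.bnd g = th κ (m.fi g) := if_pos hu

theorem Fam_okK (h : g ∈ m.Fam0) : OkK c κ g := h.1.mono subset_rfl (subset_univ _)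

theorem fam_rep (hv : c.Valid κ) (h : m.Adm g) (hu : m.UpE g) : ∃ g' ∈ m.Fam0, m.EqE g g' := by
  by_cases he : m.EqE g (par 0)
  · exact ⟨par 0, ⟨ok_par, hu.congr he⟩, he⟩
  obtain ⟨τ, hτ⟩ := exists_strictMonoOn_nat (Nm.idx_finite g)
  have e := Fam_f_eq h.okK hτ (Fam_upper hu he)
  refine ⟨_, ⟨h.okK.mv _ fun i g1 hi => ?_, hu.congr e⟩, e⟩
  by_cases h1 : m.UpE g1 ∧ m.EqE g1 (par 0)
  · rw [Fam_f_pos h1]
    have h2 := h.2 i g1 hi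
    rwa [Fam_bnd h1.1, fi_congr (h.okK.occ hi).2 ok_par h1.2, fi_par0] at h2
  · rw [Fam_f_neg h1]
    exact (reg_th κ 0).nat_lt _

/-- A family has an admissible name; an upper family has one of type `T1`. -/
theorem fam_adm (hv : c.Valid κ) (h : g ∈ m.Fam0) :
    ∃ g', m.Adm g' ∧ g'.T1 c.fl ∧ m.EqE g g' := by
  by_cases he : m.EqE g (par 0)
  · exact ⟨par 0, adm_par 0, trivial, he⟩
  have hU := Fam_upper h.2 he
  obtain ⟨s, hs, z, hz, ez⟩ := ((m.cover g (Fam_okK h)).and hU).exists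
  obtain ⟨g1, hT, hok, e1⟩ := (m.real s).short g hs z hz ez
  have hok' : g1.Ok c.k c.fl (m.C s) (m.I s) := hok.mono subset_rfl hs.2.2
  have hE : m.EqE g g1 := (stab_eq hs hok').1 (ez.trans e1.symm)
  have hK : OkK c κ g1 := hok.mono (m.csub s) (subset_univ _)
  have hU1 : m.Ev fun R => ∃ z, R.U z ∧ R.den g1 0 = od z :=
    (hU.and hE).mono fun R ⟨⟨z, h1, h2⟩, h3⟩ => ⟨z, h1, h3.symm.trans h2⟩
  obtain ⟨τ, hτ⟩ := exists_strictMonoOn_nat (Nm.idx_finite g1)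
  have e := Fam_f_eq hK hτ hU1
  refine ⟨_, ⟨Fam_okmv hK _, fun i' g'' hi' => ?_⟩, by simpa using hT, hE.trans e⟩
  rw [Nm.occ_map, Nm.occ_mv, List.map_map] at hi'
  obtain ⟨⟨i, g2⟩, hi, ep⟩ := List.mem_map.1 hi'
  obtain ⟨rfl, rfl⟩ := Prod.mk.inj ep
  show m.Fam_f τ g2 i < m.bnd ((g2.mv (m.Fam_f τ)).map Prod.snd)
  by_cases h1 : m.UpE g2 ∧ m.EqE g2 (par 0)
  · rw [Fam_f_pos h1]
    have hi0 : i < th κ 0 := h.1.2.2 (hok.2.2 ⟨g2, hi⟩)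
    have hK2 : OkK c κ g2 := (hK.occ hi).2
    have hmv : m.MvE (m.Fam_f τ) (eqN g2 (par 0)) := by
      refine Fam_f_mv (hτ.mono ?_)
      simpa using Nm.idx_occ hi
    have h2 : m.Ev fun R => R.Tr (eqN g2 (par 0)) := h1.2.mono fun R hR => tr_eqN.2 hR
    have h3 := (um_inv (by simpa using hK2) hmv).1 h2
    have h4 : m.EqE ((g2.mv (m.Fam_f τ)).map Prod.snd) (par 0) :=
      h3.mono fun R hR => tr_eqN.1 hR
    rw [Fam_bnd ((h1.1.congr h1.2).congr h4.symm)]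
    exact hi0.trans_le ((th_strictMono κ).monotone zero_le)
  · rw [Fam_f_neg h1]
    exact ((reg_omega1.nat_lt _).trans_le hv.1).trans (hv.2.1.trans_le (le_bnd _))

theorem fam_atoms (hv : c.Valid κ) (h : m.Adm g) (hu : m.UpE g) : ∃ a, m.Atoms g a := by
  by_cases he : m.EqE g (par 0)
  · refine ⟨fun η => b η, fun η hη => ⟨ok_b.2 (mem_univ _), fun i g1 hi => ?_⟩,
      fun η => ok_b.2 (mem_univ _), fun η => ?_⟩
    · obtain ⟨rfl, rfl⟩ := Prod.mk.inj (List.mem_singleton.1 hi)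
      rwa [Fam_bnd (hu.congr he), ← fi_congr h.okK ok_par he]
    · refine ((hu.and he).and ev_fs).mono fun R hR μ e => ?_
      obtain ⟨⟨⟨μ', hμ, _⟩, e2⟩, hfs⟩ := hR
      have h0 : R.μ0 < R.β := hμ.lt.1.trans_lt hμ.lt.2
      rw [e, den_par, hfs.2.2.2.1 h0] at e2
      obtain rfl : μ = R.μ0 := Code.od.inj e2
      exact den_b_of_lt h0
  obtain ⟨g1, h1, e1⟩ := fam_rep hv h hu
  obtain ⟨g2, h2, hT, e2⟩ := fam_adm hv h1
  have e := e1.trans e2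
  have hok : ∀ η, OkK c κ (u η g2) := fun η => ok_u.2 ⟨mem_univ _, hT, h2.okK⟩
  refine ⟨fun η => u η g2, fun η hη => ⟨hok η, fun i g3 hi => ?_⟩, hok, fun η => ?_⟩
  · rcases List.mem_cons.1 hi with hi | hi
    · obtain ⟨rfl, rfl⟩ := Prod.mk.inj hi
      rwa [Fam_bnd (hu.congr e), ← fi_congr h.okK h2.okK e]
    · exact h2.2 i g3 hi
  · refine ((Fam_upper hu he).and e).mono fun R hR μ e3 => ?_
    obtain ⟨⟨z, hz, e4⟩, e5⟩ := hR
    obtain rfl : z = μ := Code.od.inj (e4.symm.trans e3)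
    exact den_u_of_U (e5.symm.trans e4) hz

theorem Fam_fi_lt (hv : c.Valid κ) (h : m.Adm g) (h' : m.Adm g') (hu : m.UpE g)
    (e : m.ElE g g') : m.fi g < m.fi g' := by
  obtain ⟨g1, h1, e1⟩ := fam_rep hv h hu
  rw [fi_congr h.okK (Fam_okK h1) e1]
  refine fi_lt h1 h'.okK ((Ev.and e e1).mono fun R hR => ?_)
  rw [← hR.2]
  exact hR.1

theorem fi_lt_iff (hv : c.Valid κ) (h : m.Adm g) (h' : m.Adm g') (hu : m.UpE g) (hu' : m.UpE g') :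
    m.fi g < m.fi g' ↔ m.ElE g g' := by
  refine ⟨fun hlt => ?_, Fam_fi_lt hv h h' hu⟩
  rcases ord_trichotomy hu.ordE hu'.ordE with e | e | e
  · exact e
  · exact (hlt.ne (fi_congr h.okK h'.okK e)).elim
  · exact (hlt.not_gt (Fam_fi_lt hv h' h hu' e)).elim

theorem fi_eq_iff (hv : c.Valid κ) (h : m.Adm g) (h' : m.Adm g') (hu : m.UpE g) (hu' : m.UpE g') :
    m.fi g = m.fi g' ↔ m.EqE g g' := by
  refine ⟨fun heq => ?_, fi_congr h.okK h'.okK⟩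
  rcases ord_trichotomy hu.ordE hu'.ordE with e | e | e
  · exact ((Fam_fi_lt hv h h' hu e).ne heq).elim
  · exact e
  · exact ((Fam_fi_lt hv h' h hu' e).ne heq.symm).elim

end UM

end Pool.Agent.P.MP_833f7a_lc
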