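import Pool.Agent.P.MP_833f7a_lc.AE1

/-!
Weakly compact cardinals are inaccessible and have normal flips.
-/

universe u v w

namespace Pool.Agent.P.MP_833f7a_lc

open Cardinal Ordinal Set

variable {κ : Cardinal.{u}}

/-- homogeneous sets for a colouring given by a relation -/
theorem Flip_hom (h : WeaklyCompact κ) (c : Ordinal.{u} → Ordinal.{u} → Prop) :
    ∃ H ⊆ Iio κ.ord, #H = Cardinal.lift.{u + 1} κ ∧
      ((∀ α ∈ H, ∀ β ∈ H, α < β → c α β) ∨ ∀ α ∈ H, ∀ β ∈ H, α < β → ¬ c α β) := by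
  classical
  obtain ⟨H, hH, hc, b, hb⟩ := h.2 fun α β => decide (c α β)
  refine ⟨H, hH, hc, ?_⟩
  cases b
  · exact Or.inr fun α hα β hβ hlt => by simpa using hb α hα β hβ hlt
  · exact Or.inl fun α hα β hβ hlt => by simpa using hb α hα β hβ hlt

theorem WeaklyCompact.reg (h : WeaklyCompact κ) : Reg κ.ord := by
  classical
  refine reg_ord ⟨h.1.le, ?_⟩ h.1
  by_contra hlt
  rw [not_le] at hlt
  obtain ⟨S, hS, hcard⟩ := Order.exists_cof_eq (Iio κ.ord)
  rw [Ordinal.cof_Iio, ← Ordinal.lift_cof] at hcard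
  have hSlt : #S < Cardinal.lift.{u + 1} κ := by
    rw [hcard]
    exact Cardinal.lift_lt.2 hlt
  have hlim := Cardinal.isSuccLimit_ord h.1.le
  have hex : ∀ α : Iio κ.ord, ∃ s : S, α ≤ s.1 := fun α => by
    obtain ⟨s, hs, hle⟩ := hS α
    exact ⟨⟨s, hs⟩, hle⟩
  choose g hg using hex
  obtain ⟨H, hH, hc, hom⟩ := Flip_hom h fun α β =>
    ∀ (hα : α < κ.ord) (hβ : β < κ.ord), g ⟨α, hα⟩ = g ⟨β, hβ⟩
  rcases hom with hom | hom
  · have hne : H.Nonempty := by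
      rw [← Set.nonempty_coe_sort, ← Cardinal.mk_ne_zero_iff, hc]
      simpa using (Cardinal.aleph0_pos.trans h.1).ne'
    obtain ⟨α, hα⟩ := hne
    set s : Ordinal.{u} := (g ⟨α, hH hα⟩).1.1 with hs
    have hs' : s < κ.ord := (g ⟨α, hH hα⟩).1.2
    have hsub : H ⊆ Iio (s + 1) := by
      intro β hβ
      have h1 : g ⟨β, hH hβ⟩ = g ⟨α, hH hα⟩ := by
        rcases lt_trichotomy α β with h2 | h2 | h2
        · exact (hom α hα β hβ h2 _ _).symm
        · subst h2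
          rfl
        · exact hom β hβ α hα h2 _ _
      have h2 : β ≤ s := by
        have := hg ⟨β, hH hβ⟩
        rw [h1] at this
        exact this
      exact Order.lt_add_one_iff.2 h2
    have h3 := Cardinal.mk_le_mk_of_subset hsub
    rw [hc, Cardinal.mk_Iio_ordinal, Cardinal.lift_le] at h3
    exact absurd h3 (not_le.2 (Cardinal.lt_ord.1 (hlim.add_one_lt hs')))
  · have hinj : Function.Injective fun x : H => g ⟨x.1, hH x.2⟩ := by
      intro x y hxy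
      by_contra hne
      rcases lt_or_gt_of_ne (fun h' : x.1 = y.1 => hne (Subtype.ext h')) with h2 | h2
      · exact hom _ x.2 _ y.2 h2 fun _ _ => hxy
      · exact hom _ y.2 _ x.2 h2 fun _ _ => hxy.symm
    have h3 := Cardinal.mk_le_of_injective hinj
    rw [hc] at h3
    exact absurd h3 (not_le.2 hSlt)

theorem Flip_unb (h : WeaklyCompact κ) {H : Set Ordinal.{u}} (hH : H ⊆ Iio κ.ord)
    (hc : #H = Cardinal.lift.{u + 1} κ) : Unb H κ.ord := by
  rw [unb_iff_not_few h.reg, inter_eq_left.2 hH, Few, Cardinal.card_ord, Cardinal.lift_id'.{u, u + 1},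
    hc]
  exact lt_irrefl _

/-- a property that persists upwards along a tail is decided -/
theorem Flip_persist {H : Set Ordinal.{u}} {μ δ : Ordinal.{u}} (hδ : δ < μ)
    {P : Ordinal.{u} → Prop}
    (hP : ∀ α ∈ H, ∀ β ∈ H, δ ≤ α → α < β → β < μ → P α → P β) :
    AE H μ P ∨ AE H μ fun z => ¬ P z := by
  by_cases hex : ∃ α ∈ H, δ ≤ α ∧ α < μ ∧ P α
  · obtain ⟨α, hα, h1, h2, h3⟩ := hex
    refine Or.inl ⟨α, h2, fun β hβ h4 h5 => ?_⟩
    rcases h4.eq_or_lt with h6 | h6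
    · exact h6 ▸ h3
    · exact hP α hα β hβ h1 h6 h5 h3
  · exact Or.inr ⟨δ, hδ, fun β hβ h4 h5 h6 => hex ⟨β, hβ, h4, h5, h6⟩⟩

/-- fewer than `μ` decided properties are constant on one tail -/
theorem Flip_tail {H : Set Ordinal.{u}} {μ j : Ordinal.{u}} (hμ : Reg μ) (hj : j < μ)
    {X : Ordinal.{u} → Ordinal.{u} → Prop}
    (hX : ∀ i < j, AE H μ (X i) ∨ AE H μ fun z => ¬ X i z) :
    ∃ δ < μ, ∀ α ∈ H, ∀ β ∈ H, δ ≤ α → δ ≤ β → α < μ → β < μ → ∀ i < j, (X i α ↔ X i β) := by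
  have h1 : ∀ i < j, AE H μ fun z => (X i z ↔ AE H μ (X i)) := by
    intro i hi
    by_cases h2 : AE H μ (X i)
    · exact h2.mono fun η _ h3 => iff_of_true h3 h2
    · exact ((hX i hi).resolve_left h2).mono fun η _ h3 => iff_of_false h3 h2
  obtain ⟨δ, hδ, h2⟩ := ae_all_lt hμ hj h1
  exact ⟨δ, hδ, fun α hα β hβ h3 h4 h5 h6 i hi =>
    (h2 α hα h3 h5 i hi).trans (h2 β hβ h4 h6 i hi).symm⟩

/-- the lexicographic colouring -/
theorem Flip_lex (h : WeaklyCompact κ) (X : Ordinal.{u} → Ordinal.{u} → Prop) :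
    ∃ H, Unb H κ.ord ∧ ∀ j < κ.ord, AE H κ.ord (X j) ∨ AE H κ.ord fun z => ¬ X j z := by
  obtain ⟨H, hH, hc, hom⟩ := Flip_hom h fun α β =>
    ∃ j, (∀ i < j, (X i α ↔ X i β)) ∧ ¬ X j α ∧ X j β
  refine ⟨H, Flip_unb h hH hc, fun j => ?_⟩
  induction j using WellFoundedLT.induction with
  | ind j ih =>
    intro hj
    obtain ⟨δ, hδ, hag⟩ := Flip_tail h.reg hj fun i hi => ih i hi (hi.trans hj)
    rcases hom with hom | hom
    · refine Flip_persist hδ fun α hα β hβ h1 h2 h3 h4 => ?_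
      obtain ⟨j', h5, h6, h7⟩ := hom α hα β hβ h2
      rcases lt_trichotomy j j' with h8 | h8 | h8
      · exact (h5 j h8).1 h4
      · exact h8 ▸ h7
      · exact absurd ((hag α hα β hβ h1 (h1.trans h2.le) (h2.trans h3) h3 j' h8).2 h7) h6
    · have h0 := Flip_persist (P := fun z => ¬ X j z) hδ fun α hα β hβ h1 h2 h3 h4 h5 =>
        hom α hα β hβ h2 ⟨j, hag α hα β hβ h1 (h1.trans h2.le) (h2.trans h3) h3, h4, h5⟩
      rcases h0 with h0 | h0
      · exact Or.inr h0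
      · exact Or.inl (h0.mono fun η _ h1 => not_not.1 h1)

theorem WeaklyCompact.inacc (h : WeaklyCompact κ) : Inacc κ.ord := by
  refine ⟨h.reg, fun δ hδ => ?_⟩
  by_contra hn
  rw [Few, not_lt, Cardinal.lift_id'.{u, u + 1}, ← Cardinal.mk_Iio_ordinal] at hn
  obtain ⟨F⟩ := hn
  obtain ⟨H, hu, hX⟩ := Flip_lex h fun i z => ∃ (hi : i < δ) (hz : z < κ.ord), ⟨i, hi⟩ ∈ F ⟨z, hz⟩
  obtain ⟨ε, hε, hag⟩ := Flip_tail h.reg hδ fun i hi => hX i (hi.trans hδ)
  obtain ⟨α, hα, h1, h2⟩ := hu ε hε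
  obtain ⟨β, hβ, h3, h4⟩ := hu (α + 1) (h.reg.succ_lt h2)
  have h5 : α < β := Order.add_one_le_iff.1 h3
  have h6 : F ⟨α, h2⟩ = F ⟨β, h4⟩ := by
    ext ⟨i, hi⟩
    have h7 := hag α hα β hβ h1 (h1.trans h5.le) h2 h4 i hi
    constructor
    · intro h8
      obtain ⟨_, _, h9⟩ := h7.1 ⟨hi, h2, h8⟩
      exact h9
    · intro h8
      obtain ⟨_, _, h9⟩ := h7.2 ⟨hi, h4, h8⟩
      exact h9
  exact h5.ne (congrArg Subtype.val (F.injective h6))

theorem WeaklyCompact.flip (h : WeaklyCompact κ) {J : Type v} (hJ : Few (nxt κ.ord) J)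
    (X : J → Ordinal.{u} → Prop) :
    ∃ H, Unb H κ.ord ∧ ∀ j, AE H κ.ord (X j) ∨ AE H κ.ord fun z => ¬ X j z := by
  obtain ⟨f, hf, hlt⟩ := hJ.exists_inj_nxt
  obtain ⟨H, hu, hX⟩ := Flip_lex h fun i z => ∃ j, f j = i ∧ X j z
  refine ⟨H, hu, fun j => ?_⟩
  rcases hX (f j) (hlt j) with h1 | h1
  · refine Or.inl (h1.mono fun η _ ⟨j', h2, h3⟩ => ?_)
    exact hf h2 ▸ h3
  · exact Or.inr (h1.mono fun η _ h2 h3 => h2 ⟨j, rfl, h3⟩)

/-- finite compositions of the regressive steps -/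
def Flip_comp {J : Type v} (f : J → Ordinal.{u} → Option Ordinal.{u}) :
    List J → Ordinal.{u} → Ordinal.{u}
  | [], z => z
  | j :: l, z => (f j (Flip_comp f l z)).getD (Flip_comp f l z)

theorem Flip_comp_le {J : Type v} {f : J → Ordinal.{u} → Option Ordinal.{u}}
    (hf : ∀ j z v, f j z = some v → v < z) (l : List J) (z : Ordinal.{u}) :
    Flip_comp f l z ≤ z := by
  induction l with
  | nil => exact le_rfl
  | cons j l ih =>
    rw [Flip_comp]
    cases hv : f j (Flip_comp f l z) with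
    | none => exact ih
    | some v => exact (hf _ _ _ hv).le.trans ih

theorem Flip_wf {H : Set Ordinal.{u}} {μ : Ordinal.{u}} (hμ : Reg μ) (hu : Unb H μ) {I : Type v}
    (g : I → Ordinal.{u} → Ordinal.{u}) :
    WellFounded fun l l' : I => AE H μ fun z => g l z < g l' z := by
  rw [wellFounded_iff_isEmpty_descending_chain]
  refine ⟨fun ⟨s, hs⟩ => ?_⟩
  obtain ⟨z, -, -, hz⟩ := (ae_all hμ (few_countable hμ ℕ) hs).exists hu
  exact (wellFounded_iff_isEmpty_descending_chain.1 (wellFounded_lt (α := Ordinal.{u}))).false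
    ⟨fun n => g (s n) z, hz⟩

theorem WeaklyCompact.normal_flip (h : WeaklyCompact κ) {J : Type v} (hJ : Few (nxt κ.ord) J)
    (f : J → Ordinal.{u} → Option Ordinal.{u}) (hf : ∀ j z v, f j z = some v → v < z) :
    ∃ A, Unb A κ.ord ∧ ∀ j, ∃ v, AE A κ.ord fun z => f j z = v := by
  have hμ := h.reg
  have hn : Reg (nxt κ.ord) := reg_nxt hμ.omega_lt.le
  have hL : Few (nxt κ.ord) (List J) := Few.list hn hJ
  obtain ⟨H, hu, hX⟩ := h.flip (Few.sum hn (Few.prod hn hL (few_Iio_nxt κ.ord)) (Few.prod hn hL hL))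
    (Sum.elim (fun p z => Flip_comp f p.1 z = p.2.1)
      fun p z => Flip_comp f p.1 z < Flip_comp f p.2 z)
  have hX1 : ∀ l, ∀ v < κ.ord, AE H κ.ord (fun z => Flip_comp f l z = v) ∨
      AE H κ.ord fun z => ¬ Flip_comp f l z = v := fun l v hv => hX (Sum.inl (l, ⟨v, hv⟩))
  have hX2 : ∀ l l', AE H κ.ord (fun z => Flip_comp f l z < Flip_comp f l' z) ∨
      AE H κ.ord fun z => ¬ Flip_comp f l z < Flip_comp f l' z := fun l l' => hX (Sum.inr (l, l'))
  have hne : {l : List J | ¬ ∃ v, AE H κ.ord fun z => Flip_comp f l z = v}.Nonempty := by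
    refine ⟨[], fun ⟨v, δ, hδ, hv⟩ => ?_⟩
    obtain ⟨α, hα, h1, h2⟩ := hu δ hδ
    obtain ⟨β, hβ, h3, h4⟩ := hu (α + 1) (hμ.succ_lt h2)
    have h5 : α < β := Order.add_one_le_iff.1 h3
    exact h5.ne ((hv α hα h1 h2).trans (hv β hβ (h1.trans h5.le) h4).symm)
  obtain ⟨l, hl, hmin⟩ := (Flip_wf hμ hu (Flip_comp f)).has_min _ hne
  have htr : ∀ P : Ordinal.{u} → Prop, AE H κ.ord (fun z => P (Flip_comp f l z)) →
      AE (Flip_comp f l '' (H ∩ Iio κ.ord)) κ.ord P := by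
    rintro P ⟨δ, hδ, hP⟩
    refine ⟨δ, hδ, ?_⟩
    rintro _ ⟨z, ⟨hz, hz'⟩, rfl⟩ h1 -
    exact hP z hz (h1.trans (Flip_comp_le hf l z)) hz'
  refine ⟨Flip_comp f l '' (H ∩ Iio κ.ord), fun δ hδ => ?_, fun j => ?_⟩
  · have h1 : AE H κ.ord fun z => ∀ v < δ, ¬ Flip_comp f l z = v :=
      ae_all_lt hμ hδ fun v hv => (hX1 l v (hv.trans hδ)).resolve_left fun h2 => hl ⟨v, h2⟩
    obtain ⟨z, hz, hz', h2⟩ := h1.exists hu
    exact ⟨_, ⟨z, ⟨hz, hz'⟩, rfl⟩, not_lt.1 fun h3 => h2 _ h3 rfl,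
      (Flip_comp_le hf l z).trans_lt hz'⟩
  · rcases hX2 (j :: l) l with h1 | h1
    · obtain ⟨v, hv⟩ : ∃ v, AE H κ.ord fun z => Flip_comp f (j :: l) z = v := by
        by_contra h2
        exact hmin _ h2 h1
      refine ⟨some v, htr (fun z => f j z = some v) ((h1.and hv).mono fun z _ ⟨h2, h3⟩ => ?_)⟩
      rw [Flip_comp] at h2 h3
      cases hw : f j (Flip_comp f l z) with
      | none =>
        rw [hw] at h2
        exact absurd h2 (lt_irrefl _)
      | some w =>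
        rw [hw] at h3
        exact congrArg some h3
    · refine ⟨none, htr (fun z => f j z = none) (h1.mono fun z _ h2 => ?_)⟩
      rw [Flip_comp] at h2
      cases hw : f j (Flip_comp f l z) with
      | none => rfl
      | some w =>
        rw [hw] at h2
        exact absurd (hf _ _ _ hw) h2

end Pool.Agent.P.MP_833f7a_lc
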