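import Pool.Agent.P.MP_833f7a_lc.Thin
import Pool.Agent.P.MP_833f7a_lc.BorL
import Pool.Agent.P.MP_833f7a_lc.Diag
import Pool.Agent.P.MP_833f7a_lc.CodeN
import Pool.Agent.P.MP_833f7a_lc.ClsL
import Pool.Agent.P.MP_833f7a_lc.Flip

/-!
There are few good theories, so one set is homogeneous for all of them.
-/

universe u v w

namespace Pool.Agent.P.MP_833f7a_lc

open Cardinal Ordinal Set Code Nm

theorem FewGood_ords {x : ZFSet.{u}} {T : Set (Nm.{u} Ordinal.{u})}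
    {cd : Nm.{u} Ordinal.{u} → Ordinal.{u}} (h : ∀ y, y ∈ x ↔ ∃ ν ∈ T, y = (cd ν).toZFSet)
    (ξ : Ordinal.{u}) : ξ ∈ ords x ↔ ∃ ν ∈ T, cd ν = ξ := by
  change ξ.toZFSet ∈ x ↔ _
  rw [h]
  exact exists_congr fun ν => and_congr_right fun _ =>
    ⟨fun e => (toZFSet_injective e).symm, fun e => by rw [e]⟩

theorem FewGood_decode {x : ZFSet.{u}} {T S : Set (Nm.{u} Ordinal.{u})}
    {cd : Nm.{u} Ordinal.{u} → Ordinal.{u}} (h : ∀ y, y ∈ x ↔ ∃ ν ∈ T, y = (cd ν).toZFSet)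
    (hS : T ⊆ S) (hi : InjOn cd S) : {ν | ν ∈ S ∧ cd ν ∈ ords x} = T := by
  ext ν
  rw [mem_ofPred_eq, FewGood_ords h]
  refine ⟨fun ⟨h1, ν', h2, h3⟩ => hi (hS h2) h1 h3 ▸ h2, fun h1 => ⟨hS h1, ν, h1, rfl⟩⟩

theorem FewGood_names {κ : Ordinal.{u}} (hκ : Reg κ) (c : Cls.{u}) :
    Few (nxt κ) {ν : Nm.{u} Ordinal.{u} | ν.Ok c.k c.fl (Iio κ) (Iio ω₁)} :=
  few_names (reg_nxt hκ.omega_lt.le) (few_Iio_nxt κ)
    ((few_Iio_nxt κ).subset (Iio_subset_Iio hκ.omega1_le))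

theorem few_good {κ : Cardinal.{u}} (hκ : Inacc κ.ord) (hP : PerfectSetProp κ) {c : Cls.{u}}
    (hv : c.Valid κ.ord) : Few (nxt κ.ord) {T | Good c κ.ord T} := by
  obtain ⟨cd, hlt, hinj, hsig⟩ := exists_coding hκ hv
  have hω := hκ.1.omega_lt.le
  by_contra hn
  have hex : ∀ T : {T | Good c κ.ord T}, ∃ x : ZFSet.{u},
      ∀ y, y ∈ x ↔ ∃ ν ∈ T.1, y = (cd ν).toZFSet := fun T => by
    refine ⟨ZFSet.sep (fun y => ∃ ν ∈ T.1, y = (cd ν).toZFSet) κ.ord.toZFSet, fun y => ?_⟩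
    rw [ZFSet.mem_sep]
    refine ⟨fun h => h.2, fun h => ⟨?_, h⟩⟩
    obtain ⟨ν, h1, rfl⟩ := h
    exact toZFSet_mem_toZFSet_iff.2 (hlt ν (T.2.ok ν h1))
  choose X hX using hex
  have hbig : ¬ Few (nxt κ.ord)
      {x : ZFSet.{u} | ∃ T, Good c κ.ord T ∧ ∀ y, y ∈ x ↔ ∃ ν ∈ T, y = (cd ν).toZFSet} :=
    fun h => hn (h.of_inj (fun T => ⟨X T, T.1, T.2, hX T⟩) fun T T' e => by
      have e' : X T = X T' := congrArg Subtype.val e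
      refine Subtype.ext ?_
      rw [← FewGood_decode (hX T) T.2.ok hinj, ← FewGood_decode (hX T') T'.2.ok hinj, e'])
  rw [few_nxt_iff, not_le, card_ord, Cardinal.lift_id'.{u, u + 1}] at hbig
  choose τ hτ using fun ν : Nm.{u} Ordinal.{u} => exists_strictMonoOn_nat (Nm.idx_finite ν)
  have key : ∀ (d : RedD.{u}) (x y : ZFSet.{u}) (T T' : Set (Nm.{u} Ordinal.{u})),
      Good c κ.ord T → Good c κ.ord T' → (∀ z, z ∈ x ↔ ∃ ν ∈ T, z = (cd ν).toZFSet) →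
      (∀ z, z ∈ y ↔ ∃ ν ∈ T', z = (cd ν).toZFSet) →
      (∀ ν : Nm.{u} ℕ, OkK c κ.ord ν → (ν ∈ Ext T ↔ Red c κ.ord d (Ext T') ν)) →
      ∀ ξ, ξ ∈ ords x ↔ ∃ ν : {ν : Nm.{u} Ordinal.{u} | ν.Ok c.k c.fl (Iio κ.ord) (Iio ω₁)},
        cd ν.1 = ξ ∧ Red c κ.ord d
          (Ext {ν | ν.Ok c.k c.fl (Iio κ.ord) (Iio ω₁) ∧ cd ν ∈ ords y}) (ν.1.map (τ ν.1)) := by
    intro d x y T T' hT hT' hx hy h ξ
    have e : {ν | ν.Ok c.k c.fl (Iio κ.ord) (Iio ω₁) ∧ cd ν ∈ ords y} = T' :=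
      FewGood_decode hy hT'.ok hinj
    have h1 : ∀ ν : Nm.{u} Ordinal.{u}, ν.Ok c.k c.fl (Iio κ.ord) (Iio ω₁) →
        (ν ∈ T ↔ Red c κ.ord d (Ext T') (ν.map (τ ν))) := fun ν hν => by
      rw [← h _ (hν.map _ fun _ _ => mem_univ _), hT.ext_map (hτ ν), hT.ext_self hν]
    rw [e, FewGood_ords hx]
    exact ⟨fun ⟨ν, h2, h3⟩ => ⟨⟨ν, hT.ok ν h2⟩, h3, (h1 ν (hT.ok ν h2)).1 h2⟩,
      fun ⟨ν, h2, h3⟩ => ⟨ν.1, (h1 ν.1 ν.2).2 h3, h2⟩⟩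
  refine no_perfect hκ.1 (few_redD hω c)
    (fun d ξ y => ∃ ν : {ν : Nm.{u} Ordinal.{u} | ν.Ok c.k c.fl (Iio κ.ord) (Iio ω₁)},
      cd ν.1 = ξ ∧ Red c κ.ord d.1
        (Ext {ν | ν.Ok c.k c.fl (Iio κ.ord) (Iio ω₁) ∧ cd ν ∈ y}) (ν.1.map (τ ν.1)))
    (fun d ξ => bor_ex hω (FewGood_names hκ.1 c) fun ν => (bor_const hω _).and hω
      (bor_red hω c d.1 (fun n => bor_ext hκ.1.omega1_le hlt n) _)) ?_
    (hP _ ?_ hbig hsig)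
  · rintro x ⟨T, hT, hx⟩ y ⟨T', hT', hy⟩
    obtain ⟨d, hd, h⟩ := thin_pair hv hT hT'
    exact ⟨⟨d, hd⟩, h.imp (fun h ξ _ => key d x y T T' hT hT' hx hy h ξ)
      fun h ξ _ => key d y x T' T hT' hT hy hx h ξ⟩
  · rintro x ⟨T, hT, hx⟩ y hy
    obtain ⟨ν, h1, rfl⟩ := (hx y).1 hy
    exact toZFSet_mem_toZFSet_iff.2 (hlt ν (hT.ok ν h1))

theorem FewGood_fo {T : Set (Nm.{u} Ordinal.{u})} {ν : Nm.{u} Ordinal.{u}} {j : ℕ}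
    {z v : Ordinal.{u}} (h : fo T ν j z = some v) : v < z := by
  unfold fo at h
  split_ifs at h with h1
  obtain rfl := Option.some.inj h
  exact (csInf_mem (s := {z' | z' < z ∧ eqN (ν.sb j z) (cst z') ∈ T}) h1).1

theorem exists_PP {κ : Cardinal.{u}} (hκ : WeaklyCompact κ) (hP : PerfectSetProp κ) :
    ∃ A, Unb A κ.ord ∧ PP A κ.ord := by
  have hr := reg_nxt hκ.reg.omega_lt.le
  have hJ : Few (nxt κ.ord) (Σ c : {c : Cls.{u} | c.Valid κ.ord}, {T | Good c.1 κ.ord T} ×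
      {ν : Nm.{u} Ordinal.{u} | ν.Ok c.1.k c.1.fl (Iio κ.ord) (Iio ω₁)} × ℕ) :=
    Few.sigma hr (few_cls_nxt hκ.inacc) fun c => Few.prod hr (few_good hκ.inacc hP c.2)
      (Few.prod hr (FewGood_names hκ.reg c.1) (few_countable hr ℕ))
  obtain ⟨A, hA, h⟩ := hκ.normal_flip hJ (fun j z => fo j.2.1.1 j.2.2.1.1 j.2.2.2 z)
    fun _ _ _ => FewGood_fo
  exact ⟨A, hA, fun c hc T hT ν hν j => h ⟨⟨c, hc⟩, ⟨T, hT⟩, ⟨ν, hν⟩, j⟩⟩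

end Pool.Agent.P.MP_833f7a_lc
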