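import Pool.Agent.P.MP_833f7a_lc.Sys
import Pool.Agent.P.MP_833f7a_lc.CodeB
import Pool.Agent.P.MP_833f7a_lc.AE2

/-!
Generic atoms: existence and genericity over higher families.
-/

universe u v w

namespace Pool.Agent.P.MP_833f7a_lc

open Cardinal Ordinal Set Code

variable {S A : Set Ordinal.{u}} {μ β μ' : Ordinal.{u}} {K : ℕ} {Y : Set Code.{u}}
  {e : Ordinal.{u} → Ordinal.{u} → Ordinal.{u}} {t : Trm} {L : List Itm.{u}} {η η' : Ordinal.{u}}

theorem Bs.fs (h : Bs S A) : FS (tailF S A) := fs_tailF h.unb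
theorem HH.mono {k k' : ℕ} (h : HH S A β k μ) (hk : k' ≤ k) : HH S A β k' μ :=
  fun t ht => h t (ht.trans hk)
theorem FH.om (h : FH S A μ β K Y e) : ω ≤ β := (h.bs.reg μ h.mem).omega_lt.le.trans h.le
theorem FH.iv_in (h : FH S A μ β K Y e) {x : Itm.{u}} (hx : IOk S μ β Y x) : (iv e x).In β := by
  rcases x with y | p
  · exact h.y.sub y hx
  · exact (h.gen p.1 hx.1 p.2 hx.2).1.trans hx.1.2.2
theorem FH.inE (h : FH S A μ β K Y e) (hL : ∀ x ∈ L, IOk S μ β Y x) :
    InE (ofL (L.map (iv e))) β :=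
  inE_ofL (fun x hx => by
    obtain ⟨y, hy, rfl⟩ := List.mem_map.1 hx
    exact h.iv_in (hL y hy)) (omega0_pos.trans_le h.om)

theorem Flat1_few (h : Bs S A) (hU : UU S μ β μ') (hY : Few μ' Y)
    (hU' : Few μ' {μ'' | UU S μ β μ''}) : Few μ' {x : Itm.{u} | IOk S μ β Y x} := by
  have hr := h.reg μ' hU.1
  refine (Few.range (Few.sum hr hY (Few.prod hr hU' (few_Iio hr (h.om μ' hU.1))))
    (Sum.map Subtype.val fun p => (p.1.1, p.2.1))).subset ?_
  rintro (y | p) hx
  · exact ⟨Sum.inl ⟨y, hx⟩, rfl⟩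
  · exact ⟨Sum.inr (⟨p.1, hx.1⟩, ⟨p.2, hx.2⟩), rfl⟩

theorem exists_gen (h : Bs S A) (hY : ∀ μ', UU S μ β μ' → Few μ' Y)
    (hU : ∀ μ', UU S μ β μ' → Few μ' {μ'' | UU S μ β μ''}) (K : ℕ) : ∃ e, Gen S A μ β K Y e := by
  obtain ⟨e, he⟩ := exists_lex_rec (fun e a η z => UU S μ β a → η < ω₁ → z < a ∧
    ∀ t : Trm, t.depth ≤ K → ∀ L : List Itm.{u}, (∀ x ∈ L, IOk S μ β Y x) →
      (∀ p, Sum.inr p ∈ L → p.1 < a ∨ p.1 = a ∧ p.2 < η) →
      AE A a (fun z => evI S A β e t L z = tt) → evI S A β e t L z = tt) (fun e a η => by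
      by_cases ha : UU S μ β a
      swap
      · exact ⟨0, fun h' => absurd h' ha⟩
      have hr := h.reg a ha.1
      obtain ⟨z, -, h1, h2⟩ := (ae_all (A := A) hr (Few.prod hr (few_countable hr Trm)
        (Few.lists hr (Flat1_few h ha (hY a ha) (hU a ha))))
        (P := fun j z => AE A a (fun z => evI S A β e j.1 j.2.1 z = tt) →
          evI S A β e j.1 j.2.1 z = tt) fun j => by
          by_cases hj : AE A a fun z => evI S A β e j.1 j.2.1 z = tt
          · exact hj.mono fun _ _ h' _ => h'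
          · exact AE.of_forall hr.pos fun _ _ h' => absurd h' hj).exists (h.unb a ha.1)
      exact ⟨z, fun _ _ => ⟨h1, fun t _ L hL _ => h2 (t, ⟨L, hL⟩)⟩⟩)
    (fun e e' a η z hee H ha hη => ⟨(H ha hη).1, fun t ht L hL hl => by
      have h1 : L.map (iv e') = L.map (iv e) := List.map_congr_left fun x hx => by
        rcases x with y | p
        · rfl
        · exact congrArg od (hee _ _ (hl p hx)).symm
      have h2 := (H ha hη).2 t ht L hL hl
      unfold evI at h2 ⊢
      rw [h1]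
      exact h2⟩)
  exact ⟨e, fun a ha η hη => he a η ha hη⟩

theorem Flat1_gt (h : FH S A μ β K Y e) (hU : UU S μ β μ') (hη : η < ω₁) {x : Itm.{u}}
    (hx : IOk S μ β Y x) (hl : ∀ p, x = Sum.inr p → p.1 < μ' ∨ p.1 = μ' ∧ p.2 < η)
    {a : Ordinal.{u}} (ha : iv e x = od a) (hlt : a < μ') : a < e μ' η := by
  have key : ∀ z, evI S A β e (.comp (.op .lt) (Trm.sel [1, 0])) [x] z = tt ↔ a < z := fun z => by
    simp [evI, opv, ha]
  refine (key _).1 ((h.gen μ' hU η hη).2 _ (by simp [Trm.depth]) [x] (by simpa using hx)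
    (fun p hp => hl p (List.mem_singleton.1 hp).symm) ?_)
  exact (ae_gt (h.bs.reg μ' hU.1) hlt).mono fun z _ hz => (key z).2 hz

theorem FH.gen_mono (h : FH S A μ β K Y e) (hU : UU S μ β μ') : StrictMonoOn (e μ') (Iio ω₁) :=
  fun a ha _ hb hab => Flat1_gt h hU hb (x := Sum.inr (μ', a)) ⟨hU, ha⟩
    (fun p hp => by cases hp; exact Or.inr ⟨rfl, hab⟩) rfl (h.gen μ' hU a ha).1
theorem FH.gen_gt (h : FH S A μ β K Y e) (hU : UU S μ β μ') (hη : η < ω₁) : μ < e μ' η :=
  Flat1_gt h hU hη (x := Sum.inl (od μ)) (h.y.small μ le_rfl (hU.2.1.trans hU.2.2))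
    (fun p hp => by cases hp) rfl hU.2.1

/-- One variable over an upper family is measured, with arbitrary parameters. -/
theorem HH.dec (h : HH S A β K μ') (ht : t.depth ≤ K) {q : List Code.{u}} (hq : ∀ x ∈ q, x.In β) :
    AE A μ' (fun z => ev (tailF S A) t β (ec (od z) (ofL q)) 0 = tt) ∨
      AE A μ' fun z => ev (tailF S A) t β (ec (od z) (ofL q)) 0 ≠ tt :=
  (h t ht q hq 1).mn.dec1

/-- Genericity over the earlier atoms, as an equivalence. -/
theorem Flat1_iff (h : FH S A μ β K Y e) (hU : UU S μ β μ') (hη : η < ω₁) (ht : t.depth ≤ K)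
    (hL : ∀ x ∈ L, IOk S μ β Y x) (hl : ∀ p, Sum.inr p ∈ L → p.1 < μ' ∨ p.1 = μ' ∧ p.2 < η) :
    AE A μ' (fun z => evI S A β e t L z = tt) ↔ evI S A β e t L (e μ' η) = tt := by
  refine ⟨(h.gen μ' hU η hη).2 t ht L hL hl, fun h1 => ?_⟩
  refine ((h.hu μ' hU).dec ht (q := L.map (iv e)) fun x hx => ?_).resolve_right fun h2 => ?_
  · obtain ⟨y, hy, rfl⟩ := List.mem_map.1 hx
    exact h.iv_in (hL y hy)
  have key : ∀ z, evI S A β e (.comp (.op .nand) (.cons t t)) L z = tt ↔
      evI S A β e t L z ≠ tt := fun z => by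
    simp [evI, opv]
  exact (key _).1 ((h.gen μ' hU η hη).2 _ (by simpa [Trm.depth] using ht) L hL hl
    (h2.mono fun z _ hz => (key z).2 hz)) h1

/-- Exchange the first two entries. -/
def Flat1_sw : Trm := .cons (Trm.tls 1) (.cons .id (Trm.tls 2))

theorem Flat1_ev_sw (F : FSys.{u}) (b : Ordinal.{u}) (x y : Code.{u}) (E : CE.{u}) :
    ev F Flat1_sw b (ec x (ec y E)) = ec y (ec x E) := by
  simp only [Flat1_sw, ev_cons, ev_tls, ev_id]
  rfl

theorem Flat1_depth_sw : Flat1_sw.depth = 0 := by simp [Flat1_sw, Trm.depth]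

/-- The limit over the family in entry one. -/
def Flat1_lim (t : Trm) : Trm := .comp (.lim (.comp t (.cons .id (Trm.tls 2)))) Flat1_sw

theorem Flat1_depth_lim (t : Trm) : (Flat1_lim t).depth = t.depth := by
  simp [Flat1_lim, Trm.depth, Flat1_depth_sw]

theorem Flat1_ev_lim (h : Bs S A) (hm : μ' ∈ S) (t : Trm) (x : Code.{u}) (E : CE.{u}) :
    ev (tailF S A) (Flat1_lim t) β (ec x (ec (od μ') E)) 0 = tt ↔
      AE A μ' fun w => ev (tailF S A) t β (ec (od w) (ec x E)) 0 = tt := by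
  rw [Flat1_lim, ev_comp, Flat1_ev_sw, ev_lim_od _ (μ := μ') rfl]
  simp only [ev_drop2]
  rw [limF_eq_tt h.fs, tailF_iff hm]

theorem Flat1_count {α : Type v} (p q : α → Bool) {l : List α} {x : α} (hx : x ∈ l)
    (hp : p x = true) (hq : q x = false) : (l.filter q).countP p < l.countP p := by
  induction l with
  | nil => cases hx
  | cons y l ih =>
    have h1 : (l.filter q).countP p ≤ l.countP p := List.filter_sublist.countP_le
    rcases List.mem_cons.1 hx with rfl | hx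
    · rw [List.filter_cons_of_neg (by simp [hq]), List.countP_cons_of_pos hp]
      omega
    · have h2 := ih hx
      by_cases h3 : q y = true
      · rw [List.filter_cons_of_pos h3, List.countP_cons, List.countP_cons]
        omega
      · rw [List.filter_cons_of_neg h3, List.countP_cons]
        omega

/-- Exchange of two tail quantifiers. -/
theorem Flat1_fub {m m' : Ordinal.{u}} (hr : Reg m') (hu : Unb A m') (hm : m < m')
    {G : Ordinal.{u} → Ordinal.{u} → Prop}
    (hd : ∀ z < m, AE A m' (fun w => G z w) ∨ AE A m' fun w => ¬ G z w) :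
    AE A m' (fun w => AE A m fun z => G z w) ↔ AE A m fun z => AE A m' fun w => G z w := by
  have h1 := ae_all_lt (A := A) hr hm (P := fun z w => G z w ↔ AE A m' fun w => G z w)
    fun z hz => by
      rcases hd z hz with h | h
      · exact h.mono fun w _ hw => iff_of_true hw h
      · exact h.mono fun w _ hw => iff_of_false hw fun h' => h'.not_not hu h
  refine ⟨fun h2 => ?_, fun h2 => h1.mono fun w _ hw => h2.mono fun z hz h3 => (hw z hz).2 h3⟩
  obtain ⟨w, -, -, h3, h4⟩ := (h1.and h2).exists hu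
  exact h4.mono fun z hz h5 => (h3 z hz).1 h5

/-- Genericity over the atoms of higher families. -/
theorem FH.cohflat (h : FH S A μ β K Y e) (hU : UU S μ β μ') (hη : η < ω₁) (ht : t.depth ≤ K)
    (hL : ∀ x ∈ L, IOk S μ β Y x) (hi : ∀ p, Sum.inr p ∈ L → p.1 = μ' → p.2 < η) :
    AE A μ' (fun z => evI S A β e t L z = tt) ↔ evI S A β e t L (e μ' η) = tt := by
  classical
  induction hn : L.countP Sum.isRight using Nat.strong_induction_on generalizing t L with
  | _ n ih =>
  by_cases hup : ∃ p, Sum.inr p ∈ L ∧ μ' < p.1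
  swap
  · refine Flat1_iff h hU hη ht hL fun p hp => ?_
    exact (not_lt.1 fun h' => hup ⟨p, hp, h'⟩).lt_or_eq.imp id fun h' => ⟨h', hi p hp h'⟩
  obtain ⟨p0, hp0, hp1⟩ := hup
  obtain ⟨a, ha, hmax⟩ := Set.exists_max_image {p | Sum.inr p ∈ L} (fun p => toLex p)
    (L.finite_toSet.preimage Sum.inr_injective.injOn) ⟨p0, hp0⟩
  have hlt : μ' < a.1 := hp1.trans_le (Prod.Lex.monotone_fst _ _ (hmax p0 hp0))
  obtain ⟨hUa, hηa⟩ : UU S μ β a.1 ∧ a.2 < ω₁ := hL _ ha
  set R := L.filter (fun x => decide (x ≠ Sum.inr a)) with hR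
  have hRL : ∀ x ∈ R, IOk S μ β Y x := fun x hx => hL x (List.mem_of_mem_filter hx)
  have hRl : ∀ p, Sum.inr p ∈ R → p.1 < a.1 ∨ p.1 = a.1 ∧ p.2 < a.2 := fun p hp => by
    have h1 : p ≠ a := fun h' => by simp [hR, h'] at hp
    exact Prod.Lex.toLex_lt_toLex.1 ((hmax p (List.mem_of_mem_filter hp)).lt_of_ne
      fun h' => h1 (toLex.injective h'))
  obtain ⟨is, his⟩ := exists_sel.{u} (L := L) (L' := Sum.inr a :: R) fun x hx => by
    by_cases h' : x = Sum.inr a
    · exact h' ▸ List.mem_cons_self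
    · exact List.mem_cons_of_mem _ (List.mem_filter.2 ⟨hx, by simpa using h'⟩)
  obtain ⟨T, hT, hTe⟩ : ∃ T : Trm, T.depth ≤ K ∧ ∀ z, ev (tailF S A) T β
      (ec (od z) (ec (od (e a.1 a.2)) (ofL (R.map (iv e))))) 0 = evI S A β e t L z := by
    refine ⟨.comp t (.cons .id (.comp (Trm.sel is) .tl)), by simpa [Trm.depth] using ht,
      fun z => ?_⟩
    rw [evI, ← his (iv e)]
    simp only [ev_comp, ev_cons, ev_id, ev_tl, ev_sel]
    rfl
  have hT1 : (T.comp Flat1_sw).depth ≤ K := by simpa [Trm.depth, Flat1_depth_sw] using hT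
  have c1 := Flat1_iff h hUa hηa hT1 (L := Sum.inr (μ', η) :: R)
    (List.forall_mem_cons.2 ⟨⟨hU, hη⟩, hRL⟩) fun p hp => by
      rcases List.mem_cons.1 hp with hp | hp
      · cases hp
        exact Or.inl hlt
      · exact hRl p hp
  have c2 := ih _ (hn ▸ Flat1_count Sum.isRight _ ha rfl (by simp))
    (t := Flat1_lim (T.comp Flat1_sw)) (L := Sum.inl (od a.1) :: R)
    ((Flat1_depth_lim _).trans_le hT1) (List.forall_mem_cons.2 ⟨h.y.up _ hUa, hRL⟩)
    (fun p hp => hi p (List.mem_of_mem_filter ((List.mem_cons.1 hp).resolve_left (by simp))))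
    (List.countP_cons_of_neg (by simp))
  have c3 := Flat1_iff h hUa hηa ((Flat1_depth_lim _).trans_le hT) (L := Sum.inl (od μ') :: R)
    (List.forall_mem_cons.2 ⟨h.y.up _ hU, hRL⟩)
    fun p hp => hRl p ((List.mem_cons.1 hp).resolve_left (by simp))
  have c4 := Flat1_fub (h.bs.reg _ hUa.1) (h.bs.unb _ hUa.1) hlt (G := fun z w =>
    ev (tailF S A) T β (ec (od z) (ec (od w) (ofL (R.map (iv e))))) 0 = tt) fun z hz => by
      have := (h.hu _ hUa).dec hT1 (q := od z :: R.map (iv e)) (List.forall_mem_cons.2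
        ⟨hz.trans hU.2.2, fun x hx => by
          obtain ⟨y, hy, rfl⟩ := List.mem_map.1 hx
          exact h.iv_in (hRL y hy)⟩)
      simpa only [ofL_cons, ev_comp, Flat1_ev_sw] using this
  simp only [evI, List.map_cons, iv, ofL_cons, Flat1_ev_lim h.bs hUa.1, Flat1_ev_lim h.bs hU.1,
    ev_comp, Flat1_ev_sw] at c1 c2 c3
  simp only [← hTe]
  rw [← c3, c4, c2, c1]

theorem FH.coh2flat (h : FH S A μ β K Y e) (hU : UU S μ β μ') (hlt : η < η') (hη : η' < ω₁)
    (ht : t.depth ≤ K) (hL : ∀ x ∈ L, IOk S μ β Y x)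
    (hi : ∀ p, Sum.inr p ∈ L → p.1 = μ' → p.2 < η) :
    (evI S A β e t L (e μ' η) = evI S A β e t L (e μ' η') →
      limF (tailF S A) μ' (evI S A β e t L) = evI S A β e t L (e μ' η)) ∧
    (evI S A β e t L (e μ' η) ≠ evI S A β e t L (e μ' η') →
      limF (tailF S A) μ' (evI S A β e t L) = od 0) := by
  refine ⟨fun h1 => ?_, fun h1 => ?_⟩
  · have key : ∀ z, evI S A β e (.comp (.op .eq) (.cons (.comp t (.cons .id (Trm.tls 2)))
        (.comp t .tl))) (Sum.inr (μ', η) :: L) z = tt ↔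
        evI S A β e t L z = evI S A β e t L (e μ' η) := fun z => by
      rw [evI, List.map_cons, ofL_cons, ev_comp, ev_cons, ev_drop2]
      exact bl_eq_tt
    have c := h.cohflat hU hη (L := Sum.inr (μ', η) :: L) (t := .comp (.op .eq)
      (.cons (.comp t (.cons .id (Trm.tls 2))) (.comp t .tl))) (by simpa [Trm.depth] using ht)
      (List.forall_mem_cons.2 ⟨⟨hU, hlt.trans hη⟩, hL⟩) fun p hp h' => by
        rcases List.mem_cons.1 hp with hp | hp
        · cases hp
          exact hlt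
        · exact (hi p hp h').trans hlt
    simp only [key] at c
    exact limF_eq h.bs.fs ((tailF_iff hU.1).2 (c.2 h1.symm))
  · rcases limF_cases (tailF S A) μ' (evI S A β e t L) with ⟨η0, -, h2, h3⟩ | h2
    swap
    · exact h2.2
    rw [← h3, tailF_iff hU.1] at h2
    have key : ∀ z, evI S A β e (.comp (.op .eq) (.cons (.comp t (.cons .id (Trm.tls 2)))
        (.comp (.lim (.comp t (.cons .id (Trm.tls 2)))) .tl))) (Sum.inl (od μ') :: L) z = tt ↔
        evI S A β e t L z = limF (tailF S A) μ' (evI S A β e t L) := fun z => by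
      have h4 : ev (tailF S A) (.lim (.comp t (.cons .id (Trm.tls 2)))) β
          (ec (od μ') (ofL (L.map (iv e)))) 0 = limF (tailF S A) μ' (evI S A β e t L) := by
        rw [ev_lim_od _ (μ := μ') rfl]
        simp only [ev_drop2]
        rfl
      rw [evI, List.map_cons, ofL_cons, ev_comp, ev_cons, ev_drop2, ← h4]
      exact bl_eq_tt
    have c : ∀ ζ, η ≤ ζ → ζ < ω₁ →
        evI S A β e t L (e μ' ζ) = limF (tailF S A) μ' (evI S A β e t L) := fun ζ h4 h5 => by
      have c := h.cohflat hU h5 (L := Sum.inl (od μ') :: L) (t := .comp (.op .eq)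
        (.cons (.comp t (.cons .id (Trm.tls 2)))
          (.comp (.lim (.comp t (.cons .id (Trm.tls 2)))) .tl))) (by simpa [Trm.depth] using ht)
        (List.forall_mem_cons.2 ⟨h.y.up _ hU, hL⟩) fun p hp h' =>
          (hi p ((List.mem_cons.1 hp).resolve_left (by simp)) h').trans_le h4
      simp only [key] at c
      exact c.1 h2
    exact absurd ((c η le_rfl (hlt.trans hη)).trans (c η' hlt.le hη).symm) h1

/-- The same atoms are generic one level down, for every depth. -/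
theorem FH.gen_down {b0 : Ordinal.{u}} (h : FH S A μ (b0 + 1) 0 Y e) (hle : μ ≤ b0)
    (hb : od b0 ∈ Y) (K : ℕ) : YOk S μ b0 (Ydown S μ b0 Y e) ∧
      Gen S A μ b0 K (Ydown S μ b0 Y e) e := by
  have hr := h.bs.reg μ h.mem
  have hb1 : b0 < b0 + 1 := Order.lt_add_one_iff.2 le_rfl
  have hup : ∀ {m}, UU S μ b0 m → UU S μ (b0 + 1) m := fun hm => ⟨hm.1, hm.2.1, hm.2.2.trans hb1⟩
  have hn : ∀ n : ℕ, (n : Ordinal.{u}) < ω₁ := reg_omega1.nat_lt
  have hY : YOk S μ b0 (Ydown S μ b0 Y e) := by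
    refine ⟨?_, fun ξ h1 h2 => Or.inl ⟨h.y.small ξ h1 (h2.trans hb1), h2⟩,
      fun m hm => Or.inl ⟨h.y.up m (hup hm), hm.2.2⟩⟩
    rintro y (hy | ⟨n, rfl⟩)
    · exact hy.2
    · by_cases hU : UU S μ (b0 + 1) b0
      · simpa only [uv, if_pos hU, in_od] using (h.gen b0 hU n (hn n)).1
      · simpa only [uv, if_neg hU, in_od] using hr.pos.trans_le hle
  refine ⟨hY, fun m hm ζ hζ => ⟨(h.gen m (hup hm) ζ hζ).1, fun t _ L hL hl hae => ?_⟩⟩
  have h1 : ∀ x ∈ L, ∃ x', IOk S μ (b0 + 1) Y x' ∧ iv e x' = iv e x ∧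
      ∀ p, Sum.inr p = x' → p.1 = m → p.2 < ζ := by
    rintro (y | p) hx
    · rcases hL _ hx with hy | ⟨n, rfl⟩
      · exact ⟨Sum.inl y, hy.1, rfl, fun p hp => by cases hp⟩
      · by_cases hU : UU S μ (b0 + 1) b0
        · refine ⟨Sum.inr (b0, n), ⟨hU, hn n⟩, by simp only [iv, uv, if_pos hU], fun p hp h' => ?_⟩
          cases hp
          exact absurd h' hm.2.2.ne'
        · exact ⟨Sum.inl (od 0), h.y.small 0 hr.pos.le ((hr.pos.trans_le hle).trans hb1),
            by simp only [iv, uv, if_neg hU], fun p hp => by cases hp⟩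
    · refine ⟨Sum.inr p, ⟨hup (hL _ hx).1, (hL _ hx).2⟩, rfl, fun q hq h' => ?_⟩
      cases hq
      exact ((hl p hx).resolve_left h'.not_lt).2
  choose! f f1 f2 f3 using h1
  have h2 : (L.map f).map (iv e) = L.map (iv e) := by
    rw [List.map_map]
    exact List.map_congr_left f2
  have h3 : InE (ofL (L.map (iv e))) b0 := inE_ofL (fun x hx => by
    obtain ⟨y, hy, rfl⟩ := List.mem_map.1 hx
    rcases y with y | p
    · exact hY.sub y (hL _ hy)
    · exact (h.gen p.1 (hup (hL _ hy).1) p.2 (hL _ hy).2).1.trans (hL _ hy).1.2.2)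
    (hr.pos.trans_le hle)
  have key : ∀ z < m, evI S A (b0 + 1) e (.comp (.low t) Flat1_sw) (Sum.inl (od b0) :: L.map f) z =
      evI S A b0 e t L z := fun z hz => by
    rw [evI, List.map_cons, ofL_cons, ev_comp, Flat1_ev_sw, h2]
    exact congrFun (ev_low_od t (hr.omega_lt.le.trans hle)
      ((inE_ec (x := od z)).2 ⟨hz.trans hm.2.2, h3⟩)) 0
  have c := h.cohflat (hup hm) hζ (t := .comp (.low t) Flat1_sw) (L := Sum.inl (od b0) :: L.map f)
    (by simp [Trm.depth, Flat1_depth_sw]) (List.forall_mem_cons.2 ⟨hb, fun x hx => by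
      obtain ⟨y, hy, rfl⟩ := List.mem_map.1 hx
      exact f1 y hy⟩) fun p hp => by
      obtain ⟨y, hy, h4⟩ := List.mem_map.1 ((List.mem_cons.1 hp).resolve_left (by simp))
      exact f3 y hy p h4.symm
  rw [← key _ (h.gen m (hup hm) ζ hζ).1]
  exact c.1 (hae.mono fun z hz h4 => (key z hz).trans h4)

end Pool.Agent.P.MP_833f7a_lc
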