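import Pool.Agent.P.MP_833f7a_lc.Flat1

/-!
Invariance of flat values under moves of the atoms.
-/

universe u v w

namespace Pool.Agent.P.MP_833f7a_lc

open Cardinal Ordinal Set Code
open scoped Classical

variable {S A : Set Ordinal.{u}} {μ β μ' : Ordinal.{u}} {K : ℕ} {Y : Set Code.{u}}
  {e : Ordinal.{u} → Ordinal.{u} → Ordinal.{u}} {t : Trm} {L : List DItm.{u}} {η : Ordinal.{u}}

/-- The list without the item `a`. -/
noncomputable def Flat2_rest {α : Type v} (l : List α) (a : α) : List α := l.filter fun x => x ≠ a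

/-- The number of items with the property `P`. -/
noncomputable def Flat2_cnt {α : Type v} (P : α → Prop) (l : List α) : ℕ :=
  (l.filter fun x => P x).length

theorem Flat2_mem {α : Type v} {l : List α} {a x : α} : x ∈ Flat2_rest l a ↔ x ∈ l ∧ x ≠ a := by
  simp [Flat2_rest]

theorem Flat2_cnt_cons {α : Type v} {P : α → Prop} {a : α} (h : ¬ P a) (l : List α) :
    Flat2_cnt P (a :: l) = Flat2_cnt P l := by
  unfold Flat2_cnt
  rw [List.filter_cons_of_neg (by simpa using h)]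

theorem Flat2_count {α : Type v} (P : α → Prop) {l : List α} {a : α} (ha : a ∈ l) (hP : P a) :
    Flat2_cnt P (Flat2_rest l a) < Flat2_cnt P l := by
  have hs : List.Sublist ((l.filter fun x => x ≠ a).filter fun x => P x)
      (l.filter fun x => P x) := List.Sublist.filter _ List.filter_sublist
  refine lt_of_le_of_ne hs.length_le fun he => ?_
  have h1 := hs.eq_of_length he
  have h2 : a ∈ (l.filter fun x => P x) := List.mem_filter.2 ⟨ha, by simpa using hP⟩
  rw [← h1] at h2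
  simp [List.mem_filter] at h2

theorem Flat2_max {α : Type v} (f : α → Ordinal.{u}) (P : α → Prop) {l : List α}
    (h : ∃ a ∈ l, P a) : ∃ a ∈ l, P a ∧ ∀ b ∈ l, P b → f b ≤ f a := by
  obtain ⟨a0, h0, hP0⟩ := h
  have hfin : ({a | a ∈ l ∧ P a} : Set α).Finite :=
    (List.finite_toSet l).subset fun _ hx => hx.1
  obtain ⟨a, ha, hmax⟩ := hfin.exists_maximalFor f _ ⟨a0, h0, hP0⟩
  refine ⟨a, ha.1, ha.2, fun b hb hPb => ?_⟩
  by_contra hlt
  have hlt' := lt_of_not_ge hlt
  exact absurd (hmax (j := b) ⟨hb, hPb⟩ hlt'.le) hlt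

/-- The term that forgets the second entry. -/
def Flat2_drop (t : Trm) : Trm := .comp t (.cons .id (Trm.tls 2))

theorem Flat2_drop_depth (t : Trm) : (Flat2_drop t).depth = t.depth := by
  simp [Flat2_drop, Trm.depth]

theorem Flat2_lim (t : Trm) (M : List Itm.{u}) :
    evL S A β e (.lim (Flat2_drop t)) (Sum.inl (od μ') :: M) =
      fun _ => limF (tailF S A) μ' (evI S A β e t M) := by
  unfold evL
  rw [ev_lim_od (μ := μ') _ (by simp [iv])]
  funext _
  refine limF_congr fun z _ => ?_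
  simp only [List.map_cons, ofL_cons, Flat2_drop, evI]
  rw [ev_drop2]

theorem Flat2_dok_sub {L' : List DItm.{u}} (hL : DOk S μ β Y L) (h : ∀ x ∈ L', x ∈ L) :
    DOk S μ β Y L' :=
  ⟨fun x hx => hL.1 x (h x hx), fun m p q hp hq => hL.2 m p q (h _ hp) (h _ hq)⟩

theorem Flat2_dok_cons (hL : DOk S μ β Y L) {y : Code.{u}} (hy : y ∈ Y) :
    DOk S μ β Y (Sum.inl y :: L) := by
  refine ⟨fun x hx => ?_, fun m p q hp hq => ?_⟩
  · rcases List.mem_cons.1 hx with rfl | hx
    · exact ⟨hy, hy⟩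
    · exact hL.1 x hx
  · simp only [List.mem_cons, reduceCtorEq, false_or] at hp hq
    exact hL.2 m p q hp hq

theorem Flat2_ok1 (hL : DOk S μ β Y L) : ∀ x ∈ L.map d1, IOk S μ β Y x := by
  intro x hx
  obtain ⟨y, hy, rfl⟩ := List.mem_map.1 hx
  exact (hL.1 y hy).1

theorem Flat2_ok2 (hL : DOk S μ β Y L) : ∀ x ∈ L.map d2, IOk S μ β Y x := by
  intro x hx
  obtain ⟨y, hy, rfl⟩ := List.mem_map.1 hx
  exact (hL.1 y hy).2

/-- Moving one item to the front. -/
theorem Flat2_front (t : Trm) (L : List DItm.{u}) (a : DItm.{u}) :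
    ∃ t' : Trm, t'.depth = t.depth ∧ ∀ d : DItm.{u} → Itm.{u}, evL S A β e t (L.map d) =
      ev (tailF S A) t' β (ec (iv e (d a))
        (ofL (((Flat2_rest L a).map d).map (iv e)))) := by
  obtain ⟨is, his⟩ := exists_sel (L := L) (L' := a :: Flat2_rest L a) (by
    intro x hx
    by_cases hxa : x = a
    · simp [hxa]
    · exact List.mem_cons_of_mem _ (Flat2_mem.2 ⟨hx, hxa⟩))
  refine ⟨.comp t (Trm.sel is), by simp [Trm.depth], fun d => ?_⟩
  have := his (fun x => iv e (d x))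
  simp only [List.map_cons, ofL_cons] at this
  simp only [evL, ev_comp, ev_sel, List.map_map]
  congr 2
  exact this.symm

/-- The other atoms of the family of a largest atom come earlier, before and after the move. -/
theorem Flat2_earlier (hL : DOk S μ β Y L) {p : Ordinal.{u} × Ordinal.{u}}
    (hp : Sum.inr (μ', p) ∈ L) (hmax : ∀ q, Sum.inr (μ', q) ∈ L → q.1 ≤ p.1) :
    (∀ r, Sum.inr r ∈ (Flat2_rest L (Sum.inr (μ', p))).map d1 → r.1 = μ' → r.2 < p.1) ∧
    ∀ r, Sum.inr r ∈ (Flat2_rest L (Sum.inr (μ', p))).map d2 → r.1 = μ' → r.2 < p.2 := by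
  have key : ∀ q, Sum.inr (μ', q) ∈ L → q ≠ p → q.1 < p.1 := by
    intro q hq hne
    refine lt_of_le_of_ne (hmax q hq) fun h1 => hne ?_
    have a1 := hL.2 μ' p q hp hq
    have a2 := hL.2 μ' q p hq hp
    refine Prod.ext h1 (le_antisymm (not_lt.1 fun h => ?_) (not_lt.1 fun h => ?_))
    · exact absurd (a1.2 h) (by rw [h1]; exact lt_irrefl _)
    · exact absurd (a2.2 h) (by rw [h1]; exact lt_irrefl _)
  constructor
  · intro r hr h1
    obtain ⟨x, hx, hd⟩ := List.mem_map.1 hr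
    obtain ⟨hx1, hx2⟩ := Flat2_mem.1 hx
    rcases x with y | ⟨m, q⟩
    · simp [d1] at hd
    · simp only [d1, Sum.inr.injEq] at hd
      subst hd
      simp only at h1
      subst h1
      exact key q hx1 (by rintro rfl; exact hx2 rfl)
  · intro r hr h1
    obtain ⟨x, hx, hd⟩ := List.mem_map.1 hr
    obtain ⟨hx1, hx2⟩ := Flat2_mem.1 hx
    rcases x with y | ⟨m, q⟩
    · simp [d2] at hd
    · simp only [d2, Sum.inr.injEq] at hd
      subst hd
      simp only at h1
      subst h1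
      exact (hL.2 _ q p hx1 hp).1 (key q hx1 (by rintro rfl; exact hx2 rfl))

/-- Truth at a generic atom is truth of the limit. -/
theorem Flat2_tr (h : FH S A μ β K Y e) (hU : UU S μ β μ') (hη : η < ω₁) (ht : t.depth ≤ K)
    {M : List Itm.{u}} (hM : ∀ x ∈ M, IOk S μ β Y x)
    (hi : ∀ p, Sum.inr p ∈ M → p.1 = μ' → p.2 < η) :
    evI S A β e t M (e μ' η) = tt ↔
      evL S A β e (.lim (Flat2_drop t)) (Sum.inl (od μ') :: M) 0 = tt := by
  rw [Flat2_lim, ← h.cohflat hU hη ht hM hi]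
  simp only
  rw [limF_eq_tt h.bs.fs, tailF_iff hU.1]

theorem Flat2_ui (h : FH S A μ β K Y e) (n : ℕ) : ∀ (t : Trm) (L : List DItm.{u}), t.depth ≤ K →
    DOk S μ β Y L → Flat2_cnt (fun x => ∃ r, x = Sum.inr r) L < n →
    (evL S A β e t (L.map d1) 0 = tt ↔ evL S A β e t (L.map d2) 0 = tt) := by
  induction n with
  | zero => intro t L _ _ hn; exact absurd hn (Nat.not_lt_zero _)
  | succ n ih =>
    intro t L ht hL hn
    by_cases hex : ∃ a ∈ L, ∃ r, a = Sum.inr r
    · obtain ⟨a, ha, ⟨⟨m, p⟩, rfl⟩, hmax⟩ := Flat2_max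
        (fun x : DItm.{u} => Sum.elim (fun _ => 0) (fun r => r.2.1) x) _ hex
      have hm : ∀ q, Sum.inr (m, q) ∈ L → q.1 ≤ p.1 := fun q hq => hmax _ hq ⟨_, rfl⟩
      obtain ⟨e1, e2⟩ := Flat2_earlier hL ha hm
      obtain ⟨t', hd, ht'⟩ := Flat2_front (S := S) (A := A) (β := β) (e := e) t L (Sum.inr (m, p))
      have hR : DOk S μ β Y (Flat2_rest L (Sum.inr (m, p))) :=
        Flat2_dok_sub hL fun x hx => (Flat2_mem.1 hx).1
      have hU : UU S μ β m := (hL.1 _ ha).1.1
      have k1 := Flat2_tr h hU (hL.1 _ ha).1.2 (hd ▸ ht) (Flat2_ok1 hR) e1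
      have k2 := Flat2_tr h hU (hL.1 _ ha).2.2 (hd ▸ ht) (Flat2_ok2 hR) e2
      have hc := Flat2_count (fun x : DItm.{u} => ∃ r, x = Sum.inr r) ha ⟨_, rfl⟩
      have k3 := ih (.lim (Flat2_drop t')) (Sum.inl (od m) :: Flat2_rest L (Sum.inr (m, p)))
        (by simpa [Trm.depth, Flat2_drop_depth, hd] using ht)
        (Flat2_dok_cons hR (h.y.up m hU)) (by
          rw [Flat2_cnt_cons (by simp)]
          exact lt_of_lt_of_le hc (Nat.lt_succ_iff.1 hn))
      rw [ht' d1, ht' d2]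
      exact k1.trans (k3.trans k2.symm)
    · have : L.map d1 = L.map d2 := by
        refine List.map_congr_left fun x hx => ?_
        rcases x with y | r
        · rfl
        · exact absurd ⟨_, hx, r, rfl⟩ hex
      rw [this]

theorem FH.uiflat (h : FH S A μ β K Y e) (ht : t.depth ≤ K) (hL : DOk S μ β Y L) :
    evL S A β e t (L.map d1) 0 = tt ↔ evL S A β e t (L.map d2) 0 = tt :=
  Flat2_ui h _ t L ht hL (Nat.lt_succ_self _)

theorem Flat2_eqT (t : Trm) (y : Code.{u}) (M : List Itm.{u}) :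
    evL S A β e (.comp (.op .eq) (.cons (.comp t .tl) .id)) (Sum.inl y :: M) 0 = tt ↔
      evL S A β e t M 0 = y := by
  simp [evL, iv, opv]

theorem FH.uiflat_val (h : FH S A μ β K Y e) (ht : t.depth ≤ K) (hL : DOk S μ β Y L)
    {y : Code.{u}} (hy : y ∈ Y) :
    evL S A β e t (L.map d1) 0 = y ↔ evL S A β e t (L.map d2) 0 = y := by
  have := h.uiflat (t := .comp (.op .eq) (.cons (.comp t .tl) .id)) (by simpa [Trm.depth] using ht)
    (Flat2_dok_cons hL hy)
  rw [← Flat2_eqT t y (L.map d1), ← Flat2_eqT t y (L.map d2)]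
  exact this

/-- Atoms lie above the smaller upper families. -/
theorem Flat2_gt (h : FH S A μ β K Y e) {m : Ordinal.{u}} (hU : UU S μ β μ') (hm : UU S μ β m)
    (hlt : μ' < m) (hη : η < ω₁) : μ' < e m η := by
  have h1 := (h.gen m hm η hη).2 (.comp (.op .lt) (.cons .tl .id)) (by simp [Trm.depth])
    [Sum.inl (od μ')] (by
      intro x hx
      rw [List.mem_singleton.1 hx]
      exact h.y.up μ' hU) (by simp) ((ae_gt (h.bs.reg m hm.1) hlt).mono fun z _ hz => by
        simpa [evI, iv, opv] using hz)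
  simpa [evI, iv, opv] using h1

/-- The test that compares a term with its limit. -/
def Flat2_cmp (t : Trm) : Trm :=
  .comp (.op .eq) (.cons (Flat2_drop t) (.comp (.lim (Flat2_drop t)) .tl))

theorem Flat2_cmp_depth (t : Trm) : (Flat2_cmp t).depth = t.depth := by
  simp [Flat2_cmp, Trm.depth, Flat2_drop_depth]

theorem Flat2_cmp_iff (t : Trm) (M : List Itm.{u}) (z : Ordinal.{u}) :
    evI S A β e (Flat2_cmp t) (Sum.inl (od μ') :: M) z = tt ↔
      evI S A β e t M z = limF (tailF S A) μ' (evI S A β e t M) := by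
  have h1 := congrFun (Flat2_lim (S := S) (A := A) (β := β) (e := e) (μ' := μ') t M) 0
  rw [← h1]
  have h2 : ev (tailF S A) (Flat2_drop t) β
      (ec (od z) (ec (od μ') (ofL (M.map (iv e))))) =
      ev (tailF S A) t β (ec (od z) (ofL (M.map (iv e)))) := ev_drop2 t
  have h3 : (fun i => ec (od z) (ec (od μ') (ofL (M.map (iv e)))) (i + 1)) =
      ec (od μ') (ofL (M.map (iv e))) := rfl
  simp only [evI, evL, Flat2_cmp, ev_comp, ev_op, ev_cons, ev_tl, opv, bl_eq_tt, List.map_cons,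
    ofL_cons, iv, ec_zero, zero_add, h2, h3]
  rfl

/-- A value below a generic atom is the limit. -/
theorem Flat2_norm (h : FH S A μ β K Y e) (hU : UU S μ β μ') (hη : η < ω₁) (ht : t.depth ≤ K)
    {M : List Itm.{u}} (hM : ∀ x ∈ M, IOk S μ β Y x)
    (hi : ∀ p, Sum.inr p ∈ M → p.1 = μ' → p.2 < η) {z : Ordinal.{u}} (hz : z < e μ' η)
    (h1 : evI S A β e t M (e μ' η) = od z) :
    evI S A β e t M (e μ' η) = limF (tailF S A) μ' (evI S A β e t M) := by
  have k0 : ∀ w, evI S A β e (.comp (.op .el) (.cons t .id)) M w = tt ↔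
      ∃ c < w, evI S A β e t M w = od c := by
    intro w
    simp [evI, opv]
  have k1 := (h.cohflat (t := .comp (.op .el) (.cons t .id)) hU hη
    (by simpa [Trm.depth] using ht) hM hi).2 ((k0 _).2 ⟨z, hz, h1⟩)
  have hq : ∀ x ∈ M.map (iv e), x.In β := by
    intro x hx
    obtain ⟨y, hy, rfl⟩ := List.mem_map.1 hx
    exact h.iv_in (hM y hy)
  obtain ⟨z0, hz0⟩ := (h.hu μ' hU t ht _ hq 1).normal1 (h.bs.unb μ' hU.1)
    (k1.mono fun w _ hw => (k0 w).1 hw)
  have k2 : limF (tailF S A) μ' (evI S A β e t M) = od z0 :=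
    limF_eq h.bs.fs ((tailF_iff hU.1).2 hz0)
  refine (Flat2_cmp_iff t M _).1 ((h.cohflat (L := Sum.inl (od μ') :: M) hU hη
    (by rw [Flat2_cmp_depth]; exact ht) ?_ ?_).1 (hz0.mono fun w _ hw => ?_))
  · intro x hx
    rcases List.mem_cons.1 hx with rfl | hx
    · exact h.y.up μ' hU
    · exact hM x hx
  · intro p hp
    simp only [List.mem_cons, reduceCtorEq, false_or] at hp
    exact hi p hp
  · rw [Flat2_cmp_iff, k2]
    exact hw

theorem Flat2_ind (h : FH S A μ β K Y e) (hU : UU S μ β μ') (hη : η < ω₁) {z : Ordinal.{u}}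
    (hz : z < e μ' η) (n : ℕ) : ∀ (t : Trm) (L : List DItm.{u}), t.depth ≤ K →
    DOk S μ β Y L →
    (∀ μ'' p, Sum.inr (μ'', p) ∈ L → μ'' < μ' ∨ μ'' = μ' ∧ p.1 < η → p.2 = p.1) →
    Flat2_cnt (fun x => ∃ m p, x = Sum.inr (m, p) ∧ ¬ (m < μ' ∨ m = μ' ∧ p.1 < η)) L < n →
    evL S A β e t (L.map d1) 0 = od z → evL S A β e t (L.map d2) 0 = od z := by
  induction n with
  | zero => intro t L _ _ _ hn; exact absurd hn (Nat.not_lt_zero _)
  | succ n ih =>
    intro t L ht hL hfix hn h1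
    by_cases hex : ∃ a ∈ L, ∃ m p, a = Sum.inr (m, p) ∧ ¬ (m < μ' ∨ m = μ' ∧ p.1 < η)
    · obtain ⟨a, ha, ⟨m, p, rfl, hbad⟩, hmax⟩ := Flat2_max
        (fun x : DItm.{u} => Sum.elim (fun _ => 0) (fun r => r.2.1) x) _ hex
      have hle : μ' ≤ m := not_lt.1 fun hh => hbad (Or.inl hh)
      have hm : ∀ q, Sum.inr (m, q) ∈ L → q.1 ≤ p.1 := by
        intro q hq
        by_cases hq' : m < μ' ∨ m = μ' ∧ q.1 < η
        · rcases hq' with hq' | hq'
          · exact absurd hq' (not_lt.2 hle)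
          · exact hq'.2.le.trans (not_lt.1 fun hh => hbad (Or.inr ⟨hq'.1, hh⟩))
        · exact hmax _ hq ⟨_, _, rfl, hq'⟩
      obtain ⟨e1, e2⟩ := Flat2_earlier hL ha hm
      obtain ⟨t', hd, ht'⟩ := Flat2_front (S := S) (A := A) (β := β) (e := e) t L (Sum.inr (m, p))
      have hR : DOk S μ β Y (Flat2_rest L (Sum.inr (m, p))) :=
        Flat2_dok_sub hL fun x hx => (Flat2_mem.1 hx).1
      have hUm : UU S μ β m := (hL.1 _ ha).1.1
      have hp1 : p.1 < ω₁ := (hL.1 _ ha).1.2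
      have hzm : z < e m p.1 := by
        rcases hle.eq_or_lt with rfl | hlt
        · exact hz.trans_le ((h.gen_mono hU).monotoneOn hη hp1
            (not_lt.1 fun hh => hbad (Or.inr ⟨rfl, hh⟩)))
        · exact (hz.trans (h.gen μ' hU η hη).1).trans (Flat2_gt h hU hUm hlt hp1)
      rw [ht' d1] at h1
      rw [ht' d2]
      have ht2 : t'.depth ≤ K := hd ▸ ht
      have k1 := Flat2_norm h hUm hp1 ht2 (Flat2_ok1 hR) e1 hzm h1
      have hc := Flat2_count (fun x : DItm.{u} =>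
        ∃ m p, x = Sum.inr (m, p) ∧ ¬ (m < μ' ∨ m = μ' ∧ p.1 < η)) ha ⟨_, _, rfl, hbad⟩
      have hR' := Flat2_dok_cons hR (h.y.up m hUm)
      have k2 := ih (.lim (Flat2_drop t')) (Sum.inl (od m) :: Flat2_rest L (Sum.inr (m, p)))
        (by simpa [Trm.depth, Flat2_drop_depth] using ht2) hR' (by
          intro m' q hq
          simp only [List.mem_cons, reduceCtorEq, false_or] at hq
          exact hfix m' q (Flat2_mem.1 hq).1) (by
          rw [Flat2_cnt_cons (by simp)]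
          exact lt_of_lt_of_le hc (Nat.lt_succ_iff.1 hn)) (by
          have := congrFun (Flat2_lim (S := S) (A := A) (β := β) (e := e) (μ' := m) t'
            ((Flat2_rest L (Sum.inr (m, p))).map d1)) 0
          exact this.trans (k1.symm.trans h1))
      have hD : DOk S μ β Y
          (Sum.inr (m, p) :: Sum.inl (od m) :: Flat2_rest L (Sum.inr (m, p))) := by
        refine Flat2_dok_sub (Flat2_dok_cons hL (h.y.up m hUm)) fun x hx => ?_
        simp only [List.mem_cons] at hx ⊢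
        rcases hx with rfl | rfl | hx
        · exact Or.inr ha
        · exact Or.inl rfl
        · exact Or.inr (Flat2_mem.1 hx).1
      have k3 := (h.uiflat (t := Flat2_cmp t') (by rw [Flat2_cmp_depth]; exact ht2) hD).1
        ((Flat2_cmp_iff t' _ _).2 k1)
      have k4 := (Flat2_cmp_iff (μ' := m) t' ((Flat2_rest L (Sum.inr (m, p))).map d2)
        (e m p.2)).1 k3
      have k5 := congrFun (Flat2_lim (S := S) (A := A) (β := β) (e := e) (μ' := m) t'
        ((Flat2_rest L (Sum.inr (m, p))).map d2)) 0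
      exact k4.trans (k5.symm.trans k2)
    · have : L.map d1 = L.map d2 := by
        refine List.map_congr_left fun x hx => ?_
        rcases x with y | ⟨m, p⟩
        · rfl
        · have h2 : m < μ' ∨ m = μ' ∧ p.1 < η := by
            by_contra hh
            exact hex ⟨_, hx, m, p, rfl, hh⟩
          simp only [d1, d2, hfix m p hx h2]
      rw [← this]
      exact h1

theorem FH.indflat (h : FH S A μ β K Y e) (ht : t.depth ≤ K) (hL : DOk S μ β Y L)
    (hU : UU S μ β μ') (hη : η < ω₁)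
    (hfix : ∀ μ'' p, Sum.inr (μ'', p) ∈ L → μ'' < μ' ∨ μ'' = μ' ∧ p.1 < η → p.2 = p.1)
    {z : Ordinal.{u}} (hz : z < e μ' η) (h1 : evL S A β e t (L.map d1) 0 = od z) :
    evL S A β e t (L.map d2) 0 = od z :=
  Flat2_ind h hU hη hz _ t L ht hL hfix (Nat.lt_succ_self _) h1

theorem Fl.mono {n n' : ℕ} {x : Code.{u}} (h : Fl S A μ β K Y e n x) (hn : n ≤ n') :
    Fl S A μ β K Y e n' x := by
  obtain ⟨t, L, h1, h2, h3, h4⟩ := h
  exact ⟨t, L, h1, h2, fun p hp => (h3 p hp).trans_le (Nat.cast_le.2 hn), h4⟩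

theorem fl_of_mem {n : ℕ} {y : Code.{u}} (hy : y ∈ Y) : Fl S A μ β K Y e n y := by
  refine ⟨.id, [Sum.inl y], Nat.zero_le _, ?_, by simp, rfl⟩
  intro i hi
  rw [List.mem_singleton.1 hi]
  exact hy

theorem Flat2_zero {n : ℕ} : Fl S A μ β K Y e n (od 0) :=
  ⟨.op .zero, [], Nat.zero_le _, by simp, by simp, rfl⟩

theorem fl_uv (h : FH S A μ β K Y e) {n n' : ℕ} (hn : n < n') (x : Code.{u}) :
    Fl S A μ β K Y e n' (uv S μ β e n x) := by
  cases x with
  | od m =>
    by_cases hm : UU S μ β m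
    · refine ⟨.id, [Sum.inr (m, (n : Ordinal.{u}))], Nat.zero_le _, ?_, ?_, ?_⟩
      · intro i hi
        rw [List.mem_singleton.1 hi]
        exact ⟨hm, reg_omega1.nat_lt n⟩
      · intro p hp
        simp only [List.mem_singleton, Sum.inr.injEq] at hp
        subst hp
        exact Nat.cast_lt.2 hn
      · simp [uv, hm, evL, iv]
    · simpa [uv, hm] using Flat2_zero
  | st a s x y => exact Flat2_zero

theorem Flat2_list {n : ℕ} (l : List Code.{u}) (hl : ∀ x ∈ l, Fl S A μ β K Y e n x) :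
    ∃ (t : Trm) (L : List Itm.{u}), t.depth ≤ K ∧ (∀ i ∈ L, IOk S μ β Y i) ∧
      (∀ p, Sum.inr p ∈ L → p.2 < n) ∧ ofL l = evL S A β e t L := by
  induction l with
  | nil => exact ⟨.op .zero, [], Nat.zero_le _, by simp, by simp, rfl⟩
  | cons x l ih =>
    obtain ⟨t1, L1, a1, a2, a3, a4⟩ := hl x List.mem_cons_self
    obtain ⟨t2, L2, b1, b2, b3, b4⟩ := ih fun y hy => hl y (List.mem_cons_of_mem _ hy)
    obtain ⟨i1, c1⟩ := exists_sel.{u} (L := L1) (L' := L1 ++ L2) fun _ hx =>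
      List.mem_append_left _ hx
    obtain ⟨i2, c2⟩ := exists_sel.{u} (L := L2) (L' := L1 ++ L2) fun _ hx =>
      List.mem_append_right _ hx
    refine ⟨.cons (.comp t1 (Trm.sel i1)) (.comp t2 (Trm.sel i2)), L1 ++ L2,
      by simpa [Trm.depth] using ⟨a1, b1⟩, ?_, ?_, ?_⟩
    · intro i hi
      rcases List.mem_append.1 hi with hi | hi
      exacts [a2 i hi, b2 i hi]
    · intro p hp
      rcases List.mem_append.1 hp with hp | hp
      exacts [a3 p hp, b3 p hp]
    · rw [ofL_cons, a4, b4]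
      simp only [evL, ev_cons, ev_comp, ev_sel]
      rw [c1, c2]

/-- Finitely many flat values are the entries of one flat environment. -/
theorem fl_env {n : ℕ} {x : CE.{u}} (hx : ∀ i, Fl S A μ β K Y e n (x i)) (m : ℕ) :
    ∃ (t : Trm) (L : List Itm.{u}), t.depth ≤ K ∧ (∀ i ∈ L, IOk S μ β Y i) ∧
      (∀ p, Sum.inr p ∈ L → p.2 < n) ∧ ∀ i < m, x i = evL S A β e t L i := by
  obtain ⟨t, L, h1, h2, h3, h4⟩ := Flat2_list (S := S) (A := A) (μ := μ) (β := β) (K := K)
    (Y := Y) (e := e) (n := n) ((List.range m).map x) (by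
      intro y hy
      obtain ⟨i, _, rfl⟩ := List.mem_map.1 hy
      exact hx i)
  exact ⟨t, L, h1, h2, h3, fun i hi => by rw [← h4, ofL_range_apply x hi]⟩

theorem fl_ev {n : ℕ} {x : CE.{u}} (hx : ∀ i, Fl S A μ β K Y e n (x i)) (ht : t.depth ≤ K)
    (i : ℕ) : Fl S A μ β K Y e n (ev (tailF S A) t β x i) := by
  obtain ⟨m, hm⟩ := ev_supp.{u} t (i + 1)
  obtain ⟨t0, L, h1, h2, h3, h4⟩ := fl_env hx m
  refine ⟨.comp (Trm.tls i) (.comp t t0), L, by simpa [Trm.depth] using ⟨ht, h1⟩, h2, h3, ?_⟩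
  rw [hm (tailF S A) β x _ h4 i (Nat.lt_succ_self i)]
  simp [evL]

end Pool.Agent.P.MP_833f7a_lc
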