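import Pool.Agent.P.MP_833f7a_lc.Names
import Pool.Agent.P.MP_833f7a_lc.CodeB

/-!
Basic facts on names and their values.
-/

universe u v w

namespace Pool.Agent.P.MP_833f7a_lc

open Cardinal Ordinal Set Code Nm

variable {ι : Type v} {ι' : Type w} {k : ℕ} {fl : Prop} {C C' : Set Ordinal.{u}} {I I' : Set ι}
  {ν ν' g : Nm.{u} ι} {R : Str.{u} ι}

/-! ### Syntax -/

theorem Nm.map_map {ι'' : Type*} (f : ι → ι') (f' : ι' → ι'') (ν : Nm.{u} ι) :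
    (ν.map f).map f' = ν.map (f' ∘ f) := by
  induction ν <;> simp_all [Nm.map]
theorem Nm.map_id (ν : Nm.{u} ι) : ν.map id = ν := by
  induction ν <;> simp_all [Nm.map]
theorem Nm.map_congr {f f' : ι → ι'} (h : ∀ i ∈ ν.idx, f i = f' i) : ν.map f = ν.map f' := by
  induction ν with
  | lf x => rfl
  | b η => simp only [Nm.map]; rw [h η ⟨par 0, by simp [Nm.occ]⟩]
  | u η g ih =>
    simp only [Nm.map]
    rw [h η ⟨g, by simp [Nm.occ]⟩, ih fun i ⟨g', hg⟩ => h i ⟨g', by simp [Nm.occ, hg]⟩]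
  | app t ν ih => simp only [Nm.map]; rw [ih h]
  | cons ν ν' ih ih' =>
    simp only [Nm.map]
    rw [ih fun i ⟨g', hg⟩ => h i ⟨g', by simp [Nm.occ, hg]⟩,
      ih' fun i ⟨g', hg⟩ => h i ⟨g', by simp [Nm.occ, hg]⟩]
theorem Nm.lmap_lmap (φ φ' : Leaf.{u} → Leaf.{u}) (ν : Nm.{u} ι) :
    (ν.lmap φ).lmap φ' = ν.lmap (φ' ∘ φ) := by
  induction ν <;> simp_all [Nm.lmap]
theorem Nm.lmap_congr {φ φ' : Leaf.{u} → Leaf.{u}} (h : ∀ ξ ∈ ν.cs, φ (.inl ξ) = φ' (.inl ξ))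
    (h' : ∀ i, φ (.inr i) = φ' (.inr i)) : ν.lmap φ = ν.lmap φ' := by
  induction ν with
  | lf x =>
    rcases x with ξ | i
    · simp only [Nm.lmap]; rw [h ξ (by simp [Nm.cs])]
    · simp only [Nm.lmap]; rw [h' i]
  | b η => rfl
  | u η g ih => simp only [Nm.lmap]; rw [ih h]
  | app t ν ih => simp only [Nm.lmap]; rw [ih h]
  | cons ν ν' ih ih' =>
    simp only [Nm.lmap]
    rw [ih fun ξ hξ => h ξ (by simp [Nm.cs, hξ]), ih' fun ξ hξ => h ξ (by simp [Nm.cs, hξ])]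
theorem Nm.lmap_id (ν : Nm.{u} ι) : ν.lmap id = ν := by
  induction ν <;> simp_all [Nm.lmap]
theorem Nm.lmap_map (φ : Leaf.{u} → Leaf.{u}) (f : ι → ι') (ν : Nm.{u} ι) :
    (ν.map f).lmap φ = (ν.lmap φ).map f := by
  induction ν <;> simp_all [Nm.lmap, Nm.map]
theorem Nm.occ_map (f : ι → ι') (ν : Nm.{u} ι) :
    (ν.map f).occ = ν.occ.map fun p => (f p.1, p.2.map f) := by
  induction ν <;> simp_all [Nm.occ, Nm.map]
theorem Nm.occ_lmap {φ : Leaf.{u} → Leaf.{u}} (h : φ (.inr 0) = .inr 0) (ν : Nm.{u} ι) :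
    (ν.lmap φ).occ = ν.occ.map fun p => (p.1, p.2.lmap φ) := by
  induction ν <;> simp_all [Nm.occ, Nm.lmap]
theorem Nm.idx_map (f : ι → ι') (ν : Nm.{u} ι) : (ν.map f).idx = f '' ν.idx := by
  ext j
  simp only [Nm.idx, Nm.occ_map, List.mem_map, mem_ofPred_eq, mem_image, Prod.mk.injEq]
  constructor
  · rintro ⟨g, ⟨i, g'⟩, h, rfl, -⟩
    exact ⟨i, ⟨g', h⟩, rfl⟩
  · rintro ⟨i, ⟨g', h⟩, rfl⟩
    exact ⟨_, ⟨i, g'⟩, h, rfl, rfl⟩
theorem NmL_idx_u (η : ι) : (u η g).idx = insert η g.idx := by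
  ext i
  simp only [Nm.idx, Nm.occ, List.mem_cons, Prod.mk.injEq, mem_ofPred_eq, mem_insert_iff]
  constructor
  · rintro ⟨g', h | h⟩
    · exact Or.inl h.1
    · exact Or.inr ⟨g', h⟩
  · rintro (h | ⟨g', h⟩)
    · exact ⟨g, Or.inl ⟨h, rfl⟩⟩
    · exact ⟨g', Or.inr h⟩
theorem NmL_idx_cons : (cons ν ν').idx = ν.idx ∪ ν'.idx := by
  ext i
  simp only [Nm.idx, Nm.occ, List.mem_append, mem_ofPred_eq, mem_union, exists_or]
theorem Nm.idx_lmap (φ : Leaf.{u} → Leaf.{u}) (ν : Nm.{u} ι) : (ν.lmap φ).idx = ν.idx := by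
  induction ν with
  | lf x => rfl
  | b η => rfl
  | u η g ih => rw [Nm.lmap, NmL_idx_u, NmL_idx_u, ih]
  | app t ν ih => exact ih
  | cons ν ν' ih ih' => rw [Nm.lmap, NmL_idx_cons, NmL_idx_cons, ih, ih']
theorem Nm.idx_finite (ν : Nm.{u} ι) : ν.idx.Finite := by
  refine ((ν.occ.finite_toSet).image Prod.fst).subset ?_
  rintro i ⟨g, h⟩
  exact ⟨(i, g), h, rfl⟩
@[simp] theorem Nm.idx_lf (x : Leaf.{u}) : (lf x : Nm.{u} ι).idx = ∅ := by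
  simp [Nm.idx, Nm.occ]
@[simp] theorem Nm.idx_b (η : ι) : (b η : Nm.{u} ι).idx = {η} := by
  ext i; simp [Nm.idx, Nm.occ]
@[simp] theorem Nm.idx_u (η : ι) : (u η g).idx = insert η g.idx := NmL_idx_u η
@[simp] theorem Nm.idx_app (t : Trm) : (app t ν).idx = ν.idx := rfl
@[simp] theorem Nm.idx_cons : (cons ν ν').idx = ν.idx ∪ ν'.idx := NmL_idx_cons
theorem Nm.cs_map (f : ι → ι') (ν : Nm.{u} ι) : (ν.map f).cs = ν.cs := by
  induction ν with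
  | lf x => rcases x with ξ | i <;> rfl
  | _ => simp_all [Nm.cs, Nm.map]
theorem Nm.mem_cs_lmap {φ : Leaf.{u} → Leaf.{u}} {ξ : Ordinal.{u}} (h : ξ ∈ (ν.lmap φ).cs) :
    (∃ ξ' ∈ ν.cs, φ (.inl ξ') = .inl ξ) ∨ ∃ i, φ (.inr i) = .inl ξ := by
  induction ν with
  | lf x =>
    simp only [Nm.lmap] at h
    have hx : φ x = .inl ξ := by
      rcases hφ : φ x with ξ' | i
      · rw [hφ] at h; simp only [Nm.cs, List.mem_singleton] at h; rw [h]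
      · rw [hφ] at h; simp [Nm.cs] at h
    rcases x with ξ' | i
    · exact Or.inl ⟨ξ', by simp [Nm.cs], hx⟩
    · exact Or.inr ⟨i, hx⟩
  | b η => simp [Nm.lmap, Nm.cs] at h
  | u η g ih => exact ih h
  | app t ν ih => exact ih h
  | cons ν ν' ih ih' =>
    simp only [Nm.lmap, Nm.cs, List.mem_append] at h
    rcases h with h | h
    · rcases ih h with ⟨ξ', h1, h2⟩ | h1
      · exact Or.inl ⟨ξ', by simp [Nm.cs, h1], h2⟩
      · exact Or.inr h1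
    · rcases ih' h with ⟨ξ', h1, h2⟩ | h1
      · exact Or.inl ⟨ξ', by simp [Nm.cs, h1], h2⟩
      · exact Or.inr h1
theorem Nm.bix_map (f : ι → ι') (ν : Nm.{u} ι) : (ν.map f).bix = ν.bix.map f := by
  induction ν <;> simp_all [Nm.bix, Nm.map]
theorem Nm.occ_of_bix {i : ι} (h : i ∈ ν.bix) : (i, par 0) ∈ ν.occ := by
  induction ν with
  | lf x => simp [Nm.bix] at h
  | b η => simpa [Nm.bix, Nm.occ] using h
  | u η g ih => exact List.mem_cons_of_mem _ (ih h)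
  | app t ν ih => exact ih h
  | cons ν ν' ih ih' =>
    simp only [Nm.bix, Nm.occ, List.mem_append] at h ⊢
    exact h.imp ih ih'
theorem Nm.occ_trans {i j : ι} {g' : Nm.{u} ι} (h : (i, g) ∈ ν.occ) (h' : (j, g') ∈ g.occ) :
    (j, g') ∈ ν.occ := by
  induction ν with
  | lf x => simp [Nm.occ] at h
  | b η =>
    simp only [Nm.occ, List.mem_singleton, Prod.mk.injEq] at h
    rw [h.2] at h'
    simp [Nm.occ] at h'
  | u η g0 ih =>
    simp only [Nm.occ, List.mem_cons, Prod.mk.injEq] at h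
    rcases h with h | h
    · rw [h.2] at h'
      exact List.mem_cons_of_mem _ h'
    · exact List.mem_cons_of_mem _ (ih h)
  | app t ν ih => exact ih h
  | cons ν ν' ih ih' =>
    simp only [Nm.occ, List.mem_append] at h ⊢
    exact h.imp ih ih'
theorem Nm.idx_occ {i : ι} (h : (i, g) ∈ ν.occ) : g.idx ⊆ ν.idx := fun _ ⟨g', hg⟩ =>
  ⟨g', Nm.occ_trans h hg⟩
theorem Nm.mv_fst (f : Nm.{u} ι → ι → ι') (ν : Nm.{u} ι) : (ν.mv f).map Prod.fst = ν := by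
  induction ν <;> simp_all [Nm.mv, Nm.map]
theorem Nm.occ_mv (f : Nm.{u} ι → ι → ι') (ν : Nm.{u} ι) :
    (ν.mv f).occ = ν.occ.map fun p => ((p.1, f p.2 p.1), p.2.mv f) := by
  induction ν <;> simp_all [Nm.occ, Nm.mv]
theorem Nm.cs_mv (f : Nm.{u} ι → ι → ι') (ν : Nm.{u} ι) : (ν.mv f).cs = ν.cs := by
  induction ν with
  | lf x => rcases x with ξ | i <;> rfl
  | _ => simp_all [Nm.cs, Nm.mv]
theorem Nm.mv_snd_eq {f : Nm.{u} ι → ι → ι} (h : ∀ i g, (i, g) ∈ ν.occ → f g i = i) :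
    (ν.mv f).map Prod.snd = ν := by
  induction ν with
  | lf x => rfl
  | b η => simp only [Nm.mv, Nm.map]; rw [h η _ (by simp [Nm.occ])]
  | u η g ih =>
    simp only [Nm.mv, Nm.map]
    rw [h η g (by simp [Nm.occ]), ih fun i g' hg => h i g' (by simp [Nm.occ, hg])]
  | app t ν ih => simp only [Nm.mv, Nm.map]; rw [ih h]
  | cons ν ν' ih ih' =>
    simp only [Nm.mv, Nm.map]
    rw [ih fun i g' hg => h i g' (by simp [Nm.occ, hg]),
      ih' fun i g' hg => h i g' (by simp [Nm.occ, hg])]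
theorem Nm.mv_snd_const (τ : ι → ι') (ν : Nm.{u} ι) :
    (ν.mv fun _ => τ).map Prod.snd = ν.map τ := by
  induction ν <;> simp_all [Nm.mv, Nm.map]
@[simp] theorem Nm.old_map (f : ι → ι') : (ν.map f).Old fl ↔ ν.Old fl := by
  induction ν <;> simp_all [Nm.Old, Nm.map]
@[simp] theorem Nm.t1_map (f : ι → ι') : (ν.map f).T1 fl ↔ ν.T1 fl := by
  induction ν <;> simp_all [Nm.T1, Nm.map]
@[simp] theorem Nm.wf_map (f : ι → ι') : (ν.map f).WF k fl ↔ ν.WF k fl := by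
  induction ν <;> simp_all [Nm.WF, Nm.map]
@[simp] theorem Nm.old_lmap (φ : Leaf.{u} → Leaf.{u}) : (ν.lmap φ).Old fl ↔ ν.Old fl := by
  induction ν <;> simp_all [Nm.Old, Nm.lmap]
@[simp] theorem Nm.t1_lmap (φ : Leaf.{u} → Leaf.{u}) : (ν.lmap φ).T1 fl ↔ ν.T1 fl := by
  induction ν <;> simp_all [Nm.T1, Nm.lmap]
@[simp] theorem Nm.wf_lmap (φ : Leaf.{u} → Leaf.{u}) : (ν.lmap φ).WF k fl ↔ ν.WF k fl := by
  induction ν <;> simp_all [Nm.WF, Nm.lmap]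
@[simp] theorem Nm.old_mv (f : Nm.{u} ι → ι → ι') : (ν.mv f).Old fl ↔ ν.Old fl := by
  induction ν <;> simp_all [Nm.Old, Nm.mv]
@[simp] theorem Nm.t1_mv (f : Nm.{u} ι → ι → ι') : (ν.mv f).T1 fl ↔ ν.T1 fl := by
  induction ν <;> simp_all [Nm.T1, Nm.mv]
@[simp] theorem Nm.wf_mv (f : Nm.{u} ι → ι → ι') : (ν.mv f).WF k fl ↔ ν.WF k fl := by
  induction ν <;> simp_all [Nm.WF, Nm.mv]
theorem Nm.Old.t1 (h : ν.Old fl) : ν.T1 fl := by
  induction ν with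
  | lf x => trivial
  | b η => trivial
  | u η g _ => exact h
  | app t ν ih => exact ih h
  | cons ν ν' ih ih' => exact ⟨ih h.1, ih' h.2⟩
theorem Nm.Old.bix (h : ν.Old fl) : ν.bix = [] := by
  induction ν with
  | lf x => rfl
  | b η => exact h.elim
  | u η g ih => exact ih h.2
  | app t ν ih => exact ih h
  | cons ν ν' ih ih' => simp only [Nm.bix]; rw [ih h.1, ih' h.2]; rfl
theorem Nm.Old.occ_nil (h : ν.Old fl) (hf : ¬ fl) : ν.occ = [] := by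
  induction ν with
  | lf x => rfl
  | b η => exact h.elim
  | u η g _ => exact (hf h.1).elim
  | app t ν ih => exact ih h
  | cons ν ν' ih ih' => simp only [Nm.occ]; rw [ih h.1, ih' h.2]; rfl
theorem Nm.T1.old_of_occ (h : ν.T1 fl) {i : ι} (hg : (i, g) ∈ ν.occ) : g.Old fl := by
  induction ν with
  | lf x => simp [Nm.occ] at hg
  | b η =>
    simp only [Nm.occ, List.mem_singleton, Prod.mk.injEq] at hg
    rw [hg.2]; trivial
  | u η g0 ih =>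
    simp only [Nm.occ, List.mem_cons, Prod.mk.injEq] at hg
    rcases hg with hg | hg
    · rw [hg.2]; exact h.2
    · exact ih h.2.t1 hg
  | app t ν ih => exact ih h hg
  | cons ν ν' ih ih' =>
    simp only [Nm.occ, List.mem_append] at hg
    exact hg.elim (ih h.1) (ih' h.2)

/-! ### `Ok` -/

theorem Nm.Ok.mono (h : ν.Ok k fl C I) (hC : C ⊆ C') (hI : I ⊆ I') : ν.Ok k fl C' I' :=
  ⟨h.1, fun ξ hξ => hC (h.2.1 ξ hξ), h.2.2.trans hI⟩
@[simp] theorem ok_cst {ξ : Ordinal.{u}} : (cst ξ : Nm.{u} ι).Ok k fl C I ↔ ξ ∈ C := by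
  simp [Nm.Ok, Nm.WF, Nm.cs]
@[simp] theorem ok_par {i : ℕ} : (par i : Nm.{u} ι).Ok k fl C I := by
  simp [Nm.Ok, Nm.WF, Nm.cs]
@[simp] theorem ok_b {η : ι} : (b η : Nm.{u} ι).Ok k fl C I ↔ η ∈ I := by
  simp [Nm.Ok, Nm.WF, Nm.cs]
@[simp] theorem ok_u {η : ι} : (u η g).Ok k fl C I ↔ η ∈ I ∧ g.T1 fl ∧ g.Ok k fl C I := by
  simp only [Nm.Ok, Nm.WF, Nm.cs, Nm.idx_u, insert_subset_iff]
  tauto
@[simp] theorem ok_cons : (cons ν ν').Ok k fl C I ↔ ν.Ok k fl C I ∧ ν'.Ok k fl C I := by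
  simp only [Nm.Ok, Nm.WF, Nm.cs, Nm.idx_cons, union_subset_iff, List.mem_append, or_imp,
    forall_and]
  tauto
theorem ok_app {t : Trm} : (app t ν).Ok k fl C I ↔
    ν.Ok k fl C I ∧ (t.depth ≤ k ∨ ∃ ψ, t = .eps ψ ∧ ψ.depth ≤ k ∧ ν.Old fl) := by
  simp only [Nm.Ok, Nm.WF, Nm.cs, Nm.idx_app]
  tauto
theorem Nm.Ok.app (h : ν.Ok k fl C I) {t : Trm} (ht : t.depth ≤ k) : (app t ν).Ok k fl C I :=
  ok_app.2 ⟨h, Or.inl ht⟩
theorem Nm.Ok.of_app {t : Trm} (h : (Nm.app t ν).Ok k fl C I) : ν.Ok k fl C I := (ok_app.1 h).1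
@[simp] theorem ok_op {o : Op} : (app (.op o) ν).Ok k fl C I ↔ ν.Ok k fl C I :=
  ⟨Nm.Ok.of_app, fun h => h.app (Nat.zero_le _)⟩
@[simp] theorem ok_ent {i : ℕ} : (ent i ν).Ok k fl C I ↔ ν.Ok k fl C I :=
  ⟨Nm.Ok.of_app, fun h => h.app (by simp)⟩
@[simp] theorem ok_low {t : Trm} : (app (.low t) ν).Ok k fl C I ↔ ν.Ok k fl C I :=
  ⟨Nm.Ok.of_app, fun h => h.app (Nat.zero_le _)⟩
@[simp] theorem ok_mk {t : Trm} : (app (.mk t) ν).Ok k fl C I ↔ ν.Ok k fl C I :=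
  ⟨Nm.Ok.of_app, fun h => h.app (Nat.zero_le _)⟩
@[simp] theorem ok_cut : (app .cut ν).Ok k fl C I ↔ ν.Ok k fl C I :=
  ⟨Nm.Ok.of_app, fun h => h.app (Nat.zero_le _)⟩
@[simp] theorem ok_domN : (domN g).Ok k fl C I ↔ g.Ok k fl C I :=
  ⟨Nm.Ok.of_app, fun h => h.app (Nat.zero_le _)⟩
theorem NmL_lst_cons (n : Nm.{u} ι) (l : List (Nm.{u} ι)) : lst (n :: l) = cons n (lst l) := rfl
theorem ok_lst {l : List (Nm.{u} ι)} : (lst l).Ok k fl C I ↔ ∀ n ∈ l, n.Ok k fl C I := by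
  induction l with
  | nil => simp [Nm.lst]
  | cons n l ih => rw [NmL_lst_cons, ok_cons, ih]; simp
theorem old_lst {l : List (Nm.{u} ι)} : (lst l).Old fl ↔ ∀ n ∈ l, n.Old fl := by
  induction l with
  | nil => simp [Nm.lst, Nm.Old]
  | cons n l ih => rw [NmL_lst_cons, Nm.Old, ih]; simp
theorem t1_lst {l : List (Nm.{u} ι)} : (lst l).T1 fl ↔ ∀ n ∈ l, n.T1 fl := by
  induction l with
  | nil => simp [Nm.lst, Nm.T1]
  | cons n l ih => rw [NmL_lst_cons, Nm.T1, ih]; simp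
theorem occ_lst {l : List (Nm.{u} ι)} {p : ι × Nm.{u} ι} :
    p ∈ (lst l).occ ↔ ∃ n ∈ l, p ∈ n.occ := by
  induction l with
  | nil => simp [Nm.lst, Nm.occ]
  | cons n l ih => rw [NmL_lst_cons, Nm.occ, List.mem_append, ih]; simp
theorem Nm.Ok.occ (h : ν.Ok k fl C I) {i : ι} (hg : (i, g) ∈ ν.occ) : i ∈ I ∧ g.Ok k fl C I := by
  induction ν with
  | lf x => simp [Nm.occ] at hg
  | b η =>
    simp only [Nm.occ, List.mem_singleton, Prod.mk.injEq] at hg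
    rw [hg.1, hg.2]
    exact ⟨ok_b.1 h, ok_par⟩
  | u η g0 ih =>
    simp only [Nm.occ, List.mem_cons, Prod.mk.injEq] at hg
    rw [ok_u] at h
    rcases hg with hg | hg
    · rw [hg.1, hg.2]; exact ⟨h.1, h.2.2⟩
    · exact ih h.2.2 hg
  | app t ν ih => exact ih h.of_app hg
  | cons ν ν' ih ih' =>
    simp only [Nm.occ, List.mem_append] at hg
    rw [ok_cons] at h
    exact hg.elim (ih h.1) (ih' h.2)
theorem Nm.Ok.map (h : ν.Ok k fl C I) (f : ι → ι') {J : Set ι'} (hf : ∀ i ∈ ν.idx, f i ∈ J) :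
    (ν.map f).Ok k fl C J := by
  refine ⟨(Nm.wf_map f).2 h.1, by rw [Nm.cs_map]; exact h.2.1, ?_⟩
  rw [Nm.idx_map]
  rintro _ ⟨i, hi, rfl⟩
  exact hf i hi
theorem Nm.Ok.of_map {f : ι → ι'} {J : Set ι'} (h : (ν.map f).Ok k fl C J) :
    ν.Ok k fl C univ :=
  ⟨(Nm.wf_map f).1 h.1, by rw [← Nm.cs_map f]; exact h.2.1, subset_univ _⟩
theorem Nm.Ok.self (h : ν.Ok k fl C I) : ν.Ok k fl C ν.idx := ⟨h.1, h.2.1, subset_rfl⟩
theorem Nm.Ok.mv (h : ν.Ok k fl C I) (f : Nm.{u} ι → ι → ι') {J : Set ι'}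
    (hf : ∀ i g, (i, g) ∈ ν.occ → f g i ∈ J) : ((ν.mv f).map Prod.snd).Ok k fl C J := by
  refine ⟨(Nm.wf_map _).2 ((Nm.wf_mv f).2 h.1), by rw [Nm.cs_map, Nm.cs_mv]; exact h.2.1, ?_⟩
  rw [Nm.idx_map]
  rintro _ ⟨p, ⟨g, hg⟩, rfl⟩
  rw [Nm.occ_mv, List.mem_map] at hg
  obtain ⟨⟨i, g'⟩, h1, h2⟩ := hg
  rw [← (Prod.mk.inj h2).1]
  exact hf i g' h1
theorem Nm.Ok.lmap (h : ν.Ok k fl C I) {φ : Leaf.{u} → Leaf.{u}}
    (h1 : ∀ ξ ∈ ν.cs, ∀ ξ', φ (.inl ξ) = .inl ξ' → ξ' ∈ C')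
    (h2 : ∀ i ξ', φ (.inr i) = .inl ξ' → ξ' ∈ C') : (ν.lmap φ).Ok k fl C' I := by
  refine ⟨(Nm.wf_lmap φ).2 h.1, fun ξ hξ => ?_, by rw [Nm.idx_lmap]; exact h.2.2⟩
  rcases Nm.mem_cs_lmap hξ with ⟨ξ', h3, h4⟩ | ⟨i, h3⟩
  · exact h1 ξ' h3 ξ h4
  · exact h2 i ξ h3
theorem Nm.Ok.sb (h : ν.Ok k fl C I) (j : ℕ) {z : Ordinal.{u}} (hz : z ∈ C) :
    (ν.sb j z).Ok k fl C I := by
  refine h.lmap (fun ξ hξ ξ' he => ?_) fun i ξ' he => ?_
  · simp only [reduceCtorEq, if_false, Sum.inl.injEq] at he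
    exact he ▸ h.2.1 ξ hξ
  · split_ifs at he
    · exact (Sum.inl.inj he) ▸ hz
theorem Nm.Ok.subL (h : ν.Ok k fl C I) (r : ℕ) {l : List Ordinal.{u}} (hl : ∀ z ∈ l, z ∈ C) :
    (subL r l ν).Ok k fl C I := by
  induction l generalizing ν with
  | nil => exact h
  | cons z l ih =>
    exact ih (h.sb _ (hl z List.mem_cons_self)) fun z' hz => hl z' (List.mem_cons_of_mem _ hz)

/-- The height of a name. -/
def NmL_ht : Nm.{u} ι → ℕ
  | .lf _ => 0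
  | .b _ => 0
  | .u _ g => NmL_ht g + 1
  | .app _ ν => NmL_ht ν + 1
  | .cons ν ν' => max (NmL_ht ν) (NmL_ht ν') + 1

theorem NmL_few_image2 {α : Type*} {β : Type*} {γ : Type*} {μ : Ordinal.{u}} (hμ : Reg μ)
    {s : Set α} {t : Set β} (hs : Few μ s) (ht : Few μ t) (f : α → β → γ) :
    Few μ (image2 f s t) := by
  refine ((Few.prod hμ hs ht).range fun p => f p.1.1 p.2.1).subset ?_
  rintro _ ⟨a, ha, b, hb, rfl⟩
  exact ⟨(⟨a, ha⟩, ⟨b, hb⟩), rfl⟩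

theorem NmL_few_lev {μ : Ordinal.{u}} (hμ : Reg μ) (hC : Few μ C) (hI : Few μ I) (n : ℕ) :
    Few μ {ν : Nm.{u} ι | (∀ ξ ∈ ν.cs, ξ ∈ C) ∧ ν.idx ⊆ I ∧ NmL_ht ν < n} := by
  induction n with
  | zero => exact (few_finite hμ finite_empty).subset fun ν h => absurd h.2.2 (Nat.not_lt_zero _)
  | succ n ih =>
    have h1 := hC.image (cst : Ordinal.{u} → Nm.{u} ι)
    have h2 := (few_countable hμ ℕ).range (par : ℕ → Nm.{u} ι)
    have h3 := hI.image (b : ι → Nm.{u} ι)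
    have h4 := NmL_few_image2 hμ hI ih (u : ι → Nm.{u} ι → Nm.{u} ι)
    have h5 := NmL_few_image2 hμ ((few_countable hμ Trm).set univ) ih
      (app : Trm → Nm.{u} ι → Nm.{u} ι)
    have h6 := NmL_few_image2 hμ ih ih (cons : Nm.{u} ι → Nm.{u} ι → Nm.{u} ι)
    refine (Few.union hμ (Few.union hμ (Few.union hμ h1 h2) h3)
      (Few.union hμ (Few.union hμ h4 h5) h6)).subset ?_
    rintro ν ⟨hc, hi, hh⟩
    cases ν with
    | lf x =>
      rcases x with ξ | i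
      · exact Or.inl (Or.inl (Or.inl ⟨ξ, hc ξ (by simp [Nm.cs]), rfl⟩))
      · exact Or.inl (Or.inl (Or.inr ⟨i, rfl⟩))
    | b η => exact Or.inl (Or.inr ⟨η, hi (by simp), rfl⟩)
    | u η g =>
      rw [Nm.idx_u, insert_subset_iff] at hi
      exact Or.inr (Or.inl (Or.inl ⟨η, hi.1, g, ⟨hc, hi.2, Nat.lt_of_succ_lt_succ hh⟩, rfl⟩))
    | app t ν =>
      exact Or.inr (Or.inl (Or.inr ⟨t, trivial, ν, ⟨hc, hi, Nat.lt_of_succ_lt_succ hh⟩, rfl⟩))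
    | cons ν ν' =>
      rw [Nm.idx_cons, union_subset_iff] at hi
      have hh' := max_lt_iff.1 (Nat.lt_of_succ_lt_succ hh)
      exact Or.inr (Or.inr ⟨ν, ⟨fun ξ hξ => hc ξ (by simp [Nm.cs, hξ]), hi.1, hh'.1⟩,
        ν', ⟨fun ξ hξ => hc ξ (by simp [Nm.cs, hξ]), hi.2, hh'.2⟩, rfl⟩)

theorem few_names {μ : Ordinal.{u}} (hμ : Reg μ) (hC : Few μ C) (hI : Few μ I) :
    Few μ {ν : Nm.{u} ι | ν.Ok k fl C I} := by
  refine (Few.iUnion hμ (few_countable hμ ℕ) (NmL_few_lev hμ hC hI)).subset fun ν hν => ?_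
  exact mem_iUnion.2 ⟨NmL_ht ν + 1, hν.2.1, hν.2.2, Nat.lt_succ_self _⟩

/-! ### Values -/

@[simp] theorem den_cst (ξ : Ordinal.{u}) : R.den (cst ξ) = fun _ => od (R.cv ξ) := rfl
@[simp] theorem den_par (i : ℕ) : R.den (par i) = fun _ => R.pv i := rfl
@[simp] theorem den_app (t : Trm) : R.den (app t ν) = ev R.F t R.β (R.den ν) := rfl
@[simp] theorem den_cons : R.den (cons ν ν') = ec (R.den ν 0) (R.den ν') := rfl
theorem den_u (η : ι) : R.den (u η g) = fun _ => R.uval η (R.den g 0) := rfl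
theorem den_u_of_U {η : ι} {μ : Ordinal.{u}} (h : R.den g 0 = od μ) (hU : R.U μ) :
    R.den (u η g) = fun _ => od (R.e μ η) := by
  rw [den_u, h]; simp only [Str.uval, if_pos hU]
theorem den_u_of_not {η : ι} (h : ¬ ∃ μ, R.den g 0 = od μ ∧ R.U μ) :
    R.den (u η g) = fun _ => od 0 := by
  rw [den_u]
  rcases hg : R.den g 0 with μ | ⟨a, t, x, y⟩
  · simp only [Str.uval]; rw [if_neg fun hU => h ⟨μ, hg, hU⟩]
  · rfl
theorem den_b_of_lt {η : ι} (h : R.μ0 < R.β) : R.den (b η) = fun _ => od (R.e R.μ0 η) := by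
  simp only [Str.den, if_pos h]
theorem den_b_of_not {η : ι} (h : ¬ R.μ0 < R.β) : R.den (b η) = fun _ => od 0 := by
  simp only [Str.den, if_neg h]
theorem den_ent (i : ℕ) : R.den (ent i ν) 0 = R.den ν i := by
  simp only [den_app, ev_tls, Nat.zero_add]
theorem den_lst (l : List (Nm.{u} ι)) : R.den (lst l) = ofL (l.map fun n => R.den n 0) := by
  induction l with
  | nil => rfl
  | cons n l ih => rw [NmL_lst_cons, den_cons, ih]; rfl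
theorem den_map (f : ι → ι') (R : Str.{u} ι') (ν : Nm.{u} ι) :
    R.den (ν.map f) = (R.reidx fun _ => f).den ν := by
  induction ν with
  | lf x => rcases x with ξ | i <;> rfl
  | b η => rfl
  | u η g ih =>
    rw [Nm.map, den_u, den_u, ih]
    rcases (R.reidx fun _ => f).den g 0 with μ | ⟨a, t, x, y⟩ <;> rfl
  | app t ν ih => rw [Nm.map, den_app, den_app, ih]; rfl
  | cons ν ν' ih ih' => rw [Nm.map, den_cons, den_cons, ih, ih']
theorem den_lmap {φ : Leaf.{u} → Leaf.{u}} {cv : Ordinal.{u} → Ordinal.{u}} {pv : ℕ → Code.{u}}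
    (h1 : ∀ ξ ∈ ν.cs, od (cv ξ) = R.lfv (φ (.inl ξ))) (h2 : ∀ i, pv i = R.lfv (φ (.inr i))) :
    R.den (ν.lmap φ) = (R.releaf cv pv).den ν := by
  induction ν with
  | lf x =>
    rcases x with ξ | i
    · funext _
      exact (h1 ξ (by simp [Nm.cs])).symm
    · funext _
      exact (h2 i).symm
  | b η => rfl
  | u η g ih =>
    rw [Nm.lmap, den_u, den_u, ih h1]
    rcases (R.releaf cv pv).den g 0 with μ | ⟨a, t, x, y⟩ <;> rfl
  | app t ν ih => rw [Nm.lmap, den_app, den_app, ih h1]; rfl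
  | cons ν ν' ih ih' =>
    rw [Nm.lmap, den_cons, den_cons, ih fun ξ hξ => h1 ξ (by simp [Nm.cs, hξ]),
      ih' fun ξ hξ => h1 ξ (by simp [Nm.cs, hξ])]
theorem Str.Up.lt {μ : Ordinal.{u}} (h : R.Up μ) : R.μ0 ≤ μ ∧ μ < R.β := by
  rcases h with h | h
  · exact ⟨h.1.ge, h.2⟩
  · exact ⟨h.1.le, h.2.1⟩
theorem NmL_den_in (hβ : ω ≤ R.β) (hc : ∀ ξ ∈ ν.cs, R.cv ξ < R.β) (hp : ∀ i, (R.pv i).In R.β)
    (hb : R.μ0 < R.β → ∀ i ∈ ν.bix, R.e R.μ0 i < R.β)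
    (he : ∀ i g, (i, g) ∈ ν.occ → ∀ μ, R.U μ → R.den g 0 = od μ → R.e μ i < R.β) :
    InE (R.den ν) R.β := by
  have h0 : 0 < R.β := omega0_pos.trans_le hβ
  induction ν with
  | lf x =>
    rcases x with ξ | i
    · exact fun _ => hc ξ (by simp [Nm.cs])
    · exact fun _ => hp i
  | b η =>
    by_cases h : R.μ0 < R.β
    · rw [den_b_of_lt h]; exact fun _ => hb h η (by simp [Nm.bix])
    · rw [den_b_of_not h]; exact inE_zero h0
  | u η g _ =>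
    by_cases h : ∃ μ, R.den g 0 = od μ ∧ R.U μ
    · obtain ⟨μ, h1, h2⟩ := h
      rw [den_u_of_U h1 h2]
      exact fun _ => he η g (by simp [Nm.occ]) μ h2 h1
    · rw [den_u_of_not h]; exact inE_zero h0
  | app t ν ih => exact ev_in t hβ (ih hc hb he)
  | cons ν ν' ih ih' =>
    rw [den_cons, inE_ec]
    exact ⟨ih (fun ξ hξ => hc ξ (by simp [Nm.cs, hξ])) (fun h i hi => hb h i (by simp [Nm.bix, hi]))
        (fun i g hg => he i g (by simp [Nm.occ, hg])) 0,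
      ih' (fun ξ hξ => hc ξ (by simp [Nm.cs, hξ])) (fun h i hi => hb h i (by simp [Nm.bix, hi]))
        fun i g hg => he i g (by simp [Nm.occ, hg])⟩
/-- Values are valid codes of level below the height. -/
theorem den_in (hβ : ω ≤ R.β) (hc : ∀ ξ ∈ ν.cs, R.cv ξ < R.β) (hp : ∀ i, (R.pv i).In R.β)
    (he : ∀ μ, R.Up μ → ∀ i ∈ ν.idx, R.e μ i < R.β) : InE (R.den ν) R.β :=
  NmL_den_in hβ hc hp (fun h i hi => he _ (Or.inl ⟨rfl, h⟩) i ⟨_, Nm.occ_of_bix hi⟩)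
    fun i g hg μ hμ _ => he μ (Or.inr hμ) i ⟨g, hg⟩
theorem den_in' (hβ : ω ≤ R.β) (hc : ∀ ξ ∈ ν.cs, R.cv ξ < R.β) (hp : ∀ i, (R.pv i).In R.β)
    (h0 : R.μ0 < R.β → R.pv 0 = od R.μ0)
    (he : ∀ i g, (i, g) ∈ ν.occ → ∀ μ, R.Up μ → R.den g 0 = od μ → R.e μ i < R.β) :
    InE (R.den ν) R.β :=
  NmL_den_in hβ hc hp
    (fun h i hi => he i _ (Nm.occ_of_bix hi) _ (Or.inl ⟨rfl, h⟩) (h0 h))
    fun i g hg μ hμ hd => he i g hg μ (Or.inr hμ) hd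
theorem Real.den_in [LinearOrder ι] {c : Cls.{u}} (h : Real c R C I)
    (hν : ν.Ok c.k c.fl C I) : InE (R.den ν) R.β :=
  Pool.Agent.P.MP_833f7a_lc.den_in h.om (fun ξ hξ => h.clt ξ (hν.2.1 ξ hξ)) h.pin
    fun μ hμ i hi => ((h.inc μ hμ).2 i (hν.2.2 hi)).trans hμ.lt.2

@[simp] theorem tr_eqN : R.Tr (eqN ν ν') ↔ R.den ν 0 = R.den ν' 0 := bl_eq_tt
@[simp] theorem tr_elN : R.Tr (elN ν ν') ↔ El R.F (R.den ν 0) (R.den ν' 0) := bl_eq_tt
@[simp] theorem tr_ltN : R.Tr (ltN ν ν') ↔ (R.den ν 0).Lt (R.den ν' 0) := bl_eq_tt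
theorem NmL_tr_nand : R.Tr (op2 .nand ν ν') ↔ ¬ (R.Tr ν ∧ R.Tr ν') := bl_eq_tt
@[simp] theorem tr_notN : R.Tr (notN ν) ↔ ¬ R.Tr ν :=
  NmL_tr_nand.trans (by rw [and_self])
theorem tr_andN : R.Tr (andN ν ν') ↔ R.Tr ν ∧ R.Tr ν' := by
  rw [tr_notN, NmL_tr_nand, not_not]
theorem tr_orN : R.Tr (orN ν ν') ↔ R.Tr ν ∨ R.Tr ν' := by
  rw [NmL_tr_nand, tr_notN, tr_notN]; tauto
theorem tr_domN (hF : FS R.F) : R.Tr (domN g) ↔ ∃ μ, R.den g 0 = od μ ∧ dom R.F μ := ev_dom hF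
theorem tr_uN (hF : FS R.F) (h0 : R.pv 0 = od R.μ0) (hg : (R.den g 0).In R.β) :
    R.Tr (uN g) ↔ ∃ μ, R.den g 0 = od μ ∧ R.U μ := by
  rw [tr_andN, tr_elN, tr_domN hF]
  constructor
  · rintro ⟨h1, μ, h2, h3⟩
    rw [h2] at h1 hg
    rw [den_par, h0, el_od_od] at h1
    exact ⟨μ, h2, h1, hg, h3⟩
  · rintro ⟨μ, h1, h2, -, h3⟩
    refine ⟨?_, μ, h1, h3⟩
    rw [h1, den_par, h0, el_od_od]
    exact h2
theorem tr_upN (hF : FS R.F) (h0 : R.pv 0 = od R.μ0) (hg : (R.den g 0).In R.β) :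
    R.Tr (upN g) ↔ ∃ μ, R.den g 0 = od μ ∧ R.Up μ := by
  rw [tr_orN, tr_eqN, tr_uN hF h0 hg, den_par, h0]
  constructor
  · rintro (h | ⟨μ, h1, h2⟩)
    · rw [h] at hg
      exact ⟨_, h, Or.inl ⟨rfl, hg⟩⟩
    · exact ⟨μ, h1, Or.inr h2⟩
  · rintro ⟨μ, h1, h2 | h2⟩
    · exact Or.inl (h2.1 ▸ h1)
    · exact Or.inr ⟨μ, h1, h2⟩

end Pool.Agent.P.MP_833f7a_lc
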