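import Pool.Agent.P.MP_833f7a_lc.Flat2
import Pool.Agent.P.MP_833f7a_lc.NmL

/-!
Names are flat terms; invariance and genericity for names.
-/

universe u v w

namespace Pool.Agent.P.MP_833f7a_lc

open Cardinal Ordinal Set Code Nm

variable {S A : Set Ordinal.{u}} {μ β μ' : Ordinal.{u}} {c : Cls.{u}} {Y : Set Code.{u}}
  {P : ℕ → Code.{u}} {e : Ordinal.{u} → Ordinal.{u} → Ordinal.{u}}
  {cc c1 c2 : Ordinal.{u} → Ordinal.{u}} {ν : Nm.{u} Ordinal.{u}}
  {ρ : Nm.{u} (Ordinal.{u} × Ordinal.{u})} {η η' : Ordinal.{u}} {t : Trm}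

theorem sr_U (h : Bs S A) : (SR S A μ β P e cc).U μ' ↔ UU S μ β μ' :=
  ⟨fun hh => ⟨(dom_tailF (zero_le.trans_lt hh.1)).1 hh.2.2, hh.1, hh.2.1⟩,
    fun hh => ⟨hh.2.1, hh.2.2, (dom_tailF (zero_le.trans_lt hh.2.1)).2 hh.1⟩⟩

theorem sr_e (h : UU S μ β μ') : (SR S A μ β P e cc).e μ' = e μ' :=
  if_neg h.2.1.ne'

theorem sr_e0 : (SR S A μ β P e cc).e μ = cc :=
  if_pos rfl

theorem FlatN_uval (c1 c2 : Ordinal.{u} → Ordinal.{u}) (x : Code.{u}) :
    (SR S A μ β P e c1).uval η x = (SR S A μ β P e c2).uval η x := by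
  cases x with
  | od m =>
    by_cases hU : (SR S A μ β P e c1).U m
    · have hU' : (SR S A μ β P e c2).U m := hU
      have hne : m ≠ μ := ne_of_gt hU.1
      simp only [Str.uval, if_pos hU, if_pos hU']
      simp only [SR, if_neg hne]
    · have hU' : ¬ (SR S A μ β P e c2).U m := hU
      simp only [Str.uval, if_neg hU, if_neg hU']
  | st a t x y => rfl

theorem sr_den_congr (h : ∀ i ∈ ν.bix, c1 i = c2 i) :
    (SR S A μ β P e c1).den ν = (SR S A μ β P e c2).den ν := by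
  induction ν with
  | lf x => cases x <;> rfl
  | b η =>
    have h1 : c1 η = c2 η := h η (by simp [Nm.bix])
    simp only [Str.den]
    change (fun _ => if μ < β then od ((SR S A μ β P e c1).e μ η) else od 0) =
      fun _ => if μ < β then od ((SR S A μ β P e c2).e μ η) else od 0
    rw [sr_e0, sr_e0, h1]
  | u η g ih => rw [den_u, den_u, ih h, FlatN_uval c1 c2]
  | app t ν ih => rw [den_app, den_app, ih h]; rfl
  | cons ν ν' ih ih' =>
    rw [den_cons, den_cons, ih fun i hi => h i (List.mem_append_left _ hi),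
      ih' fun i hi => h i (List.mem_append_right _ hi)]

theorem sr_den_of_not (h : ¬ μ < β) (c1 c2 : Ordinal.{u} → Ordinal.{u}) :
    (SR S A μ β P e c1).den ν = (SR S A μ β P e c2).den ν := by
  induction ν with
  | lf x => cases x <;> rfl
  | b η => rw [den_b_of_not h, den_b_of_not h]
  | u η g ih => rw [den_u, den_u, ih, FlatN_uval c1 c2]
  | app t ν ih => rw [den_app, den_app, ih]; rfl
  | cons ν ν' ih ih' => rw [den_cons, den_cons, ih, ih']

theorem Src.reg (h : Src S A μ β c Y P e) : Reg μ ∧ Unb A μ ∧ ω₁ < μ :=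
  ⟨h.fh.bs.reg μ h.fh.mem, h.fh.bs.unb μ h.fh.mem, h.fh.bs.om μ h.fh.mem⟩

theorem Src.k_le (c : Cls.{u}) : c.k ≤ c.kk := by
  unfold Cls.kk
  split_ifs <;> omega

theorem Src.den_in (h : Src S A μ β c Y P e) (hν : ν.Ok c.k c.fl (Iio μ) (Iio ω₁))
    (hc : ∀ i, cc i < μ) : InE ((SR S A μ β P e cc).den ν) β := by
  refine Pool.Agent.P.MP_833f7a_lc.den_in h.fh.om
    (fun ξ hξ => lt_of_lt_of_le (hν.2.1 ξ hξ) h.fh.le) (fun i => h.fh.y.sub _ (h.py i)) ?_
  rintro μ'' (⟨h1, -⟩ | h1) i hi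
  · obtain rfl : μ'' = μ := h1
    rw [sr_e0]
    exact (hc i).trans_le h.fh.le
  · have hU := (sr_U h.fh.bs).1 h1
    rw [sr_e hU]
    exact (h.fh.gen μ'' hU i (hν.2.2 hi)).1.trans hU.2.2

theorem FlatN_const {y : Code.{u}} (hy : y ∈ Y) {x1 x2 : CE.{u}} (h1 : x1 = fun _ => y)
    (h2 : x2 = fun _ => y) {Q : Ordinal.{u} → Ordinal.{u} × Ordinal.{u} → Prop} {K : ℕ} :
    ∃ (t : Trm) (L : List DItm.{u}), t.depth ≤ K ∧ DOk S μ β Y L ∧
      (∀ μ' p, Sum.inr (μ', p) ∈ L → Q μ' p) ∧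
      x1 = evL S A β e t (L.map d1) ∧ x2 = evL S A β e t (L.map d2) := by
  refine ⟨.op .fst, [Sum.inl y], Nat.zero_le _, ⟨?_, ?_⟩, ?_, h1, h2⟩
  · intro x hx
    obtain rfl := List.mem_singleton.1 hx
    exact ⟨hy, hy⟩
  · intro m a b ha
    cases List.mem_singleton.1 ha
  · intro m a ha
    cases List.mem_singleton.1 ha

theorem Src.flat (h : Src S A μ β c Y P e) (h1 : (ρ.map Prod.fst).Ok c.k c.fl (Iio μ) (Iio ω₁))
    (h2 : (ρ.map Prod.snd).Ok c.k c.fl (Iio μ) (Iio ω₁)) (hc1 : ∀ i, c1 i < μ)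
    (hb : ∀ p ∈ ρ.bix, c1 p.1 = c2 p.2) (hm : (SR S A μ β P e c1).MvU ρ) :
    ∃ (t : Trm) (L : List DItm.{u}), t.depth ≤ c.kk ∧ DOk S μ β Y L ∧
      (∀ μ' p, Sum.inr (μ', p) ∈ L → ∃ g, (p, g) ∈ ρ.occ ∧
        (SR S A μ β P e c1).den (g.map Prod.fst) 0 = od μ') ∧
      (SR S A μ β P e c1).den (ρ.map Prod.fst) = evL S A β e t (L.map d1) ∧
      (SR S A μ β P e c2).den (ρ.map Prod.snd) = evL S A β e t (L.map d2) := by
  have hβ : 0 < β := omega0_pos.trans_le h.fh.om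
  have h0 : od 0 ∈ Y := h.fh.y.small 0 zero_le hβ
  induction ρ with
  | lf x =>
    cases x with
    | inl ξ =>
      have hξ : ξ < μ := ok_cst.1 h1
      exact FlatN_const (h.fh.y.small ξ hξ.le (hξ.trans_le h.fh.le)) rfl rfl
    | inr i => exact FlatN_const (h.py i) rfl rfl
  | b p =>
    by_cases hlt : μ < β
    · refine FlatN_const (h.fh.y.small _ (hc1 p.1).le ((hc1 p.1).trans hlt)) ?_ ?_
      · exact (den_b_of_lt (η := p.1) hlt).trans (by
          change (fun _ => od ((SR S A μ β P e c1).e μ p.1)) = _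
          rw [sr_e0])
      · exact (den_b_of_lt (η := p.2) hlt).trans (by
          change (fun _ => od ((SR S A μ β P e c2).e μ p.2)) = _
          rw [sr_e0, hb p (by simp [Nm.bix])])
    · exact FlatN_const h0 (den_b_of_not (η := p.1) hlt) (den_b_of_not (η := p.2) hlt)
  | u p g ih =>
    have k1 := ok_u.1 h1
    have k2 := ok_u.1 h2
    obtain ⟨t, L, ht, hL, -, e1, e2⟩ := ih k1.2.2 k2.2.2 hb
      fun a g1 b g2 ha hb' => hm a g1 b g2 (List.mem_cons_of_mem _ ha) (List.mem_cons_of_mem _ hb')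
    have key : ∀ μ'', UU S μ β μ'' → ((SR S A μ β P e c1).den (g.map Prod.fst) 0 = od μ'' ↔
        (SR S A μ β P e c2).den (g.map Prod.snd) 0 = od μ'') := fun μ'' hU => by
      rw [e1, e2]
      exact h.fh.uiflat_val ht hL (h.fh.y.up μ'' hU)
    by_cases hex : ∃ μ'', (SR S A μ β P e c1).den (g.map Prod.fst) 0 = od μ'' ∧ UU S μ β μ''
    · obtain ⟨μ'', hv, hU⟩ := hex
      refine ⟨.op .fst, [Sum.inr (μ'', p)], Nat.zero_le _, ⟨?_, ?_⟩, ?_, ?_, ?_⟩
      · intro x hx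
        obtain rfl := List.mem_singleton.1 hx
        exact ⟨⟨hU, k1.1⟩, hU, k2.1⟩
      · intro m a b ha hb'
        cases List.mem_singleton.1 ha
        cases List.mem_singleton.1 hb'
        simp
      · intro m a ha
        cases List.mem_singleton.1 ha
        exact ⟨g, List.mem_cons_self, hv⟩
      · exact (den_u_of_U (η := p.1) hv ((sr_U h.fh.bs).2 hU)).trans (by rw [sr_e hU]; rfl)
      · exact (den_u_of_U (η := p.2) ((key μ'' hU).1 hv) ((sr_U h.fh.bs).2 hU)).trans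
          (by rw [sr_e hU]; rfl)
    · refine FlatN_const h0 (den_u_of_not (η := p.1) ?_) (den_u_of_not (η := p.2) ?_)
      · rintro ⟨μ'', a, b⟩
        exact hex ⟨μ'', a, (sr_U h.fh.bs).1 b⟩
      · rintro ⟨μ'', a, b⟩
        have hU := (sr_U h.fh.bs).1 b
        exact hex ⟨μ'', (key μ'' hU).2 a, hU⟩
  | app s ρ ih =>
    have k1 := ok_app.1 h1
    have k2 := ok_app.1 h2
    by_cases hs : s.depth ≤ c.kk
    · obtain ⟨t, L, ht, hL, ho, e1, e2⟩ := ih k1.1 k2.1 hb hm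
      refine ⟨.comp s t, L, max_le hs ht, hL, ho, ?_, ?_⟩
      · exact congrArg (ev (tailF S A) s β) e1
      · exact congrArg (ev (tailF S A) s β) e2
    · obtain ⟨ψ, rfl, hψ, hold⟩ := k1.2.resolve_left fun a => hs (a.trans (Src.k_le c))
      have hfl : ¬ c.fl := fun a => hs (by
        unfold Cls.kk
        rw [if_pos a]
        exact Nat.succ_le_succ hψ)
      have ho : ρ.Old c.fl := (Nm.old_map _).1 hold
      have e1 : ρ.map Prod.snd = ρ.map Prod.fst := Nm.map_congr fun i hi => by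
        obtain ⟨g, hg⟩ := hi
        rw [ho.occ_nil hfl] at hg
        cases hg
      have e2 : (SR S A μ β P e c2).den (ρ.map Prod.snd) =
          (SR S A μ β P e c1).den (ρ.map Prod.fst) := by
        rw [e1]
        exact sr_den_congr fun i hi => by rw [hold.bix] at hi; cases hi
      refine FlatN_const (h.old hfl _ h1 hold c1) rfl ?_
      exact congrArg (ev (tailF S A) (.eps ψ) β) e2
  | cons ρ ρ' ih ih' =>
    have k1 := ok_cons.1 h1
    have k2 := ok_cons.1 h2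
    obtain ⟨t, L, ht, hL, ho, e1, e2⟩ := ih k1.1 k2.1
      (fun p hp => hb p (List.mem_append_left _ hp))
      fun a g1 b g2 ha hb' => hm a g1 b g2 (List.mem_append_left _ ha) (List.mem_append_left _ hb')
    obtain ⟨t', L', ht', hL', ho', e1', e2'⟩ := ih' k1.2 k2.2
      (fun p hp => hb p (List.mem_append_right _ hp))
      fun a g1 b g2 ha hb' =>
        hm a g1 b g2 (List.mem_append_right _ ha) (List.mem_append_right _ hb')
    obtain ⟨is, his⟩ := exists_sel (L := L) (L' := L ++ L') fun x hx => List.mem_append_left _ hx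
    obtain ⟨is', his'⟩ :=
      exists_sel (L := L') (L' := L ++ L') fun x hx => List.mem_append_right _ hx
    have a1 : ∀ x ∈ L ++ L', IOk S μ β Y (d1 x) ∧ IOk S μ β Y (d2 x) := fun x hx =>
      (List.mem_append.1 hx).elim (hL.1 x) (hL'.1 x)
    have a2 : ∀ μ' p, Sum.inr (μ', p) ∈ L ++ L' → ∃ g, (p, g) ∈ (Nm.cons ρ ρ').occ ∧
        (SR S A μ β P e c1).den (g.map Prod.fst) 0 = od μ' := by
      intro m p hp
      rcases List.mem_append.1 hp with a | a
      · obtain ⟨g, b1, b2⟩ := ho m p a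
        exact ⟨g, List.mem_append_left _ b1, b2⟩
      · obtain ⟨g, b1, b2⟩ := ho' m p a
        exact ⟨g, List.mem_append_right _ b1, b2⟩
    have a3 : ∀ d : DItm.{u} → Itm.{u},
        evL S A β e (.cons (.comp t (.sel is)) (.comp t' (.sel is'))) ((L ++ L').map d) =
          ec (evL S A β e t (L.map d) 0) (evL S A β e t' (L'.map d)) := by
      intro d
      simp only [evL, ev_cons, ev_comp, ev_sel, List.map_map]
      rw [his, his']
    refine ⟨.cons (.comp t (.sel is)) (.comp t' (.sel is')), L ++ L', ?_, ⟨a1, ?_⟩, a2, ?_, ?_⟩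
    · simp only [Trm.depth, depth_sel]
      omega
    · intro m p q hp hq
      obtain ⟨g, b1, b2⟩ := a2 m p hp
      obtain ⟨g', b3, b4⟩ := a2 m q hq
      exact hm p g q g' b1 b3 m ((sr_U h.fh.bs).2 (a1 _ hp).1.1) b2 b4
    · rw [a3, ← e1, ← e1']; rfl
    · rw [a3, ← e2, ← e2']; rfl

theorem Src.ui_name (h : Src S A μ β c Y P e)
    (h1 : (ρ.map Prod.fst).Ok c.k c.fl (Iio μ) (Iio ω₁))
    (h2 : (ρ.map Prod.snd).Ok c.k c.fl (Iio μ) (Iio ω₁)) (hc1 : ∀ i, c1 i < μ)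
    (hb : ∀ p ∈ ρ.bix, c1 p.1 = c2 p.2) (hm : (SR S A μ β P e c1).MvU ρ) {y : Code.{u}}
    (hy : y ∈ Y) : (SR S A μ β P e c1).den (ρ.map Prod.fst) 0 = y ↔
      (SR S A μ β P e c2).den (ρ.map Prod.snd) 0 = y := by
  obtain ⟨t, L, ht, hL, -, e1, e2⟩ := h.flat h1 h2 hc1 hb hm
  rw [e1, e2]
  exact h.fh.uiflat_val ht hL hy

theorem Src.ind_name (h : Src S A μ β c Y P e)
    (h1 : (ρ.map Prod.fst).Ok c.k c.fl (Iio μ) (Iio ω₁))
    (h2 : (ρ.map Prod.snd).Ok c.k c.fl (Iio μ) (Iio ω₁)) (hc1 : ∀ i, c1 i < μ)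
    (hb : ∀ p ∈ ρ.bix, c1 p.1 = c2 p.2) (hm : (SR S A μ β P e c1).MvU ρ) (hU : UU S μ β μ')
    (hη : η < ω₁)
    (hfix : (SR S A μ β P e c1).Fix ρ fun μ'' i => μ'' < μ' ∨ μ'' = μ' ∧ i < η)
    {z : Ordinal.{u}} (hz : z < e μ' η)
    (hv : (SR S A μ β P e c1).den (ρ.map Prod.fst) 0 = od z) :
    (SR S A μ β P e c2).den (ρ.map Prod.snd) 0 = od z := by
  obtain ⟨t, L, ht, hL, ho, e1, e2⟩ := h.flat h1 h2 hc1 hb hm
  rw [e1] at hv
  rw [e2]
  refine h.fh.indflat ht hL hU hη (fun m p hp hc => ?_) hz hv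
  obtain ⟨g, b1, b2⟩ := ho m p hp
  exact hfix p g b1 m (Or.inr ((sr_U h.fh.bs).2 (hL.1 _ hp).1.1)) b2 hc

theorem FlatN_one (h : Src S A μ β c Y P e) (hν : ν.Ok c.k c.fl (Iio μ) (Iio ω₁))
    (hc : ∀ i, cc i < μ) (ha : (SR S A μ β P e cc).Abv ν μ' η) :
    ∃ (t : Trm) (L : List Itm.{u}), t.depth ≤ c.kk ∧ (∀ x ∈ L, IOk S μ β Y x) ∧
      (∀ p, Sum.inr p ∈ L → p.1 = μ' → p.2 < η) ∧
      (SR S A μ β P e cc).den ν = evL S A β e t L := by
  have e1 : ∀ g : Nm.{u} Ordinal.{u}, (g.map fun i => (i, i)).map Prod.fst = g := fun g => by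
    rw [Nm.map_map]; exact Nm.map_id g
  have e2 : ∀ g : Nm.{u} Ordinal.{u}, (g.map fun i => (i, i)).map Prod.snd = g := fun g => by
    rw [Nm.map_map]; exact Nm.map_id g
  have occ : ∀ p g, (p, g) ∈ (ν.map fun i => (i, i)).occ →
      p.2 = p.1 ∧ (p.1, g.map Prod.fst) ∈ ν.occ := by
    intro p g hp
    rw [Nm.occ_map] at hp
    obtain ⟨q, hq, hh⟩ := List.mem_map.1 hp
    cases hh
    exact ⟨rfl, by rw [e1]; exact hq⟩
  obtain ⟨t, L, ht, hL, ho, e3, -⟩ := h.flat (ρ := ν.map fun i => (i, i)) (c1 := cc) (c2 := cc)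
    (by rw [e1]; exact hν) (by rw [e2]; exact hν) hc
    (fun p hp => by rw [(occ p _ (Nm.occ_of_bix hp)).1])
    (fun p g q g' hp hq _ _ _ _ => by rw [(occ p g hp).1, (occ q g' hq).1])
  rw [e1] at e3
  refine ⟨t, L.map d1, ht, fun x hx => ?_, fun p hp hμ => ?_, e3⟩
  · obtain ⟨x', hx', rfl⟩ := List.mem_map.1 hx
    exact (hL.1 x' hx').1
  · obtain ⟨x', hx', hh⟩ := List.mem_map.1 hp
    cases x' with
    | inl y => cases hh
    | inr q =>
      cases hh
      obtain ⟨g, b1, b2⟩ := ho q.1 q.2 hx'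
      exact ha _ _ (occ _ _ b1).2 (b2.trans (congrArg od hμ))

theorem Src.coh_name (h : Src S A μ β c Y P e) (hν : ν.Ok c.k c.fl (Iio μ) (Iio ω₁))
    (hc : ∀ i, cc i < μ) (hU : UU S μ β μ') (hη : η < ω₁) (ha : (SR S A μ β P e cc).Abv ν μ' η)
    (ht : t.depth ≤ c.kk) :
    AE A μ' (fun z => ev (tailF S A) t β (ec (od z) ((SR S A μ β P e cc).den ν)) 0 = tt) ↔
      ev (tailF S A) t β (ec (od (e μ' η)) ((SR S A μ β P e cc).den ν)) 0 = tt := by
  obtain ⟨s, L, hs, hL, hi, e1⟩ := FlatN_one h hν hc ha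
  rw [e1]
  exact h.fh.cohflat (t := .comp t (.cons .id (.comp s .tl))) hU hη
    (by simp only [Trm.depth]; omega) hL hi

theorem Src.coh_val (h : Src S A μ β c Y P e) (hν : ν.Ok c.k c.fl (Iio μ) (Iio ω₁))
    (hc : ∀ i, cc i < μ) (hU : UU S μ β μ') (hη : η < ω₁) (ha : (SR S A μ β P e cc).Abv ν μ' η)
    (ht : t.depth ≤ c.kk) {f : Ordinal.{u} → Code.{u}}
    (hf : ∀ z, f z = ev (tailF S A) t β (ec (od z) ((SR S A μ β P e cc).den ν)) 0)
    {y : Code.{u}} (hy : y ∈ Y) (hv : f (e μ' η) = y) : limF (tailF S A) μ' f = y := by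
  obtain ⟨s, L, hs, hL, hi, e1⟩ := FlatN_one h hν hc ha
  have k : ∀ z, evI S A β e
      (.comp (.op .eq) (.cons (.comp t (.cons .id (.comp s (.comp .tl .tl)))) .tl))
      (Sum.inl y :: L) z = bl (f z = y) := fun z => by rw [hf, e1]; rfl
  have k2 := h.fh.cohflat
    (t := .comp (.op .eq) (.cons (.comp t (.cons .id (.comp s (.comp .tl .tl)))) .tl))
    (L := Sum.inl y :: L) hU hη (by simp only [Trm.depth]; omega)
    (fun x hx => (List.mem_cons.1 hx).elim (fun a => a ▸ hy) (hL x))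
    (fun p hp => hi p ((List.mem_cons.1 hp).resolve_left (by simp)))
  simp only [k, bl_eq_tt] at k2
  exact limF_eq h.fh.bs.fs ((tailF_iff hU.1).2 (k2.2 hv))

theorem Src.coh2_name (h : Src S A μ β c Y P e) (hν : ν.Ok c.k c.fl (Iio μ) (Iio ω₁))
    (hc : ∀ i, cc i < μ) (hU : UU S μ β μ') (hlt : η < η') (hη : η' < ω₁)
    (ha : (SR S A μ β P e cc).Abv ν μ' η) (ht : t.depth ≤ c.kk) {f : Ordinal.{u} → Code.{u}}
    (hf : ∀ z, f z = ev (tailF S A) t β (ec (od z) ((SR S A μ β P e cc).den ν)) 0) :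
    (f (e μ' η) = f (e μ' η') → limF (tailF S A) μ' f = f (e μ' η)) ∧
      (f (e μ' η) ≠ f (e μ' η') → limF (tailF S A) μ' f = od 0) := by
  obtain ⟨s, L, hs, hL, hi, e1⟩ := FlatN_one h hν hc ha
  have k : f = evI S A β e (.comp t (.cons .id (.comp s .tl))) L :=
    funext fun z => by rw [hf, e1]; rfl
  rw [k]
  exact h.fh.coh2flat hU hlt hη (by simp only [Trm.depth]; omega) hL hi

end Pool.Agent.P.MP_833f7a_lc
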