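import Pool.Agent.P.MP_833f7a_lc.Elim
import Mathlib.Data.List.GetD

/-!
Names are good functions of their bottom atoms; generic bottom atoms.
-/

universe u v w

namespace Pool.Agent.P.MP_833f7a_lc

open Cardinal Ordinal Set Code Nm

variable {S A : Set Ordinal.{u}} {μ β : Ordinal.{u}} {c : Cls.{u}} {Y : Set Code.{u}}
  {P : ℕ → Code.{u}} {e : Ordinal.{u} → Ordinal.{u} → Ordinal.{u}} {ν : Nm.{u} Ordinal.{u}}

theorem GoodN_asg_mem (c0 : Ordinal.{u} → Ordinal.{u}) {bs : List Ordinal.{u}}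
    (l : List Ordinal.{u}) {i : Ordinal.{u}} (h : i ∈ bs) :
    asg c0 bs l i = l.getD (bs.idxOf i) 0 := by
  unfold asg
  rw [if_pos h]

theorem GoodN_asg_not (c0 : Ordinal.{u} → Ordinal.{u}) {bs : List Ordinal.{u}}
    (l : List Ordinal.{u}) {i : Ordinal.{u}} (h : i ∉ bs) : asg c0 bs l i = c0 i := by
  unfold asg
  rw [if_neg h]

theorem asg_lt {c0 : Ordinal.{u} → Ordinal.{u}} (h0 : ∀ i, c0 i < μ) (bs : List Ordinal.{u})
    {l : List Ordinal.{u}} (hl : ∀ z ∈ l, z < μ) (i : Ordinal.{u}) : asg c0 bs l i < μ := by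
  by_cases h : i ∈ bs
  · rw [GoodN_asg_mem c0 l h]
    by_cases hj : bs.idxOf i < l.length
    · rw [List.getD_eq_getElem _ _ hj]
      exact hl _ (List.getElem_mem hj)
    · rw [List.getD_eq_default _ _ (not_lt.1 hj)]
      exact lt_of_le_of_lt zero_le (h0 0)
  · rw [GoodN_asg_not c0 l h]
    exact h0 i

theorem Nm.mem_bs {i : Ordinal.{u}} : i ∈ ν.bs ↔ i ∈ ν.bix := by
  unfold Nm.bs
  rw [Finset.mem_sort, List.mem_toFinset]

theorem Nm.bs_sorted (ν : Nm.{u} Ordinal.{u}) : ν.bs.Pairwise (· < ·) := by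
  unfold Nm.bs
  exact (Finset.sortedLT_sort _).pairwise

theorem asg_map (c0 cc : Ordinal.{u} → Ordinal.{u}) {bs : List Ordinal.{u}} {i : Ordinal.{u}}
    (h : i ∈ bs) : asg c0 bs (bs.map cc) i = cc i := by
  have hj : bs.idxOf i < bs.length := List.idxOf_lt_length_iff.2 h
  rw [GoodN_asg_mem c0 _ h, List.getD_eq_getElem _ _ (by simpa using hj), List.getElem_map,
    List.getElem_idxOf]

theorem srcG_map (cc : Ordinal.{u} → Ordinal.{u}) :
    srcG S A μ β P e ν (ν.bs.map cc) = (SR S A μ β P e cc).den ν 0 := by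
  unfold srcG
  rw [sr_den_congr (c2 := cc) fun i hi => asg_map _ cc (Nm.mem_bs.2 hi)]

theorem GoodN_asg_append (c0 : Ordinal.{u} → Ordinal.{u}) {bs0 bs1 l0 : List Ordinal.{u}}
    (l1 : List Ordinal.{u}) (hd : ∀ i ∈ bs0, i ∉ bs1) (hl : l0.length = bs0.length) :
    asg c0 (bs0 ++ bs1) (l0 ++ l1) = asg (asg c0 bs0 l0) bs1 l1 := by
  funext i
  by_cases h1 : i ∈ bs1
  · have h0 : i ∉ bs0 := fun h => hd i h h1
    rw [GoodN_asg_mem _ _ h1, GoodN_asg_mem _ _ (List.mem_append_right _ h1),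
      List.idxOf_append_of_notMem h0, List.getD_append_right _ _ _ _ (by omega)]
    congr 1
    omega
  · rw [GoodN_asg_not _ _ h1]
    by_cases h0 : i ∈ bs0
    · have hj : bs0.idxOf i < bs0.length := List.idxOf_lt_length_iff.2 h0
      rw [GoodN_asg_mem _ _ h0, GoodN_asg_mem _ _ (List.mem_append_left _ h0),
        List.idxOf_append_of_mem h0, List.getD_append _ _ _ _ (by omega)]
    · rw [GoodN_asg_not _ _ h0, GoodN_asg_not _ _ (by simp [h0, h1])]

theorem Src.good_T1 (h : Src S A μ β c Y P e) (hν : ν.Ok c.k c.fl (Iio μ) (Iio ω₁))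
    (h1 : ν.T1 c.fl) {c0 : Ordinal.{u} → Ordinal.{u}} (h0 : ∀ i, c0 i < μ)
    (bs : List Ordinal.{u}) :
    GoodF A μ bs.length fun l => (SR S A μ β P e (asg c0 bs l)).den ν 0 := by
  obtain ⟨hreg, hu, hom⟩ := h.reg
  by_cases hβ : μ < β
  swap
  · refine (goodF_const hreg hu ((SR S A μ β P e c0).den ν 0)).congr fun l _ => ?_
    rw [sr_den_of_not hβ c0 (asg c0 bs l)]
  obtain ⟨t, Ls, ht, hLs, hden⟩ := exists_leaves hν
  set q : List Code.{u} := Ls.map fun n => (SR S A μ β P e c0).den n 0 with hq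
  have hqin : ∀ x ∈ q, x.In β := by
    intro x hx
    obtain ⟨n, hn, rfl⟩ := List.mem_map.1 hx
    exact h.den_in ((hLs n hn).1.mono subset_rfl hν.2.2) h0 0
  have key : ∀ n : Nm.{u} Ordinal.{u}, ∃ i : ℕ, n ∈ Ls → ∀ l, Dom μ bs.length l →
      ofL (l.map od ++ q) i = (SR S A μ β P e (asg c0 bs l)).den n 0 := by
    intro n
    by_cases hn : n ∈ Ls
    swap
    · exact ⟨0, fun h => absurd h hn⟩
    have hfix : (∀ i ∈ n.bix, i ∉ bs) → ∃ i : ℕ, n ∈ Ls → ∀ l, Dom μ bs.length l →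
        ofL (l.map od ++ q) i = (SR S A μ β P e (asg c0 bs l)).den n 0 := by
      intro hb
      obtain ⟨j, hj, hjn⟩ := List.getElem_of_mem hn
      refine ⟨j + bs.length, fun _ l hl => ?_⟩
      have e1 : bs.length = (l.map od : List Code.{u}).length := by
        rw [List.length_map, hl.1]
      rw [ofL_append, e1, apL_add, ofL_apply,
        List.getD_eq_getElem _ _ (by rw [hq, List.length_map]; exact hj),
        sr_den_congr (c2 := c0) fun i hi => GoodN_asg_not c0 l (hb i hi)]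
      simp only [hq, List.getElem_map, hjn]
    rcases (hLs n hn).2.2 with ho | ⟨η, rfl⟩ | ⟨hno, -⟩
    · exact hfix (by simp [ho.bix])
    · by_cases hη : η ∈ bs
      · have hj : bs.idxOf η < bs.length := List.idxOf_lt_length_iff.2 hη
        refine ⟨bs.idxOf η, fun _ l hl => ?_⟩
        have hj' : bs.idxOf η < l.length := by rw [hl.1]; exact hj
        rw [ofL_append, apL_lt _ _ (by rw [List.length_map]; exact hj'),
          den_b_of_lt (R := SR S A μ β P e (asg c0 bs l)) hβ, List.getElem_map]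
        change od l[bs.idxOf η] = od ((SR S A μ β P e (asg c0 bs l)).e μ η)
        rw [sr_e0, GoodN_asg_mem c0 l hη, List.getD_eq_getElem _ _ hj']
      · exact hfix (by simpa [Nm.bix] using hη)
    · exact absurd h1 hno
  choose f hf using key
  refine (h.hh hβ (.comp t (Trm.sel (Ls.map f))) ?_ q hqin bs.length).congr fun l hl => ?_
  · change max t.depth (Trm.sel (Ls.map f)).depth ≤ c.k
    rw [depth_sel]
    exact max_le ht (Nat.zero_le _)
  · rw [ev_comp, ev_sel, hden (SR S A μ β P e (asg c0 bs l)), List.map_map]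
    have : Ls.map (ofL (l.map od ++ q) ∘ f) =
        Ls.map fun n => (SR S A μ β P e (asg c0 bs l)).den n 0 :=
      List.map_congr_left fun n hn => hf n hn l hl
    rw [this]
    rfl

theorem Src.good_name (h : Src S A μ β c Y P e) (hν : ν.Ok c.k c.fl (Iio μ) (Iio ω₁))
    {c0 : Ordinal.{u} → Ordinal.{u}} (h0 : ∀ i, c0 i < μ) (bs : List Ordinal.{u}) :
    GoodF A μ bs.length fun l => (SR S A μ β P e (asg c0 bs l)).den ν 0 := by
  obtain ⟨hreg, hu, hom⟩ := h.reg
  set C : Set Ordinal.{u} := {ξ | ξ ∈ ν.cs} with hCdef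
  have hC : C ⊆ Iio μ := fun ξ hξ => hν.2.1 ξ hξ
  have hνC : ν.Ok c.k c.fl C (Iio ω₁) := ⟨hν.1, fun ξ hξ => hξ, hν.2.2⟩
  have hfew : Few μ {n : Nm.{u} Ordinal.{u} | n.Ok c.k c.fl C ν.idx} :=
    few_names hreg (few_finite hreg (List.finite_toSet ν.cs)) (few_finite hreg ν.idx_finite)
  let Q : Nm.{u} Ordinal.{u} × Nm.{u} Ordinal.{u} → Prop := fun p =>
    p.1.T1 c.fl ∧ p.2.T1 c.fl ∧ p.1.Ok c.k c.fl C ν.idx ∧ p.2.Ok c.k c.fl C ν.idx ∧
      ∀ c' : Ordinal.{u} → Ordinal.{u}, (∀ i, c' i < μ) → (SR S A μ β P e c').Tr p.1 →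
        (∀ y ∈ Y, (SR S A μ β P e c').den ν 0 = y → (SR S A μ β P e c').den p.2 0 = y) ∧
        ((SR S A μ β P e c').Tr p.2 → (SR S A μ β P e c').Tr ν)
  have hJ : Few μ {p // Q p} := by
    refine (Few.prod hreg hfew hfew).of_inj
      (fun p : {p // Q p} => (⟨p.1.1, p.2.2.2.1⟩, ⟨p.1.2, p.2.2.2.2.1⟩)) ?_
    intro p p' hp
    simp only [Prod.mk.injEq, Subtype.mk.injEq] at hp
    exact Subtype.ext (Prod.ext hp.1 hp.2)
  have hY : ∀ z < μ, od z ∈ Y := fun z hz => h.fh.y.small z hz.le (lt_of_lt_of_le hz h.fh.le)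
  refine goodR_pieces hreg hu hJ
    (P := fun p l => (SR S A μ β P e (asg c0 bs l)).den p.1.1 0 = tt)
    (W := fun p l z => (SR S A μ β P e (asg c0 bs l)).den p.1.2 0 = od z) ?_ ?_ ?_ ?_ ?_
  · intro p
    exact (h.good_T1 (p.2.2.2.1.mono hC hν.2.2) p.2.1 h0 bs).mn
  · intro p
    exact h.good_T1 (p.2.2.2.2.1.mono hC hν.2.2) p.2.2.1 h0 bs
  · intro l hl
    obtain ⟨χ, ν1, a1, a2, a3, a4, a5, a6⟩ := h.elim hC hνC (asg_lt h0 bs hl.2)
    exact ⟨⟨(χ, ν1), a1, a2, a3, a4, a6⟩, a5⟩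
  · intro p l hl hp
    obtain ⟨b1, b2⟩ := p.2.2.2.2.2 _ (asg_lt h0 bs hl.2) hp
    exact ⟨b1 _ (hY 1 hreg.one_lt), b2⟩
  · intro p l hl hp z hz hv
    exact (p.2.2.2.2.2 _ (asg_lt h0 bs hl.2) hp).1 _ (hY z hz) hv

theorem GoodN_g1 (h : Src S A μ β c Y P e) (hν : ν.Ok c.k c.fl (Iio μ) (Iio ω₁)) :
    AEn A μ ν.bs.length fun l =>
      (srcG S A μ β P e ν l = tt ↔ ν ∈ srcT S A μ β c P e) := by
  obtain ⟨hreg, hu, hom⟩ := h.reg
  have hg : Mn A μ ν.bs.length fun l => srcG S A μ β P e ν l = tt :=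
    (h.good_name hν (c0 := fun _ => 0) (fun _ => hreg.pos) ν.bs).mn
  rcases hg.dec with h1 | h1
  · exact h1.mono fun l _ hl => ⟨fun _ => ⟨hν, h1⟩, fun _ => hl⟩
  · exact h1.mono fun l _ hl => ⟨fun h2 => absurd h2 hl, fun h2 => absurd h1 (h2.2.not_not hu)⟩

theorem GoodN_g2 (h : Src S A μ β c Y P e) (hν : ν.Ok c.k c.fl (Iio μ) (Iio ω₁)) (m : ℕ) :
    ∃ Z : List Ordinal.{u} → Ordinal.{u}, AEn A μ ν.bs.length fun l => m ≤ ν.bs.length →
      ∀ z < μ, srcG S A μ β P e ν l = od z → (∀ x ∈ (l.drop m).head?, z < x) →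
        z = Z (l.take m) := by
  obtain ⟨hreg, hu, hom⟩ := h.reg
  by_cases hm : m ≤ ν.bs.length
  swap
  · exact ⟨fun _ => 0, AEn.of_forall hreg.pos fun l _ h' => absurd h' hm⟩
  have hsplit : ν.bs = ν.bs.take m ++ ν.bs.drop m := (List.take_append_drop m ν.bs).symm
  have hdisj : ∀ i ∈ ν.bs.take m, i ∉ ν.bs.drop m := by
    intro i h1 h2
    have hs := ν.bs_sorted
    rw [hsplit, List.pairwise_append] at hs
    exact lt_irrefl _ (hs.2.2 i h1 i h2)
  have hlen0 : (ν.bs.take m).length = m := by rw [List.length_take]; omega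
  have key : ∀ l0 : List Ordinal.{u}, ∃ z0, Dom μ m l0 → AEn A μ (ν.bs.drop m).length fun l1 =>
      ∀ z < μ, srcG S A μ β P e ν (l0 ++ l1) = od z → (∀ x ∈ l1.head?, z < x) → z = z0 := by
    intro l0
    by_cases hl0 : Dom μ m l0
    swap
    · exact ⟨0, fun h' => absurd h' hl0⟩
    obtain ⟨z0, hz0⟩ := (h.good_name hν (c0 := asg (fun _ => 0) (ν.bs.take m) l0)
      (asg_lt (fun _ => hreg.pos) _ hl0.2) (ν.bs.drop m)).2
    refine ⟨z0, fun _ => hz0.mono fun l1 _ hl1 z hz hv => hl1 z hz ?_⟩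
    beta_reduce
    rw [← GoodN_asg_append _ l1 hdisj (hl0.1.trans hlen0.symm), ← hsplit]
    exact hv
  choose Z hZ using key
  refine ⟨Z, ?_⟩
  have hlen : ν.bs.length = m + (ν.bs.drop m).length := by rw [List.length_drop]; omega
  have : AEn A μ (m + (ν.bs.drop m).length) fun l =>
      ∀ z < μ, srcG S A μ β P e ν l = od z → (∀ x ∈ (l.drop m).head?, z < x) →
        z = Z (l.take m) := by
    rw [aen_append]
    refine AEn.of_forall hreg.pos fun l0 hl0 => (hZ l0 hl0).mono fun l1 _ hl1 => ?_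
    rw [List.drop_left' hl0.1, List.take_left' hl0.1]
    exact hl1
  rw [← hlen] at this
  exact this.mono fun l _ hl _ => hl

theorem GoodN_g3 (hμ : 0 < μ) (G : List Ordinal.{u} → Prop) (m n : ℕ) :
    AEn A μ n fun l => m + 1 = n → AE A μ (fun z => G (l.take m ++ [z])) → G l := by
  by_cases hn : m + 1 = n
  swap
  · exact AEn.of_forall hμ fun l _ h' => absurd h' hn
  subst hn
  rw [aen_append]
  refine AEn.of_forall hμ fun l0 hl0 => ?_
  rw [aen_one]
  by_cases hae : AE A μ fun z => G (l0 ++ [z])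
  · exact hae.mono fun z _ hz _ _ => hz
  · refine AE.of_forall hμ fun z _ _ h' => absurd ?_ hae
    rwa [List.take_left' hl0.1] at h'

theorem Src.exists_genC (h : Src S A μ β c Y P e) {C : Set Ordinal.{u}} (hC : C ⊆ Iio μ)
    (hf : Few μ C) : ∃ cc, GenC S A μ β c P e C cc := by
  obtain ⟨hreg, hu, hom⟩ := h.reg
  have hfew : Few μ {n : Nm.{u} Ordinal.{u} | n.Ok c.k c.fl C (Iio ω₁)} :=
    few_names hreg hf (few_Iio hreg hom)
  have hJ : Few μ ({n : Nm.{u} Ordinal.{u} | n.Ok c.k c.fl C (Iio ω₁)} × ℕ) :=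
    Few.prod hreg hfew (few_countable hreg ℕ)
  have hok : ∀ j : {n : Nm.{u} Ordinal.{u} | n.Ok c.k c.fl C (Iio ω₁)} × ℕ,
      j.1.1.Ok c.k c.fl (Iio μ) (Iio ω₁) := fun j => Nm.Ok.mono j.1.2 hC subset_rfl
  choose Z hZ using fun j : {n : Nm.{u} Ordinal.{u} | n.Ok c.k c.fl C (Iio ω₁)} × ℕ =>
    GoodN_g2 h (hok j) j.2
  obtain ⟨cc, hmono, hlt, hR⟩ := exists_gen_seq hreg hu hom hJ (fun j => j.1.1.bs.length) _
    fun j => ((GoodN_g1 h (hok j)).and (hZ j)).and
      (GoodN_g3 (A := A) hreg.pos (fun l => srcG S A μ β P e j.1.1 l = tt) j.2 j.1.1.bs.length)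
  refine ⟨cc, hmono, hlt, ?_, ?_, ?_⟩
  · intro ν hν is hp hi hl
    exact (hR (⟨ν, hν⟩, 0) is hp hi hl).1.1
  · intro ν hν is0
    refine ⟨Z (⟨ν, hν⟩, is0.length) (is0.map cc), fun is1 hp hi hl z hz hv hh => ?_⟩
    have h2 := (hR (⟨ν, hν⟩, is0.length) (is0 ++ is1) hp hi hl).1.2
      (by change is0.length ≤ ν.bs.length; rw [← hl, List.length_append]; omega) z hz hv
    simp only [List.map_append] at h2
    rw [List.drop_left' (List.length_map _), List.take_left' (List.length_map _)] at h2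
    exact h2 hh
  · intro ν hν η hη hle hae
    by_cases hb : η ∈ ν.bix
    swap
    · obtain ⟨z, -, -, hz⟩ := hae.exists hu
      unfold Str.Tr at hz ⊢
      rwa [sr_den_congr (c2 := cc) fun i hi =>
        Function.update_of_ne (fun hi' : i = η => hb (hi' ▸ hi)) z cc] at hz
    obtain ⟨bs0, bs1, hs⟩ := List.append_of_mem (Nm.mem_bs.2 hb)
    have hp := ν.bs_sorted
    have h1 : bs1 = [] := by
      rcases bs1 with _ | ⟨i, bs1⟩
      · rfl
      · exfalso
        have hi : i ∈ ν.bix := Nm.mem_bs.1 (by rw [hs]; simp)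
        rw [hs, List.pairwise_append, List.pairwise_cons] at hp
        exact absurd (hp.2.1.1 i (by simp)) (not_lt.2 (hle i hi))
    subst h1
    have h0 : η ∉ bs0 := by
      intro h0
      rw [hs, List.pairwise_append] at hp
      exact lt_irrefl _ (hp.2.2 η h0 η (by simp))
    have hi : ∀ i ∈ ν.bs, i < ω₁ := fun i hi => lt_of_le_of_lt (hle i (Nm.mem_bs.1 hi)) hη
    have h3 := (hR (⟨ν, hν⟩, bs0.length) ν.bs hp hi rfl).2
      (by change bs0.length + 1 = ν.bs.length; rw [hs]; simp)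
    change AE A μ (fun z => srcG S A μ β P e ν ((ν.bs.map cc).take bs0.length ++ [z]) = tt) →
      srcG S A μ β P e ν (ν.bs.map cc) = tt at h3
    rw [srcG_map] at h3
    refine h3 (hae.mono fun z _ hz => ?_)
    have e1 : (ν.bs.map cc).take bs0.length ++ [z] = ν.bs.map (Function.update cc η z) := by
      rw [hs, List.map_append, List.map_append, List.take_left' (List.length_map _)]
      congr 1
      · exact List.map_congr_left fun i hi =>
          (Function.update_of_ne (fun hi' : i = η => h0 (hi' ▸ hi)) z cc).symm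
      · simp
    rw [e1, srcG_map]
    exact hz

end Pool.Agent.P.MP_833f7a_lc
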