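import Pool.Agent.P.MP_833f7a_lc.Nice
import Pool.Agent.P.MP_833f7a_lc.Flat2

/-!
Limits over upper families.
-/

universe u v w

namespace Pool.Agent.P.MP_833f7a_lc

open Cardinal Ordinal Set Code

namespace TSys

variable {σ : TSys.{u}} {t : Trm}

theorem High_two (h : σ.Ok) {μ' : Ordinal.{u}} (hU : μ' ∈ σ.S) {x : CE.{u}} (h0 : x 0 = od μ')
    (hm : Mn σ.A μ' 2 fun l =>
      ev (tailF σ.S σ.A) t σ.b (ec (od (l.getD 0 0)) x) 0 =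
        ev (tailF σ.S σ.A) t σ.b (ec (od (l.getD 1 0)) x) 0) :
    AE σ.A μ' fun z => AE σ.A μ' fun z' => σ.TwoPt t x (od z) (od z') := by
  rcases two_point (g := fun z => ev (tailF σ.S σ.A) t σ.b (ec (od z) x) 0) (h.bs.reg _ hU)
    (h.bs.unb _ hU) hm with ⟨v, hv⟩ | ⟨h1, h2⟩
  · refine hv.mono fun z _ hz => hv.mono fun z' _ hz' => ⟨fun _ => ?_, fun hne => ?_⟩
    · rw [ev_lim_od t h0, hz]
      exact limF_eq h.reg.2.2.2 ((tailF_iff hU).2 hv)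
    · exact absurd (hz.trans hz'.symm) hne
  · refine h2.mono fun z _ hz => hz.mono fun z' _ hz' => ⟨fun he => absurd he hz', fun _ => ?_⟩
    rw [ev_lim_od t h0]
    exact limF_of_not fun ⟨v, hv⟩ => h1 ⟨v, (tailF_iff hU).1 hv⟩

theorem Ok.high_hi (h : σ.Ok) (hcs : σ.Cs = {x | x.In σ.b}) (hf : Few σ.μ σ.S)
    (hm : ∀ μ', UU σ.S σ.μ σ.b μ' → ∀ x, InE x σ.b → Mn σ.A μ' 2 fun l =>
      ev (tailF σ.S σ.A) t σ.b (ec (od (l.getD 0 0)) x) 0 =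
        ev (tailF σ.S σ.A) t σ.b (ec (od (l.getD 1 0)) x) 0) : σ.High t := by
  intro n n0 Φ E hΦ hn hE
  have hin : ∀ f ∈ Φ, ∀ l, (∀ z ∈ l, z < σ.μ) → (f l).In σ.b := fun f hf l hl =>
    ((hΦ f hf).2 l hl).1
  have key : ∀ j : {μ' // UU σ.S σ.μ σ.b μ'}, ∃ z < j.1, ∃ z' < j.1, ∀ l, (∀ z ∈ l, z < σ.μ) →
      E 0 l = od j.1 → σ.TwoPt t (fun i => E i l) (od z) (od z') := by
    rintro ⟨μ', hU⟩
    have hr := h.bs.reg _ hU.1
    have hu := h.bs.unb _ hU.1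
    have hJ : Few μ' {l : List Ordinal.{u} | (∀ z ∈ l, z ∈ Iio σ.μ) ∧ E 0 l = od μ'} :=
      (Few.lists hr (few_Iio hr hU.2.1)).subset fun _ hl => hl.1
    obtain ⟨z, -, hz, h1⟩ := (ae_all hr hJ fun l => High_two (t := t) h hU.1
      (x := fun i => E i l.1) l.2.2 (hm μ' hU _ fun i => hin _ (hE i) _ l.2.1)).exists hu
    obtain ⟨z', -, hz', h2⟩ := (ae_all hr hJ h1).exists hu
    exact ⟨z, hz, z', hz', fun l hl h0 => h2 ⟨l, hl, h0⟩⟩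
  choose z hz z' hz' H using key
  have hc := h.nice_cst hin hn
  have hcs' : ∀ ξ < σ.b, od ξ ∈ σ.Cs := fun ξ hξ => by rw [hcs]; exact hξ
  refine ⟨{μ' // UU σ.S σ.μ σ.b μ'}, fun j _ => od (z j), fun j _ => od (z' j),
    fun j l => E 0 l = od j.1, Few.subset (s := {μ' | UU σ.S σ.μ σ.b μ'}) hf fun _ hU => hU.1,
    fun j => ?_, fun j N hN => ?_, fun l _ _ μ' hU h0 => ⟨⟨μ', hU⟩, h0⟩,
    fun j l hl _ h0 => H j l hl h0⟩
  · have h1 := hcs' _ ((hz j).trans j.2.2.2)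
    have h2 := hcs' _ ((hz' j).trans j.2.2.2)
    refine ⟨h.qok_cst h1, h.qok_cst h2, hc.mono (union_subset_union_right _ ?_) le_rfl⟩
    rintro f (rfl | rfl)
    exacts [⟨_, h1, rfl⟩, ⟨_, h2, rfl⟩]
  · refine h.mn_eq (f := E 0) (g := fun _ => od j.1) ?_ hc (Or.inl (hE 0))
      (Or.inr ⟨_, hcs' _ j.2.2.2, rfl⟩) hN
    rintro f (hf | ⟨y, hy, rfl⟩) l hl
    exacts [hin f hf l hl, h.cs_in y hy]

theorem High_uv {S : Set Ordinal.{u}} {μ b : Ordinal.{u}}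
    {e : Ordinal.{u} → Ordinal.{u} → Ordinal.{u}} {n : ℕ} {x : Code.{u}}
    (h : uv S μ b e n x ≠ od 0) : ∃ μ', UU S μ b μ' ∧ x = od μ' := by
  cases x with
  | od a =>
    refine ⟨a, ?_, rfl⟩
    by_contra hc
    exact h (if_neg hc)
  | st a t p q => exact absurd rfl h

theorem High_uv_od {S : Set Ordinal.{u}} {μ b μ' : Ordinal.{u}}
    {e : Ordinal.{u} → Ordinal.{u} → Ordinal.{u}} {n : ℕ} (h : UU S μ b μ') :
    uv S μ b e n (od μ') = od (e μ' n) := if_pos h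

theorem Ok.high_lo (h : σ.Ok) {e : Ordinal.{u} → Ordinal.{u} → Ordinal.{u}}
    (hF : FH σ.S σ.A σ.μ σ.b σ.K σ.Cs e) (hX : σ.X = uvs σ.S σ.μ σ.b True e)
    (hJ : σ.J = Fl σ.S σ.A σ.μ σ.b σ.K σ.Cs e) (ht : t.depth ≤ σ.K) : σ.High t := by
  intro n n0 Φ E hΦ hn hE
  obtain ⟨hr, hu, hb, -⟩ := h.reg
  have hin : ∀ f ∈ Φ, ∀ l, (∀ z ∈ l, z < σ.μ) → (f l).In σ.b := fun f hf l hl =>
    ((hΦ f hf).2 l hl).1
  have hx : ∀ k : ℕ, uv σ.S σ.μ σ.b e k ∈ σ.X := fun k => by rw [hX]; exact ⟨trivial, k, rfl⟩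
  have hq : ∀ k < n0 + 2, σ.QOk n (n0 + 2) fun l => uv σ.S σ.μ σ.b e k (E 0 l) := fun k hk =>
    ⟨fun l l' hl => congrArg _ ((hΦ _ (hE 0)).1 l l' hl), fun l _ =>
      ⟨h.x_in _ (hx k) _, by rw [hJ]; exact fl_uv hF hk _⟩⟩
  have hN : σ.Nice n (Φ ∪ {fun l => uv σ.S σ.μ σ.b e n0 (E 0 l),
      fun l => uv σ.S σ.μ σ.b e (n0 + 1) (E 0 l)}) := by
    refine h.nice_add hin hn ?_
    rintro f (rfl | rfl)
    · exact ⟨fun x => uv σ.S σ.μ σ.b e n0 (x 0), E, Or.inr (Or.inr ⟨_, hx _, rfl⟩), hE, rfl⟩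
    · exact ⟨fun x => uv σ.S σ.μ σ.b e (n0 + 1) (x 0), E, Or.inr (Or.inr ⟨_, hx _, rfl⟩), hE, rfl⟩
  have hin' : ∀ f ∈ Φ ∪ {fun l => uv σ.S σ.μ σ.b e n0 (E 0 l),
      fun l => uv σ.S σ.μ σ.b e (n0 + 1) (E 0 l)}, ∀ l, (∀ z ∈ l, z < σ.μ) → (f l).In σ.b := by
    rintro f (hf | rfl | rfl) l hl
    exacts [hin f hf l hl, h.x_in _ (hx _) _, h.x_in _ (hx _) _]
  have hω : ∀ k : ℕ, (k : Ordinal.{u}) < ω₁ := reg_omega1.nat_lt
  refine ⟨PUnit, fun _ l => uv σ.S σ.μ σ.b e n0 (E 0 l),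
    fun _ l => uv σ.S σ.μ σ.b e (n0 + 1) (E 0 l), fun _ l => ¬ uv σ.S σ.μ σ.b e n0 (E 0 l) = od 0,
    few_countable hr _, fun _ => ⟨hq _ (by omega), hq _ (by omega), hN⟩, fun _ N hN' => ?_,
    fun l _ _ μ' hU h0 => ⟨PUnit.unit, ?_⟩, fun _ l hl _ hP => ?_⟩
  · refine Mn.not hr hu (h.mn_eq (f := fun l => uv σ.S σ.μ σ.b e n0 (E 0 l)) (g := fun _ => od 0)
      ?_ (h.nice_cst hin' hN) (Or.inl (Or.inr (Or.inl rfl)))
      (Or.inr ⟨_, h.cs_od 0 zero_le (omega0_pos.trans_le hb), rfl⟩) hN')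
    rintro f (hf | ⟨y, hy, rfl⟩) l hl
    exacts [hin' f hf l hl, h.cs_in y hy]
  · dsimp only
    rw [h0, High_uv_od hU]
    exact fun hc => (pos_of_gt (hF.gen_gt hU (hω n0))).ne' (od.inj hc)
  · obtain ⟨μ', hU, h0⟩ := High_uv hP
    obtain ⟨N, hs⟩ := ev_supp.{u} t 1
    obtain ⟨s, L, hs1, hL, hL', hxL⟩ := fl_env (x := fun i => E i l) (n := n0)
      (fun i => by have := ((hΦ _ (hE i)).2 l hl).2; rwa [hJ] at this) N
    have hev : evI σ.S σ.A σ.b e (.comp t (.cons .id (.comp s .tl))) L =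
        fun z => ev (tailF σ.S σ.A) t σ.b (ec (od z) fun i => E i l) 0 := by
      funext z
      refine hs _ _ _ _ (fun i hi => ?_) 0 one_pos
      cases i with
      | zero => rfl
      | succ i => exact (hxL i (by omega)).symm
    have := hF.coh2flat (t := .comp t (.cons .id (.comp s .tl))) hU
      (Nat.cast_lt.2 (Nat.lt_succ_self n0)) (hω (n0 + 1))
      (by simp only [Trm.depth]; omega) hL fun p hp _ => hL' p hp
    rw [hev] at this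
    simp only [TwoPt]
    rw [ev_lim_od t (μ := μ') h0, h0, High_uv_od hU, High_uv_od hU]
    exact this

end TSys

end Pool.Agent.P.MP_833f7a_lc
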