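import Pool.Agent.P.MP_833f7a_lc.RealS

/-!
The source lemma.
-/

universe u v w

namespace Pool.Agent.P.MP_833f7a_lc

open Cardinal Ordinal Set Code Nm

variable {S A : Set Ordinal.{u}} {μ β : Ordinal.{u}} {c : Cls.{u}} {Y : Set Code.{u}}
  {P : ℕ → Code.{u}} {e : Ordinal.{u} → Ordinal.{u} → Ordinal.{u}}

theorem Source_el_od {F : FSys.{u}} {x : Code.{u}} {a : Ordinal.{u}} (h : El F x (od a)) :
    ∃ z < a, x = od z := by
  unfold El at h
  rw [ElS] at h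
  exact h

theorem Source_ok_cs {k : ℕ} {fl : Prop} {C C' I : Set Ordinal.{u}} {ν : Nm.{u} Ordinal.{u}}
    (h : ν.Ok k fl C I) (hC : ∀ ξ ∈ ν.cs, ξ ∈ C') : ν.Ok k fl C' I := ⟨h.1, hC, h.2.2⟩

theorem Src.good (h : Src S A μ β c Y P e) : Good c μ (srcT S A μ β c P e) where
  ok := fun _ hν => hν.1
  fin := by
    intro l hl
    have hγ : c.γ < μ := h.valid.2.1
    have hC : (Iio c.γ ∪ ↑l : Set Ordinal.{u}) ⊆ Iio μ := by
      rintro ξ (hξ | hξ)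
      · exact lt_trans hξ hγ
      · exact hl ξ hξ
    obtain ⟨cc, hg⟩ := h.exists_genC hC
      (Few.union h.reg.1 (few_Iio h.reg.1 hγ) (few_finite h.reg.1 l.finite_toSet))
    exact ⟨_, h.real subset_union_left hC hg, fun ν hν => hg.tr hν⟩
  std := by
    intro ν ξ hm
    have h0 : ν.Ok c.k c.fl (Iio μ) (Iio ω₁) ∧ ξ < μ := by
      have h1 := ok_cons.1 (ok_op.1 hm.1)
      exact ⟨h1.1, ok_cst.1 h1.2⟩
    have hC : (Iic ξ ∪ {z | z ∈ ν.cs} : Set Ordinal.{u}) ⊆ Iio μ := by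
      rintro z (hz | hz)
      · exact lt_of_le_of_lt hz h0.2
      · exact h0.1.2.1 z hz
    obtain ⟨cc, hg⟩ := h.exists_genC hC
      (Few.union h.reg.1 (few_Iic h.reg.1 h0.2) (few_finite h.reg.1 (List.finite_toSet ν.cs)))
    have hν := Source_ok_cs h0.1 (C' := Iic ξ ∪ {z | z ∈ ν.cs}) fun z hz => Or.inr hz
    have h2 := tr_elN.1 ((hg.tr (ok_op.2 (ok_cons.2 ⟨hν, ok_cst.2 (Or.inl (mem_Iic.2 le_rfl))⟩))).1 hm)
    obtain ⟨z, hz, hv⟩ := Source_el_od (a := ξ) h2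
    refine ⟨z, hz, (hg.tr (ok_op.2 (ok_cons.2 ⟨hν, ok_cst.2 (Or.inl hz.le)⟩))).2 ?_⟩
    exact tr_eqN.2 hv
  wfd := by
    rw [wellFounded_iff_isEmpty_descending_chain]
    refine ⟨fun ⟨f, hf⟩ => ?_⟩
    have h0 : ∀ n, (f n).Ok c.k c.fl (Iio μ) (Iio ω₁) := fun n =>
      (ok_cons.1 (ok_op.1 (hf n).1)).2
    have hC : (⋃ n : ℕ, {z | z ∈ (f n).cs} : Set Ordinal.{u}) ⊆ Iio μ := by
      intro z hz
      obtain ⟨n, hn⟩ := mem_iUnion.1 hz
      exact (h0 n).2.1 z hn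
    obtain ⟨cc, hg⟩ := h.exists_genC hC
      (Few.iUnion h.reg.1 (few_countable h.reg.1 ℕ) fun n =>
        few_finite h.reg.1 (List.finite_toSet (f n).cs))
    have h1 : ∀ n, (f n).Ok c.k c.fl (⋃ n : ℕ, {z | z ∈ (f n).cs}) (Iio ω₁) := fun n =>
      Source_ok_cs (h0 n) fun z hz => mem_iUnion.2 ⟨n, hz⟩
    have h2 : ∀ n, ((SR S A μ β P e cc).den (f (n + 1)) 0).lv <
        ((SR S A μ β P e cc).den (f n) 0).lv := fun n =>
      (tr_elN.1 ((hg.tr (ok_op.2 (ok_cons.2 ⟨h1 (n + 1), h1 n⟩))).1 (hf n))).lv_lt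
    have h3 : WellFounded ((· < ·) : Ordinal.{u} → Ordinal.{u} → Prop) := wellFounded_lt
    rw [wellFounded_iff_isEmpty_descending_chain] at h3
    exact h3.false ⟨fun n => ((SR S A μ β P e cc).den (f n) 0).lv, h2⟩

theorem Src.mem_old {ν : Nm.{u} Ordinal.{u}} (hν : ν.Ok c.k c.fl (Iio μ) (Iio ω₁))
    (ho : ν.Old c.fl) (cc : Ordinal.{u} → Ordinal.{u}) :
    ν ∈ srcT S A μ β c P e ↔ (SR S A μ β P e cc).Tr ν := by
  have hb : ν.bs = [] := by
    refine List.eq_nil_iff_forall_not_mem.2 fun i hi => ?_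
    have h1 := Nm.mem_bs.1 hi
    rw [ho.bix] at h1
    exact List.not_mem_nil h1
  have h1 : srcG S A μ β P e ν [] = (SR S A μ β P e cc).den ν 0 := by
    rw [← srcG_map cc, hb, List.map_nil]
  have h2 : AEn A μ ν.bs.length (fun l => srcG S A μ β P e ν l = tt) ↔
      srcG S A μ β P e ν [] = tt := by
    rw [hb]
    exact Iff.rfl
  constructor
  · intro hm
    have h3 := h2.1 hm.2
    rw [h1] at h3
    exact h3
  · intro ht
    refine ⟨hν, h2.2 ?_⟩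
    rw [h1]
    exact ht

end Pool.Agent.P.MP_833f7a_lc
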