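import Mathlib.Data.List.GetD
import Pool.Agent.P.MP_833f7a_lc.Source
import Pool.Agent.P.MP_833f7a_lc.Amen

/-!
Programs are good on tuples of ordinals, by the source lemma and amenability.
-/

universe u v w

namespace Pool.Agent.P.MP_833f7a_lc

open Cardinal Ordinal Set Code Nm

variable {S A : Set Ordinal.{u}} {l0 μ b : Ordinal.{u}} {k : ℕ} {Y : Set Code.{u}} {fl : Prop}
  {e : Ordinal.{u} → Ordinal.{u} → Ordinal.{u}}

/-- Programs are given by old names. -/
theorem Prog.exists_name (hb : Bs S A) {f : CE.{u} → CE.{u}}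
    (h : Prog S A μ b (okA k) Y fl e f) : ∃ q : List Code.{u}, (∀ y ∈ q, y ∈ Y) ∧
      ∀ (P0 : ℕ → Code.{u}) (r : ℕ), (∀ y ∈ q, ∃ i < r, P0 i = y) →
        ∀ ν : Nm.{u} Ordinal.{u}, ν.Old fl → ν.Ok k fl ∅ (Iio ω₁) →
          ∃ ν' : Nm.{u} Ordinal.{u}, ν'.Old fl ∧ ν'.Ok k fl ∅ (Iio ω₁) ∧
            ∀ P e' cc, (∀ i < r, P i = P0 i) → (fl → e' = e) →
              (SR S A μ b P e' cc).den ν' = f ((SR S A μ b P e' cc).den ν) := by
  induction h with
  | cst y hy =>
    refine ⟨[y], by simpa using hy, fun P0 r hq ν _ _ => ?_⟩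
    obtain ⟨i, hi, hy'⟩ := hq y (List.mem_singleton_self y)
    refine ⟨par i, trivial, ok_par, fun P e' cc hP _ => ?_⟩
    funext j
    exact (hP i hi).trans hy'
  | trm t ht =>
    refine ⟨[], by simp, fun P0 r _ ν ho hν => ⟨app t ν, ho, ok_app.2 ⟨hν, ?_⟩, fun _ _ _ _ _ => rfl⟩⟩
    rcases ht with ht | ⟨ψ, h1, h2⟩
    · exact Or.inl ht
    · exact Or.inr ⟨ψ, h1, h2, ho⟩
  | u n hfl =>
    refine ⟨[], by simp, fun P0 r _ ν ho hν => ⟨Nm.u (n : Ordinal.{u}) ν, ⟨hfl, ho⟩,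
      ok_u.2 ⟨reg_omega1.nat_lt n, ho.t1, hν⟩, fun P e' cc _ he => ?_⟩⟩
    obtain rfl := he hfl
    rw [den_u]
    funext j
    change _ = uv S μ b e' n ((SR S A μ b P e' cc).den ν 0)
    cases (SR S A μ b P e' cc).den ν 0 with
    | od μ' =>
      by_cases hU : UU S μ b μ'
      · simp only [Str.uval, uv, if_pos hU, if_pos ((sr_U hb).2 hU), sr_e hU]
      · simp only [Str.uval, uv, if_neg hU, if_neg fun h => hU ((sr_U hb).1 h)]
    | st a t x y => rfl
  | cons _ _ ih1 ih2 =>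
    obtain ⟨q1, hq1, h1⟩ := ih1
    obtain ⟨q2, hq2, h2⟩ := ih2
    refine ⟨q1 ++ q2, fun y hy => (List.mem_append.1 hy).elim (hq1 y) (hq2 y),
      fun P0 r hq ν ho hν => ?_⟩
    obtain ⟨ν1, ho1, hν1, e1⟩ := h1 P0 r (fun y hy => hq y (List.mem_append_left _ hy)) ν ho hν
    obtain ⟨ν2, ho2, hν2, e2⟩ := h2 P0 r (fun y hy => hq y (List.mem_append_right _ hy)) ν ho hν
    refine ⟨Nm.cons ν1 ν2, ⟨ho1, ho2⟩, ok_cons.2 ⟨hν1, hν2⟩, fun P e' cc hP he => ?_⟩
    rw [den_cons, e1 P e' cc hP he, e2 P e' cc hP he]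
  | comp _ _ ih1 ih2 =>
    obtain ⟨q1, hq1, h1⟩ := ih1
    obtain ⟨q2, hq2, h2⟩ := ih2
    refine ⟨q1 ++ q2, fun y hy => (List.mem_append.1 hy).elim (hq1 y) (hq2 y),
      fun P0 r hq ν ho hν => ?_⟩
    obtain ⟨ν2, ho2, hν2, e2⟩ := h2 P0 r (fun y hy => hq y (List.mem_append_right _ hy)) ν ho hν
    obtain ⟨ν1, ho1, hν1, e1⟩ :=
      h1 P0 r (fun y hy => hq y (List.mem_append_left _ hy)) ν2 ho2 hν2
    refine ⟨ν1, ho1, hν1, fun P e' cc hP he => ?_⟩
    rw [e1 P e' cc hP he, e2 P e' cc hP he]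

theorem den_subL {ι : Type v} (R : Str.{u} ι) (r : ℕ) (l : List Ordinal.{u}) (ν : Nm.{u} ι) :
    R.den (subL r l ν) = (R.releaf R.cv fun i => if r ≤ i ∧ i < r + l.length then
      od (R.cv (l.getD (r + l.length - 1 - i) 0)) else R.pv i).den ν := by
  induction l generalizing ν with
  | nil =>
    have : (fun i => if r ≤ i ∧ i < r + ([] : List Ordinal.{u}).length then
        od (R.cv (([] : List Ordinal.{u}).getD (r + ([] : List Ordinal.{u}).length - 1 - i) 0))
        else R.pv i) = R.pv := by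
      funext i
      rw [if_neg]
      simp only [List.length_nil]
      omega
    rw [this]
    rfl
  | cons z l ih =>
    rw [subL, ih, sb]
    refine den_lmap (fun ξ _ => ?_) fun i => ?_
    · rw [if_neg (by simp)]
      rfl
    · by_cases hi : i = r + l.length
      · subst hi
        rw [if_pos rfl, if_pos (by simp)]
        simp [Str.lfv, Str.releaf]
      · have h0 : (Sum.inr i : Leaf.{u}) ≠ Sum.inr (r + l.length) := by simpa using hi
        rw [if_neg h0]
        simp only [Str.lfv, Str.releaf, List.length_cons]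
        by_cases h1 : r ≤ i ∧ i < r + l.length
        · rw [if_pos h1, if_pos (by omega)]
          have : r + (l.length + 1) - 1 - i = (r + l.length - 1 - i) + 1 := by omega
          rw [this, List.getD_cons_succ]
        · rw [if_neg h1, if_neg (by omega)]

theorem Init_old_subL {ι : Type v} (r : ℕ) (l : List Ordinal.{u}) {ν : Nm.{u} ι}
    (h : ν.Old fl) : (subL r l ν).Old fl := by
  induction l generalizing ν with
  | nil => exact h
  | cons z l ih => exact ih ((Nm.old_lmap _).2 h)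

/-- The common part of the two initial statements. -/
theorem Init_core {c : Cls.{u}} {Y' : Set Code.{u}} {P : ℕ → Code.{u}}
    {e' : Ordinal.{u} → Ordinal.{u} → Ordinal.{u}} (h : Src S A μ b c Y' P e') (hP : PP A μ)
    (hr : 1 ≤ c.r) {f : CE.{u} → CE.{u}}
    (hf : ∀ ν : Nm.{u} Ordinal.{u}, ν.Old c.fl → ν.Ok c.k c.fl ∅ (Iio ω₁) →
      ∃ ν' : Nm.{u} Ordinal.{u}, ν'.Old c.fl ∧ ν'.Ok c.k c.fl ∅ (Iio ω₁) ∧
        ∀ P' cc, (∀ i < c.r, P' i = P i) →
          (SR S A μ b P' e' cc).den ν' = f ((SR S A μ b P' e' cc).den ν))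
    (N : ℕ) (is : List ℕ) :
    GoodF A μ N fun l => f (ofL (is.map fun i => od (l.getD i 0))) 0 := by
  obtain ⟨hμ, hA, -⟩ := h.reg
  let a : ℕ → Nm.{u} Ordinal.{u} := fun i =>
    if i < N then par (c.r + N - 1 - i) else op1 .zero (par 0)
  obtain ⟨ν', ho, hν, hd⟩ := hf (lst (is.map a)) (old_lst.2 fun n hn => by
      obtain ⟨i, -, rfl⟩ := List.mem_map.1 hn
      simp only [a]
      split_ifs <;> trivial) (ok_lst.2 fun n hn => by
      obtain ⟨i, -, rfl⟩ := List.mem_map.1 hn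
      simp only [a]
      split_ifs <;> simp)
  have hν' : ν'.Ok c.k c.fl (Iio μ) (Iio ω₁) := hν.mono (empty_subset _) subset_rfl
  refine (goodR_subL hμ hA hP h.valid h.good le_rfl hr N hν').congr hμ.one_lt
    fun l hl z hz => ?_
  have hok : (eqN (subL c.r l ν') (cst z)).Ok c.k c.fl (Iio μ) (Iio ω₁) :=
    ok_op.2 (ok_cons.2 ⟨hν'.subL _ hl.2, ok_cst.2 hz⟩)
  have hold : (eqN (subL c.r l ν') (cst z)).Old c.fl := ⟨Init_old_subL _ _ ho, trivial⟩
  rw [Src.mem_old hok hold fun _ => 0, tr_eqN, den_subL]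
  let P' : ℕ → Code.{u} := fun i => if c.r ≤ i ∧ i < c.r + l.length then
    od (l.getD (c.r + l.length - 1 - i) 0) else P i
  change (SR S A μ b P' e' fun _ => 0).den ν' 0 = od z ↔ _
  rw [hd P' _ fun i hi => if_neg (by omega), den_lst, List.map_map]
  have : ((fun n => (SR S A μ b P' e' fun _ => 0).den n 0) ∘ a) =
      fun i => od (l.getD i 0) := by
    funext i
    have hN := hl.1
    simp only [Function.comp, a]
    split_ifs with hi
    · change P' _ = _
      simp only [P']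
      rw [if_pos (by omega)]
      congr 2
      omega
    · rw [List.getD_eq_default _ _ (by omega)]
      rfl
  rw [this]

open scoped Classical in
/-- The parameters: the family, then the listed codes. -/
noncomputable def Init_P (μ b : Ordinal.{u}) (q : List Code.{u}) : ℕ → Code.{u} :=
  fun i => ((if μ < b then od μ else od 0) :: q).getD i (od 0)

theorem Init_P_mem {q : List Code.{u}} {Z : Set Code.{u}} (h0 : od 0 ∈ Z) (h1 : μ < b → od μ ∈ Z)
    (hq : ∀ y ∈ q, y ∈ Z) (i : ℕ) : Init_P μ b q i ∈ Z := by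
  unfold Init_P
  cases i with
  | zero =>
    rw [List.getD_cons_zero]
    split_ifs with h
    exacts [h1 h, h0]
  | succ i =>
    rw [List.getD_cons_succ]
    rcases lt_or_ge i q.length with h | h
    · rw [List.getD_eq_getElem _ _ h]
      exact hq _ (List.getElem_mem h)
    · rwa [List.getD_eq_default _ _ h]

theorem Init_P_surj (q : List Code.{u}) : ∀ y ∈ q, ∃ i < q.length + 1, Init_P μ b q i = y := by
  intro y hy
  obtain ⟨i, hi, rfl⟩ := List.getElem_of_mem hy
  refine ⟨i + 1, by omega, ?_⟩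
  unfold Init_P
  rw [List.getD_cons_succ, List.getD_eq_getElem _ _ hi]

theorem Init_P_ge (q : List Code.{u}) {i : ℕ} (h : q.length + 1 ≤ i) : Init_P μ b q i = od 0 :=
  List.getD_eq_default _ _ h

theorem Init_P_zero (q : List Code.{u}) (h : μ < b) : Init_P μ b q 0 = od μ := by
  unfold Init_P
  rw [List.getD_cons_zero, if_pos h]

theorem Init_den_old {P : ℕ → Code.{u}} {ν : Nm.{u} Ordinal.{u}} (h : ν.Old False)
    (e1 e2 : Ordinal.{u} → Ordinal.{u} → Ordinal.{u}) (c1 c2 : Ordinal.{u} → Ordinal.{u}) :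
    (SR S A μ b P e1 c1).den ν = (SR S A μ b P e2 c2).den ν := by
  induction ν with
  | lf x => cases x <;> rfl
  | b η => exact h.elim
  | u η g _ => exact h.1.elim
  | app t ν ih => rw [den_app, den_app, ih h]; rfl
  | cons ν ν' ih ih' => rw [den_cons, den_cons, ih h.1, ih' h.2]

theorem init_T (hS : Sys S A l0) (hF : FH S A μ b (k + 1) Y e) (hh : μ < b → HH S A b k μ) :
    InitP S A μ b k Y True e := by
  intro f hf N is
  obtain ⟨q, hq, hn⟩ := hf.exists_name hS.bs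
  obtain ⟨γ, hγ, hω, hg⟩ := hS.gam μ hF.mem
  have hb0 : 0 < b := omega0_pos.trans_le hF.om
  let c : Cls.{u} := ⟨γ, S ∩ Iio γ, A ∩ Iio γ, k, True, μ < b, q.length + 1⟩
  have hk : c.kk = k + 1 := if_pos trivial
  have hsrc : Src S A μ b c Y (Init_P μ b q) e :=
    { fh := hk ▸ hF
      valid := ⟨hω, hγ, inter_subset_right, inter_subset_right⟩
      s0 := rfl
      a0 := rfl
      gam := hg
      hb := Iff.rfl
      py := Init_P_mem (hF.y.small 0 zero_le hb0) (hF.y.small μ le_rfl) hq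
      pz := fun _ hi => Init_P_ge q hi
      p0 := Init_P_zero q
      old := fun h => (h trivial).elim
      hh := hh }
  refine Init_core hsrc (hS.pp μ hF.mem) (Nat.le_add_left _ _) (fun ν ho hν => ?_) N is
  obtain ⟨ν', h1, h2, h3⟩ := hn (Init_P μ b q) (q.length + 1) (Init_P_surj q) ν ho hν
  exact ⟨ν', h1, h2, fun P' cc hP => h3 P' e cc hP fun _ => rfl⟩

theorem init_F (hS : Sys S A l0) (hμ : μ ∈ S) (hle : μ ≤ b) (hh : μ < b → HH S A b k μ)
    (hu : HU S A μ b k) (e : Ordinal.{u} → Ordinal.{u} → Ordinal.{u}) :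
    InitP S A μ b k {x | x.In b} False e := by
  intro f hf N is
  obtain ⟨q, hq, hn⟩ := hf.exists_name hS.bs
  obtain ⟨γ, hγ, hω, hg⟩ := hS.gam μ hμ
  have hωb : ω ≤ b := (hS.bs.reg μ hμ).omega_lt.le.trans hle
  have hb0 : 0 < b := omega0_pos.trans_le hωb
  have hPin : ∀ i, (Init_P μ b q i).In b :=
    Init_P_mem (Z := {x | x.In b}) hb0 (fun h => h) hq
  let v : Nm.{u} Ordinal.{u} → Code.{u} := fun ν =>
    (SR S A μ b (Init_P μ b q) (fun _ _ => 0) fun _ => 0).den ν 0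
  let Y' : Set Code.{u} := od '' {ξ | ξ ≤ μ ∧ ξ < b} ∪ od '' {μ' | UU S μ b μ'} ∪
    range (Init_P μ b q) ∪ v '' {ν | ν.Ok k False (Iio μ) (Iio ω₁) ∧ ν.Old False}
  have hfewU : ∀ μ', UU S μ b μ' → Few μ' {μ'' | UU S μ b μ''} := fun μ' h' =>
    (hS.few μ' h'.1 ((hS.le μ hμ).trans_lt h'.2.1)).subset fun _ h => h.1
  have hfewY : ∀ μ', UU S μ b μ' → Few μ' Y' := by
    intro μ' h'
    have hr := hS.bs.reg μ' h'.1
    refine Few.union hr (Few.union hr (Few.union hr ?_ ((hfewU μ' h').image _))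
      ((few_countable hr ℕ).range _)) ?_
    · exact ((few_Iic hr h'.2.1).subset fun _ h => h.1).image _
    · exact ((few_names hr (few_Iio hr h'.2.1) (few_Iio hr (hS.bs.om μ' h'.1))).subset
        fun _ h => h.1).image _
  have hY : YOk S μ b Y' :=
    { sub := by
        rintro y (((⟨ξ, h, rfl⟩ | ⟨ξ, h, rfl⟩) | ⟨i, rfl⟩) | ⟨ν, h, rfl⟩)
        · exact h.2
        · exact h.2.2
        · exact hPin i
        · refine den_in (R := SR S A μ b (Init_P μ b q) (fun _ _ => 0) fun _ => 0) hωb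
            (fun ξ hξ => lt_of_lt_of_le (h.1.2.1 ξ hξ) hle) hPin ?_ 0
          rintro μ' - i ⟨g, hi⟩
          rw [h.2.occ_nil not_false] at hi
          exact absurd hi List.not_mem_nil
      small := fun ξ h1 h2 => Or.inl (Or.inl (Or.inl ⟨ξ, ⟨h1, h2⟩, rfl⟩))
      up := fun μ' h' => Or.inl (Or.inl (Or.inr ⟨μ', h', rfl⟩)) }
  obtain ⟨e', he'⟩ := exists_gen hS.bs hfewY hfewU k
  let c : Cls.{u} := ⟨γ, S ∩ Iio γ, A ∩ Iio γ, k, False, μ < b, q.length + 1⟩
  have hk : c.kk = k := if_neg not_false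
  have hF : FH S A μ b k Y' e' := ⟨hS.bs, hμ, hle, hY, he', hu⟩
  have hsrc : Src S A μ b c Y' (Init_P μ b q) e' :=
    { fh := hk ▸ hF
      valid := ⟨hω, hγ, inter_subset_right, inter_subset_right⟩
      s0 := rfl
      a0 := rfl
      gam := hg
      hb := Iff.rfl
      py := fun i => Or.inl (Or.inr ⟨i, rfl⟩)
      pz := fun _ hi => Init_P_ge q hi
      p0 := Init_P_zero q
      old := fun _ ν hν ho cc => Or.inr ⟨ν, ⟨hν, ho⟩, congrFun (Init_den_old ho _ _ _ _) 0⟩
      hh := hh }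
  refine Init_core hsrc (hS.pp μ hμ) (Nat.le_add_left _ _) (fun ν ho hν => ?_) N is
  obtain ⟨ν', h1, h2, h3⟩ := hn (Init_P μ b q) (q.length + 1) (Init_P_surj q) ν ho hν
  exact ⟨ν', h1, h2, fun P' cc hP => h3 P' e' cc hP False.elim⟩

end Pool.Agent.P.MP_833f7a_lc
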