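import Pool.Agent.P.MP_833f7a_lc.SysB1

/-!
The test system for `(b0 + 1, 0)`.
-/

universe u v w

namespace Pool.Agent.P.MP_833f7a_lc

open Cardinal Ordinal Set Code

variable {S A : Set Ordinal.{u}} {μ b0 : Ordinal.{u}} {Yb Cs : Set Code.{u}} {fl : Prop}
  {e : Ordinal.{u} → Ordinal.{u} → Ordinal.{u}} {J : ℕ → Code.{u} → Prop}

theorem exists_typ (b0 : Ordinal.{u}) (y : Code.{u}) : ∃ n : ℕ, Dc b0 1 y = od n := by
  by_cases h : y.In b0
  · exact ⟨0, by simp [Dc, h]⟩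
  · cases y with
    | od a => exact ⟨1, by simp only [Dc, h, if_false, one_ne_zero, if_true, Code.typ]; simp⟩
    | st a t p q =>
      exact ⟨t.num + 2, by simp only [Dc, h, if_false, one_ne_zero, if_true, Code.typ]⟩

theorem SysB_DD (b0 : Ordinal.{u}) (x : CE.{u}) (i : ℕ) {j : ℕ} (hj : j < 4) :
    DD b0 x (4 * i + j) = Dc b0 j (x i) := by
  have h1 : (4 * i + j) % 4 = j := by omega
  have h2 : (4 * i + j) / 4 = i := by omega
  simp only [DD, h1, h2]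

theorem SysB_pos (H : TH b0 Yb) : 0 < b0 := omega0_pos.trans_le H.om

section
variable {F : FSys.{u}} {f g h : CE.{u} → Code.{u}}

/-- Decoding of the entry `i` on the piece where its type is `n`. -/
theorem SysB_dec (F : FSys.{u}) (b0 : Ordinal.{u}) (Yb : Set Code.{u}) (n i : ℕ) :
    ∃ f, SysB1_XD F b0 Yb f ∧ ∀ x : CE.{u}, InE x (b0 + 1) → Dc b0 1 (x i) = od n →
      f (DD b0 x) = x i := by
  obtain ⟨f, hf, h⟩ := SysB1_dec F b0 Yb n (4 * i)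
  exact ⟨f, hf, fun x hx hn => h (x i) (DD b0 x) (hx i) hn (SysB_DD b0 x i (j := 0) (by omega))
    (SysB_DD b0 x i (by omega)) (SysB_DD b0 x i (by omega))⟩

theorem SysB_low_or (hg : SysB1_XD F b0 Yb g) :
    TD F b0 Yb g ∨ ∀ e, InE e b0 → ∀ a ≤ b0, ¬ (g e).In a := by
  rcases hg with hg | hg | ⟨t, p, q, -, -, hg⟩
  · exact Or.inl hg
  · exact Or.inr fun e he a ha h1 => SysB1_not_in_od (by rw [← hg e he]; exact h1.mono ha)
  · exact Or.inr fun e he a ha h1 => SysB1_not_in_st (by rw [← hg e he]; exact h1.mono ha)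

theorem SysB_cutc_top {z y : Code.{u}} (hz : z.In (b0 + 1)) (hy : ∀ a ≤ b0, ¬ y.In a) :
    cutc z y = od 0 := by
  cases z with
  | od a =>
    have h1 : a ≤ b0 := by
      have h2 : a < b0 + 1 := hz
      rwa [← Order.succ_eq_add_one, Order.lt_succ_iff] at h2
    simp only [cutc, hy a h1, if_false]
  | st a t p q => rfl

theorem SysB_mkc_top {t : Trm} {z x y : Code.{u}} (hz : z.In (b0 + 1))
    (hy : (∀ a ≤ b0, ¬ x.In a) ∨ ∀ a ≤ b0, ¬ y.In a) : mkc t z x y = od 0 := by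
  cases z with
  | od a =>
    have h1 : a ≤ b0 := by
      have h2 : a < b0 + 1 := hz
      rwa [← Order.succ_eq_add_one, Order.lt_succ_iff] at h2
    rcases hy with hy | hy
    · simp only [mkc, hy a h1, false_and, and_false, if_false]
    · simp only [mkc, hy a h1, and_false, if_false]
  | st a s p q => rfl

theorem SysB_cutc (H : TH b0 Yb) (hf : SysB1_XD F b0 Yb f) (hg : SysB1_XD F b0 Yb g) :
    SysB1_XD F b0 Yb fun e => cutc (f e) (g e) := by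
  rcases SysB_low_or hg with hg | hg
  · rcases hf with hf | hf | ⟨t, p, q, -, -, hf⟩
    · exact Or.inl ((((TE.cons hf (TE.cons hg TE.id)).ev .cut).entry 0).congr fun _ _ => rfl)
    · exact Or.inl (hg.congr fun e he => by simp only [hf e he, cutc, hg.isIn H he, if_true])
    · exact Or.inl (TD.zero.congr fun e he => by rw [hf e he]; rfl)
  · exact Or.inl (TD.zero.congr fun e he => (SysB_cutc_top (SysB1_isIn H hf he) (hg e he)).symm)

theorem SysB_mkc (H : TH b0 Yb) (t : Trm) (hf : SysB1_XD F b0 Yb f) (hg : SysB1_XD F b0 Yb g)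
    (hh : SysB1_XD F b0 Yb h) : SysB1_XD F b0 Yb fun e => mkc t (f e) (g e) (h e) := by
  rcases SysB_low_or hg with hg | hg
  swap
  · exact Or.inl (TD.zero.congr fun e he =>
      (SysB_mkc_top (SysB1_isIn H hf he) (Or.inl (hg e he))).symm)
  rcases SysB_low_or hh with hh | hh
  swap
  · exact Or.inl (TD.zero.congr fun e he =>
      (SysB_mkc_top (SysB1_isIn H hf he) (Or.inr (hh e he))).symm)
  rcases hf with hf | hf | ⟨s, p, q, -, -, hf⟩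
  · exact Or.inl ((((TE.cons hf (TE.cons hg (TE.cons hh TE.id))).ev (.mk t)).entry 0).congr
      fun _ _ => rfl)
  · exact Or.inr (Or.inr ⟨t, g, h, hg, hh, fun e he => by
      simp only [hf e he, mkc, H.om, hg.isIn H he, hh.isIn H he, and_self, if_true]⟩)
  · exact Or.inl (TD.zero.congr fun e he => by rw [hf e he]; rfl)

/-- Evaluation on a reindexed environment. -/
theorem SysB_reidx (s : Trm) (φ : ℕ → ℕ) (i : ℕ) :
    TD F b0 Yb fun e => ev F s b0 (fun k => e (φ k)) i := by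
  obtain ⟨n, hn⟩ := ev_supp s (i + 1)
  have h1 : TE F b0 Yb (ev F (Trm.sel ((List.range n).map φ)) b0) := TE.trm _
  refine ((h1.ev s).entry i).congr fun e _ => hn F b0 _ _ (fun k hk => ?_) i (Nat.lt_succ_self i)
  rw [ev_sel, List.map_map]
  exact ofL_range_apply (fun k => e (φ k)) hk

theorem SysB_cutc_Dc {a : Ordinal.{u}} (ha : a ≤ b0) (y : Code.{u}) :
    cutc (od a) (Dc b0 0 y) = cutc (od a) y := by
  by_cases hy : y.In b0
  · simp only [Dc, hy, if_true]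
  · have h1 : ¬ y.In a := fun h2 => hy (h2.mono ha)
    simp only [Dc, hy, if_false, if_true, cutc, h1, ite_self]

theorem SysB_lowc (H : TH b0 Yb) (s : Trm) (n i : ℕ) :
    ∃ g, TD F b0 Yb g ∧ ∀ x : CE.{u}, InE x (b0 + 1) → Dc b0 1 (x 0) = od n →
      ev F (.low s) (b0 + 1) x i = g (DD b0 x) := by
  obtain ⟨f, hf, h⟩ := SysB_dec F b0 Yb n 0
  have hD : ∀ (x : CE.{u}) (k : ℕ), DD b0 x (4 * k) = Dc b0 0 (x k) := fun x k =>
    SysB_DD b0 x k (j := 0) (by omega)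
  rcases hf with hf | hf | ⟨t, p, q, -, -, hf⟩
  · refine ⟨_, SysB_reidx (.low s) (fun k => 4 * k) i, fun x hx hn => ?_⟩
    have h1 : (x 0).In b0 := by
      rw [← h x hx hn]
      exact hf.isIn H (DD_in H.om hx)
    have h2 : Dc b0 0 (x 0) = x 0 := by simp only [Dc, h1, if_true]
    simp only [ev_low, hD, h2]
    cases h3 : x 0 with
    | od a =>
      have h4 : cutE (fun k => Dc b0 0 (x k)) = cutE x := by
        funext k
        show cutc (Dc b0 0 (x 0)) (Dc b0 0 (x (k + 1))) = cutc (x 0) (x (k + 1))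
        rw [h2, h3]
        rw [h3] at h1
        exact SysB_cutc_Dc (le_of_lt h1) _
      rw [h4]
    | st a t p q => rfl
  · refine ⟨_, SysB_reidx s (fun k => 4 * (k + 1)) i, fun x hx hn => ?_⟩
    have h1 : x 0 = od b0 := by rw [← h x hx hn, hf _ (DD_in H.om hx)]
    have h4 : (fun k => Dc b0 0 (x (k + 1))) = cutE x := by
      funext k
      by_cases h5 : (x (k + 1)).In b0
      · simp only [cutE, h1, cutc, Dc, h5, if_true]
      · simp only [cutE, h1, cutc, Dc, h5, if_true, if_false]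
    simp only [ev_low, hD, h1, lowc, H.om, if_true, h4]
  · refine ⟨_, TD.zero, fun x hx hn => ?_⟩
    have h1 : x 0 = st b0 t (p (DD b0 x)) (q (DD b0 x)) := by
      rw [← hf _ (DD_in H.om hx), h x hx hn]
    rw [ev_low, h1]
    rfl

theorem SysB_xd (H : TH b0 Yb) (hn : ∀ n : ℕ, od n ∈ Yb) {t : Trm} (ht : BasT 0 t) (i : ℕ) :
    ∃ i0 i1 i2 : ℕ, ∀ n0 n1 n2 : ℕ, ∃ g, SysB1_XD F b0 Yb g ∧ ∀ x, InE x (b0 + 1) →
      Dc b0 1 (x i0) = od n0 → Dc b0 1 (x i1) = od n1 → Dc b0 1 (x i2) = od n2 →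
      ev F t (b0 + 1) x i = g (DD b0 x) := by
  rcases ht with rfl | ⟨o, rfl⟩ | ⟨s, rfl⟩ | ⟨s, rfl⟩ | ⟨ψ, -, h⟩
  · refine ⟨0, i + 1, 0, fun n0 n1 _ => ?_⟩
    obtain ⟨f0, hf0, h0⟩ := SysB_dec F b0 Yb n0 0
    obtain ⟨f1, hf1, h1⟩ := SysB_dec F b0 Yb n1 (i + 1)
    refine ⟨_, SysB_cutc H hf0 hf1, fun x hx e0 e1 _ => ?_⟩
    simp only [h0 x hx e0, h1 x hx e1]
    rfl
  · refine ⟨0, 1, 0, fun n0 n1 _ => ?_⟩
    obtain ⟨f0, hf0, h0⟩ := SysB_dec F b0 Yb n0 0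
    obtain ⟨f1, hf1, h1⟩ := SysB_dec F b0 Yb n1 1
    refine ⟨_, SysB1_op H hn o hf0 hf1, fun x hx e0 e1 _ => ?_⟩
    simp only [h0 x hx e0, h1 x hx e1]
    rfl
  · refine ⟨0, 1, 2, fun n0 n1 n2 => ?_⟩
    obtain ⟨f0, hf0, h0⟩ := SysB_dec F b0 Yb n0 0
    obtain ⟨f1, hf1, h1⟩ := SysB_dec F b0 Yb n1 1
    obtain ⟨f2, hf2, h2⟩ := SysB_dec F b0 Yb n2 2
    refine ⟨_, SysB_mkc H s hf0 hf1 hf2, fun x hx e0 e1 e2 => ?_⟩
    simp only [h0 x hx e0, h1 x hx e1, h2 x hx e2]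
    rfl
  · refine ⟨0, 0, 0, fun n0 _ _ => ?_⟩
    obtain ⟨g, hg, h⟩ := SysB_lowc (F := F) H s n0 i
    exact ⟨g, Or.inl hg, fun x hx e0 _ _ => h x hx e0⟩
  · omega

end

/-- The components of the value of a basic term. -/
theorem bas_components {F : FSys.{u}} (H : TH b0 Yb) (hn : ∀ n : ℕ, od n ∈ Yb) {t : Trm}
    (ht : BasT 0 t) (i : ℕ) : ∃ i0 i1 i2 : ℕ, ∀ n0 n1 n2 j : ℕ,
      ∃ g, TD F b0 Yb g ∧ ∀ x, InE x (b0 + 1) → Dc b0 1 (x i0) = od n0 →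
        Dc b0 1 (x i1) = od n1 → Dc b0 1 (x i2) = od n2 →
        Dc b0 j (ev F t (b0 + 1) x i) = g (DD b0 x) := by
  obtain ⟨i0, i1, i2, h⟩ := SysB_xd (F := F) H hn ht i
  refine ⟨i0, i1, i2, fun n0 n1 n2 j => ?_⟩
  obtain ⟨g, hg, h1⟩ := h n0 n1 n2
  exact ⟨_, SysB1_Dc H hn hg j, fun x hx e0 e1 e2 => by rw [h1 x hx e0 e1 e2]⟩

/-- Values computed by a program at level `b0`. -/
def SysB_PV (S A : Set Ordinal.{u}) (μ b0 : Ordinal.{u}) (Yb : Set Code.{u}) (fl : Prop)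
    (e : Ordinal.{u} → Ordinal.{u} → Ordinal.{u}) (h : CE.{u} → Code.{u}) : Prop :=
  ∃ p, Prog S A μ b0 (fun _ => True) Yb fl e p ∧ ∀ x, InE x b0 → p x 0 = h x

theorem SysB_PV_of_TD {h : CE.{u} → Code.{u}} (hh : TD (tailF S A) b0 Yb h) :
    SysB_PV S A μ b0 Yb fl e h := by
  obtain ⟨p, hp, h1⟩ := TE.prog (μ := μ) (fl := fl) (e := e) hh
  exact ⟨p, hp, fun x hx => by rw [h1 x hx]⟩

theorem SysB_chi (H : TH b0 Yb) {P : CE.{u} → Prop} (hP : PD (tailF S A) b0 Yb P) :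
    ∃ χ ∈ TTB S A μ b0 Yb fl e, ∀ x, InE x (b0 + 1) → (χ x = tt ↔ P (DD b0 x)) := by
  obtain ⟨p, hp, h1⟩ := SysB_PV_of_TD (μ := μ) (fl := fl) (e := e) hP
  refine ⟨_, ⟨p, hp, rfl⟩, fun x hx => ?_⟩
  show p (DD b0 x) 0 = tt ↔ _
  rw [h1 _ (DD_in H.om hx), bl_eq_tt]

theorem SysB_ext (H : TH b0 Yb) {s : CE.{u} → Code.{u}} (hs : s ∈ TTB S A μ b0 Yb fl e)
    {h : ℕ → CE.{u} → Code.{u}} (hh : ∀ j, SysB_PV S A μ b0 Yb fl e (h j)) :
    ∃ s' ∈ TTB S A μ b0 Yb fl e, ∀ x y, InE x (b0 + 1) → (∀ j, Dc b0 j y = h j (DD b0 x)) →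
      s (ec y x) = s' x := by
  obtain ⟨f, hf, rfl⟩ := hs
  choose p hp h1 using hh
  refine ⟨_, ⟨_, hf.comp ((hp 0).cons ((hp 1).cons ((hp 2).cons ((hp 3).cons
    (Prog.trm .id trivial))))), rfl⟩, fun x y hx hy => ?_⟩
  have h2 := DD_in H.om hx
  simp only [DD_ec, apL_cons, apL_nil, hy, h1 _ _ h2, ev_id]

/-- The piece lemma: pieces are indexed by triples of types. -/
theorem SysB_pieces (H : TH b0 Yb) (hn : ∀ n : ℕ, od n ∈ Yb) {s : CE.{u} → Code.{u}}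
    (hs : s ∈ TTB S A μ b0 Yb fl e) {g : CE.{u} → Code.{u}} {i0 i1 i2 : ℕ}
    (hg : ∀ n0 n1 n2 j : ℕ, ∃ h, SysB_PV S A μ b0 Yb fl e h ∧ ∀ x, InE x (b0 + 1) →
      Dc b0 1 (x i0) = od n0 → Dc b0 1 (x i1) = od n1 → Dc b0 1 (x i2) = od n2 →
      Dc b0 j (g x) = h (DD b0 x)) :
    ∃ χ s' : ℕ → CE.{u} → Code.{u},
      (∀ j, χ j ∈ TTB S A μ b0 Yb fl e ∧ s' j ∈ TTB S A μ b0 Yb fl e) ∧ ∀ x, InE x (b0 + 1) →
        (∃ j, χ j x = tt) ∧ ∀ j, χ j x = tt → s (ec (g x) x) = s' j x := by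
  choose h hh h1 using hg
  have h2 : ∀ n0 n1 n2 : ℕ, ∃ χ ∈ TTB S A μ b0 Yb fl e, ∀ x, InE x (b0 + 1) → (χ x = tt ↔
      Dc b0 1 (x i0) = od n0 ∧ Dc b0 1 (x i1) = od n1 ∧ Dc b0 1 (x i2) = od n2) := by
    intro n0 n1 n2
    obtain ⟨χ, hχ, h3⟩ := SysB_chi (S := S) (A := A) (μ := μ) (fl := fl) (e := e) H
      ((PD.eq (TD.var (4 * i0 + 1)) (TD.cst (hn n0))).and
        ((PD.eq (TD.var (4 * i1 + 1)) (TD.cst (hn n1))).and
          (PD.eq (TD.var (4 * i2 + 1)) (TD.cst (hn n2)))))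
    refine ⟨χ, hχ, fun x hx => ?_⟩
    rw [h3 x hx]
    simp only [SysB_DD b0 x _ (show 1 < 4 by omega)]
  choose χ hχ h3 using h2
  choose s' hs' h4 using fun n0 n1 n2 => SysB_ext H hs (hh n0 n1 n2)
  refine ⟨fun j => χ j.unpair.1 j.unpair.2.unpair.1 j.unpair.2.unpair.2,
    fun j => s' j.unpair.1 j.unpair.2.unpair.1 j.unpair.2.unpair.2,
    fun j => ⟨hχ _ _ _, hs' _ _ _⟩, fun x hx => ⟨?_, fun j hj => ?_⟩⟩
  · obtain ⟨n0, e0⟩ := exists_typ b0 (x i0)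
    obtain ⟨n1, e1⟩ := exists_typ b0 (x i1)
    obtain ⟨n2, e2⟩ := exists_typ b0 (x i2)
    refine ⟨Nat.pair n0 (Nat.pair n1 n2), ?_⟩
    simp only [Nat.unpair_pair]
    exact (h3 _ _ _ x hx).2 ⟨e0, e1, e2⟩
  · obtain ⟨e0, e1, e2⟩ := (h3 _ _ _ x hx).1 hj
    exact h4 _ _ _ x _ hx fun k => h1 _ _ _ k x hx e0 e1 e2

theorem SysB_ren (H : TH b0 Yb) (F : FSys.{u}) (is : List ℕ) :
    ∃ G, TE F b0 Yb G ∧ ∀ x, DD b0 (ofL (is.map x)) = G (DD b0 x) := by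
  induction is with
  | nil =>
    refine ⟨_, TD.zero, fun x => ?_⟩
    funext i
    simp [DD, Dc, SysB_pos H]
  | cons i is ih =>
    obtain ⟨G, hG, h⟩ := ih
    refine ⟨_, TE.cons (TD.var (4 * i + 0)) (TE.cons (TD.var (4 * i + 1))
      (TE.cons (TD.var (4 * i + 2)) (TE.cons (TD.var (4 * i + 3)) hG))), fun x => ?_⟩
    rw [List.map_cons, ofL_cons, DD_ec, h x, SysB_DD b0 x i (by omega), SysB_DD b0 x i (by omega),
      SysB_DD b0 x i (by omega), SysB_DD b0 x i (by omega)]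
    rfl

/-- The components of an upper atom. -/
theorem SysB_uv (H : TH b0 Yb) (hfl : fl) (n : ℕ) (h1 : uv S μ (b0 + 1) e n (od b0) ∈ Yb)
    (h2 : ∀ μ', UU S μ b0 μ' → e μ' n < b0) (n0 j : ℕ) :
    ∃ h, SysB_PV S A μ b0 Yb fl e h ∧ ∀ x : CE.{u}, InE x (b0 + 1) → Dc b0 1 (x 0) = od n0 →
      Dc b0 j (uv S μ (b0 + 1) e n (x 0)) = h (DD b0 x) := by
  have key : ∃ h, SysB_PV S A μ b0 Yb fl e h ∧ ∀ x : CE.{u}, InE x (b0 + 1) →
      Dc b0 1 (x 0) = od n0 →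
      (uv S μ (b0 + 1) e n (x 0)).In b0 ∧ uv S μ (b0 + 1) e n (x 0) = h (DD b0 x) := by
    obtain ⟨f, hf, h⟩ := SysB_dec (tailF S A) b0 Yb n0 0
    rcases hf with hf | hf | ⟨t, p, q, -, -, hf⟩
    · refine ⟨fun x => uv S μ b0 e n (x 0), ⟨_, Prog.u n hfl, fun _ _ => rfl⟩, fun x hx hn => ?_⟩
      have h3 : (x 0).In b0 := by
        rw [← h x hx hn]
        exact hf.isIn H (DD_in H.om hx)
      have h4 : DD b0 x 0 = x 0 := by
        show Dc b0 0 (x 0) = x 0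
        simp only [Dc, h3, if_true]
      simp only [h4]
      cases h5 : x 0 with
      | od a =>
        rw [h5] at h3
        by_cases h6 : UU S μ b0 a
        · have h7 : UU S μ (b0 + 1) a := ⟨h6.1, h6.2.1, h6.2.2.trans (lt_add_one b0)⟩
          simp only [uv, h6, h7, if_true, and_true]
          exact h2 a h6
        · have h7 : ¬ UU S μ (b0 + 1) a := fun h8 => h6 ⟨h8.1, h8.2.1, h3⟩
          simp only [uv, h6, h7, if_false, and_true]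
          exact SysB_pos H
      | st a t p q => exact ⟨SysB_pos H, rfl⟩
    · refine ⟨_, SysB_PV_of_TD (TD.cst h1), fun x hx hn => ?_⟩
      have h3 : x 0 = od b0 := by rw [← h x hx hn, hf _ (DD_in H.om hx)]
      rw [h3]
      exact ⟨H.sub _ h1, rfl⟩
    · refine ⟨_, SysB_PV_of_TD TD.zero, fun x hx hn => ?_⟩
      have h3 : x 0 = st b0 t (p (DD b0 x)) (q (DD b0 x)) := by
        rw [← hf _ (DD_in H.om hx), h x hx hn]
      rw [h3]
      exact ⟨SysB_pos H, rfl⟩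
  obtain ⟨h, hh, h3⟩ := key
  by_cases hj : j = 0
  · refine ⟨h, hh, fun x hx hn => ?_⟩
    rw [← (h3 x hx hn).2]
    simp only [Dc, (h3 x hx hn).1, hj, if_true]
  · refine ⟨_, SysB_PV_of_TD TD.zero, fun x hx hn => ?_⟩
    simp only [Dc, (h3 x hx hn).1, hj, if_true, if_false]

theorem tests_B (H : TH b0 Yb) (hle : μ ≤ b0) (hn : ∀ n : ℕ, od n ∈ Yb)
    (hcs : ∀ y ∈ Cs, ∀ j, Dc b0 j y ∈ Yb)
    (hu : fl → ∀ n : ℕ, uv S μ (b0 + 1) e n (od b0) ∈ Yb ∧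
      ∀ μ', UU S μ b0 μ' → e μ' n < b0) :
    TSys.Tests ⟨S, A, μ, b0 + 1, 0, TTB S A μ b0 Yb fl e, Cs, uvs S μ (b0 + 1) fl e, J⟩ := by
  refine ⟨?_, ?_, ?_⟩
  · rintro s ⟨f, hf, rfl⟩ is
    obtain ⟨G, hG, h⟩ := SysB_ren H (tailF S A) is
    obtain ⟨p, hp, h1⟩ := TE.prog (μ := μ) (fl := fl) (e := e) hG
    refine ⟨_, ⟨_, hf.comp hp, rfl⟩, fun x hx => ?_⟩
    show f (p (DD b0 x)) 0 = f (DD b0 (ofL (is.map x))) 0
    rw [h1 _ (DD_in H.om hx), h x]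
  · rintro s hs g (⟨y, hy, rfl⟩ | ⟨t, i, ht, rfl⟩ | ⟨f, ⟨hfl, n, rfl⟩, rfl⟩)
    · exact SysB_pieces H hn hs (i0 := 0) (i1 := 0) (i2 := 0) fun _ _ _ j =>
        ⟨_, SysB_PV_of_TD (TD.cst (hcs y hy j)), fun _ _ _ _ _ => rfl⟩
    · obtain ⟨i0, i1, i2, h⟩ := bas_components (F := tailF S A) H hn ht i
      refine SysB_pieces H hn hs (i0 := i0) (i1 := i1) (i2 := i2) fun n0 n1 n2 j => ?_
      obtain ⟨g, hg, h1⟩ := h n0 n1 n2 j
      exact ⟨g, SysB_PV_of_TD hg, h1⟩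
    · refine SysB_pieces H hn hs (i0 := 0) (i1 := 0) (i2 := 0) fun n0 _ _ j => ?_
      obtain ⟨h, hh, h1⟩ := SysB_uv (A := A) H hfl n (hu hfl n).1 (hu hfl n).2 n0 j
      exact ⟨h, hh, fun x hx e0 _ _ => h1 x hx e0⟩
  · refine ⟨_, ⟨_, Prog.trm .id trivial, rfl⟩, fun x _ => ?_⟩
    have h0 : ∀ y : Code.{u}, y.In b0 → Dc b0 0 y = y := fun y hy => by
      simp only [Dc, hy, if_true]
    have h1 : (tt : Code.{u}).In b0 := one_lt_omega0.trans_le H.om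
    show (x 0 = tt ↔ Dc b0 0 (x 0) = tt) ∧ ∀ z < μ, x 0 = od z → Dc b0 0 (x 0) = od z
    refine ⟨⟨fun h => by rw [h, h0 _ h1], fun h => ?_⟩, fun z hz h => ?_⟩
    · by_cases h2 : (x 0).In b0
      · rwa [h0 _ h2] at h
      · simp only [Dc, h2, if_false, if_true] at h
        exact absurd h.symm tt_ne_zero
    · rw [h, h0 (od z) (hz.trans_le hle)]

end Pool.Agent.P.MP_833f7a_lc
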