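import Pool.Agent.P.MP_833f7a_lc.StepL
import Pool.Agent.P.MP_833f7a_lc.High
import Pool.Agent.P.MP_833f7a_lc.Init
import Pool.Agent.P.MP_833f7a_lc.SysB

/-!
The main induction.
-/

universe u v w

namespace Pool.Agent.P.MP_833f7a_lc

open Cardinal Ordinal Set Code

variable {S A : Set Ordinal.{u}} {l0 μ b : Ordinal.{u}} {k : ℕ}

theorem hh_limit (hb : Order.IsSuccLimit b) (hlt : μ < b)
    (h : ∀ a, μ ≤ a → a < b → HH S A a 0 μ) : HH S A b 0 μ := by
  intro t ht q hq N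
  obtain ⟨a, ha, hqa⟩ := exists_level hb hq
  have h1 := h (max a μ) (le_max_right _ _) (max_lt ha hlt) t ht q
    (fun x hx => (hqa x hx).mono (le_max_left _ _)) N
  refine h1.congr fun l _ => ?_
  rw [ev_depth_zero (Nat.le_zero.1 ht) (max a μ) b]

theorem HInd_gam (hS : Sys S A l0) (hμ : μ ∈ S) : ∃ γ < μ, ∀ μ' ∈ S, μ' < μ → μ' < γ := by
  obtain ⟨γ, h1, -, h2⟩ := hS.gam μ hμ
  exact ⟨γ, h1, h2⟩

/-- The systems for the families above the least one. -/
theorem HInd_hi (hS : Sys S A l0) {b : Ordinal.{u}} {K : ℕ} (p : Ordinal.{u} → Prop)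
    (hp : ∀ μ, p μ → μ ∈ S ∧ l0 < μ ∧ μ ≤ b) (hup : ∀ μ, p μ → ∀ μ', UU S μ b μ' → p μ')
    (TT : Ordinal.{u} → Set (CE.{u} → Code.{u}))
    (htests : ∀ μ, p μ → TSys.Tests ⟨S, A, μ, b, K, TT μ, {x | x.In b},
      uvs S μ b False fun _ _ => 0, fun _ _ => True⟩)
    (hinit : ∀ μ, p μ → TSys.Nice ⟨S, A, μ, b, K, TT μ, {x | x.In b},
      uvs S μ b False fun _ _ => 0, fun _ _ => True⟩ 0 ∅) :
    ∀ μ, p μ → HH S A b K μ := by
  let σ : {μ // p μ} → TSys.{u} := fun i => ⟨S, A, i.1, b, K, TT i.1, {x | x.In b},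
    uvs S i.1 b False fun _ _ => 0, fun _ _ => True⟩
  have hok : ∀ i, (σ i).Ok := fun i =>
    { bs := hS.bs
      mem := (hp _ i.2).1
      le := (hp _ i.2).2.2
      gam := HInd_gam hS (hp _ i.2).1
      cs_in := fun _ h => h
      cs_od := fun _ _ h => h
      x_in := fun _ h => h.1.elim
      j_mono := fun _ _ _ _ _ => trivial
      j_ev := fun _ _ _ _ _ _ _ => trivial
      j_cs := fun _ _ _ => trivial
      tests := htests _ i.2
      init := hinit _ i.2 }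
  have hstep := TSys.step_fam σ (K := K) hok (fun _ => rfl) (fun t ht hs i =>
    (hok i).high_hi rfl (hS.few _ (hp _ i.2).1 (hp _ i.2).2.1) fun μ' hU x hx =>
      (hok ⟨μ', hup _ i.2 μ' hU⟩).step_meas ht (hs _) hx)
  intro μ hμ t ht q hq N
  exact (hok ⟨μ, hμ⟩).step_final ht (hstep t ht _) hq N

theorem hi_depth (hS : Sys S A l0) (h : ∀ μ ∈ S, l0 < μ → μ < b → HH S A b k μ) :
    ∀ μ ∈ S, l0 < μ → μ ≤ b → HH S A b (k + 1) μ := by
  intro μ h1 h2 h3
  refine HInd_hi hS (fun μ => μ ∈ S ∧ l0 < μ ∧ μ ≤ b) (fun _ h => h)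
    (fun μ h μ' hU => ⟨hU.1, h.2.1.trans hU.2.1, hU.2.2.le⟩)
    (fun μ => TTA S A μ b k {x | x.In b} False fun _ _ => 0) (fun _ _ => tests_A)
    (fun μ hμ => nice_A (init_F hS hμ.1 hμ.2.2 (h μ hμ.1 hμ.2.1)
      (fun μ' hU => h μ' hU.1 (hμ.2.1.trans hU.2.1) hU.2.2) _)) μ ⟨h1, h2, h3⟩

theorem hi_succ (hS : Sys S A l0) (h : ∀ k, ∀ μ ∈ S, l0 < μ → μ ≤ b → HH S A b k μ) :
    ∀ μ ∈ S, l0 < μ → μ ≤ b → HH S A (b + 1) 0 μ := by
  intro μ h1 h2 h3
  refine HInd_hi hS (fun μ => μ ∈ S ∧ l0 < μ ∧ μ ≤ b)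
    (fun _ h => ⟨h.1, h.2.1, h.2.2.trans (le_add_right le_rfl)⟩)
    (fun μ h μ' hU => ⟨hU.1, h.2.1.trans hU.2.1, Order.lt_add_one_iff.1 hU.2.2⟩)
    (fun μ => TTB S A μ b {x | x.In b} False fun _ _ => 0) (fun μ hμ => ?_)
    (fun μ hμ => nice_B (hS.bs.reg μ hμ.1).pos hμ.2.2 fun k => init_F hS hμ.1 hμ.2.2
      (fun _ => h k μ hμ.1 hμ.2.1 hμ.2.2)
      (fun μ' hU => h k μ' hU.1 (hμ.2.1.trans hU.2.1) hU.2.2.le) _) μ ⟨h1, h2, h3⟩
  have hω : ω ≤ b := (hS.bs.reg μ hμ.1).omega_lt.le.trans hμ.2.2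
  exact tests_B ⟨hω, fun _ h => h⟩ hμ.2.2
    (fun n => lt_of_lt_of_le (natCast_lt_omega0 n) hω) (fun y hy j => Dc_in hω hy j)
    fun h => h.elim

theorem hh_hi (hS : Sys S A l0) (b : Ordinal.{u}) (k : ℕ) :
    ∀ μ ∈ S, l0 < μ → μ ≤ b → HH S A b k μ := by
  induction b using WellFoundedLT.induction generalizing k with
  | ind b ih =>
    have h0 : ∀ μ ∈ S, l0 < μ → μ < b → HH S A b 0 μ := by
      intro μ h1 h2 h3
      rcases zero_or_succ_or_isSuccLimit b with rfl | ⟨b0, rfl⟩ | hb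
      · exact absurd h3 not_lt_zero
      · exact hi_succ hS (fun k => ih b0 (Order.lt_succ b0) k) μ h1 h2 (Order.lt_succ_iff.1 h3)
      · exact hh_limit hb h3 fun a ha hab => ih a hab 0 μ h1 h2 ha
    have h1 : ∀ k, ∀ μ ∈ S, l0 < μ → μ < b → HH S A b k μ := by
      intro k
      induction k with
      | zero => exact h0
      | succ k ihk => exact fun μ h1 h2 h3 => hi_depth hS ihk μ h1 h2 h3.le
    exact fun μ h2 h3 h4 => (hi_depth hS (h1 k) μ h2 h3 h4).mono (Nat.le_succ k)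

theorem HInd_hu (hS : Sys S A l0) (b : Ordinal.{u}) (K : ℕ) : HU S A l0 b K :=
  fun μ' hU => hh_hi hS b K μ' hU.1 hU.2.1 hU.2.2.le

/-- The parameter set for the least family. -/
theorem HInd_Y (hS : Sys S A l0) (b : Ordinal.{u}) (K : ℕ) (hle : l0 ≤ b) {Z : Set Code.{u}}
    (hZ : Z.Finite) (hin : ∀ y ∈ Z, y.In b) :
    ∃ e, FH S A l0 b K ({x | ∃ ξ, (ξ ≤ l0 ∧ ξ < b ∨ UU S l0 b ξ) ∧ x = od ξ} ∪ Z) e := by
  have hU : ∀ μ', UU S l0 b μ' → Few μ' {μ'' | UU S l0 b μ''} := fun μ' h =>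
    (hS.few μ' h.1 h.2.1).subset fun _ h' => h'.1
  obtain ⟨e, he⟩ := exists_gen (μ := l0) (β := b)
    (Y := {x | ∃ ξ, (ξ ≤ l0 ∧ ξ < b ∨ UU S l0 b ξ) ∧ x = od ξ} ∪ Z) hS.bs (fun μ' h => by
      have hr := hS.bs.reg μ' h.1
      refine Few.union hr ?_ (few_finite hr hZ)
      refine ((Few.union hr (few_Iic hr h.2.1) (hU μ' h)).image od).subset ?_
      rintro _ ⟨ξ, hξ, rfl⟩
      exact ⟨ξ, hξ.imp (fun h => h.1) id, rfl⟩) hU K
  refine ⟨e, hS.bs, hS.mem, hle, ⟨?_, fun ξ h1 h2 => Or.inl ⟨ξ, Or.inl ⟨h1, h2⟩, rfl⟩,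
    fun μ' h => Or.inl ⟨μ', Or.inr h, rfl⟩⟩, he, HInd_hu hS b K⟩
  rintro y (⟨ξ, hξ, rfl⟩ | hy)
  · exact hξ.elim (fun h => h.2) fun h => h.2.2
  · exact hin y hy

theorem HInd_uv_in {K : ℕ} {Y : Set Code.{u}} {e : Ordinal.{u} → Ordinal.{u} → Ordinal.{u}}
    (hF : FH S A μ b K Y e) (n : ℕ) (y : Code.{u}) : (uv S μ b e n y).In b := by
  have h0 : (0 : Ordinal.{u}) < b := lt_of_lt_of_le omega0_pos hF.om
  cases y with
  | od a =>
    simp only [uv]
    split_ifs with h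
    · exact ((hF.gen a h n ((natCast_lt_omega0 n).trans omega0_lt_omega_one)).1).trans h.2.2
    · exact h0
  | st a t x y => exact h0

theorem HInd_lo (hS : Sys S A l0) {K : ℕ} {Y : Set Code.{u}}
    {e : Ordinal.{u} → Ordinal.{u} → Ordinal.{u}} (hF : FH S A l0 b K Y e)
    {TT : Set (CE.{u} → Code.{u})}
    (htests : TSys.Tests ⟨S, A, l0, b, K, TT, Y, uvs S l0 b True e, Fl S A l0 b K Y e⟩)
    (hinit : TSys.Nice ⟨S, A, l0, b, K, TT, Y, uvs S l0 b True e, Fl S A l0 b K Y e⟩ 0 ∅)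
    {t : Trm} (ht : t.depth ≤ K) {q : List Code.{u}} (hq : ∀ y ∈ q, y ∈ Y) (N : ℕ) :
    GoodF A l0 N fun l => ev (tailF S A) t b (ofL (l.map od ++ q)) 0 := by
  let σ : TSys.{u} := ⟨S, A, l0, b, K, TT, Y, uvs S l0 b True e, Fl S A l0 b K Y e⟩
  have hok : σ.Ok :=
    { bs := hS.bs
      mem := hS.mem
      le := hF.le
      gam := HInd_gam hS hS.mem
      cs_in := hF.y.sub
      cs_od := hF.y.small
      x_in := by rintro _ ⟨-, n, rfl⟩ y; exact HInd_uv_in hF n y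
      j_mono := fun _ _ _ hn h => Fl.mono h hn
      j_ev := fun _ ht _ _ _ hx i => fl_ev hx ht i
      j_cs := fun _ _ hy => fl_of_mem hy
      tests := htests
      init := hinit }
  exact hok.step_final ht (TSys.step_fam (fun _ : Unit => σ) (K := K) (fun _ => hok)
    (fun _ => rfl) (fun t ht _ _ => hok.high_lo hF rfl rfl ht) t ht ()) hq N

theorem lo_depth (hS : Sys S A l0) (hle : l0 ≤ b) (h : l0 < b → HH S A b k l0) :
    HH S A b (k + 1) l0 := by
  intro t ht q hq N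
  obtain ⟨e, hF⟩ := HInd_Y hS b (k + 1) hle (List.finite_toSet q) hq
  exact HInd_lo hS hF tests_A (nice_A (init_T hS hF h)) ht (fun y hy => Or.inr hy) N

theorem lo_succ (hS : Sys S A l0) (hle : l0 ≤ b) (h : ∀ k, HH S A b k l0) :
    HH S A (b + 1) 0 l0 := by
  intro t ht q hq N
  have hr := hS.bs.reg l0 hS.mem
  have hω : ω ≤ b := hr.omega_lt.le.trans hle
  have hb1 : b ≤ b + 1 := le_add_right le_rfl
  obtain ⟨e, hF⟩ := HInd_Y hS (b + 1) 0 (hle.trans hb1)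
    (Z := {x | x ∈ od b :: (q ++ q.map Code.q1 ++ q.map Code.q2)}) (List.finite_toSet _) (by
      intro y hy
      simp only [mem_ofPred_eq, List.mem_cons, List.mem_append, List.mem_map] at hy
      rcases hy with rfl | (hy | ⟨x, hx, rfl⟩) | ⟨x, hx, rfl⟩
      · exact Order.lt_add_one_iff.2 le_rfl
      · exact hq y hy
      · exact (hq x hx).q1
      · exact (hq x hx).q2)
  set Y := {x : Code.{u} | ∃ ξ, (ξ ≤ l0 ∧ ξ < b + 1 ∨ UU S l0 (b + 1) ξ) ∧ x = od ξ} ∪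
    {x | x ∈ od b :: (q ++ q.map Code.q1 ++ q.map Code.q2)} with hY
  have hbY : od b ∈ Y := Or.inr (List.mem_cons_self)
  have hdown : ∀ K, FH S A l0 b K (Ydown S l0 b Y e) e := fun K =>
    ⟨hS.bs, hS.mem, hle, (hF.gen_down hle hbY K).1, (hF.gen_down hle hbY K).2, HInd_hu hS b K⟩
  have hnat : ∀ n : ℕ, od n ∈ Ydown S l0 b Y e := fun n =>
    (hdown 0).y.small n (hr.nat_lt n).le (lt_of_lt_of_le (natCast_lt_omega0 n) hω)
  have h0 : od 0 ∈ Ydown S l0 b Y e := by simpa using hnat 0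
  refine HInd_lo hS hF (tests_B ⟨hω, (hdown 0).y.sub⟩ hle hnat ?_ fun _ n =>
    ⟨Or.inr ⟨n, rfl⟩, fun μ' hU => ((hdown 0).gen μ' hU n
      ((natCast_lt_omega0 n).trans omega0_lt_omega_one)).1.trans hU.2.2⟩)
    (nice_B hr.pos hle fun k => init_T hS (hdown (k + 1)) fun _ => h k) ht
    (fun y hy => Or.inr (List.mem_cons_of_mem _
      (List.mem_append_left _ (List.mem_append_left _ hy)))) N
  intro y hy j
  have hin := Dc_in hω (hF.y.sub y hy) j
  unfold Dc at hin ⊢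
  split_ifs at hin ⊢ with h1 h2 h3 h4 h5
  · exact Or.inl ⟨hy, h1⟩
  · exact h0
  · exact h0
  · cases y with
    | od a => simpa [Code.typ] using hnat 1
    | st a s x z => exact hnat _
  all_goals
    cases y with
    | od a => exact h0
    | st a s x z =>
      refine Or.inl ⟨?_, hin⟩
      rcases hy with ⟨ξ, -, hξ⟩ | hy
      · cases hξ
      simp only [mem_ofPred_eq, List.mem_cons, List.mem_append, List.mem_map] at hy
      rcases hy with hy | (hy | ⟨w, hw, hy⟩) | ⟨w, hw, hy⟩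
      · cases hy
      · refine Or.inr ?_
        simp only [mem_ofPred_eq, List.mem_cons, List.mem_append, List.mem_map]
        first
          | exact Or.inr (Or.inl (Or.inr ⟨_, hy, rfl⟩))
          | exact Or.inr (Or.inr ⟨_, hy, rfl⟩)
      all_goals
        exfalso
        apply h1
        rw [← hy]
        have hw' := hq w hw
        cases w with
        | od c => exact lt_of_lt_of_le omega0_pos hω
        | st c s' x' z' =>
          first
            | exact hw'.2.2.1.mono (Order.lt_add_one_iff.1 hw'.2.1)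
            | exact hw'.2.2.2.mono (Order.lt_add_one_iff.1 hw'.2.1)

theorem hh_all (hS : Sys S A l0) (hμ : μ ∈ S) (hle : μ ≤ b) (k : ℕ) : HH S A b k μ := by
  rcases (hS.le μ hμ).eq_or_lt with rfl | hlt
  · induction b using WellFoundedLT.induction generalizing k with
    | ind b ih =>
      have h0 : l0 < b → HH S A b 0 l0 := by
        intro h3
        rcases zero_or_succ_or_isSuccLimit b with rfl | ⟨b0, rfl⟩ | hb
        · exact absurd h3 not_lt_zero
        · exact lo_succ hS (Order.lt_succ_iff.1 h3) fun k =>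
            ih b0 (Order.lt_succ b0) k (Order.lt_succ_iff.1 h3)
        · exact hh_limit hb h3 fun a ha hab => ih a hab 0 ha
      have h1 : ∀ k, l0 < b → HH S A b k l0 := by
        intro k
        induction k with
        | zero => exact h0
        | succ k ihk => exact fun _ => lo_depth hS hle ihk
      exact (lo_depth hS hle (h1 k)).mono (Nat.le_succ k)
  · exact hh_hi hS b k μ hμ hlt hle

end Pool.Agent.P.MP_833f7a_lc
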