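import Pool.Agent.P.MP_833f7a_lc.Names

/-!
Definitions, part 3: the source of good theories and the test systems of the main induction.
-/

universe u

namespace Pool.Agent.P.MP_833f7a_lc

open Cardinal Ordinal Set Code Nm
open scoped Classical

structure Bs (S A : Set Ordinal.{u}) : Prop where
  reg : ∀ μ ∈ S, Reg μ
  unb : ∀ μ ∈ S, Unb A μ
  om : ∀ μ ∈ S, ω₁ < μ

structure Sys (S A : Set Ordinal.{u}) (l0 : Ordinal.{u}) : Prop where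
  bs : Bs S A
  pp : ∀ μ ∈ S, PP A μ
  gam : ∀ μ ∈ S, ∃ γ < μ, ω₁ ≤ γ ∧ ∀ μ' ∈ S, μ' < μ → μ' < γ
  mem : l0 ∈ S
  le : ∀ μ ∈ S, l0 ≤ μ
  few : ∀ μ ∈ S, l0 < μ → Few μ S

/-- Upper families. -/
def UU (S : Set Ordinal.{u}) (μ β μ' : Ordinal.{u}) : Prop := μ' ∈ S ∧ μ < μ' ∧ μ' < β

/-- Items: a code or an atom (family, index). -/
abbrev Itm := Code.{u} ⊕ Ordinal.{u} × Ordinal.{u}

def iv (e : Ordinal.{u} → Ordinal.{u} → Ordinal.{u}) : Itm.{u} → Code.{u}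
  | Sum.inl y => y
  | Sum.inr p => od (e p.1 p.2)

def IOk (S : Set Ordinal.{u}) (μ β : Ordinal.{u}) (Y : Set Code.{u}) : Itm.{u} → Prop
  | Sum.inl y => y ∈ Y
  | Sum.inr p => UU S μ β p.1 ∧ p.2 < ω₁

/-- The value of `t` on the items `L`. -/
noncomputable def evL (S A : Set Ordinal.{u}) (β : Ordinal.{u})
    (e : Ordinal.{u} → Ordinal.{u} → Ordinal.{u}) (t : Trm) (L : List Itm.{u}) : CE.{u} :=
  ev (tailF S A) t β (ofL (L.map (iv e)))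

/-- The value of `t` on the ordinal `z` and the items `L`. -/
noncomputable def evI (S A : Set Ordinal.{u}) (β : Ordinal.{u})
    (e : Ordinal.{u} → Ordinal.{u} → Ordinal.{u}) (t : Trm) (L : List Itm.{u})
    (z : Ordinal.{u}) : Code.{u} :=
  ev (tailF S A) t β (ec (od z) (ofL (L.map (iv e)))) 0

/-- Every atom is generic over `Y` and the lexicographically earlier atoms. -/
def Gen (S A : Set Ordinal.{u}) (μ β : Ordinal.{u}) (K : ℕ) (Y : Set Code.{u})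
    (e : Ordinal.{u} → Ordinal.{u} → Ordinal.{u}) : Prop :=
  ∀ μ', UU S μ β μ' → ∀ η < ω₁, e μ' η < μ' ∧ ∀ t : Trm, t.depth ≤ K → ∀ L : List Itm.{u},
    (∀ x ∈ L, IOk S μ β Y x) → (∀ p, Sum.inr p ∈ L → p.1 < μ' ∨ p.1 = μ' ∧ p.2 < η) →
    AE A μ' (fun z => evI S A β e t L z = tt) → evI S A β e t L (e μ' η) = tt

structure YOk (S : Set Ordinal.{u}) (μ β : Ordinal.{u}) (Y : Set Code.{u}) : Prop where
  sub : ∀ y ∈ Y, y.In β
  small : ∀ ξ ≤ μ, ξ < β → od ξ ∈ Y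
  up : ∀ μ', UU S μ β μ' → od μ' ∈ Y

def HU (S A : Set Ordinal.{u}) (μ β : Ordinal.{u}) (K : ℕ) : Prop :=
  ∀ μ', UU S μ β μ' → HH S A β K μ'

/-- The hypotheses of the lemmas on flat terms. -/
structure FH (S A : Set Ordinal.{u}) (μ β : Ordinal.{u}) (K : ℕ) (Y : Set Code.{u})
    (e : Ordinal.{u} → Ordinal.{u} → Ordinal.{u}) : Prop where
  bs : Bs S A
  mem : μ ∈ S
  le : μ ≤ β
  y : YOk S μ β Y
  gen : Gen S A μ β K Y e
  hu : HU S A μ β K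

/-- Double items: a code or an atom with its old and new index. -/
abbrev DItm := Code.{u} ⊕ Ordinal.{u} × (Ordinal.{u} × Ordinal.{u})

def d1 : DItm.{u} → Itm.{u}
  | Sum.inl y => Sum.inl y
  | Sum.inr p => Sum.inr (p.1, p.2.1)

def d2 : DItm.{u} → Itm.{u}
  | Sum.inl y => Sum.inl y
  | Sum.inr p => Sum.inr (p.1, p.2.2)

def DOk (S : Set Ordinal.{u}) (μ β : Ordinal.{u}) (Y : Set Code.{u}) (L : List DItm.{u}) : Prop :=
  (∀ x ∈ L, IOk S μ β Y (d1 x) ∧ IOk S μ β Y (d2 x)) ∧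
    ∀ μ' p q, Sum.inr (μ', p) ∈ L → Sum.inr (μ', q) ∈ L → (p.1 < q.1 ↔ p.2 < q.2)

/-- The `n`-th atom of the family `x`. -/
noncomputable def uv (S : Set Ordinal.{u}) (μ β : Ordinal.{u})
    (e : Ordinal.{u} → Ordinal.{u} → Ordinal.{u}) (n : ℕ) : Code.{u} → Code.{u}
  | od μ' => if UU S μ β μ' then od (e μ' n) else od 0
  | st _ _ _ _ => od 0

/-- The parameter set one level down. -/
def Ydown (S : Set Ordinal.{u}) (μ b0 : Ordinal.{u}) (Y : Set Code.{u})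
    (e : Ordinal.{u} → Ordinal.{u} → Ordinal.{u}) : Set Code.{u} :=
  {y | y ∈ Y ∧ y.In b0} ∪ {y | ∃ n : ℕ, y = uv S μ (b0 + 1) e n (od b0)}

/-- The source structure with bottom atoms `cc`. -/
noncomputable def SR (S A : Set Ordinal.{u}) (μ β : Ordinal.{u}) (P : ℕ → Code.{u})
    (e : Ordinal.{u} → Ordinal.{u} → Ordinal.{u}) (cc : Ordinal.{u} → Ordinal.{u}) :
    Str.{u} Ordinal.{u} :=
  ⟨tailF S A, β, μ, id, P, fun μ' => if μ' = μ then cc else e μ'⟩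

noncomputable def Cls.kk (c : Cls.{u}) : ℕ := if c.fl then c.k + 1 else c.k

/-- The hypotheses of the source lemma. -/
structure Src (S A : Set Ordinal.{u}) (μ β : Ordinal.{u}) (c : Cls.{u}) (Y : Set Code.{u})
    (P : ℕ → Code.{u}) (e : Ordinal.{u} → Ordinal.{u} → Ordinal.{u}) : Prop where
  fh : FH S A μ β c.kk Y e
  valid : c.Valid μ
  s0 : c.S0 = S ∩ Iio c.γ
  a0 : c.A0 = A ∩ Iio c.γ
  gam : ∀ μ' ∈ S, μ' < μ → μ' < c.γ
  hb : c.hb ↔ μ < β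
  py : ∀ i, P i ∈ Y
  pz : ∀ i, c.r ≤ i → P i = od 0
  p0 : μ < β → P 0 = od μ
  old : ¬ c.fl → ∀ ν : Nm.{u} Ordinal.{u}, ν.Ok c.k c.fl (Iio μ) (Iio ω₁) → ν.Old c.fl →
    ∀ cc, (SR S A μ β P e cc).den ν 0 ∈ Y
  hh : μ < β → HH S A β c.k μ

/-- Give the indices in `bs` the values in `l`, the others as in `c0`. -/
noncomputable def asg (c0 : Ordinal.{u} → Ordinal.{u}) (bs l : List Ordinal.{u}) :
    Ordinal.{u} → Ordinal.{u} := fun i => if i ∈ bs then l.getD (bs.idxOf i) 0 else c0 i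

/-- The increasing list of the bottom indices. -/
noncomputable def Nm.bs (ν : Nm.{u} Ordinal.{u}) : List Ordinal.{u} := ν.bix.toFinset.sort (· ≤ ·)

/-- The value of a name when its bottom atoms get the values in `l`. -/
noncomputable def srcG (S A : Set Ordinal.{u}) (μ β : Ordinal.{u}) (P : ℕ → Code.{u})
    (e : Ordinal.{u} → Ordinal.{u} → Ordinal.{u}) (ν : Nm.{u} Ordinal.{u})
    (l : List Ordinal.{u}) : Code.{u} := (SR S A μ β P e (asg (fun _ => 0) ν.bs l)).den ν 0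

/-- The theory of the source. -/
def srcT (S A : Set Ordinal.{u}) (μ β : Ordinal.{u}) (c : Cls.{u}) (P : ℕ → Code.{u})
    (e : Ordinal.{u} → Ordinal.{u} → Ordinal.{u}) : Set (Nm.{u} Ordinal.{u}) :=
  {ν | ν.Ok c.k c.fl (Iio μ) (Iio ω₁) ∧
    AEn A μ ν.bs.length fun l => srcG S A μ β P e ν l = tt}

/-- Generic bottom atoms for the names with constants in `C`. -/
structure GenC (S A : Set Ordinal.{u}) (μ β : Ordinal.{u}) (c : Cls.{u}) (P : ℕ → Code.{u})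
    (e : Ordinal.{u} → Ordinal.{u} → Ordinal.{u}) (C : Set Ordinal.{u})
    (cc : Ordinal.{u} → Ordinal.{u}) : Prop where
  mono : StrictMonoOn cc (Iio ω₁)
  lt : ∀ i, cc i < μ
  g1 : ∀ ν : Nm.{u} Ordinal.{u}, ν.Ok c.k c.fl C (Iio ω₁) → ∀ is : List Ordinal.{u},
    is.Pairwise (· < ·) → (∀ i ∈ is, i < ω₁) → is.length = ν.bs.length →
    (srcG S A μ β P e ν (is.map cc) = tt ↔ ν ∈ srcT S A μ β c P e)
  g2 : ∀ ν : Nm.{u} Ordinal.{u}, ν.Ok c.k c.fl C (Iio ω₁) → ∀ is0 : List Ordinal.{u}, ∃ z0,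
    ∀ is1 : List Ordinal.{u}, (is0 ++ is1).Pairwise (· < ·) → (∀ i ∈ is0 ++ is1, i < ω₁) →
      (is0 ++ is1).length = ν.bs.length → ∀ z < μ,
        srcG S A μ β P e ν ((is0 ++ is1).map cc) = od z →
        (∀ h ∈ (is1.map cc).head?, z < h) → z = z0
  g3 : ∀ ν : Nm.{u} Ordinal.{u}, ν.Ok c.k c.fl C (Iio ω₁) → ∀ η < ω₁, (∀ i ∈ ν.bix, i ≤ η) →
    AE A μ (fun z => (SR S A μ β P e (Function.update cc η z)).Tr ν) → (SR S A μ β P e cc).Tr ν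

/-! ### Test systems -/

/-- Straight-line programs. -/
inductive Prog (S A : Set Ordinal.{u}) (μ b : Ordinal.{u}) (ok : Trm → Prop) (Y : Set Code.{u})
    (fl : Prop) (e : Ordinal.{u} → Ordinal.{u} → Ordinal.{u}) : (CE.{u} → CE.{u}) → Prop
  | cst (y : Code.{u}) (h : y ∈ Y) : Prog S A μ b ok Y fl e fun _ _ => y
  | trm (t : Trm) (h : ok t) : Prog S A μ b ok Y fl e (ev (tailF S A) t b)
  | u (n : ℕ) (h : fl) : Prog S A μ b ok Y fl e fun x _ => uv S μ b e n (x 0)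
  | cons {f g : CE.{u} → CE.{u}} : Prog S A μ b ok Y fl e f → Prog S A μ b ok Y fl e g →
      Prog S A μ b ok Y fl e fun x => ec (f x 0) (g x)
  | comp {f g : CE.{u} → CE.{u}} : Prog S A μ b ok Y fl e f → Prog S A μ b ok Y fl e g →
      Prog S A μ b ok Y fl e fun x => f (g x)

def okA (k : ℕ) (t : Trm) : Prop := t.depth ≤ k ∨ ∃ ψ, t = .eps ψ ∧ ψ.depth ≤ k

/-- Programs are good on tuples of ordinals below `μ`. -/
def InitP (S A : Set Ordinal.{u}) (μ b : Ordinal.{u}) (k : ℕ) (Y : Set Code.{u}) (fl : Prop)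
    (e : Ordinal.{u} → Ordinal.{u} → Ordinal.{u}) : Prop :=
  ∀ f, Prog S A μ b (okA k) Y fl e f → ∀ (N : ℕ) (is : List ℕ),
    GoodF A μ N fun l => f (ofL (is.map fun i => od (l.getD i 0))) 0

def BasT (K : ℕ) (t : Trm) : Prop :=
  t = .cut ∨ (∃ o, t = .op o) ∨ (∃ s, t = .mk s) ∨ (∃ s, t = .low s) ∨
    ∃ ψ, t = .eps ψ ∧ ψ.depth + 1 ≤ K

structure TSys : Type (u + 1) where
  S : Set Ordinal.{u}
  A : Set Ordinal.{u}
  μ : Ordinal.{u}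
  b : Ordinal.{u}
  K : ℕ
  TT : Set (CE.{u} → Code.{u})
  Cs : Set Code.{u}
  X : Set (Code.{u} → Code.{u})
  J : ℕ → Code.{u} → Prop

/-- Quantities: functions of a tuple of ordinals. -/
abbrev Qt := List Ordinal.{u} → Code.{u}

noncomputable def prj (i : ℕ) : Qt.{u} := fun l => od (l.getD i 0)

namespace TSys

variable (σ : TSys.{u})

def Basic (g : CE.{u} → Code.{u}) : Prop :=
  (∃ y ∈ σ.Cs, g = fun _ => y) ∨
    (∃ t i, BasT σ.K t ∧ g = fun x => ev (tailF σ.S σ.A) t σ.b x i) ∨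
    ∃ f ∈ σ.X, g = fun x => f (x 0)

structure Tests : Prop where
  ren : ∀ s ∈ σ.TT, ∀ is : List ℕ, ∃ s' ∈ σ.TT, ∀ x, InE x σ.b → s' x = s (ofL (is.map x))
  bas : ∀ s ∈ σ.TT, ∀ g, σ.Basic g → ∃ χ s' : ℕ → CE.{u} → Code.{u},
    (∀ j, χ j ∈ σ.TT ∧ s' j ∈ σ.TT) ∧ ∀ x, InE x σ.b →
      (∃ j, χ j x = tt) ∧ ∀ j, χ j x = tt → s (ec (g x) x) = s' j x
  prj : ∃ s0 ∈ σ.TT, ∀ x, InE x σ.b →
    (x 0 = tt ↔ s0 x = tt) ∧ ∀ z < σ.μ, x 0 = od z → s0 x = od z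

def Nice (n : ℕ) (Φ : Set Qt.{u}) : Prop :=
  ∀ N, n ≤ N → ∀ fs : List Qt.{u}, (∀ f ∈ fs, f ∈ Φ ∨ ∃ i, f = prj i) → ∀ s ∈ σ.TT,
    GoodF σ.A σ.μ N fun l => s (ofL (fs.map fun f => f l))

structure Ok : Prop where
  bs : Bs σ.S σ.A
  mem : σ.μ ∈ σ.S
  le : σ.μ ≤ σ.b
  gam : ∃ γ < σ.μ, ∀ μ' ∈ σ.S, μ' < σ.μ → μ' < γ
  cs_in : ∀ y ∈ σ.Cs, y.In σ.b
  cs_od : ∀ ξ ≤ σ.μ, ξ < σ.b → od ξ ∈ σ.Cs
  x_in : ∀ f ∈ σ.X, ∀ y, (f y).In σ.b
  j_mono : ∀ n n' x, n ≤ n' → σ.J n x → σ.J n' x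
  j_ev : ∀ t : Trm, t.depth ≤ σ.K → ∀ n x, InE x σ.b → (∀ i, σ.J n (x i)) →
    ∀ i, σ.J n (ev (tailF σ.S σ.A) t σ.b x i)
  j_cs : ∀ n, ∀ y ∈ σ.Cs, σ.J n y
  tests : σ.Tests
  init : σ.Nice 0 ∅

def QOk (n n0 : ℕ) (f : Qt.{u}) : Prop :=
  (∀ l l', n ≤ l.length → f (l ++ l') = f l) ∧
    ∀ l, (∀ z ∈ l, z < σ.μ) → (f l).In σ.b ∧ σ.J n0 (f l)

def StepFor (t : Trm) : Prop :=
  ∀ n n0 Φ (E : ℕ → Qt.{u}), (∀ f ∈ Φ, σ.QOk n n0 f) → σ.Nice n Φ → (∀ i, E i ∈ Φ) →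
    σ.Nice n (Φ ∪ range fun i l => ev (tailF σ.S σ.A) t σ.b (fun j => E j l) i)

/-- The limit of `t` on the environment `x` is read off the two points `a`, `a'`. -/
def TwoPt (t : Trm) (x : CE.{u}) (a a' : Code.{u}) : Prop :=
  (ev (tailF σ.S σ.A) t σ.b (ec a x) 0 = ev (tailF σ.S σ.A) t σ.b (ec a' x) 0 →
    ev (tailF σ.S σ.A) (.lim t) σ.b x 0 = ev (tailF σ.S σ.A) t σ.b (ec a x) 0) ∧
  (ev (tailF σ.S σ.A) t σ.b (ec a x) 0 ≠ ev (tailF σ.S σ.A) t σ.b (ec a' x) 0 →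
    ev (tailF σ.S σ.A) (.lim t) σ.b x 0 = od 0)

/-- Limits over upper families are read off two points, on few measured pieces. -/
def High (t : Trm) : Prop :=
  ∀ n n0 Φ (E : ℕ → Qt.{u}), (∀ f ∈ Φ, σ.QOk n n0 f) → σ.Nice n Φ → (∀ i, E i ∈ Φ) →
    ∃ (Jx : Type (u + 1)) (a a' : Jx → Qt.{u}) (P : Jx → List Ordinal.{u} → Prop),
      Few σ.μ Jx ∧
      (∀ j, σ.QOk n (n0 + 2) (a j) ∧ σ.QOk n (n0 + 2) (a' j) ∧ σ.Nice n (Φ ∪ {a j, a' j})) ∧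
      (∀ j N, n ≤ N → Mn σ.A σ.μ N (P j)) ∧
      (∀ l, (∀ z ∈ l, z < σ.μ) → n ≤ l.length → ∀ μ', UU σ.S σ.μ σ.b μ' → E 0 l = od μ' →
        ∃ j, P j l) ∧
      ∀ j l, (∀ z ∈ l, z < σ.μ) → n ≤ l.length → P j l →
        σ.TwoPt t (fun i => E i l) (a j l) (a' j l)

end TSys

def uvs (S : Set Ordinal.{u}) (μ b : Ordinal.{u}) (fl : Prop)
    (e : Ordinal.{u} → Ordinal.{u} → Ordinal.{u}) : Set (Code.{u} → Code.{u}) :=
  {f | fl ∧ ∃ n : ℕ, f = uv S μ b e n}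

/-- Flat values over atoms of index below `n`. -/
def Fl (S A : Set Ordinal.{u}) (μ b : Ordinal.{u}) (K : ℕ) (Y : Set Code.{u})
    (e : Ordinal.{u} → Ordinal.{u} → Ordinal.{u}) (n : ℕ) (x : Code.{u}) : Prop :=
  ∃ (t : Trm) (L : List Itm.{u}), t.depth ≤ K ∧ (∀ i ∈ L, IOk S μ b Y i) ∧
    (∀ p, Sum.inr p ∈ L → p.2 < n) ∧ x = evL S A b e t L 0

/-- Tests of the system for `(b, k + 1)`. -/
def TTA (S A : Set Ordinal.{u}) (μ b : Ordinal.{u}) (k : ℕ) (Y : Set Code.{u}) (fl : Prop)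
    (e : Ordinal.{u} → Ordinal.{u} → Ordinal.{u}) : Set (CE.{u} → Code.{u}) :=
  {s | ∃ f, Prog S A μ b (okA k) Y fl e f ∧ s = fun x => f x 0}

/-- The type of a code of top level. -/
noncomputable def Code.typ : Code.{u} → Code.{u}
  | od _ => od 1
  | st _ t _ _ => od ((t.num + 2 : ℕ) : Ordinal.{u})

/-- The four components of a code of level at most `b0`. -/
noncomputable def Dc (b0 : Ordinal.{u}) (j : ℕ) (x : Code.{u}) : Code.{u} :=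
  if x.In b0 then (if j = 0 then x else od 0)
  else if j = 0 then od 0 else if j = 1 then x.typ else if j = 2 then x.q1 else x.q2

noncomputable def DD (b0 : Ordinal.{u}) (x : CE.{u}) : CE.{u} := fun i => Dc b0 (i % 4) (x (i / 4))

/-- Tests of the system for `(b0 + 1, 0)`. -/
def TTB (S A : Set Ordinal.{u}) (μ b0 : Ordinal.{u}) (Yb : Set Code.{u}) (fl : Prop)
    (e : Ordinal.{u} → Ordinal.{u} → Ordinal.{u}) : Set (CE.{u} → Code.{u}) :=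
  {s | ∃ f, Prog S A μ b0 (fun _ => True) Yb fl e f ∧ s = fun x => f (DD b0 x) 0}

end Pool.Agent.P.MP_833f7a_lc
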