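import Pool.Agent.P.MP_833f7a_lc.ModZF
import Pool.Agent.P.MP_833f7a_lc.Sys
import Pool.Agent.P.MP_833f7a_lc.AE2

/-!
The tail filters measure the sets of the model.
-/

universe u v w

namespace Pool.Agent.P.MP_833f7a_lc

open Set Code ZFSet Pool.Agent.Lib.Forcing Pool.Agent.P.MP_37b794_lc

variable {S A : Set Ordinal.{u}} {κ μ : Ordinal.{u}}

/-- `s` is the unordered pair of `a` and `b`. -/
def ModM_UP (s a b : ZFSet.{u}) : Prop := a ∈ s ∧ b ∈ s ∧ ∀ w ∈ s, w = a ∨ w = b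

theorem ModM_up_iff {s a b : ZFSet.{u}} : ModM_UP s a b ↔ s = {a, b} := by
  constructor
  · rintro ⟨h1, h2, h3⟩
    refine ZFSet.ext fun w => ⟨fun h => mem_pair.2 (h3 w h), fun h => ?_⟩
    rcases mem_pair.1 h with rfl | rfl
    exacts [h1, h2]
  · rintro rfl
    exact ⟨mem_pair.2 (Or.inl rfl), mem_pair.2 (Or.inr rfl), fun w h => mem_pair.1 h⟩

theorem ModM_pair_iff {f a b : ZFSet.{u}} : pair a b ∈ f ↔
    ∃ p ∈ f, ∃ s ∈ p, ∃ t ∈ p, ModM_UP p s t ∧ ModM_UP s a a ∧ ModM_UP t a b := by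
  have e : ({a, a} : ZFSet.{u}) = {a} := ZFSet.ext fun w => by simp
  simp only [ModM_up_iff, e]
  constructor
  · intro h
    exact ⟨_, h, {a}, mem_pair.2 (Or.inl rfl), {a, b}, mem_pair.2 (Or.inr rfl), rfl, rfl, rfl⟩
  · rintro ⟨p, hp, s, -, t, -, rfl, rfl, rfl⟩
    exact hp

instance ModM_df_up {M : Set ZFSet.{u}} [Pool.Agent.Lib.Forcing.Trans M]
    {s t w : Env.{u} → ZFSet.{u}} [Tm M s] [Tm M t] [Tm M w] :
    Df M (fun e => ModM_UP (s e) (t e) (w e)) :=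
  Df.subst3 (R := ModM_UP) (by unfold ModM_UP; infer_instance) s t w

theorem ModM_df_pair {M : Set ZFSet.{u}} [Pool.Agent.Lib.Forcing.Trans M] {f : ZFSet.{u}}
    (hf : f ∈ M) : Df M (fun e => pair (e 1) (e 0) ∈ f) := by
  have : InM M f := ⟨hf⟩
  refine Df.congr (R := fun e => ∃ p ∈ f, ∃ s ∈ p, ∃ t ∈ p,
    ModM_UP p s t ∧ ModM_UP s (e 1) (e 1) ∧ ModM_UP t (e 1) (e 0)) ?_
    fun e _ => ModM_pair_iff.symm
  infer_instance

theorem ModM_good {b : Ordinal.{u}} (hb : μ ≤ b) (h0 : 0 < b) (hH : ∀ k, HH S A b k μ)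
    {f : CE.{u} → Code.{u}} (hf : TD (tailF S A) b {x | x.In b} f) :
    GoodF A μ 1 fun l => f (ofL (l.map od)) := by
  obtain ⟨t, q, hq, ht⟩ := hf.exists_term 1
  refine (hH t.depth t le_rfl q hq 1).congr fun l hl => ht _ (by rw [List.length_map, hl.1]) ?_
  refine inE_ofL (fun x hx => ?_) h0
  obtain ⟨z, hz, rfl⟩ := List.mem_map.1 hx
  exact (hl.2 z hz).trans_le hb

theorem ModM_level (hκ : Reg κ) (hμ : μ < κ) {F : FSys.{u}} {X : ZFSet.{u}} (hX : X ∈ Mz F κ) :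
    ∃ b, μ < b ∧ Ordinal.omega0 < b ∧ X ∈ Mz F b := by
  obtain ⟨b, -, h1, h2, -, h3⟩ := exists_limit_level hκ (few_countable hκ Unit) (fun _ => X)
    (fun _ => hX) hμ
  exact ⟨b, h1, h2, h3 ()⟩

theorem Mz_dec (hκ : Reg κ) (hμ : μ < κ) (hH : ∀ b k, μ ≤ b → HH S A b k μ) {X : ZFSet.{u}}
    (hX : X ∈ Mz (tailF S A) κ) :
    AE A μ (fun η => η.toZFSet ∈ X) ∨ AE A μ fun η => η.toZFSet ∉ X := by
  obtain ⟨b, h1, h2, h3⟩ := ModM_level hκ hμ hX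
  obtain ⟨x, hx, rfl⟩ := mem_Mz.1 h3
  have H : TH b {x | x.In b} := ⟨h2.le, fun _ h => h⟩
  have hp : PD (tailF S A) b {x | x.In b}
      fun e => cl (tailF S A) (e 0) ∈ cl (tailF S A) x := PD.mem H (TD.var 0) (TD.cst hx)
  have hg := (ModM_good h1.le (zero_le.trans_lt h1) (fun k => hH b k h1.le) hp).mn.dec1
  simpa using hg

theorem Mz_normal (hκ : Reg κ) (hS : Bs S A) (hm : μ ∈ S) (hμ : μ < κ)
    (hH : ∀ b k, μ ≤ b → HH S A b k μ) {f : ZFSet.{u}} (hf : f ∈ Mz (tailF S A) κ)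
    (h : AE A μ fun η => ∃ ζ < η, pair η.toZFSet ζ.toZFSet ∈ f) :
    ∃ ζ : Ordinal.{u}, AE A μ fun η => pair η.toZFSet ζ.toZFSet ∈ f := by
  obtain ⟨b, h1, h2, h3⟩ := ModM_level hκ hμ hf
  have h0 : 0 < b := zero_le.trans_lt h1
  have H : TH b {x | x.In b} := ⟨h2.le, fun _ h => h⟩
  have := trans_Mz (F := tailF S A) h0
  have hp : PD (tailF S A) b {x | x.In b} fun e => (∃ a, e 0 = od a) ∧
      pair (cl (tailF S A) (e 1)) (cl (tailF S A) (e 0)) ∈ f :=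
    (PD.isOd (TD.var 0)).and (pd_of_df h2.le (ModM_df_pair h3))
  have hg := ModM_good h1.le h0 (fun k => hH b k h1.le) (TD.least H hp)
  set P : Ordinal.{u} → Code.{u} → Prop := fun η y => y.In b ∧ (∃ a, y = od a) ∧
    pair η.toZFSet (cl (tailF S A) y) ∈ f with hP
  have hG : ∀ η : Ordinal.{u}, (least fun x => x.In b ∧
      ((∃ a, ec x (ofL ([η].map od)) 0 = od a) ∧
        pair (cl (tailF S A) (ec x (ofL ([η].map od)) 1))
          (cl (tailF S A) (ec x (ofL ([η].map od)) 0)) ∈ f)) = least (P η) := fun η =>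
    least_congr fun x => by simp [hP]
  have key : ∀ η < μ, (∃ ζ < η, pair η.toZFSet ζ.toZFSet ∈ f) →
      ∃ z < η, least (P η) = od z ∧ pair η.toZFSet z.toZFSet ∈ f := by
    rintro η hη ⟨ζ, hζ, hz⟩
    have hζP : P η (od ζ) := ⟨hζ.trans (hη.trans h1), ⟨ζ, rfl⟩, by rwa [cl_od]⟩
    obtain ⟨⟨-, ⟨a, ha⟩, h4⟩, h5⟩ := least_spec (P := P η) (fun x hx => ⟨b, hx.1⟩) ⟨_, hζP⟩
    have h6 := h5 _ hζP
    rw [ha, lt_od_od, not_lt] at h6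
    rw [ha, cl_od] at h4
    exact ⟨a, h6.trans_lt hζ, ha, h4⟩
  obtain ⟨z0, hz0⟩ := hg.normal1 (hS.unb μ hm) (h.mono fun η hη hex => by
    obtain ⟨z, hz, e, -⟩ := key η hη hex
    exact ⟨z, hz, (hG η).trans e⟩)
  refine ⟨z0, (h.and hz0).mono fun η hη hh => ?_⟩
  obtain ⟨z, -, e, hz⟩ := key η hη hh.1
  have : z = z0 := Code.od.inj (e.symm.trans ((hG η).symm.trans hh.2))
  exact this ▸ hz

theorem Mz_ultra (hκ : Inacc κ) (hS : Bs S A) (hm : μ ∈ S) (hμ : μ < κ) :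
    ∃ U ∈ Mz (tailF S A) κ, ∀ X, X ∈ U ↔
      X ∈ Mz (tailF S A) κ ∧ X ⊆ μ.toZFSet ∧ AE A μ fun η => η.toZFSet ∈ X := by
  have hJ : Few κ {X : ZFSet.{u} // X ∈ Mz (tailF S A) κ ∧ X ⊆ μ.toZFSet} := by
    refine (hκ.2 μ hμ).of_inj (fun X => {η | η.1.toZFSet ∈ X.1}) fun X Y e => ?_
    have key : ∀ X Y : {X : ZFSet.{u} // X ∈ Mz (tailF S A) κ ∧ X ⊆ μ.toZFSet},
        ({η : Iio μ | η.1.toZFSet ∈ X.1} = {η | η.1.toZFSet ∈ Y.1}) → ∀ w ∈ X.1, w ∈ Y.1 := by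
      intro X Y e w hw
      obtain ⟨η, hη, rfl⟩ := Ordinal.mem_toZFSet_iff.1 (X.2.2 hw)
      exact (Set.ext_iff.1 e ⟨η, hη⟩).1 hw
    exact Subtype.ext (ZFSet.ext fun w => ⟨key X Y e w, key Y X e.symm w⟩)
  obtain ⟨b, hb, h1, h2, h3, h4⟩ := exists_limit_level hκ.1 hJ (fun X => X.1) (fun X => X.2.1) hμ
  have h0 : 0 < b := zero_le.trans_lt h1
  have H : TH b {x | x.In b} := ⟨h2.le, fun _ h => h⟩
  have := trans_Mz (F := tailF S A) h0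
  have : InM (Mz (tailF S A) b : Set ZFSet.{u}) μ.toZFSet := ⟨ord_mem_Mz.2 h1⟩
  have hp1 : PD (tailF S A) b {x | x.In b} fun e => cl (tailF S A) (e 0) ⊆ μ.toZFSet :=
    pd_of_df (R := fun e => e 0 ⊆ μ.toZFSet) h2.le inferInstance
  have hp2 := (PD.lim H (fs_tailF hS.unb) (PD.mem H (TD.var 0) (TD.var 2))).comp H
    (TE.cons (TD.cst (y := od μ) h1) TE.id)
  have hp3 : PD (tailF S A) b {x | x.In b}
      fun e => AE A μ fun η => η.toZFSet ∈ cl (tailF S A) (e 0) := by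
    refine hp2.congr fun e _ => ?_
    rw [← tailF_iff (S := S) hm]
    constructor
    · rintro ⟨μ', e1, e2⟩
      obtain rfl : μ = μ' := Code.od.inj e1
      simpa using e2
    · intro e2
      exact ⟨μ, rfl, by simpa using e2⟩
  obtain ⟨z, hz, hel⟩ := pd_code h3 h2 (hp1.and hp3)
  refine ⟨cl (tailF S A) z, cl_mem_Mz (hz.mono (hκ.1.succ_lt hb).le), fun X => ?_⟩
  rw [mem_cl]
  constructor
  · rintro ⟨x, hx, rfl⟩
    obtain ⟨e1, e2⟩ := (hel x).1 hx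
    exact ⟨cl_mem_Mz (e1.mono hb.le), e2⟩
  · rintro ⟨e1, e2, e3⟩
    obtain ⟨x, hx, rfl⟩ := mem_Mz.1 (h4 ⟨X, e1, e2⟩)
    exact ⟨x, (hel x).2 ⟨hx, e2, e3⟩, rfl⟩

theorem Mz_S (hκ : Reg κ) (hS : Bs S A) {δ : Ordinal.{u}} (hδ : δ < κ) :
    ∃ Z ∈ Mz (tailF S A) κ, ∀ y, y ∈ Z ↔ ∃ μ ∈ S, μ < δ ∧ y = μ.toZFSet := by
  obtain ⟨b, hb, h1, h2, h3, -⟩ := exists_limit_level (F := tailF S A) hκ
    (few_countable hκ Empty) (fun j => j.elim) (fun j => j.elim) hδ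
  have H : TH b {x | x.In b} := ⟨h2.le, fun _ h => h⟩
  have hp := (PD.lim H (fs_tailF hS.unb) (PD.const True)).and
    (PD.lt (TD.var 0) (TD.cst (y := od δ) h1))
  obtain ⟨z, hz, hel⟩ := pd_code h3 h2 hp
  refine ⟨cl (tailF S A) z, cl_mem_Mz (hz.mono (hκ.succ_lt hb).le), fun y => ?_⟩
  rw [mem_cl]
  constructor
  · rintro ⟨x, hx, rfl⟩
    obtain ⟨-, ⟨μ, e1, e2⟩, e3⟩ := (hel x).1 hx
    obtain rfl : x = od μ := e1
    exact ⟨μ, e2.1, e3, cl_od⟩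
  · rintro ⟨μ, e1, e2, rfl⟩
    exact ⟨od μ, (hel _).2 ⟨e2.trans h1, ⟨μ, rfl, (tailF_iff e1).2
      (AE.of_forall (hS.reg μ e1).pos fun _ _ => trivial)⟩, e2⟩, cl_od⟩

end Pool.Agent.P.MP_833f7a_lc
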