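import Pool.Agent.Lib.Constructible.Tools
import Pool.Agent.P.MP_833f7a_lc.AE1

/-!
Measurability, weak compactness and order types in a model of ZF.
-/

universe u v w

namespace Pool.Agent.P.MP_833f7a_lc

open Set ZFSet Pool.Agent.Lib.Forcing Pool.Agent.P.MP_af0a18_lc Pool.Agent.P.MP_37b794_lc

variable {M : Set ZFSet.{u}} {A : Set Ordinal.{u}} {μ : Ordinal.{u}} {U : ZFSet.{u}}

/-- The collapse of `x ∩ Z`. -/
noncomputable def ModW_col (Z x : ZFSet.{u}) : ZFSet.{u} :=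
  ZFSet.range fun y : (x.sep fun y => y ∈ Z) => ModW_col Z y.1
termination_by x.rank
decreasing_by exact rank_lt_of_mem (mem_sep.1 y.2).1

theorem ModW_mem_col {Z x w : ZFSet.{u}} :
    w ∈ ModW_col Z x ↔ ∃ y ∈ x, y ∈ Z ∧ ModW_col Z y = w := by
  rw [ModW_col, ZFSet.mem_range]
  constructor
  · rintro ⟨⟨y, hy⟩, rfl⟩
    exact ⟨y, (mem_sep.1 hy).1, (mem_sep.1 hy).2, rfl⟩
  · rintro ⟨y, h1, h2, rfl⟩
    exact ⟨⟨y, mem_sep.2 ⟨h1, h2⟩⟩, rfl⟩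

theorem ModW_tm_col [ZFm M] {Z : ZFSet.{u}} (hZ : Z ∈ M) : Tm M fun e => ModW_col Z (e 0) := by
  have := InM.mk hZ
  refine mem_recursion (ModW_col Z) (fun x f z => (∀ w ∈ z, ∃ y ∈ x, y ∈ Z ∧ pair y w ∈ f) ∧
    ∀ y ∈ x, y ∈ Z → ∀ v, pair y v ∈ f → v ∈ z) ?_
  intro x hx f hf H
  have := InM.mk hf
  have key : ∀ z, ((∀ w ∈ z, ∃ y ∈ x, y ∈ Z ∧ pair y w ∈ f) ∧
      ∀ y ∈ x, y ∈ Z → ∀ v, pair y v ∈ f → v ∈ z) ↔ z = ModW_col Z x := by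
    intro z
    constructor
    · rintro ⟨h1, h2⟩
      ext w
      rw [ModW_mem_col]
      constructor
      · intro hw
        obtain ⟨y, hy, hyZ, hp⟩ := h1 w hw
        exact ⟨y, hy, hyZ, ((H y hy w).1 hp).symm⟩
      · rintro ⟨y, hy, hyZ, rfl⟩
        exact h2 y hy hyZ _ ((H y hy _).2 rfl)
    · rintro rfl
      refine ⟨fun w hw => ?_, fun y hy hyZ v hv => ?_⟩
      · obtain ⟨y, hy, hyZ, rfl⟩ := ModW_mem_col.1 hw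
        exact ⟨y, hy, hyZ, (H y hy _).2 rfl⟩
      · exact ModW_mem_col.2 ⟨y, hy, hyZ, ((H y hy v).1 hv).symm⟩
  refine ⟨?_, fun z _ => key z⟩
  have hs : x.sep (fun y => y ∈ Z) ∈ M := sep_mem _ hx
  obtain ⟨b, hb, Hb⟩ := exists_image (ModW_col Z) (fun w y => pair y w ∈ f) hs
    (fun y hy => snd_mem hf ((H y (mem_sep.1 hy).1 _).2 rfl))
    (fun y hy w _ => H y (mem_sep.1 hy).1 w)
  convert hb using 1
  ext w
  rw [ModW_mem_col, Hb]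
  exact ⟨fun ⟨y, h1, h2, h3⟩ => ⟨y, mem_sep.2 ⟨h1, h2⟩, h3⟩,
    fun ⟨y, h1, h3⟩ => ⟨y, (mem_sep.1 h1).1, (mem_sep.1 h1).2, h3⟩⟩

theorem ModW_col_enum {Z : ZFSet.{u}} {m : Ordinal.{u}} {f : Ordinal.{u} → Ordinal.{u}}
    (hf : StrictMonoOn f (Iio m)) (h : ∀ y, y ∈ Z ↔ ∃ ξ < m, y = (f ξ).toZFSet) :
    ∀ ξ < m, ModW_col Z (f ξ).toZFSet = ξ.toZFSet := by
  intro ξ
  induction ξ using WellFoundedLT.induction with
  | ind ξ ih =>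
    intro hξ
    ext w
    rw [ModW_mem_col, Ordinal.mem_toZFSet_iff]
    constructor
    · rintro ⟨y, hy, hyZ, rfl⟩
      obtain ⟨ζ, hζ, rfl⟩ := (h y).1 hyZ
      have h1 : ζ < ξ := (hf.lt_iff_lt hζ hξ).1 (Ordinal.toZFSet_mem_toZFSet_iff.1 hy)
      exact ⟨ζ, h1, (ih ζ h1 hζ).symm⟩
    · rintro ⟨ζ, hζ, rfl⟩
      have h1 : ζ < m := hζ.trans hξ
      exact ⟨_, Ordinal.toZFSet_mem_toZFSet_iff.2 (hf h1 hξ hζ), (h _).2 ⟨ζ, h1, rfl⟩, ih ζ hζ h1⟩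

/-- The graph of the enumeration lies in the model. -/
theorem ModW_graph (hM : IsZFModel M) {Z : ZFSet.{u}} (hZ : Z ∈ M) {m : Ordinal.{u}}
    (hm : m.toZFSet ∈ M) {f : Ordinal.{u} → Ordinal.{u}} (hf : StrictMonoOn f (Iio m))
    (h : ∀ y, y ∈ Z ↔ ∃ ξ < m, y = (f ξ).toZFSet) :
    ∃ g ∈ M, IsFunc m.toZFSet Z g ∧
      ∀ a b, pair a b ∈ g ↔ ∃ ξ < m, a = ξ.toZFSet ∧ b = (f ξ).toZFSet := by
  have := hM.zfm
  have h1 : Tm M fun e => ModW_col Z (e 0) := ModW_tm_col hZ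
  obtain ⟨g, hg, hsub, H⟩ := exists_pairSep (M := M) (fun a b => a = ModW_col Z b) hm hZ
  have key : ∀ a b, pair a b ∈ g ↔ ∃ ξ < m, a = ξ.toZFSet ∧ b = (f ξ).toZFSet := by
    intro a b
    rw [H]
    constructor
    · rintro ⟨-, hb, rfl⟩
      obtain ⟨ξ, hξ, rfl⟩ := (h b).1 hb
      exact ⟨ξ, hξ, ModW_col_enum hf h ξ hξ, rfl⟩
    · rintro ⟨ξ, hξ, rfl, rfl⟩
      exact ⟨Ordinal.toZFSet_mem_toZFSet_iff.2 hξ, (h _).2 ⟨ξ, hξ, rfl⟩,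
        (ModW_col_enum hf h ξ hξ).symm⟩
  refine ⟨g, hg, ⟨hsub, fun z hz => ?_⟩, key⟩
  obtain ⟨ξ, hξ, rfl⟩ := Ordinal.mem_toZFSet_iff.1 hz
  refine ⟨(f ξ).toZFSet, (key _ _).2 ⟨ξ, hξ, rfl, rfl⟩, fun y hy => ?_⟩
  obtain ⟨ζ, -, h2, rfl⟩ := (key _ _).1 hy
  rw [Ordinal.toZFSet_injective h2]

theorem orderTypeIn_of_enum (hM : IsZFModel M) {Z : ZFSet.{u}} (hZ : Z ∈ M) {m : Ordinal.{u}}
    (hm : m.toZFSet ∈ M) {f : Ordinal.{u} → Ordinal.{u}} (hf : StrictMonoOn f (Iio m))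
    (h : ∀ y, y ∈ Z ↔ ∃ ξ < m, y = (f ξ).toZFSet) : OrderTypeIn M Z m.toZFSet := by
  obtain ⟨g, hg, hfun, H⟩ := ModW_graph hM hZ hm hf h
  refine ⟨g, hg, hfun, fun y hy => ?_, fun x y x' y' h1 h2 h3 => ?_⟩
  · obtain ⟨ξ, hξ, rfl⟩ := (h y).1 hy
    exact ⟨_, (H _ _).2 ⟨ξ, hξ, rfl, rfl⟩⟩
  · obtain ⟨ξ, hξ, rfl, rfl⟩ := (H _ _).1 h1
    obtain ⟨ζ, hζ, rfl, rfl⟩ := (H _ _).1 h2
    exact Ordinal.toZFSet_mem_toZFSet_iff.2 (hf hξ hζ (Ordinal.toZFSet_mem_toZFSet_iff.1 h3))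

theorem ModW_omega : (Ordinal.omega0.{u}).toZFSet = omega := by
  refine isOmega_iff.1 ⟨?_, fun y hy => ?_, fun y hy => ?_⟩
  · rw [← Ordinal.toZFSet_zero]
    exact Ordinal.toZFSet_mem_toZFSet_iff.2 Ordinal.omega0_pos
  · obtain ⟨a, ha, rfl⟩ := Ordinal.mem_toZFSet_iff.1 hy
    rw [← Ordinal.toZFSet_add_one]
    exact Ordinal.toZFSet_mem_toZFSet_iff.2 (Ordinal.isSuccLimit_omega0.add_one_lt ha)
  · obtain ⟨a, ha, rfl⟩ := Ordinal.mem_toZFSet_iff.1 hy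
    obtain ⟨n, rfl⟩ := Ordinal.lt_omega0.1 ha
    cases n with
    | zero => exact Or.inl (by simp)
    | succ n =>
      refine Or.inr ⟨(n : Ordinal.{u}).toZFSet,
        Ordinal.toZFSet_mem_toZFSet_iff.2 (Ordinal.natCast_lt_omega0 n), ?_⟩
      rw [Nat.cast_succ, Ordinal.toZFSet_add_one]

theorem omega_mem_toZFSet (h : Ordinal.omega0 < μ) : omega ∈ μ.toZFSet := by
  rw [← ModW_omega]
  exact Ordinal.toZFSet_mem_toZFSet_iff.2 h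

theorem measurableIn_of_tail (hM : IsZFModel M) (hμ : Reg μ) (hA : Unb A μ) (hm : μ.toZFSet ∈ M)
    (hU : U ∈ M) (hU' : ∀ X, X ∈ U ↔ X ∈ M ∧ X ⊆ μ.toZFSet ∧ AE A μ fun η => η.toZFSet ∈ X)
    (hdec : ∀ X ∈ M, AE A μ (fun η => η.toZFSet ∈ X) ∨ AE A μ fun η => η.toZFSet ∉ X) :
    MeasurableIn M μ.toZFSet := by
  have := hM.zfm
  refine ⟨U, hU, fun X hX => ((hU' X).1 hX).2.1, ?_, fun h => ?_, fun X hX Y hY hXY hYμ => ?_,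
    fun X hX Y hY => ?_, fun X hX hXμ => ?_, fun ξ hξ h => ?_, fun γ hγ f hf hfun => ?_⟩
  · exact (hU' _).2 ⟨hm, fun _ h => h,
      AE.of_forall hμ.pos fun η hη => Ordinal.toZFSet_mem_toZFSet_iff.2 hη⟩
  · obtain ⟨η, -, -, h1⟩ := ((hU' _).1 h).2.2.exists hA
    exact notMem_empty _ h1
  · exact (hU' _).2 ⟨hY, hYμ, ((hU' X).1 hX).2.2.mono fun η _ h => hXY h⟩
  · obtain ⟨h1, h2, h3⟩ := (hU' X).1 hX
    obtain ⟨h4, -, h6⟩ := (hU' Y).1 hY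
    exact (hU' _).2 ⟨inter_mem h1 h4, fun z hz => h2 (mem_inter.1 hz).1,
      (h3.and h6).mono fun η _ h => mem_inter.2 h⟩
  · rcases hdec X hX with h | h
    · exact Or.inl ((hU' _).2 ⟨hX, hXμ, h⟩)
    · exact Or.inr ((hU' _).2 ⟨sdiff_mem hm hX, fun z hz => (mem_sdiff.1 hz).1,
        h.mono fun η hη h1 => mem_sdiff.2 ⟨Ordinal.toZFSet_mem_toZFSet_iff.2 hη, h1⟩⟩)
  · obtain ⟨a, ha, rfl⟩ := Ordinal.mem_toZFSet_iff.1 hξ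
    obtain ⟨η, -, -, h1, h2⟩ := (((hU' _).1 h).2.2.and (ae_gt hμ ha)).exists hA
    exact h2.ne' (Ordinal.toZFSet_injective (ZFSet.mem_singleton.1 h1))
  · have := InM.mk hf
    obtain ⟨c, hc, rfl⟩ := Ordinal.mem_toZFSet_iff.1 hγ
    refine (hU' _).2 ⟨sep_mem _ hm, sep_subset, ?_⟩
    have h1 : ∀ j < c, AE A μ fun η => ∀ X, pair j.toZFSet X ∈ f → η.toZFSet ∈ X := by
      intro j hj
      obtain ⟨X, hX, hu⟩ := hfun.2 _ (Ordinal.toZFSet_mem_toZFSet_iff.2 hj)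
      have h2 : X ∈ U := (pair_mem_prod.1 (hfun.1 hX)).2
      exact ((hU' X).1 h2).2.2.mono fun η _ h Y hY => hu Y hY ▸ h
    refine (ae_all_lt hμ hc h1).mono fun η hη h => mem_sep.2
      ⟨Ordinal.toZFSet_mem_toZFSet_iff.2 hη, fun α X hp => ?_⟩
    obtain ⟨j, hj, rfl⟩ := Ordinal.mem_toZFSet_iff.1 (pair_mem_prod.1 (hfun.1 hp)).1
    exact h j hj X hp

theorem ModW_isCardinalIn (hμ : Reg μ) : IsCardinalIn M μ.toZFSet := by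
  refine ⟨isOrdinal_toZFSet μ, ?_⟩
  rintro ⟨ν, hν, f, -, hfun, hb⟩
  obtain ⟨δ, hδ, rfl⟩ := Ordinal.mem_toZFSet_iff.1 hν
  have h1 : ∀ η : Iio μ, ∃ ζ : Iio δ, pair ζ.1.toZFSet η.1.toZFSet ∈ f := by
    intro η
    obtain ⟨x, hx, -⟩ := hb _ (Ordinal.toZFSet_mem_toZFSet_iff.2 η.2)
    obtain ⟨ζ, hζ, rfl⟩ := Ordinal.mem_toZFSet_iff.1 (pair_mem_prod.1 (hfun.1 hx)).1
    exact ⟨⟨ζ, hζ⟩, hx⟩
  choose g hg using h1
  refine lt_irrefl μ ((few_Iio hμ hδ).lt_of_inj g fun a b hab => ?_)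
  obtain ⟨w, -, hu⟩ := hfun.2 _ (Ordinal.toZFSet_mem_toZFSet_iff.2 (g a).2)
  have h2 := hu _ (hg a)
  have h3 := hu _ (hab ▸ hg b)
  exact Subtype.ext (Ordinal.toZFSet_injective (h2.trans h3.symm))

/-- An unbounded subset of a regular ordinal has an increasing enumeration of full length. -/
theorem ModW_enum (hμ : Reg μ) {B : Set Ordinal.{u}} (hB : Unb B μ) :
    ∃ f : Ordinal.{u} → Ordinal.{u}, StrictMonoOn f (Iio μ) ∧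
      ∀ η, (η ∈ B ∧ η < μ) ↔ ∃ ξ < μ, η = f ξ := by
  have hS : ¬ BddAbove (B ∪ Ici μ) := by
    rintro ⟨b, hb⟩
    have h1 : max μ b + 1 ≤ b := hb (Or.inr
      (mem_Ici.2 ((le_max_left μ b).trans (lt_add_one _).le)))
    exact absurd (((le_max_right μ b).trans_lt (lt_add_one _)).trans_le h1) (lt_irrefl _)
  have hlt : ∀ ξ < μ, Ordinal.enumOrd (B ∪ Ici μ) ξ < μ := by
    intro ξ
    induction ξ using WellFoundedLT.induction with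
    | ind ξ ih =>
      intro hξ
      obtain ⟨δ, hδ, H⟩ := (few_Iio hμ hξ).bdd hμ (fun ζ => Ordinal.enumOrd (B ∪ Ici μ) ζ.1)
        fun ζ => ih ζ.1 ζ.2 (lt_trans ζ.2 hξ)
      obtain ⟨η, h1, h2, h3⟩ := hB δ hδ
      exact (Ordinal.enumOrd_le_of_forall_lt (Or.inl h1) fun b hb =>
        (H ⟨b, hb⟩).trans_le h2).trans_lt h3
  refine ⟨Ordinal.enumOrd (B ∪ Ici μ), (Ordinal.enumOrd_strictMono hS).strictMonoOn _,
    fun η => ⟨fun h => ?_, ?_⟩⟩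
  · obtain ⟨ξ, rfl⟩ := Ordinal.enumOrd_surjective hS (Or.inl h.1)
    exact ⟨ξ, (Ordinal.le_enumOrd_self hS).trans_lt h.2, rfl⟩
  · rintro ⟨ξ, hξ, rfl⟩
    exact ⟨(Ordinal.enumOrd_mem hS ξ).resolve_right (not_le.2 (hlt ξ hξ)), hlt ξ hξ⟩

theorem ModW_hasCard (hM : IsZFModel M) (hμ : Reg μ) (hA : Unb A μ) (hm : μ.toZFSet ∈ M)
    {H : ZFSet.{u}} (hH : H ∈ M) (hsub : H ⊆ μ.toZFSet) (h : AE A μ fun η => η.toZFSet ∈ H) :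
    HasCard M H μ.toZFSet := by
  have hB : Unb {η : Ordinal.{u} | η.toZFSet ∈ H} μ := by
    intro δ hδ
    obtain ⟨η, -, h1, h2, h3⟩ := (h.and (ae_gt hμ hδ)).exists hA
    exact ⟨η, h2, h3.le, h1⟩
  obtain ⟨f, hf, Hf⟩ := ModW_enum hμ hB
  have h1 : ∀ y, y ∈ H ↔ ∃ ξ < μ, y = (f ξ).toZFSet := by
    intro y
    constructor
    · intro hy
      obtain ⟨η, hη, rfl⟩ := Ordinal.mem_toZFSet_iff.1 (hsub hy)
      obtain ⟨ξ, hξ, rfl⟩ := (Hf η).1 ⟨hy, hη⟩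
      exact ⟨ξ, hξ, rfl⟩
    · rintro ⟨ξ, hξ, rfl⟩
      exact ((Hf _).2 ⟨ξ, hξ, rfl⟩).1
  obtain ⟨g, hg, hfun, G⟩ := ModW_graph hM hH hm hf h1
  refine ⟨g, hg, hfun, fun y hy => ?_⟩
  obtain ⟨ξ, hξ, rfl⟩ := (h1 y).1 hy
  refine ⟨ξ.toZFSet, (G _ _).2 ⟨ξ, hξ, rfl, rfl⟩, fun x hx => ?_⟩
  obtain ⟨ζ, hζ, rfl, h2⟩ := (G _ _).1 hx
  rw [hf.injOn hξ hζ (Ordinal.toZFSet_injective h2)]

theorem weaklyCompactIn_of_tail (hM : IsZFModel M) (hμ : Reg μ) (hA : Unb A μ)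
    (hm : μ.toZFSet ∈ M) (hU : U ∈ M)
    (hU' : ∀ X, X ∈ U ↔ X ∈ M ∧ X ⊆ μ.toZFSet ∧ AE A μ fun η => η.toZFSet ∈ X)
    (hdec : ∀ X ∈ M, AE A μ (fun η => η.toZFSet ∈ X) ∨ AE A μ fun η => η.toZFSet ∉ X)
    (hnorm : ∀ f ∈ M, AE A μ (fun η => ∃ ζ < η, pair η.toZFSet ζ.toZFSet ∈ f) →
      ∃ ζ : Ordinal.{u}, AE A μ fun η => pair η.toZFSet ζ.toZFSet ∈ f) :
    WeaklyCompactIn M μ.toZFSet := by
  have := hM.zfm
  refine ⟨ModW_isCardinalIn hμ, omega_mem_toZFSet hμ.omega_lt, fun c hc => ?_⟩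
  have := InM.mk hc
  have := InM.mk hU
  have := InM.mk hm
  -- `C` is the set of the points whose row is large
  obtain ⟨C, hC, HC⟩ : ∃ C ∈ M, ∀ a < μ,
      (a.toZFSet ∈ C ↔ AE A μ fun η => pair a.toZFSet η.toZFSet ∈ c) := by
    refine ⟨μ.toZFSet.sep fun a => μ.toZFSet.sep (fun b => pair a b ∈ c) ∈ U, sep_mem _ hm,
      fun a ha => ?_⟩
    have h0 : a.toZFSet ∈ μ.toZFSet := Ordinal.toZFSet_mem_toZFSet_iff.2 ha
    have := InM.mk (mem_of_mem hm h0)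
    rw [ZFSet.mem_sep, hU']
    constructor
    · rintro ⟨-, -, -, h⟩
      exact h.mono fun η _ h1 => (mem_sep.1 h1).2
    · intro h
      exact ⟨h0, sep_mem _ hm, sep_subset, h.mono fun η hη h1 =>
        mem_sep.2 ⟨Ordinal.toZFSet_mem_toZFSet_iff.2 hη, h1⟩⟩
  have := InM.mk hC
  have hrow : ∀ a < μ, AE A μ fun η => (pair a.toZFSet η.toZFSet ∈ c ↔ a.toZFSet ∈ C) := by
    intro a ha
    have := InM.mk (mem_of_mem hm (Ordinal.toZFSet_mem_toZFSet_iff.2 ha))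
    by_cases h : a.toZFSet ∈ C
    · exact ((HC a ha).1 h).mono fun η _ h1 => iff_of_true h1 h
    · rcases hdec _ (sep_mem (fun b => pair a.toZFSet b ∈ c) hm) with h1 | h1
      · exact absurd ((HC a ha).2 (h1.mono fun η _ h2 => (mem_sep.1 h2).2)) h
      · exact h1.mono fun η hη h2 => iff_of_false
          (fun h3 => h2 (mem_sep.2 ⟨Ordinal.toZFSet_mem_toZFSet_iff.2 hη, h3⟩)) h
  -- the diagonal intersection
  have hD : AE A μ fun η => ∀ a ∈ η.toZFSet, (pair a η.toZFSet ∈ c ↔ a ∈ C) := by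
    rcases hdec _ (sep_mem (fun b => ∀ a ∈ b, (pair a b ∈ c ↔ a ∈ C)) hm) with h1 | h1
    · exact h1.mono fun η _ h2 => (mem_sep.1 h2).2
    · exfalso
      obtain ⟨f, hf, -, Hf⟩ := exists_pairSep (M := M)
        (fun b a => ¬ (pair a b ∈ c ↔ a ∈ C)) hm hm
      obtain ⟨ζ, hζ⟩ := hnorm f hf (h1.mono fun η hη h2 => by
        by_contra h3
        refine h2 (mem_sep.2 ⟨Ordinal.toZFSet_mem_toZFSet_iff.2 hη, fun a ha => ?_⟩)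
        obtain ⟨ζ, hζ, rfl⟩ := Ordinal.mem_toZFSet_iff.1 ha
        by_contra h4
        exact h3 ⟨ζ, hζ, (Hf _ _).2 ⟨Ordinal.toZFSet_mem_toZFSet_iff.2 hη,
          Ordinal.toZFSet_mem_toZFSet_iff.2 (hζ.trans hη), h4⟩⟩)
      obtain ⟨η, -, -, h2⟩ := hζ.exists hA
      have h3 : ζ < μ := Ordinal.toZFSet_mem_toZFSet_iff.1 ((Hf _ _).1 h2).2.1
      obtain ⟨η', -, -, h4, h5⟩ := (hζ.and (hrow ζ h3)).exists hA
      exact ((Hf _ _).1 h4).2.2 h5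
  rcases hdec C hC with h | h
  · refine ⟨μ.toZFSet.sep fun b => b ∈ C ∧ ∀ a ∈ b, (pair a b ∈ c ↔ a ∈ C), sep_mem _ hm,
      sep_subset, ModW_hasCard hM hμ hA hm (sep_mem _ hm) sep_subset
        ((h.and hD).mono fun η hη h1 => mem_sep.2 ⟨Ordinal.toZFSet_mem_toZFSet_iff.2 hη, h1⟩),
      Or.inl fun α hα β hβ hαβ => ?_⟩
    exact ((mem_sep.1 hβ).2.2 α hαβ).2 (mem_sep.1 hα).2.1
  · refine ⟨μ.toZFSet.sep fun b => b ∉ C ∧ ∀ a ∈ b, (pair a b ∈ c ↔ a ∈ C), sep_mem _ hm,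
      sep_subset, ModW_hasCard hM hμ hA hm (sep_mem _ hm) sep_subset
        ((h.and hD).mono fun η hη h1 => mem_sep.2 ⟨Ordinal.toZFSet_mem_toZFSet_iff.2 hη, h1⟩),
      Or.inr fun α hα β hβ hαβ h2 => ?_⟩
    exact (mem_sep.1 hα).2.1 (((mem_sep.1 hβ).2.2 α hαβ).1 h2)

end Pool.Agent.P.MP_833f7a_lc
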