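import Pool.Agent.P.MP_833f7a_lc.Flip
import Pool.Agent.P.MP_833f7a_lc.ClsL

/-!
Reflection of homogeneity.
-/

universe u v w

namespace Pool.Agent.P.MP_833f7a_lc

open Cardinal Ordinal Set Code Nm

/-- A decided bit agrees almost everywhere with the limit theory. -/
theorem Reflect_iff {κ : Ordinal.{u}} {B : Set Ordinal.{u}} (hB : Unb B κ)
    {P : Ordinal.{u} → Prop} (h : AE B κ P ∨ AE B κ fun lam => ¬ P lam) :
    AE B κ fun lam => (P lam ↔ AE B κ P) := by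
  rcases h with h | h
  · exact h.mono fun _ _ hp => ⟨fun _ => h, fun _ => hp⟩
  · exact h.mono fun _ _ hp => ⟨fun hq => (hp hq).elim, fun hq => (hq.not_not hB h).elim⟩

/-- The limit of good theories along a homogeneous set is good. -/
theorem good_limit {κ : Ordinal.{u}} (hκ : Reg κ) {B : Set Ordinal.{u}} (hB : Unb B κ)
    {c : Cls.{u}} (hv : c.Valid κ) {T : Ordinal.{u} → Set (Nm.{u} Ordinal.{u})}
    (hT : AE B κ fun lam => Good c lam (T lam))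
    (hdec : ∀ ν, ν.Ok c.k c.fl (Iio κ) (Iio ω₁) →
      AE B κ (fun lam => ν ∈ T lam) ∨ AE B κ fun lam => ν ∉ T lam) :
    Good c κ {ν | AE B κ fun lam => ν ∈ T lam} := by
  have hok : ∀ ν : Nm.{u} Ordinal.{u}, (AE B κ fun lam => ν ∈ T lam) →
      ν.Ok c.k c.fl (Iio κ) (Iio ω₁) := by
    intro ν hν
    obtain ⟨lam, -, hl, hg, hm⟩ := (hT.and hν).exists hB
    exact (hg.ok ν hm).mono (Iio_subset_Iio hl.le) subset_rfl
  refine ⟨hok, ?_, ?_, ?_⟩
  · intro l hl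
    have hC : (Iio c.γ ∪ l : Set Ordinal.{u}) ⊆ Iio κ := by
      rintro ξ (h | h)
      · exact lt_trans h hv.2.1
      · exact hl ξ h
    have hF : Few κ {ν : Nm.{u} Ordinal.{u} | ν.Ok c.k c.fl (Iio c.γ ∪ l) (Iio ω₁)} :=
      few_names hκ (Few.union hκ (few_Iio hκ hv.2.1) (few_finite hκ l.finite_toSet))
        (few_Iio hκ (hv.1.trans_lt hv.2.1))
    have h1 := ae_all (A := B) hκ hF
      (P := fun ν lam => (ν.1 ∈ T lam ↔ AE B κ fun lam => ν.1 ∈ T lam))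
      fun ν => Reflect_iff hB (hdec ν.1 (Nm.Ok.mono ν.2 hC subset_rfl))
    have h2 := ae_all (A := B) hκ (few_finite hκ l.finite_toSet)
      (P := fun ξ lam => ξ.1 < lam) fun ξ => ae_gt hκ (hl ξ.1 ξ.2)
    obtain ⟨lam, -, -, ⟨hg, h3⟩, h4⟩ := ((hT.and h1).and h2).exists hB
    obtain ⟨R, hR, hR'⟩ := hg.fin l fun ξ hξ => h4 ⟨ξ, hξ⟩
    exact ⟨R, hR, fun ν hν => (h3 ⟨ν, hν⟩).symm.trans (hR' ν hν)⟩
  · intro ν ξ h
    have h0 := hok _ h
    rw [ok_op, ok_cons, ok_cst] at h0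
    by_contra hn
    have h1 : ∀ ξ' < ξ, AE B κ fun lam => eqN ν (cst ξ') ∉ T lam := by
      intro ξ' hξ'
      refine (hdec (eqN ν (cst ξ')) ?_).resolve_left fun h2 => hn ⟨ξ', hξ', h2⟩
      rw [ok_op, ok_cons, ok_cst]
      exact ⟨h0.1, lt_trans hξ' h0.2⟩
    obtain ⟨lam, -, -, ⟨hg, h3⟩, h4⟩ :=
      ((hT.and h).and (ae_all_lt hκ h0.2 h1)).exists hB
    obtain ⟨ξ', hξ', h5⟩ := hg.std ν ξ h3
    exact h4 ξ' hξ' h5
  · rw [wellFounded_iff_isEmpty_descending_chain]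
    refine ⟨fun ⟨f, hf⟩ => ?_⟩
    have h1 := ae_all (A := B) hκ (few_countable hκ ℕ)
      (P := fun n lam => elN (f (n + 1)) (f n) ∈ T lam) hf
    obtain ⟨lam, -, -, hg, h2⟩ := (hT.and h1).exists hB
    exact (wellFounded_iff_isEmpty_descending_chain.1 hg.wfd).false ⟨f, h2⟩

/-- The relation `P` is decided on `B`. -/
def Reflect_Dec (B : Set Ordinal.{u}) (K : Ordinal.{u}) (P : Ordinal.{u} → Ordinal.{u} → Prop) :
    Prop :=
  (AE B K fun lam => ∀ v < lam, ¬ P lam v) ∨ ∃ v < K, AE B K fun lam => P lam v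

theorem Reflect_flip {κ : Cardinal.{u}} (h : WeaklyCompact κ) {J : Type v}
    (hJ : Few (nxt κ.ord) J) (P : J → Ordinal.{u} → Ordinal.{u} → Prop) :
    ∃ B, Unb B κ.ord ∧ ∀ j, Reflect_Dec B κ.ord (P j) := by
  classical
  obtain ⟨B, hB, hf⟩ := h.normal_flip hJ
    (fun j z => if hz : ∃ v < z, P j z v then some hz.choose else none) (by
      intro j z v hv
      by_cases hz : ∃ v < z, P j z v
      · rw [dif_pos hz, Option.some.injEq] at hv
        exact hv ▸ hz.choose_spec.1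
      · rw [dif_neg hz] at hv
        cases hv)
  refine ⟨B, hB, fun j => ?_⟩
  obtain ⟨v, hv⟩ := hf j
  cases v with
  | none =>
    refine Or.inl (hv.mono fun z _ hz v hvz hP => ?_)
    rw [dif_pos ⟨v, hvz, hP⟩] at hz
    cases hz
  | some v =>
    have h1 : AE B κ.ord fun z => v < z ∧ P j z v := by
      refine hv.mono fun z _ hz => ?_
      by_cases hz' : ∃ v < z, P j z v
      · rw [dif_pos hz', Option.some.injEq] at hz
        exact hz ▸ hz'.choose_spec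
      · rw [dif_neg hz'] at hz
        cases hz
    obtain ⟨z, -, hz, h2, -⟩ := h1.exists hB
    exact Or.inr ⟨v, h2.trans hz, h1.mono fun _ _ h3 => h3.2⟩

theorem Reflect_Dec.of_ex {B : Set Ordinal.{u}} {K : Ordinal.{u}} (hB : Unb B K)
    {P : Ordinal.{u} → Ordinal.{u} → Prop} (h : Reflect_Dec B K P)
    (h1 : AE B K fun lam => ∃ v < lam, P lam v) : ∃ v < K, AE B K fun lam => P lam v := by
  refine h.resolve_left fun h2 => ?_
  obtain ⟨lam, -, -, ⟨v, hv, h3⟩, h4⟩ := (h1.and h2).exists hB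
  exact h4 v hv h3

/-- A short cofinal sequence in a non-regular ordinal. -/
theorem Reflect_sing (lam : Ordinal.{u}) : ∃ (a : Ordinal.{u}) (g : Ordinal.{u} → Ordinal.{u}),
    ω < lam → ¬ Reg lam → a < lam ∧ (∀ i < a, g i < lam) ∧ ∀ x < lam, ∃ i < a, x ≤ g i := by
  classical
  obtain ⟨f, hf⟩ := Ordinal.exists_blsub_cof lam
  refine ⟨lam.cof.ord, fun i => if h : i < lam.cof.ord then f i h else 0, fun h1 h2 => ?_⟩
  refine ⟨lt_of_le_of_ne (Ordinal.ord_cof_le lam) fun h3 => h2 ?_, fun i hi => ?_,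
    fun x hx => ?_⟩
  · have h4 : lam.card = lam.cof := by
      conv_lhs => rw [← h3]
      exact Cardinal.card_ord _
    have h5 : ℵ₀ < lam.card := by
      rw [h4, ← Cardinal.ord_lt_ord, h3, Cardinal.ord_aleph0]
      exact h1
    refine ⟨h5, ⟨h5.le, ?_⟩, by rw [h4, h3]⟩
    rw [h4, h3]
  · simp only [dif_pos hi]
    exact (Ordinal.lt_blsub f i hi).trans_eq hf
  · rw [← hf, Ordinal.lt_blsub_iff] at hx
    obtain ⟨i, hi, hx⟩ := hx
    exact ⟨i, hi, by simp only [dif_pos hi]; exact hx⟩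

theorem Reflect_reg {B : Set Ordinal.{u}} {K : Ordinal.{u}} (hK : Reg K) (hB : Unb B K)
    {a : Ordinal.{u} → Ordinal.{u}} {g : Ordinal.{u} → Ordinal.{u} → Ordinal.{u}}
    (hs : ∀ lam, ω < lam → ¬ Reg lam →
      a lam < lam ∧ (∀ i < a lam, g lam i < lam) ∧ ∀ x < lam, ∃ i < a lam, x ≤ g lam i)
    (h1 : Reflect_Dec B K fun lam v => ¬ Reg lam ∧ v = a lam)
    (h2 : ∀ i < K, Reflect_Dec B K fun lam v => v = g lam i) : AE B K Reg := by
  have hω := ae_gt (A := B) hK hK.omega_lt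
  rcases h1 with h1 | ⟨a0, ha0, h1⟩
  · refine (h1.and hω).mono fun lam _ h3 => ?_
    by_contra h4
    exact h3.1 _ (hs lam h3.2 h4).1 ⟨h4, rfl⟩
  · exfalso
    have h3 : ∀ i : Iio a0, ∃ w < K, AE B K fun lam => w = g lam i.1 := by
      intro i
      refine (h2 i.1 (lt_trans i.2 ha0)).of_ex hB ((h1.and hω).mono fun lam _ h4 => ?_)
      exact ⟨_, (hs lam h4.2 h4.1.1).2.1 i.1 (h4.1.2 ▸ i.2), rfl⟩
    choose w hw hw' using h3
    obtain ⟨d, hd, hd'⟩ := Few.bdd hK (few_Iio hK ha0) w hw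
    have h4 := ae_all (A := B) hK (few_Iio hK ha0) hw'
    obtain ⟨lam, -, -, ⟨⟨h5, h6⟩, h7⟩, h8⟩ :=
      (((h1.and hω).and h4).and (ae_gt hK hd)).exists hB
    obtain ⟨i, hi, h9⟩ := (hs lam h6 h5.1).2.2 d h8
    have hi' : i < a0 := h5.2 ▸ hi
    have := hd' ⟨i, hi'⟩
    rw [h7 ⟨i, hi'⟩] at this
    exact absurd h9 (not_le.2 this)

theorem Reflect_unb {A B : Set Ordinal.{u}} {K : Ordinal.{u}} (hK : Reg K) (hB : Unb B K)
    (hA : Unb A K) (h : Reflect_Dec B K fun lam v => ∀ η ∈ A, v ≤ η → ¬ η < lam) :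
    AE B K (Unb A) := by
  rcases h with h | ⟨v, hv, h⟩
  · refine h.mono fun lam _ h1 d hd => ?_
    by_contra h2
    exact h1 d hd fun η hη h3 h4 => h2 ⟨η, hη, h3, h4⟩
  · obtain ⟨η, hη, h1, h2⟩ := hA v hv
    obtain ⟨lam, -, -, h3, h4⟩ := (h.and (ae_gt hK h2)).exists hB
    exact (h3 η hη h1 h4).elim

theorem Reflect_clo {B : Set Ordinal.{u}} {K : Ordinal.{u}} (hK : Reg K) (hB : Unb B K)
    {f : Ordinal.{u} → Ordinal.{u}} (hf : ∀ a < K, f a < K)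
    (h : Reflect_Dec B K fun lam v => lam ≤ f v) : AE B K fun lam => ∀ a < lam, f a < lam := by
  rcases h with h | ⟨v, hv, h⟩
  · exact h.mono fun lam _ h1 a ha => not_le.1 (h1 a ha)
  · obtain ⟨lam, -, -, h3, h4⟩ := (h.and (ae_gt hK (hf v hv))).exists hB
    exact absurd h3 (not_le.2 h4)

/-- The data valid at `a`. -/
def Reflect_V (a : Ordinal.{u}) : Set (Cls.{u} × Nm.{u} Ordinal.{u} × ℕ) :=
  {d | d.1.Valid a ∧ d.2.1.Ok d.1.k d.1.fl (Iio a) (Iio ω₁)}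

theorem Reflect_V_mono {a a' : Ordinal.{u}} (h : a ≤ a') : Reflect_V a ⊆ Reflect_V a' :=
  fun _ hd => ⟨⟨hd.1.1, hd.1.2.1.trans_le h, hd.1.2.2⟩,
    Nm.Ok.mono hd.2 (Iio_subset_Iio h) subset_rfl⟩

theorem Reflect_list_bdd {lam : Ordinal.{u}} (h : Reg lam) (l : List Ordinal.{u})
    (hl : ∀ x ∈ l, x < lam) : ∃ a < lam, ∀ x ∈ l, x < a := by
  induction l with
  | nil => exact ⟨0, h.pos, by simp⟩
  | cons y l ih =>
    obtain ⟨a, ha, h1⟩ := ih fun x hx => hl x (List.mem_cons_of_mem _ hx)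
    refine ⟨max a (y + 1), max_lt ha (h.succ_lt (hl y List.mem_cons_self)), fun x hx => ?_⟩
    rcases List.mem_cons.1 hx with rfl | hx
    · exact lt_max_of_lt_right (Order.lt_add_one_iff.2 le_rfl)
    · exact lt_max_of_lt_left (h1 x hx)

theorem Reflect_V_lim {lam : Ordinal.{u}} (h : Reg lam) {d : Cls.{u} × Nm.{u} Ordinal.{u} × ℕ}
    (hd : d ∈ Reflect_V lam) : ∃ a < lam, d ∈ Reflect_V a := by
  obtain ⟨a, ha, h1⟩ := Reflect_list_bdd h (d.1.γ :: d.2.1.cs) (by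
    intro x hx
    rcases List.mem_cons.1 hx with rfl | hx
    · exact hd.1.2.1
    · exact hd.2.2.1 x hx)
  exact ⟨a, ha, ⟨hd.1.1, h1 _ List.mem_cons_self, hd.1.2.2⟩, hd.2.1,
    fun ξ hξ => h1 ξ (List.mem_cons_of_mem _ hξ), hd.2.2.2⟩

theorem Reflect_V_few {μ a : Ordinal.{u}} (hμ : Reg μ) (h1 : Few μ {c : Cls.{u} | c.Valid a})
    (h2 : Few μ (Iio a)) : Few μ (Reflect_V a) := by
  have h3 : Few μ (Σ c : {c : Cls.{u} | c.Valid a},
      ({ν : Nm.{u} Ordinal.{u} | ν.Ok c.1.k c.1.fl (Iio a) (Iio ω₁)} × ℕ)) := by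
    refine Few.sigma hμ h1 fun c => Few.prod hμ (few_names hμ h2 ?_) (few_countable hμ ℕ)
    exact h2.subset (Iio_subset_Iio (c.2.1.trans c.2.2.1.le))
  refine h3.of_surj (fun p => ⟨(p.1.1, p.2.1.1, p.2.2), p.1.2, p.2.1.2⟩) ?_
  rintro ⟨⟨c, ν, j⟩, hc, hν⟩
  exact ⟨⟨⟨c, hc⟩, ⟨ν, hν⟩, j⟩, rfl⟩

theorem Reflect_fo_lt {T : Set (Nm.{u} Ordinal.{u})} {ν : Nm.{u} Ordinal.{u}} {j : ℕ}
    {z v : Ordinal.{u}} (h : fo T ν j z = some v) : v < z := by
  unfold fo at h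
  split_ifs at h with h1
  rw [Option.some.injEq] at h
  have h2 : ({z' | z' < z ∧ eqN (ν.sb j z) (cst z') ∈ T} : Set Ordinal.{u}).Nonempty := h1
  exact h ▸ (csInf_mem h2).1

theorem Reflect_fo_congr {T T' : Set (Nm.{u} Ordinal.{u})} {ν : Nm.{u} Ordinal.{u}} {j : ℕ}
    {z : Ordinal.{u}}
    (h : ∀ z' < z, (eqN (ν.sb j z) (cst z') ∈ T ↔ eqN (ν.sb j z) (cst z') ∈ T')) :
    fo T ν j z = fo T' ν j z := by
  have h1 : ∀ z', (z' < z ∧ eqN (ν.sb j z) (cst z') ∈ T) ↔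
      (z' < z ∧ eqN (ν.sb j z) (cst z') ∈ T') := fun z' => and_congr_right (h z')
  have h2 : ({z' | z' < z ∧ eqN (ν.sb j z) (cst z') ∈ T} : Set Ordinal.{u}) =
      {z' | z' < z ∧ eqN (ν.sb j z) (cst z') ∈ T'} := Set.ext h1
  unfold fo
  by_cases h3 : ∃ z' < z, eqN (ν.sb j z) (cst z') ∈ T
  · rw [if_pos h3, if_pos ((exists_congr h1).1 h3), h2]
  · rw [if_neg h3, if_neg fun h4 => h3 ((exists_congr h1).2 h4)]

theorem reflect_PP {κ : Cardinal.{u}} (h : WeaklyCompact κ) {A : Set Ordinal.{u}}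
    (hA : Unb A κ.ord) (hP : PP A κ.ord) :
    Unb {lam | Reg lam ∧ Unb A lam ∧ PP A lam} κ.ord := by
  classical
  intro δ hδ
  by_contra hno
  have hK := h.reg
  have hI := h.inacc
  have hN : Reg (nxt κ.ord) := reg_nxt hK.omega_lt.le
  have hVK : Few (nxt κ.ord) (Reflect_V κ.ord) :=
    Reflect_V_few hN (few_cls_nxt hI) (few_Iio_nxt _)
  have hVa : ∀ a < κ.ord, Few κ.ord (Reflect_V a) := fun a ha =>
    Reflect_V_few hK (few_cls hI ha) (few_Iio hK ha)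
  choose a g hs using Reflect_sing.{u}
  have hdata : ∀ lam : Ordinal.{u}, ∃ (d : Cls.{u} × Nm.{u} Ordinal.{u} × ℕ)
      (T : Set (Nm.{u} Ordinal.{u})), ¬ PP A lam → d ∈ Reflect_V lam ∧ Good d.1 lam T ∧
        ¬ ∃ v, AE A lam fun z => fo T d.2.1 d.2.2 z = v := by
    intro lam
    by_cases h1 : PP A lam
    · exact ⟨(⟨0, ∅, ∅, 0, True, True, 0⟩, par 0, 0), ∅, fun h2 => (h2 h1).elim⟩
    · unfold PP at h1
      simp only [not_forall] at h1
      obtain ⟨c, hc, T, hT, ν, hν, j, h2⟩ := h1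
      exact ⟨(c, ν, j), T, fun _ => ⟨⟨hc, hν⟩, hT, h2⟩⟩
  choose d T hd using hdata
  obtain ⟨cd0, hcd0, hcd1⟩ := hVK.exists_inj_nxt
  let cd : Cls.{u} × Nm.{u} Ordinal.{u} × ℕ → Ordinal.{u} := fun x =>
    if hx : x ∈ Reflect_V κ.ord then cd0 ⟨x, hx⟩ else 0
  have hcd_lt : ∀ x ∈ Reflect_V κ.ord, cd x < κ.ord := by
    intro x hx
    simp only [cd, dif_pos hx]
    exact hcd1 _
  have hcd_inj : ∀ x ∈ Reflect_V κ.ord, ∀ y ∈ Reflect_V κ.ord, cd x = cd y → x = y := by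
    intro x hx y hy hxy
    simp only [cd, dif_pos hx, dif_pos hy] at hxy
    exact congrArg Subtype.val (hcd0 hxy)
  have hbd : ∀ a : Ordinal.{u}, ∃ b, a < κ.ord → b < κ.ord ∧ ∀ x ∈ Reflect_V a, cd x < b := by
    intro a
    by_cases ha : a < κ.ord
    · obtain ⟨b, hb, hb'⟩ := Few.bdd hK (hVa a ha) (fun x => cd x.1)
        fun x => hcd_lt _ (Reflect_V_mono ha.le x.2)
      exact ⟨b, fun _ => ⟨hb, fun x hx => hb' ⟨x, hx⟩⟩⟩
    · exact ⟨0, fun h1 => (ha h1).elim⟩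
  choose f hf using hbd
  have hIio := few_Iio_nxt κ.ord
  have hJ : Few (nxt κ.ord)
      (Reflect_V κ.ord ⊕ (Iio κ.ord ⊕ ((Iio κ.ord × Option (Iio κ.ord)) ⊕ ℕ))) :=
    Few.sum hN hVK (Few.sum hN hIio (Few.sum hN (Few.prod hN hIio (Few.option hN hIio))
      (few_countable hN ℕ)))
  obtain ⟨B, hB, hD⟩ := Reflect_flip h hJ
    (Sum.elim (fun x lam _ => x.1.2.1 ∈ T lam)
      (Sum.elim (fun i lam v => v = g lam i.1)
        (Sum.elim (fun p lam z => z ∈ A ∧ p.1.1 ≤ z ∧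
            fo (T lam) (d lam).2.1 (d lam).2.2 z ≠ p.2.map Subtype.val)
          fun n lam v => match n with
            | 0 => ¬ Reg lam ∧ v = a lam
            | 1 => ∀ η ∈ A, v ≤ η → ¬ η < lam
            | 2 => lam ≤ f v
            | _ => v = cd (d lam))))
  have hreg : AE B κ.ord Reg := Reflect_reg hK hB hs (hD (.inr (.inr (.inr 0))))
    fun i hi => hD (.inr (.inl ⟨i, hi⟩))
  have hunb : AE B κ.ord (Unb A) := Reflect_unb hK hB hA (hD (.inr (.inr (.inr 1))))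
  have hclo : AE B κ.ord fun lam => ∀ x < lam, f x < lam :=
    Reflect_clo hK hB (fun x hx => (hf x hx).1) (hD (.inr (.inr (.inr 2))))
  have hbad : AE B κ.ord fun lam => d lam ∈ Reflect_V lam ∧ Good (d lam).1 lam (T lam) ∧
      ¬ ∃ v, AE A lam fun z => fo (T lam) (d lam).2.1 (d lam).2.2 z = v := by
    refine ((hreg.and hunb).and (ae_gt hK hδ)).mono fun lam hl h1 => hd lam fun h2 => ?_
    exact hno ⟨lam, ⟨h1.1.1, h1.1.2, h2⟩, h1.2.le, hl⟩
  have hcode : ∃ v < κ.ord, AE B κ.ord fun lam => v = cd (d lam) := by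
    refine Reflect_Dec.of_ex (P := fun lam v => v = cd (d lam)) hB
      (hD (.inr (.inr (.inr 3)))) ?_
    refine ((hreg.and hclo).and hbad).mono fun lam hl h1 => ⟨_, ?_, rfl⟩
    obtain ⟨x, hx, h2⟩ := Reflect_V_lim h1.1.1 h1.2.1
    exact ((hf x (hx.trans hl)).2 _ h2).trans (h1.1.2 x hx)
  obtain ⟨v0, -, hv0⟩ := hcode
  obtain ⟨l0, -, hl0, h1, h2⟩ := (hv0.and hbad).exists hB
  have hd0 : d l0 ∈ Reflect_V κ.ord := Reflect_V_mono hl0.le h2.1
  have hconst : AE B κ.ord fun lam => d lam = d l0 := by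
    refine (hv0.and hbad).mono fun lam hl h3 => ?_
    exact hcd_inj _ (Reflect_V_mono hl.le h3.2.1) _ hd0 (h3.1.symm.trans h1)
  have hdec : ∀ ν : Nm.{u} Ordinal.{u}, ν.Ok (d l0).1.k (d l0).1.fl (Iio κ.ord) (Iio ω₁) →
      AE B κ.ord (fun lam => ν ∈ T lam) ∨ AE B κ.ord fun lam => ν ∉ T lam := by
    intro ν hν
    rcases hD (.inl ⟨((d l0).1, ν, 0), hd0.1, hν⟩) with h3 | ⟨_, -, h3⟩
    · exact Or.inr ((h3.and (ae_gt hK hK.pos)).mono fun lam _ h4 => h4.1 0 h4.2)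
    · exact Or.inl h3
  have hgood := good_limit hK hB hd0.1 (T := T)
    ((hconst.and hbad).mono fun lam _ h3 => h3.1 ▸ h3.2.2.1) hdec
  obtain ⟨v, δ', hδ', hv⟩ := hP _ hd0.1 _ hgood _ hd0.2 (d l0).2.2
  obtain ⟨v', hv'⟩ : ∃ v' : Option (Iio κ.ord), v'.map Subtype.val = v := by
    cases v with
    | none => exact ⟨none, rfl⟩
    | some x =>
      obtain ⟨η, hη, h3, h4⟩ := hA δ' hδ'
      exact ⟨some ⟨x, (Reflect_fo_lt (hv η hη h3 h4)).trans h4⟩, rfl⟩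
  obtain ⟨z, hz, hz'⟩ := Reflect_Dec.of_ex (P := fun lam z => z ∈ A ∧ δ' ≤ z ∧
      fo (T lam) (d lam).2.1 (d lam).2.2 z ≠ v'.map Subtype.val) hB
      (hD (.inr (.inr (.inl (⟨δ', hδ'⟩, v'))))) (by
    refine (hbad.and (ae_gt hK hδ')).mono fun lam _ h3 => ?_
    by_contra h4
    refine h3.1.2.2 ⟨v'.map Subtype.val, δ', h3.2, fun η hη h5 h6 => ?_⟩
    by_contra h7
    exact h4 ⟨η, h6, hη, h5, h7⟩)
  have hbits := ae_all_lt (A := B) hK hz (P := fun z' lam =>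
      (eqN ((d l0).2.1.sb (d l0).2.2 z) (cst z') ∈ T lam ↔
        AE B κ.ord fun lam => eqN ((d l0).2.1.sb (d l0).2.2 z) (cst z') ∈ T lam)) (by
    intro z' hz''
    refine Reflect_iff hB (hdec _ ?_)
    rw [ok_op, ok_cons, ok_cst]
    exact ⟨Nm.Ok.sb hd0.2 _ hz, lt_trans hz'' hz⟩)
  obtain ⟨lam, -, -, ⟨h3, h4⟩, h5⟩ := ((hz'.and hconst).and hbits).exists hB
  refine h3.2.2 ?_
  rw [h4, hv', ← hv z h3.1 h3.2.1 hz]
  exact Reflect_fo_congr h5

end Pool.Agent.P.MP_833f7a_lc
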