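import Pool.Agent.P.MP_833f7a_lc.FewGood
import Pool.Agent.P.MP_833f7a_lc.Reflect
import Pool.Agent.P.MP_833f7a_lc.HInd
import Pool.Agent.P.MP_833f7a_lc.ModM
import Pool.Agent.P.MP_833f7a_lc.ModW

/-!
The main theorem.
-/

universe u v w

namespace Pool.Agent.P.MP_833f7a_lc

open Cardinal Set ZFSet Pool.Agent.Lib.Forcing Pool.Agent.P.MP_af0a18_lc Pool.Agent.P.MP_37b794_lc

/-- The first `l0 + 1` good ordinals. -/
theorem exists_sys {κ : Ordinal.{u}} (hκ : Reg κ) (h1 : Ordinal.omega 1 < κ) {A : Set Ordinal.{u}}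
    (h : Unb {lam | Reg lam ∧ Unb A lam ∧ PP A lam} κ) :
    ∃ s : Ordinal.{u} → Ordinal.{u}, StrictMonoOn s (Iic (s 0)) ∧ s (s 0) < κ ∧
      Sys (s '' Iic (s 0)) A (s 0) := by
  let G : Set Ordinal.{u} :=
    {lam | κ ≤ lam ∨ Ordinal.omega 1 < lam ∧ Reg lam ∧ Unb A lam ∧ PP A lam}
  have hG : ¬ BddAbove G := by
    rintro ⟨a, ha⟩
    exact absurd (ha (Or.inl (le_max_left κ (a + 1)) : max κ (a + 1) ∈ G))
      (not_le.2 (lt_of_lt_of_le (Order.lt_add_one_iff.2 le_rfl) (le_max_right _ _)))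
  let s := Ordinal.enumOrd G
  have hs : StrictMono s := Ordinal.enumOrd_strictMono hG
  have hlt : ∀ ξ < κ, s ξ < κ := by
    intro ξ
    induction ξ using WellFoundedLT.induction with
    | ind ξ ih =>
      intro hξ
      obtain ⟨δ, hδ, hb⟩ := Few.bdd hκ (few_Iio hκ hξ) (fun i => s i.1)
        fun i => ih i.1 i.2 (lt_trans i.2 hξ)
      obtain ⟨lam, hl, h2, h3⟩ := h (max δ (Ordinal.omega 1 + 1)) (max_lt hδ (hκ.succ_lt h1))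
      refine lt_of_le_of_lt (Ordinal.enumOrd_le_of_forall_lt (Or.inr ⟨?_, hl⟩) fun b hb' => ?_) h3
      · exact Order.add_one_le_iff.1 ((le_max_right _ _).trans h2)
      · exact lt_of_lt_of_le (hb ⟨b, hb'⟩) ((le_max_left _ _).trans h2)
  have h0 : s 0 < κ := hlt 0 hκ.pos
  have hgood : ∀ μ ∈ s '' Iic (s 0), Ordinal.omega 1 < μ ∧ Reg μ ∧ Unb A μ ∧ PP A μ := by
    rintro _ ⟨ξ, hξ, rfl⟩
    exact (Ordinal.enumOrd_mem hG ξ).resolve_left (not_le.2 (hlt ξ (lt_of_le_of_lt hξ h0)))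
  refine ⟨s, hs.strictMonoOn _, hlt _ h0, ⟨fun μ hμ => (hgood μ hμ).2.1,
    fun μ hμ => (hgood μ hμ).2.2.1, fun μ hμ => (hgood μ hμ).1⟩, fun μ hμ => (hgood μ hμ).2.2.2,
    ?_, ⟨0, (zero_le : (0 : Ordinal.{u}) ≤ _), rfl⟩, ?_, ?_⟩
  · intro μ hμ
    obtain ⟨g1, g2, -, -⟩ := hgood μ hμ
    obtain ⟨ξ, hξ, rfl⟩ := hμ
    have hξ' : ξ < s ξ := by
      rcases eq_or_ne ξ 0 with rfl | hne
      · exact g2.pos
      · exact lt_of_le_of_lt hξ (hs (pos_iff_ne_zero.2 hne))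
    obtain ⟨δ, hδ, hb⟩ := Few.bdd g2 (few_Iio g2 hξ') (fun i => s i.1) fun i => hs i.2
    refine ⟨max δ (Ordinal.omega 1), max_lt hδ g1, le_max_right _ _, ?_⟩
    rintro _ ⟨ζ, -, rfl⟩ hlt'
    exact lt_of_lt_of_le (hb ⟨ζ, hs.lt_iff_lt.1 hlt'⟩) (le_max_left _ _)
  · rintro _ ⟨ξ, -, rfl⟩
    exact hs.monotone (zero_le)
  · exact fun μ hμ hl => (few_Iic (hgood μ hμ).2.1 hl).image s

theorem main {κ : Cardinal.{u}} (hκ : WeaklyCompact κ) (hP : PerfectSetProp κ) :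
    ∃ M : ZFSet.{u}, IsZFModel (M : Set ZFSet.{u}) ∧ Choice (M : Set ZFSet.{u}) ∧
      ∃ δ ∈ M, ∃ S ∈ M, WeaklyCompactIn M δ ∧
        (∀ μ ∈ S, μ ∈ δ ∧ omega ∈ μ ∧ MeasurableIn M μ) ∧
        ∃ m ∈ S, (∀ μ ∈ S, m ⊆ μ) ∧ OrderTypeIn M S m := by
  obtain ⟨A, hA, hPP⟩ := exists_PP hκ hP
  have hI := hκ.inacc
  have hR := hκ.reg
  have h1 : Ordinal.omega 1 < κ.ord := by
    refine hR.omega1_le.lt_of_ne fun he => ?_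
    have h2 := hI.2 Ordinal.omega0 hR.omega_lt
    refine absurd h2 (not_lt.2 ?_)
    rw [← he, Ordinal.card_omega, Cardinal.mk_set, Cardinal.mk_Iio_ordinal, Ordinal.card_omega0]
    simp only [lift_aleph0, lift_power, lift_ofNat, lift_aleph, Ordinal.lift_one]
    rw [← succ_aleph0]
    exact Order.succ_le_of_lt (cantor _)
  obtain ⟨s, hs, hlt, hS⟩ := exists_sys hR h1 (reflect_PP hκ hA hPP)
  set S := s '' Iic (s 0) with hSdef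
  have hZF : IsZFModel (Mz (tailF S A) κ.ord : Set ZFSet.{u}) := isZFModel_Mz hI
  have h0 : 0 < s 0 := (hS.bs.reg _ hS.mem).pos
  have hle : ∀ μ ∈ S, μ ≤ s (s 0) := by
    rintro _ ⟨ξ, hξ, rfl⟩
    exact hs.monotoneOn hξ (mem_Iic.2 le_rfl) hξ
  have hκ' : ∀ μ ∈ S, μ < κ.ord := fun μ hμ => lt_of_le_of_lt (hle μ hμ) hlt
  have hH : ∀ μ ∈ S, ∀ b k, μ ≤ b → HH S A b k μ := fun μ hμ b k hb => hh_all hS hμ hb k
  have hδ : s (s 0) ∈ S := ⟨_, mem_Iic.2 le_rfl, rfl⟩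
  obtain ⟨Z, hZ, hZ'⟩ := Mz_S hR hS.bs hlt
  obtain ⟨U, hU, hU'⟩ := Mz_ultra hI hS.bs hδ hlt
  have hs0 : s 0 < s (s 0) := hs (mem_Iic.2 h0.le) (mem_Iic.2 le_rfl) h0
  refine ⟨Mz (tailF S A) κ.ord, hZF, choice_Mz hI, (s (s 0)).toZFSet, ord_mem_Mz.2 hlt, Z, hZ,
    weaklyCompactIn_of_tail hZF (hS.bs.reg _ hδ) (hS.bs.unb _ hδ) (ord_mem_Mz.2 hlt) hU hU'
      (fun X hX => Mz_dec hR hlt (hH _ hδ) hX)
      (fun f hf => Mz_normal hR hS.bs hδ hlt (hH _ hδ) hf), ?_, (s 0).toZFSet,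
    (hZ' _).2 ⟨_, hS.mem, hs0, rfl⟩, ?_, ?_⟩
  · intro y hy
    obtain ⟨μ, hμ, hμδ, rfl⟩ := (hZ' y).1 hy
    obtain ⟨V, hV, hV'⟩ := Mz_ultra hI hS.bs hμ (hκ' μ hμ)
    exact ⟨Ordinal.toZFSet_mem_toZFSet_iff.2 hμδ, omega_mem_toZFSet (hS.bs.reg μ hμ).omega_lt,
      measurableIn_of_tail hZF (hS.bs.reg μ hμ) (hS.bs.unb μ hμ) (ord_mem_Mz.2 (hκ' μ hμ)) hV hV'
        fun X hX => Mz_dec hR (hκ' μ hμ) (hH μ hμ) hX⟩
  · intro y hy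
    obtain ⟨μ, hμ, -, rfl⟩ := (hZ' y).1 hy
    exact Ordinal.toZFSet_subset_toZFSet_iff.2 (hS.le μ hμ)
  · refine orderTypeIn_of_enum hZF hZ (ord_mem_Mz.2 (hκ' _ hS.mem)) (f := s)
      (hs.mono Iio_subset_Iic_self) fun y => (hZ' y).trans ⟨?_, ?_⟩
    · rintro ⟨_, ⟨ξ, hξ, rfl⟩, h2, rfl⟩
      exact ⟨ξ, (hs.lt_iff_lt hξ (mem_Iic.2 le_rfl)).1 h2, rfl⟩
    · rintro ⟨ξ, hξ, rfl⟩
      exact ⟨_, ⟨ξ, hξ.le, rfl⟩, hs (mem_Iic.2 hξ.le) (mem_Iic.2 le_rfl) hξ, rfl⟩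

end Pool.Agent.P.MP_833f7a_lc
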