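import Pool.Agent.P.MP_833f7a_lc.CodeB

/-!
The calculus of term-definable maps and predicates at a fixed level.
-/

universe u v w

namespace Pool.Agent.P.MP_833f7a_lc

open Cardinal Ordinal Set Code
open scoped Classical

/-- The standing hypothesis. -/
structure TH (b : Ordinal.{u}) (Cs : Set Code.{u}) : Prop where
  om : ω ≤ b
  sub : ∀ y ∈ Cs, y.In b

variable {F : FSys.{u}} {b : Ordinal.{u}} {Cs : Set Code.{u}} {G G' : CE.{u} → CE.{u}}
  {f g : CE.{u} → Code.{u}} {P Q : CE.{u} → Prop}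

/-- Put the listed entries in front of the value of `s`. -/
def TDL_pre (is : List ℕ) (s : Trm) : Trm := is.foldr (fun i r => .cons (Trm.tls i) r) s

theorem TDL_ev_pre (is : List ℕ) (s : Trm) (e : CE.{u}) :
    ev F (TDL_pre is s) b e = apL (is.map e) (ev F s b e) := by
  induction is with
  | nil => rfl
  | cons i is ih =>
    change ev F (.cons (Trm.tls i) (TDL_pre is s)) b e = _
    rw [ev_cons, ih, ev_tls, List.map_cons, apL_cons]
    beta_reduce
    rw [Nat.zero_add]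

theorem TDL_map_range (l q : List Code.{u}) (e : CE.{u}) :
    ((List.range q.length).map (· + l.length)).map (apL l (apL q e)) = q := by
  refine List.ext_getElem (by simp) fun i h₁ h₂ => ?_
  simp only [List.getElem_map, List.getElem_range]
  rw [apL_add, apL_lt _ _ h₂]

theorem TDL_tls (l : List Code.{u}) (e : CE.{u}) : ev F (Trm.tls l.length) b (apL l e) = e := by
  rw [ev_tls]; funext i; exact apL_add l e i

/-- Copy the parameters that stand behind `l` in front of the value of `s`. -/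
theorem TDL_ev_par (l q : List Code.{u}) (s : Trm) (e : CE.{u}) :
    ev F (TDL_pre ((List.range q.length).map (· + l.length)) s) b (apL l (apL q e)) =
      apL q (ev F s b (apL l (apL q e))) := by
  rw [TDL_ev_pre, TDL_map_range]

theorem TDL_join (h : TE F b Cs G) (h' : TE F b Cs G') : ∃ (t t' : Trm) (q : List Code.{u}),
    (∀ y ∈ q, y ∈ Cs) ∧ ∀ e, InE e b → ev F t b (apL q e) = G e ∧ ev F t' b (apL q e) = G' e := by
  obtain ⟨t, q, hq, ht⟩ := h
  obtain ⟨t', q', hq', ht'⟩ := h'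
  refine ⟨.comp t (TDL_pre ((List.range q.length).map (· + ([] : List Code.{u}).length))
    (Trm.tls (q ++ q').length)), .comp t' (Trm.tls q.length), q ++ q',
    fun y hy => (List.mem_append.1 hy).elim (hq y) (hq' y), fun e he => ⟨?_, ?_⟩⟩
  · have := TDL_ev_par (F := F) (b := b) [] q (Trm.tls (q ++ q').length) (apL q' e)
    rw [apL_nil, ← apL_append, TDL_tls] at this
    rw [ev_comp, this, ht e he]
  · rw [ev_comp, apL_append, TDL_tls, ht' e he]

/-- A term that moves the head behind the parameters. -/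
theorem TDL_under (q : List Code.{u}) : ∃ s : Trm, ∀ (x : Code.{u}) (e : CE.{u}),
    ev F s b (ec x (apL q e)) = apL q (ec x e) := by
  refine ⟨TDL_pre ((List.range q.length).map (· + 1)) (.cons .id (.comp (Trm.tls q.length) .tl)),
    fun x e => ?_⟩
  refine (TDL_ev_par [x] q _ e).trans ?_
  rw [ev_cons, ev_comp]
  exact congrArg (fun z => apL q (ec x z)) (TDL_tls q e)

theorem TE.congr (h : TE F b Cs G) (hG : ∀ e, InE e b → G e = G' e) : TE F b Cs G' := by
  obtain ⟨t, q, hq, ht⟩ := h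
  exact ⟨t, q, hq, fun e he => (ht e he).trans (hG e he)⟩
theorem TD.congr (h : TD F b Cs f) (hf : ∀ e, InE e b → f e = g e) : TD F b Cs g :=
  TE.congr h fun e he => funext fun _ => hf e he
theorem PD.congr (h : PD F b Cs P) (hP : ∀ e, InE e b → (P e ↔ Q e)) : PD F b Cs Q :=
  TD.congr h fun e he => bl_congr (hP e he)
theorem TE.isIn (H : TH b Cs) (h : TE F b Cs G) {e : CE.{u}} (he : InE e b) : InE (G e) b := by
  obtain ⟨t, q, hq, ht⟩ := h
  rw [← ht e he]
  exact ev_in t H.om (inE_apL (fun y hy => H.sub y (hq y hy)) he)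
theorem TD.isIn (H : TH b Cs) (h : TD F b Cs f) {e : CE.{u}} (he : InE e b) : (f e).In b :=
  TE.isIn H h he 0
theorem TE.id : TE F b Cs fun e => e := ⟨.id, [], by simp, fun _ _ => rfl⟩
theorem TE.trm (t : Trm) : TE F b Cs (ev F t b) := ⟨t, [], by simp, fun _ _ => rfl⟩
theorem TE.comp (H : TH b Cs) (h : TE F b Cs G) (h' : TE F b Cs G') :
    TE F b Cs fun e => G (G' e) := by
  have hin := fun e he => TE.isIn H h' (e := e) he
  obtain ⟨t, q, hq, ht⟩ := h
  obtain ⟨t', q', hq', ht'⟩ := h'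
  refine ⟨.comp t (TDL_pre ((List.range q.length).map (· + ([] : List Code.{u}).length))
    (.comp t' (Trm.tls q.length))), q ++ q',
    fun y hy => (List.mem_append.1 hy).elim (hq y) (hq' y), fun e he => ?_⟩
  have := TDL_ev_par (F := F) (b := b) [] q (.comp t' (Trm.tls q.length)) (apL q' e)
  rw [apL_nil, ev_comp, TDL_tls, ht' e he] at this
  rw [ev_comp, apL_append, this, ht _ (hin e he)]
theorem TE.ev (t : Trm) (h : TE F b Cs G) : TE F b Cs fun e => ev F t b (G e) := by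
  obtain ⟨s, q, hq, hs⟩ := h
  exact ⟨.comp t s, q, hq, fun e he => by rw [ev_comp, hs e he]⟩
theorem TE.cons (h : TD F b Cs f) (h' : TE F b Cs G) : TE F b Cs fun e => ec (f e) (G e) := by
  obtain ⟨t, t', q, hq, ht⟩ := TDL_join h h'
  exact ⟨.cons t t', q, hq, fun e he => by rw [ev_cons, (ht e he).1, (ht e he).2]⟩
theorem TE.shift (n : ℕ) : TE F b Cs fun e i => e (i + n) :=
  ⟨Trm.tls n, [], by simp, fun _ _ => ev_tls n⟩
theorem TE.ofL {fs : List (CE.{u} → Code.{u})} (h : ∀ f ∈ fs, TD F b Cs f) :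
    TE F b Cs fun e => ofL (fs.map fun f => f e) := by
  induction fs with
  | nil => exact ⟨.op .zero, [], by simp, fun _ _ => rfl⟩
  | cons f fs ih =>
    exact TE.cons (h f (by simp)) (ih fun g hg => h g (by simp [hg]))
theorem TE.entry (h : TE F b Cs G) (i : ℕ) : TD F b Cs fun e => G e i :=
  ((h.ev (Trm.tls i)).ev (.op .fst)).congr fun e _ => by
    rw [ev_op, ev_tls]
    exact funext fun _ => congrArg (G e) (Nat.zero_add i)
theorem TD.var (i : ℕ) : TD F b Cs fun e => e i := TE.id.entry i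
theorem TD.cst {y : Code.{u}} (hy : y ∈ Cs) : TD F b Cs fun _ => y :=
  ⟨.op .fst, [y], by simpa using hy, fun _ _ => rfl⟩
theorem TD.zero : TD F b Cs fun _ => od 0 := ⟨.op .zero, [], by simp, fun _ _ => rfl⟩
theorem TD.comp (H : TH b Cs) (h : TD F b Cs f) (h' : TE F b Cs G) :
    TD F b Cs fun e => f (G e) := TE.comp H h h'
theorem PD.comp (H : TH b Cs) (h : PD F b Cs P) (h' : TE F b Cs G) :
    PD F b Cs fun e => P (G e) := TD.comp H h h'
theorem TD.shift (H : TH b Cs) (h : TD F b Cs f) (n : ℕ) :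
    TD F b Cs fun e => f fun i => e (i + n) := TD.comp H h (TE.shift n)
theorem PD.shift (H : TH b Cs) (h : PD F b Cs P) (n : ℕ) :
    PD F b Cs fun e => P fun i => e (i + n) := PD.comp H h (TE.shift n)
theorem TD.op (o : Op) (h : TD F b Cs f) (h' : TD F b Cs g) :
    TD F b Cs fun e => opv (El F) o (f e) (g e) := (TE.cons h h').ev (.op o)
theorem TD.lv (h : TD F b Cs f) : TD F b Cs fun e => od (f e).lv := TD.op .lv h h
theorem TD.nm (h : TD F b Cs f) : TD F b Cs fun e => (f e).nm := TD.op .nm h h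
theorem TD.q1 (h : TD F b Cs f) : TD F b Cs fun e => (f e).q1 := TD.op .q1 h h
theorem TD.q2 (h : TD F b Cs f) : TD F b Cs fun e => (f e).q2 := TD.op .q2 h h
theorem TDL_tt : TD F b Cs fun _ => tt := ⟨Trm.tt, [], by simp, fun _ _ => ev_tt⟩
theorem PD.const (p : Prop) : PD F b Cs fun _ => p := by
  by_cases h : p
  · exact TD.congr TDL_tt fun _ _ => (bl_eq_tt.2 h).symm
  · exact TD.congr TD.zero fun _ _ => (bl_eq_zero.2 h).symm
theorem PD.eq (h : TD F b Cs f) (h' : TD F b Cs g) : PD F b Cs fun e => f e = g e :=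
  TD.op .eq h h'
theorem PD.lt (h : TD F b Cs f) (h' : TD F b Cs g) : PD F b Cs fun e => (f e).Lt (g e) :=
  TD.op .lt h h'
theorem PD.el (h : TD F b Cs f) (h' : TD F b Cs g) : PD F b Cs fun e => El F (f e) (g e) :=
  TD.op .el h h'
theorem PD.eqv (h : TD F b Cs f) (h' : TD F b Cs g) :
    PD F b Cs fun e => cl F (f e) = cl F (g e) := TD.op .eqv h h'
theorem TDL_nand (h : PD F b Cs P) (h' : PD F b Cs Q) : PD F b Cs fun e => ¬ (P e ∧ Q e) :=
  TD.congr (TD.op .nand h h') fun _ _ => bl_congr (by rw [bl_eq_tt, bl_eq_tt])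
theorem TDL_not (h : PD F b Cs P) : PD F b Cs fun e => ¬ P e :=
  (TDL_nand h h).congr fun _ _ => by rw [and_self]
theorem TDL_and (h : PD F b Cs P) (h' : PD F b Cs Q) : PD F b Cs fun e => P e ∧ Q e :=
  (TDL_not (TDL_nand h h')).congr fun _ _ => not_not
theorem PD.mem (H : TH b Cs) (h : TD F b Cs f) (h' : TD F b Cs g) :
    PD F b Cs fun e => cl F (f e) ∈ cl F (g e) :=
  (TDL_and (PD.el (TD.op .mat h h') h') (PD.eqv (TD.op .mat h h') h)).congr fun e _ => by
    rw [mem_cl, opv_mat]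
    exact ⟨fun p => ⟨_, p⟩, fun p => (least_spec (fun x hx => ⟨_, hx.1.isIn⟩) p).1⟩
theorem PD.tt (h : TD F b Cs f) : PD F b Cs fun e => f e = tt := PD.eq h TDL_tt
theorem PD.isOd (h : TD F b Cs f) : PD F b Cs fun e => ∃ a, f e = od a :=
  (PD.eq h h.lv).congr fun e _ => ⟨fun p => ⟨_, p⟩, fun ⟨a, p⟩ => by rw [p, lv_od]⟩
theorem PD.not (h : PD F b Cs P) : PD F b Cs fun e => ¬ P e := TDL_not h
theorem PD.and (h : PD F b Cs P) (h' : PD F b Cs Q) : PD F b Cs fun e => P e ∧ Q e := TDL_and h h'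
theorem PD.or (h : PD F b Cs P) (h' : PD F b Cs Q) : PD F b Cs fun e => P e ∨ Q e :=
  (TDL_nand h.not h'.not).congr fun _ _ => by tauto
theorem PD.imp (h : PD F b Cs P) (h' : PD F b Cs Q) : PD F b Cs fun e => P e → Q e :=
  (TDL_nand h h'.not).congr fun _ _ => by tauto
theorem PD.iff (h : PD F b Cs P) (h' : PD F b Cs Q) : PD F b Cs fun e => P e ↔ Q e :=
  ((h.imp h').and (h'.imp h)).congr fun _ _ => iff_def.symm
theorem TD.least (H : TH b Cs) (h : PD F b Cs P) :
    TD F b Cs fun e => least fun x => x.In b ∧ P (ec x e) := by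
  obtain ⟨t, q, hq, ht⟩ := h
  obtain ⟨s, hs⟩ := TDL_under (F := F) (b := b) q
  refine ⟨.eps (.comp t s), q, hq, fun e he => funext fun _ => least_congr fun x =>
    and_congr_right fun hx => ?_⟩
  change ev F (.comp t s) b _ 0 = _ ↔ _
  rw [ev_comp, hs, ht _ (inE_ec.2 ⟨hx, he⟩), bl_eq_tt]
theorem PD.ex (H : TH b Cs) (h : PD F b Cs P) :
    PD F b Cs fun e => ∃ x : Code.{u}, x.In b ∧ P (ec x e) :=
  (PD.comp H h (TE.cons (TD.least H h) TE.id)).congr fun _ _ =>
    ⟨fun p => ⟨_, least_in (fun _ hx => hx.1) (omega0_pos.trans_le H.om), p⟩,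
      fun p => (least_spec (fun _ hx => ⟨b, hx.1⟩) p).1.2⟩
theorem PD.all (H : TH b Cs) (h : PD F b Cs P) :
    PD F b Cs fun e => ∀ x : Code.{u}, x.In b → P (ec x e) :=
  (PD.ex H h.not).not.congr fun _ _ => by simp
theorem TD.ite (H : TH b Cs) (h : PD F b Cs P) (hf : TD F b Cs f) (hg : TD F b Cs g) :
    TD F b Cs fun e => if P e then f e else g e := by
  refine (TD.least H (((h.shift H 1).and (PD.eq (TD.var 0) (hf.shift H 1))).or
    ((h.shift H 1).not.and (PD.eq (TD.var 0) (hg.shift H 1))))).congr fun e he => ?_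
  change MP_833f7a_lc.least (fun x => x.In b ∧ (P e ∧ x = f e ∨ ¬ P e ∧ x = g e)) = _
  split_ifs with p
  · refine least_eq ⟨hf.isIn H he, Or.inl ⟨p, rfl⟩⟩ ?_
    rintro y ⟨-, ⟨-, rfl⟩ | ⟨q, -⟩⟩
    · exact Code.lt_irrefl _
    · exact absurd p q
  · refine least_eq ⟨hg.isIn H he, Or.inr ⟨p, rfl⟩⟩ ?_
    rintro y ⟨-, ⟨q, -⟩ | ⟨-, rfl⟩⟩
    · exact absurd q p
    · exact Code.lt_irrefl _
theorem PD.lim (H : TH b Cs) (hF : FS F) (h : PD F b Cs P) :
    PD F b Cs fun e => ∃ μ, e 0 = od μ ∧ F μ {η | η < μ ∧ P (ec (od η) e)} := by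
  obtain ⟨t, q, hq, ht⟩ := h
  obtain ⟨s, hs⟩ := TDL_under (F := F) (b := b) q
  have h₁ : TE F b Cs fun e => ec (e 0) (apL q e) :=
    TE.cons (TD.var 0) ⟨.id, q, hq, fun _ _ => rfl⟩
  refine (PD.tt ((h₁.ev (.lim (.comp (.comp t s) (.cons .id (Trm.tls 2))))).entry 0)).congr
    fun e he => ?_
  have h₀ := he 0
  rcases hx : e 0 with μ | ⟨a, t', x, y⟩
  · rw [ev_lim_od _ (μ := μ) rfl]
    rw [hx, in_od] at h₀
    have key : ∀ η < μ, ev F (.comp (.comp t s) (.cons .id (Trm.tls 2))) b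
        (ec (od η) (ec (od μ) (apL q e))) 0 = bl (P (ec (od η) e)) := fun η hη => by
      rw [ev_drop2, ev_comp, hs, ht _ (inE_ec.2 ⟨in_od.2 (hη.trans h₀), he⟩)]
    beta_reduce
    rw [limF_congr key, limF_eq_tt hF]
    simp only [bl_eq_tt]
    exact ⟨fun p => ⟨μ, rfl, p⟩, fun ⟨μ', p, r⟩ => by cases p; exact r⟩
  · exact ⟨fun p => absurd p.symm tt_ne_zero, fun ⟨_, p, _⟩ => by cases p⟩
/-- The defining term, with the variables first. -/
theorem TD.exists_term (h : TD F b Cs f) (n : ℕ) : ∃ (t : Trm) (q : List Code.{u}),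
    (∀ y ∈ q, y ∈ Cs) ∧ ∀ l : List Code.{u}, l.length = n → InE (ofL l) b →
      ev F t b (ofL (l ++ q)) 0 = f (ofL l) := by
  obtain ⟨t, q, hq, ht⟩ := h
  refine ⟨.comp t (TDL_pre ((List.range q.length).map (· + n)) (Trm.sel (List.range n))), q, hq,
    fun l hl hin => ?_⟩
  subst hl
  have h₁ := TDL_map_range [] l (ofL q)
  simp only [List.length_nil, Nat.add_zero, List.map_id', apL_nil] at h₁
  rw [ev_comp, ofL_append]
  have h₂ := TDL_ev_par (F := F) (b := b) l q (Trm.sel (List.range l.length)) fun _ => od 0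
  change ev F _ b (apL l (ofL q)) = apL q (ev F _ b (apL l (ofL q))) at h₂
  rw [h₂, ev_sel, h₁, ht _ hin]

end Pool.Agent.P.MP_833f7a_lc
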