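import Pool.Agent.Lib.Constructible.Tools
import Pool.Agent.P.MP_833f7a_lc.TDL

/-!
The levels of the model and their definable subsets.
-/

universe u v w

namespace Pool.Agent.P.MP_833f7a_lc

open Set Code Pool.Agent.Lib.Forcing

variable {F : FSys.{u}} {a b : Ordinal.{u}}

theorem cl_mem_Mz {x : Code.{u}} (h : x.In b) : cl F x ∈ Mz F b := mem_Mz.2 ⟨x, h, rfl⟩
theorem Mz_mono (h : a ≤ b) : Mz F a ⊆ Mz F b := by
  intro s hs
  obtain ⟨x, hx, rfl⟩ := mem_Mz.1 hs
  exact cl_mem_Mz (hx.mono h)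
theorem ModA_sub (x : Code.{u}) : cl F x ⊆ Mz F x.lv := by
  intro s hs
  obtain ⟨w, hw, rfl⟩ := mem_cl.1 hs
  exact cl_mem_Mz hw.isIn
theorem trans_Mz (hb : 0 < b) : Trans (Mz F b : Set ZFSet.{u}) := by
  refine ⟨fun s hs y hy => ?_, ?_⟩
  · obtain ⟨x, hx, rfl⟩ := mem_Mz.1 hs
    exact Mz_mono hx.lv_lt.le (ModA_sub x hy)
  · have h : cl F (od 0) ∈ Mz F b := cl_mem_Mz hb
    rwa [cl_od, Ordinal.toZFSet_zero] at h
theorem rank_cl_le (x : Code.{u}) : (cl F x).rank ≤ x.lv := by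
  have key : ∀ (c : Ordinal.{u}) (x : Code.{u}), x.lv = c → (cl F x).rank ≤ x.lv := by
    intro c
    induction c using WellFoundedLT.induction with
    | ind c ih =>
      rintro x rfl
      refine ZFSet.rank_le_iff.2 fun y hy => ?_
      obtain ⟨w, hw, rfl⟩ := mem_cl.1 hy
      exact (ih _ hw.lv_lt w rfl).trans_lt hw.lv_lt
  exact key _ x rfl
theorem ord_mem_Mz : a.toZFSet ∈ Mz F b ↔ a < b := by
  constructor
  · intro h
    obtain ⟨x, hx, h1⟩ := mem_Mz.1 h
    have h2 := rank_cl_le (F := F) x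
    rw [h1, Ordinal.rank_toZFSet] at h2
    exact h2.trans_lt hx.lv_lt
  · intro h
    have h1 : cl F (od a) ∈ Mz F b := cl_mem_Mz h
    rwa [cl_od] at h1
theorem mem_Mz_limit (hb : Order.IsSuccLimit b) {s : ZFSet.{u}} (h : s ∈ Mz F b) :
    ∃ a < b, s ∈ Mz F a := by
  obtain ⟨x, hx, rfl⟩ := mem_Mz.1 h
  exact ⟨_, hb.succ_lt hx.lv_lt, cl_mem_Mz (hx.of_lv (Order.lt_succ _))⟩

/-- A list of codes as one code, with a term that unpacks it. -/
theorem ModA_tuple (hb : Order.IsSuccLimit b) (ho : Ordinal.omega0 < b) (q : List Code.{u})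
    (hq : ∀ y ∈ q, y.In b) : ∃ (p : Code.{u}) (s : Trm), p.In b ∧
      ∀ e : CE.{u}, e 0 = p → ev F s b e = ofL q := by
  induction q with
  | nil => exact ⟨od 0, .op .zero, Ordinal.omega0_pos.trans ho, fun e _ => rfl⟩
  | cons y l ih =>
    obtain ⟨p, s, hp, hs⟩ := ih fun z hz => hq z (List.mem_cons_of_mem _ hz)
    have hy := hq y List.mem_cons_self
    obtain ⟨c, hc, h⟩ := exists_level (l := [y, p, od Ordinal.omega0]) hb (by
      intro z hz
      simp only [List.mem_cons, List.not_mem_nil, or_false] at hz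
      rcases hz with rfl | rfl | rfl
      exacts [hy, hp, ho])
    refine ⟨st c .id y p, .cons (.op .q1) (.comp s (.op .q2)),
      ⟨le_of_lt (h (od Ordinal.omega0) (by simp)), hc, h y (by simp), h p (by simp)⟩,
      fun e he => ?_⟩
    rw [ev_cons, ev_comp, hs _ (by simp [opv, he, Code.q2])]
    simp [opv, he, Code.q1]

/-- Predicates given by terms with parameters have codes at limit levels. -/
theorem pd_code (hb : Order.IsSuccLimit b) (ho : Ordinal.omega0 < b) {P : CE.{u} → Prop}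
    (h : PD F b {x | x.In b} P) :
    ∃ z : Code.{u}, z.In (b + 1) ∧ ∀ x, El F x z ↔ x.In b ∧ P (ofL [x]) := by
  obtain ⟨t, q, hq, ht⟩ := TD.exists_term h 1
  obtain ⟨p, s, hp, hs⟩ := ModA_tuple (F := F) hb ho q hq
  have h0 : 0 < b := Ordinal.omega0_pos.trans ho
  have hz : (st b (.comp t (.cons .id (.comp s .tl))) p (od 0)).In (b + 1) :=
    ⟨ho.le, lt_add_one b, hp, h0⟩
  refine ⟨_, hz, fun x => ?_⟩
  rw [el_st hz]
  refine and_congr_right fun hx => ?_
  have h1 := ht [x] rfl (inE_ofL (by simpa using hx) h0)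
  rw [ev_comp, ev_cons, ev_comp, hs _ rfl, ← bl_eq_tt (p := P (ofL [x])), ← h1]
  rfl

theorem ModA_sat {Cs : Set Code.{u}} (H : TH b Cs) (φ : Fml) :
    PD F b Cs fun e => Sat (Mz F b : Set ZFSet.{u}) φ fun i => cl F (e i) := by
  induction φ with
  | mem i j => exact PD.mem H (TD.var i) (TD.var j)
  | eq i j => exact PD.eqv (TD.var i) (TD.var j)
  | neg φ ih => exact ih.not
  | and φ ψ ih1 ih2 => exact ih1.and ih2
  | all φ ih =>
    refine (PD.all H ih).congr fun e _ => ?_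
    have h1 : ∀ x : Code.{u}, (fun i => cl F (ec x e i)) = cons (cl F x) fun i => cl F (e i) := by
      intro x; funext i; cases i <;> rfl
    simp only [h1, Sat]
    constructor
    · intro h s hs
      obtain ⟨x, hx, rfl⟩ := mem_Mz.1 hs
      exact h x hx
    · intro h x hx
      exact h _ (cl_mem_Mz hx)

theorem pd_of_df (ho : Ordinal.omega0 ≤ b) {R : Env.{u} → Prop}
    (h : Df (Mz F b : Set ZFSet.{u}) R) : PD F b {x | x.In b} fun e => R fun i => cl F (e i) := by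
  obtain ⟨φ, p, hp, h⟩ := h.out
  have H : TH b {x : Code.{u} | x.In b} := ⟨ho, fun _ h => h⟩
  choose c hc hcp using fun i => mem_Mz.1 (hp i)
  obtain ⟨n, hn⟩ := sat_finite (Mz F b : Set ZFSet.{u}) φ
  let g : ℕ → CE.{u} → Code.{u} := fun i e => if i % 2 = 0 then e (i / 2) else c (i / 2)
  have hg : ∀ i, TD F b {x : Code.{u} | x.In b} (g i) := by
    intro i
    by_cases hi : i % 2 = 0
    · exact (TD.var (i / 2)).congr fun e _ => by simp [g, hi]
    · exact (TD.cst (hc (i / 2))).congr fun e _ => by simp [g, hi]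
  have h1 : TE F b {x : Code.{u} | x.In b} fun e => ofL (((List.range n).map g).map fun f => f e) :=
    TE.ofL (by
      intro f hf
      obtain ⟨i, -, rfl⟩ := List.mem_map.1 hf
      exact hg i)
  refine ((ModA_sat H φ).comp H h1).congr fun e he => ?_
  rw [h _ fun i => cl_mem_Mz (he i)]
  refine hn _ _ fun i hi => ?_
  have h2 : ((List.range n).map g).map (fun f => f e) = (List.range n).map fun i => g i e := by
    simp [List.map_map, Function.comp_def]
  rw [h2, ofL_range_apply _ hi]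
  by_cases h3 : i % 2 = 0
  · simp [g, mix, h3]
  · simp [g, mix, h3, hcp]

theorem sep_mem_Mz (hb : Order.IsSuccLimit b) (ho : Ordinal.omega0 < b) (R : ZFSet.{u} → Prop)
    [h : Df (Mz F b : Set ZFSet.{u}) fun e => R (e 0)] : (Mz F b).sep R ∈ Mz F (b + 1) := by
  obtain ⟨z, hz, h1⟩ := pd_code hb ho (pd_of_df ho.le h)
  refine mem_Mz.2 ⟨z, hz, ZFSet.ext fun s => ?_⟩
  rw [mem_cl, ZFSet.mem_sep, mem_Mz]
  constructor
  · rintro ⟨x, hx, rfl⟩
    exact ⟨⟨x, ((h1 x).1 hx).1, rfl⟩, ((h1 x).1 hx).2⟩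
  · rintro ⟨⟨x, hx, rfl⟩, h2⟩
    exact ⟨x, (h1 x).2 ⟨hx, h2⟩, rfl⟩

theorem Mz_mem_Mz (hb : Order.IsSuccLimit b) (ho : Ordinal.omega0 < b) : Mz F b ∈ Mz F (b + 1) := by
  obtain ⟨z, hz, h1⟩ := pd_code (F := F) hb ho (PD.const True)
  refine mem_Mz.2 ⟨z, hz, ZFSet.ext fun s => ?_⟩
  rw [mem_cl, mem_Mz]
  simp [h1]

/-- Few elements of the model lie in one limit level. -/
theorem exists_limit_level {κ : Ordinal.{u}} (hκ : Reg κ) {J : Type v} (hJ : Few κ J)
    (s : J → ZFSet.{u}) (hs : ∀ j, s j ∈ Mz F κ) {δ : Ordinal.{u}} (hδ : δ < κ) :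
    ∃ b < κ, δ < b ∧ Ordinal.omega0 < b ∧ Order.IsSuccLimit b ∧ ∀ j, s j ∈ Mz F b := by
  choose x hx hxs using fun j => mem_Mz.1 (hs j)
  obtain ⟨d, hd, h⟩ := hJ.bdd hκ (fun j => (x j).lv) fun j => (hx j).lv_lt
  have h1 : max (max d δ) Ordinal.omega0 < κ := max_lt (max_lt hd hδ) hκ.omega_lt
  have h2 : max (max d δ) Ordinal.omega0 < max (max d δ) Ordinal.omega0 + Ordinal.omega0 :=
    lt_add_of_pos_right _ Ordinal.omega0_pos
  refine ⟨_, hκ.add_lt h1 hκ.omega_lt, ((le_max_right _ _).trans (le_max_left _ _)).trans_lt h2,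
    (le_max_right _ _).trans_lt h2, Ordinal.isSuccLimit_add _ Ordinal.isSuccLimit_omega0,
    fun j => ?_⟩
  rw [← hxs j]
  exact cl_mem_Mz ((hx j).of_lv
    ((h j).trans (((le_max_left _ _).trans (le_max_left _ _)).trans_lt h2)))

theorem few_Mz {κ : Ordinal.{u}} (hκ : Reg κ) (hb : b < κ) : Few κ (Mz F b : Set ZFSet.{u}) :=
  ((few_In hκ hb).image (cl F)).subset fun _ hs => mem_Mz.1 hs

theorem few_of_mem_Mz {κ : Ordinal.{u}} (hκ : Reg κ) {s : ZFSet.{u}} (h : s ∈ Mz F κ) :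
    Few κ (s : Set ZFSet.{u}) := by
  obtain ⟨x, hx, rfl⟩ := mem_Mz.1 h
  exact (few_Mz (F := F) hκ hx.lv_lt).subset fun _ hs => ModA_sub x hs

end Pool.Agent.P.MP_833f7a_lc
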