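import Pool.Agent.P.MP_833f7a_lc.ModA

/-!
The model satisfies ZFC.
-/

universe u v w

namespace Pool.Agent.P.MP_833f7a_lc

open Set Code Pool.Agent.Lib.Forcing Pool.Agent.P.MP_af0a18_lc

variable {F : FSys.{u}} {κ : Ordinal.{u}}

theorem ModZF_omega : (Ordinal.omega0.{u}).toZFSet = ZFSet.omega := by
  apply isOmega_iff.1
  refine ⟨?_, fun y hy => ?_, fun y hy => ?_⟩
  · rw [← Ordinal.toZFSet_zero, Ordinal.toZFSet_mem_toZFSet_iff]
    exact Ordinal.omega0_pos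
  · obtain ⟨a, ha, rfl⟩ := Ordinal.mem_toZFSet_iff.1 hy
    rw [← Ordinal.toZFSet_add_one, Ordinal.toZFSet_mem_toZFSet_iff]
    exact Ordinal.isSuccLimit_omega0.succ_lt ha
  · obtain ⟨a, ha, rfl⟩ := Ordinal.mem_toZFSet_iff.1 hy
    obtain ⟨n, rfl⟩ := Ordinal.lt_omega0.1 ha
    cases n with
    | zero => exact Or.inl (by rw [Nat.cast_zero, Ordinal.toZFSet_zero])
    | succ n =>
      refine Or.inr ⟨(n : Ordinal.{u}).toZFSet, ?_, ?_⟩
      · exact Ordinal.toZFSet_mem_toZFSet_iff.2 (Ordinal.natCast_lt_omega0 n)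
      · rw [Nat.cast_succ, Ordinal.toZFSet_add_one]

theorem ModZF_up (hκ : Reg κ) {b : Ordinal.{u}} (hb : b < κ) {s : ZFSet.{u}}
    (h : s ∈ Mz F (b + 1)) : s ∈ Mz F κ :=
  Mz_mono (hκ.succ_lt hb).le h

/-- Witnesses for few existential statements lie in one limit level. -/
theorem ModZF_collect (hκ : Reg κ) {J : Type v} (hJ : Few κ J) (P : J → ZFSet.{u} → Prop)
    {δ : Ordinal.{u}} (hδ : δ < κ) :
    ∃ b < κ, δ < b ∧ Ordinal.omega0 < b ∧ Order.IsSuccLimit b ∧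
      ∀ j, (∃ x ∈ Mz F κ, P j x) → ∃ x ∈ Mz F b, P j x := by
  classical
  have h0 : (∅ : ZFSet.{u}) ∈ Mz F κ := (trans_Mz (F := F) hκ.pos).empty
  let s : J → ZFSet.{u} := fun j => if h : ∃ x ∈ Mz F κ, P j x then h.choose else ∅
  have hs : ∀ j, s j ∈ Mz F κ := fun j => by
    simp only [s]
    split_ifs with h
    exacts [h.choose_spec.1, h0]
  obtain ⟨b, h1, h2, h3, h4, h5⟩ := exists_limit_level hκ hJ s hs hδ
  refine ⟨b, h1, h2, h3, h4, fun j h => ⟨s j, h5 j, ?_⟩⟩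
  simp only [s]
  rw [dif_pos h]
  exact h.choose_spec.2

/-- On a level, truth in the model is expressed with bounded quantifiers. -/
theorem Mz_bounded (hκ : Reg κ) (φ : Fml) {ξ : Ordinal.{u}} (hξ : ξ < κ) :
    ∃ β0 < κ, ∃ R : Env.{u} → Prop, (∀ β, β0 ≤ β → Df (Mz F β : Set ZFSet.{u}) R) ∧
      ∀ e : Env.{u}, (∀ i, e i ∈ Mz F ξ) → (R e ↔ Sat (Mz F κ : Set ZFSet.{u}) φ e) := by
  induction φ generalizing ξ with
  | mem i j =>
    refine ⟨1, hκ.one_lt, fun e => e i ∈ e j, fun β h => ?_, fun _ _ => Iff.rfl⟩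
    have := trans_Mz (F := F) (lt_of_lt_of_le zero_lt_one h)
    exact Df.memVar i j
  | eq i j =>
    refine ⟨1, hκ.one_lt, fun e => e i = e j, fun β h => ?_, fun _ _ => Iff.rfl⟩
    have := trans_Mz (F := F) (lt_of_lt_of_le zero_lt_one h)
    exact Df.eqVar i j
  | neg φ ih =>
    obtain ⟨β0, h1, R, h3, h4⟩ := ih hξ
    exact ⟨β0, h1, _, fun β h => @Df.not _ _ (h3 β h), fun e he => not_congr (h4 e he)⟩
  | and φ ψ ih1 ih2 =>
    obtain ⟨β0, h1, R, h3, h4⟩ := ih1 hξ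
    obtain ⟨β1, h5, S, h7, h8⟩ := ih2 hξ
    exact ⟨max β0 β1, max_lt h1 h5, _,
      fun β h => @Df.and _ _ _ (h3 β ((le_max_left _ _).trans h))
        (h7 β ((le_max_right _ _).trans h)), fun e he => and_congr (h4 e he) (h8 e he)⟩
  | all φ ih =>
    obtain ⟨n, hn⟩ := sat_finite (Mz F κ : Set ZFSet.{u}) φ
    obtain ⟨b, hb, hξb, hob, hlb, H⟩ := ModZF_collect (F := F) hκ
      (Few.lists hκ (few_Mz (F := F) hκ hξ))
      (fun l x => ¬ Sat (Mz F κ : Set ZFSet.{u}) φ (cons x fun i => l.1.getD i ∅)) hξ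
    obtain ⟨β0, h1, R, h3, h4⟩ := ih hb
    refine ⟨max β0 (b + 1), max_lt h1 (hκ.succ_lt hb), fun e => ∀ x ∈ Mz F b, R (cons x e),
      fun β h => ?_, fun e he => ?_⟩
    · have hβ : b + 1 ≤ β := (le_max_right _ _).trans h
      have := trans_Mz (F := F) (lt_of_lt_of_le (lt_of_le_of_lt zero_le (lt_add_one b)) hβ)
      have := InM.mk (M := (Mz F β : Set ZFSet.{u})) (Mz_mono hβ (Mz_mem_Mz hlb hob))
      refine @Df.allIn _ _ _ _ (fun x e => R (cons x e)) ?_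
      simp only [cons_tail]
      exact h3 β ((le_max_left _ _).trans h)
    · have h5 : ∀ x ∈ Mz F b, (R (cons x e) ↔ Sat (Mz F κ : Set ZFSet.{u}) φ (cons x e)) :=
        fun x hx => h4 _ (cons_mem (M := (Mz F b : Set ZFSet.{u})) hx
          fun i => Mz_mono hξb.le (he i))
      have h6 : ∀ x, Sat (Mz F κ : Set ZFSet.{u}) φ (cons x e) ↔ Sat (Mz F κ : Set ZFSet.{u}) φ
          (cons x fun i => ((List.range n).map e).getD i ∅) := fun x => by
        refine hn _ _ ?_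
        rintro (_ | i) hi
        · rfl
        · have hi' : i < n := by omega
          simp [List.getD, hi']
      constructor
      · intro h x hx
        by_contra h7
        obtain ⟨y, hy, h8⟩ := H ⟨(List.range n).map e, fun z hz => by
          obtain ⟨i, -, rfl⟩ := List.mem_map.1 hz
          exact he i⟩ ⟨x, hx, fun h9 => h7 ((h6 x).2 h9)⟩
        exact h8 ((h6 y).1 ((h5 y hy).1 (h y hy)))
      · exact fun h x hx => (h5 x hx).2 (h x (Mz_mono hb.le hx))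

theorem ModZF_env (hκ : Reg κ) {e : Env.{u}} (he : ∀ i, e i ∈ Mz F κ) {δ : Ordinal.{u}}
    (hδ : δ < κ) :
    ∃ b < κ, δ < b ∧ Ordinal.omega0 < b ∧ Order.IsSuccLimit b ∧ ∀ i, e i ∈ Mz F b :=
  exists_limit_level hκ (few_countable hκ ℕ) e he hδ

theorem isZFModel_Mz (hκ : Inacc κ) : IsZFModel (Mz F κ : Set ZFSet.{u}) := by
  have hr := hκ.1
  have ht := trans_Mz (F := F) hr.pos
  refine ⟨ht.trans, ?_, ?_, ?_, ?_, ?_, ?_⟩
  · intro x hx y hy
    obtain ⟨b, h1, -, h2, h3, h4⟩ := ModZF_env (F := F) hr (e := cons x fun _ => y)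
      (cons_mem (M := (Mz F κ : Set ZFSet.{u})) hx fun _ => hy) hr.pos
    have hx' : x ∈ Mz F b := h4 0
    have hy' : y ∈ Mz F b := h4 1
    have := trans_Mz (F := F) (Ordinal.omega0_pos.trans h2)
    have := InM.mk (M := (Mz F b : Set ZFSet.{u})) hx'
    have := InM.mk (M := (Mz F b : Set ZFSet.{u})) hy'
    have h5 := ModZF_up hr h1 (sep_mem_Mz (F := F) h3 h2 (fun z => z = x ∨ z = y))
    have h6 : (Mz F b).sep (fun z => z = x ∨ z = y) = {x, y} := by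
      ext z
      rw [ZFSet.mem_sep, ZFSet.mem_pair]
      exact ⟨fun h => h.2, fun h => ⟨h.elim (fun h => h ▸ hx') (fun h => h ▸ hy'), h⟩⟩
    rw [h6] at h5
    exact h5
  · intro x hx
    obtain ⟨b, h1, -, h2, h3, h4⟩ := ModZF_env (F := F) hr (e := fun _ => x) (fun _ => hx) hr.pos
    have hx' : x ∈ Mz F b := h4 0
    have := trans_Mz (F := F) (Ordinal.omega0_pos.trans h2)
    have := InM.mk (M := (Mz F b : Set ZFSet.{u})) hx'
    have h5 := ModZF_up hr h1 (sep_mem_Mz (F := F) h3 h2 (fun z => ∃ w ∈ x, z ∈ w))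
    have h6 : (Mz F b).sep (fun z => ∃ w ∈ x, z ∈ w) = ZFSet.sUnion x := by
      ext z
      rw [ZFSet.mem_sep, ZFSet.mem_sUnion]
      exact ⟨fun h => h.2, fun ⟨w, h3, h4⟩ => ⟨mem_of_mem (M := (Mz F b : Set ZFSet.{u}))
        (mem_of_mem hx' h3) h4, w, h3, h4⟩⟩
    rw [h6] at h5
    exact h5
  · intro x hx
    have hJ : Few κ {z : ZFSet.{u} // z ∈ Mz F κ ∧ z ⊆ x} := by
      refine (hκ.subsets (few_of_mem_Mz hr hx)).of_inj
        (fun z => ⟨(z.1 : Set ZFSet.{u}), fun _ hw => z.2.2 hw⟩) ?_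
      intro a b e
      exact Subtype.ext (SetLike.coe_injective (congrArg Subtype.val e))
    obtain ⟨b, h1, -, h2, h3, h4⟩ := exists_limit_level hr hJ Subtype.val (fun z => z.2.1) hr.pos
    exact ⟨Mz F b, ModZF_up hr h1 (Mz_mem_Mz h3 h2), fun z hz h => h4 ⟨z, hz, h⟩⟩
  · rw [← ModZF_omega]
    exact ord_mem_Mz.2 hr.omega_lt
  · intro φ e he a ha
    obtain ⟨ξ, h1, -, h2, -, h3⟩ := ModZF_env (F := F) hr (e := cons a e)
      (cons_mem (M := (Mz F κ : Set ZFSet.{u})) ha he) hr.pos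
    have ha' : a ∈ Mz F ξ := h3 0
    have he' : ∀ i, e i ∈ Mz F ξ := fun i => h3 (i + 1)
    obtain ⟨β0, h4, R, h6, h7⟩ := Mz_bounded (F := F) hr φ h1
    obtain ⟨b, hb, hlt, hob, hlb, -⟩ := ModZF_env (F := F) hr he (max_lt h4 h1)
    have h8 := Mz_mono (F := F) ((le_max_right β0 ξ).trans hlt.le)
    have := trans_Mz (F := F) (Ordinal.omega0_pos.trans h2)
    have := trans_Mz (F := F) (Ordinal.omega0_pos.trans hob)
    have := InM.mk (M := (Mz F b : Set ZFSet.{u})) (h8 ha')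
    have := (h6 b ((le_max_left β0 ξ).trans hlt.le)).fix1 (ε := e) fun i => h8 (he' i)
    have h5 := ModZF_up hr hb (sep_mem_Mz (F := F) hlb hob (fun z => z ∈ a ∧ R (cons z e)))
    have h10 : (Mz F b).sep (fun z => z ∈ a ∧ R (cons z e)) =
        a.sep fun x => Sat (Mz F κ : Set ZFSet.{u}) φ (cons x e) := by
      ext z
      simp only [ZFSet.mem_sep]
      have h9 : z ∈ a → (R (cons z e) ↔ Sat (Mz F κ : Set ZFSet.{u}) φ (cons z e)) := fun hz =>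
        h7 _ (cons_mem (M := (Mz F ξ : Set ZFSet.{u})) (mem_of_mem ha' hz) he')
      exact ⟨fun h => ⟨h.2.1, (h9 h.2.1).1 h.2.2⟩, fun h =>
        ⟨h8 (mem_of_mem (M := (Mz F ξ : Set ZFSet.{u})) ha' h.1), h.1, (h9 h.1).2 h.2⟩⟩
    rw [h10] at h5
    exact h5
  · intro φ e _ a ha H
    obtain ⟨b, h1, -, h2, h3, h4⟩ := ModZF_collect (F := F) hr (few_of_mem_Mz hr ha)
      (fun x y => Sat (Mz F κ : Set ZFSet.{u}) φ (cons y (cons x.1 e))) hr.pos
    refine ⟨Mz F b, ModZF_up hr h1 (Mz_mem_Mz h3 h2), fun x hx => ?_⟩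
    obtain ⟨y, hy, -⟩ := H x hx
    exact h4 ⟨x, hx⟩ ⟨y, hy.1, hy.2⟩

theorem ModZF_df_pair (M : Set ZFSet.{u}) [hM : Trans M] :
    Df M fun e => e 2 = ZFSet.pair (e 1) (e 0) := by
  obtain ⟨φ, h⟩ := (inferInstance : UDf.{u} fun _ e => e 2 = ZFSet.pair (e 1) (e 0)).out
  exact (Df.sat φ).congr fun e he => (h M hM e he).symm

/-- The least code of an element of `y`. -/
noncomputable def ModZF_ch (F : FSys.{u}) (b : Ordinal.{u}) (y : ZFSet.{u}) : Code.{u} :=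
  least fun w => w.In b ∧ cl F w ∈ y

theorem ModZF_ch_spec {b : Ordinal.{u}} (hb : 0 < b) {y : ZFSet.{u}} (hy : y ∈ Mz F b)
    (h0 : y ≠ ∅) : (ModZF_ch F b y).In b ∧ cl F (ModZF_ch F b y) ∈ y := by
  have := trans_Mz (F := F) hb
  obtain ⟨z, hz⟩ : ∃ z, z ∈ y := by
    by_contra hc
    exact h0 ((ZFSet.eq_empty y).2 fun z hz => hc ⟨z, hz⟩)
  obtain ⟨w, hw, rfl⟩ := mem_Mz.1 (mem_of_mem (M := (Mz F b : Set ZFSet.{u})) hy hz)
  exact (least_spec (P := fun w => w.In b ∧ cl F w ∈ y) (fun w h => ⟨b, h.1⟩) ⟨w, hw, hz⟩).1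

/-- The graph of the choice function is term-definable. -/
theorem ModZF_pd {b : Ordinal.{u}} (ho : Ordinal.omega0 ≤ b) {x : ZFSet.{u}} (hx : x ∈ Mz F b) :
    PD F b {x | x.In b} fun e => ∃ y ∈ x, cl F (e 0) = ZFSet.pair y (cl F (ModZF_ch F b y)) := by
  have hb : 0 < b := Ordinal.omega0_pos.trans_le ho
  have hT := trans_Mz (F := F) hb
  have H : TH b {x | x.In b} := ⟨ho, fun _ h => h⟩
  have := InM.mk (M := (Mz F b : Set ZFSet.{u})) hx
  have d1 := ModZF_df_pair (Mz F b : Set ZFSet.{u})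
  have p1 : PD F b {x | x.In b} fun e => cl F (e 2) = ZFSet.pair (cl F (e 1)) (cl F (e 0)) ∧
      cl F (e 1) ∈ x :=
    pd_of_df (R := fun e => e 2 = ZFSet.pair (e 1) (e 0) ∧ e 1 ∈ x) ho inferInstance
  have p2 : PD F b {x | x.In b} fun e => cl F (e 0) ∈ cl F (e 2) :=
    PD.mem H (TD.var 0) (TD.var 2)
  have p3 : TD F b {x | x.In b} fun e => ModZF_ch F b (cl F (e 1)) := TD.least H p2
  have p4 := PD.ex H (PD.ex H (PD.and p1 (PD.eq (TD.var 0) p3)))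
  refine p4.congr fun e _ => ⟨?_, ?_⟩
  · rintro ⟨cy, -, cz, -, ⟨h1, h2⟩, h3⟩
    refine ⟨cl F cy, h2, ?_⟩
    have h3' : cz = ModZF_ch F b (cl F cy) := h3
    rw [← h3']
    exact h1
  · rintro ⟨y, hy, h⟩
    obtain ⟨cy, hcy, rfl⟩ := mem_Mz.1 (mem_of_mem (M := (Mz F b : Set ZFSet.{u})) hx hy)
    exact ⟨cy, hcy, ModZF_ch F b (cl F cy), least_in (fun _ h => h.1) hb, ⟨h, hy⟩, rfl⟩

theorem choice_Mz (hκ : Inacc κ) : Choice (Mz F κ : Set ZFSet.{u}) := by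
  intro x hx h0
  have hr := hκ.1
  have hM := (isZFModel_Mz (F := F) hκ).zfm
  have hfx : Few κ (x : Set ZFSet.{u}) := few_of_mem_Mz hr hx
  have hfu : Few κ (ZFSet.sUnion x : Set ZFSet.{u}) := few_of_mem_Mz (F := F) hr (sUnion_mem hx)
  obtain ⟨b0, hb0, -, -, -, hx0⟩ := ModZF_env (F := F) hr (e := fun _ => x) (fun _ => hx) hr.pos
  obtain ⟨b, hb, hlt, hob, hlb, hp⟩ := exists_limit_level (F := F) hr (Few.prod hr hfx hfu)
    (fun p => ZFSet.pair p.1.1 p.2.1) (fun p => pair_mem (M := (Mz F κ : Set ZFSet.{u}))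
      (mem_of_mem hx p.1.2) (mem_of_mem (sUnion_mem hx) p.2.2)) hb0
  have hbp : 0 < b := Ordinal.omega0_pos.trans hob
  have hT := trans_Mz (F := F) hbp
  have hxb : x ∈ Mz F b := Mz_mono hlt.le (hx0 0)
  have hch : ∀ y ∈ x, cl F (ModZF_ch F b y) ∈ y := fun y hy =>
    (ModZF_ch_spec hbp (mem_of_mem (M := (Mz F b : Set ZFSet.{u})) hxb hy)
      fun e => h0 (e ▸ hy)).2
  obtain ⟨z, hz, hel⟩ := pd_code hlb hob (ModZF_pd (F := F) hob.le hxb)
  have hf : ∀ p, p ∈ cl F z ↔ ∃ y ∈ x, p = ZFSet.pair y (cl F (ModZF_ch F b y)) := by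
    intro p
    rw [mem_cl]
    constructor
    · rintro ⟨w, hw, rfl⟩
      exact ((hel w).1 hw).2
    · rintro ⟨y, hy, rfl⟩
      obtain ⟨w, hw, e⟩ := mem_Mz.1
        (hp (⟨y, hy⟩, ⟨_, ZFSet.mem_sUnion.2 ⟨y, hy, hch y hy⟩⟩))
      exact ⟨w, (hel w).2 ⟨hw, y, hy, e⟩, e⟩
  refine ⟨cl F z, ModZF_up hr hb (cl_mem_Mz hz), ⟨fun p hp => ?_, fun y hy => ?_⟩,
    fun y w h => ?_⟩
  · obtain ⟨y, hy, rfl⟩ := (hf p).1 hp
    exact ZFSet.pair_mem_prod.2 ⟨hy, ZFSet.mem_sUnion.2 ⟨y, hy, hch y hy⟩⟩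
  · refine ⟨cl F (ModZF_ch F b y), (hf _).2 ⟨y, hy, rfl⟩, fun w h => ?_⟩
    obtain ⟨y', -, e⟩ := (hf _).1 h
    obtain ⟨rfl, rfl⟩ := ZFSet.pair_inj.1 e
    rfl
  · obtain ⟨y', hy', e⟩ := (hf _).1 h
    obtain ⟨rfl, rfl⟩ := ZFSet.pair_inj.1 e
    exact hch y hy'

end Pool.Agent.P.MP_833f7a_lc
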