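import Mathlib.Data.List.GetD
import Pool.Agent.P.MP_833f7a_lc.Sys
import Pool.Agent.P.MP_833f7a_lc.CodeB
import Pool.Agent.P.MP_833f7a_lc.AE2

/-!
Nice sets of quantities.
-/

universe u v w

namespace Pool.Agent.P.MP_833f7a_lc

open Cardinal Ordinal Set Code

namespace TSys

variable {σ : TSys.{u}} {n n' n0 n0' : ℕ} {Φ Ψ : Set Qt.{u}} {f g : Qt.{u}} {t : Trm}

theorem Ok.reg (h : σ.Ok) : Reg σ.μ ∧ Unb σ.A σ.μ ∧ ω ≤ σ.b ∧ FS (tailF σ.S σ.A) :=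
  ⟨h.bs.reg _ h.mem, h.bs.unb _ h.mem, (h.bs.reg _ h.mem).omega_lt.le.trans h.le,
    fs_tailF h.bs.unb⟩
theorem Nice.mono (h : σ.Nice n Φ) (hs : Ψ ⊆ Φ) (hn : n ≤ n') : σ.Nice n' Ψ :=
  fun N hN fs hfs => h N (hn.trans hN) fs fun f hf => (hfs f hf).imp_left fun a => hs a
theorem Nice.add_prj (h : σ.Nice n Φ) : σ.Nice n (Φ ∪ range prj) :=
  fun N hN fs hfs => h N hN fs fun f hf => by
    rcases hfs f hf with (a | ⟨i, a⟩) | a
    exacts [Or.inl a, Or.inr ⟨i, a.symm⟩, Or.inr a]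
theorem QOk.mono (h : σ.QOk n n0 f) (hn : n ≤ n') (h0 : n0 ≤ n0') (hσ : σ.Ok) :
    σ.QOk n' n0' f :=
  ⟨fun l l' hl => h.1 l l' (hn.trans hl),
    fun l hl => ⟨(h.2 l hl).1, hσ.j_mono _ _ _ h0 (h.2 l hl).2⟩⟩

theorem Nice_getD_lt (h : σ.Ok) {l : List Ordinal.{u}} (hl : ∀ z ∈ l, z < σ.μ) (i : ℕ) :
    l.getD i 0 < σ.μ := by
  by_cases hi : i < l.length
  · rw [List.getD_eq_getElem _ _ hi]
    exact hl _ (List.getElem_mem hi)
  · rw [List.getD_eq_default _ _ (not_lt.1 hi)]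
    exact h.reg.1.pos

theorem Nice_prj_in (h : σ.Ok) (i : ℕ) {l : List Ordinal.{u}} (hl : ∀ z ∈ l, z < σ.μ) :
    (prj i l).In σ.b := (Nice_getD_lt h hl i).trans_le h.le

theorem Nice_pos (h : σ.Ok) : 0 < σ.b := h.reg.1.pos.trans_le h.le

theorem Ok.qok_prj (h : σ.Ok) {i : ℕ} (hi : i < n) : σ.QOk n n0 (prj i) := by
  refine ⟨fun l l' hl => ?_, fun l hl => ⟨Nice_prj_in h i hl, h.j_cs _ _
    (h.cs_od _ (Nice_getD_lt h hl i).le ((Nice_getD_lt h hl i).trans_le h.le))⟩⟩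
  simp only [prj]
  rw [List.getD_append _ _ _ _ (hi.trans_le hl)]
theorem Ok.qok_cst (h : σ.Ok) {y : Code.{u}} (hy : y ∈ σ.Cs) : σ.QOk n n0 fun _ => y :=
  ⟨fun _ _ _ => rfl, fun _ _ => ⟨h.cs_in y hy, h.j_cs _ y hy⟩⟩
theorem Ok.qok_ev (h : σ.Ok) (ht : t.depth ≤ σ.K) {E : ℕ → Qt.{u}} (hE : ∀ i, σ.QOk n n0 (E i))
    (i : ℕ) : σ.QOk n n0 fun l => ev (tailF σ.S σ.A) t σ.b (fun j => E j l) i := by
  refine ⟨fun l l' hl => ?_, fun l hl => ⟨ev_in t h.reg.2.2.1 (fun j => ((hE j).2 l hl).1) i,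
    h.j_ev t ht _ _ (fun j => ((hE j).2 l hl).1) (fun j => ((hE j).2 l hl).2) i⟩⟩
  have : (fun j => E j (l ++ l')) = fun j => E j l := funext fun j => (hE j).1 l l' hl
  simp only [this]

theorem Nice_sel {α : Type v} {β : Type w} {P : β → Prop} {y : β → CE.{u}} {v : α → β → Code.{u}}
    {fs : List α} (h : ∀ f ∈ fs, ∃ k, ∀ l, P l → y l k = v f l) :
    ∃ is : List ℕ, ∀ l, P l → is.map (y l) = fs.map fun f => v f l := by
  induction fs with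
  | nil => exact ⟨[], fun _ _ => rfl⟩
  | cons f fs ih =>
    obtain ⟨k, hk⟩ := h f List.mem_cons_self
    obtain ⟨is, his⟩ := ih fun f' hf' => h f' (List.mem_cons_of_mem _ hf')
    exact ⟨k :: is, fun l hl => by rw [List.map_cons, List.map_cons, hk l hl, his l hl]⟩

theorem Nice_idx {L : List Qt.{u}} (hf : f ∈ L) :
    ∃ k, ∀ l, ofL (L.map fun f => f l) k = f l := by
  obtain ⟨k, hk, rfl⟩ := List.mem_iff_getElem.1 hf
  refine ⟨k, fun l => ?_⟩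
  rw [ofL_apply, List.getD_eq_getElem _ _ (by simpa using hk), List.getElem_map]

theorem Nice_inE (h : σ.Ok) (hΦ : ∀ f ∈ Φ, ∀ l, (∀ z ∈ l, z < σ.μ) → (f l).In σ.b)
    {fs : List Qt.{u}} (hfs : ∀ f ∈ fs, f ∈ Φ ∨ ∃ i, f = prj i) {l : List Ordinal.{u}}
    (hl : ∀ z ∈ l, z < σ.μ) : InE (ofL (fs.map fun f => f l)) σ.b := by
  refine inE_ofL (fun x hx => ?_) (Nice_pos h)
  obtain ⟨f, hf, rfl⟩ := List.mem_map.1 hx
  rcases hfs f hf with a | ⟨i, rfl⟩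
  exacts [hΦ f a l hl, Nice_prj_in h i hl]

theorem Nice_insert (h : σ.Ok) (hΦ : ∀ f ∈ Φ, ∀ l, (∀ z ∈ l, z < σ.μ) → (f l).In σ.b)
    (hg : ∀ l, (∀ z ∈ l, z < σ.μ) → (g l).In σ.b)
    (H : ∀ N, n ≤ N → ∀ fs : List Qt.{u}, (∀ f ∈ fs, f ∈ Φ ∨ ∃ i < N, f = prj i) → ∀ s ∈ σ.TT,
      GoodF σ.A σ.μ N fun l => s (ofL (g l :: fs.map fun f => f l))) :
    σ.Nice n (insert g Φ) := by
  classical
  intro N hN fs hfs s hs
  have h0 : ∀ f ∈ fs.filter fun f => f ∈ Φ ∨ ∃ i < N, f = prj i, f ∈ Φ ∨ ∃ i < N, f = prj i :=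
    fun f hf => by simpa using (List.mem_filter.1 hf).2
  have h1 : ∀ f ∈ fs, (f ∈ Φ ∨ ∃ i < N, f = prj i) →
      f ∈ fs.filter fun f => f ∈ Φ ∨ ∃ i < N, f = prj i :=
    fun f hf a => List.mem_filter.2 ⟨hf, by simpa using a⟩
  generalize (fs.filter fun f => f ∈ Φ ∨ ∃ i < N, f = prj i) = fs0 at h0 h1
  obtain ⟨is, his⟩ := Nice_sel (P := Dom σ.μ N) (y := fun l => ofL ((g :: fs0).map fun f => f l))
    (v := fun f l => f l) (fs := fs) (fun f hf => by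
      by_cases a : f ∈ g :: fs0
      · obtain ⟨k, hk⟩ := Nice_idx a
        exact ⟨k, fun l _ => hk l⟩
      · rw [List.mem_cons, not_or] at a
        rcases hfs f hf with (b | b) | ⟨i, rfl⟩
        · exact absurd b a.1
        · exact absurd (h1 f hf (Or.inl b)) a.2
        · have hi : N ≤ i := not_lt.1 fun c => a.2 (h1 _ hf (Or.inr ⟨i, c, rfl⟩))
          refine ⟨(g :: fs0).length, fun l hl => ?_⟩
          rw [ofL_apply, List.getD_eq_default _ _ (by simp)]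
          simp only [prj]
          rw [List.getD_eq_default _ _ (hl.1.le.trans hi)])
  obtain ⟨s', hs', e⟩ := h.tests.ren s hs is
  refine (H N hN fs0 h0 s' hs').congr fun l hl => ?_
  rw [ofL_cons, e _ (inE_ec.2 ⟨hg l hl.2, Nice_inE h hΦ
    (fun f hf => (h0 f hf).imp_right fun ⟨i, _, c⟩ => ⟨i, c⟩) hl.2⟩), ← his l hl]
  rfl

theorem Nice_basic_in (h : σ.Ok) {G : CE.{u} → Code.{u}} (hG : σ.Basic G) {x : CE.{u}}
    (hx : InE x σ.b) : (G x).In σ.b := by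
  rcases hG with ⟨y, hy, rfl⟩ | ⟨t, i, -, rfl⟩ | ⟨φ, hφ, rfl⟩
  exacts [h.cs_in y hy, ev_in t h.reg.2.2.1 hx i, h.x_in φ hφ _]

theorem Nice_basic_supp {G : CE.{u} → Code.{u}} (hG : σ.Basic G) :
    ∃ m, ∀ x x' : CE.{u}, (∀ i < m, x i = x' i) → G x = G x' := by
  rcases hG with ⟨y, hy, rfl⟩ | ⟨t, i, -, rfl⟩ | ⟨φ, hφ, rfl⟩
  · exact ⟨0, fun _ _ _ => rfl⟩
  · obtain ⟨m, hm⟩ := ev_supp.{u} t (i + 1)
    exact ⟨m, fun x x' e => hm _ _ x x' e i (Nat.lt_succ_self i)⟩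
  · exact ⟨1, fun x x' e => by simp only [e 0 Nat.one_pos]⟩

theorem Nice_add_one (h : σ.Ok) (hΦ : ∀ f ∈ Φ, ∀ l, (∀ z ∈ l, z < σ.μ) → (f l).In σ.b)
    (hn : σ.Nice n Φ) {G : CE.{u} → Code.{u}} {E : ℕ → Qt.{u}} (hG : σ.Basic G)
    (hE : ∀ i, E i ∈ Φ) : σ.Nice n (insert (fun l => G fun i => E i l) Φ) := by
  have hin : ∀ l, (∀ z ∈ l, z < σ.μ) → (G fun i => E i l).In σ.b := fun l hl =>
    Nice_basic_in h hG fun i => hΦ _ (hE i) l hl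
  refine Nice_insert h hΦ hin fun N hN fs hfs s hs => ?_
  obtain ⟨m, hm⟩ := Nice_basic_supp hG
  have hL : ∀ f ∈ (List.range m).map E ++ fs, f ∈ Φ ∨ ∃ i, f = prj i := fun f hf => by
    rcases List.mem_append.1 hf with a | a
    · obtain ⟨i, -, rfl⟩ := List.mem_map.1 a
      exact Or.inl (hE i)
    · exact (hfs f a).imp_right fun ⟨i, _, c⟩ => ⟨i, c⟩
  have hGx : ∀ l, G (ofL (((List.range m).map E ++ fs).map fun f => f l)) = G fun i => E i l :=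
    fun l => hm _ _ fun i hi => by
      rw [ofL_apply, List.getD_eq_getElem _ _ (by simp; omega), List.getElem_map,
        List.getElem_append_left (by simpa using hi)]
      simp
  have hsub : ∀ f ∈ fs, f ∈ (List.range m).map E ++ fs := fun f hf => List.mem_append_right _ hf
  generalize (List.range m).map E ++ fs = L at hL hGx hsub
  obtain ⟨is, his⟩ := exists_sel (L := (fun l => G fun i => E i l) :: fs)
    (L' := (fun l => G fun i => E i l) :: L) fun f hf => by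
      rcases List.mem_cons.1 hf with a | a
      exacts [a ▸ List.mem_cons_self, List.mem_cons_of_mem _ (hsub f a)]
  obtain ⟨s1, hs1, e1⟩ := h.tests.ren s hs is
  obtain ⟨χ, s', hχ, e2⟩ := h.tests.bas s1 hs1 G hG
  refine goodF_pieces h.reg.1 h.reg.2.1 (few_countable h.reg.1 ℕ)
    (P := fun j l => χ j (ofL (L.map fun f => f l)) = tt)
    (H := fun j l => s' j (ofL (L.map fun f => f l)))
    (fun j => (hn N hN L hL _ (hχ j).1).mn) (fun j => hn N hN L hL _ (hχ j).2)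
    (fun l hl => (e2 _ (Nice_inE h hΦ hL hl.2)).1) fun j l hl hj => ?_
  rw [← (e2 _ (Nice_inE h hΦ hL hl.2)).2 j hj, hGx,
    e1 _ (inE_ec.2 ⟨hin l hl.2, Nice_inE h hΦ hL hl.2⟩)]
  exact congrArg (fun x => s (ofL x)) (his fun f => f l).symm

/-- Adding quantities that are basic functions of old ones. -/
theorem Ok.nice_add (h : σ.Ok) (hΦ : ∀ f ∈ Φ, ∀ l, (∀ z ∈ l, z < σ.μ) → (f l).In σ.b)
    (hn : σ.Nice n Φ) (hΨ : ∀ f ∈ Ψ, ∃ (g : CE.{u} → Code.{u}) (E : ℕ → Qt.{u}), σ.Basic g ∧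
      (∀ i, E i ∈ Φ) ∧ f = fun l => g fun i => E i l) : σ.Nice n (Φ ∪ Ψ) := by
  classical
  have key : ∀ L : List Qt.{u}, (∀ f ∈ L, f ∈ Ψ) → σ.Nice n (Φ ∪ {f | f ∈ L}) := by
    intro L
    induction L with
    | nil => exact fun _ => hn.mono (by simp) le_rfl
    | cons f L ih =>
      intro hL
      obtain ⟨G, E, hG, hE, rfl⟩ := hΨ f (hL f List.mem_cons_self)
      refine (Nice_add_one h (Φ := Φ ∪ {f | f ∈ L}) ?_
        (ih fun f hf => hL f (List.mem_cons_of_mem _ hf)) hG fun i => Or.inl (hE i)).mono ?_ le_rfl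
      · rintro f' (a | a) l hl
        · exact hΦ f' a l hl
        · obtain ⟨G', E', hG', hE', rfl⟩ := hΨ f' (hL f' (List.mem_cons_of_mem _ a))
          exact Nice_basic_in h hG' fun i => hΦ _ (hE' i) l hl
      · rintro f' (a | a)
        · exact Or.inr (Or.inl a)
        · rcases List.mem_cons.1 a with b | b
          exacts [Or.inl b, Or.inr (Or.inr b)]
  intro N hN fs hfs
  refine key (fs.filter fun f => f ∈ Ψ) (fun f hf => by simpa using (List.mem_filter.1 hf).2) N hN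
    fs fun f hf => ?_
  rcases hfs f hf with (a | a) | a
  exacts [Or.inl (Or.inl a), Or.inl (Or.inr (List.mem_filter.2 ⟨hf, by simpa using a⟩)), Or.inr a]
theorem Ok.nice_cst (h : σ.Ok) (hΦ : ∀ f ∈ Φ, ∀ l, (∀ z ∈ l, z < σ.μ) → (f l).In σ.b)
    (hn : σ.Nice n Φ) : σ.Nice n (Φ ∪ {f | ∃ y ∈ σ.Cs, f = fun _ => y}) := by
  refine (h.nice_add (Φ := Φ ∪ range prj) (Ψ := {f | ∃ y ∈ σ.Cs, f = fun _ => y}) ?_ hn.add_prj
    ?_).mono (union_subset_union_left _ subset_union_left) le_rfl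
  · rintro f (a | ⟨i, rfl⟩) l hl
    exacts [hΦ f a l hl, Nice_prj_in h i hl]
  · rintro f ⟨y, hy, rfl⟩
    exact ⟨fun _ => y, fun _ => prj 0, Or.inl ⟨y, hy, rfl⟩, fun _ => Or.inr ⟨0, rfl⟩, rfl⟩
theorem Ok.good_of_mem (h : σ.Ok) (hΦ : ∀ f ∈ Φ, ∀ l, (∀ z ∈ l, z < σ.μ) → (f l).In σ.b)
    (hn : σ.Nice n Φ) (hf : f ∈ Φ) {N : ℕ} (hN : n ≤ N) : GoodF σ.A σ.μ N f := by
  obtain ⟨s0, hs0, e⟩ := h.tests.prj
  have hfs : ∀ f' ∈ [f], f' ∈ Φ ∨ ∃ i, f' = prj i := fun f' a =>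
    Or.inl (List.mem_singleton.1 a ▸ hf)
  exact GoodR.of_imp (hn N hN [f] hfs s0 hs0) (fun l hl => (e _ (Nice_inE h hΦ hfs hl.2)).1)
    fun l hl z hz => (e _ (Nice_inE h hΦ hfs hl.2)).2 z hz
theorem Ok.mn_eq (h : σ.Ok) (hΦ : ∀ f ∈ Φ, ∀ l, (∀ z ∈ l, z < σ.μ) → (f l).In σ.b)
    (hn : σ.Nice n Φ) (hf : f ∈ Φ) (hg : g ∈ Φ) {N : ℕ} (hN : n ≤ N) :
    Mn σ.A σ.μ N fun l => f l = g l := by
  have hG : σ.Basic fun x => ev (tailF σ.S σ.A) (.op .eq) σ.b x 0 :=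
    Or.inr (Or.inl ⟨.op .eq, 0, Or.inr (Or.inl ⟨_, rfl⟩), rfl⟩)
  have hE : ∀ i : ℕ, (if i = 0 then f else g) ∈ Φ := fun i => by
    split_ifs
    exacts [hf, hg]
  refine (h.good_of_mem ?_ (Nice_add_one h hΦ hn hG hE) (mem_insert _ _) hN).mn.congr
    fun l _ => bl_eq_tt
  rintro f' (rfl | a) l hl
  exacts [Nice_basic_in h hG fun i => hΦ _ (hE i) l hl, hΦ f' a l hl]
/-- To add one quantity, check the tests that have it as first argument. -/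
theorem Ok.nice_insert (h : σ.Ok) (hΦ : ∀ f ∈ Φ, ∀ l, (∀ z ∈ l, z < σ.μ) → (f l).In σ.b)
    (hg : ∀ l, (∀ z ∈ l, z < σ.μ) → (g l).In σ.b)
    (H : ∀ N, n ≤ N → ∀ fs : List Qt.{u}, (∀ f ∈ fs, f ∈ Φ ∨ ∃ i < N, f = prj i) → ∀ s ∈ σ.TT,
      GoodF σ.A σ.μ N fun l => s (ofL (g l :: fs.map fun f => f l))) :
    σ.Nice n (insert g Φ) := Nice_insert h hΦ hg H

theorem Ok.step_bas (h : σ.Ok) (ht : BasT σ.K t) : σ.StepFor t := by
  intro n n0 Φ E hΦ hn hE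
  refine h.nice_add (fun f hf l hl => ((hΦ f hf).2 l hl).1) hn ?_
  rintro f ⟨i, rfl⟩
  exact ⟨fun x => ev (tailF σ.S σ.A) t σ.b x i, E, Or.inr (Or.inl ⟨t, i, ht, rfl⟩), hE, rfl⟩
theorem step_id : σ.StepFor .id := by
  intro n n0 Φ E _ hn hE
  refine hn.mono ?_ le_rfl
  rintro f (a | ⟨i, rfl⟩)
  exacts [a, hE i]
theorem step_tl : σ.StepFor .tl := by
  intro n n0 Φ E _ hn hE
  refine hn.mono ?_ le_rfl
  rintro f (a | ⟨i, rfl⟩)
  exacts [a, hE (i + 1)]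

theorem Nice_qok_step (h : σ.Ok) (ht : t.depth ≤ σ.K) {E : ℕ → Qt.{u}}
    (hΦ : ∀ f ∈ Φ, σ.QOk n n0 f) (hE : ∀ i, E i ∈ Φ) :
    ∀ f ∈ Φ ∪ range fun i l => ev (tailF σ.S σ.A) t σ.b (fun j => E j l) i, σ.QOk n n0 f := by
  rintro f (a | ⟨i, rfl⟩)
  exacts [hΦ f a, h.qok_ev ht (fun j => hΦ _ (hE j)) i]

theorem Ok.step_cons (h : σ.Ok) {s : Trm} (hs : s.depth ≤ σ.K) (h1 : σ.StepFor s)
    (h2 : σ.StepFor t) : σ.StepFor (.cons s t) := by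
  intro n n0 Φ E hΦ hn hE
  refine (h2 n n0 _ E (Nice_qok_step h hs hΦ hE) (h1 n n0 Φ E hΦ hn hE)
    fun i => Or.inl (hE i)).mono ?_ le_rfl
  rintro f (a | ⟨i, rfl⟩)
  · exact Or.inl (Or.inl a)
  · cases i with
    | zero => exact Or.inl (Or.inr ⟨0, rfl⟩)
    | succ i => exact Or.inr ⟨i, rfl⟩
theorem Ok.step_comp (h : σ.Ok) {s : Trm} (ht : t.depth ≤ σ.K) (h1 : σ.StepFor s)
    (h2 : σ.StepFor t) : σ.StepFor (.comp s t) := by
  intro n n0 Φ E hΦ hn hE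
  refine (h1 n n0 _ (fun i l => ev (tailF σ.S σ.A) t σ.b (fun j => E j l) i)
    (Nice_qok_step h ht hΦ hE) (h2 n n0 Φ E hΦ hn hE) fun i => Or.inr ⟨i, rfl⟩).mono ?_ le_rfl
  rintro f (a | ⟨i, rfl⟩)
  exacts [Or.inl (Or.inl a), Or.inr ⟨i, rfl⟩]

/-- A family of quantities with a new head. -/
def Nice_ec (a : Qt.{u}) (E : ℕ → Qt.{u}) : ℕ → Qt.{u}
  | 0 => a
  | i + 1 => E i

theorem Nice_ec_eq (a : Qt.{u}) (E : ℕ → Qt.{u}) (l : List Ordinal.{u}) :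
    (ec (a l) fun i => E i l) = fun j => Nice_ec a E j l := by
  funext j
  cases j <;> rfl

/-- Pushing `t` twice, at the two points `a` and `a'`. -/
theorem Ok.nice_two (h : σ.Ok) (ht : t.depth ≤ σ.K) (hs : σ.StepFor t) 
    {E : ℕ → Qt.{u}} {a a' : Qt.{u}} (hΦ : ∀ f ∈ Φ, σ.QOk n n0 f)
    (hE : ∀ i, E i ∈ Φ) (ha : σ.QOk n n0 a) (ha' : σ.QOk n n0 a') (hn : σ.Nice n (Φ ∪ {a, a'})) :
    σ.Nice n (Φ ∪ {fun l => ev (tailF σ.S σ.A) t σ.b (ec (a l) fun i => E i l) 0,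
      fun l => ev (tailF σ.S σ.A) t σ.b (ec (a' l) fun i => E i l) 0}) := by
  have h1 : ∀ f ∈ Φ ∪ {a, a'}, σ.QOk n n0 f := by
    rintro f (b | rfl | rfl)
    exacts [hΦ f b, ha, ha']
  have e1 : ∀ i, Nice_ec a E i ∈ Φ ∪ {a, a'} := fun i => by
    cases i with
    | zero => exact Or.inr (Or.inl rfl)
    | succ i => exact Or.inl (hE i)
  have e2 : ∀ i, Nice_ec a' E i ∈ Φ ∪ {a, a'} := fun i => by
    cases i with
    | zero => exact Or.inr (Or.inr rfl)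
    | succ i => exact Or.inl (hE i)
  refine (hs n n0 _ (Nice_ec a' E) (Nice_qok_step h ht h1 e1) (hs n n0 _ _ h1 hn e1)
    fun i => Or.inl (e2 i)).mono ?_ le_rfl
  simp only [Nice_ec_eq]
  rintro f (b | rfl | rfl)
  exacts [Or.inl (Or.inl (Or.inl b)), Or.inl (Or.inr ⟨0, rfl⟩), Or.inr ⟨0, rfl⟩]

theorem Nice_base (h : σ.Ok) : σ.Nice n {f | ∃ y ∈ σ.Cs, f = fun _ => y} :=
  (h.nice_cst (by simp) h.init).mono subset_union_right (Nat.zero_le n)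

theorem Ok.step_final (h : σ.Ok) (ht : t.depth ≤ σ.K) (hs : σ.StepFor t) {q : List Code.{u}}
    (hq : ∀ y ∈ q, y ∈ σ.Cs) (N : ℕ) :
    GoodF σ.A σ.μ N fun l => ev (tailF σ.S σ.A) t σ.b (ofL (l.map od ++ q)) 0 := by
  have hΦ : ∀ f ∈ {f : Qt.{u} | ∃ y ∈ σ.Cs, f = fun _ => y} ∪ {f | ∃ i < N, f = prj i},
      σ.QOk N 0 f := by
    rintro f (⟨y, hy, rfl⟩ | ⟨i, hi, rfl⟩)
    exacts [h.qok_cst hy, h.qok_prj hi]
  have hn : σ.Nice N ({f : Qt.{u} | ∃ y ∈ σ.Cs, f = fun _ => y} ∪ {f | ∃ i < N, f = prj i}) :=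
    (Nice_base h).add_prj.mono (union_subset_union_right _ fun _ ⟨i, _, e⟩ => ⟨i, e.symm⟩) le_rfl
  have hE : ∀ i, (if i < N then prj i else fun _ => q.getD (i - N) (od 0)) ∈
      {f : Qt.{u} | ∃ y ∈ σ.Cs, f = fun _ => y} ∪ {f | ∃ i < N, f = prj i} := fun i => by
    split_ifs with hi
    · exact Or.inr ⟨i, hi, rfl⟩
    · refine Or.inl ⟨_, ?_, rfl⟩
      by_cases c : i - N < q.length
      · rw [List.getD_eq_getElem _ _ c]
        exact hq _ (List.getElem_mem c)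
      · rw [List.getD_eq_default _ _ (not_lt.1 c)]
        exact h.cs_od 0 zero_le (Nice_pos h)
  refine (h.good_of_mem (fun f hf l hl => ((Nice_qok_step h ht hΦ hE f hf).2 l hl).1)
    (hs N 0 _ _ hΦ hn hE) (Or.inr ⟨0, rfl⟩) le_rfl).congr fun l hl => ?_
  refine congrArg (fun x => ev (tailF σ.S σ.A) t σ.b x 0) (funext fun j => ?_)
  rw [ofL_apply]
  split_ifs with hj
  · have hj' : j < l.length := hl.1 ▸ hj
    rw [List.getD_append _ _ _ _ (by simpa using hj'),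
      List.getD_eq_getElem _ _ (by simpa using hj'), List.getElem_map]
    simp only [prj]
    rw [List.getD_eq_getElem _ _ hj']
  · rw [List.getD_append_right _ _ _ _ (by simpa [hl.1] using hj), List.length_map, hl.1]

theorem Ok.step_meas (h : σ.Ok) (ht : t.depth ≤ σ.K) (hs : σ.StepFor t) {x : CE.{u}}
    (hx : ∀ i, x i ∈ σ.Cs) : Mn σ.A σ.μ 2 fun l =>
      ev (tailF σ.S σ.A) t σ.b (ec (od (l.getD 0 0)) x) 0 =
        ev (tailF σ.S σ.A) t σ.b (ec (od (l.getD 1 0)) x) 0 := by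
  have hΦ : ∀ f ∈ {f : Qt.{u} | ∃ y ∈ σ.Cs, f = fun _ => y}, σ.QOk 2 0 f := by
    rintro f ⟨y, hy, rfl⟩
    exact h.qok_cst hy
  have h2 := h.nice_two ht hs (E := fun i _ => x i) (a := prj 0) (a' := prj 1) hΦ
    (fun i => ⟨x i, hx i, rfl⟩) (h.qok_prj (by omega)) (h.qok_prj (by omega))
    ((Nice_base h).add_prj.mono (union_subset_union_right _ (by
      rintro f (rfl | rfl)
      exacts [⟨0, rfl⟩, ⟨1, rfl⟩])) le_rfl)
  refine h.mn_eq ?_ h2 (Or.inr (Or.inl rfl)) (Or.inr (Or.inr rfl)) le_rfl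
  rintro f (a | rfl | rfl) l hl
  · exact ((hΦ f a).2 l hl).1
  · exact ev_in t h.reg.2.2.1 (inE_ec.2 ⟨Nice_prj_in h 0 hl, fun i => h.cs_in _ (hx i)⟩) 0
  · exact ev_in t h.reg.2.2.1 (inE_ec.2 ⟨Nice_prj_in h 1 hl, fun i => h.cs_in _ (hx i)⟩) 0

end TSys

end Pool.Agent.P.MP_833f7a_lc
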