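import Pool.Agent.P.MP_833f7a_lc.UML

/-!
The code named by an admissible name.
-/

universe u v w

namespace Pool.Agent.P.MP_833f7a_lc

open Cardinal Ordinal Set Code Nm

namespace UM

variable {c : Cls.{u}} {κ : Ordinal.{u}} {m : UM c κ} {ν ν' : Nm.{u} Ordinal.{u}}
  {a : Option (Nm.{u} Ordinal.{u})}

theorem PiL_den_lv (R : Str.{u} Ordinal.{u}) (n : Nm.{u} Ordinal.{u}) :
    R.den (op1 .lv n) 0 = od (R.den n 0).lv := rfl
theorem PiL_den_q1 (R : Str.{u} Ordinal.{u}) (n : Nm.{u} Ordinal.{u}) :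
    R.den (op1 .q1 n) 0 = (R.den n 0).q1 := rfl
theorem PiL_den_q2 (R : Str.{u} Ordinal.{u}) (n : Nm.{u} Ordinal.{u}) :
    R.den (op1 .q2 n) 0 = (R.den n 0).q2 := rfl
theorem PiL_den_nm (R : Str.{u} Ordinal.{u}) (n : Nm.{u} Ordinal.{u}) :
    R.den (op1 .nm n) 0 = (R.den n 0).nm := rfl

theorem PiL_false {P : Str.{u} Ordinal.{u} → Prop} (h : m.Ev P) (hP : ∀ R, ¬ P R) : False := by
  obtain ⟨s, hs⟩ := h.exists
  exact hP _ hs

theorem PiL_om_lt (hv : c.Valid κ) : ω < c.γ := omega0_lt_omega_one.trans_le hv.1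

theorem PiL_type_unique {t t' : Trm} (ht : m.Ev fun R => ∃ a x y, R.den ν 0 = st a t x y)
    (ht' : m.Ev fun R => ∃ a x y, R.den ν 0 = st a t' x y) : t = t' := by
  obtain ⟨s, ⟨a, x, y, h1⟩, a', x', y', h2⟩ := (ht.and ht').exists
  rw [h1] at h2
  exact (Code.st.inj h2).2.1

theorem PiL_pos {t : Trm} (ht : m.Ev fun R => ∃ a x y, R.den ν 0 = st a t x y)
    (h1 : m.rk (op1 .lv (op1 .q1 ν)) < m.rk (op1 .lv ν))
    (h2 : m.rk (op1 .lv (op1 .q2 ν)) < m.rk (op1 .lv ν)) :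
    m.pi ν = st (m.rk (op1 .lv ν)) t (m.pi (op1 .q1 ν)) (m.pi (op1 .q2 ν)) := by
  have h : ∃ t : Trm, m.Ev (fun R => ∃ a x y, R.den ν 0 = st a t x y) ∧
      m.rk (op1 .lv (op1 .q1 ν)) < m.rk (op1 .lv ν) ∧
      m.rk (op1 .lv (op1 .q2 ν)) < m.rk (op1 .lv ν) := ⟨t, ht, h1, h2⟩
  rw [pi, dif_pos h, PiL_type_unique h.choose_spec.1 ht]

theorem PiL_neg (h : ¬ ∃ t : Trm, m.Ev (fun R => ∃ a x y, R.den ν 0 = st a t x y) ∧
      m.rk (op1 .lv (op1 .q1 ν)) < m.rk (op1 .lv ν) ∧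
      m.rk (op1 .lv (op1 .q2 ν)) < m.rk (op1 .lv ν)) : m.pi ν = od (m.rk ν) := by
  rw [pi, dif_neg h]

theorem PiL_eq_lv (e : m.EqE ν ν') : m.EqE (op1 .lv ν) (op1 .lv ν') :=
  Ev.mono e fun R hR => by rw [PiL_den_lv, PiL_den_lv, hR]
theorem PiL_eq_q1 (e : m.EqE ν ν') : m.EqE (op1 .q1 ν) (op1 .q1 ν') :=
  Ev.mono e fun R hR => by rw [PiL_den_q1, PiL_den_q1, hR]
theorem PiL_eq_q2 (e : m.EqE ν ν') : m.EqE (op1 .q2 ν) (op1 .q2 ν') :=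
  Ev.mono e fun R hR => by rw [PiL_den_q2, PiL_den_q2, hR]

theorem PiL_rk_lv (h : OkK c κ ν) (o : m.OrdE ν) : m.rk (op1 .lv ν) = m.rk ν :=
  rk_congr (ok_op.2 h) h (Ev.mono o fun R ⟨z, hz⟩ => by rw [PiL_den_lv, hz]; rfl)

theorem PiL_lv_lt_iff (h : m.Adm ν) (h' : m.Adm ν') :
    m.rk (op1 .lv ν) < m.rk (op1 .lv ν') ↔ m.Ev fun R => (R.den ν 0).lv < (R.den ν' 0).lv := by
  rw [rk_lt_iff (h.op _) (h'.op _) (ordE_lv _) (ordE_lv _)]
  exact ⟨fun e => Ev.mono e fun R hR => el_od_od.1 hR, fun e => Ev.mono e fun R hR => el_od_od.2 hR⟩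

theorem PiL_lv_le_iff (h : m.Adm ν) (h' : m.Adm ν') :
    m.rk (op1 .lv ν) ≤ m.rk (op1 .lv ν') ↔ m.Ev fun R => (R.den ν 0).lv ≤ (R.den ν' 0).lv := by
  rw [← not_lt, PiL_lv_lt_iff h' h, ← ev_not]
  exact ⟨fun e => Ev.mono e fun R hR => not_lt.1 hR, fun e => Ev.mono e fun R hR => not_lt.2 hR⟩

theorem PiL_om_iff (hv : c.Valid κ) (h : m.Adm ν) :
    ω ≤ m.rk (op1 .lv ν) ↔ m.Ev fun R => ω ≤ (R.den ν 0).lv := by
  have hκ : ω < κ := (PiL_om_lt hv).trans hv.2.1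
  have h1 : m.rk (op1 .lv (cst ω)) = ω := by
    rw [PiL_rk_lv (adm_cst (m := m) hκ).1 (ordE_cst ω), rk_cst hκ]
  have h2 := PiL_lv_le_iff (adm_cst hκ) h
  rw [h1] at h2
  rw [h2]
  constructor
  · intro e
    refine (e.and ev_fs).mono fun R ⟨h3, h4⟩ => ?_
    rwa [den_cst, lv_od, h4.2.2.2.2 _ (PiL_om_lt hv)] at h3
  · intro e
    refine (e.and ev_fs).mono fun R ⟨h3, h4⟩ => ?_
    rwa [den_cst, lv_od, h4.2.2.2.2 _ (PiL_om_lt hv)]

theorem PiL_q_lt (h : m.Adm ν) {t : Trm} (ht : m.Ev fun R => ∃ a x y, R.den ν 0 = st a t x y) :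
    m.rk (op1 .lv (op1 .q1 ν)) < m.rk (op1 .lv ν) ∧
      m.rk (op1 .lv (op1 .q2 ν)) < m.rk (op1 .lv ν) := by
  rw [PiL_lv_lt_iff (h.op _) h, PiL_lv_lt_iff (h.op _) h]
  constructor
  · refine (ht.and (ev_in h.1)).mono fun R ⟨⟨a, x, y, h1⟩, h2⟩ => ?_
    have h3 := h2 0
    rw [h1] at h3
    rw [PiL_den_q1, h1]
    exact h3.2.2.1.lv_lt
  · refine (ht.and (ev_in h.1)).mono fun R ⟨⟨a, x, y, h1⟩, h2⟩ => ?_
    have h3 := h2 0
    rw [h1] at h3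
    rw [PiL_den_q2, h1]
    exact h3.2.2.2.lv_lt

theorem pi_od (o : m.OrdE ν) : m.pi ν = od (m.rk ν) := by
  refine PiL_neg ?_
  rintro ⟨t, ht, -⟩
  refine PiL_false (Ev.and o ht) ?_
  rintro R ⟨⟨z, h1⟩, a, x, y, h2⟩
  rw [h1] at h2
  cases h2
theorem pi_st (h : m.Adm ν) {t : Trm} (ht : m.Ev fun R => ∃ a x y, R.den ν 0 = st a t x y) :
    m.pi ν = st (m.rk (op1 .lv ν)) t (m.pi (op1 .q1 ν)) (m.pi (op1 .q2 ν)) :=
  PiL_pos ht (PiL_q_lt h ht).1 (PiL_q_lt h ht).2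
theorem exists_type (hv : c.Valid κ) (h : OkK c κ ν) :
    m.OrdE ν ∨ ∃ t, m.Ev fun R => ∃ a x y, R.den ν 0 = st a t x y := by
  by_cases o : m.OrdE ν
  · exact Or.inl o
  right
  have hγ := PiL_om_lt hv
  have h1 : m.Ev fun R => ∃ a t x y, R.den ν 0 = st a t x y := by
    refine (ev_not.2 o).mono fun R hR => ?_
    cases hd : R.den ν 0 with
    | od z => exact absurd ⟨z, hd⟩ hR
    | st a t x y => exact ⟨a, t, x, y, rfl⟩
  have h2 : m.ElE (op1 .nm ν) (cst ω) := by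
    refine (h1.and ev_fs).mono fun R ⟨⟨a, t, x, y, h3⟩, h4⟩ => ?_
    rw [PiL_den_nm, h3, den_cst, h4.2.2.2.2 _ hγ]
    exact el_od_od.2 (natCast_lt_omega0 _)
  obtain ⟨ξ, hξ, h3⟩ := std' (ok_op.2 h) (hγ.trans hv.2.1) h2
  have h4 : m.Ev fun R => ∃ a t x y, R.den ν 0 = st a t x y ∧
      ((t.num + 1 : ℕ) : Ordinal.{u}) = ξ := by
    refine ((h1.and h3).and ev_fs).mono fun R ⟨⟨⟨a, t, x, y, h5⟩, h6⟩, h7⟩ => ?_
    rw [PiL_den_nm, h5, den_cst, h7.2.2.2.2 _ (hξ.trans hγ)] at h6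
    exact ⟨a, t, x, y, h5, Code.od.inj h6⟩
  obtain ⟨s, -, t, -, -, -, ht⟩ := h4.exists
  refine ⟨t, h4.mono fun R ⟨a, t', x, y, h5, h6⟩ => ⟨a, x, y, ?_⟩⟩
  have h7 : t'.num + 1 = t.num + 1 := Nat.cast_injective (R := Ordinal.{u}) (h6.trans ht.symm)
  rw [h5, Trm.num_inj (Nat.succ_injective h7)]
theorem pi_congr (h : OkK c κ ν) (h' : OkK c κ ν') (e : m.EqE ν ν') : m.pi ν = m.pi ν' := by
  generalize hz : m.rk (op1 .lv ν) = z
  induction z using WellFoundedLT.induction generalizing ν ν' with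
  | ind z ih =>
    have e0 := rk_congr (ok_op.2 h) (ok_op.2 h') (PiL_eq_lv e)
    have e1 := rk_congr (ok_op.2 (ok_op.2 h)) (ok_op.2 (ok_op.2 h')) (PiL_eq_lv (PiL_eq_q1 e))
    have e2 := rk_congr (ok_op.2 (ok_op.2 h)) (ok_op.2 (ok_op.2 h')) (PiL_eq_lv (PiL_eq_q2 e))
    by_cases hc : ∃ t : Trm, m.Ev (fun R => ∃ a x y, R.den ν 0 = st a t x y) ∧
        m.rk (op1 .lv (op1 .q1 ν)) < m.rk (op1 .lv ν) ∧
        m.rk (op1 .lv (op1 .q2 ν)) < m.rk (op1 .lv ν)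
    · obtain ⟨t, ht, h1, h2⟩ := hc
      have ht' : m.Ev fun R => ∃ a x y, R.den ν' 0 = st a t x y :=
        (ht.and e).mono fun R ⟨h3, h4⟩ => by rw [← h4]; exact h3
      rw [PiL_pos ht h1 h2, PiL_pos ht' (by rw [← e0, ← e1]; exact h1)
        (by rw [← e0, ← e2]; exact h2), e0,
        ih _ (hz ▸ h1) (ok_op.2 h) (ok_op.2 h') (PiL_eq_q1 e) rfl,
        ih _ (hz ▸ h2) (ok_op.2 h) (ok_op.2 h') (PiL_eq_q2 e) rfl]
    · rw [PiL_neg hc, PiL_neg, rk_congr h h' e]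
      rintro ⟨t, ht, h1, h2⟩
      exact hc ⟨t, (ht.and e).mono fun R ⟨h3, h4⟩ => by rw [h4]; exact h3,
        by rw [e0, e1]; exact h1, by rw [e0, e2]; exact h2⟩
theorem pi_lv (hv : c.Valid κ) (h : m.Adm ν) : (m.pi ν).lv = m.rk (op1 .lv ν) := by
  rcases exists_type (m := m) hv h.1 with o | ⟨t, ht⟩
  · rw [pi_od o, PiL_rk_lv h.1 o]; rfl
  · rw [pi_st h ht]; rfl
theorem ordE_of_pi (hv : c.Valid κ) (h : m.Adm ν) {z : Ordinal.{u}} (hz : m.pi ν = od z) :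
    m.OrdE ν ∧ m.rk ν = z := by
  rcases exists_type (m := m) hv h.1 with o | ⟨t, ht⟩
  · rw [pi_od o] at hz
    exact ⟨o, Code.od.inj hz⟩
  · rw [pi_st h ht] at hz
    cases hz

theorem PiL_st_of_pi (hv : c.Valid κ) (h : m.Adm ν) {z : Ordinal.{u}} {t : Trm} {x y : Code.{u}}
    (hz : m.pi ν = st z t x y) : (m.Ev fun R => ∃ a x y, R.den ν 0 = st a t x y) ∧
      m.rk (op1 .lv ν) = z ∧ m.pi (op1 .q1 ν) = x ∧ m.pi (op1 .q2 ν) = y := by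
  rcases exists_type (m := m) hv h.1 with o | ⟨t', ht⟩
  · rw [pi_od o] at hz
    cases hz
  · rw [pi_st h ht] at hz
    obtain ⟨h1, h2, h3, h4⟩ := Code.st.inj hz
    exact ⟨h2 ▸ ht, h1, h3, h4⟩

theorem PiL_valid (hv : c.Valid κ) (x : Code.{u}) : ∀ ν, m.Adm ν → m.pi ν = x →
    ∀ b, x.lv < b → x.In b := by
  induction x with
  | od z => intro ν _ _ b hb; exact hb
  | st z t x y ihx ihy =>
    intro ν h hz b hb
    obtain ⟨ht, h1, h2, h3⟩ := PiL_st_of_pi hv h hz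
    obtain ⟨h4, h5⟩ := PiL_q_lt h ht
    refine ⟨?_, hb, ihx _ (h.op _) h2 _ ?_, ihy _ (h.op _) h3 _ ?_⟩
    · rw [← h1, PiL_om_iff hv h]
      refine (ht.and (ev_in h.1)).mono fun R ⟨⟨a, x', y', h6⟩, h7⟩ => ?_
      have h8 := h7 0
      rw [h6] at h8 ⊢
      exact h8.1
    · rw [← h2, pi_lv hv (h.op _), ← h1]; exact h4
    · rw [← h3, pi_lv hv (h.op _), ← h1]; exact h5

theorem pi_in (hv : c.Valid κ) (h : m.Adm ν) : (m.pi ν).In m.ht :=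
  PiL_valid hv _ ν h rfl _ (by rw [pi_lv hv h]; exact rk_lt_ht (h.op _) (ordE_lv _))

theorem PiL_eqE_of_pi (hv : c.Valid κ) (x : Code.{u}) : ∀ ν ν', m.Adm ν → m.Adm ν' →
    m.pi ν = x → m.pi ν' = x → m.EqE ν ν' := by
  induction x with
  | od z =>
    intro ν ν' h h' hz hz'
    obtain ⟨o, h1⟩ := ordE_of_pi hv h hz
    obtain ⟨o', h2⟩ := ordE_of_pi hv h' hz'
    exact (rk_eq_iff h h' o o').1 (h1.trans h2.symm)
  | st z t x y ihx ihy =>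
    intro ν ν' h h' hz hz'
    obtain ⟨ht, h1, h2, h3⟩ := PiL_st_of_pi hv h hz
    obtain ⟨ht', h1', h2', h3'⟩ := PiL_st_of_pi hv h' hz'
    have e0 := (rk_eq_iff (h.op _) (h'.op _) (ordE_lv _) (ordE_lv _)).1 (h1.trans h1'.symm)
    have e1 := ihx _ _ (h.op _) (h'.op _) h2 h2'
    have e2 := ihy _ _ (h.op _) (h'.op _) h3 h3'
    refine ((ht.and ht').and (Ev.and e0 (Ev.and e1 e2))).mono
      fun R ⟨⟨⟨a, p, q, k1⟩, a', p', q', k2⟩, k3, k4, k5⟩ => ?_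
    rw [PiL_den_lv, PiL_den_lv, k1, k2] at k3
    rw [PiL_den_q1, PiL_den_q1, k1, k2] at k4
    rw [PiL_den_q2, PiL_den_q2, k1, k2] at k5
    have k6 : a = a' := Code.od.inj k3
    have k7 : p = p' := k4
    have k8 : q = q' := k5
    rw [k1, k2, k6, k7, k8]

theorem pi_eq_iff (hv : c.Valid κ) (h : m.Adm ν) (h' : m.Adm ν') :
    m.pi ν = m.pi ν' ↔ m.EqE ν ν' :=
  ⟨fun e => PiL_eqE_of_pi hv _ ν ν' h h' e rfl, pi_congr h.1 h'.1⟩
theorem pi_surj (hv : c.Valid κ) {x : Code.{u}} (hx : x.In m.ht) : ∃ ν, m.Adm ν ∧ m.pi ν = x := by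
  induction x with
  | od z =>
    obtain ⟨ν, h, o, hz⟩ := ht_surj (m := m) hx
    exact ⟨ν, h, by rw [pi_od o, hz]⟩
  | st z t x y ihx ihy =>
    obtain ⟨h1, h2, h3, h4⟩ := hx
    obtain ⟨n0, a0, o, hz⟩ := ht_surj (m := m) h2
    obtain ⟨n1, a1, e1⟩ := ihx (h3.mono h2.le)
    obtain ⟨n2, a2, e2⟩ := ihy (h4.mono h2.le)
    have hz' : m.rk (op1 .lv n0) = z := by rw [PiL_rk_lv a0.1 o, hz]
    have had : m.Adm (app (.mk t) (cons n0 (cons n1 n2))) :=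
      (adm_cons.2 ⟨a0, adm_cons.2 ⟨a1, a2⟩⟩).app (Nat.zero_le _)
    have k0 := (PiL_om_iff hv a0).1 (hz' ▸ h1)
    have k1 := (PiL_lv_lt_iff a1 a0).1 (by rw [← pi_lv hv a1, e1, hz']; exact h3.lv_lt)
    have k2 := (PiL_lv_lt_iff a2 a0).1 (by rw [← pi_lv hv a2, e2, hz']; exact h4.lv_lt)
    have key : m.Ev fun R => ∃ w, R.den n0 0 = od w ∧
        R.den (app (.mk t) (cons n0 (cons n1 n2))) 0 = st w t (R.den n1 0) (R.den n2 0) := by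
      refine ((Ev.and o (k0.and (k1.and k2))).and ((ev_in a1.1).and (ev_in a2.1))).mono
        fun R ⟨⟨⟨w, hw⟩, j0, j1, j2⟩, j3, j4⟩ => ⟨w, hw, ?_⟩
      rw [hw, lv_od] at j0 j1 j2
      change mkc t (R.den n0 0) (R.den n1 0) (R.den n2 0) = _
      rw [hw]
      exact if_pos ⟨j0, (j3 0).of_lv j1, (j4 0).of_lv j2⟩
    refine ⟨_, had, ?_⟩
    rw [pi_st had (t := t) (key.mono fun R ⟨w, _, hw⟩ => ⟨_, _, _, hw⟩),
      rk_congr (ok_op.2 had.1) a0.1 (key.mono fun R ⟨w, h0, hw⟩ => by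
        rw [PiL_den_lv, hw, h0]; rfl),
      pi_congr (ok_op.2 had.1) a1.1 (key.mono fun R ⟨w, _, hw⟩ => by rw [PiL_den_q1, hw]; rfl),
      pi_congr (ok_op.2 had.1) a2.1 (key.mono fun R ⟨w, _, hw⟩ => by rw [PiL_den_q2, hw]; rfl),
      hz, e1, e2]

theorem PiL_lt_of_lv (hv : c.Valid κ) (h : m.Adm ν) (h' : m.Adm ν')
    (hl : (m.pi ν).lv < (m.pi ν').lv) : m.Ev fun R => (R.den ν 0).Lt (R.den ν' 0) := by
  rw [pi_lv hv h, pi_lv hv h', PiL_lv_lt_iff h h'] at hl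
  exact hl.mono fun R hR => Code.lt_of_lv_lt hR

theorem PiL_lt_of_pi (hv : c.Valid κ) (x : Code.{u}) : ∀ ν ν', m.Adm ν → m.Adm ν' →
    m.pi ν = x → x.Lt (m.pi ν') → m.Ev fun R => (R.den ν 0).Lt (R.den ν' 0) := by
  induction x with
  | od z =>
    intro ν ν' h h' hz hl
    cases hz' : m.pi ν' with
    | od z' =>
      rw [hz'] at hl
      exact PiL_lt_of_lv hv h h' (by rw [hz, hz']; exact hl)
    | st z' t' x' y' =>
      rw [hz'] at hl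
      have h1 : m.rk (op1 .lv ν) ≤ m.rk (op1 .lv ν') := by
        rw [← pi_lv hv h, ← pi_lv hv h', hz, hz']; exact hl
      refine (((PiL_lv_le_iff h h').1 h1).and (Ev.and (ordE_of_pi hv h hz).1
        (PiL_st_of_pi hv h' hz').1)).mono fun R ⟨k1, ⟨w, k2⟩, w', p, q, k3⟩ => ?_
      rw [k2, k3] at k1 ⊢
      exact k1
  | st z t x y ihx ihy =>
    intro ν ν' h h' hz hl
    cases hz' : m.pi ν' with
    | od z' =>
      rw [hz'] at hl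
      exact PiL_lt_of_lv hv h h' (by rw [hz, hz']; exact hl)
    | st z' t' x' y' =>
      rw [hz'] at hl
      rcases hl with hl | ⟨rfl, hl⟩
      · exact PiL_lt_of_lv hv h h' (by rw [hz, hz']; exact hl)
      obtain ⟨ht, h1, h2, h3⟩ := PiL_st_of_pi hv h hz
      obtain ⟨ht', h1', h2', h3'⟩ := PiL_st_of_pi hv h' hz'
      have e0 := (rk_eq_iff (h.op _) (h'.op _) (ordE_lv _) (ordE_lv _)).1 (h1.trans h1'.symm)
      have key : m.Ev fun R => ∃ a p q p' q', R.den ν 0 = st a t p q ∧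
          R.den ν' 0 = st a t' p' q' := by
        refine ((ht.and ht').and e0).mono fun R ⟨⟨⟨a, p, q, k1⟩, a', p', q', k2⟩, k3⟩ => ?_
        rw [PiL_den_lv, PiL_den_lv, k1, k2] at k3
        have k4 : a = a' := Code.od.inj k3
        exact ⟨a, p, q, p', q', k1, k4 ▸ k2⟩
      rcases hl with hl | ⟨rfl, hl | ⟨rfl, hl⟩⟩
      · refine key.mono fun R ⟨a, p, q, p', q', k1, k2⟩ => ?_
        rw [k1, k2]
        exact Or.inr ⟨rfl, Or.inl hl⟩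
      · have e1 := ihx _ _ (h.op _) (h'.op .q1) h2 (h2' ▸ hl)
        refine (key.and e1).mono fun R ⟨⟨a, p, q, p', q', k1, k2⟩, k3⟩ => ?_
        rw [PiL_den_q1, PiL_den_q1, k1, k2] at k3
        rw [k1, k2]
        exact Or.inr ⟨rfl, Or.inr ⟨rfl, Or.inl k3⟩⟩
      · have e1 := PiL_eqE_of_pi hv _ _ _ (h.op .q1) (h'.op .q1) h2 h2'
        have e2 := ihy _ _ (h.op _) (h'.op .q2) h3 (h3' ▸ hl)
        refine (key.and (Ev.and e1 e2)).mono fun R ⟨⟨a, p, q, p', q', k1, k2⟩, k3, k4⟩ => ?_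
        rw [PiL_den_q1, PiL_den_q1, k1, k2] at k3
        rw [PiL_den_q2, PiL_den_q2, k1, k2] at k4
        rw [k1, k2]
        exact Or.inr ⟨rfl, Or.inr ⟨rfl, Or.inr ⟨k3, k4⟩⟩⟩

theorem pi_lt_iff (hv : c.Valid κ) (h : m.Adm ν) (h' : m.Adm ν') :
    (m.pi ν).Lt (m.pi ν') ↔ m.Ev fun R => (R.den ν 0).Lt (R.den ν' 0) := by
  refine ⟨PiL_lt_of_pi hv _ ν ν' h h' rfl, fun e => ?_⟩
  rcases Code.lt_trichotomy (m.pi ν) (m.pi ν') with h1 | h1 | h1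
  · exact h1
  · refine (PiL_false (e.and ((pi_eq_iff hv h h').1 h1)) ?_).elim
    rintro R ⟨k1, k2⟩
    rw [k2] at k1
    exact Code.lt_irrefl _ k1
  · refine (PiL_false (e.and (PiL_lt_of_pi hv _ ν' ν h' h rfl h1)) ?_).elim
    rintro R ⟨k1, k2⟩
    exact Code.lt_irrefl _ (k1.trans k2)
theorem pi_cst {ξ : Ordinal.{u}} (h : ξ < κ) : m.pi (cst ξ) = od ξ := by
  rw [pi_od (ordE_cst ξ), rk_cst h]
theorem pi_eq_small (hv : c.Valid κ) (h : m.Adm ν) {ξ : Ordinal.{u}} (hξ : ξ < c.γ) :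
    m.pi ν = od ξ ↔ m.Ev fun R => R.den ν 0 = od ξ := by
  have hκ : ξ < κ := hξ.trans hv.2.1
  have h0 := pi_eq_iff hv h (adm_cst (m := m) hκ)
  rw [pi_cst hκ] at h0
  rw [h0]
  constructor
  · intro e
    refine (Ev.and e ev_fs).mono fun R ⟨h3, h4⟩ => ?_
    rwa [den_cst, h4.2.2.2.2 _ hξ] at h3
  · intro e
    refine (e.and ev_fs).mono fun R ⟨h3, h4⟩ => ?_
    rwa [den_cst, h4.2.2.2.2 _ hξ]
theorem pi_eq_tt (hv : c.Valid κ) (h : m.Adm ν) : m.pi ν = tt ↔ m.Ev fun R => R.Tr ν :=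
  pi_eq_small hv h (one_lt_omega0.trans (PiL_om_lt hv))
theorem pi_bl (hv : c.Valid κ) (h : m.Adm ν) {p : Str.{u} Ordinal.{u} → Prop} {q : Prop}
    (h1 : m.Ev fun R => R.den ν 0 = bl (p R)) (h2 : q ↔ m.Ev p) : m.pi ν = bl q := by
  by_cases hq : q
  · rw [bl_eq_tt.2 hq, pi_eq_tt hv h]
    exact (h1.and (h2.1 hq)).mono fun R ⟨k1, k2⟩ => k1.trans (bl_eq_tt.2 k2)
  · rw [bl_eq_zero.2 hq, pi_eq_small hv h (omega0_pos.trans (PiL_om_lt hv))]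
    exact (h1.and (ev_not.2 fun e => hq (h2.2 e))).mono
      fun R ⟨k1, k2⟩ => k1.trans (bl_eq_zero.2 k2)

theorem PiL_lv_ord {n : Nm.{u} Ordinal.{u}} (ha : m.Lv (some n)) : m.OrdE n :=
  Ev.mono ha.2 fun _ ⟨z, _, hz⟩ => ⟨z, hz⟩

theorem lvs_bounds (hv : c.Valid κ) (ha : m.Lv a) : ω ≤ m.lvs a ∧ m.lvs a ≤ m.ht := by
  cases a with
  | none => exact ⟨((PiL_om_lt hv).trans hv.2.1).le.trans le_ht, le_rfl⟩
  | some n =>
    refine ⟨?_, (rk_lt_ht ha.1 (PiL_lv_ord ha)).le⟩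
    change ω ≤ m.rk n
    rw [← PiL_rk_lv ha.1.1 (PiL_lv_ord ha), PiL_om_iff hv ha.1]
    exact Ev.mono ha.2 fun R ⟨z, h1, h2⟩ => by rw [h2]; exact h1
theorem ev_lvl (ha : m.Lv a) : m.Ev fun R => ω ≤ R.lvl a ∧ R.lvl a ≤ R.β := by
  cases a with
  | none => exact ev_fs.mono fun R hR => ⟨hR.2.1, le_rfl⟩
  | some n =>
    refine (Ev.and ha.2 (ev_in ha.1.1)).mono fun R ⟨⟨z, h1, h2⟩, h3⟩ => ⟨?_, (h3 0).lv_lt.le⟩
    change ω ≤ (R.den n 0).lv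
    rw [h2]; exact h1
theorem pi_in_iff (hv : c.Valid κ) (ha : m.Lv a) (h : m.Adm ν) :
    (m.pi ν).In (m.lvs a) ↔ m.Ev fun R => (R.den ν 0).In (R.lvl a) := by
  cases a with
  | none => exact ⟨fun _ => (ev_in h.1).mono fun R hR => hR 0, fun _ => pi_in hv h⟩
  | some n =>
    change (m.pi ν).In (m.rk n) ↔ m.Ev fun R => (R.den ν 0).In (R.den n 0).lv
    rw [(pi_in hv h).iff_lv, pi_lv hv h, ← PiL_rk_lv ha.1.1 (PiL_lv_ord ha),
      PiL_lv_lt_iff h ha.1]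
    exact ⟨fun e => (e.and (ev_in h.1)).mono fun R ⟨k1, k2⟩ => (k2 0).of_lv k1,
      fun e => e.mono fun R k => k.lv_lt⟩
theorem lv_of_pi (hv : c.Valid κ) (h : m.Adm ν) {z : Ordinal.{u}} (hz : m.pi ν = od z)
    (ho : ω ≤ z) : m.Lv (some ν) := by
  obtain ⟨o, h1⟩ := ordE_of_pi hv h hz
  have h2 := (PiL_om_iff hv h).1 (by rw [PiL_rk_lv h.1 o, h1]; exact ho)
  refine ⟨h, (Ev.and o h2).mono fun R ⟨⟨w, k1⟩, k2⟩ => ⟨w, ?_, k1⟩⟩
  rw [k1] at k2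
  exact k2
theorem Pi_zero (h : OkK c κ ν) : m.Pi ν 0 = m.pi ν :=
  pi_congr (ok_ent.2 h) h (ev_of_forall fun _ => den_ent 0)
theorem Pi_congr (h : OkK c κ ν) (h' : OkK c κ ν') (e : m.Ev fun R => R.den ν = R.den ν') :
    m.Pi ν = m.Pi ν' :=
  funext fun i => pi_congr (ok_ent.2 h) (ok_ent.2 h')
    (e.mono fun R hR => by rw [den_ent, den_ent, hR])
theorem Pi_const (h : OkK c κ ν) (e : m.Ev fun R => ∀ i, R.den ν i = R.den ν 0) :
    m.Pi ν = fun _ => m.pi ν :=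
  funext fun i => pi_congr (ok_ent.2 h) h (e.mono fun R hR => by rw [den_ent, hR i])
theorem Pi_cons (h : OkK c κ ν) (h' : OkK c κ ν') :
    m.Pi (cons ν ν') = ec (m.pi ν) (m.Pi ν') := by
  funext i
  cases i with
  | zero =>
    exact pi_congr (ok_ent.2 (ok_cons.2 ⟨h, h'⟩)) h
      (ev_of_forall fun s => by rw [den_ent]; rfl)
  | succ i =>
    exact pi_congr (ok_ent.2 (ok_cons.2 ⟨h, h'⟩)) (ok_ent.2 h')
      (ev_of_forall fun s => by rw [den_ent, den_ent]; rfl)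
theorem Pi_lst (hv : c.Valid κ) {l : List (Nm.{u} Ordinal.{u})} (h : ∀ n ∈ l, OkK c κ n) :
    m.Pi (lst l) = ofL (l.map m.pi) := by
  induction l with
  | nil =>
    funext i
    refine (pi_eq_small hv (((adm_par 0).op .zero).ent i) (omega0_pos.trans (PiL_om_lt hv))).2 ?_
    exact ev_of_forall fun s => by rw [den_ent]; rfl
  | cons n l ih =>
    have h1 : ∀ n' ∈ l, OkK c κ n' := fun n' hn => h n' (List.mem_cons_of_mem _ hn)
    change m.Pi (cons n (lst l)) = _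
    rw [Pi_cons (h n List.mem_cons_self) (ok_lst.2 h1), ih h1]
    rfl
theorem Below.inE (hv : c.Valid κ) (ha : m.Lv a) (h : m.Adm ν) (hb : m.Below a ν) :
    InE (m.Pi ν) (m.lvs a) := fun i =>
  (pi_in_iff hv ha (h.ent i)).2 (Ev.mono hb fun R hR => by rw [den_ent]; exact hR i)
theorem below_none (h : OkK c κ ν) : m.Below none ν := ev_in h
/-- Recognition of least elements. -/
theorem pi_least (hv : c.Valid κ) (h : m.Adm ν) {Q : Str.{u} Ordinal.{u} → Code.{u} → Prop}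
    {Q' : Code.{u} → Prop} (h1 : ∀ x, Q' x → x.In m.ht)
    (h2 : ∀ n, m.Adm n → (Q' (m.pi n) ↔ m.Ev fun R => Q R (R.den n 0)))
    (h3 : m.Ev fun R => (∀ x, Q R x → x.In R.β) ∧ R.den ν 0 = least (Q R)) :
    m.pi ν = least Q' := by
  by_cases hQ : m.Ev fun R => ∃ x, Q R x
  · have key : m.Ev fun R => Q R (R.den ν 0) ∧ ∀ y, Q R y → ¬ y.Lt (R.den ν 0) := by
      refine (hQ.and h3).mono fun R ⟨k1, k2, k3⟩ => ?_
      rw [k3]
      exact least_spec (fun x hx => ⟨_, k2 x hx⟩) k1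
    refine (least_eq ((h2 ν h).2 (key.mono fun R k => k.1)) fun y hy hl => ?_).symm
    obtain ⟨n, hn, rfl⟩ := pi_surj hv (h1 y hy)
    refine PiL_false ((key.and ((h2 n hn).1 hy)).and ((pi_lt_iff hv hn h).1 hl)) ?_
    rintro R ⟨⟨k1, k2⟩, k3⟩
    exact k1.2 _ k2 k3
  · have hQ' := ev_not.2 hQ
    rw [least_of_not, pi_eq_small hv h (omega0_pos.trans (PiL_om_lt hv))]
    · exact (hQ'.and h3).mono fun R ⟨k1, k2⟩ => k2.2.trans (least_of_not k1)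
    · rintro ⟨y, hy⟩
      obtain ⟨n, hn, rfl⟩ := pi_surj hv (h1 y hy)
      exact hQ (((h2 n hn).1 hy).mono fun R k => ⟨_, k⟩)
theorem low_adm (ha : m.Lv a) (h : m.Adm ν) {t : Trm} (ht : a = none → t.depth ≤ c.k) :
    m.Adm (LOW a t ν) := by
  cases a with
  | none => exact h.app (ht rfl)
  | some n => exact (adm_cons.2 ⟨ha.1, h⟩).app (Nat.zero_le _)
theorem den_LOW (ha : m.Lv a) (hb : m.Below a ν) (t : Trm) :
    m.Ev fun R => R.den (LOW a t ν) = ev R.F t (R.lvl a) (R.den ν) := by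
  cases a with
  | none => exact ev_of_forall fun _ => rfl
  | some n =>
    refine (Ev.and ha.2 hb).mono fun R ⟨⟨z, h1, h2⟩, h3⟩ => ?_
    have h4 : R.lvl (some n) = z := by
      change (R.den n 0).lv = z
      rw [h2]; rfl
    rw [h4] at h3 ⊢
    change ev R.F (.low t) R.β (ec (R.den n 0) (R.den ν)) = _
    rw [h2, ev_low_od t h1 h3]

end UM

end Pool.Agent.P.MP_833f7a_lc
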