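import Pool.Agent.P.MP_833f7a_lc.Fam

/-!
Positions of the families and of their atoms in the stretch.
-/

universe u v w

namespace Pool.Agent.P.MP_833f7a_lc

open Cardinal Ordinal Set Code Nm

theorem Pos_list_bdd {α : Type v} {θ : Ordinal.{u}} (hθ : Reg θ) (P : Ordinal.{u} × α → Prop)
    (L : List (Ordinal.{u} × α)) (h : ∀ p ∈ L, P p → p.1 < θ) :
    ∃ η < θ, ∀ p ∈ L, P p → p.1 < η := by
  induction L with
  | nil => exact ⟨0, hθ.pos, fun p hp => absurd hp List.not_mem_nil⟩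
  | cons q L ih =>
    obtain ⟨η, hη, hL⟩ := ih fun p hp => h p (List.mem_cons_of_mem _ hp)
    by_cases hq : P q
    · refine ⟨max η (q.1 + 1), max_lt hη (hθ.succ_lt (h q List.mem_cons_self hq)), ?_⟩
      intro p hp hP
      rcases List.mem_cons.1 hp with rfl | hp
      · exact lt_max_of_lt_right (lt_add_one _)
      · exact lt_max_of_lt_left (hL p hp hP)
    · refine ⟨η, hη, fun p hp hP => ?_⟩
      rcases List.mem_cons.1 hp with rfl | hp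
      · exact absurd hP hq
      · exact hL p hp hP

namespace UM

variable {c : Cls.{u}} {κ : Ordinal.{u}} {m : UM c κ} {ν g : Nm.{u} Ordinal.{u}}
  {a : Ordinal.{u} → Nm.{u} Ordinal.{u}}

/-- The value of an atom. -/
theorem Pos_val (hu : m.UpE g) (ha : m.Atoms g a) (η : Ordinal.{u}) :
    m.Ev fun R => ∃ μ, R.Up μ ∧ R.den g 0 = od μ ∧ R.den (a η) 0 = od (R.e μ η) := by
  refine (Ev.and hu (ha.2.2 η)).mono ?_
  rintro R ⟨⟨μ, hμ, hg⟩, h2⟩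
  exact ⟨μ, hμ, hg, by rw [h2 μ hg]⟩

theorem Atoms.ordE (hu : m.UpE g) (ha : m.Atoms g a) (η : Ordinal.{u}) : m.OrdE (a η) :=
  (Pos_val hu ha η).mono fun _ ⟨_, _, _, h⟩ => ⟨_, h⟩

theorem Atoms.el (hu : m.UpE g) (ha : m.Atoms g a) (η : Ordinal.{u}) : m.ElE (a η) g := by
  have h1 : ∀ᶠ s in m.𝒰, ∃ μ, (m.R s).Up μ ∧ (m.R s).den g 0 = od μ ∧
    (m.R s).den (a η) 0 = od ((m.R s).e μ η) := Pos_val hu ha η
  show ∀ᶠ s in (m.𝒰 : Filter Ix.{u}), _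
  filter_upwards [h1, ev_mem (m := m) η] with s h2 h3
  obtain ⟨μ, hμ, hg, hv⟩ := h2
  rw [hg, hv, el_od_od]
  exact ((m.real s).inc μ hμ).2 η h3

theorem Atoms.mono (hu : m.UpE g) (ha : m.Atoms g a) {η η' : Ordinal.{u}} (h : η < η') :
    m.ElE (a η) (a η') := by
  have h1 : ∀ᶠ s in m.𝒰, ∃ μ, (m.R s).Up μ ∧ (m.R s).den g 0 = od μ ∧
    (m.R s).den (a η) 0 = od ((m.R s).e μ η) := Pos_val hu ha η
  have h1' : ∀ᶠ s in m.𝒰, ∀ μ, (m.R s).den g 0 = od μ →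
    (m.R s).den (a η') = fun _ => od ((m.R s).e μ η') := ha.2.2 η'
  show ∀ᶠ s in (m.𝒰 : Filter Ix.{u}), _
  filter_upwards [h1, h1', ev_mem (m := m) η, ev_mem (m := m) η'] with s h2 h2' h3 h3'
  obtain ⟨μ, hμ, hg, hv⟩ := h2
  rw [hv, h2' μ hg, el_od_od]
  exact ((m.real s).inc μ hμ).1 h3 h3' h

/-- Being below an atom, read in the realisations. -/
theorem Pos_el_iff (hu : m.UpE g) (ha : m.Atoms g a) (η : Ordinal.{u}) : m.ElE ν (a η) ↔
    m.Ev fun R => ∃ μ z, R.den g 0 = od μ ∧ z < R.e μ η ∧ R.den ν 0 = od z := by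
  constructor
  · intro h
    refine (Ev.and h (Pos_val hu ha η)).mono ?_
    rintro R ⟨h1, μ, -, hg, hv⟩
    rw [hv, el_od] at h1
    obtain ⟨z, hz, hν⟩ := h1
    exact ⟨μ, z, hg, hz, hν⟩
  · intro h
    refine (Ev.and h (ha.2.2 η)).mono ?_
    rintro R ⟨⟨μ, z, hg, hz, hν⟩, h2⟩
    rw [hν, h2 μ hg, el_od_od]
    exact hz

theorem Pos_el_congr {ν' ν'' : Nm.{u} Ordinal.{u}} (e : m.EqE ν ν') (h : m.ElE ν ν'') :
    m.ElE ν' ν'' :=
  (Ev.and e h).mono fun _ h => by rw [← h.1]; exact h.2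

theorem Pos_el_trans {ν' ν'' : Nm.{u} Ordinal.{u}} (o : m.OrdE ν'') (h : m.ElE ν ν')
    (h' : m.ElE ν' ν'') : m.ElE ν ν'' := by
  refine (Ev.and o (Ev.and h h')).mono ?_
  rintro R ⟨⟨z, hz⟩, h1, h2⟩
  rw [hz, el_od] at h2
  obtain ⟨y, hy, h2⟩ := h2
  rw [h2, el_od] at h1
  obtain ⟨x, hx, h1⟩ := h1
  rw [hz, h1, el_od_od]
  exact hx.trans hy

theorem Pos_not_eq_of_el {ν' : Nm.{u} Ordinal.{u}} (h : m.ElE ν ν') : ¬ m.EqE ν ν' := by
  intro e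
  obtain ⟨s, h1, h2⟩ := (Ev.and h e).exists
  rw [h2] at h1
  exact lt_irrefl _ h1.lv_lt

theorem Pos_okK_occ (h : OkK c κ ν) {i : Ordinal.{u}} (hg : (i, g) ∈ ν.occ) : OkK c κ g :=
  (Nm.Ok.occ h hg).2

theorem Pos_okK_mv (h : OkK c κ ν) (f : Nm.{u} Ordinal.{u} → Ordinal.{u} → Ordinal.{u}) :
    OkK c κ ((ν.mv f).map Prod.snd) :=
  Nm.Ok.mv h f fun _ _ _ => mem_univ _

theorem Pos_bnd_up (hu : m.UpE g) : m.bnd g = th κ (m.fi g) := by
  unfold bnd; exact if_pos hu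

theorem Pos_bnd_not (hu : ¬ m.UpE g) : m.bnd g = κ := by
  unfold bnd; exact if_neg hu

/-- An admissible name below the family is below one of its admissible atoms. -/
theorem Atoms.cofinal (hu : m.UpE g) (hg : OkK c κ g) (ha : m.Atoms g a) (h : m.Adm ν)
    (hlt : m.ElE ν g) : ∃ η < th κ (m.fi g), m.ElE ν (a η) := by
  obtain ⟨η, hη, hL⟩ := Pos_list_bdd (reg_th κ (m.fi g)) (fun p => m.EqE p.2 g) ν.occ (by
    rintro ⟨i, g'⟩ hp he
    have h1 := h.2 i g' hp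
    rwa [bnd_congr (Pos_okK_occ h.1 hp) hg he, Pos_bnd_up hu] at h1)
  exact ⟨η, hη, (Pos_el_iff hu ha η).2
    (um_rem h.1 hu (fun i g' hp he => hL (i, g') hp he) hlt)⟩

theorem pos_atom_lt (hv : c.Valid κ) (h : m.Adm g) (hu : m.UpE g) (ha : m.Atoms g a)
    {η : Ordinal.{u}} (hη : η < th κ (m.fi g)) : m.rk (a η) < th κ (m.fi g) := by
  classical
  have hθ := reg_th κ (m.fi g)
  have hδ : max (ℵ_ (κ + m.fi g)).ord (η + ω) < th κ (m.fi g) :=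
    max_lt (aleph_lt_th κ _) (hθ.add_lt hη hθ.omega_lt)
  refine rk_lt_of_few (few_names (k := c.k) (fl := c.fl) hθ (few_Iio hθ (lt_th κ _))
    (few_Iio hθ hδ)) (ha.2.1 η) (ha.ordE hu η) ?_
  intro ν hν hel
  obtain ⟨τ, hτ, hfix, hlt⟩ := exists_squeeze ν.idx_finite η
  refine ⟨(ν.mv fun g' i => if m.ElE g' g then i else τ i).map Prod.snd, ?_, ?_⟩
  · refine Nm.Ok.mv hν.1 _ fun i g' hp => ?_
    rw [mem_Iio]
    split_ifs with he
    · refine lt_max_of_lt_left ?_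
      have h1 := hν.2 i g' hp
      by_cases hu' : m.UpE g'
      · rw [Pos_bnd_up hu'] at h1
        exact h1.trans_le (th_le_aleph κ ((fi_lt_iff hv (hν.occ hp) h hu' hu).2 he))
      · rw [Pos_bnd_not hu'] at h1
        exact h1.trans_le (le_aleph_add κ _)
    · exact lt_max_of_lt_right (hlt i ⟨g', hp⟩)
  · refine um_indE hν.1 ?_ hu (η := η) ?_ ((Pos_el_iff hu ha η).1 hel)
    · intro i g1 j g2 h1 h2 _ he
      by_cases h3 : m.ElE g1 g
      · simp only [if_pos h3, if_pos (Pos_el_congr he h3)]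
      · have h4 : ¬ m.ElE g2 g := fun h4 => h3 (Pos_el_congr he.symm h4)
        simp only [if_neg h3, if_neg h4]
        exact (hτ.lt_iff_lt ⟨g1, h1⟩ ⟨g2, h2⟩).symm
    · intro i g' _ _ hc
      rcases hc with hc | hc
      · exact if_pos hc
      · split_ifs
        · rfl
        · exact hfix i hc.2

theorem Pos_up_cases (hu : m.UpE g) :
    m.EqE g (par 0) ∨ m.Ev fun R => ∃ z, R.U z ∧ R.den g 0 = od z := by
  refine ev_or.1 ((Ev.and hu ev_fs).mono ?_)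
  rintro R ⟨⟨μ, hμ | hμ, hg⟩, hfs⟩
  · left
    rw [hg, den_par, hfs.2.2.2.1 (hμ.1 ▸ hμ.2), hμ.1]
  · exact Or.inr ⟨μ, hμ, hg⟩

theorem Pos_tr_uN (h : OkK c κ g) (hb : c.hb) :
    (m.Ev fun R => R.Tr (uN g)) ↔ m.Ev fun R => ∃ z, R.U z ∧ R.den g 0 = od z := by
  have h1 : m.Ev fun R => (R.Tr (uN g) ↔ ∃ z, R.U z ∧ R.den g 0 = od z) := by
    refine (Ev.and (ev_in h) ev_fs).mono ?_
    rintro R ⟨hin, hfs⟩
    rw [tr_uN hfs.1 (hfs.2.2.2.1 (hfs.2.2.1.1 hb)) (hin 0)]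
    exact ⟨fun ⟨μ, h1, h2⟩ => ⟨μ, h2, h1⟩, fun ⟨μ, h1, h2⟩ => ⟨μ, h2, h1⟩⟩
  exact ⟨fun h2 => (Ev.and h1 h2).mono fun _ h3 => h3.1.1 h3.2,
    fun h2 => (Ev.and h1 h2).mono fun _ h3 => h3.1.2 h3.2⟩

/-- A move that only changes the atoms of the family `g` does not create new names of `g`. -/
theorem Pos_moved_eq (hu : m.UpE g) {g' : Nm.{u} Ordinal.{u}} (h' : OkK c κ g')
    {f : Nm.{u} Ordinal.{u} → Ordinal.{u} → Ordinal.{u}} (hf : m.MvE f g')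
    (hid : ∀ g2 i, ¬ m.EqE g2 g → f g2 i = i) (he : m.EqE ((g'.mv f).map Prod.snd) g) :
    m.EqE g' g := by
  rcases Pos_up_cases hu with h0 | hU
  · have h1 := um_inv (ν := eqN g' (par 0)) (f := f) (by simpa using h') (by
      intro i g1 j g2 h1 h2
      exact hf i g1 j g2 (by simpa [Nm.occ] using h1) (by simpa [Nm.occ] using h2))
    have h2 : m.Ev fun R => R.Tr (eqN ((g'.mv f).map Prod.snd) (par 0)) :=
      Ev.mono (he.trans h0) fun R h => tr_eqN.2 h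
    have h3 : m.EqE g' (par 0) := Ev.mono (h1.2 h2) fun R h => tr_eqN.1 h
    exact h3.trans h0.symm
  · have h1 := um_inv (ν := uN g') (f := f) (by simpa using h') (by
      intro i g1 j g2 h1 h2
      exact hf i g1 j g2 (by simpa [Nm.occ] using h1) (by simpa [Nm.occ] using h2))
    have h2 : m.Ev fun R => R.Tr (uN ((g'.mv f).map Prod.snd)) := by
      refine (Pos_tr_uN (Pos_okK_mv h' f) hu.hb).2 ((Ev.and he hU).mono ?_)
      rintro R ⟨h3, z, hz, h4⟩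
      exact ⟨z, hz, h3.trans h4⟩
    have h3 := (Pos_tr_uN h' hu.hb).1 (h1.2 h2)
    refine (um_indU h' hf (fun i g2 _ _ h4 => hid g2 i fun h5 => ?_) h3).trans he
    obtain ⟨s, ⟨h6, z, hz, h7⟩, hfs⟩ := (Ev.and (Ev.and (h4.symm.trans h5) hU) ev_fs).exists
    rw [h7, den_par, hfs.2.2.2.1 (hfs.2.2.1.1 hu.hb)] at h6
    exact hz.1.ne (od.inj h6)

/-- Continuity of the atoms. -/
theorem Pos_cont (hu : m.UpE g) (ha : m.Atoms g a) {η : Ordinal.{u}}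
    (hη : Order.IsSuccLimit η) (h : OkK c κ ν) (hel : m.ElE ν (a η)) :
    ∃ η' < η, m.ElE ν (a η') := by
  classical
  obtain ⟨τ, hτ, hfix, η', hη', hlt⟩ := exists_squeeze_lim ν.idx_finite hη
  set f : Nm.{u} Ordinal.{u} → Ordinal.{u} → Ordinal.{u} :=
    fun g' i => if m.EqE g' g then τ i else i with hfdef
  have hf : m.MvE f ν := by
    intro i g1 j g2 h1 h2 _ he
    by_cases h3 : m.EqE g1 g
    · simp only [hfdef, if_pos h3, if_pos (he.symm.trans h3)]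
      exact (hτ.lt_iff_lt ⟨g1, h1⟩ ⟨g2, h2⟩).symm
    · have h4 : ¬ m.EqE g2 g := fun h4 => h3 (he.trans h4)
      simp only [hfdef, if_neg h3, if_neg h4]
  have he : m.EqE ν ((ν.mv f).map Prod.snd) := by
    refine um_indE h hf hu (η := η) ?_ ((Pos_el_iff hu ha η).1 hel)
    intro i g' _ _ hc
    rcases hc with hc | hc
    · exact if_neg (Pos_not_eq_of_el hc)
    · exact (if_pos hc.1).trans (hfix i hc.2)
  refine ⟨η', hη', Pos_el_congr he.symm ((Pos_el_iff hu ha η').2 (um_rem (Pos_okK_mv h f) hu ?_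
    (Pos_el_congr he (Pos_el_trans hu.ordE hel (ha.el hu η)))))⟩
  intro i g'' hp he'
  rw [Nm.occ_map, Nm.occ_mv, List.map_map, List.mem_map] at hp
  obtain ⟨⟨j, g'⟩, hp, hq⟩ := hp
  simp only [Function.comp, Prod.mk.injEq] at hq
  obtain ⟨rfl, rfl⟩ := hq
  have h1 : m.EqE g' g := by
    refine Pos_moved_eq hu (Pos_okK_occ h hp) ?_ (fun g2 i h2 => if_neg h2) he'
    intro i1 g1 i2 g2 h1 h2
    exact hf i1 g1 i2 g2 (Nm.occ_trans hp h1) (Nm.occ_trans hp h2)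
  simp only [hfdef, if_pos h1]
  exact hlt j ⟨g', hp⟩

theorem pos_fam (hv : c.Valid κ) (h : m.Adm g) (hu : m.UpE g) (ha : m.Atoms g a) :
    m.rk g = th κ (m.fi g) ∧ ClubEnum (th κ (m.fi g)) fun η => m.rk (a η) := by
  have hc : ClubEnum (th κ (m.fi g)) fun η => m.rk (a η) := by
    refine ⟨fun η hη η' _ hlt => rk_lt (ha.1 η hη) (ha.2.1 η') (ha.mono hu hlt),
      fun η hη => pos_atom_lt hv h hu ha hη, fun η _ hl z hz => ?_⟩
    obtain ⟨ν, hν, hel, rfl⟩ := rk_surj (ha.2.1 η) (ha.ordE hu η) hz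
    obtain ⟨η', hη', hel'⟩ := Pos_cont hu ha hl hν.1 hel
    exact ⟨η', hη', rk_lt hν (ha.2.1 η') hel'⟩
  refine ⟨le_antisymm (not_lt.1 fun hlt => ?_) (le_of_forall_lt fun ξ hξ => ?_), hc⟩
  · obtain ⟨ν, hν, hel, hrk⟩ := rk_surj h.1 hu.ordE hlt
    obtain ⟨η, hη, hel'⟩ := ha.cofinal hu h.1 hν hel
    have h1 := (rk_lt hν (ha.2.1 η) hel').trans (pos_atom_lt hv h hu ha hη)
    exact absurd hrk h1.ne
  · exact (hc.le hξ).trans_lt (rk_lt (ha.1 ξ hξ) h.1 (ha.el hu ξ))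

theorem Pos_okK_fam0 (h : g ∈ m.Fam0) : OkK c κ g := Nm.Ok.mono h.1 Subset.rfl (subset_univ _)

theorem pos_used (hv : c.Valid κ) {ξ : Ordinal.{u}} (h : th κ ξ < m.ht) :
    ∃ g, m.Adm g ∧ m.UpE g ∧ m.fi g = ξ := by
  by_cases hex : ∃ g0 ∈ m.Fam0, ξ ≤ m.fi g0
  · have h1 : ∃ g1 ∈ m.Fam0, m.fi g1 = ξ := by
      obtain ⟨g0, hg0, hle⟩ := hex
      rcases hle.eq_or_lt with he | hlt
      · exact ⟨g0, hg0, he.symm⟩
      · obtain ⟨g1, hg1, -, he⟩ := fi_surj (Pos_okK_fam0 hg0) hg0.2 hlt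
        exact ⟨g1, hg1, he⟩
    obtain ⟨g1, hg1, he⟩ := h1
    obtain ⟨g2, hg2, -, he2⟩ := fam_adm hv hg1
    exact ⟨g2, hg2, UpE.congr hg1.2 he2, (fi_congr (Pos_okK_fam0 hg1) hg2.1 he2).symm.trans he⟩
  · exfalso
    have hθ := reg_th κ ξ
    refine absurd (ht_lt_of_few (m := m) (Few.subset (few_names (k := c.k) (fl := c.fl) hθ
      (few_Iio hθ (lt_th κ ξ)) (few_Iio hθ (aleph_lt_th κ ξ))) ?_)) (not_lt.2 h.le)
    intro ν hν
    refine ⟨hν.1.1, hν.1.2.1, ?_⟩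
    rintro i ⟨g', hp⟩
    have h1 := hν.2 i g' hp
    rw [mem_Iio]
    by_cases hu' : m.UpE g'
    · rw [Pos_bnd_up hu'] at h1
      obtain ⟨g0, hg0, he⟩ := fam_rep hv (Adm.occ hν hp) hu'
      refine h1.trans_le (th_le_aleph κ ?_)
      rw [fi_congr (Adm.occ hν hp).1 (Pos_okK_fam0 hg0) he]
      exact not_le.1 fun hle => hex ⟨g0, hg0, hle⟩
    · rw [Pos_bnd_not hu'] at h1
      exact h1.trans_le (le_aleph_add κ ξ)

end UM

end Pool.Agent.P.MP_833f7a_lc
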