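import Pool.Agent.P.MP_833f7a_lc.ExtL

/-!
Pushing names into a stretch, pulling them back, elementarity.
-/

universe u v w

namespace Pool.Agent.P.MP_833f7a_lc

open Cardinal Ordinal Set Code Nm

variable {ι : Type v} [LinearOrder ι] {c : Cls.{u}} {κ : Ordinal.{u}}
  {T : Set (Nm.{u} Ordinal.{u})} {R : Str.{u} Ordinal.{u}} {σ : Ordinal.{u} → ι → Ordinal.{u}}

theorem Push_om_lt (hv : c.Valid κ) : ω < κ :=
  (reg_omega1.omega_lt.trans_le hv.1).trans hv.2.1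

theorem Push_pos (hv : c.Valid κ) : 0 < κ := omega0_pos.trans (Push_om_lt hv)

theorem Push_om (hv : c.Valid κ) (h : Can c κ R) : ω ≤ R.β := (Push_om_lt hv).le.trans h.le

theorem Push_e_lt (h : Can c κ R) {μ η : Ordinal.{u}} (hμ : R.Up μ) (hη : η < μ) :
    R.e μ η < R.β := ((h.club μ hμ).2.2.2.1 η hη).trans hμ.lt.2

theorem Can.den_in (hv : c.Valid κ) (h : Can c κ R) (hσ : ∀ μ, R.Up μ → ∀ i, σ μ i < μ)
    {n : Nm.{u} ι} (hn : OkK c κ n) : InE ((R.reidx σ).den n) R.β := by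
  refine Pool.Agent.P.MP_833f7a_lc.den_in (R := R.reidx σ) (Push_om hv h) (fun ξ hξ => ?_) h.pin
    (fun μ hμ i _ => Push_e_lt h hμ (hσ μ hμ i))
  have h1 : ξ < κ := hn.2.1 ξ hξ
  exact (h.cv ξ h1).trans_lt (h1.trans_le h.le)

theorem Push_adm_in (hv : c.Valid κ) (h : Can c κ R) {ν : Nm.{u} Ordinal.{u}}
    (hν : AdmS c κ R ν) : InE (R.den ν) R.β := by
  refine den_in' (Push_om hv h) (fun ξ hξ => ?_) h.pin h.p0
    (fun i g hg μ hμ e => Push_e_lt h hμ ((hν.2 i g hg).1 μ hμ e))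
  have h1 : ξ < κ := hν.1.2.1 ξ hξ
  exact (h.cv ξ h1).trans_lt (h1.trans_le h.le)

theorem Push_adm_occ {ν g : Nm.{u} Ordinal.{u}} {i : Ordinal.{u}} (hν : AdmS c κ R ν)
    (hg : (i, g) ∈ ν.occ) : AdmS c κ R g :=
  ⟨(hν.1.occ hg).2, fun j g' hj => hν.2 j g' (Nm.occ_trans hg hj)⟩

theorem Push_adm_par (i : ℕ) : AdmS c κ R (par i) :=
  ⟨ok_par, fun _ _ h => by simp [Nm.occ] at h⟩

theorem Push_adm_app {ν : Nm.{u} Ordinal.{u}} (hν : AdmS c κ R ν) {t : Trm}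
    (ht : t.depth ≤ c.k) : AdmS c κ R (app t ν) := ⟨hν.1.app ht, hν.2⟩

theorem Push_adm_cons {ν ν' : Nm.{u} Ordinal.{u}} (hν : AdmS c κ R ν) (hν' : AdmS c κ R ν') :
    AdmS c κ R (cons ν ν') :=
  ⟨ok_cons.2 ⟨hν.1, hν'.1⟩, fun i g hg =>
    (List.mem_append.1 hg).elim (hν.2 i g) (hν'.2 i g)⟩

theorem Push_adm_op2 {ν ν' : Nm.{u} Ordinal.{u}} (o : Op) (hν : AdmS c κ R ν)
    (hν' : AdmS c κ R ν') : AdmS c κ R (op2 o ν ν') :=
  Push_adm_app (Push_adm_cons hν hν') (Nat.zero_le _)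

theorem Push_adm_upN {g : Nm.{u} Ordinal.{u}} (hg : AdmS c κ R g) : AdmS c κ R (upN g) := by
  have h0 := Push_adm_par (c := c) (κ := κ) (R := R) 0
  have h1 := Push_adm_op2 .eq hg h0
  have h2 := Push_adm_op2 .el h0 hg
  have h3 : AdmS c κ R (domN g) := Push_adm_app hg (by simp [Trm.depth, Trm.tt])
  have h4 := Push_adm_op2 .nand h2 h3
  have h5 := Push_adm_op2 .nand h4 h4
  exact Push_adm_op2 .nand (Push_adm_op2 .nand h1 h1) (Push_adm_op2 .nand h5 h5)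

theorem Push_occ_map {α β : Type*} {f : α → β} {ρ g : Nm.{u} α} {p : α} (h : (p, g) ∈ ρ.occ) :
    (f p, g.map f) ∈ (ρ.map f).occ := by
  rw [Nm.occ_map]
  exact List.mem_map.2 ⟨(p, g), h, rfl⟩

theorem Push_mem_occ_mv {α β : Type*} {f : Nm.{u} α → α → β} {ν : Nm.{u} α} {p : α × β}
    {g : Nm.{u} (α × β)} (h : (p, g) ∈ (ν.mv f).occ) :
    ∃ i g0, (i, g0) ∈ ν.occ ∧ p = (i, f g0 i) ∧ g = g0.mv f := by
  rw [Nm.occ_mv] at h
  obtain ⟨⟨i, g0⟩, h1, h2⟩ := List.mem_map.1 h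
  exact ⟨i, g0, h1, (Prod.mk.inj h2).1.symm, (Prod.mk.inj h2).2.symm⟩

theorem Push_mem_occ_snd {α β : Type*} {f : Nm.{u} α → α → β} {ν : Nm.{u} α} {j : β}
    {g : Nm.{u} β} (h : (j, g) ∈ ((ν.mv f).map Prod.snd).occ) :
    ∃ i g0, (i, g0) ∈ ν.occ ∧ j = f g0 i ∧ g = (g0.mv f).map Prod.snd := by
  rw [Nm.occ_map] at h
  obtain ⟨⟨p, g1⟩, h1, h2⟩ := List.mem_map.1 h
  obtain ⟨i, g0, h3, rfl, rfl⟩ := Push_mem_occ_mv h1
  exact ⟨i, g0, h3, (Prod.mk.inj h2).1.symm, (Prod.mk.inj h2).2.symm⟩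

/-- Two structures that differ only in the atoms give the same value to a name and its move. -/
theorem Push_den_mv {α β : Type*} (F : FSys.{u}) (b μ0 : Ordinal.{u})
    (cv : Ordinal.{u} → Ordinal.{u}) (pv : ℕ → Code.{u}) (e : Ordinal.{u} → α → Ordinal.{u})
    (e' : Ordinal.{u} → β → Ordinal.{u}) (h0 : μ0 < b → pv 0 = od μ0) (f : Nm.{u} α → α → β)
    (ν : Nm.{u} α)
    (hf : ∀ i g, (i, g) ∈ ν.occ → ∀ μ, (⟨F, b, μ0, cv, pv, e⟩ : Str.{u} α).Up μ →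
      (⟨F, b, μ0, cv, pv, e⟩ : Str.{u} α).den g 0 = od μ → e' μ (f g i) = e μ i) :
    (⟨F, b, μ0, cv, pv, e'⟩ : Str.{u} β).den ((ν.mv f).map Prod.snd) =
      (⟨F, b, μ0, cv, pv, e⟩ : Str.{u} α).den ν := by
  induction ν with
  | lf x => cases x <;> rfl
  | b η =>
    funext j
    show (if μ0 < b then od (e' μ0 (f (par 0) η)) else od 0) =
      if μ0 < b then od (e μ0 η) else od 0
    split_ifs with hb
    · rw [hf η (par 0) (by simp [Nm.occ]) μ0 (Or.inl ⟨rfl, hb⟩) (h0 hb)]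
    · rfl
  | u η g ih =>
    have ih' := ih fun i g' hg => hf i g' (List.mem_cons_of_mem _ hg)
    funext j
    show (⟨F, b, μ0, cv, pv, e'⟩ : Str.{u} β).uval (f g η)
        ((⟨F, b, μ0, cv, pv, e'⟩ : Str.{u} β).den ((g.mv f).map Prod.snd) 0) =
      (⟨F, b, μ0, cv, pv, e⟩ : Str.{u} α).uval η
        ((⟨F, b, μ0, cv, pv, e⟩ : Str.{u} α).den g 0)
    rw [ih']
    have h1 := hf η g List.mem_cons_self
    generalize (⟨F, b, μ0, cv, pv, e⟩ : Str.{u} α).den g 0 = z at h1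
    cases z with
    | od μ =>
      by_cases hU : (⟨F, b, μ0, cv, pv, e⟩ : Str.{u} α).U μ
      · have hU' : (⟨F, b, μ0, cv, pv, e'⟩ : Str.{u} β).U μ := hU
        simp only [Str.uval, if_pos hU, if_pos hU']
        rw [h1 μ (Or.inr hU) rfl]
      · have hU' : ¬ (⟨F, b, μ0, cv, pv, e'⟩ : Str.{u} β).U μ := hU
        simp only [Str.uval, if_neg hU, if_neg hU']
    | st a t x y => rfl
  | app t ν ih =>
    show ev F t b ((⟨F, b, μ0, cv, pv, e'⟩ : Str.{u} β).den ((ν.mv f).map Prod.snd)) =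
      ev F t b ((⟨F, b, μ0, cv, pv, e⟩ : Str.{u} α).den ν)
    rw [ih hf]
  | cons ν ν' ih ih' =>
    show ec ((⟨F, b, μ0, cv, pv, e'⟩ : Str.{u} β).den ((ν.mv f).map Prod.snd) 0)
        ((⟨F, b, μ0, cv, pv, e'⟩ : Str.{u} β).den ((ν'.mv f).map Prod.snd)) =
      ec ((⟨F, b, μ0, cv, pv, e⟩ : Str.{u} α).den ν 0) ((⟨F, b, μ0, cv, pv, e⟩ : Str.{u} α).den ν')
    rw [ih fun i g hg => hf i g (List.mem_append_left _ hg),
      ih' fun i g hg => hf i g (List.mem_append_right _ hg)]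

/-- Every name has an admissible push with the same value, obtained by a move. -/
theorem exists_push (hv : c.Valid κ) (h : Can c κ R) (hσ : ∀ μ, R.Up μ → ∀ i, σ μ i < μ)
    {n : Nm.{u} ι} (hn : OkK c κ n) : ∃ ρ : Nm.{u} (Ordinal.{u} × ι), ρ.map Prod.snd = n ∧
      AdmS c κ R (ρ.map Prod.fst) ∧ R.den (ρ.map Prod.fst) = (R.reidx σ).den n ∧
      ∀ p g, (p, g) ∈ ρ.occ → ∀ μ, R.Up μ → R.den (g.map Prod.fst) 0 = od μ → p.1 = σ μ p.2 := by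
  classical
  obtain ⟨f, hf1, hf2⟩ : ∃ f : Nm.{u} ι → ι → Ordinal.{u},
      (∀ g i μ, R.Up μ → (R.reidx σ).den g 0 = od μ → f g i = σ μ i) ∧
      ∀ g i, (¬ ∃ μ, R.Up μ ∧ (R.reidx σ).den g 0 = od μ) → f g i = 0 := by
    refine ⟨fun g i => if ∃ μ, R.Up μ ∧ (R.reidx σ).den g 0 = od μ then
      σ ((R.reidx σ).den g 0).lv i else 0, fun g i μ hμ e => ?_, fun g i hne => if_neg hne⟩
    show (if ∃ μ, R.Up μ ∧ (R.reidx σ).den g 0 = od μ then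
      σ ((R.reidx σ).den g 0).lv i else 0) = σ μ i
    rw [if_pos ⟨μ, hμ, e⟩, e]
    rfl
  have hd : ∀ ν : Nm.{u} ι, R.den ((ν.mv f).map Prod.snd) = (R.reidx σ).den ν := fun ν =>
    Push_den_mv R.F R.β R.μ0 R.cv R.pv (fun μ i => R.e μ (σ μ i)) R.e h.p0 f ν
      (fun i g _ μ hμ e => by rw [hf1 g i μ hμ e])
  have e1 : ∀ ν : Nm.{u} ι, ((ν.mv f).map Prod.swap).map Prod.fst = (ν.mv f).map Prod.snd :=
    fun ν => by rw [Nm.map_map]; rfl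
  have e2 : ((n.mv f).map Prod.swap).map Prod.snd = n := by
    rw [Nm.map_map]
    exact Nm.mv_fst f n
  refine ⟨(n.mv f).map Prod.swap, e2, ?_, ?_, ?_⟩
  · rw [e1]
    refine ⟨hn.mv f fun _ _ _ => mem_univ _, fun j g hg => ?_⟩
    obtain ⟨i, g0, -, rfl, rfl⟩ := Push_mem_occ_snd hg
    rw [hd]
    refine ⟨fun μ hμ e => ?_, fun hne => ?_⟩
    · rw [hf1 g0 i μ hμ e]
      exact hσ μ hμ i
    · rw [hf2 g0 i hne]
      exact Push_pos hv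
  · rw [e1, hd]
  · intro p g hg μ hμ e
    rw [Nm.occ_map] at hg
    obtain ⟨⟨q, g1⟩, h1, h2⟩ := List.mem_map.1 hg
    obtain ⟨i, g0, -, rfl, rfl⟩ := Push_mem_occ_mv h1
    obtain ⟨rfl, rfl⟩ := Prod.mk.inj h2
    rw [e1, hd] at e
    exact hf1 g0 i μ hμ e

theorem Push_inv (hv : c.Valid κ) (hT : Good c κ T) (hR : IsStretch c κ T R)
    {ρ : Nm.{u} (Ordinal.{u} × ι)} (h1 : AdmS c κ R (ρ.map Prod.fst))
    (hm : ∀ p g q g', (p, g) ∈ ρ.occ → (q, g') ∈ ρ.occ → ∀ μ, R.Up μ →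
      R.den (g.map Prod.fst) 0 = od μ → R.den (g'.map Prod.fst) 0 = od μ →
        (p.1 < q.1 ↔ p.2 < q.2)) :
    R.Tr (ρ.map Prod.fst) ↔ ρ.map Prod.snd ∈ Ext T := by
  rw [← hR.tr _ h1]
  refine hT.ext_inv h1.1 fun p g q g' hp hq hb hup heq => ?_
  have a1 := Push_adm_occ h1 (Push_occ_map hp)
  have a2 := Push_adm_occ h1 (Push_occ_map hq)
  obtain ⟨μ, e, hμ⟩ := (tr_upN hR.can.fs (hR.can.p0 (hR.can.hb.1 hb))
    (Push_adm_in hv hR.can a1 0)).1 ((hR.tr _ (Push_adm_upN a1)).1 hup)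
  have e' := tr_eqN.1 ((hR.tr _ (Push_adm_op2 .eq a1 a2)).1 heq)
  exact hm p g q g' hp hq μ hμ e (e'.symm.trans e)

theorem push_tr (hv : c.Valid κ) (hT : Good c κ T) (hR : IsStretch c κ T R)
    (hσ : ∀ μ, R.Up μ → StrictMono (σ μ) ∧ ∀ i, σ μ i < μ) {n : Nm.{u} ι} (hn : OkK c κ n) :
    n ∈ Ext T ↔ (R.reidx σ).Tr n := by
  obtain ⟨ρ, rfl, h1, h2, h3⟩ := exists_push hv hR.can (fun μ hμ => (hσ μ hμ).2) hn
  rw [← Push_inv hv hT hR h1 fun p g q g' hp hq μ hμ e e' => by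
    rw [h3 p g hp μ hμ e, h3 q g' hq μ hμ e']
    exact (hσ μ hμ).1.lt_iff_lt]
  unfold Str.Tr
  rw [h2]

theorem exists_pull [Nonempty ι] (h : Can c κ R) {ν : Nm.{u} Ordinal.{u}} (hν : OkK c κ ν)
    (hr : ∀ i g, (i, g) ∈ ν.occ → ∀ μ, R.Up μ → R.den g 0 = od μ → i ∈ range (σ μ)) :
    ∃ n : Nm.{u} ι, OkK c κ n ∧ (R.reidx σ).den n = R.den ν := by
  refine ⟨(ν.mv fun g i => Function.invFun (σ (R.den g 0).lv) i).map Prod.snd,
    hν.mv _ fun _ _ _ => mem_univ _, ?_⟩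
  refine Push_den_mv R.F R.β R.μ0 R.cv R.pv R.e (fun μ i => R.e μ (σ μ i)) h.p0 _ ν
    (fun i g hg μ hμ e => ?_)
  have e' : R.den g 0 = od μ := e
  show R.e μ (σ μ (Function.invFun (σ (R.den g 0).lv) i)) = R.e μ i
  rw [e', lv_od, Function.invFun_eq (hr i g hg μ hμ e')]

/-- Invariance in the stretch, both names admissible. -/
theorem IsStretch.inv (hv : c.Valid κ) (hT : Good c κ T) (hR : IsStretch c κ T R)
    {ρ : Nm.{u} (Ordinal.{u} × Ordinal.{u})} (h1 : AdmS c κ R (ρ.map Prod.fst))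
    (h2 : AdmS c κ R (ρ.map Prod.snd)) (hm : R.Mv ρ) :
    R.Tr (ρ.map Prod.fst) ↔ R.Tr (ρ.map Prod.snd) :=
  (Push_inv hv hT hR h1 hm).trans (hR.tr _ h2)

theorem Push_nat_mem {K : Set Ordinal.{u}} (h0 : 0 ∈ K) (hs : ∀ η ∈ K, η + 1 ∈ K) (m : ℕ) :
    (m : Ordinal.{u}) ∈ K := by
  induction m with
  | zero => simpa using h0
  | succ m ih => simpa using hs _ ih

/-- An admissible name can be moved into the ranges, fixing a name that is already there. -/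
theorem Push_move (hv : c.Valid κ) (hT : Good c κ T) (hR : IsStretch c κ T R)
    {K : Ordinal.{u} → Set Ordinal.{u}}
    (hK : ∀ μ, R.Up μ → 0 ∈ K μ ∧ ∀ η ∈ K μ, η + 1 ∈ K μ) {p : Nm.{u} Ordinal.{u}}
    (hp : AdmS c κ R p) (hpK : ∀ i g, (i, g) ∈ p.occ → ∀ μ, R.Up μ → R.den g 0 = od μ → i ∈ K μ)
    {J : Set Ordinal.{u}} (hJ : J.Finite) (hpJ : p.idx ⊆ J) :
    ∃ f : Nm.{u} Ordinal.{u} → Ordinal.{u} → Ordinal.{u}, (p.mv f).map Prod.snd = p ∧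
      ∀ ν, AdmS c κ R ν → ν.idx ⊆ J → AdmS c κ R ((ν.mv f).map Prod.snd) ∧
        (R.Tr ν ↔ R.Tr ((ν.mv f).map Prod.snd)) ∧
        ∀ i g, (i, g) ∈ ((ν.mv f).map Prod.snd).occ → ∀ μ, R.Up μ → R.den g 0 = od μ →
          i ∈ K μ := by
  classical
  have hτ : ∀ μ, ∃ τ : Ordinal.{u} → Ordinal.{u}, R.Up μ → StrictMonoOn τ J ∧
      ∀ η ∈ J, τ η ∈ K μ ∧ τ η ≤ η ∧ (η ∈ K μ → τ η = η) := by
    intro μ
    by_cases hμ : R.Up μ
    · obtain ⟨τ, h1⟩ := exists_gap (hK μ hμ).1 (hK μ hμ).2 hJ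
      exact ⟨τ, fun _ => h1⟩
    · exact ⟨id, fun h => absurd h hμ⟩
  choose τ hτ using hτ
  obtain ⟨τ0, hτ0⟩ := exists_strictMonoOn_nat hJ
  obtain ⟨f, hf1, hf2, hf3⟩ : ∃ f : Nm.{u} Ordinal.{u} → Ordinal.{u} → Ordinal.{u},
      (∀ g i μ, R.Up μ → R.den g 0 = od μ → (∃ i0 g0, (i0, g0) ∈ p.occ ∧ R.den g0 0 = od μ) →
        f g i = τ μ i) ∧
      (∀ g i μ, R.Up μ → R.den g 0 = od μ → (¬ ∃ i0 g0, (i0, g0) ∈ p.occ ∧ R.den g0 0 = od μ) →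
        f g i = τ0 i) ∧
      ∀ g i, (¬ ∃ μ, R.Up μ ∧ R.den g 0 = od μ) → f g i = i := by
    refine ⟨fun g i => if ∃ μ, R.Up μ ∧ R.den g 0 = od μ then
      (if ∃ i0 g0, (i0, g0) ∈ p.occ ∧ R.den g0 0 = R.den g 0 then τ (R.den g 0).lv i else τ0 i)
      else i, fun g i μ hμ e ho => ?_, fun g i μ hμ e ho => ?_, fun g i hne => if_neg hne⟩
    · beta_reduce
      rw [if_pos ⟨μ, hμ, e⟩, e, if_pos ho]
      rfl
    · beta_reduce
      rw [if_pos ⟨μ, hμ, e⟩, e, if_neg ho]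
  have hfix : ∀ i g, (i, g) ∈ p.occ → f g i = i := by
    intro i g hg
    by_cases hu : ∃ μ, R.Up μ ∧ R.den g 0 = od μ
    · obtain ⟨μ, hμ, e⟩ := hu
      rw [hf1 g i μ hμ e ⟨i, g, hg, e⟩]
      exact ((hτ μ hμ).2 i (hpJ ⟨g, hg⟩)).2.2 (hpK i g hg μ hμ e)
    · exact hf3 g i hu
  have hmv : ∀ ν : Nm.{u} Ordinal.{u}, ν.idx ⊆ J → R.Mv (ν.mv f) := by
    intro ν hν q g q' g' hq hq' μ hμ e e'
    obtain ⟨i, g0, h1, rfl, rfl⟩ := Push_mem_occ_mv hq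
    obtain ⟨i', g0', h1', rfl, rfl⟩ := Push_mem_occ_mv hq'
    rw [Nm.mv_fst] at e e'
    have hi : i ∈ J := hν ⟨g0, h1⟩
    have hi' : i' ∈ J := hν ⟨g0', h1'⟩
    show i < i' ↔ f g0 i < f g0' i'
    by_cases ho : ∃ i0 g0, (i0, g0) ∈ p.occ ∧ R.den g0 0 = od μ
    · rw [hf1 g0 i μ hμ e ho, hf1 g0' i' μ hμ e' ho]
      exact ((hτ μ hμ).1.lt_iff_lt hi hi').symm
    · rw [hf2 g0 i μ hμ e ho, hf2 g0' i' μ hμ e' ho, Nat.cast_lt]
      exact (hτ0.lt_iff_lt hi hi').symm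
  have hinv : ∀ ν : Nm.{u} Ordinal.{u}, AdmS c κ R ν → ν.idx ⊆ J →
      AdmS c κ R ((ν.mv f).map Prod.snd) → (R.Tr ν ↔ R.Tr ((ν.mv f).map Prod.snd)) := by
    intro ν h1 h2 h3
    have := hR.inv hv hT (ρ := ν.mv f) (by rwa [Nm.mv_fst]) h3 (hmv ν h2)
    rwa [Nm.mv_fst] at this
  have key : ∀ (g : Nm.{u} Ordinal.{u}) (i : Ordinal.{u}), AdmS c κ R g → g.idx ⊆ J → i ∈ J →
      ((∀ μ, R.Up μ → R.den g 0 = od μ → i < μ) ∧
        ((¬ ∃ μ, R.Up μ ∧ R.den g 0 = od μ) → i < κ)) →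
      AdmS c κ R ((g.mv f).map Prod.snd) →
      (∀ μ, R.Up μ → R.den ((g.mv f).map Prod.snd) 0 = od μ → f g i < μ ∧ f g i ∈ K μ) ∧
        ((¬ ∃ μ, R.Up μ ∧ R.den ((g.mv f).map Prod.snd) 0 = od μ) → f g i < κ) := by
    intro g i hg hgJ hi hadm hg'
    by_cases hb : R.μ0 < R.β
    swap
    · have hno : ∀ μ, ¬ R.Up μ := fun μ hμ => hb (hμ.lt.1.trans_lt hμ.lt.2)
      have hne : ¬ ∃ μ, R.Up μ ∧ R.den g 0 = od μ := fun ⟨μ, hμ, _⟩ => hno μ hμ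
      refine ⟨fun μ hμ => absurd hμ (hno μ), fun _ => ?_⟩
      rw [hf3 g i hne]
      exact hadm.2 hne
    have hup : R.Tr (upN g) ↔ R.Tr (upN ((g.mv f).map Prod.snd)) :=
      hinv (upN g) (Push_adm_upN hg) (by simpa using hgJ) (Push_adm_upN hg')
    rw [tr_upN hR.can.fs (hR.can.p0 hb) (Push_adm_in hv hR.can hg 0),
      tr_upN hR.can.fs (hR.can.p0 hb) (Push_adm_in hv hR.can hg' 0)] at hup
    by_cases hu : ∃ μ, R.Up μ ∧ R.den g 0 = od μ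
    · obtain ⟨μ, hμ, e⟩ := hu
      refine ⟨fun μ' hμ' e' => ?_, fun hne => ?_⟩
      · by_cases ho : ∃ i0 g0, (i0, g0) ∈ p.occ ∧ R.den g0 0 = od μ
        · rw [hf1 g i μ hμ e ho]
          obtain ⟨i0, g0, h1, e0⟩ := ho
          have a0 := Push_adm_occ hp h1
          have f0 : (g0.mv f).map Prod.snd = g0 :=
            Nm.mv_snd_eq fun j g1 hj => hfix j g1 (Nm.occ_trans h1 hj)
          have heq : R.Tr (eqN g g0) ↔
              R.Tr (eqN ((g.mv f).map Prod.snd) ((g0.mv f).map Prod.snd)) :=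
            hinv (eqN g g0) (Push_adm_op2 .eq hg a0)
              (by simpa using ⟨hgJ, (Nm.idx_occ h1).trans hpJ⟩)
              (Push_adm_op2 .eq hg' (f0.symm ▸ a0))
          rw [tr_eqN, tr_eqN, f0, e, e', e0] at heq
          obtain rfl : μ' = μ := Code.od.inj (heq.1 rfl)
          have h2 := (hτ μ' hμ).2 i hi
          exact ⟨h2.2.1.trans_lt (hadm.1 μ' hμ e), h2.1⟩
        · rw [hf2 g i μ hμ e ho]
          exact ⟨(hR.can.club μ' hμ').1.nat_lt _, Push_nat_mem (hK μ' hμ').1 (hK μ' hμ').2 _⟩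
      · obtain ⟨μ', e', hμ'⟩ := hup.1 ⟨μ, e, hμ⟩
        exact absurd ⟨μ', hμ', e'⟩ hne
    · refine ⟨fun μ' hμ' e' => ?_, fun _ => ?_⟩
      · obtain ⟨μ, e, hμ⟩ := hup.2 ⟨μ', e', hμ'⟩
        exact absurd ⟨μ, hμ, e⟩ hu
      · rw [hf3 g i hu]
        exact hadm.2 hu
  have toAdm : ∀ ν : Nm.{u} Ordinal.{u}, OkK c κ ν → (∀ i g, (i, g) ∈ ν.occ →
      (∀ μ, R.Up μ → R.den ((g.mv f).map Prod.snd) 0 = od μ → f g i < μ ∧ f g i ∈ K μ) ∧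
        ((¬ ∃ μ, R.Up μ ∧ R.den ((g.mv f).map Prod.snd) 0 = od μ) → f g i < κ)) →
      AdmS c κ R ((ν.mv f).map Prod.snd) := by
    intro ν h1 h2
    refine ⟨h1.mv f fun _ _ _ => mem_univ _, fun j g hg => ?_⟩
    obtain ⟨i, g0, h3, rfl, rfl⟩ := Push_mem_occ_snd hg
    exact ⟨fun μ hμ e => ((h2 i g0 h3).1 μ hμ e).1, (h2 i g0 h3).2⟩
  have main : ∀ ν : Nm.{u} Ordinal.{u}, AdmS c κ R ν → ν.idx ⊆ J → ∀ i g, (i, g) ∈ ν.occ →
      (∀ μ, R.Up μ → R.den ((g.mv f).map Prod.snd) 0 = od μ → f g i < μ ∧ f g i ∈ K μ) ∧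
        ((¬ ∃ μ, R.Up μ ∧ R.den ((g.mv f).map Prod.snd) 0 = od μ) → f g i < κ) := by
    intro ν
    induction ν with
    | lf x => intro _ _ i g hg; simp [Nm.occ] at hg
    | b η =>
      intro h1 h2 i g hg
      have hg' : (i, g) = (η, par 0) := by simpa [Nm.occ] using hg
      obtain ⟨rfl, rfl⟩ := Prod.mk.inj hg'
      exact key (par 0) i (Push_adm_par 0) (by simp) (h2 ⟨_, hg⟩) (h1.2 _ _ hg) (Push_adm_par 0)
    | u η g0 ih =>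
      intro h1 h2 i g hg
      have hm : (η, g0) ∈ (Nm.u η g0).occ := List.mem_cons_self
      have a0 := Push_adm_occ h1 hm
      have j0 : g0.idx ⊆ J := (Nm.idx_occ hm).trans h2
      rcases List.mem_cons.1 hg with hg' | hg'
      · obtain ⟨rfl, rfl⟩ := Prod.mk.inj hg'
        exact key g i a0 j0 (h2 ⟨_, hg⟩) (h1.2 _ _ hg) (toAdm g a0.1 (ih a0 j0))
      · exact ih a0 j0 i g hg'
    | app t ν ih =>
      intro h1 h2
      exact ih ⟨h1.1.of_app, h1.2⟩ h2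
    | cons ν ν' ih ih' =>
      intro h1 h2 i g hg
      rw [Nm.idx_cons] at h2
      rcases List.mem_append.1 hg with hg' | hg'
      · exact ih ⟨(ok_cons.1 h1.1).1, fun j g1 hj => h1.2 j g1 (List.mem_append_left _ hj)⟩
          (subset_union_left.trans h2) i g hg'
      · exact ih' ⟨(ok_cons.1 h1.1).2, fun j g1 hj => h1.2 j g1 (List.mem_append_right _ hj)⟩
          (subset_union_right.trans h2) i g hg'
  refine ⟨f, Nm.mv_snd_eq hfix, fun ν h1 h2 => ?_⟩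
  have h3 := toAdm ν h1.1 (main ν h1 h2)
  refine ⟨h3, hinv ν h1 h2 h3, fun j g hg μ hμ e => ?_⟩
  obtain ⟨i, g0, h4, rfl, rfl⟩ := Push_mem_occ_snd hg
  exact ((main ν h1 h2 i g0 h4).1 μ hμ e).2

theorem push_elem [Nonempty ι] (hv : c.Valid κ) (hT : Good c κ T) (hR : IsStretch c κ T R)
    (hσ : ∀ μ, R.Up μ → StrictMono (σ μ) ∧ (∀ i, σ μ i < μ) ∧ 0 ∈ range (σ μ) ∧
      ∀ η ∈ range (σ μ), η + 1 ∈ range (σ μ))
    {ψ : Trm} (hψ : ψ.depth ≤ c.k) {n : Nm.{u} ι} (hn : OkK c κ n) {x : Code.{u}}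
    (hx : x.In R.β) (h : ev R.F ψ R.β (ec x ((R.reidx σ).den n)) 0 = tt) :
    ∃ n0 : Nm.{u} ι, OkK c κ n0 ∧
      ev R.F ψ R.β (ec ((R.reidx σ).den n0 0) ((R.reidx σ).den n)) 0 = tt := by
  obtain ⟨ν, hν, rfl⟩ := hR.onto x hx
  obtain ⟨ρ, -, h1, h2, h3⟩ := exists_push hv hR.can (fun μ hμ => (hσ μ hμ).2.1) hn
  have hpK : ∀ i g, (i, g) ∈ (ρ.map Prod.fst).occ → ∀ μ, R.Up μ → R.den g 0 = od μ →
      i ∈ range (σ μ) := by
    intro i g hg μ hμ e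
    rw [Nm.occ_map] at hg
    obtain ⟨⟨q, g1⟩, h4, h5⟩ := List.mem_map.1 hg
    obtain ⟨rfl, rfl⟩ := Prod.mk.inj h5
    exact ⟨q.2, (h3 q g1 h4 μ hμ e).symm⟩
  generalize ρ.map Prod.fst = p at h1 h2 hpK
  obtain ⟨f, hf1, hf2⟩ := Push_move hv hT hR (K := fun μ => range (σ μ))
    (fun μ hμ => (hσ μ hμ).2.2) h1 hpK (Nm.idx_finite (cons ν p))
    (by rw [Nm.idx_cons]; exact subset_union_right)
  obtain ⟨a1, -, a3⟩ := hf2 ν hν (by rw [Nm.idx_cons]; exact subset_union_left)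
  obtain ⟨-, b2, -⟩ := hf2 (app ψ (cons ν p)) (Push_adm_app (Push_adm_cons hν h1) hψ)
    (by rw [Nm.idx_app])
  obtain ⟨n0, hn0, e0⟩ := exists_pull hR.can a1.1 a3
  refine ⟨n0, hn0, ?_⟩
  rw [← h2] at h
  have h6 : ev R.F ψ R.β (ec (R.den ((ν.mv f).map Prod.snd) 0)
      (R.den ((p.mv f).map Prod.snd))) 0 = tt := b2.1 h
  rw [hf1] at h6
  rw [e0, ← h2]
  exact h6

end Pool.Agent.P.MP_833f7a_lc
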