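import Pool.Agent.P.MP_833f7a_lc.GoodN

/-!
Generic bottom atoms give a realisation.
-/

universe u v w

namespace Pool.Agent.P.MP_833f7a_lc

open Cardinal Ordinal Set Code Nm

variable {S A : Set Ordinal.{u}} {μ β : Ordinal.{u}} {c : Cls.{u}} {Y : Set Code.{u}}
  {P : ℕ → Code.{u}} {e : Ordinal.{u} → Ordinal.{u} → Ordinal.{u}} {C : Set Ordinal.{u}}
  {cc : Ordinal.{u} → Ordinal.{u}} {ρ : Nm.{u} (Ordinal.{u} × Ordinal.{u})}

theorem RealS_bix_lt {k : ℕ} {fl : Prop} {ν : Nm.{u} Ordinal.{u}}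
    (hν : ν.Ok k fl C (Iio ω₁)) {i : Ordinal.{u}} (hi : i ∈ ν.bix) : i < ω₁ :=
  (hν.occ (Nm.occ_of_bix hi)).1

theorem RealS_split {α : Type v} (p : α → Prop) (l : List α) :
    (∀ x ∈ l, p x) ∨ ∃ l0 j l1, l = l0 ++ j :: l1 ∧ (∀ x ∈ l0, p x) ∧ ¬ p j := by
  induction l with
  | nil => exact Or.inl fun _ h => absurd h List.not_mem_nil
  | cons a l ih =>
    by_cases ha : p a
    · rcases ih with h | ⟨l0, j, l1, h1, h2, h3⟩
      · refine Or.inl fun x hx => ?_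
        rcases List.mem_cons.1 hx with rfl | hx
        exacts [ha, h x hx]
      · refine Or.inr ⟨a :: l0, j, l1, by rw [h1]; rfl, fun x hx => ?_, h3⟩
        rcases List.mem_cons.1 hx with rfl | hx
        exacts [ha, h2 x hx]
    · exact Or.inr ⟨[], a, l, rfl, fun _ h => absurd h List.not_mem_nil, ha⟩

theorem RealS_up0 (hlt : μ < β) : (SR S A μ β P e cc).Up μ := Or.inl ⟨rfl, hlt⟩

theorem RealS_den_b (hlt : μ < β) (η : Ordinal.{u}) :
    (SR S A μ β P e cc).den (b η) = fun _ => od (cc η) := by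
  rw [den_b_of_lt (R := SR S A μ β P e cc) hlt]
  show (fun _ => od ((SR S A μ β P e cc).e μ η)) = _
  rw [sr_e0]

theorem RealS_par0 (h : Src S A μ β c Y P e) (hlt : μ < β) :
    (SR S A μ β P e cc).den ((par 0 : Nm.{u} (Ordinal.{u} × Ordinal.{u})).map Prod.fst) 0 =
      od μ := h.p0 hlt

theorem RealS_mvU (hm : (SR S A μ β P e cc).Mv ρ) : (SR S A μ β P e cc).MvU ρ :=
  fun p g q g' hp hq μ' hU => hm p g q g' hp hq μ' (Or.inr hU)

theorem RealS_od_mem (h : Src S A μ β c Y P e) {z : Ordinal.{u}} (hz : z < μ) : od z ∈ Y :=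
  h.fh.y.small z hz.le (hz.trans_le h.fh.le)

/-- The old index as a function of the new index of a bottom atom. -/
theorem RealS_tau (h : Src S A μ β c Y P e) (hlt : μ < β) (hm : (SR S A μ β P e cc).Mv ρ) :
    ∃ τ : Ordinal.{u} → Ordinal.{u}, (∀ p ∈ ρ.bix, τ p.2 = p.1) ∧
      (∀ j ∈ (ρ.map Prod.snd).bs, (τ j, j) ∈ ρ.bix) ∧
      ((ρ.map Prod.snd).bs.map τ).Pairwise (· < ·) := by
  classical
  have hord : ∀ p ∈ ρ.bix, ∀ q ∈ ρ.bix, (p.1 < q.1 ↔ p.2 < q.2) := fun p hp q hq =>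
    hm p _ q _ (Nm.occ_of_bix hp) (Nm.occ_of_bix hq) μ (RealS_up0 hlt) (RealS_par0 h hlt)
      (RealS_par0 h hlt)
  have hτ : ∃ τ : Ordinal.{u} → Ordinal.{u}, ∀ p ∈ ρ.bix, τ p.2 = p.1 := by
    refine ⟨fun j => if hj : ∃ p ∈ ρ.bix, p.2 = j then hj.choose.1 else 0, fun p hp => ?_⟩
    have hj : ∃ q ∈ ρ.bix, q.2 = p.2 := ⟨p, hp, rfl⟩
    simp only [dif_pos hj]
    obtain ⟨hq, hq2⟩ := hj.choose_spec
    rcases lt_trichotomy hj.choose.1 p.1 with h1 | h1 | h1
    · exact absurd ((hord _ hq _ hp).1 h1) (by rw [hq2]; exact lt_irrefl _)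
    · exact h1
    · exact absurd ((hord _ hp _ hq).1 h1) (by rw [hq2]; exact lt_irrefl _)
  obtain ⟨τ, hτ⟩ := hτ
  have hmem : ∀ j ∈ (ρ.map Prod.snd).bs, (τ j, j) ∈ ρ.bix := by
    intro j hj
    rw [Nm.mem_bs, Nm.bix_map, List.mem_map] at hj
    obtain ⟨p, hp, rfl⟩ := hj
    rw [hτ p hp]
    exact hp
  refine ⟨τ, hτ, hmem, ?_⟩
  rw [List.pairwise_map]
  refine List.Pairwise.imp_of_mem ?_ (Nm.bs_sorted _)
  intro i j hi hj hij
  exact (hord _ (hmem i hi) _ (hmem j hj)).2 hij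

theorem RealS_fst_lt {k : ℕ} {fl : Prop} (h1 : (ρ.map Prod.fst).Ok k fl C (Iio ω₁))
    {p : Ordinal.{u} × Ordinal.{u}} (hp : p ∈ ρ.bix) : p.1 < ω₁ := by
  refine RealS_bix_lt h1 ?_
  rw [Nm.bix_map]
  exact List.mem_map_of_mem hp

/-- The value of the first name is the value of the second one on the old atoms. -/
theorem RealS_val (h : Src S A μ β c Y P e) (hC : C ⊆ Iio μ) (hc : ∀ i, cc i < μ)
    (h1 : (ρ.map Prod.fst).Ok c.k c.fl C (Iio ω₁)) (h2 : (ρ.map Prod.snd).Ok c.k c.fl C (Iio ω₁))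
    (hm : (SR S A μ β P e cc).Mv ρ) {τ : Ordinal.{u} → Ordinal.{u}}
    (hτ : ∀ p ∈ ρ.bix, τ p.2 = p.1) {y : Code.{u}} (hy : y ∈ Y) :
    (SR S A μ β P e cc).den (ρ.map Prod.fst) 0 = y ↔
      srcG S A μ β P e (ρ.map Prod.snd) (((ρ.map Prod.snd).bs.map τ).map cc) = y := by
  rw [List.map_map, srcG_map]
  exact h.ui_name (h1.mono hC subset_rfl) (h2.mono hC subset_rfl) hc
    (fun p hp => by rw [Function.comp_apply, hτ p hp]) (RealS_mvU hm) hy

theorem GenC.tr (hg : GenC S A μ β c P e C cc) {ν : Nm.{u} Ordinal.{u}}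
    (hν : ν.Ok c.k c.fl C (Iio ω₁)) : ν ∈ srcT S A μ β c P e ↔ (SR S A μ β P e cc).Tr ν := by
  rw [← hg.g1 ν hν ν.bs ν.bs_sorted (fun i hi => RealS_bix_lt hν (Nm.mem_bs.1 hi)) rfl, srcG_map]
  rfl

theorem Src.real_inv (h : Src S A μ β c Y P e) (hC : C ⊆ Iio μ) (hg : GenC S A μ β c P e C cc)
    (h1 : (ρ.map Prod.fst).Ok c.k c.fl C (Iio ω₁)) (h2 : (ρ.map Prod.snd).Ok c.k c.fl C (Iio ω₁))
    (hm : (SR S A μ β P e cc).Mv ρ) :
    (SR S A μ β P e cc).Tr (ρ.map Prod.fst) ↔ (SR S A μ β P e cc).Tr (ρ.map Prod.snd) := by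
  have htt : (tt : Code.{u}) ∈ Y := RealS_od_mem h h.reg.1.one_lt
  by_cases hlt : μ < β
  · obtain ⟨τ, hτ, hmem, hpw⟩ := RealS_tau h hlt hm
    rw [← hg.tr h2, ← hg.g1 _ h2 _ hpw ?_ (List.length_map _)]
    · exact RealS_val h hC hg.lt h1 h2 hm hτ htt
    · intro i hi
      obtain ⟨j, hj, rfl⟩ := List.mem_map.1 hi
      exact RealS_fst_lt h1 (hmem j hj)
  · unfold Str.Tr
    rw [sr_den_of_not hlt cc fun _ => 0, sr_den_of_not hlt cc fun _ => 0]
    refine h.ui_name (h1.mono hC subset_rfl) (h2.mono hC subset_rfl) (fun _ => h.reg.1.pos)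
      (fun _ _ => rfl) ?_ htt
    intro p g q g' _ _ μ' hU
    exact absurd (hU.1.trans hU.2.1) hlt

theorem Src.real_ind0 (h : Src S A μ β c Y P e) (hC : C ⊆ Iio μ) (hg : GenC S A μ β c P e C cc)
    (hlt : μ < β)
    (h1 : (ρ.map Prod.fst).Ok c.k c.fl C (Iio ω₁)) (h2 : (ρ.map Prod.snd).Ok c.k c.fl C (Iio ω₁))
    (hm : (SR S A μ β P e cc).Mv ρ) {η : Ordinal.{u}} (hη : η < ω₁)
    (hfix : ∀ p ∈ ρ.bix, p.1 < η → p.2 = p.1) {z : Ordinal.{u}} (hz : z < cc η)
    (hv : (SR S A μ β P e cc).den (ρ.map Prod.fst) 0 = od z) :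
    (SR S A μ β P e cc).den (ρ.map Prod.snd) 0 = od z := by
  obtain ⟨τ, hτ, hmem, hpw⟩ := RealS_tau h hlt hm
  have hzμ : z < μ := hz.trans (hg.lt η)
  have hval := (RealS_val h hC hg.lt h1 h2 hm hτ (RealS_od_mem h hzμ)).1 hv
  have hid : ∀ l : List Ordinal.{u}, (∀ j ∈ l, j ∈ (ρ.map Prod.snd).bs) → (∀ j ∈ l, τ j < η) →
      l.map τ = l := by
    intro l hl hl'
    conv_rhs => rw [← List.map_id l]
    exact List.map_congr_left fun j hj => (hfix _ (hmem j (hl j hj)) (hl' j hj)).symm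
  rcases RealS_split (fun j => τ j < η) (ρ.map Prod.snd).bs with hall | ⟨l0, j, l1, hl, h0, hj⟩
  · rw [hid _ (fun _ hj => hj) hall, srcG_map] at hval
    exact hval
  have hjm : (τ j, j) ∈ ρ.bix := hmem j (by rw [hl]; simp)
  have hτj : τ j < ω₁ := RealS_fst_lt h1 hjm
  have hzj : z < cc (τ j) := hz.trans_le (hg.mono.monotoneOn hη hτj (not_lt.1 hj))
  have hl0 : l0.map τ = l0 := hid l0 (fun i hi => by rw [hl]; simp [hi]) h0
  obtain ⟨z0, hz0⟩ := hg.g2 _ h2 l0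
  have hbs : (ρ.map Prod.snd).bs.map τ = l0 ++ (j :: l1).map τ := by
    rw [hl, List.map_append, hl0]
  have hz1 : z = z0 := by
    refine hz0 ((j :: l1).map τ) (hbs ▸ hpw) ?_ ?_ z hzμ (hbs ▸ hval) ?_
    · rw [← hbs]
      intro i hi
      obtain ⟨j', hj', rfl⟩ := List.mem_map.1 hi
      exact RealS_fst_lt h1 (hmem j' hj')
    · rw [← hbs, List.length_map]
    · intro x hx
      simp only [List.map_cons, List.head?_cons, Option.mem_def, Option.some.injEq] at hx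
      rw [← hx]
      exact hzj
  have hj2 : j < ω₁ := RealS_bix_lt h2 (Nm.mem_bs.1 (by rw [hl]; simp))
  have hel : (SR S A μ β P e cc).Tr (elN (ρ.map Prod.snd) (b j)) := by
    refine (h.real_inv (ρ := elN ρ (b (τ j, j))) hC hg ?_ ?_ ?_).1 ?_
    · exact ok_op.2 (ok_cons.2 ⟨h1, ok_b.2 hτj⟩)
    · exact ok_op.2 (ok_cons.2 ⟨h2, ok_b.2 hj2⟩)
    · have hocc : ∀ x ∈ (elN ρ (b (τ j, j))).occ, x ∈ ρ.occ := by
        intro x hx
        rcases List.mem_append.1 hx with hx | hx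
        · exact hx
        · rw [List.mem_singleton.1 hx]
          exact Nm.occ_of_bix hjm
      exact fun p g q g' hp hq => hm p g q g' (hocc _ hp) (hocc _ hq)
    · show (SR S A μ β P e cc).Tr (elN (ρ.map Prod.fst) (b (τ j)))
      rw [tr_elN, hv, RealS_den_b hlt]
      exact el_od_od.2 hzj
  rw [tr_elN, RealS_den_b hlt] at hel
  obtain ⟨z', hz', hv'⟩ := el_od.1 hel
  have hz2 : z' = z0 := by
    refine hz0 (j :: l1) (hl ▸ Nm.bs_sorted _) ?_ (by rw [hl]) z' (hz'.trans (hg.lt j)) ?_ ?_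
    · rw [← hl]
      exact fun i hi => RealS_bix_lt h2 (Nm.mem_bs.1 hi)
    · rw [← hl, srcG_map]
      exact hv'
    · intro x hx
      simp only [List.map_cons, List.head?_cons, Option.mem_def, Option.some.injEq] at hx
      rw [← hx]
      exact hz'
  rw [hv', hz2, hz1]

theorem RealS_asg (cc : Ordinal.{u} → Ordinal.{u}) (η z : Ordinal.{u}) :
    asg cc [η] [z] = Function.update cc η z := by
  funext i
  by_cases hi : i = η
  · subst hi
    simp [asg]
  · simp [asg, hi]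

theorem Src.real_gen0 (h : Src S A μ β c Y P e) (hC : C ⊆ Iio μ) (hg : GenC S A μ β c P e C cc)
    (hlt : μ < β) {ν : Nm.{u} Ordinal.{u}} (hν : ν.Ok c.k c.fl C (Iio ω₁)) {t : Trm}
    (ht : t.depth ≤ c.k) {η : Ordinal.{u}} (hη : η < ω₁) (ha : ∀ i ∈ ν.bix, i < η) :
    AE A μ (fun z => ev (tailF S A) t β (ec (od z) ((SR S A μ β P e cc).den ν)) 0 = tt) ↔
      ev (tailF S A) t β (ec (od (cc η)) ((SR S A μ β P e cc).den ν)) 0 = tt := by
  have hn : (app t (cons (b η) ν)).Ok c.k c.fl C (Iio ω₁) :=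
    (ok_cons.2 ⟨ok_b.2 hη, hν⟩).app ht
  have hbix : ∀ i ∈ (app t (cons (b η) ν)).bix, i ≤ η := by
    intro i hi
    rcases List.mem_append.1 hi with hi | hi
    · exact (List.mem_singleton.1 hi).le
    · exact (ha i hi).le
  have hden : ∀ z, (SR S A μ β P e (Function.update cc η z)).den (app t (cons (b η) ν)) 0 =
      ev (tailF S A) t β (ec (od z) ((SR S A μ β P e cc).den ν)) 0 := by
    intro z
    rw [den_app, den_cons, RealS_den_b hlt, Function.update_self,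
      sr_den_congr (c2 := cc) fun i hi => Function.update_of_ne (ha i hi).ne _ _]
    rfl
  have hden0 : (SR S A μ β P e cc).den (app t (cons (b η) ν)) 0 =
      ev (tailF S A) t β (ec (od (cc η)) ((SR S A μ β P e cc).den ν)) 0 := by
    rw [← hden, Function.update_eq_self]
  constructor
  · intro hae
    rw [← hden0]
    exact hg.g3 _ hn η hη hbix (hae.mono fun z _ hz => (hden z).trans hz)
  · intro hv
    rcases (h.good_name (hn.mono hC subset_rfl) hg.lt [η]).mn.dec1 with h1 | h1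
    · refine h1.mono fun z _ hz => ?_
      rw [RealS_asg, hden] at hz
      exact hz
    · exfalso
      refine tr_notN.1 (hg.g3 (notN (app t (cons (b η) ν))) (ok_op.2 (ok_cons.2 ⟨hn, hn⟩)) η hη
        ?_ (h1.mono fun z _ hz => tr_notN.2 ?_)) (hden0.trans hv)
      · intro i hi
        rcases List.mem_append.1 hi with hi | hi <;> exact hbix i hi
      · rw [RealS_asg] at hz
        exact hz

/-- Forget the second entry. -/
def RealS_drop (t : Trm) : Trm := .comp t (.cons .id (Trm.tls 2))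

/-- Compare the value of `t` on the head with the value of `s` on the tail. -/
def RealS_cmp (t s : Trm) : Trm := .comp (.op .eq) (.cons (RealS_drop t) (.comp s .tl))

theorem RealS_drop_depth (t : Trm) : (RealS_drop t).depth = t.depth := by
  simp [RealS_drop, Trm.depth]

theorem RealS_cmp_depth {t s : Trm} {k : ℕ} (ht : t.depth ≤ k) (hs : s.depth ≤ k) :
    (RealS_cmp t s).depth ≤ k := by
  simp [RealS_cmp, Trm.depth, RealS_drop_depth, ht, hs]

theorem RealS_cmp_ev {F : FSys.{u}} (t s : Trm) (x y : Code.{u}) (E : CE.{u}) :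
    ev F (RealS_cmp t s) β (ec x (ec y E)) 0 = tt ↔
      ev F t β (ec x E) 0 = ev F s β (ec y E) 0 := by
  have h1 : ev F (RealS_drop t) β (ec x (ec y E)) = ev F t β (ec x E) := ev_drop2 t
  have h2 : ev F (RealS_cmp t s) β (ec x (ec y E)) 0 =
      bl (ev F (RealS_drop t) β (ec x (ec y E)) 0 = ev F s β (ec y E) 0) := rfl
  rw [h2, h1, bl_eq_tt]

theorem RealS_coh0 (h : Src S A μ β c Y P e) (hC : C ⊆ Iio μ) (hg : GenC S A μ β c P e C cc)
    (hlt : μ < β) {ν : Nm.{u} Ordinal.{u}} (hν : ν.Ok c.k c.fl C (Iio ω₁)) {t : Trm}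
    (ht : t.depth ≤ c.k) {η η' : Ordinal.{u}} (hη : η < η') (hη' : η' < ω₁)
    (ha : ∀ i ∈ ν.bix, i < η) {f : Ordinal.{u} → Code.{u}}
    (hf : ∀ z, f z = ev (tailF S A) t β (ec (od z) ((SR S A μ β P e cc).den ν)) 0) :
    (f (cc η) = f (cc η') → limF (tailF S A) μ f = f (cc η)) ∧
      (f (cc η) ≠ f (cc η') → limF (tailF S A) μ f = od 0) := by
  have hη0 : η < ω₁ := hη.trans hη'
  constructor
  · intro hff
    have key := h.real_gen0 hC hg hlt (ν := cons (b η) ν) (ok_cons.2 ⟨ok_b.2 hη0, hν⟩)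
      (RealS_cmp_depth ht ht) hη' (by
        intro i hi
        rcases List.mem_append.1 hi with hi | hi
        · rw [List.mem_singleton.1 hi]
          exact hη
        · exact (ha i hi).trans hη)
    simp only [den_cons, RealS_den_b hlt, RealS_cmp_ev, ← hf] at key
    exact limF_eq h.fh.bs.fs ((tailF_iff h.fh.mem).2 (key.2 hff.symm))
  · intro hne
    rcases limF_cases (tailF S A) μ f with ⟨η0, -, h0, h1⟩ | ⟨-, h1⟩
    swap
    · exact h1
    exfalso
    rw [← h1] at h0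
    have hae : AE A μ fun z => f z = limF (tailF S A) μ f := (tailF_iff h.fh.mem).1 h0
    have hlim : ev (tailF S A) (.lim (RealS_drop t)) β
        (ec (od μ) ((SR S A μ β P e cc).den ν)) 0 = limF (tailF S A) μ f := by
      rw [ev_lim_od (μ := μ) _ rfl]
      refine limF_congr fun z _ => ?_
      rw [hf]
      exact congrFun (ev_drop2 t) 0
    have hp0 : (SR S A μ β P e cc).den (par 0) 0 = od μ := h.p0 hlt
    have key : ∀ ζ, η ≤ ζ → ζ < ω₁ → f (cc ζ) = limF (tailF S A) μ f := by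
      intro ζ h2 h3
      have key := h.real_gen0 hC hg hlt (ν := cons (par 0) ν) (ok_cons.2 ⟨ok_par, hν⟩)
        (t := RealS_cmp t (.lim (RealS_drop t)))
        (RealS_cmp_depth ht (by rw [Trm.depth, RealS_drop_depth]; exact ht)) h3
        (fun i hi => (ha i hi).trans_le h2)
      simp only [den_cons, hp0, RealS_cmp_ev, hlim, ← hf] at key
      exact key.1 hae
    exact hne ((key η le_rfl hη0).trans (key η' hη.le hη').symm)

/-- The second entry is below the first one. -/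
def RealS_gt : Trm := .comp (.op .lt) (.cons .tl .id)

theorem RealS_gt_ev {F : FSys.{u}} {E : CE.{u}} {z : Ordinal.{u}} (hE : E 0 = od z)
    (w : Ordinal.{u}) : ev F RealS_gt β (ec (od w) E) 0 = tt ↔ z < w := by
  have h1 : ev F RealS_gt β (ec (od w) E) 0 = bl ((E 0).Lt (od w)) := rfl
  rw [h1, bl_eq_tt, hE]
  rfl

theorem RealS_abv (h : Src S A μ β c Y P e) (hlt : μ < β) {ν : Nm.{u} Ordinal.{u}}
    {η : Ordinal.{u}} (ha : (SR S A μ β P e cc).Abv ν μ η) : ∀ i ∈ ν.bix, i < η :=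
  fun i hi => ha i _ (Nm.occ_of_bix hi) (h.p0 hlt)

theorem Src.real (h : Src S A μ β c Y P e) (hγ : Iio c.γ ⊆ C) (hC : C ⊆ Iio μ)
    (hg : GenC S A μ β c P e C cc) : Real c (SR S A μ β P e cc) C (Iio ω₁) where
  fs := h.fh.bs.fs
  low := by
    intro μ' hμ'
    funext X
    show (μ' ∈ S ∧ AE A μ' (· ∈ X)) = (μ' ∈ c.S0 ∧ AE c.A0 μ' (· ∈ X))
    rw [h.s0, h.a0, ae_inter_Iio hμ'.le]
    exact propext ⟨fun h1 => ⟨⟨h1.1, hμ'⟩, h1.2⟩, fun h1 => ⟨h1.1.1, h1.2⟩⟩
  om := h.fh.om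
  sub := hγ
  cid := fun _ _ => rfl
  cmono := fun _ _ _ _ h1 => h1
  clt := fun _ hξ => lt_of_lt_of_le (hC hξ) h.fh.le
  pin := fun i => h.fh.y.sub _ (h.py i)
  pz := h.pz
  hb := h.hb
  p0 := h.p0
  dm := fun μ' _ hd => (lt_or_ge μ' μ).imp_left (h.gam μ' hd.1)
  inc := by
    rintro μ' (⟨h0, -⟩ | hU)
    · obtain rfl : μ = μ' := h0.symm
      rw [sr_e0]
      exact ⟨hg.mono, fun η _ => hg.lt η⟩
    · have hU' := (sr_U h.fh.bs).1 hU
      rw [sr_e hU']
      exact ⟨h.fh.gen_mono hU', fun η hη => (h.fh.gen μ' hU' η hη).1⟩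
  inv := fun _ h1 h2 hm => h.real_inv hC hg h1 h2 hm
  indU := by
    intro ρ h1 h2 hm hfix z hU hv
    have hlt : μ < β := hU.1.trans hU.2.1
    refine (h.ui_name (h1.mono hC subset_rfl) (h2.mono hC subset_rfl) hg.lt (fun p hp => ?_)
      (RealS_mvU hm) (h.fh.y.up z ((sr_U h.fh.bs).1 hU))).1 hv
    rw [hfix p _ (Nm.occ_of_bix hp) μ (RealS_up0 hlt) (RealS_par0 h hlt) rfl]
  indE := by
    intro ρ h1 h2 hm μ' η hUp hη hfix z hz hv
    rcases hUp with ⟨h0, hlt⟩ | hU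
    · obtain rfl : μ = μ' := h0.symm
      rw [sr_e0] at hz
      exact h.real_ind0 hC hg hlt h1 h2 hm hη (fun p hp hpη => hfix p _ (Nm.occ_of_bix hp) _
        (RealS_up0 hlt) (RealS_par0 h hlt) (Or.inr ⟨rfl, hpη⟩)) hz hv
    · have hU' := (sr_U h.fh.bs).1 hU
      have hlt : μ < β := hU'.2.1.trans hU'.2.2
      rw [sr_e hU'] at hz
      refine h.ind_name (h1.mono hC subset_rfl) (h2.mono hC subset_rfl) hg.lt (fun p hp => ?_)
        (RealS_mvU hm) hU' hη hfix hz hv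
      rw [hfix p _ (Nm.occ_of_bix hp) μ (RealS_up0 hlt) (RealS_par0 h hlt) (Or.inl hU'.2.1)]
  coh := by
    intro ν t μ' η η' hν ht hUp hη hη' hlt' ha f hf
    rcases hUp with ⟨h0, hlt⟩ | hU
    · obtain rfl : μ = μ' := h0.symm
      rw [sr_e0]
      exact RealS_coh0 h hC hg hlt hν ht hlt' hη' (RealS_abv h hlt ha) hf
    · have hU' := (sr_U h.fh.bs).1 hU
      rw [sr_e hU']
      exact h.coh2_name (hν.mono hC subset_rfl) hg.lt hU' hlt' hη' ha (ht.trans (Src.k_le c)) hf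
  rem := by
    intro ν μ' η hν hUp hη ha z hz hv
    rcases hUp with ⟨h0, hlt⟩ | hU
    · obtain rfl : μ = μ' := h0.symm
      rw [sr_e0]
      have key := h.real_gen0 hC hg hlt hν (t := RealS_gt) (Nat.zero_le _) hη (RealS_abv h hlt ha)
      simp only [RealS_gt_ev hv] at key
      exact key.1 (ae_gt h.reg.1 hz)
    · have hU' := (sr_U h.fh.bs).1 hU
      rw [sr_e hU']
      have key := h.coh_name (t := RealS_gt) (hν.mono hC subset_rfl) hg.lt hU' hη ha
        (Nat.zero_le _)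
      simp only [RealS_gt_ev hv] at key
      exact key.1 (ae_gt (h.fh.bs.reg μ' hU'.1) hz)
  short := by
    intro ν hν z hU hv
    obtain ⟨χ, ν1, -, h1, -, h2, h3, h4⟩ := h.elim hC hν hg.lt
    exact ⟨ν1, h1, h2, (h4 cc hg.lt h3).1 _ (h.fh.y.up z ((sr_U h.fh.bs).1 hU)) hv⟩

end Pool.Agent.P.MP_833f7a_lc
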