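import Pool.Agent.P.MP_833f7a_lc.PiL
import Pool.Agent.P.MP_833f7a_lc.Pos

/-!
Recognition of limits.
-/

universe u v w

namespace Pool.Agent.P.MP_833f7a_lc

open Cardinal Ordinal Set Code Nm

/-- The values of `t` on the ordinals, in a structure. -/
noncomputable def RecLim_f (a : Option (Nm.{u} Ordinal.{u})) (t : Trm) (ν : Nm.{u} Ordinal.{u})
    (R : Str.{u} Ordinal.{u}) (η : Ordinal.{u}) : Code.{u} :=
  ev R.F t (R.lvl a) (ec (od η) (R.den ν)) 0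

/-- The level names an infinite ordinal. -/
def RecLim_lv (a : Option (Nm.{u} Ordinal.{u})) (R : Str.{u} Ordinal.{u}) : Prop :=
  ∀ a', a = some a' → ∃ z, ω ≤ z ∧ R.den a' 0 = od z

theorem RecLim_den {a : Option (Nm.{u} Ordinal.{u})} {R : Str.{u} Ordinal.{u}}
    {ν : Nm.{u} Ordinal.{u}} (t : Trm) (hR : RecLim_lv a R) (hin : InE (R.den ν) (R.lvl a)) :
    R.den (LOW a t ν) = ev R.F t (R.lvl a) (R.den ν) := by
  cases a with
  | none => rfl
  | some a' =>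
    obtain ⟨z, hz, e⟩ := hR a' rfl
    have e1 : R.lvl (some a') = z := by simp only [Str.lvl, e, lv_od]
    rw [e1] at hin ⊢
    rw [LOW, den_app, den_cons, e, ev_low_od t hz hin]

theorem RecLim_ok {a : Option (Nm.{u} Ordinal.{u})} {t t' : Trm} {ν n : Nm.{u} Ordinal.{u}}
    {k : ℕ} {fl : Prop} {C I : Set Ordinal.{u}} (ht : a = none → t.depth ≤ k)
    (h : (LOW a t' ν).Ok k fl C I) (hn : n.Ok k fl C I) :
    (LOW a t (cons n ν)).Ok k fl C I := by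
  cases a with
  | none => exact (ok_cons.2 ⟨hn, h.of_app⟩).app (ht rfl)
  | some a' =>
    have h1 := ok_cons.1 (ok_low.1 h)
    exact ok_low.2 (ok_cons.2 ⟨h1.1, ok_cons.2 ⟨hn, h1.2⟩⟩)

theorem RecLim_bdd {θ : Ordinal.{u}} (hθ : Reg θ) {α : Type v} (L : List α) (P : α → Prop)
    (f : α → Ordinal.{u}) (h : ∀ x ∈ L, P x → f x < θ) : ∃ η < θ, ∀ x ∈ L, P x → f x < η := by
  induction L with
  | nil => exact ⟨0, hθ.pos, by simp⟩
  | cons x L ih =>
    obtain ⟨η, hη, h1⟩ := ih fun y hy => h y (List.mem_cons_of_mem _ hy)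
    by_cases hx : P x
    · refine ⟨max η (f x + 1), max_lt hη (hθ.succ_lt (h x List.mem_cons_self hx)), ?_⟩
      intro y hy hP
      rcases List.mem_cons.1 hy with rfl | hy
      · exact lt_max_of_lt_right (lt_add_one _)
      · exact lt_max_of_lt_left (h1 y hy hP)
    · refine ⟨η, hη, fun y hy hP => ?_⟩
      rcases List.mem_cons.1 hy with rfl | hy
      · exact absurd hP hx
      · exact h1 y hy hP

namespace UM

variable {c : Cls.{u}} {κ : Ordinal.{u}} {m : UM c κ} {a : Option (Nm.{u} Ordinal.{u})} {t : Trm}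

theorem fs_can (hv : c.Valid κ) (m : UM c κ) : FS (Fcan c κ) :=
  fs_Fcan hv.2.1.le (m.real (∅, ∅)).fs (m.real (∅, ∅)).low

theorem RecLim_ev_lv (ha : m.Lv a) : m.Ev (RecLim_lv a) := by
  cases a with
  | none => exact ev_of_forall fun _ _ h => by cases h
  | some a' => exact Ev.mono ha.2 fun R h a'' e => by cases e; exact h

theorem RecLim_pos (hv : c.Valid κ) : (0 : Ordinal.{u}) < c.γ := reg_omega1.pos.trans_le hv.1

theorem RecLim_key {ν n : Nm.{u} Ordinal.{u}} (ha : m.Lv a) (ht : a = none → t.depth ≤ c.k)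
    (h : m.Rec a t) (hν : m.Adm ν) (hb : m.Below a ν) (hn : m.Adm n)
    (hin : m.Ev fun R => (R.den n 0).In (R.lvl a)) :
    m.Adm (LOW a t (cons n ν)) ∧
      m.pi (LOW a t (cons n ν)) = ev (Fcan c κ) t (m.lvs a) (ec (m.pi n) (m.Pi ν)) 0 ∧
      m.Ev fun R => R.den (LOW a t (cons n ν)) 0 =
        ev R.F t (R.lvl a) (ec (R.den n 0) (R.den ν)) 0 := by
  have h1 : m.Adm (cons n ν) := adm_cons.2 ⟨hn, hν⟩
  have h2 : m.Below a (cons n ν) := Ev.mono (Ev.and hin hb) fun R hR => inE_ec.2 hR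
  have h3 := low_adm ha h1 ht
  refine ⟨h3, ?_, Ev.mono (den_LOW ha h2 t) fun R hR => by rw [hR, den_cons]⟩
  rw [← Pi_zero h3.okK, h _ h1 h2, Pi_cons hn.okK hν.okK]

/-- The head is a small ordinal. -/
theorem RecLim_small {ν : Nm.{u} Ordinal.{u}} (hv : c.Valid κ) (ha : m.Lv a)
    (ht : a = none → t.depth ≤ c.k) (h : m.Rec a t) (hν : m.Adm ν) (hb : m.Below a ν)
    {μ : Ordinal.{u}} (hμ : μ < c.γ) (he : m.Ev fun R => R.den ν 0 = od μ) :
    m.pi (LOW a (.lim t) ν) =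
      limF (Fcan c κ) μ fun η => ev (Fcan c κ) t (m.lvs a) (ec (od η) (m.Pi ν)) 0 := by
  have hN : m.Adm (LOW a (.lim t) ν) := low_adm ha hν ht
  set g : Ordinal.{u} → Code.{u} := fun η => ev (Fcan c κ) t (m.lvs a) (ec (od η) (m.Pi ν)) 0
  have hκ : ∀ η < μ, η < κ := fun η hη => (hη.trans hμ).trans hv.2.1
  have key : ∀ η < μ, m.Adm (LOW a t (cons (cst η) ν)) ∧ m.pi (LOW a t (cons (cst η) ν)) = g η :=
    fun η hη => by
      have h1 := RecLim_key ha ht h hν hb (adm_cst (hκ η hη))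
        (Ev.mono (Ev.and (Ev.and he hb) ev_fs) fun R hR => by
          have h2 := hR.1.2 0
          rw [hR.1.1] at h2
          rw [den_cst, hR.2.2.2.2.2 η (hη.trans hμ)]
          exact hη.trans h2)
      rw [pi_cst (hκ η hη)] at h1
      exact ⟨h1.1, h1.2.1⟩
  obtain ⟨s, hs1, hs2, hs3, hs4⟩ := ((m.cover _ hN.okK).and
    (Ev.and he (Ev.and hb (RecLim_ev_lv ha)))).exists
  have rs := m.real s
  have lt : μ < (m.R s).lvl a := by
    have h2 := hs3 0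
    rwa [hs2] at h2
  have okc : ∀ η < c.γ, (cst η : Nm.{u} Ordinal.{u}).Ok c.k c.fl (m.C s) (m.I s) :=
    fun η hη => ok_cst.2 (rs.sub hη)
  have okx : ∀ η < μ, (LOW a t (cons (cst η) ν)).Ok c.k c.fl (m.C s) (m.I s) :=
    fun η hη => RecLim_ok ht hs1 (okc η (hη.trans hμ))
  have dx : ∀ η < μ, (m.R s).den (LOW a t (cons (cst η) ν)) 0 = RecLim_f a t ν (m.R s) η :=
    fun η hη => by
      have e : (m.R s).den (cons (cst η) ν) = ec (od η) ((m.R s).den ν) := by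
        rw [den_cons, den_cst, rs.cid η (hη.trans hμ)]
      rw [RecLim_den t hs4 (by rw [e]; exact inE_ec.2 ⟨hη.trans lt, hs3⟩), e, RecLim_f]
  have pat : ∀ η < μ, ∀ η' < μ,
      (RecLim_f a t ν (m.R s) η = RecLim_f a t ν (m.R s) η' ↔ g η = g η') := fun η hη η' hη' => by
    rw [← dx η hη, ← dx η' hη', stab_eq (okx η hη) (okx η' hη'),
      ← pi_eq_iff hv (key η hη).1 (key η' hη').1, (key η hη).2, (key η' hη').2]
  have sets : ∀ η' < μ, {η | η < μ ∧ RecLim_f a t ν (m.R s) η = RecLim_f a t ν (m.R s) η'} =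
      {η | η < μ ∧ g η = g η'} := fun η' hη' =>
    Set.ext fun η => and_congr_right fun hη => pat η hη η' hη'
  have FF : (m.R s).F μ = Fcan c κ μ := by rw [rs.low μ hμ, Fcan_low hv.2.1.le hμ]
  have dN : (m.R s).den (LOW a (.lim t) ν) 0 = limF (m.R s).F μ (RecLim_f a t ν (m.R s)) := by
    rw [RecLim_den _ hs4 hs3, ev_lim_od t hs2]
    rfl
  rcases limF_cases (m.R s).F μ (RecLim_f a t ν (m.R s)) with ⟨η0, h0, h1, h2⟩ | ⟨h1, h2⟩
  · rw [sets η0 h0, FF] at h1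
    rw [limF_eq (fs_can hv m) h1, ← (key η0 h0).2]
    exact pi_congr hN.okK (key η0 h0).1.okK
      ((stab_eq hs1 (okx η0 h0)).1 (by rw [dN, h2, dx η0 h0]))
  · have p0 := RecLim_pos hv
    have e0 : m.pi (LOW a (.lim t) ν) = od 0 := by
      rw [← pi_cst (m := m) (p0.trans hv.2.1)]
      refine pi_congr hN.okK (adm_cst (m := m) (p0.trans hv.2.1)).okK
        ((stab_eq hs1 (okc 0 p0)).1 ?_)
      rw [dN, h2, den_cst, rs.cid 0 p0]
    rcases limF_cases (Fcan c κ) μ g with ⟨η0, h0, h3, -⟩ | ⟨-, h4⟩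
    · exact absurd ⟨η0, h0, by rwa [sets η0 h0, FF]⟩ h1
    · rw [e0, h4]

/-- Coherence at a level. -/
theorem RecLim_coh {ν : Nm.{u} Ordinal.{u}} (ha : m.Lv a) (ht : a = none → t.depth ≤ c.k)
    (hν : m.Adm ν) (hb : m.Below a ν) (hu : m.UpE ν) :
    ∃ η0 < th κ (m.fi ν), ∀ η η', η0 ≤ η → η < η' → m.Ev fun R => ∀ μ, R.den ν 0 = od μ →
      R.e μ η < μ → R.e μ η' < μ →
      (RecLim_f a t ν R (R.e μ η) = RecLim_f a t ν R (R.e μ η') →
        limF R.F μ (RecLim_f a t ν R) = RecLim_f a t ν R (R.e μ η)) ∧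
      (RecLim_f a t ν R (R.e μ η) ≠ RecLim_f a t ν R (R.e μ η') →
        limF R.F μ (RecLim_f a t ν R) = od 0) := by
  obtain ⟨ν', t', h1, h2, h3⟩ : ∃ (ν' : Nm.{u} Ordinal.{u}) (t' : Trm), m.Adm ν' ∧
      t'.depth ≤ c.k ∧ m.Ev fun R => ∀ z < R.lvl a,
        ev R.F t' R.β (ec (od z) (R.den ν')) 0 = RecLim_f a t ν R z := by
    cases a with
    | none => exact ⟨ν, t, hν, ht rfl, ev_of_forall fun _ _ _ => rfl⟩
    | some a' =>
      refine ⟨cons a' ν, .comp (.low t) (.cons (Trm.tls 1) (.cons .id (Trm.tls 2))),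
        adm_cons.2 ⟨ha.1, hν⟩, by simp [Trm.depth], Ev.mono (Ev.and ha.2 hb) ?_⟩
      rintro R ⟨⟨l, hl, e⟩, hin⟩ z hz
      have e1 : R.lvl (some a') = l := by simp only [Str.lvl, e, lv_od]
      rw [e1] at hz hin
      rw [RecLim_f, e1, ← ev_low_od (b := R.β) t hl (inE_ec.2 ⟨in_od.2 hz, hin⟩), ev_comp,
        den_cons, e]
      simp only [ev_cons, ev_tls, ev_id, ec_zero, zero_add]
      rfl
  obtain ⟨η0, h0, h4⟩ := RecLim_bdd (reg_th κ (m.fi ν)) ν'.occ (fun p => m.EqE p.2 ν) Prod.fst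
    fun p hp he => by
      have := h1.2 p.1 p.2 hp
      rwa [bnd_congr (h1.okK.occ hp).2 hν.okK he, bnd, if_pos hu] at this
  refine ⟨η0, h0, fun η η' hη hη' => ?_⟩
  refine Ev.mono (Ev.and (um_coh h1.okK hu h2 hη'
    fun i g' hp he => (h4 (i, g') hp he).trans_le hη) (Ev.and h3 hb)) ?_
  rintro R ⟨⟨μ, e, h5⟩, h6, h7⟩ μ' e' l1 l2
  obtain rfl : μ = μ' := od.inj (e.symm.trans e')
  have lt : μ < R.lvl a := by
    have h8 := h7 0
    rwa [e] at h8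
  have h9 := h5 _ fun _ => rfl
  rwa [limF_congr (g := RecLim_f a t ν R) fun z hz => h6 z (hz.trans lt), h6 _ (l1.trans lt),
    h6 _ (l2.trans lt)] at h9

/-- The head is a family. -/
theorem RecLim_fam {ν : Nm.{u} Ordinal.{u}} (hv : c.Valid κ) (ha : m.Lv a)
    (ht : a = none → t.depth ≤ c.k) (h : m.Rec a t) (hν : m.Adm ν) (hb : m.Below a ν)
    (hu : m.UpE ν) :
    m.pi (LOW a (.lim t) ν) = limF (Fcan c κ) (th κ (m.fi ν))
      fun η => ev (Fcan c κ) t (m.lvs a) (ec (od η) (m.Pi ν)) 0 := by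
  have hN : m.Adm (LOW a (.lim t) ν) := low_adm ha hν ht
  set g : Ordinal.{u} → Code.{u} := fun η => ev (Fcan c κ) t (m.lvs a) (ec (od η) (m.Pi ν)) 0
  obtain ⟨at', hat⟩ := fam_atoms hv hν hu
  have club := (pos_fam hv hν hu hat).2
  have hθ := reg_th κ (m.fi ν)
  have val : ∀ η, m.Ev fun R => ∀ μ, R.den ν 0 = od μ →
      R.den (at' η) 0 = od (R.e μ η) ∧ R.e μ η < μ := fun η =>
    Ev.mono (Ev.and (hat.2.2 η) (hat.el hu η)) fun R hR μ e => by
      have h1 := hR.2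
      rw [hR.1 μ e, e] at h1
      exact ⟨by rw [hR.1 μ e], el_od_od.1 h1⟩
  have key : ∀ η < th κ (m.fi ν), m.Adm (LOW a t (cons (at' η) ν)) ∧
      m.pi (LOW a t (cons (at' η) ν)) = g (m.rk (at' η)) ∧
      m.Ev fun R => ∀ μ, R.den ν 0 = od μ →
        R.den (LOW a t (cons (at' η) ν)) 0 = RecLim_f a t ν R (R.e μ η) := fun η hη => by
    have h1 := RecLim_key ha ht h hν hb (hat.1 η hη)
      (Ev.mono (Ev.and (Ev.and hu hb) (val η)) fun R hR => by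
        obtain ⟨⟨⟨μ, -, e⟩, h2⟩, h3⟩ := hR
        have h4 := h2 0
        rw [e] at h4
        rw [(h3 μ e).1]
        exact (h3 μ e).2.trans h4)
    rw [pi_od (hat.ordE hu η)] at h1
    exact ⟨h1.1, h1.2.1, Ev.mono (Ev.and h1.2.2 (val η)) fun R hR μ e => by
      rw [hR.1, (hR.2 μ e).1, RecLim_f]⟩
  have dN : m.Ev fun R => ∃ μ, R.den ν 0 = od μ ∧
      R.den (LOW a (.lim t) ν) 0 = limF R.F μ (RecLim_f a t ν R) :=
    Ev.mono (Ev.and hu (den_LOW ha hb (.lim t))) fun R hR => by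
      obtain ⟨⟨μ, -, e⟩, h2⟩ := hR
      exact ⟨μ, e, by rw [h2, ev_lim_od t e]; rfl⟩
  obtain ⟨η0, h0, coh⟩ := RecLim_coh ha ht hν hb hu
  have two : ∀ η η', η0 ≤ η → η < η' → η' < th κ (m.fi ν) →
      (g (m.rk (at' η)) = g (m.rk (at' η')) → m.pi (LOW a (.lim t) ν) = g (m.rk (at' η))) ∧
      (g (m.rk (at' η)) ≠ g (m.rk (at' η')) → m.pi (LOW a (.lim t) ν) = od 0) := by
    intro η η' l0 l1 l2
    obtain ⟨a1, a2, a3⟩ := key η (l1.trans l2)
    obtain ⟨b1, b2, b3⟩ := key η' l2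
    have all := Ev.and (Ev.and dN (coh η η' l0 l1))
      (Ev.and (Ev.and a3 b3) (Ev.and (val η) (val η')))
    rw [← a2, ← b2, Ne, pi_eq_iff hv a1 b1]
    constructor
    · intro e
      refine pi_congr hN.okK a1.okK (Ev.mono (Ev.and all e) ?_)
      rintro R ⟨⟨⟨⟨μ, e1, e2⟩, c1⟩, ⟨c2, c3⟩, c4, c5⟩, c6⟩
      rw [c2 μ e1, c3 μ e1] at c6
      rw [e2, c2 μ e1]
      exact (c1 μ e1 (c4 μ e1).2 (c5 μ e1).2).1 c6
    · intro e
      refine (pi_eq_small hv hN (RecLim_pos hv)).2 (Ev.mono (Ev.and all (ev_not.2 e)) ?_)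
      rintro R ⟨⟨⟨⟨μ, e1, e2⟩, c1⟩, ⟨c2, c3⟩, c4, c5⟩, c6⟩
      rw [c2 μ e1, c3 μ e1] at c6
      rw [e2]
      exact (c1 μ e1 (c4 μ e1).2 (c5 μ e1).2).2 c6
  by_cases hz : ∃ z, Fcan c κ (th κ (m.fi ν)) {η | η < th κ (m.fi ν) ∧ g η = z}
  · obtain ⟨z, hz⟩ := hz
    rw [limF_eq (fs_can hv m) hz]
    obtain ⟨f, hf, hf'⟩ := (Fcan_th hv.2.1.le).1 hz
    have unb := club_meet hθ club hf
    obtain ⟨η, ⟨ζ, z1, z2⟩, l0, l1⟩ := unb η0 h0
    obtain ⟨η', ⟨ζ', z3, z4⟩, l2, l3⟩ := unb (η + 1) (hθ.succ_lt l1)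
    have e1 : g (m.rk (at' η)) = z := by rw [z2]; exact (hf' ζ z1).2
    have e2 : g (m.rk (at' η')) = z := by rw [z4]; exact (hf' ζ' z3).2
    rw [(two η η' l0 ((lt_add_one η).trans_le l2) l3).1 (e1.trans e2.symm), e1]
  · rw [limF_of_not hz]
    by_contra hne
    refine hz ⟨g (m.rk (at' η0)), (Fcan_th hv.2.1.le).2 ⟨_, club.tail hθ h0, fun η hη => ?_⟩⟩
    have l1 := hθ.add_lt h0 hη
    refine ⟨club.2.1 _ l1, ?_⟩
    rcases (le_self_add : η0 ≤ η0 + η).eq_or_lt with e | l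
    · rw [← e]
    · by_contra hne'
      exact hne ((two η0 _ le_rfl l l1).2 fun e => hne' e.symm)

/-- The head carries no filter. -/
theorem RecLim_none {ν : Nm.{u} Ordinal.{u}} (hv : c.Valid κ) (ha : m.Lv a)
    (ht : a = none → t.depth ≤ c.k) (hν : m.Adm ν) (hb : m.Below a ν)
    (hs : ¬ ∃ μ < c.γ, m.Ev fun R => R.den ν 0 = od μ) (hu : ¬ m.UpE ν) :
    m.pi (LOW a (.lim t) ν) = od 0 := by
  have hN : m.Adm (LOW a (.lim t) ν) := low_adm ha hν ht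
  have h1 : m.Ev fun R => ¬ ∃ μ < c.γ, R.den ν 0 = od μ := by
    refine ev_not.2 fun h1 => hs ?_
    have h2 : m.ElE ν (cst c.γ) := by
      filter_upwards [h1, m.cover _ (adm_cst (m := m) hv.2.1).okK] with s h2 h3
      obtain ⟨μ, h4, e⟩ := h2
      have rs := m.real s
      rw [e, den_cst, el_od_od, ← rs.cid μ h4]
      exact rs.cmono (rs.sub h4) (ok_cst.1 h3) h4
    obtain ⟨ξ, h3, h4⟩ := std' hν.okK hv.2.1 h2
    exact ⟨ξ, h3, Ev.mono (Ev.and h4 ev_fs) fun R hR => by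
      rw [hR.1, den_cst, hR.2.2.2.2.2 ξ h3]⟩
  refine (pi_eq_small hv hN (RecLim_pos hv)).2 ?_
  filter_upwards [h1, ev_not.2 hu, den_LOW ha hb (.lim t), ev_in (m := m) hν.okK]
    with s h2 h3 h4 h5
  have rs := m.real s
  rw [h4, ev_lim]
  have h6 := h5 0
  cases e : (m.R s).den ν 0 with
  | st _ _ _ _ => rfl
  | od μ =>
    rw [e] at h6
    refine limF_of_not_dom rs.fs fun hd => ?_
    rcases rs.dm μ h6 hd with h7 | h7
    · exact h2 ⟨μ, h7, e⟩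
    · refine h3 ⟨μ, ?_, e⟩
      rcases h7.eq_or_lt with h8 | h8
      · exact Or.inl ⟨h8.symm, h6⟩
      · exact Or.inr ⟨h8, h6, hd⟩

theorem rec_lim (hv : c.Valid κ) (ha : m.Lv a) (ht : a = none → t.depth ≤ c.k)
    (h : m.Rec a t) : m.Rec a (.lim t) := by
  intro ν hν hb
  have hN : m.Adm (LOW a (.lim t) ν) := low_adm ha hν ht
  rw [Pi_const hN.okK (Ev.mono (den_LOW ha hb (.lim t)) fun R hR i => by rw [hR, ev_lim]),
    ev_lim, Pi_zero hν.okK]
  funext _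
  by_cases hs : ∃ μ < c.γ, m.Ev fun R => R.den ν 0 = od μ
  · obtain ⟨μ, h1, h2⟩ := hs
    rw [(pi_eq_small hv hν h1).2 h2]
    exact RecLim_small hv ha ht h hν hb h1 h2
  by_cases hu : m.UpE ν
  · obtain ⟨at', hat⟩ := fam_atoms hv hν hu
    rw [pi_od hu.ordE, (pos_fam hv hν hu hat).1]
    exact RecLim_fam hv ha ht h hν hb hu
  rw [RecLim_none hv ha ht hν hb hs hu]
  have h1 := pi_in hv hν
  cases e : m.pi ν with
  | st _ _ _ _ => rfl
  | od μ =>
    rw [e] at h1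
    refine (limF_of_not_dom (fs_can hv m) fun hd => ?_).symm
    rcases dom_Fcan hd with h2 | ⟨ξ, rfl⟩
    · exact hs ⟨μ, h2, (pi_eq_small hv hν h2).1 e⟩
    · obtain ⟨g, g1, g2, rfl⟩ := pos_used hv h1
      obtain ⟨at', hat⟩ := fam_atoms hv g1 g2
      refine hu (g2.congr ((pi_eq_iff hv g1 hν).1 ?_))
      rw [e, pi_od g2.ordE, (pos_fam hv g1 g2 hat).1]

end UM

end Pool.Agent.P.MP_833f7a_lc
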