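import Pool.Agent.P.MP_833f7a_lc.PiL

/-!
Recognition of the basic operations.
-/

universe u v w

namespace Pool.Agent.P.MP_833f7a_lc

open Cardinal Ordinal Set Code Nm

namespace UM

variable {c : Cls.{u}} {κ : Ordinal.{u}} {m : UM c κ} {ν x y : Nm.{u} Ordinal.{u}}
  {z : Ordinal.{u}}

theorem RecOp_and {P Q : Str.{u} Ordinal.{u} → Prop} :
    (m.Ev fun R => P R ∧ Q R) ↔ m.Ev P ∧ m.Ev Q :=
  ⟨fun h => ⟨h.mono fun _ h => h.1, h.mono fun _ h => h.2⟩, fun h => h.1.and h.2⟩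

theorem RecOp_congr {P Q : Str.{u} Ordinal.{u} → Prop} (h : m.Ev fun R => P R ↔ Q R) :
    m.Ev P ↔ m.Ev Q :=
  ⟨fun h' => (h.and h').mono fun _ h => h.1.1 h.2, fun h' => (h.and h').mono fun _ h => h.1.2 h.2⟩

theorem RecOp_nat (hv : c.Valid κ) (n : ℕ) : (n : Ordinal.{u}) < c.γ :=
  ((natCast_lt_omega0 n).trans omega0_lt_omega_one).trans_le hv.1

theorem RecOp_zero (hv : c.Valid κ) (h : m.Adm ν) (e : m.Ev fun R => R.den ν 0 = od 0) :
    m.pi ν = od 0 :=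
  (pi_eq_small hv h (by simpa using RecOp_nat hv 0)).2 e

theorem RecOp_surj (hv : c.Valid κ) (hy : m.Adm y) {w : Code.{u}}
    (hw : El (Fcan c κ) w (m.pi y)) : ∃ n, m.Adm n ∧ m.pi n = w :=
  pi_surj hv (hw.isIn.mono (pi_in hv hy).lv_lt.le)

theorem RecOp_in (hv : c.Valid κ) (hx : m.Adm x) (hy : m.Adm y) (o : m.OrdE x) :
    (m.pi y).In (m.rk x) ↔ m.Ev fun R => ∃ a, R.den x 0 = od a ∧ (R.den y 0).In a := by
  rw [(pi_in hv hy).iff_lv, pi_lv hv hy, rk_lt_iff (hy.op _) hx (ordE_lv _) o]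
  refine RecOp_congr (((ev_in hy.okK).and o).mono fun R ⟨h1, a, h2⟩ => ?_)
  simp only [den_app, ev_op, opv, h2, el_od_od, od.injEq, exists_eq_left']
  exact (h1 0).iff_lv.symm

theorem el_rec (hv : c.Valid κ) (hz : m.RecLt z) (hx : m.Adm x) (hy : m.Adm y)
    (h : (m.pi y).lv < z) : El (Fcan c κ) (m.pi x) (m.pi y) ↔ m.ElE x y := by
  rcases exists_type (m := m) hv hy.okK with o | ⟨t, ht⟩
  · rw [pi_od o, el_od]
    constructor
    · rintro ⟨a, ha, e⟩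
      obtain ⟨ox, rfl⟩ := ordE_of_pi hv hx e
      exact (rk_lt_iff hx hy ox o).1 ha
    · exact fun e => ⟨_, rk_lt hx hy.okK e, pi_od (e.ordE o)⟩
  have hin := pi_in hv hy
  have hst : m.Ev fun R => ∃ a p q, R.den y 0 = st a t p q ∧ (st a t p q).In R.β :=
    (ht.and (ev_in hy.okK)).mono fun R ⟨⟨a, p, q, e⟩, h1⟩ => ⟨a, p, q, e, e ▸ h1 0⟩
  have ha : m.Lv (some (op1 .lv y)) := ⟨hy.op _, hst.mono fun R ⟨a, p, q, e, h1⟩ =>
    ⟨a, h1.1, by simp only [den_app, ev_op, opv, e, lv_st]⟩⟩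
  have hrec := hz _ ha (by rwa [← pi_lv hv hy]) t
  have hiff := pi_in_iff hv ha hx
  rw [pi_st hy ht] at hin ⊢
  rw [el_st hin]
  have hl : m.Adm (lst [x, op1 .q1 y, op1 .q2 y]) := adm_lst.2 (by
    simp only [List.mem_cons, List.not_mem_nil, or_false, forall_eq_or_imp, forall_eq]
    exact ⟨hx, hy.op _, hy.op _⟩)
  have key : (m.pi x).In (m.rk (op1 .lv y)) →
      (ev (Fcan c κ) t (m.rk (op1 .lv y)) (ofL [m.pi x, m.pi (op1 .q1 y), m.pi (op1 .q2 y)]) 0 = tt ↔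
        m.ElE x y) := fun hi => by
    have h1 := hiff.1 hi
    have hb : m.Below (some (op1 .lv y)) (lst [x, op1 .q1 y, op1 .q2 y]) :=
      (hst.and h1).mono fun R ⟨⟨a, p, q, e, h2⟩, h3⟩ => by
        simp only [Str.lvl, den_app, ev_op, opv, e, lv_st, lv_od] at h3 ⊢
        rw [den_lst]
        refine inE_ofL ?_ (omega0_pos.trans_le h2.1)
        simp only [List.map_cons, List.map_nil, List.mem_cons, List.not_mem_nil, or_false,
          forall_eq_or_imp, forall_eq, den_app, ev_op, opv, e, Code.q1, Code.q2]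
        exact ⟨h3, h2.2.2.1, h2.2.2.2⟩
    have h2 := congrFun (hrec _ hl hb) 0
    have h3 := low_adm ha hl (t := t) (fun h => nomatch h)
    rw [Pi_zero h3.okK, Pi_lst hv fun n hn => (adm_lst.1 hl n hn).okK] at h2
    simp only [List.map_cons, List.map_nil, lvs] at h2
    rw [← h2, pi_eq_tt hv h3]
    refine RecOp_congr (((den_LOW ha hb t).and (hst.and h1)).mono
      fun R ⟨h4, ⟨a, p, q, e, h5⟩, h6⟩ => ?_)
    simp only [Str.lvl, den_app, ev_op, opv, e, lv_st, lv_od] at h6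
    rw [Str.Tr, h4, den_lst, e, el_st h5]
    simp only [Str.lvl, List.map_cons, List.map_nil, den_app, ev_op, opv, e, lv_st, lv_od,
      Code.q1, Code.q2, h6, true_and]
  constructor
  · exact fun ⟨h1, h2⟩ => (key h1).1 h2
  · intro e
    have h1 : (m.pi x).In (m.rk (op1 .lv y)) := hiff.2 (e.mono fun R h => by
      simpa only [Str.lvl, den_app, ev_op, opv, lv_od] using h.isIn)
    exact ⟨h1, (key h1).2 e⟩

theorem RecOp_mem (hv : c.Valid κ) (hz : m.RecLt z) (hx : m.Adm x) (hy : m.Adm y)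
    (h' : (m.pi y).lv < z)
    (H : ∀ n, m.Adm n → (m.pi n).lv < (m.pi y).lv → (cl (Fcan c κ) (m.pi n) = cl (Fcan c κ) (m.pi x) ↔
      m.Ev fun R => cl R.F (R.den n 0) = cl R.F (R.den x 0))) :
    cl (Fcan c κ) (m.pi x) ∈ cl (Fcan c κ) (m.pi y) ↔
      m.Ev fun R => cl R.F (R.den x 0) ∈ cl R.F (R.den y 0) := by
  constructor
  · intro h
    obtain ⟨v, h1, h2⟩ := mem_cl.1 h
    obtain ⟨n, hn, rfl⟩ := RecOp_surj hv hy h1
    exact (((el_rec hv hz hn hy h').1 h1).and ((H n hn h1.lv_lt).1 h2)).mono fun R h =>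
      mem_cl.2 ⟨_, h.1, h.2⟩
  · intro h
    have hn : m.Adm (op2 .mat x y) := (adm_cons.2 ⟨hx, hy⟩).op _
    have h1 : m.Ev fun R => El R.F (R.den (op2 .mat x y) 0) (R.den y 0) ∧
        cl R.F (R.den (op2 .mat x y) 0) = cl R.F (R.den x 0) := h.mono fun R h => by
      simp only [den_app, ev_op, den_cons, ec_zero, ec_succ, opv_mat]
      exact (least_spec (P := fun w => El R.F w (R.den y 0) ∧ cl R.F w = cl R.F (R.den x 0))
        (fun w hw => ⟨_, hw.1.isIn⟩) (mem_cl.1 h)).1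
    have h2 := (el_rec hv hz hn hy h').2 (RecOp_and.1 h1).1
    exact mem_cl.2 ⟨_, h2, (H _ hn h2.lv_lt).2 (RecOp_and.1 h1).2⟩

theorem RecOp_sub (hv : c.Valid κ) (hz : m.RecLt z) (hx : m.Adm x) (hy : m.Adm y)
    (h : (m.pi x).lv < z)
    (H : ∀ n, m.Adm n → (m.pi n).lv < (m.pi x).lv → (cl (Fcan c κ) (m.pi n) ∈ cl (Fcan c κ) (m.pi y) ↔
      m.Ev fun R => cl R.F (R.den n 0) ∈ cl R.F (R.den y 0))) :
    cl (Fcan c κ) (m.pi x) ⊆ cl (Fcan c κ) (m.pi y) ↔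
      m.Ev fun R => cl R.F (R.den x 0) ⊆ cl R.F (R.den y 0) := by
  constructor
  · intro hs
    by_contra hc
    have hn : m.Adm (op2 .dif x y) := (adm_cons.2 ⟨hx, hy⟩).op _
    have h1 : m.Ev fun R => El R.F (R.den (op2 .dif x y) 0) (R.den x 0) ∧
        cl R.F (R.den (op2 .dif x y) 0) ∉ cl R.F (R.den y 0) := (ev_not.2 hc).mono fun R h => by
      simp only [den_app, ev_op, den_cons, ec_zero, ec_succ, opv_dif]
      refine (least_spec (P := fun w => El R.F w (R.den x 0) ∧ cl R.F w ∉ cl R.F (R.den y 0))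
        (fun w hw => ⟨_, hw.1.isIn⟩) ?_).1
      by_contra h2
      refine h fun s hs => ?_
      obtain ⟨w, h3, rfl⟩ := mem_cl.1 hs
      by_contra h4
      exact h2 ⟨w, h3, h4⟩
    have h2 := (el_rec hv hz hn hx h).2 (RecOp_and.1 h1).1
    exact ev_not.1 (RecOp_and.1 h1).2 ((H _ hn h2.lv_lt).1 (hs (mem_cl.2 ⟨_, h2, rfl⟩)))
  · intro hs s h1
    obtain ⟨w, h2, rfl⟩ := mem_cl.1 h1
    obtain ⟨n, hn, rfl⟩ := RecOp_surj hv hx h2
    exact (H n hn h2.lv_lt).2 ((hs.and ((el_rec hv hz hn hx h).1 h2)).mono fun R h =>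
      h.1 (mem_cl.2 ⟨_, h.2, rfl⟩))

theorem RecOp_ext {s t : ZFSet.{u}} : s = t ↔ s ⊆ t ∧ t ⊆ s :=
  ⟨fun h => h ▸ ⟨fun _ h => h, fun _ h => h⟩,
    fun h => ZFSet.ext fun _ => ⟨fun h' => h.1 h', fun h' => h.2 h'⟩⟩

theorem RecOp_eqv (hv : c.Valid κ) (hz : m.RecLt z) (b : Ordinal.{u}) : b < z → ∀ x y, m.Adm x →
    m.Adm y → (m.pi x).lv ≤ b → (m.pi y).lv ≤ b → (cl (Fcan c κ) (m.pi x) = cl (Fcan c κ) (m.pi y) ↔
      m.Ev fun R => cl R.F (R.den x 0) = cl R.F (R.den y 0)) := by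
  induction b using WellFoundedLT.induction with
  | ind b ih =>
    intro hb
    have key : ∀ x y, m.Adm x → m.Adm y → (m.pi x).lv ≤ b → (m.pi y).lv ≤ b →
        (cl (Fcan c κ) (m.pi x) ⊆ cl (Fcan c κ) (m.pi y) ↔
          m.Ev fun R => cl R.F (R.den x 0) ⊆ cl R.F (R.den y 0)) := fun x y hx hy h h' =>
      RecOp_sub hv hz hx hy (h.trans_lt hb) fun n hn h1 =>
        RecOp_mem hv hz hn hy (h'.trans_lt hb) fun n' hn' h2 =>
          have h3 : max (m.pi n').lv (m.pi n).lv < b := max_lt (h2.trans_le h') (h1.trans_le h)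
          ih _ h3 (h3.trans hb) n' n hn' hn (le_max_left _ _) (le_max_right _ _)
    intro x y hx hy h h'
    simp only [RecOp_ext (s := cl _ _)]
    rw [RecOp_and, key x y hx hy h h', key y x hy hx h' h]

theorem eqv_rec (hv : c.Valid κ) (hz : m.RecLt z) (hx : m.Adm x) (hy : m.Adm y)
    (h : (m.pi x).lv < z) (h' : (m.pi y).lv < z) :
    cl (Fcan c κ) (m.pi x) = cl (Fcan c κ) (m.pi y) ↔
      m.Ev fun R => cl R.F (R.den x 0) = cl R.F (R.den y 0) :=
  RecOp_eqv hv hz _ (max_lt h h') x y hx hy (le_max_left _ _) (le_max_right _ _)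

theorem mem_rec (hv : c.Valid κ) (hz : m.RecLt z) (hx : m.Adm x) (hy : m.Adm y)
    (h : (m.pi x).lv < z) (h' : (m.pi y).lv < z) :
    cl (Fcan c κ) (m.pi x) ∈ cl (Fcan c κ) (m.pi y) ↔
      m.Ev fun R => cl R.F (R.den x 0) ∈ cl R.F (R.den y 0) :=
  RecOp_mem hv hz hx hy h' fun _ hn h1 => eqv_rec hv hz hn hx (h1.trans h') h

theorem op_rec (hv : c.Valid κ) (hz : m.RecLt z) (h : m.Adm ν) (h0 : (m.Pi ν 0).lv < z)
    (h1 : (m.Pi ν 1).lv < z) (o : Op) :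
    m.pi (op1 o ν) = opv (El (Fcan c κ)) o (m.Pi ν 0) (m.Pi ν 1) := by
  have hx := h.ent 0
  have hy := h.ent 1
  have ho := h.op o
  have hd : ∀ R : Str.{u} Ordinal.{u}, R.den (op1 o ν) 0 =
      opv (El R.F) o (R.den (ent 0 ν) 0) (R.den (ent 1 ν) 0) := fun R => by
    rw [den_ent, den_ent]; rfl
  change (m.pi (ent 0 ν)).lv < z at h0
  change (m.pi (ent 1 ν)).lv < z at h1
  change _ = opv _ o (m.pi (ent 0 ν)) (m.pi (ent 1 ν))
  generalize ent 0 ν = x at *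
  generalize ent 1 ν = y at *
  generalize op1 o ν = n at *
  have hev : ∀ {P : Str.{u} Ordinal.{u} → Prop}, (∀ R, P R) → m.Ev P :=
    fun h => ev_of_forall fun _ => h _
  cases o with
  | zero => exact RecOp_zero hv ho (hev hd)
  | fst => exact pi_congr ho.okK hx.okK (hev hd)
  | eq => exact pi_bl hv ho (hev hd) (pi_eq_iff hv hx hy)
  | lt => exact pi_bl hv ho (hev hd) (pi_lt_iff hv hx hy)
  | nand =>
    refine pi_bl hv ho (hev hd) ?_
    rw [ev_not, RecOp_and, pi_eq_tt hv hx, pi_eq_tt hv hy]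
    rfl
  | lv =>
    have e : m.EqE n (op1 .lv x) := hev hd
    rw [pi_congr ho.okK (hx.op _).okK e, pi_od (ordE_lv _), ← pi_lv hv hx]
    rfl
  | nm =>
    rcases exists_type (m := m) hv hx.okK with o | ⟨t, ht⟩
    · rw [pi_od o]
      exact RecOp_zero hv ho (o.mono fun R ⟨a, e⟩ => by rw [hd, e]; rfl)
    · rw [pi_st hx ht]
      exact (pi_eq_small hv ho (RecOp_nat hv (t.num + 1))).2
        (ht.mono fun R ⟨a, p, q, e⟩ => by rw [hd, e]; rfl)
  | q1 =>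
    rcases exists_type (m := m) hv hx.okK with o | ⟨t, ht⟩
    · rw [pi_od o]
      exact RecOp_zero hv ho (o.mono fun R ⟨a, e⟩ => by rw [hd, e]; rfl)
    · rw [pi_st hx ht]
      exact pi_congr ho.okK (hx.op _).okK (hev hd)
  | q2 =>
    rcases exists_type (m := m) hv hx.okK with o | ⟨t, ht⟩
    · rw [pi_od o]
      exact RecOp_zero hv ho (o.mono fun R ⟨a, e⟩ => by rw [hd, e]; rfl)
    · rw [pi_st hx ht]
      exact pi_congr ho.okK (hx.op _).okK (hev hd)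
  | el => exact pi_bl hv ho (hev hd) (el_rec hv hz hx hy h1)
  | eqv => exact pi_bl hv ho (hev hd) (eqv_rec hv hz hx hy h0 h1)
  | dif =>
    rw [opv_dif]
    refine pi_least hv ho
      (Q := fun R w => El R.F w (R.den x 0) ∧ cl R.F w ∉ cl R.F (R.den y 0))
      (fun w hw => hw.1.isIn.mono (pi_in hv hx).lv_lt.le) (fun n' hn' => ?_)
      ((ev_in hx.okK).mono fun R hR => ⟨fun w hw => hw.1.isIn.mono (hR 0).lv_lt.le, by
        rw [hd, opv_dif]⟩)
    rw [RecOp_and, ev_not, ← ElE, ← el_rec hv hz hn' hx h0]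
    exact and_congr_right fun he => not_congr (mem_rec hv hz hn' hy (he.lv_lt.trans h0) h1)
  | mat =>
    rw [opv_mat]
    refine pi_least hv ho
      (Q := fun R w => El R.F w (R.den y 0) ∧ cl R.F w = cl R.F (R.den x 0))
      (fun w hw => hw.1.isIn.mono (pi_in hv hy).lv_lt.le) (fun n' hn' => ?_)
      ((ev_in hy.okK).mono fun R hR => ⟨fun w hw => hw.1.isIn.mono (hR 0).lv_lt.le, by
        rw [hd, opv_mat]⟩)
    rw [RecOp_and, ← ElE, ← el_rec hv hz hn' hy h1]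
    exact and_congr_right fun he => eqv_rec hv hz hn' hx (he.lv_lt.trans h1) h0

theorem mk_rec (hv : c.Valid κ) (h : m.Adm ν) (t : Trm) :
    m.pi (app (.mk t) ν) = mkc t (m.Pi ν 0) (m.Pi ν 1) (m.Pi ν 2) := by
  have hx := h.ent 0
  have hy := h.ent 1
  have hw := h.ent 2
  have ho : m.Adm (app (.mk t) ν) := h.app (Nat.zero_le _)
  have hd : ∀ R : Str.{u} Ordinal.{u}, R.den (app (.mk t) ν) 0 =
      mkc t (R.den (ent 0 ν) 0) (R.den (ent 1 ν) 0) (R.den (ent 2 ν) 0) := fun R => by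
    rw [den_ent, den_ent, den_ent]; rfl
  change _ = mkc t (m.pi (ent 0 ν)) (m.pi (ent 1 ν)) (m.pi (ent 2 ν))
  generalize ent 0 ν = x at *
  generalize ent 1 ν = y at *
  generalize ent 2 ν = w at *
  generalize app (.mk t) ν = n at *
  rcases exists_type (m := m) hv hx.okK with o | ⟨s, hs⟩
  · have key : ω ≤ m.rk x ∧ (m.pi y).In (m.rk x) ∧ (m.pi w).In (m.rk x) ↔
        m.Ev fun R => ∃ a, R.den x 0 = od a ∧ ω ≤ a ∧ (R.den y 0).In a ∧ (R.den w 0).In a := by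
      rw [RecOp_in hv hx hy o, RecOp_in hv hx hw o]
      constructor
      · rintro ⟨h1, h2, h3⟩
        refine ((lv_of_pi hv hx (pi_od o) h1).2.and (h2.and h3)).mono
          fun R ⟨⟨a, h4, e⟩, ⟨a', e', h5⟩, a'', e'', h6⟩ => ⟨a, e, h4, ?_, ?_⟩
        · rwa [od.inj (e.symm.trans e')]
        · rwa [od.inj (e.symm.trans e'')]
      · intro h1
        exact ⟨(lvs_bounds (a := some x) hv ⟨hx, h1.mono fun R ⟨a, e, h2, _⟩ => ⟨a, h2, e⟩⟩).1,
          h1.mono fun R ⟨a, e, _, h2, _⟩ => ⟨a, e, h2⟩, h1.mono fun R ⟨a, e, _, _, h2⟩ => ⟨a, e, h2⟩⟩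
    rw [pi_od o, mkc]
    split_ifs with hc
    · have h1 : m.Ev fun R => ∃ a, R.den x 0 = od a ∧ R.den n 0 = st a t (R.den y 0) (R.den w 0) :=
        (key.1 hc).mono fun R ⟨a, e, h2⟩ => ⟨a, e, by rw [hd, e, mkc, if_pos h2]⟩
      rw [pi_st ho (h1.mono fun R ⟨a, _, e⟩ => ⟨a, _, _, e⟩),
        rk_congr (ho.op _).okK hx.okK (h1.mono fun R ⟨a, e, e'⟩ => by
          simp only [den_app, ev_op, opv, e, e', lv_st]),
        pi_congr (ho.op .q1).okK hy.okK (h1.mono fun R ⟨a, e, e'⟩ => by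
          simp only [den_app, ev_op, opv, e', Code.q1]),
        pi_congr (ho.op .q2).okK hw.okK (h1.mono fun R ⟨a, e, e'⟩ => by
          simp only [den_app, ev_op, opv, e', Code.q2])]
    · refine RecOp_zero hv ho (((ev_not.2 (mt key.2 hc)).and o).mono fun R ⟨h1, a, e⟩ => ?_)
      rw [hd, e, mkc, if_neg fun h2 => h1 ⟨a, e, h2⟩]
  · rw [pi_st hx hs]
    exact RecOp_zero hv ho (hs.mono fun R ⟨a, p, q, e⟩ => by rw [hd, e]; rfl)

theorem cut_rec (hv : c.Valid κ) (h : m.Adm ν) : m.Pi (app .cut ν) = cutE (m.Pi ν) := by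
  funext i
  have hx := h.ent 0
  have hy := h.ent (i + 1)
  have ho : m.Adm (ent i (app .cut ν)) := (h.app (Nat.zero_le _)).ent i
  have hd : ∀ R : Str.{u} Ordinal.{u}, R.den (ent i (app .cut ν)) 0 =
      cutc (R.den (ent 0 ν) 0) (R.den (ent (i + 1) ν) 0) := fun R => by
    rw [den_ent, den_ent, den_ent]; rfl
  change m.pi (ent i (app .cut ν)) = cutc (m.pi (ent 0 ν)) (m.pi (ent (i + 1) ν))
  generalize ent 0 ν = x at *
  generalize ent (i + 1) ν = y at *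
  generalize ent i (app .cut ν) = n at *
  rcases exists_type (m := m) hv hx.okK with o | ⟨s, hs⟩
  · have key := RecOp_in hv hx hy o
    rw [pi_od o, cutc]
    split_ifs with hc
    · exact pi_congr ho.okK hy.okK ((key.1 hc).mono fun R ⟨a, e, h2⟩ => by
        rw [hd, e, cutc, if_pos h2])
    · refine RecOp_zero hv ho (((ev_not.2 (mt key.2 hc)).and o).mono fun R ⟨h1, a, e⟩ => ?_)
      rw [hd, e, cutc, if_neg fun h2 => h1 ⟨a, e, h2⟩]
  · rw [pi_st hx hs]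
    exact RecOp_zero hv ho (hs.mono fun R ⟨a, p, q, e⟩ => by rw [hd, e]; rfl)

end UM

end Pool.Agent.P.MP_833f7a_lc
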