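import Pool.Agent.P.MP_833f7a_lc.RecOp
import Pool.Agent.P.MP_833f7a_lc.RecLim

/-!
Recognition of all terms.
-/

universe u v w

namespace Pool.Agent.P.MP_833f7a_lc

open Cardinal Ordinal Set Code Nm

namespace UM

variable {c : Cls.{u}} {κ : Ordinal.{u}} {m : UM c κ} {a : Option (Nm.{u} Ordinal.{u})} {t : Trm}
  {ν : Nm.{u} Ordinal.{u}}

theorem RecTm_below_cons {n : Nm.{u} Ordinal.{u}}
    (hn : m.Ev fun R => (R.den n 0).In (R.lvl a)) (hb : m.Below a ν) : m.Below a (cons n ν) :=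
  (hn.and hb).mono fun _ h => inE_ec.2 h

theorem RecTm_below_LOW (ha : m.Lv a) (hb : m.Below a ν) (t : Trm) : m.Below a (LOW a t ν) :=
  (((den_LOW ha hb t).and (ev_lvl ha)).and hb).mono fun R h => by
    rw [h.1.1]
    exact MP_833f7a_lc.ev_in t h.1.2.1 h.2

theorem rec_eps (hv : c.Valid κ) (ha : m.Lv a) (ht : a = none → t.depth ≤ c.k) (h : m.Rec a t)
    (hν : m.Adm ν) (hb : m.Below a ν) (hok : OkK c κ (LOW a (.eps t) ν)) :
    m.Pi (LOW a (.eps t) ν) = ev (Fcan c κ) (.eps t) (m.lvs a) (m.Pi ν) := by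
  have hN : m.Adm (LOW a (.eps t) ν) := by
    cases a with
    | none => exact adm_app.2 ⟨hν, hok⟩
    | some a => exact adm_app.2 ⟨adm_cons.2 ⟨ha.1, hν⟩, hok⟩
  have hd := den_LOW ha hb (.eps t)
  rw [Pi_const hok (hd.mono fun R e i => by rw [e]; rfl), ev_eps]
  funext _
  refine pi_least hv hN
    (Q := fun R x => x.In (R.lvl a) ∧ ev R.F t (R.lvl a) (ec x (R.den ν)) 0 = tt)
    (fun x hx => hx.1.mono (lvs_bounds hv ha).2) (fun n hn => ?_)
    ((hd.and (ev_lvl ha)).mono fun R e => ⟨fun x hx => hx.1.mono e.2.2, by rw [e.1]; rfl⟩)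
  have key : (m.Ev fun R => (R.den n 0).In (R.lvl a)) →
      (ev (Fcan c κ) t (m.lvs a) (ec (m.pi n) (m.Pi ν)) 0 = tt ↔
        m.Ev fun R => ev R.F t (R.lvl a) (ec (R.den n 0) (R.den ν)) 0 = tt) := by
    intro hin
    have hc : m.Adm (cons n ν) := adm_cons.2 ⟨hn, hν⟩
    have hbc := RecTm_below_cons hin hb
    have hL := low_adm ha hc ht
    have h1 := h _ hc hbc
    rw [Pi_cons hn.okK hν.okK] at h1
    rw [← h1, Pi_zero hL.okK, pi_eq_tt hv hL]
    have h2 := den_LOW ha hbc t
    constructor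
    · intro h3
      exact (h2.and h3).mono fun R e => by
        have e2 : R.den (LOW a t (cons n ν)) 0 = tt := e.2
        rwa [e.1] at e2
    · intro h3
      exact (h2.and h3).mono fun R e => by
        change R.den (LOW a t (cons n ν)) 0 = tt
        rw [e.1]
        exact e.2
  constructor
  · rintro ⟨h1, h2⟩
    have hin := (pi_in_iff hv ha hn).1 h1
    exact hin.and ((key hin).1 h2)
  · intro h1
    have hin := h1.mono fun _ e => e.1
    exact ⟨(pi_in_iff hv ha hn).2 hin, (key hin).2 (h1.mono fun _ e => e.2)⟩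

theorem RecTm_low (hv : c.Valid κ) (ha : m.Lv a) (hz : m.RecLt (m.lvs a)) (t : Trm) :
    m.Rec a (.low t) := by
  intro ν hν hb
  have hN : m.Adm (LOW a (.low t) ν) := low_adm ha hν fun _ => Nat.zero_le _
  have hd := den_LOW ha hb (.low t)
  have ha' : m.Adm (ent 0 ν) := hν.ent 0
  have e0 : m.Pi ν 0 = m.pi (ent 0 ν) := rfl
  rw [ev_low]
  by_cases hc : m.Ev fun R => ∃ z, ω ≤ z ∧ R.den (ent 0 ν) 0 = od z
  · have hl : m.Lv (some (ent 0 ν)) := ⟨ha', hc⟩
    have hp : m.pi (ent 0 ν) = od (m.rk (ent 0 ν)) :=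
      pi_od (hc.mono fun _ ⟨z, _, e⟩ => ⟨z, e⟩)
    have hω : ω ≤ m.rk (ent 0 ν) := (lvs_bounds hv hl).1
    have hlt : m.rk (ent 0 ν) < m.lvs a := by
      have := hb.inE hv ha hν 0
      rwa [e0, hp] at this
    have hcut : m.Adm (app .cut ν) := hν.app (Nat.zero_le _)
    have hbc : m.Below (some (ent 0 ν)) (app .cut ν) := hc.mono fun R ⟨z, h1, e⟩ => by
      have e1 : R.lvl (some (ent 0 ν)) = z := by
        change (R.den (ent 0 ν) 0).lv = z
        rw [e]; rfl
      rw [e1]
      rw [den_ent] at e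
      exact inE_cutE e (omega0_pos.trans_le h1)
    have h1 := hz _ hl hlt t _ hcut hbc
    rw [cut_rec hv hν] at h1
    have hL : m.Adm (LOW (some (ent 0 ν)) t (app .cut ν)) :=
      low_adm hl hcut fun e => nomatch e
    rw [e0, hp, lowc, if_pos hω]
    refine (Pi_congr hN.okK hL.okK ?_).trans h1
    refine ((hd.and (den_LOW hl hbc t)).and hc).mono fun R ⟨⟨e1, e2⟩, z, h2, e⟩ => ?_
    have e3 : R.lvl (some (ent 0 ν)) = z := by
      change (R.den (ent 0 ν) 0).lv = z
      rw [e]; rfl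
    rw [den_ent] at e
    rw [e1, e2, e3, ev_low, e, lowc, if_pos h2]
    rfl
  · have h0 : (0 : Ordinal.{u}) < c.γ := (omega_pos 1).trans_le hv.1
    have hr : lowc (fun a => ev (Fcan c κ) t a (cutE (m.Pi ν))) (m.Pi ν 0) = fun _ => od 0 := by
      rw [e0]
      cases hp : m.pi (ent 0 ν) with
      | od z =>
        rw [lowc, if_neg]
        intro h1
        exact hc (lv_of_pi hv ha' hp h1).2
      | st _ _ _ _ => rfl
    rw [hr]
    funext i
    refine (pi_eq_small hv (hN.ent i) h0).2 ?_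
    refine (hd.and (ev_not.2 hc)).mono fun R ⟨e1, e2⟩ => ?_
    rw [den_ent, e1, ev_low]
    rw [den_ent] at e2
    cases hp : R.den ν 0 with
    | od z =>
      rw [lowc, if_neg]
      intro h1
      exact e2 ⟨z, h1, hp⟩
    | st _ _ _ _ => rfl

theorem rec_step (hv : c.Valid κ) (ha : m.Lv a) (hz : m.RecLt (m.lvs a)) (t : Trm)
    (ht : a = none → t.depth ≤ c.k) : m.Rec a t := by
  induction t with
  | id =>
    intro ν hν hb
    exact Pi_congr (low_adm ha hν ht).okK hν.okK (den_LOW ha hb .id)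
  | tl =>
    intro ν hν hb
    funext i
    refine pi_congr ((low_adm ha hν ht).ent i).okK (hν.ent (i + 1)).okK ?_
    exact (den_LOW ha hb .tl).mono fun R e => by rw [den_ent, den_ent, e]; rfl
  | cut =>
    intro ν hν hb
    exact (Pi_congr (low_adm ha hν ht).okK (hν.app (t := .cut) (Nat.zero_le _)).okK
      (den_LOW ha hb .cut)).trans (cut_rec hv hν)
  | op o =>
    intro ν hν hb
    have hi := hb.inE hv ha hν
    rw [Pi_congr (low_adm ha hν ht).okK (hν.op o).okK (den_LOW ha hb (.op o)),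
      Pi_const (hν.op o).okK (ev_of_forall fun _ _ => rfl),
      op_rec hv hz hν (hi 0).lv_lt (hi 1).lv_lt o, ev_op]
  | cons s t ih1 ih2 =>
    intro ν hν hb
    have hs : a = none → s.depth ≤ c.k := fun e => (le_max_left _ _).trans (ht e)
    have ht' : a = none → t.depth ≤ c.k := fun e => (le_max_right _ _).trans (ht e)
    have h1 := low_adm ha hν hs
    have h2 := low_adm ha hν ht'
    rw [ev_cons, ← ih1 hs ν hν hb, ← ih2 ht' ν hν hb, Pi_zero h1.okK, ← Pi_cons h1.okK h2.okK]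
    refine Pi_congr (low_adm ha hν ht).okK (adm_cons.2 ⟨h1, h2⟩).okK ?_
    exact (((den_LOW ha hb (.cons s t)).and (den_LOW ha hb s)).and (den_LOW ha hb t)).mono
      fun R e => by rw [den_cons, e.1.1, e.1.2, e.2, ev_cons]
  | comp s t ih1 ih2 =>
    intro ν hν hb
    have hs : a = none → s.depth ≤ c.k := fun e => (le_max_left _ _).trans (ht e)
    have ht' : a = none → t.depth ≤ c.k := fun e => (le_max_right _ _).trans (ht e)
    have h2 := low_adm ha hν ht'
    have hb2 := RecTm_below_LOW ha hb t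
    rw [ev_comp, ← ih2 ht' ν hν hb, ← ih1 hs _ h2 hb2]
    refine Pi_congr (low_adm ha hν ht).okK (low_adm ha h2 hs).okK ?_
    exact (((den_LOW ha hb (.comp s t)).and (den_LOW ha hb2 s)).and (den_LOW ha hb t)).mono
      fun R e => by rw [e.1.1, e.1.2, e.2, ev_comp]
  | mk t _ =>
    intro ν hν hb
    have h1 : m.Adm (app (.mk t) ν) := hν.app (Nat.zero_le _)
    rw [Pi_congr (low_adm ha hν ht).okK h1.okK (den_LOW ha hb (.mk t)),
      Pi_const h1.okK (ev_of_forall fun _ _ => rfl), mk_rec hv hν t, ev_mk]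
  | low t _ => exact RecTm_low hv ha hz t
  | eps t ih =>
    intro ν hν hb
    have ht' : a = none → t.depth ≤ c.k := fun e => (Nat.le_succ _).trans (ht e)
    exact rec_eps hv ha ht' (ih ht') hν hb (low_adm ha hν ht).okK
  | lim t ih => exact rec_lim hv ha ht (ih ht)

theorem recLt_all (hv : c.Valid κ) (z : Ordinal.{u}) : m.RecLt z := by
  induction z using WellFoundedLT.induction with
  | ind z ih =>
    intro a ha hlt t
    exact rec_step hv ha (ih _ hlt) t fun e => nomatch e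

theorem rec_app (hv : c.Valid κ) (h : m.Adm (app t ν)) :
    m.Pi (app t ν) = ev (Fcan c κ) t m.ht (m.Pi ν) := by
  obtain ⟨hν, hok⟩ := adm_app.1 h
  rcases (ok_app.1 hok).2 with h1 | ⟨ψ, rfl, h1, -⟩
  · exact rec_step (a := none) hv trivial (recLt_all hv _) t (fun _ => h1) ν hν
      (below_none hν.okK)
  · exact rec_eps (a := none) hv trivial (fun _ => h1)
      (rec_step (a := none) hv trivial (recLt_all hv _) ψ fun _ => h1) hν (below_none hν.okK) hok

end UM

end Pool.Agent.P.MP_833f7a_lc
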