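import Pool.Agent.P.MP_833f7a_lc.NmL

/-!
Correctness of the reduction.
-/

universe u v w

namespace Pool.Agent.P.MP_833f7a_lc

open Cardinal Ordinal Set Code Nm

variable {c : Cls.{u}} {κ : Ordinal.{u}} {d : RedD.{u}} {W : Set (Nm.{u} I2)} {R1 : Str.{u} ℕ}
  {R2 : Str.{u} I2}

theorem RedHyp.same (h : RedHyp c κ d W R1 R2) {n n' : Nm.{u} I2} (hn : OkK c κ n)
    (hn' : OkK c κ n') : Same W n n' ↔ R2.den n = R2.den n' := by
  have key : ∀ i, eqN (ent i n) (ent i n') ∈ W ↔ R2.den n i = R2.den n' i := by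
    intro i
    have hok : OkK c κ (eqN (ent i n) (ent i n')) :=
      ok_op.2 (ok_cons.2 ⟨ok_ent.2 hn, ok_ent.2 hn'⟩)
    rw [h.tr _ hok, tr_eqN, den_ent, den_ent]
  constructor
  · intro hs
    funext i
    exact (key i).1 (hs i)
  · intro he i
    exact (key i).2 (congrFun he i)

theorem RedC_ok_zero (h : RedHyp c κ d W R1 R2) : OkK c κ (cst 0 : Nm.{u} I2) :=
  ok_cst.2 h.pos

theorem RedC_den_zero (h : RedHyp c κ d W R1 R2) :
    R2.den (cst 0 : Nm.{u} I2) = fun _ => od 0 := by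
  rw [den_cst, h.cv0]

theorem RedC_den_fst (R : Str.{u} I2) (n : Nm.{u} I2) :
    R.den (op1 .fst n) = fun _ => R.den n 0 := rfl

/-- Membership in `W` of a term applied to two names. -/
theorem RedC_mem_app (h : RedHyp c κ d W R1 R2) {ψ : Trm} (hψ : ψ.depth ≤ c.k)
    {n1 n : Nm.{u} I2} (h1 : OkK c κ n1) (hn : OkK c κ n) :
    app ψ (cons n n1) ∈ W ↔ ev R2.F ψ R2.β (ec (R2.den n 0) (R2.den n1)) 0 = tt := by
  have hok : OkK c κ (app ψ (cons n n1)) := (ok_cons.2 ⟨hn, h1⟩).app hψ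
  rw [h.tr _ hok]
  rfl

theorem RedC_mem_lt (h : RedHyp c κ d W R1 R2) {n n' : Nm.{u} I2} (hn : OkK c κ n)
    (hn' : OkK c κ n') : ltN n n' ∈ W ↔ (R2.den n 0).Lt (R2.den n' 0) := by
  have hok : OkK c κ (ltN n n') := ok_op.2 (ok_cons.2 ⟨hn, hn'⟩)
  rw [h.tr _ hok, tr_ltN]

/-- The term that says: `ψ` holds after dropping entry `1`, and entry `0` is below entry `1`. -/
def RedC_trm (ψ : Trm) : Trm :=
  .comp (.op .nand)
    (.cons (.comp (.op .nand) (.cons (.comp ψ (.cons .id (Trm.tls 2))) (.op .lt)))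
      (.comp (.op .nand) (.cons (.comp ψ (.cons .id (Trm.tls 2))) (.op .lt))))

theorem RedC_trm_depth (ψ : Trm) : (RedC_trm ψ).depth = ψ.depth := by
  simp [RedC_trm, Trm.depth]

theorem RedC_trm_ev (F : FSys.{u}) (ψ : Trm) (b : Ordinal.{u}) (x y : Code.{u}) (e : CE.{u}) :
    ev F (RedC_trm ψ) b (ec x (ec y e)) 0 = tt ↔ ev F ψ b (ec x e) 0 = tt ∧ x.Lt y := by
  have h1 : ev F (.comp (.op .nand) (.cons (.comp ψ (.cons .id (Trm.tls 2))) (.op .lt))) b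
      (ec x (ec y e)) 0 = bl (¬ (ev F ψ b (ec x e) 0 = tt ∧ x.Lt y)) := by
    rw [← ev_drop2 (y := y) ψ]
    show bl (¬ (_ = tt ∧ bl (x.Lt y) = tt)) = _
    rw [bl_eq_tt]
    rfl
  show bl (¬ (ev F (.comp (.op .nand) (.cons (.comp ψ (.cons .id (Trm.tls 2))) (.op .lt))) b
      (ec x (ec y e)) 0 = tt ∧
    ev F (.comp (.op .nand) (.cons (.comp ψ (.cons .id (Trm.tls 2))) (.op .lt))) b
      (ec x (ec y e)) 0 = tt)) = tt ↔ _
  rw [h1, bl_eq_tt, bl_eq_tt, and_self, not_not]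

/-- The least witness has a name. -/
theorem RedC_least_named (h : RedHyp c κ d W R1 R2) {ψ : Trm} (hψ : ψ.depth ≤ c.k)
    {n1 : Nm.{u} I2} (h1 : OkK c κ n1)
    (hex : ∃ x : Code.{u}, x.In R2.β ∧ ev R2.F ψ R2.β (ec x (R2.den n1)) 0 = tt) :
    ∃ n0, OkK c κ n0 ∧ R2.den n0 0 =
      least fun x => x.In R2.β ∧ ev R2.F ψ R2.β (ec x (R2.den n1)) 0 = tt := by
  obtain ⟨x, hx, hxt⟩ := hex
  obtain ⟨m, hm, hmt⟩ := h.elem ψ hψ n1 h1 x hx hxt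
  obtain ⟨⟨n0, hn0, hv, ht⟩, hmin⟩ := least_spec
    (P := fun z => ∃ n0, OkK c κ n0 ∧ R2.den n0 0 = z ∧
      ev R2.F ψ R2.β (ec z (R2.den n1)) 0 = tt)
    (fun z ⟨n0, hn0, hv, _⟩ => ⟨R2.β, hv ▸ h.in2 n0 hn0 0⟩) ⟨_, m, hm, rfl, hmt⟩
  rw [← hv] at ht hmin
  refine ⟨n0, hn0, (least_eq ⟨h.in2 n0 hn0 0, ht⟩ ?_).symm⟩
  rintro y ⟨hy, hyt⟩ hlt
  obtain ⟨m', hm', hm't⟩ := h.elem (RedC_trm ψ) ((RedC_trm_depth ψ).trans_le hψ) (cons n0 n1)
    (ok_cons.2 ⟨hn0, h1⟩) y hy (by rw [den_cons, RedC_trm_ev]; exact ⟨hyt, hlt⟩)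
  rw [den_cons, RedC_trm_ev] at hm't
  exact hmin _ ⟨m', hm', rfl, hm't.1⟩ hm't.2

theorem RedHyp.epsB (h : RedHyp c κ d W R1 R2) {ψ : Trm} (hψ : ψ.depth ≤ c.k) {n1 : Nm.{u} I2}
    (h1 : OkK c κ n1) :
    (∃ n, OkK c κ n ∧ R2.den n = ev R2.F (.eps ψ) R2.β (R2.den n1)) ∧
      ∀ n, OkK c κ n → (EpsB c κ W ψ n1 n ↔ R2.den n = ev R2.F (.eps ψ) R2.β (R2.den n1)) := by
  rw [ev_eps]
  by_cases hex : ∃ x : Code.{u}, x.In R2.β ∧ ev R2.F ψ R2.β (ec x (R2.den n1)) 0 = tt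
  · obtain ⟨m, hm, hmv⟩ := RedC_least_named h hψ h1 hex
    obtain ⟨hP, hmin⟩ := least_spec (fun x hx => ⟨R2.β, hx.1⟩) hex
    rw [← hmv] at hP hmin ⊢
    refine ⟨⟨op1 .fst m, ok_op.2 hm, RedC_den_fst R2 m⟩, fun n hn => ⟨?_, ?_⟩⟩
    · rintro (⟨n0, hn0, hw, hl, hs⟩ | ⟨hno, _⟩)
      · have e1 : ¬ (R2.den m 0).Lt (R2.den n0 0) := fun hlt =>
          hl m hm ((RedC_mem_app h hψ h1 hm).2 hP.2) ((RedC_mem_lt h hm hn0).2 hlt)
        have e2 : ¬ (R2.den n0 0).Lt (R2.den m 0) :=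
          hmin _ ⟨h.in2 n0 hn0 0, (RedC_mem_app h hψ h1 hn0).1 hw⟩
        have e3 : R2.den n0 0 = R2.den m 0 :=
          ((Code.lt_trichotomy _ _).resolve_left e2).resolve_right e1
        rw [(h.same hn (ok_op.2 hn0)).1 hs, RedC_den_fst, e3]
      · exact absurd ((RedC_mem_app h hψ h1 hm).2 hP.2) (hno m hm)
    · intro he
      refine Or.inl ⟨m, hm, (RedC_mem_app h hψ h1 hm).2 hP.2, fun n' hn' hw hlt => ?_,
        (h.same hn (ok_op.2 hm)).2 (he.trans (RedC_den_fst R2 m).symm)⟩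
      exact hmin _ ⟨h.in2 n' hn' 0, (RedC_mem_app h hψ h1 hn').1 hw⟩
        ((RedC_mem_lt h hn' hm).1 hlt)
  · rw [least_of_not hex]
    have hno : ∀ n', OkK c κ n' → app ψ (cons n' n1) ∉ W := fun n' hn' hw =>
      hex ⟨_, h.in2 n' hn' 0, (RedC_mem_app h hψ h1 hn').1 hw⟩
    refine ⟨⟨cst 0, RedC_ok_zero h, RedC_den_zero h⟩, fun n hn => ⟨?_, ?_⟩⟩
    · rintro (⟨n0, hn0, hw, _⟩ | ⟨_, hs⟩)
      · exact absurd hw (hno n0 hn0)
      · exact ((h.same hn (RedC_ok_zero h)).1 hs).trans (RedC_den_zero h)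
    · intro he
      exact Or.inr ⟨hno, (h.same hn (RedC_ok_zero h)).2 (he.trans (RedC_den_zero h).symm)⟩

/-- A name with the right value settles a clause of the form `Same W n n0`. -/
theorem RedC_of_name (h : RedHyp c κ d W R1 R2) {n0 : Nm.{u} I2} (h0 : OkK c κ n0) {e : CE.{u}}
    (he : R2.den n0 = e) :
    (∃ n, OkK c κ n ∧ R2.den n = e) ∧ ∀ n, OkK c κ n → (Same W n n0 ↔ R2.den n = e) :=
  ⟨⟨n0, h0, he⟩, fun _ hn => he ▸ h.same hn h0⟩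

theorem RedC_ok_np (h : RedHyp c κ d W R1 R2) (i : ℕ) : OkK c κ (d.np.getD i (cst 0)) := by
  rw [List.getD_eq_getElem?_getD]
  cases hi : d.np[i]? with
  | none => exact RedC_ok_zero h
  | some n => exact h.valid.2 n (List.mem_of_getElem? hi)

theorem RedC_U (h : RedHyp c κ d W R1 R2) {μ : Ordinal.{u}} (hμ : R1.U μ) : R2.U μ :=
  ⟨h.mu ▸ hμ.1, hμ.2.1.trans_le h.le, h.F ▸ hμ.2.2⟩

/-- The side condition in the clause for upper atoms. -/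
theorem RedC_cond (h : RedHyp c κ d W R1 R2) {g : Nm.{u} ℕ} (hg : OkK c κ g) {n1 : Nm.{u} I2}
    (h1 : OkK c κ n1) (he : R2.den n1 = R1.den g) :
    (c.hb ∧ uN n1 ∈ W ∧ (d.strict → elN n1 d.nb ∈ W)) ↔ ∃ μ, R1.den g 0 = od μ ∧ R1.U μ := by
  have hok : OkK c κ (uN n1) := by
    have h2 : OkK c κ (op2 .nand (elN (par 0) n1) (domN n1)) :=
      ok_op.2 (ok_cons.2 ⟨ok_op.2 (ok_cons.2 ⟨ok_par, h1⟩), ok_domN.2 h1⟩)
    exact ok_op.2 (ok_cons.2 ⟨h2, h2⟩)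
  constructor
  · rintro ⟨hb, hu, _⟩
    rw [h.tr _ hok, tr_uN h.fs (h.p0 (h.hb2.1 hb)) (h.in2 n1 h1 0), he] at hu
    obtain ⟨μ, hμ, hU⟩ := hu
    have hlt : μ < R1.β := by
      have := h.in1 g hg 0
      rwa [hμ] at this
    exact ⟨μ, hμ, h.mu ▸ hU.1, hlt, h.F ▸ hU.2.2⟩
  · rintro ⟨μ, hμ, hU⟩
    have hb : c.hb := h.hb1.2 (hU.1.trans hU.2.1)
    refine ⟨hb, ?_, fun hs => ?_⟩
    · rw [h.tr _ hok, tr_uN h.fs (h.p0 (h.hb2.1 hb)) (h.in2 n1 h1 0), he]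
      exact ⟨μ, hμ, RedC_U h hU⟩
    · have hok2 : OkK c κ (elN n1 d.nb) := ok_op.2 (ok_cons.2 ⟨h1, h.valid.1⟩)
      rw [h.tr _ hok2, tr_elN, he, hμ, h.nb hs, el_od_od]
      exact hU.2.1

theorem RedHyp.redB (h : RedHyp c κ d W R1 R2) {ν : Nm.{u} ℕ} (hν : OkK c κ ν) :
    (∃ n, OkK c κ n ∧ R2.den n = R1.den ν) ∧
      ∀ n, OkK c κ n → (RedB c κ d W ν n ↔ R2.den n = R1.den ν) := by
  induction ν with
  | lf x =>
    cases x with
    | inl ξ =>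
      have hξ : ξ < κ := ok_cst.1 hν
      refine RedC_of_name h (n0 := cst ξ) (ok_cst.2 hξ) ?_
      rw [den_cst, ← h.cv ξ hξ]
      rfl
    | inr i =>
      refine RedC_of_name h (n0 := op1 .fst (d.np.getD i (cst 0))) (ok_op.2 (RedC_ok_np h i)) ?_
      rw [RedC_den_fst, h.np i]
      rfl
  | b j =>
    refine RedC_of_name h (n0 := b (toLex (d.m + j, 0))) (ok_b.2 (mem_univ _)) ?_
    by_cases hb : c.hb
    · rw [den_b_of_lt (h.hb2.1 hb), den_b_of_lt (h.hb1.1 hb),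
        h.e R1.μ0 (Or.inl ⟨rfl, h.hb1.1 hb⟩) j, h.mu]
    · rw [den_b_of_not (fun hl => hb (h.hb2.2 hl)), den_b_of_not (fun hl => hb (h.hb1.2 hl))]
  | u j g ih =>
    have hg : OkK c κ g := (ok_u.1 hν).2.2
    obtain ⟨⟨m, hm, hme⟩, ih2⟩ := ih hg
    by_cases hc : ∃ μ, R1.den g 0 = od μ ∧ R1.U μ
    · obtain ⟨μ, hμ, hU⟩ := hc
      have hU2 : R2.U μ := RedC_U h hU
      have hval : ∀ g1 : Nm.{u} I2, R2.den g1 0 = od μ →
          R2.den (u (toLex (d.m + j, 0)) g1) = R1.den (u j g) := fun g1 hg1 => by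
        rw [den_u_of_U hg1 hU2, den_u_of_U hμ hU, h.e μ (Or.inr hU) j]
      obtain ⟨g1, hg1, hT, hg1v⟩ := h.short m hm μ hU2 (by rw [hme, hμ])
      have hok1 : OkK c κ (u (toLex (d.m + j, 0)) g1) := ok_u.2 ⟨mem_univ _, hT, hg1⟩
      refine ⟨⟨_, hok1, hval g1 hg1v⟩, fun n hn => ⟨?_, fun he => ?_⟩⟩
      · rintro ⟨n1, h1, hr, ⟨_, g2, hg2, hT2, heq, hs⟩ | ⟨hnc, _⟩⟩
        · have he1 := (ih2 n1 h1).1 hr
          rw [h.tr _ (ok_op.2 (ok_cons.2 ⟨hg2, h1⟩)), tr_eqN, he1, hμ] at heq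
          exact ((h.same hn (ok_u.2 ⟨mem_univ _, hT2, hg2⟩)).1 hs).trans (hval g2 heq)
        · exact absurd ((RedC_cond h hg h1 ((ih2 n1 h1).1 hr)).2 ⟨μ, hμ, hU⟩) hnc
      · refine ⟨m, hm, (ih2 m hm).2 hme, Or.inl ⟨(RedC_cond h hg hm hme).2 ⟨μ, hμ, hU⟩,
          g1, hg1, hT, ?_, (h.same hn hok1).2 (he.trans (hval g1 hg1v).symm)⟩⟩
        rw [h.tr _ (ok_op.2 (ok_cons.2 ⟨hg1, hm⟩)), tr_eqN, hme, hμ, hg1v]
    · have hval : R2.den (cst 0 : Nm.{u} I2) = R1.den (u j g) := by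
        rw [RedC_den_zero h, den_u_of_not hc]
      refine ⟨⟨_, RedC_ok_zero h, hval⟩, fun n hn => ⟨?_, fun he => ?_⟩⟩
      · rintro ⟨n1, h1, hr, ⟨hcond, _⟩ | ⟨_, hs⟩⟩
        · exact absurd ((RedC_cond h hg h1 ((ih2 n1 h1).1 hr)).1 hcond) hc
        · exact ((h.same hn (RedC_ok_zero h)).1 hs).trans hval
      · exact ⟨m, hm, (ih2 m hm).2 hme, Or.inr ⟨fun hcond => hc ((RedC_cond h hg hm hme).1 hcond),
          (h.same hn (RedC_ok_zero h)).2 (he.trans hval.symm)⟩⟩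
  | app t ν ih =>
    obtain ⟨hν1, ht⟩ := ok_app.1 hν
    obtain ⟨⟨m, hm, hme⟩, ih2⟩ := ih hν1
    have key : ∀ n1, OkK c κ n1 → R2.den n1 = R1.den ν →
        (∃ n, OkK c κ n ∧ R2.den n = R1.den (app t ν)) ∧ ∀ n, OkK c κ n →
          ((d.strict ∧ Same W n (app (.low t) (cons d.nb n1)) ∨
            ¬ d.strict ∧ t.depth ≤ c.k ∧ Same W n (app t n1) ∨
            ¬ d.strict ∧ ¬ t.depth ≤ c.k ∧ ∃ ψ, t = .eps ψ ∧ EpsB c κ W ψ n1 n) ↔
          R2.den n = R1.den (app t ν)) := by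
      intro n1 h1 he1
      by_cases hs : d.strict
      · obtain ⟨a1, a2⟩ := RedC_of_name h (n0 := app (.low t) (cons d.nb n1))
          (ok_low.2 (ok_cons.2 ⟨h.valid.1, h1⟩)) (e := R1.den (app t ν)) (by
            rw [den_app, den_cons, h.nb hs, he1, ev_low_od t h.om (h.in1 ν hν1), den_app, h.F])
        refine ⟨a1, fun n hn => ?_⟩
        rw [← a2 n hn]
        simp only [hs, true_and, not_true, false_and, or_false]
      · have hβ : R1.β = R2.β := h.le.antisymm (not_lt.1 fun hl => hs (h.strict.2 hl))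
        have hden : R1.den (app t ν) = ev R2.F t R2.β (R2.den n1) := by
          rw [den_app, h.F, hβ, he1]
        by_cases hd : t.depth ≤ c.k
        · obtain ⟨a1, a2⟩ := RedC_of_name h (n0 := app t n1) (h1.app hd)
            (e := R1.den (app t ν)) hden.symm
          refine ⟨a1, fun n hn => ?_⟩
          rw [← a2 n hn]
          simp only [hs, hd, true_and, not_true, false_and, or_false, false_or, not_false_iff,
            and_false]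
        · obtain ⟨ψ, rfl, hψ, _⟩ := ht.resolve_left hd
          obtain ⟨a1, a2⟩ := h.epsB hψ h1
          rw [hden]
          refine ⟨a1, fun n hn => ?_⟩
          rw [← a2 n hn]
          constructor
          · rintro (⟨h', _⟩ | ⟨_, h', _⟩ | ⟨_, _, ψ', h', hE⟩)
            · exact absurd h' hs
            · exact absurd h' hd
            · cases h'
              exact hE
          · intro hE
            exact Or.inr (Or.inr ⟨hs, hd, ψ, rfl, hE⟩)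
    refine ⟨(key m hm hme).1, fun n hn => ⟨?_, fun he => ?_⟩⟩
    · rintro ⟨n1, h1, hr, hcl⟩
      exact ((key n1 h1 ((ih2 n1 h1).1 hr)).2 n hn).1 hcl
    · exact ⟨m, hm, (ih2 m hm).2 hme, ((key m hm hme).2 n hn).2 he⟩
  | cons ν ν' ih ih' =>
    obtain ⟨hν1, hν2⟩ := ok_cons.1 hν
    obtain ⟨⟨m, hm, hme⟩, ih2⟩ := ih hν1
    obtain ⟨⟨m', hm', hme'⟩, ih2'⟩ := ih' hν2
    have hval : ∀ n1 n2 : Nm.{u} I2, R2.den n1 = R1.den ν → R2.den n2 = R1.den ν' →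
        R2.den (cons n1 n2) = R1.den (cons ν ν') := fun n1 n2 e1 e2 => by
      rw [den_cons, den_cons, e1, e2]
    refine ⟨⟨_, ok_cons.2 ⟨hm, hm'⟩, hval m m' hme hme'⟩, fun n hn => ⟨?_, fun he => ?_⟩⟩
    · rintro ⟨n1, n2, h1, h2, hr1, hr2, hs⟩
      exact ((h.same hn (ok_cons.2 ⟨h1, h2⟩)).1 hs).trans
        (hval n1 n2 ((ih2 n1 h1).1 hr1) ((ih2' n2 h2).1 hr2))
    · exact ⟨m, m', hm, hm', (ih2 m hm).2 hme, (ih2' m' hm').2 hme',
        (h.same hn (ok_cons.2 ⟨hm, hm'⟩)).2 (he.trans (hval m m' hme hme').symm)⟩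

theorem RedHyp.red (h : RedHyp c κ d W R1 R2) {ν : Nm.{u} ℕ} (hν : OkK c κ ν) :
    R1.Tr ν ↔ Red c κ d W ν := by
  obtain ⟨⟨m, hm, hme⟩, h2⟩ := h.redB hν
  constructor
  · intro ht
    refine ⟨m, hm, (h2 m hm).2 hme, (h.tr m hm).2 ?_⟩
    show R2.den m 0 = tt
    rw [hme]
    exact ht
  · rintro ⟨n, hn, hr, hw⟩
    have := (h.tr n hn).1 hw
    show R1.den ν 0 = tt
    rw [← (h2 n hn).1 hr]
    exact this

end Pool.Agent.P.MP_833f7a_lc
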