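import Mathlib.Combinatorics.Colex
import Mathlib.Data.Finsupp.WellFounded
import Pool.Agent.Lib.Forcing.Uniform
import Pool.Agent.P.MP_833f7a_lc.FewL

/-!
From uniform definability to `Σ₁` definitions; hereditarily small parameters.
-/

universe u v w

namespace Pool.Agent.P.MP_833f7a_lc

open Cardinal Set ZFSet Pool.Agent.Lib.Forcing

/-- Relativise all quantifiers to the variable `k`. -/
def SigA_rel : Fml → ℕ → Fml
  | .mem i j, _ => .mem i j
  | .eq i j, _ => .eq i j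
  | .neg φ, k => .neg (SigA_rel φ k)
  | .and φ ψ, k => .and (SigA_rel φ k) (SigA_rel ψ k)
  | .all φ, k => .all (.neg (.and (.mem 0 (k + 1)) (.neg (SigA_rel φ (k + 1)))))

theorem SigA_rel_bounded (φ : Fml) : ∀ k, Bounded (SigA_rel φ k) := by
  induction φ with
  | mem i j => intro k; exact .mem i j
  | eq i j => intro k; exact .eq i j
  | neg φ ih => intro k; exact .neg (ih k)
  | and φ ψ ih1 ih2 => intro k; exact .and (ih1 k) (ih2 k)
  | all φ ih => intro k; exact .ball k (ih (k + 1))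

theorem SigA_sat_ball (i : ℕ) (φ : Fml) (e : Env.{u}) :
    Sat univ (.all (.neg (.and (.mem 0 (i + 1)) (.neg φ)))) e ↔
      ∀ x ∈ e i, Sat univ φ (cons x e) := by
  simp only [Sat, mem_univ, true_imp_iff, cons_zero, cons_succ, not_and, not_not]

theorem SigA_sat_rel (φ : Fml) : ∀ (k : ℕ) (e : Env.{u}),
    Sat univ (SigA_rel φ k) e ↔ Sat {x | x ∈ e k} φ e := by
  induction φ with
  | mem i j => intro k e; rfl
  | eq i j => intro k e; rfl
  | neg φ ih => intro k e; simp only [SigA_rel, Sat, ih]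
  | and φ ψ ih1 ih2 => intro k e; simp only [SigA_rel, Sat, ih1, ih2]
  | all φ ih =>
    intro k e
    rw [SigA_rel, SigA_sat_ball]
    simp only [ih, cons_succ]
    rfl

theorem SigA_empty_mem {T : ZFSet.{u}} (hT : T.IsTransitive) : ∀ x, x ∈ T → ∅ ∈ T := by
  intro x
  induction x using ZFSet.inductionOn with
  | h x ih =>
    intro hx
    rcases ZFSet.eq_empty_or_nonempty x with rfl | ⟨y, hy⟩
    · exact hx
    · exact ih y hy (hT x hx hy)

theorem SigA_trans {T x : ZFSet.{u}} (hT : T.IsTransitive) (hx : x ∈ T) :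
    Trans {y | y ∈ T} := ⟨fun y hy _ hz => hT y hy hz, SigA_empty_mem hT x hx⟩

/-- The renaming that skips variable `1`. -/
def SigA_skip : ℕ → ℕ
  | 0 => 0
  | n + 1 => n + 2

/-- An absolute relation of `w, x, p, κ` gives a `Σ₁` set. -/
theorem sigma1_of_udf (κ : Cardinal.{u}) (R : ZFSet.{u} → ZFSet.{u} → ZFSet.{u} → ZFSet.{u} → Prop)
    [h : UDf.{u} fun _ e => R (e 0) (e 1) (e 2) (e 3)] {p : ZFSet.{u}}
    (hp : ∃ T : ZFSet.{u}, T.IsTransitive ∧ p ∈ T ∧ T.card < κ) :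
    Sigma1Def κ {x | ∃ w, R w x p κ.ord.toZFSet} := by
  obtain ⟨φ, hφ⟩ := h.out
  set k := κ.ord.toZFSet with hk
  refine ⟨.and (.all (.neg (.and (.mem 0 (0 + 1)) (.neg
      (.all (.neg (.and (.mem 0 (0 + 1)) (.neg (.mem 0 2)))))))))
    (.and (.mem 1 0) (.and (.mem 2 0) (.and (.mem 3 0) (.neg (.all (.neg (.and (.mem 0 (0 + 1))
      (.neg (.neg (SigA_rel (φ.rename SigA_skip) 1)))))))))), p, ?_, hp, fun x => ?_⟩
  · exact .and (.ball 0 (.ball 0 (.mem 0 2))) (.and (.mem 1 0) (.and (.mem 2 0) (.and (.mem 3 0)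
      (.neg (.ball 0 (.neg (SigA_rel_bounded _ 1)))))))
  have key : ∀ W w : ZFSet.{u}, W.IsTransitive → w ∈ W → x ∈ W → p ∈ W → k ∈ W →
      (Sat univ (SigA_rel (φ.rename SigA_skip) 1)
        (cons w (cons W (cons x (cons p fun _ => k)))) ↔ R w x p k) := by
    intro W w hW hw hx hpW hkW
    rw [SigA_sat_rel, sat_rename]
    have e1 : (fun i => cons w (cons W (cons x (cons p fun _ => k))) (SigA_skip i)) =
        cons w (cons x (cons p fun _ => k)) := by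
      funext i; cases i <;> rfl
    rw [e1]
    exact (hφ {y | y ∈ W} (SigA_trans hW hx) (cons w (cons x (cons p fun _ => k)))
      (cons_mem hw (cons_mem hx (cons_mem hpW fun _ => hkW)))).symm
  have un : ∀ W : ZFSet.{u}, Sat univ (.and (.all (.neg (.and (.mem 0 (0 + 1)) (.neg
      (.all (.neg (.and (.mem 0 (0 + 1)) (.neg (.mem 0 2)))))))))
    (.and (.mem 1 0) (.and (.mem 2 0) (.and (.mem 3 0) (.neg (.all (.neg (.and (.mem 0 (0 + 1))
      (.neg (.neg (SigA_rel (φ.rename SigA_skip) 1))))))))))) (cons W (cons x (cons p fun _ => k))) ↔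
      (W.IsTransitive ∧ x ∈ W ∧ p ∈ W ∧ k ∈ W ∧ ∃ w ∈ W, Sat univ (SigA_rel (φ.rename SigA_skip) 1)
        (cons w (cons W (cons x (cons p fun _ => k))))) := by
    intro W
    refine and_congr ((SigA_sat_ball 0 _ _).trans (forall_congr' fun y => forall_congr' fun _ =>
      SigA_sat_ball 0 _ _)) (and_congr Iff.rfl (and_congr Iff.rfl (and_congr Iff.rfl
        ((not_congr (SigA_sat_ball 0 _ _)).trans ?_))))
    simp only [Sat, cons_zero, not_forall, not_not, exists_prop]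
  refine Iff.trans ?_ (exists_congr un).symm
  constructor
  · rintro ⟨w, hw⟩
    set a : Ordinal.{u} := max (max w.rank x.rank) (max p.rank k.rank) + 1 with ha
    have h1 : ∀ y : ZFSet.{u}, y.rank ≤ max (max w.rank x.rank) (max p.rank k.rank) →
        y ∈ vonNeumann a := fun y hy => mem_vonNeumann.2 (Order.lt_add_one_iff.2 hy)
    have hw' := h1 w (by simp)
    have hx' := h1 x (by simp)
    have hp' := h1 p (by simp)
    have hk' := h1 k (by simp)
    exact ⟨vonNeumann a, isTransitive_vonNeumann a, hx', hp', hk', w, hw',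
      (key _ w (isTransitive_vonNeumann a) hw' hx' hp' hk').2 hw⟩
  · rintro ⟨W, hW, hx, hpW, hkW, w, hw, H⟩
    exact ⟨w, (key W w hW hw hx hpW hkW).1 H⟩

theorem SigA_inacc {κ : Cardinal.{u}} (hκ : Inacc κ.ord) : IsInaccessible κ := by
  obtain ⟨⟨h1, h2, -⟩, h4⟩ := hκ
  rw [card_ord] at h1 h2
  refine ⟨h1, h2.2, fun c hc => ?_⟩
  have h5 := h4 c.ord (ord_lt_ord.2 hc)
  rw [Few, mk_set, mk_Iio_ordinal, card_ord, card_ord] at h5
  have h6 : Cardinal.lift.{u} (2 ^ Cardinal.lift.{u + 1} c) =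
      Cardinal.lift.{u + 1} (2 ^ c) := by simp
  rw [h6] at h5
  exact lift_lt.1 h5

theorem hered_small_of_rank {κ : Cardinal.{u}} (hκ : Inacc κ.ord) {p : ZFSet.{u}}
    (hp : p.rank < κ.ord) : ∃ T : ZFSet.{u}, T.IsTransitive ∧ p ∈ T ∧ T.card < κ := by
  refine ⟨vonNeumann (p.rank + 1), isTransitive_vonNeumann _,
    mem_vonNeumann.2 (Order.lt_add_one_iff.2 le_rfl), ?_⟩
  rw [card_vonNeumann]
  calc preBeth (p.rank + 1) < preBeth κ.ord := preBeth_strictMono (hκ.1.succ_lt hp)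
    _ = κ := (SigA_inacc hκ).preBeth_ord

/-- A finite set of ordinals as a set. -/
noncomputable def finZ (b : Finset Ordinal.{u}) : ZFSet.{u} :=
  ZFSet.range fun x : b => x.1.toZFSet

theorem mem_finZ {b : Finset Ordinal.{u}} {y : ZFSet.{u}} :
    y ∈ finZ b ↔ ∃ ξ ∈ b, ξ.toZFSet = y := by
  rw [finZ, ZFSet.mem_range]
  exact ⟨fun ⟨x, hx⟩ => ⟨x.1, x.2, hx⟩, fun ⟨ξ, h1, h2⟩ => ⟨⟨ξ, h1⟩, h2⟩⟩

theorem SigA_mem_finZ {b : Finset Ordinal.{u}} {ξ : Ordinal.{u}} :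
    ξ.toZFSet ∈ finZ b ↔ ξ ∈ b := by
  rw [mem_finZ]
  exact ⟨fun ⟨_, h1, h2⟩ => Ordinal.toZFSet_injective h2 ▸ h1, fun h => ⟨ξ, h, rfl⟩⟩

theorem finZ_inj : Function.Injective finZ.{u} := by
  intro a b h
  ext ξ
  rw [← SigA_mem_finZ, h, SigA_mem_finZ]

theorem SigA_finZ_empty : finZ.{u} ∅ = ∅ := by
  ext y; simp [mem_finZ]

open scoped Classical in
theorem SigA_finZ_insert (a : Ordinal.{u}) (b : Finset Ordinal.{u}) :
    finZ (insert a b) = insert a.toZFSet (finZ b) := by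
  ext y
  rw [ZFSet.mem_insert_iff, mem_finZ, mem_finZ]
  constructor
  · rintro ⟨ξ, h, rfl⟩
    rcases Finset.mem_insert.1 h with rfl | h
    · exact Or.inl rfl
    · exact Or.inr ⟨ξ, h, rfl⟩
  · rintro (rfl | ⟨ξ, h, rfl⟩)
    · exact ⟨a, Finset.mem_insert_self _ _, rfl⟩
    · exact ⟨ξ, Finset.mem_insert_of_mem h, rfl⟩

/-- `W` is the set of the finite subsets of `k`, said with bounded quantifiers. -/
def IsFinSub (W k : ZFSet.{u}) : Prop :=
  ∅ ∈ W ∧ (∀ w ∈ W, ∀ x ∈ k, ∃ w' ∈ W, w' = insert x w) ∧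
    ∀ w ∈ W, w = ∅ ∨ ∃ x ∈ k, ∃ w' ∈ W, w = insert x w' ∧ ∀ y ∈ w', y ∈ x

instance UDf.isFinSub (i j : ℕ) : UDf.{u} fun _ e => IsFinSub (e i) (e j) := by
  unfold IsFinSub; infer_instance

theorem isFinSub_iff {W : ZFSet.{u}} {κ : Ordinal.{u}} : IsFinSub W κ.toZFSet ↔
    ∀ w, w ∈ W ↔ ∃ b : Finset Ordinal.{u}, ↑b ⊆ Iio κ ∧ finZ b = w := by
  classical
  constructor
  · rintro ⟨h0, h1, h2⟩ w
    constructor
    · have : ∀ (r : Ordinal.{u}) (w : ZFSet.{u}), w.rank = r → w ∈ W →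
          ∃ b : Finset Ordinal.{u}, ↑b ⊆ Iio κ ∧ finZ b = w := by
        intro r
        induction r using WellFoundedLT.induction with
        | ind r ih =>
          intro w hr hw
          rcases h2 w hw with rfl | ⟨x, hx, w', hw', rfl, hlt⟩
          · exact ⟨∅, by simp, SigA_finZ_empty⟩
          · have h3 : w'.rank < r := by
              rw [← hr]
              exact (rank_mono fun y hy => hlt y hy).trans_lt (rank_lt_of_mem (mem_insert x w'))
            obtain ⟨b, hb, rfl⟩ := ih _ h3 w' rfl hw'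
            obtain ⟨a, ha, rfl⟩ := Ordinal.mem_toZFSet_iff.1 hx
            refine ⟨insert a b, ?_, SigA_finZ_insert a b⟩
            rw [Finset.coe_insert]
            exact insert_subset ha hb
      exact this _ w rfl
    · rintro ⟨b, hb, rfl⟩
      induction b using Finset.induction_on with
      | empty => rw [SigA_finZ_empty]; exact h0
      | insert a b _ ih =>
        rw [Finset.coe_insert, insert_subset_iff] at hb
        obtain ⟨w', hw', e⟩ := h1 _ (ih hb.2) _ (Ordinal.toZFSet_mem_toZFSet_iff.2 hb.1)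
        rw [SigA_finZ_insert, ← e]
        exact hw'
  · intro h
    refine ⟨(h _).2 ⟨∅, by simp, SigA_finZ_empty⟩, fun w hw x hx => ⟨_, ?_, rfl⟩, fun w hw => ?_⟩
    · obtain ⟨b, hb, rfl⟩ := (h w).1 hw
      obtain ⟨a, ha, rfl⟩ := Ordinal.mem_toZFSet_iff.1 hx
      refine (h _).2 ⟨insert a b, ?_, SigA_finZ_insert a b⟩
      rw [Finset.coe_insert]
      exact insert_subset ha hb
    · obtain ⟨b, hb, rfl⟩ := (h w).1 hw
      rcases b.eq_empty_or_nonempty with rfl | hne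
      · exact Or.inl SigA_finZ_empty
      · have hm := b.max'_mem hne
        refine Or.inr ⟨(b.max' hne).toZFSet, Ordinal.toZFSet_mem_toZFSet_iff.2 (hb hm),
          finZ (b.erase (b.max' hne)), (h _).2 ⟨_, ?_, rfl⟩, ?_, fun y hy => ?_⟩
        · exact fun z hz => hb (Finset.mem_of_mem_erase hz)
        · rw [← SigA_finZ_insert, Finset.insert_erase hm]
        · obtain ⟨ξ, hξ, rfl⟩ := mem_finZ.1 hy
          exact Ordinal.toZFSet_mem_toZFSet_iff.2 (Finset.lt_max'_of_mem_erase_max' b hne hξ)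

/-- The colexicographic order, said with bounded quantifiers. -/
def Colex (a b : ZFSet.{u}) : Prop := ∃ x ∈ b, x ∉ a ∧ ∀ y ∈ a, y ∉ b → y ∈ x

/-- `g` is the rank function of the colexicographic order on `W`. -/
def IsColexRank (g W k : ZFSet.{u}) : Prop :=
  (∀ a ∈ W, ∃ x ∈ k, pair a x ∈ g) ∧ (∀ a x y, pair a x ∈ g → pair a y ∈ g → x = y) ∧
    ∀ a ∈ W, ∀ x, pair a x ∈ g → (∀ y ∈ x, ∃ b ∈ W, Colex b a ∧ pair b y ∈ g) ∧
      ∀ b ∈ W, Colex b a → ∃ y ∈ x, pair b y ∈ g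

instance SigA_udf_colex (i j : ℕ) : UDf.{u} fun _ e => Colex (e i) (e j) := by
  unfold Colex; infer_instance

instance UDf.isColexRank (i j k : ℕ) : UDf.{u} fun _ e => IsColexRank (e i) (e j) (e k) := by
  have h1 : UDf.{u} fun _ e => ∀ a ∈ e j, ∃ x ∈ e k, pair a x ∈ e i := inferInstance
  have h2 : UDf.{u} fun _ e => ∀ a x y, pair a x ∈ e i → pair a y ∈ e i → x = y :=
    (inferInstance : UDf.{u} fun _ e => ∀ a x, pair a x ∈ e i → ∀ y, pair a y ∈ e i → x = y).congr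
      fun _ _ _ _ => ⟨fun H a x y h h' => H a x h y h', fun H a x h y h' => H a x y h h'⟩
  have h3 : UDf.{u} fun _ e => ∀ a ∈ e j, ∀ x, pair a x ∈ e i →
      (∀ y ∈ x, ∃ b ∈ e j, Colex b a ∧ pair b y ∈ e i) ∧
        ∀ b ∈ e j, Colex b a → ∃ y ∈ x, pair b y ∈ e i := inferInstance
  unfold IsColexRank
  infer_instance

/-- The colexicographic order on finite sets of ordinals. -/
def SigA_r (a b : Finset Ordinal.{u}) : Prop := ∃ x ∈ b, x ∉ a ∧ ∀ y ∈ a, y ∉ b → y < x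

theorem SigA_r_iff {a b : Finset Ordinal.{u}} : SigA_r a b ↔ toColex a < toColex b :=
  Finset.Colex.toColex_lt_toColex_iff_exists_forall_lt.symm

theorem SigA_colex {a b : Finset Ordinal.{u}} : Colex (finZ a) (finZ b) ↔ SigA_r a b := by
  constructor
  · rintro ⟨x, hx, hxa, H⟩
    obtain ⟨ξ, hξ, rfl⟩ := mem_finZ.1 hx
    exact ⟨ξ, hξ, fun h => hxa (SigA_mem_finZ.2 h), fun y hy hyb =>
      Ordinal.toZFSet_mem_toZFSet_iff.1 (H _ (SigA_mem_finZ.2 hy) fun h => hyb (SigA_mem_finZ.1 h))⟩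
  · rintro ⟨ξ, hξ, hξa, H⟩
    refine ⟨ξ.toZFSet, SigA_mem_finZ.2 hξ, fun h => hξa (SigA_mem_finZ.1 h), fun y hy hyb => ?_⟩
    obtain ⟨η, hη, rfl⟩ := mem_finZ.1 hy
    exact Ordinal.toZFSet_mem_toZFSet_iff.2 (H η hη fun h => hyb (SigA_mem_finZ.2 h))

theorem SigA_r_trans {a b c : Finset Ordinal.{u}} (h : SigA_r a b) (h' : SigA_r b c) :
    SigA_r a c := SigA_r_iff.2 ((SigA_r_iff.1 h).trans (SigA_r_iff.1 h'))

theorem SigA_r_tri (a b : Finset Ordinal.{u}) : SigA_r a b ∨ a = b ∨ SigA_r b a := by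
  rcases lt_trichotomy (toColex a) (toColex b) with h | h | h
  · exact Or.inl (SigA_r_iff.2 h)
  · exact Or.inr (Or.inl (toColex.injective h))
  · exact Or.inr (Or.inr (SigA_r_iff.2 h))

open scoped Classical in
theorem SigA_r_wf : WellFounded SigA_r.{u} := by
  let ind : Finset Ordinal.{u} → Ordinal.{u} →₀ ℕ := fun s =>
    Finsupp.onFinset s (fun i => if i ∈ s then 1 else 0) fun i hi => by
      by_contra h; exact hi (if_neg h)
  have hw : WellFounded (Finsupp.Lex (fun a b : Ordinal.{u} => b < a) (fun m n : ℕ => m < n)) :=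
    Finsupp.Lex.wellFounded' (fun n => Nat.not_lt_zero n) wellFounded_lt wellFounded_lt
  refine Subrelation.wf (r := InvImage _ ind) ?_ (InvImage.wf ind hw)
  intro a b hab
  obtain ⟨hne, hm⟩ := Finset.Colex.toColex_lt_toColex_iff_max'_mem.1 (SigA_r_iff.1 hab)
  have hm2 := Finset.max'_mem (symmDiff a b) (Finset.symmDiff_nonempty.2 hne)
  refine ⟨(symmDiff a b).max' (Finset.symmDiff_nonempty.2 hne), fun j hj => ?_, ?_⟩
  · have hj2 : j ∉ symmDiff a b := fun h => absurd (Finset.le_max' _ j h) (not_le.2 hj)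
    rw [Finset.mem_symmDiff] at hj2
    simp only [ind, Finsupp.onFinset_apply]
    by_cases h1 : j ∈ a <;> by_cases h2 : j ∈ b <;> simp_all
  · rw [Finset.mem_symmDiff] at hm2
    have h3 : (symmDiff a b).max' (Finset.symmDiff_nonempty.2 hne) ∉ a := by tauto
    simp only [ind, Finsupp.onFinset_apply]
    rw [if_neg h3, if_pos hm]
    exact Nat.zero_lt_one

/-- The rank function. -/
noncomputable def SigA_g : Finset Ordinal.{u} → Ordinal.{u} :=
  SigA_r_wf.fix fun b ih => ⨆ x : {x // SigA_r x b}, (ih x.1 x.2 + 1)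

theorem SigA_g_eq (b : Finset Ordinal.{u}) :
    SigA_g b = ⨆ x : {x // SigA_r x b}, (SigA_g x.1 + 1) := by
  rw [SigA_g, WellFounded.fix_eq]

theorem SigA_r_sub {κ : Ordinal.{u}} {a b : Finset Ordinal.{u}} (h : SigA_r a b)
    (hb : ↑b ⊆ Iio κ) : ↑a ⊆ Iio κ :=
  fun y hy => Finset.Colex.forall_lt_mono (SigA_r_iff.1 h).le (fun _ hz => hb hz) y hy

theorem SigA_few {κ : Ordinal.{u}} (hκ : Reg κ) {b : Finset Ordinal.{u}} (hb : ↑b ⊆ Iio κ) :
    Few κ {x // SigA_r x b} := by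
  obtain ⟨δ, hδ, H⟩ := Few.bdd hκ (few_finite hκ b.finite_toSet) (fun x => x.1) fun x => hb x.2
  have h1 : Few κ {l : Finset Ordinal.{u} | ↑l ⊆ Iio δ} := Few.finsets hκ (few_Iio hκ hδ)
  exact Few.subset (s := {x | SigA_r x b}) h1 fun a ha => SigA_r_sub ha fun z hz => H ⟨z, hz⟩

theorem SigA_g_lt {κ : Ordinal.{u}} (hκ : Reg κ) {a b : Finset Ordinal.{u}} (hb : ↑b ⊆ Iio κ)
    (h : SigA_r a b) : SigA_g a < SigA_g b := by
  have := (SigA_few hκ hb).small
  rw [SigA_g_eq b]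
  exact Order.add_one_le_iff.1 (Ordinal.le_iSup (fun x : {x // SigA_r x b} => SigA_g x.1 + 1) ⟨a, h⟩)

theorem SigA_g_onto {κ : Ordinal.{u}} (hκ : Reg κ) (b : Finset Ordinal.{u}) :
    ↑b ⊆ Iio κ → ∀ y < SigA_g b, ∃ a, SigA_r a b ∧ SigA_g a = y := by
  induction b using SigA_r_wf.induction with
  | _ b ih =>
    intro hb y hy
    have := (SigA_few hκ hb).small
    rw [SigA_g_eq b] at hy
    obtain ⟨⟨a, ha⟩, h⟩ := Ordinal.lt_iSup_iff.1 hy
    rcases (Order.lt_add_one_iff.1 h).eq_or_lt with h | h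
    · exact ⟨a, ha, h.symm⟩
    · obtain ⟨a', h1, h2⟩ := ih a ha (SigA_r_sub ha hb) y h
      exact ⟨a', SigA_r_trans h1 ha, h2⟩

theorem SigA_g_bd {κ : Ordinal.{u}} (hκ : Reg κ) (b : Finset Ordinal.{u}) :
    ↑b ⊆ Iio κ → SigA_g b < κ := by
  induction b using SigA_r_wf.induction with
  | _ b ih =>
    intro hb
    obtain ⟨δ, hδ, H⟩ := Few.bdd hκ (SigA_few hκ hb) (fun x => SigA_g x.1 + 1)
      fun x => hκ.succ_lt (ih x.1 x.2 (SigA_r_sub x.2 hb))
    rw [SigA_g_eq b]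
    exact (Ordinal.iSup_le fun x => (H x).le).trans_lt hδ

/-- The definable numbering of the finite subsets of `κ`. -/
theorem exists_colex_rank {κ : Ordinal.{u}} (hκ : Reg κ) :
    ∃ g : Finset Ordinal.{u} → Ordinal.{u}, (∀ b : Finset Ordinal.{u}, ↑b ⊆ Iio κ → g b < κ) ∧
      InjOn g {b | ↑b ⊆ Iio κ} ∧ ∀ W, IsFinSub W κ.toZFSet →
        (∃ G, IsColexRank G W κ.toZFSet) ∧ ∀ G, IsColexRank G W κ.toZFSet →
          ∀ b : Finset Ordinal.{u}, ↑b ⊆ Iio κ → ∀ y, pair (finZ b) y ∈ G ↔ y = (g b).toZFSet := by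
  refine ⟨SigA_g, SigA_g_bd hκ, fun a ha b hb hab => ?_, fun W hW => ⟨?_, ?_⟩⟩
  · rcases SigA_r_tri a b with h | h | h
    · exact absurd hab (SigA_g_lt hκ hb h).ne
    · exact h
    · exact absurd hab (SigA_g_lt hκ ha h).ne'
  · have hW' := isFinSub_iff.1 hW
    have hs : Small.{u} {l : Finset Ordinal.{u} | ↑l ⊆ Iio κ} :=
      (Few.finsets (reg_nxt hκ.omega_lt.le) (few_Iio_nxt κ)).small
    let G : ZFSet.{u} := ZFSet.range fun b : {l : Finset Ordinal.{u} | ↑l ⊆ Iio κ} =>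
      pair (finZ b.1) (SigA_g b.1).toZFSet
    have hG : ∀ a x, pair a x ∈ G ↔
        ∃ b : Finset Ordinal.{u}, ↑b ⊆ Iio κ ∧ finZ b = a ∧ (SigA_g b).toZFSet = x := by
      intro a x
      rw [ZFSet.mem_range]
      constructor
      · rintro ⟨b, hb⟩
        exact ⟨b.1, b.2, pair_inj.1 hb⟩
      · rintro ⟨b, hb, rfl, rfl⟩
        exact ⟨⟨b, hb⟩, rfl⟩
    refine ⟨G, fun a ha => ?_, fun a x y hx hy => ?_, fun a _ x hx => ⟨fun y hy => ?_, ?_⟩⟩
    · obtain ⟨b, hb, rfl⟩ := (hW' a).1 ha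
      exact ⟨_, Ordinal.toZFSet_mem_toZFSet_iff.2 (SigA_g_bd hκ b hb), (hG _ _).2 ⟨b, hb, rfl, rfl⟩⟩
    · obtain ⟨b, -, rfl, rfl⟩ := (hG _ _).1 hx
      obtain ⟨b', -, h, rfl⟩ := (hG _ _).1 hy
      rw [finZ_inj h]
    · obtain ⟨b, hb, rfl, rfl⟩ := (hG _ _).1 hx
      obtain ⟨η, hη, rfl⟩ := Ordinal.mem_toZFSet_iff.1 hy
      obtain ⟨c, hc, rfl⟩ := SigA_g_onto hκ b hb η hη
      exact ⟨finZ c, (hW' _).2 ⟨c, SigA_r_sub hc hb, rfl⟩, SigA_colex.2 hc,
        (hG _ _).2 ⟨c, SigA_r_sub hc hb, rfl, rfl⟩⟩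
    · intro c hc hcol
      obtain ⟨b, hb, rfl, rfl⟩ := (hG _ _).1 hx
      obtain ⟨c, hc', rfl⟩ := (hW' c).1 hc
      exact ⟨_, Ordinal.toZFSet_mem_toZFSet_iff.2 (SigA_g_lt hκ hb (SigA_colex.1 hcol)),
        (hG _ _).2 ⟨c, hc', rfl, rfl⟩⟩
  · rintro G ⟨h1, h2, h3⟩
    have hW' := isFinSub_iff.1 hW
    have key : ∀ b : Finset Ordinal.{u}, ↑b ⊆ Iio κ → ∀ x, pair (finZ b) x ∈ G →
        x = (SigA_g b).toZFSet := by
      intro b
      induction b using SigA_r_wf.induction with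
      | _ b ih =>
        intro hb x hx
        obtain ⟨h4, h5⟩ := h3 _ ((hW' _).2 ⟨b, hb, rfl⟩) x hx
        ext y
        constructor
        · intro hy
          obtain ⟨c, hc, hcol, hp⟩ := h4 y hy
          obtain ⟨c, hc', rfl⟩ := (hW' c).1 hc
          rw [ih c (SigA_colex.1 hcol) hc' y hp]
          exact Ordinal.toZFSet_mem_toZFSet_iff.2 (SigA_g_lt hκ hb (SigA_colex.1 hcol))
        · intro hy
          obtain ⟨η, hη, rfl⟩ := Ordinal.mem_toZFSet_iff.1 hy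
          obtain ⟨c, hc, rfl⟩ := SigA_g_onto hκ b hb η hη
          obtain ⟨y, hy, hp⟩ := h5 _ ((hW' _).2 ⟨c, SigA_r_sub hc hb, rfl⟩) (SigA_colex.2 hc)
          rw [← ih c hc (SigA_r_sub hc hb) y hp]
          exact hy
    intro b hb y
    refine ⟨key b hb y, ?_⟩
    rintro rfl
    obtain ⟨x, -, hx⟩ := h1 _ ((hW' _).2 ⟨b, hb, rfl⟩)
    rw [← key b hb x hx]
    exact hx

end Pool.Agent.P.MP_833f7a_lc
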