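import Mathlib.SetTheory.ZFC.VonNeumann
import Pool.Agent.P.MP_833f7a_lc.SigA

/-!
Sets given by allowed patterns and a rank function are `Σ₁`.
-/

universe u v w

namespace Pool.Agent.P.MP_833f7a_lc

open Cardinal Ordinal Set
open scoped Classical

section Aux

open Pool.Agent.Lib.Forcing

/-! ### The bounded predicates -/

/-- `c` is the image of `b` under the relation `h`. -/
def SigB_Img (c h b : ZFSet.{u}) : Prop :=
  (∀ y ∈ c, ∃ a ∈ b, ZFSet.pair a y ∈ h) ∧ ∀ a ∈ b, ∀ y, ZFSet.pair a y ∈ h → y ∈ c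

instance SigB_udf_img (i j k : ℕ) : UDf.{u} fun _ e => SigB_Img (e i) (e j) (e k) := by
  unfold SigB_Img; infer_instance

/-- The membership pattern `P` is realised in `x` along `h`. -/
def SigB_CP (W G x d h P : ZFSet.{u}) : Prop :=
  ∀ b ∈ W, b ⊆ d → ∀ c ∈ W, SigB_Img c h b → ∀ y, ZFSet.pair c y ∈ G → (b ∈ P ↔ y ∈ x)

instance SigB_udf_cp (i j k l m n : ℕ) :
    UDf.{u} fun _ e => SigB_CP (e i) (e j) (e k) (e l) (e m) (e n) := by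
  unfold SigB_CP; infer_instance

/-- All `O`-values of `c₁` are below all `O`-values of `c₂`. -/
def SigB_Lt (O c₁ c₂ : ZFSet.{u}) : Prop :=
  ∀ y₁, ZFSet.pair c₁ y₁ ∈ O → ∀ y₂, ZFSet.pair c₂ y₂ ∈ O → y₁ ∈ y₂

instance SigB_udf_lt (i j k : ℕ) : UDf.{u} fun _ e => SigB_Lt (e i) (e j) (e k) := by
  unfold SigB_Lt; infer_instance

/-- The rank pattern `L` is realised by `O` along `h`. -/
def SigB_CL (W O h L : ZFSet.{u}) : Prop :=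
  ∀ b₁ b₂, ZFSet.pair b₁ b₂ ∈ L → ∀ c₁ ∈ W, SigB_Img c₁ h b₁ → ∀ c₂ ∈ W, SigB_Img c₂ h b₂ →
    SigB_Lt O c₁ c₂

instance SigB_udf_cl (i j k l : ℕ) : UDf.{u} fun _ e => SigB_CL (e i) (e j) (e k) (e l) := by
  unfold SigB_CL; infer_instance

/-- Every member of `H` realises one of the patterns in `T`. -/
def SigB_Pat (W G O H x T : ZFSet.{u}) : Prop :=
  ∀ d h, ZFSet.pair d h ∈ H → ∃ t, ZFSet.pair d t ∈ T ∧ ∃ P L, ZFSet.pair P L ∈ t ∧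
    (SigB_CP W G x d h P ∧ SigB_CL W O h L)

instance SigB_udf_pat (i j k l m n : ℕ) :
    UDf.{u} fun _ e => SigB_Pat (e i) (e j) (e k) (e l) (e m) (e n) := by
  unfold SigB_Pat; infer_instance

/-- `H` is closed under end extensions. -/
def SigB_Clo (H k : ZFSet.{u}) : Prop :=
  ∀ d h, ZFSet.pair d h ∈ H → ∀ z ∈ k, (∀ a y, ZFSet.pair a y ∈ h → y ∈ z) →
    ZFSet.pair (insert d d) (insert (ZFSet.pair d z) h) ∈ H

instance SigB_udf_clo (i j : ℕ) : UDf.{u} fun _ e => SigB_Clo (e i) (e j) := by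
  unfold SigB_Clo; infer_instance

/-- `O` gives ordinals to the members of `W`, with the normalisation on pairs. -/
def SigB_Ord (W O c s k : ZFSet.{u}) : Prop :=
  (∀ b ∈ W, ∃ y, ZFSet.pair b y ∈ O ∧ y.IsOrdinal) ∧
    ∀ z ∈ k, z ∉ c → ∀ y, ZFSet.pair ({s, z} : ZFSet.{u}) y ∈ O → y = z

instance SigB_udf_ord (i j k l m : ℕ) :
    UDf.{u} fun _ e => SigB_Ord (e i) (e j) (e k) (e l) (e m) := by
  unfold SigB_Ord; infer_instance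

/-- The members of `x` are `G`-values. -/
def SigB_Val (W G x : ZFSet.{u}) : Prop := ∀ y ∈ x, ∃ b ∈ W, ZFSet.pair b y ∈ G

instance SigB_udf_val (i j k : ℕ) : UDf.{u} fun _ e => SigB_Val (e i) (e j) (e k) := by
  unfold SigB_Val; infer_instance

/-- The part of the condition that mentions the parameter. -/
def SigB_Par (W G O H x p k : ZFSet.{u}) : Prop :=
  ∃ A B, ZFSet.pair A B ∈ p ∧ ((∃ c s, ZFSet.pair c s ∈ A ∧ SigB_Ord W O c s k) ∧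
    ∃ b T, ZFSet.pair b T ∈ B ∧ (b ∈ H ∧ SigB_Pat W G O H x T))

instance SigB_udf_par (i j k l m n r : ℕ) :
    UDf.{u} fun _ e => SigB_Par (e i) (e j) (e k) (e l) (e m) (e n) (e r) := by
  unfold SigB_Par; infer_instance

/-- The whole condition on the four witnesses. -/
def SigB_Core (W G O H x p k : ZFSet.{u}) : Prop :=
  IsFinSub W k ∧ IsColexRank G W k ∧ SigB_Val W G x ∧ SigB_Clo H k ∧ SigB_Par W G O H x p k

instance SigB_udf_core (i j k l m n r : ℕ) :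
    UDf.{u} fun _ e => SigB_Core (e i) (e j) (e k) (e l) (e m) (e n) (e r) := by
  unfold SigB_Core; infer_instance

/-- The absolute relation. -/
def SigB_R (w x p k : ZFSet.{u}) : Prop :=
  ∃ A B, ZFSet.pair A B ∈ w ∧ ∃ W G, ZFSet.pair W G ∈ A ∧ ∃ O H, ZFSet.pair O H ∈ B ∧
    SigB_Core W G O H x p k

instance SigB_udf_R : UDf.{u} fun _ e => SigB_R (e 0) (e 1) (e 2) (e 3) := by
  unfold SigB_R; infer_instance

theorem SigB_exists_R {x p k : ZFSet.{u}} :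
    (∃ w, SigB_R w x p k) ↔ ∃ W G O H, SigB_Core W G O H x p k := by
  constructor
  · rintro ⟨w, A, B, -, W, G, -, O, H, -, h⟩
    exact ⟨W, G, O, H, h⟩
  · rintro ⟨W, G, O, H, h⟩
    exact ⟨{ZFSet.pair {ZFSet.pair W G} {ZFSet.pair O H}}, _, _, ZFSet.mem_singleton.2 rfl,
      W, G, ZFSet.mem_singleton.2 rfl, O, H, ZFSet.mem_singleton.2 rfl, h⟩

theorem SigB_par_iff {W G O H x c s b T k : ZFSet.{u}} :
    SigB_Par W G O H x {ZFSet.pair {ZFSet.pair c s} {ZFSet.pair b T}} k ↔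
      SigB_Ord W O c s k ∧ b ∈ H ∧ SigB_Pat W G O H x T := by
  constructor
  · rintro ⟨A, B, hAB, ⟨c', s', hc, h1⟩, b', T', hb, h2, h3⟩
    obtain ⟨rfl, rfl⟩ := ZFSet.pair_inj.1 (ZFSet.mem_singleton.1 hAB)
    obtain ⟨rfl, rfl⟩ := ZFSet.pair_inj.1 (ZFSet.mem_singleton.1 hc)
    obtain ⟨rfl, rfl⟩ := ZFSet.pair_inj.1 (ZFSet.mem_singleton.1 hb)
    exact ⟨h1, h2, h3⟩
  · rintro ⟨h1, h2, h3⟩
    exact ⟨_, _, ZFSet.mem_singleton.2 rfl, ⟨c, s, ZFSet.mem_singleton.2 rfl, h1⟩,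
      b, T, ZFSet.mem_singleton.2 rfl, h2, h3⟩

/-! ### Codes of graphs and patterns -/

/-- The sets of rank below `δ` with the property `Q`. -/
noncomputable def SigB_sep (δ : Ordinal.{u}) (Q : ZFSet.{u} → Prop) : ZFSet.{u} :=
  ZFSet.sep Q (ZFSet.vonNeumann δ)

theorem SigB_mem_sep {δ : Ordinal.{u}} {Q : ZFSet.{u} → Prop} {z : ZFSet.{u}} :
    z ∈ SigB_sep δ Q ↔ z.rank < δ ∧ Q z := by
  rw [SigB_sep, ZFSet.mem_sep, ZFSet.mem_vonNeumann]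

theorem SigB_rank_sep (δ : Ordinal.{u}) (Q : ZFSet.{u} → Prop) : (SigB_sep δ Q).rank ≤ δ :=
  ZFSet.rank_le_iff.2 fun _ hy => (SigB_mem_sep.1 hy).1

theorem SigB_rank_sing {δ : Ordinal.{u}} (hδ : Order.IsSuccLimit δ) {a : ZFSet.{u}}
    (ha : a.rank < δ) : ({a} : ZFSet.{u}).rank < δ := by
  rw [ZFSet.rank_singleton]; exact hδ.succ_lt ha

theorem SigB_rank_pair {δ : Ordinal.{u}} (hδ : Order.IsSuccLimit δ) {a b : ZFSet.{u}}
    (ha : a.rank < δ) (hb : b.rank < δ) : (ZFSet.pair a b).rank < δ := by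
  have h1 : ∀ {x y : ZFSet.{u}}, x.rank < δ → y.rank < δ → ({x, y} : ZFSet.{u}).rank < δ := by
    intro x y hx hy
    rw [ZFSet.rank_pair]
    exact max_lt (hδ.succ_lt hx) (hδ.succ_lt hy)
  exact h1 (SigB_rank_sing hδ ha) (h1 ha hb)

theorem SigB_finZ_subset {b : Finset Ordinal.{u}} {d : Ordinal.{u}} :
    finZ b ⊆ d.toZFSet ↔ ↑b ⊆ Iio d := by
  constructor
  · intro h ξ hξ
    exact toZFSet_mem_toZFSet_iff.1 (h (mem_finZ.2 ⟨ξ, hξ, rfl⟩))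
  · intro h y hy
    obtain ⟨ξ, hξ, rfl⟩ := mem_finZ.1 hy
    exact toZFSet_mem_toZFSet_iff.2 (h hξ)

theorem SigB_rank_finZ {b : Finset Ordinal.{u}} {d : Ordinal.{u}} (h : ↑b ⊆ Iio d) :
    (finZ b).rank ≤ d := by
  have := ZFSet.rank_mono (SigB_finZ_subset.2 h)
  rwa [rank_toZFSet] at this

theorem SigB_finZ_pair (s ξ : Ordinal.{u}) :
    finZ {s, ξ} = ({s.toZFSet, ξ.toZFSet} : ZFSet.{u}) := by
  ext y
  rw [mem_finZ, ZFSet.mem_pair]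
  constructor
  · rintro ⟨a, ha, rfl⟩
    rcases Finset.mem_insert.1 ha with rfl | ha
    · exact Or.inl rfl
    · rw [Finset.mem_singleton.1 ha]; exact Or.inr rfl
  · rintro (rfl | rfl)
    · exact ⟨s, by simp, rfl⟩
    · exact ⟨ξ, by simp, rfl⟩

/-- The graph of `h` below `d`. -/
noncomputable def SigB_gr (d : Ordinal.{u}) (h : Ordinal.{u} → Ordinal.{u}) : ZFSet.{u} :=
  ZFSet.range fun ξ : Iio d => ZFSet.pair ξ.1.toZFSet (h ξ.1).toZFSet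

theorem SigB_mem_gr {d : Ordinal.{u}} {h : Ordinal.{u} → Ordinal.{u}} {z : ZFSet.{u}} :
    z ∈ SigB_gr d h ↔ ∃ ξ < d, ZFSet.pair ξ.toZFSet (h ξ).toZFSet = z := by
  rw [SigB_gr, ZFSet.mem_range]
  exact ⟨fun ⟨ξ, hξ⟩ => ⟨ξ.1, ξ.2, hξ⟩, fun ⟨ξ, h1, h2⟩ => ⟨⟨ξ, h1⟩, h2⟩⟩

theorem SigB_pair_mem_gr {d : Ordinal.{u}} {h : Ordinal.{u} → Ordinal.{u}} {a y : ZFSet.{u}} :
    ZFSet.pair a y ∈ SigB_gr d h ↔ ∃ ξ < d, ξ.toZFSet = a ∧ (h ξ).toZFSet = y := by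
  rw [SigB_mem_gr]
  simp only [ZFSet.pair_inj]

theorem SigB_gr_congr {d : Ordinal.{u}} {h h' : Ordinal.{u} → Ordinal.{u}}
    (H : ∀ ξ < d, h ξ = h' ξ) : SigB_gr d h = SigB_gr d h' := by
  ext z
  rw [SigB_mem_gr, SigB_mem_gr]
  refine exists_congr fun ξ => and_congr_right fun hξ => ?_
  rw [H ξ hξ]

theorem SigB_gr_succ (d : Ordinal.{u}) (h : Ordinal.{u} → Ordinal.{u}) :
    SigB_gr (d + 1) h = insert (ZFSet.pair d.toZFSet (h d).toZFSet) (SigB_gr d h) := by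
  ext z
  rw [ZFSet.mem_insert_iff, SigB_mem_gr, SigB_mem_gr]
  constructor
  · rintro ⟨ξ, hξ, rfl⟩
    rcases (Order.lt_add_one_iff.1 hξ).eq_or_lt with rfl | hlt
    · exact Or.inl rfl
    · exact Or.inr ⟨ξ, hlt, rfl⟩
  · rintro (rfl | ⟨ξ, hξ, rfl⟩)
    · exact ⟨d, Order.lt_add_one_iff.2 le_rfl, rfl⟩
    · exact ⟨ξ, Order.lt_add_one_iff.2 hξ.le, rfl⟩

theorem SigB_rank_gr {δ d : Ordinal.{u}} (hδ : Order.IsSuccLimit δ) (hd : d ≤ δ)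
    {h : Ordinal.{u} → Ordinal.{u}} (hh : ∀ ξ < d, h ξ < δ) : (SigB_gr d h).rank ≤ δ := by
  refine ZFSet.rank_le_iff.2 fun z hz => ?_
  obtain ⟨ξ, hξ, rfl⟩ := SigB_mem_gr.1 hz
  refine SigB_rank_pair hδ ?_ ?_
  · rw [rank_toZFSet]; exact hξ.trans_le hd
  · rw [rank_toZFSet]; exact hh ξ hξ

theorem SigB_img_iff {d : Ordinal.{u}} {h : Ordinal.{u} → Ordinal.{u}} {b : Finset Ordinal.{u}}
    (hb : ↑b ⊆ Iio d) {c : ZFSet.{u}} :
    SigB_Img c (SigB_gr d h) (finZ b) ↔ c = finZ (b.image h) := by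
  constructor
  · rintro ⟨h1, h2⟩
    ext y
    rw [mem_finZ]
    constructor
    · intro hy
      obtain ⟨a, ha, hay⟩ := h1 y hy
      obtain ⟨ξ, hξ, rfl⟩ := mem_finZ.1 ha
      obtain ⟨ξ', -, h3, rfl⟩ := SigB_pair_mem_gr.1 hay
      obtain rfl := toZFSet_injective h3
      exact ⟨h ξ', Finset.mem_image_of_mem h hξ, rfl⟩
    · rintro ⟨ζ, hζ, rfl⟩
      obtain ⟨ξ, hξ, rfl⟩ := Finset.mem_image.1 hζ
      exact h2 _ (mem_finZ.2 ⟨ξ, hξ, rfl⟩) _ (SigB_pair_mem_gr.2 ⟨ξ, hb hξ, rfl, rfl⟩)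
  · rintro rfl
    constructor
    · intro y hy
      obtain ⟨ζ, hζ, rfl⟩ := mem_finZ.1 hy
      obtain ⟨ξ, hξ, rfl⟩ := Finset.mem_image.1 hζ
      exact ⟨_, mem_finZ.2 ⟨ξ, hξ, rfl⟩, SigB_pair_mem_gr.2 ⟨ξ, hb hξ, rfl, rfl⟩⟩
    · intro a ha y hay
      obtain ⟨ξ, hξ, rfl⟩ := mem_finZ.1 ha
      obtain ⟨ξ', -, h3, rfl⟩ := SigB_pair_mem_gr.1 hay
      obtain rfl := toZFSet_injective h3
      exact mem_finZ.2 ⟨h ξ', Finset.mem_image_of_mem h hξ, rfl⟩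

/-- The code of a set of finite sets. -/
noncomputable def SigB_P (δ : Ordinal.{u}) (P : Set (Finset Ordinal.{u})) : ZFSet.{u} :=
  SigB_sep δ fun z => ∃ b ∈ P, finZ b = z

theorem SigB_mem_P {δ d : Ordinal.{u}} (hd : d < δ) {P : Set (Finset Ordinal.{u})}
    {b : Finset Ordinal.{u}} (hb : ↑b ⊆ Iio d) : finZ b ∈ SigB_P δ P ↔ b ∈ P := by
  rw [SigB_P, SigB_mem_sep]
  constructor
  · rintro ⟨-, b', h1, h2⟩
    rwa [← finZ_inj h2]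
  · intro h
    exact ⟨(SigB_rank_finZ hb).trans_lt hd, b, h, rfl⟩

/-- The code of a set of pairs of finite sets. -/
noncomputable def SigB_L (δ : Ordinal.{u}) (L : Set (Finset Ordinal.{u} × Finset Ordinal.{u})) :
    ZFSet.{u} :=
  SigB_sep δ fun z => ∃ q ∈ L, ZFSet.pair (finZ q.1) (finZ q.2) = z

theorem SigB_mem_L {δ d : Ordinal.{u}} (hδ : Order.IsSuccLimit δ) (hd : d < δ)
    {L : Set (Finset Ordinal.{u} × Finset Ordinal.{u})}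
    (hL : ∀ q ∈ L, ↑q.1 ⊆ Iio d ∧ ↑q.2 ⊆ Iio d) {b₁ b₂ : ZFSet.{u}} :
    ZFSet.pair b₁ b₂ ∈ SigB_L δ L ↔ ∃ q ∈ L, finZ q.1 = b₁ ∧ finZ q.2 = b₂ := by
  rw [SigB_L, SigB_mem_sep]
  constructor
  · rintro ⟨-, q, h1, h2⟩
    exact ⟨q, h1, ZFSet.pair_inj.1 h2⟩
  · rintro ⟨q, h1, rfl, rfl⟩
    exact ⟨SigB_rank_pair hδ ((SigB_rank_finZ (hL q h1).1).trans_lt hd)
      ((SigB_rank_finZ (hL q h1).2).trans_lt hd), q, h1, rfl⟩

/-- The code of the family of allowed patterns. -/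
noncomputable def SigB_T (γ : Ordinal.{u})
    (𝓡 : ℕ → Set (Set (Finset Ordinal.{u}) × Set (Finset Ordinal.{u} × Finset Ordinal.{u}))) :
    ZFSet.{u} :=
  SigB_sep (γ + ω + ω) fun z => ∃ n : ℕ, ∃ p ∈ 𝓡 n, ZFSet.pair (γ + n).toZFSet
    {ZFSet.pair (SigB_P (γ + ω) p.1) (SigB_L (γ + ω) p.2)} = z

theorem SigB_lim (γ : Ordinal.{u}) : Order.IsSuccLimit (γ + ω) :=
  isSuccLimit_add γ isSuccLimit_omega0

theorem SigB_lt_add (γ : Ordinal.{u}) : γ < γ + ω := lt_add_of_pos_right γ omega0_pos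

theorem SigB_nat_lt (γ : Ordinal.{u}) (n : ℕ) : γ + n < γ + ω :=
  (add_lt_add_iff_left γ).2 (natCast_lt_omega0 n)

theorem SigB_mem_T {γ : Ordinal.{u}}
    {𝓡 : ℕ → Set (Set (Finset Ordinal.{u}) × Set (Finset Ordinal.{u} × Finset Ordinal.{u}))}
    {n : ℕ} {t : ZFSet.{u}} : ZFSet.pair (γ + n).toZFSet t ∈ SigB_T γ 𝓡 ↔
      ∃ p ∈ 𝓡 n, ({ZFSet.pair (SigB_P (γ + ω) p.1) (SigB_L (γ + ω) p.2)} : ZFSet.{u}) = t := by
  rw [SigB_T, SigB_mem_sep]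
  constructor
  · rintro ⟨-, m, p, hp, h⟩
    obtain ⟨h1, h2⟩ := ZFSet.pair_inj.1 h
    have h3 : (m : Ordinal.{u}) = n := (add_left_cancel_iff).1 (toZFSet_injective h1)
    obtain rfl : m = n := by exact_mod_cast h3
    exact ⟨p, hp, h2⟩
  · rintro ⟨p, hp, rfl⟩
    refine ⟨?_, n, p, hp, rfl⟩
    have hl := SigB_lim (γ + ω)
    have hlt := SigB_lt_add (γ + ω)
    refine SigB_rank_pair hl ?_ (SigB_rank_sing hl (SigB_rank_pair hl ?_ ?_))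
    · rw [rank_toZFSet]; exact (SigB_nat_lt γ n).trans hlt
    · exact (SigB_rank_sep _ _).trans_lt hlt
    · exact (SigB_rank_sep _ _).trans_lt hlt

/-- The parameter. -/
noncomputable def SigB_p (γ s0 : Ordinal.{u})
    (𝓡 : ℕ → Set (Set (Finset Ordinal.{u}) × Set (Finset Ordinal.{u} × Finset Ordinal.{u}))) :
    ZFSet.{u} :=
  {ZFSet.pair {ZFSet.pair γ.toZFSet s0.toZFSet}
    {ZFSet.pair (ZFSet.pair γ.toZFSet (SigB_gr γ id)) (SigB_T γ 𝓡)}}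

theorem SigB_rank_p {κ γ s0 : Ordinal.{u}} (hκ : Reg κ) (hγ : γ < κ) (hs : s0 < γ)
    (𝓡 : ℕ → Set (Set (Finset Ordinal.{u}) × Set (Finset Ordinal.{u} × Finset Ordinal.{u}))) :
    (SigB_p γ s0 𝓡).rank < κ := by
  have hl := hκ.isSuccLimit
  have h1 : γ + ω < κ := hκ.add_lt hγ hκ.omega_lt
  have h2 : γ + ω + ω < κ := hκ.add_lt h1 hκ.omega_lt
  have h3 : γ.toZFSet.rank < κ := by rwa [rank_toZFSet]
  refine SigB_rank_sing hl (SigB_rank_pair hl (SigB_rank_sing hl (SigB_rank_pair hl h3 ?_))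
    (SigB_rank_sing hl (SigB_rank_pair hl (SigB_rank_pair hl h3 ?_) ?_)))
  · rw [rank_toZFSet]; exact hs.trans hγ
  · exact (SigB_rank_gr (SigB_lim γ) (SigB_lt_add γ).le
      fun ξ hξ => hξ.trans (SigB_lt_add γ)).trans_lt h1
  · exact (SigB_rank_sep _ _).trans_lt h2

/-! ### The two directions -/

theorem SigB_image_subset {κ d : Ordinal.{u}} {h : Ordinal.{u} → Ordinal.{u}}
    (hh : ∀ ξ < d, h ξ < κ) {b : Finset Ordinal.{u}} (hb : ↑b ⊆ Iio d) :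
    ↑(b.image h) ⊆ Iio κ := by
  intro ζ hζ
  obtain ⟨ξ, hξ, rfl⟩ := Finset.mem_image.1 (Finset.mem_coe.1 hζ)
  exact hh ξ (hb hξ)

theorem SigB_cp_iff {κ d δ : Ordinal.{u}} (hd : d ≤ κ) (hδ : d < δ) {W G x : ZFSet.{u}}
    {g : Finset Ordinal.{u} → Ordinal.{u}}
    (hW : ∀ w, w ∈ W ↔ ∃ b : Finset Ordinal.{u}, ↑b ⊆ Iio κ ∧ finZ b = w)
    (hG : ∀ b : Finset Ordinal.{u}, ↑b ⊆ Iio κ → ∀ y,
      ZFSet.pair (finZ b) y ∈ G ↔ y = (g b).toZFSet)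
    {h : Ordinal.{u} → Ordinal.{u}} (hh : ∀ ξ < d, h ξ < κ) {P : Set (Finset Ordinal.{u})} :
    SigB_CP W G x d.toZFSet (SigB_gr d h) (SigB_P δ P) ↔
      ∀ b : Finset Ordinal.{u}, ↑b ⊆ Iio d → (b ∈ P ↔ (g (b.image h)).toZFSet ∈ x) := by
  constructor
  · intro H b hb
    have h1 := SigB_image_subset hh hb
    rw [← SigB_mem_P hδ hb]
    exact H _ ((hW _).2 ⟨b, hb.trans (Iio_subset_Iio hd), rfl⟩) (SigB_finZ_subset.2 hb) _
      ((hW _).2 ⟨_, h1, rfl⟩) ((SigB_img_iff hb).2 rfl) _ ((hG _ h1 _).2 rfl)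
  · intro H b hb hbd c _ hc y hy
    obtain ⟨b, -, rfl⟩ := (hW _).1 hb
    have hb' := SigB_finZ_subset.1 hbd
    obtain rfl := (SigB_img_iff hb').1 hc
    obtain rfl := (hG _ (SigB_image_subset hh hb') _).1 hy
    rw [SigB_mem_P hδ hb']
    exact H b hb'

theorem SigB_mem_H {κ γ : Ordinal.{u}} {H : ZFSet.{u}} (hclo : SigB_Clo H κ.toZFSet)
    (hb : ZFSet.pair γ.toZFSet (SigB_gr γ id) ∈ H) (n : ℕ) :
    ∀ h : Ordinal.{u} → Ordinal.{u}, (∀ ξ < γ, h ξ = ξ) → StrictMonoOn h (Iio (γ + n)) →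
      (∀ ξ < γ + n, h ξ < κ) → ZFSet.pair (γ + n).toZFSet (SigB_gr (γ + n) h) ∈ H := by
  induction n with
  | zero =>
    intro h h1 _ _
    rw [Nat.cast_zero, add_zero, SigB_gr_congr (h' := id) h1]
    exact hb
  | succ n ih =>
    intro h h1 h2 h3
    rw [Nat.cast_succ, ← add_assoc] at h2 h3 ⊢
    have hlt : γ + n < γ + n + 1 := Order.lt_add_one_iff.2 le_rfl
    have h4 := ih h h1 (fun a ha b hb hab => h2 (lt_trans ha hlt) (lt_trans hb hlt) hab) fun ξ hξ => h3 ξ (hξ.trans hlt)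
    rw [SigB_gr_succ, toZFSet_add_one]
    refine hclo _ _ h4 _ (toZFSet_mem_toZFSet_iff.2 (h3 _ hlt)) fun a y hay => ?_
    obtain ⟨ξ, hξ, -, rfl⟩ := SigB_pair_mem_gr.1 hay
    exact toZFSet_mem_toZFSet_iff.2 (h2 (hξ.trans hlt) hlt hξ)

end Aux

theorem sigma1_pattern {κ : Cardinal.{u}} (hκ : Inacc κ.ord) {γ s0 : Ordinal.{u}} (hγ : γ < κ.ord)
    (hs : s0 < γ)
    (𝓡 : ℕ → Set (Set (Finset Ordinal.{u}) × Set (Finset Ordinal.{u} × Finset Ordinal.{u})))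
    (h𝓡 : ∀ n : ℕ, ∀ p ∈ 𝓡 n, (∀ b ∈ p.1, ↑b ⊆ Iio (γ + n)) ∧
      ∀ q ∈ p.2, ↑q.1 ⊆ Iio (γ + n) ∧ ↑q.2 ⊆ Iio (γ + n)) :
    ∃ g : Finset Ordinal.{u} → Ordinal.{u},
      (∀ b : Finset Ordinal.{u}, ↑b ⊆ Iio κ.ord → g b < κ.ord) ∧ InjOn g {b | ↑b ⊆ Iio κ.ord} ∧
      Sigma1Def κ {x | (∀ y ∈ x, ∃ b : Finset Ordinal.{u}, ↑b ⊆ Iio κ.ord ∧ y = (g b).toZFSet) ∧
        ∃ o : Finset Ordinal.{u} → Ordinal.{u}, (∀ ξ, γ ≤ ξ → ξ < κ.ord → o {s0, ξ} = ξ) ∧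
          ∀ (n : ℕ) (h : Ordinal.{u} → Ordinal.{u}), (∀ ξ < γ, h ξ = ξ) →
            StrictMonoOn h (Iio (γ + n)) → (∀ ξ < γ + n, h ξ < κ.ord) → ∃ p ∈ 𝓡 n,
              (∀ b : Finset Ordinal.{u}, ↑b ⊆ Iio (γ + n) →
                (b ∈ p.1 ↔ (g (b.image h)).toZFSet ∈ x)) ∧
              ∀ q ∈ p.2, o (q.1.image h) < o (q.2.image h)} := by
  have hreg : Reg κ.ord := hκ.1
  obtain ⟨g, hg1, hg2, hg3⟩ := exists_colex_rank hreg
  refine ⟨g, hg1, hg2, ?_⟩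
  have hS := sigma1_of_udf κ SigB_R
    (hered_small_of_rank hκ (SigB_rank_p hreg hγ hs 𝓡))
  have hnat : ∀ n : ℕ, γ + n < κ.ord := fun n => hreg.add_lt hγ (hreg.nat_lt n)
  have hpair : ∀ ξ < κ.ord, ↑({s0, ξ} : Finset Ordinal.{u}) ⊆ Iio κ.ord := by
    intro ξ hξ a ha
    rcases Finset.mem_insert.1 (Finset.mem_coe.1 ha) with rfl | ha
    · exact hs.trans hγ
    · rw [Finset.mem_singleton.1 ha]; exact hξ
  convert hS using 1
  ext x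
  rw [mem_ofPred_eq, mem_ofPred_eq, SigB_exists_R]
  constructor
  · rintro ⟨hx, o, ho, hpat⟩
    have : Small.{u} {b : Finset Ordinal.{u} // ↑b ⊆ Iio κ.ord} :=
      small_of_injective (β := Iio κ.ord) (f := fun b => ⟨g b.1, hg1 b.1 b.2⟩)
        fun b c hbc => Subtype.ext (hg2 b.2 c.2 (congrArg Subtype.val hbc))
    let W : ZFSet.{u} := ZFSet.range fun b : {b : Finset Ordinal.{u} // ↑b ⊆ Iio κ.ord} => finZ b.1
    have hW : ∀ w, w ∈ W ↔ ∃ b : Finset Ordinal.{u}, ↑b ⊆ Iio κ.ord ∧ finZ b = w := fun w => by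
      rw [ZFSet.mem_range]
      exact ⟨fun ⟨b, hb⟩ => ⟨b.1, b.2, hb⟩, fun ⟨b, h1, h2⟩ => ⟨⟨b, h1⟩, h2⟩⟩
    have hW' : IsFinSub W κ.ord.toZFSet := isFinSub_iff.2 hW
    obtain ⟨⟨G, hG⟩, hG2⟩ := hg3 W hW'
    have hG' := hG2 G hG
    let O : ZFSet.{u} := ZFSet.range fun b : {b : Finset Ordinal.{u} // ↑b ⊆ Iio κ.ord} =>
      ZFSet.pair (finZ b.1) (o b.1).toZFSet
    have hO1 : ∀ b : Finset Ordinal.{u}, ↑b ⊆ Iio κ.ord →
        ZFSet.pair (finZ b) (o b).toZFSet ∈ O := fun b hb =>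
      ZFSet.mem_range.2 ⟨⟨b, hb⟩, rfl⟩
    have hO2 : ∀ (b : Finset Ordinal.{u}) (y : ZFSet.{u}), ZFSet.pair (finZ b) y ∈ O →
        y = (o b).toZFSet := fun b y hy => by
      obtain ⟨c, hc⟩ := ZFSet.mem_range.1 hy
      obtain ⟨h1, h2⟩ := ZFSet.pair_inj.1 hc
      rw [← h2, finZ_inj h1]
    let H : ZFSet.{u} := SigB_sep (κ.ord + ω) fun z => ∃ (n : ℕ) (h : Ordinal.{u} → Ordinal.{u}),
      (∀ ξ < γ, h ξ = ξ) ∧ StrictMonoOn h (Iio (γ + n)) ∧ (∀ ξ < γ + n, h ξ < κ.ord) ∧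
        ZFSet.pair (γ + n).toZFSet (SigB_gr (γ + n) h) = z
    have hH1 : ∀ (n : ℕ) (h : Ordinal.{u} → Ordinal.{u}), (∀ ξ < γ, h ξ = ξ) →
        StrictMonoOn h (Iio (γ + n)) → (∀ ξ < γ + n, h ξ < κ.ord) →
        ZFSet.pair (γ + n).toZFSet (SigB_gr (γ + n) h) ∈ H := fun n h h1 h2 h3 => by
      refine SigB_mem_sep.2 ⟨SigB_rank_pair (SigB_lim _) ?_ ?_, n, h, h1, h2, h3, rfl⟩
      · rw [rank_toZFSet]; exact (hnat n).trans (SigB_lt_add _)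
      · exact (SigB_rank_gr hreg.isSuccLimit (hnat n).le h3).trans_lt (SigB_lt_add _)
    have hH2 : ∀ d h', ZFSet.pair d h' ∈ H → ∃ (n : ℕ) (h : Ordinal.{u} → Ordinal.{u}),
        (∀ ξ < γ, h ξ = ξ) ∧ StrictMonoOn h (Iio (γ + n)) ∧ (∀ ξ < γ + n, h ξ < κ.ord) ∧
          (γ + n).toZFSet = d ∧ SigB_gr (γ + n) h = h' := fun d h' hd => by
      obtain ⟨-, n, h, h1, h2, h3, h4⟩ := SigB_mem_sep.1 hd
      exact ⟨n, h, h1, h2, h3, ZFSet.pair_inj.1 h4⟩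
    refine ⟨W, G, O, H, hW', hG, ?_, ?_, SigB_par_iff.2 ⟨⟨?_, ?_⟩, ?_, ?_⟩⟩
    · intro y hy
      obtain ⟨b, hb, rfl⟩ := hx y hy
      exact ⟨_, (hW _).2 ⟨b, hb, rfl⟩, (hG' b hb _).2 rfl⟩
    · intro d h' hd z hz hlt
      obtain ⟨n, h, h1, h2, h3, rfl, rfl⟩ := hH2 d h' hd
      obtain ⟨ζ, hζ, rfl⟩ := mem_toZFSet_iff.1 hz
      have hlt' : ∀ ξ < γ + n, h ξ < ζ := fun ξ hξ =>
        toZFSet_mem_toZFSet_iff.1 (hlt _ _ (SigB_pair_mem_gr.2 ⟨ξ, hξ, rfl, rfl⟩))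
      have hup : ∀ ξ < γ + n, Function.update h (γ + n) ζ ξ = h ξ := fun ξ hξ =>
        Function.update_of_ne hξ.ne _ _
      have key := hH1 (n + 1) (Function.update h (γ + n) ζ)
        (fun ξ hξ => by rw [hup ξ (hξ.trans_le le_self_add), h1 ξ hξ])
        (by
          rw [Nat.cast_succ, ← add_assoc]
          intro a ha b hb hab
          have hb' : b ≤ γ + n := Order.lt_add_one_iff.1 hb
          have ha' : a < γ + n := hab.trans_le hb'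
          rw [hup a ha']
          rcases hb'.eq_or_lt with rfl | hb'
          · rw [Function.update_self]; exact hlt' a ha'
          · rw [hup b hb']; exact h2 ha' hb' hab)
        (by
          rw [Nat.cast_succ, ← add_assoc]
          intro a ha
          rcases (Order.lt_add_one_iff.1 ha).eq_or_lt with rfl | ha'
          · rw [Function.update_self]; exact hζ
          · rw [hup a ha']; exact h3 a ha')
      rw [Nat.cast_succ, ← add_assoc, SigB_gr_succ, toZFSet_add_one, Function.update_self,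
        SigB_gr_congr hup] at key
      exact key
    · intro b hb
      obtain ⟨b', hb', rfl⟩ := (hW _).1 hb
      exact ⟨_, hO1 b' hb', ZFSet.isOrdinal_toZFSet _⟩
    · intro z hz hzγ y hy
      obtain ⟨ζ, hζ, rfl⟩ := mem_toZFSet_iff.1 hz
      rw [← SigB_finZ_pair] at hy
      rw [hO2 _ _ hy, ho ζ (not_lt.1 fun h => hzγ (toZFSet_mem_toZFSet_iff.2 h)) hζ]
    · have := hH1 0 id (fun _ _ => rfl) (strictMono_id.strictMonoOn _)
        (fun ξ hξ => hξ.trans (hnat 0))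
      rwa [Nat.cast_zero, add_zero] at this
    · intro d h' hd
      obtain ⟨n, h, h1, h2, h3, rfl, rfl⟩ := hH2 d h' hd
      obtain ⟨p, hp, hp1, hp2⟩ := hpat n h h1 h2 h3
      refine ⟨_, SigB_mem_T.2 ⟨p, hp, rfl⟩, _, _, ZFSet.mem_singleton.2 rfl,
        (SigB_cp_iff (hnat n).le (SigB_nat_lt γ n) hW hG' h3).2 hp1, ?_⟩
      intro b₁ b₂ hb c₁ _ hc₁ c₂ _ hc₂ y₁ hy₁ y₂ hy₂
      obtain ⟨q, hq, rfl, rfl⟩ :=
        (SigB_mem_L (SigB_lim γ) (SigB_nat_lt γ n) (h𝓡 n p hp).2).1 hb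
      obtain rfl := (SigB_img_iff ((h𝓡 n p hp).2 q hq).1).1 hc₁
      obtain rfl := (SigB_img_iff ((h𝓡 n p hp).2 q hq).2).1 hc₂
      rw [hO2 _ _ hy₁, hO2 _ _ hy₂]
      exact toZFSet_mem_toZFSet_iff.2 (hp2 q hq)
  · rintro ⟨W, G, O, H, hW', hG, hval, hclo, hpar⟩
    obtain ⟨⟨hO1, hO2⟩, hb, hpat⟩ := SigB_par_iff.1 hpar
    have hW := isFinSub_iff.1 hW'
    have hG' := (hg3 W hW').2 G hG
    have hex : ∀ b : Finset Ordinal.{u}, ∃ ξ : Ordinal.{u}, ↑b ⊆ Iio κ.ord →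
        ZFSet.pair (finZ b) ξ.toZFSet ∈ O := fun b => by
      by_cases hb : ↑b ⊆ Iio κ.ord
      · obtain ⟨y, hy1, hy2⟩ := hO1 _ ((hW _).2 ⟨b, hb, rfl⟩)
        exact ⟨y.rank, fun _ => by rwa [hy2.toZFSet_rank_eq]⟩
      · exact ⟨0, fun h => (hb h).elim⟩
    choose o ho using hex
    refine ⟨fun y hy => ?_, o, fun ξ h1 h2 => ?_, fun n h h1 h2 h3 => ?_⟩
    · obtain ⟨b, hb, hy⟩ := hval y hy
      obtain ⟨b', hb', rfl⟩ := (hW _).1 hb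
      exact ⟨b', hb', (hG' b' hb' _).1 hy⟩
    · have h3 := ho _ (hpair ξ h2)
      rw [SigB_finZ_pair] at h3
      exact toZFSet_injective (hO2 _ (toZFSet_mem_toZFSet_iff.2 h2)
        (fun h => (toZFSet_mem_toZFSet_iff.1 h).not_ge h1) _ h3)
    · obtain ⟨t, ht, P, L, hPL, hP, hL⟩ := hpat _ _ (SigB_mem_H hclo hb n h h1 h2 h3)
      obtain ⟨p, hp, rfl⟩ := SigB_mem_T.1 ht
      obtain ⟨rfl, rfl⟩ := ZFSet.pair_inj.1 (ZFSet.mem_singleton.1 hPL)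
      refine ⟨p, hp, (SigB_cp_iff (hnat n).le (SigB_nat_lt γ n) hW hG' h3).1 hP, fun q hq => ?_⟩
      obtain ⟨hq1, hq2⟩ := (h𝓡 n p hp).2 q hq
      have i1 := SigB_image_subset h3 hq1
      have i2 := SigB_image_subset h3 hq2
      exact toZFSet_mem_toZFSet_iff.1 (hL _ _
        ((SigB_mem_L (SigB_lim γ) (SigB_nat_lt γ n) (h𝓡 n p hp).2).2 ⟨q, hq, rfl, rfl⟩)
        _ ((hW _).2 ⟨_, i1, rfl⟩) ((SigB_img_iff hq1).2 rfl)
        _ ((hW _).2 ⟨_, i2, rfl⟩) ((SigB_img_iff hq2).2 rfl) _ (ho _ i1) _ (ho _ i2))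

end Pool.Agent.P.MP_833f7a_lc
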