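import Pool.Agent.P.MP_833f7a_lc.Nice

/-!
The step lemma for limits.
-/

universe u v w

namespace Pool.Agent.P.MP_833f7a_lc

open Cardinal Ordinal Set Code

namespace TSys

variable {σ : TSys.{u}} {t : Trm}

section aux

open scoped Classical

variable {n n0 N : ℕ} {Φ : Set Qt.{u}} {E : ℕ → Qt.{u}}

/-- The value of `t` at the point `a`. -/
noncomputable def StepL_pt (σ : TSys.{u}) (t : Trm) (E : ℕ → Qt.{u}) (a : Qt.{u}) : Qt.{u} :=
  fun l => ev (tailF σ.S σ.A) t σ.b (ec (a l) fun i => E i l) 0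

theorem StepL_bpos (h : σ.Ok) : 0 < σ.b := h.reg.1.pos.trans_le h.le

theorem StepL_zero_mem (h : σ.Ok) : od 0 ∈ σ.Cs := h.cs_od 0 (by simp) (StepL_bpos h)

theorem StepL_od_mem (h : σ.Ok) {ξ : Ordinal.{u}} (hξ : ξ < σ.μ) : od ξ ∈ σ.Cs :=
  h.cs_od ξ hξ.le (hξ.trans_le h.le)

theorem StepL_in (hΦ : ∀ f ∈ Φ, σ.QOk n n0 f) :
    ∀ f ∈ Φ, ∀ l, (∀ z ∈ l, z < σ.μ) → (f l).In σ.b := fun f hf l hl => ((hΦ f hf).2 l hl).1

theorem StepL_pt_in (h : σ.Ok) (hΦ : ∀ f ∈ Φ, σ.QOk n n0 f) (hE : ∀ i, E i ∈ Φ) {a : Qt.{u}}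
    {m m0 : ℕ} (ha : σ.QOk m m0 a) (l : List Ordinal.{u}) (hl : ∀ z ∈ l, z < σ.μ) :
    (StepL_pt σ t E a l).In σ.b :=
  ev_in t h.reg.2.2.1 (inE_ec.2 ⟨(ha.2 l hl).1, fun i => StepL_in hΦ _ (hE i) l hl⟩) 0

/-- The two values of `t`, with validity of all the quantities. -/
theorem StepL_two (h : σ.Ok) (ht : t.depth ≤ σ.K) (hs : σ.StepFor t)
    (hΦ : ∀ f ∈ Φ, σ.QOk n n0 f) (hE : ∀ i, E i ∈ Φ) {a a' : Qt.{u}} (ha : σ.QOk n n0 a)
    (ha' : σ.QOk n n0 a') (hn : σ.Nice n (Φ ∪ {a, a'})) :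
    σ.Nice n (Φ ∪ {StepL_pt σ t E a, StepL_pt σ t E a'}) ∧
      ∀ f ∈ Φ ∪ {StepL_pt σ t E a, StepL_pt σ t E a'}, ∀ l, (∀ z ∈ l, z < σ.μ) →
        (f l).In σ.b := by
  refine ⟨h.nice_two ht hs hΦ hE ha ha' hn, ?_⟩
  rintro f (hf | rfl | rfl) l hl
  · exact StepL_in hΦ f hf l hl
  · exact StepL_pt_in h hΦ hE ha l hl
  · exact StepL_pt_in h hΦ hE ha' l hl

theorem StepL_head (hn : σ.Nice n Φ) (hN : n ≤ N) {x : Qt.{u}} (hx : x ∈ Φ) {fs : List Qt.{u}}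
    (hfs : ∀ f ∈ fs, f ∈ Φ ∨ ∃ i, f = prj i) {s : CE.{u} → Code.{u}} (hs : s ∈ σ.TT) :
    GoodF σ.A σ.μ N fun l => s (ofL (x l :: fs.map fun f => f l)) :=
  hn N hN (x :: fs) (fun f hf => by
    rcases List.mem_cons.1 hf with rfl | hf
    · exact Or.inl hx
    · exact hfs f hf) s hs

theorem StepL_head_cst (h : σ.Ok) (hΦ : ∀ f ∈ Φ, ∀ l, (∀ z ∈ l, z < σ.μ) → (f l).In σ.b)
    (hn : σ.Nice n Φ) (hN : n ≤ N) {y : Code.{u}} (hy : y ∈ σ.Cs) {fs : List Qt.{u}}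
    (hfs : ∀ f ∈ fs, f ∈ Φ ∨ ∃ i, f = prj i) {s : CE.{u} → Code.{u}} (hs : s ∈ σ.TT) :
    GoodF σ.A σ.μ N fun l => s (ofL (y :: fs.map fun f => f l)) :=
  StepL_head (h.nice_cst hΦ hn) hN (x := fun _ => y) (Or.inr ⟨y, hy, rfl⟩)
    (fun f hf => (hfs f hf).imp_left Or.inl) hs

/-- The common value of two quantities, or zero. -/
theorem StepL_ite (h : σ.Ok) (hΦ : ∀ f ∈ Φ, ∀ l, (∀ z ∈ l, z < σ.μ) → (f l).In σ.b)
    (hn : σ.Nice n Φ) (hN : n ≤ N) {x x' : Qt.{u}} (hx : x ∈ Φ) (hx' : x' ∈ Φ)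
    {fs : List Qt.{u}} (hfs : ∀ f ∈ fs, f ∈ Φ ∨ ∃ i, f = prj i) {s : CE.{u} → Code.{u}}
    (hs : s ∈ σ.TT) : GoodF σ.A σ.μ N fun l =>
      s (ofL ((if x l = x' l then x l else od 0) :: fs.map fun f => f l)) := by
  obtain ⟨hr, hu, -, -⟩ := h.reg
  have hm := h.mn_eq hΦ hn hx hx' hN
  refine goodF_pieces hr hu (J := Bool) (few_countable hr Bool)
    (P := fun j l => cond j (x l = x' l) (¬ x l = x' l))
    (H := fun j l => s (ofL (cond j (x l) (od 0) :: fs.map fun f => f l))) ?_ ?_ ?_ ?_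
  · rintro (_ | _)
    · exact hm.not hr hu
    · exact hm
  · rintro (_ | _)
    · exact StepL_head_cst h hΦ hn hN (StepL_zero_mem h) hfs hs
    · exact StepL_head hn hN hx hfs hs
  · intro l _
    by_cases e : x l = x' l
    · exact ⟨true, e⟩
    · exact ⟨false, e⟩
  · rintro (_ | _) l _ e
    · simp only [cond_false] at e ⊢
      rw [if_neg e]
    · simp only [cond_true] at e ⊢
      rw [if_pos e]

theorem StepL_mn_cst (h : σ.Ok) (hΦ : ∀ f ∈ Φ, σ.QOk n n0 f) (hn : σ.Nice n Φ) (hN : n ≤ N)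
    {f : Qt.{u}} (hf : f ∈ Φ) {y : Code.{u}} (hy : y ∈ σ.Cs) :
    Mn σ.A σ.μ N fun l => f l = y := by
  refine h.mn_eq (Φ := Φ ∪ {f | ∃ y ∈ σ.Cs, f = fun _ => y}) (f := f) (g := fun _ => y) ?_
    (h.nice_cst (StepL_in hΦ) hn) (Or.inl hf) (Or.inr ⟨y, hy, rfl⟩) hN
  rintro g (hg | ⟨y', hy', rfl⟩) l hl
  · exact StepL_in hΦ g hg l hl
  · exact h.cs_in y' hy'

theorem StepL_two_cst (h : σ.Ok) (ht : t.depth ≤ σ.K) (hs : σ.StepFor t)
    (hΦ : ∀ f ∈ Φ, σ.QOk n n0 f) (hn : σ.Nice n Φ) (hE : ∀ i, E i ∈ Φ) {η η' : Ordinal.{u}}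
    (hη : η < σ.μ) (hη' : η' < σ.μ) :
    σ.Nice n (Φ ∪ {StepL_pt σ t E fun _ => od η, StepL_pt σ t E fun _ => od η'}) ∧
      ∀ f ∈ Φ ∪ {StepL_pt σ t E fun _ => od η, StepL_pt σ t E fun _ => od η'}, ∀ l,
        (∀ z ∈ l, z < σ.μ) → (f l).In σ.b := by
  refine StepL_two h ht hs hΦ hE (h.qok_cst (StepL_od_mem h hη)) (h.qok_cst (StepL_od_mem h hη'))
    ((h.nice_cst (StepL_in hΦ) hn).mono ?_ le_rfl)
  rintro f (hf | rfl | rfl)
  · exact Or.inl hf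
  · exact Or.inr ⟨_, StepL_od_mem h hη, rfl⟩
  · exact Or.inr ⟨_, StepL_od_mem h hη', rfl⟩

/-- The piece of a lower family is measured. -/
theorem StepL_mn_low (h : σ.Ok) (ht : t.depth ≤ σ.K) (hs : σ.StepFor t)
    (hΦ : ∀ f ∈ Φ, σ.QOk n n0 f) (hn : σ.Nice n Φ) (hE : ∀ i, E i ∈ Φ) (hN : n ≤ N)
    {μ' η0 : Ordinal.{u}} (hμ' : μ' < σ.μ) (h0 : η0 < σ.μ) :
    Mn σ.A σ.μ N fun l => AE σ.A μ' fun η =>
      StepL_pt σ t E (fun _ => od η) l = StepL_pt σ t E (fun _ => od η0) l := by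
  obtain ⟨hr, hu, -, -⟩ := h.reg
  have h1 : ∀ δ η : Iio μ', Mn σ.A σ.μ N fun l => ¬ (η.1 ∈ σ.A ∧ δ.1 ≤ η.1) ∨
      StepL_pt σ t E (fun _ => od η.1) l = StepL_pt σ t E (fun _ => od η0) l := by
    intro δ η
    obtain ⟨a, b⟩ := StepL_two_cst h ht hs hΦ hn hE (lt_trans η.2 hμ') h0
    exact (mn_const hr hu _).or hr hu
      (h.mn_eq b a (Or.inr (Or.inl rfl)) (Or.inr (Or.inr rfl)) hN)
  refine (mn_ex hr hu (few_Iio hr hμ') fun δ =>
    mn_all hr hu (few_Iio hr hμ') fun η => h1 δ η).congr fun l _ => ?_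
  constructor
  · rintro ⟨δ, hδ⟩
    exact ⟨δ.1, δ.2, fun η a b c => (hδ ⟨η, c⟩).resolve_left fun k => k ⟨a, b⟩⟩
  · rintro ⟨δ, hδ, k⟩
    refine ⟨⟨δ, hδ⟩, fun η => ?_⟩
    by_cases e : η.1 ∈ σ.A ∧ δ ≤ η.1
    · exact Or.inr (k η.1 e.1 e.2 η.2)
    · exact Or.inl e

theorem StepL_prj_lt {i : ℕ} {l : List Ordinal.{u}} (hi : i < l.length) (l' : List Ordinal.{u}) :
    prj i (l ++ l') = prj i l := by
  simp only [prj, List.getD_eq_getElem?_getD, List.getElem?_append_left hi]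

theorem StepL_prj_add (l l' : List Ordinal.{u}) (i : ℕ) :
    prj (l.length + i) (l ++ l') = od (l'.getD i 0) := by
  simp only [prj, List.getD_eq_getElem?_getD,
    List.getElem?_append_right (Nat.le_add_right l.length i), Nat.add_sub_cancel_left]

/-- The limit over the family itself. -/
theorem StepL_mid (h : σ.Ok) (ht : t.depth ≤ σ.K) (hs : σ.StepFor t)
    (hΦ : ∀ f ∈ Φ, σ.QOk n n0 f) (hn : σ.Nice n Φ) (hE : ∀ i, E i ∈ Φ) (hN : n ≤ N)
    {fs : List Qt.{u}} (hfs : ∀ f ∈ fs, f ∈ Φ ∨ ∃ i < N, f = prj i) {s : CE.{u} → Code.{u}}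
    (hs' : s ∈ σ.TT) : GoodF σ.A σ.μ N fun l => s (ofL (limF (tailF σ.S σ.A) σ.μ
      (fun η => StepL_pt σ t E (fun _ => od η) l) :: fs.map fun f => f l)) := by
  obtain ⟨hr, hu, -, hF⟩ := h.reg
  have hN2 : n ≤ N + 2 := by omega
  obtain ⟨a, b⟩ := StepL_two (n := N + 2) (n0 := n0) h ht hs
    (fun f hf => (hΦ f hf).mono hN2 le_rfl h) hE (a := prj N) (a' := prj (N + 1))
    (h.qok_prj (by omega)) (h.qok_prj (by omega)) (hn.add_prj.mono (by
      rintro f (hf | rfl | rfl)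
      · exact Or.inl hf
      · exact Or.inr ⟨_, rfl⟩
      · exact Or.inr ⟨_, rfl⟩) hN2)
  have hG := StepL_ite h b a le_rfl (x := StepL_pt σ t E (prj N))
    (x' := StepL_pt σ t E (prj (N + 1))) (Or.inr (Or.inl rfl)) (Or.inr (Or.inr rfl)) (fs := fs)
    (fun f hf => (hfs f hf).imp Or.inl fun ⟨i, _, e⟩ => ⟨i, e⟩) hs'
  have hM := h.mn_eq b a (f := StepL_pt σ t E (prj N)) (g := StepL_pt σ t E (prj (N + 1)))
    (Or.inr (Or.inl rfl)) (Or.inr (Or.inr rfl)) le_rfl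
  refine goodF_of_ext hr hu (m := 2) hG fun l hl => ?_
  have hEl : ∀ l', (fun i => E i (l ++ l')) = fun i => E i l := fun l' =>
    funext fun i => (hΦ _ (hE i)).1 l l' (by rw [hl.1]; exact hN)
  have hpt : ∀ (i : ℕ) (l' : List Ordinal.{u}), StepL_pt σ t E (prj (N + i)) (l ++ l') =
      StepL_pt σ t E (fun _ => od (l'.getD i 0)) l := by
    intro i l'
    simp only [StepL_pt]
    rw [hEl l', ← hl.1, StepL_prj_add]
  have hfl : ∀ l', (fs.map fun f => f (l ++ l')) = fs.map fun f => f l := by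
    intro l'
    refine List.map_congr_left fun f hf => ?_
    rcases hfs f hf with hf | ⟨i, hi, rfl⟩
    · exact (hΦ f hf).1 l l' (by rw [hl.1]; exact hN)
    · exact StepL_prj_lt (by rw [hl.1]; exact hi) l'
  have hM2 : Mn σ.A σ.μ 2 fun l' => StepL_pt σ t E (fun _ => od (l'.getD 0 0)) l =
      StepL_pt σ t E (fun _ => od (l'.getD 1 0)) l :=
    (hM.section hl).congr fun l' _ => by rw [← hpt 0 l', ← hpt 1 l']; rfl
  have hval : ∀ z z' : Ordinal.{u},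
      (if StepL_pt σ t E (prj N) (l ++ [z, z']) = StepL_pt σ t E (prj (N + 1)) (l ++ [z, z']) then
        StepL_pt σ t E (prj N) (l ++ [z, z']) else od 0) =
      if StepL_pt σ t E (fun _ => od z) l = StepL_pt σ t E (fun _ => od z') l then
        StepL_pt σ t E (fun _ => od z) l else od 0 := by
    intro z z'
    have e0 : StepL_pt σ t E (prj N) (l ++ [z, z']) = StepL_pt σ t E (fun _ => od z) l :=
      hpt 0 [z, z']
    have e1 : StepL_pt σ t E (prj (N + 1)) (l ++ [z, z']) = StepL_pt σ t E (fun _ => od z') l :=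
      hpt 1 [z, z']
    rw [e0, e1]
  show AE σ.A σ.μ fun z => AE σ.A σ.μ fun z' => _
  rcases two_point hr hu (g := fun z => StepL_pt σ t E (fun _ => od z) l) hM2 with
    ⟨v, hv⟩ | ⟨hv, hne⟩
  · have e := limF_eq hF ((tailF_iff (S := σ.S) h.mem).2 hv)
    refine hv.mono fun z _ hz => hv.mono fun z' _ hz' => ?_
    show s _ = s _
    rw [hval, hfl, e, hz, hz', if_pos rfl]
  · have e : limF (tailF σ.S σ.A) σ.μ (fun η => StepL_pt σ t E (fun _ => od η) l) = od 0 :=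
      limF_of_not fun ⟨v, k⟩ => hv ⟨v, (tailF_iff (S := σ.S) h.mem).1 k⟩
    refine hne.mono fun z _ hz => hz.mono fun z' _ hz' => ?_
    show s _ = s _
    rw [hval, hfl, e, if_neg hz']

/-- Few measured pieces and their complement. -/
theorem StepL_cover {A : Set Ordinal.{u}} {μ : Ordinal.{u}} (hr : Reg μ) (hu : Unb A μ)
    {J : Type v} (hJ : Few μ J) {P : J → List Ordinal.{u} → Prop}
    {G H0 : List Ordinal.{u} → Code.{u}} (hP : ∀ j, Mn A μ N (P j))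
    (hH : ∀ j, ∃ H, GoodF A μ N H ∧ ∀ l, Dom μ N l → P j l → G l = H l) (h0 : GoodF A μ N H0)
    (h1 : ∀ l, Dom μ N l → (∀ j, ¬ P j l) → G l = H0 l) : GoodF A μ N G := by
  choose H hH using hH
  refine goodF_pieces hr hu (hJ.option hr)
    (P := fun o l => o.elim (∀ j, ¬ P j l) fun j => P j l)
    (H := fun o => o.elim H0 H) ?_ ?_ ?_ ?_
  · rintro (_ | j)
    · exact mn_all hr hu hJ fun j => (hP j).not hr hu
    · exact hP j
  · rintro (_ | j)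
    · exact h0
    · exact (hH j).1
  · intro l _
    by_cases e : ∃ j, P j l
    · obtain ⟨j, e⟩ := e
      exact ⟨some j, e⟩
    · exact ⟨none, fun j k => e ⟨j, k⟩⟩
  · rintro (_ | j) l hl e
    · exact h1 l hl e
    · exact (hH j).2 l hl e

theorem StepL_lim_od {l : List Ordinal.{u}} {μ' : Ordinal.{u}} (e : E 0 l = od μ') :
    ev (tailF σ.S σ.A) (.lim t) σ.b (fun j => E j l) 0 =
      limF (tailF σ.S σ.A) μ' fun η => StepL_pt σ t E (fun _ => od η) l := by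
  rw [ev_lim_od t (e := fun j => E j l) e]
  rfl

end aux

theorem Ok.step_lim (h : σ.Ok) (ht : t.depth ≤ σ.K) (hs : σ.StepFor t) (hH : σ.High t) :
    σ.StepFor (.lim t) := by
  classical
  intro n n0 Φ E hΦ hn hE
  obtain ⟨hr, hu, -, hF⟩ := h.reg
  obtain ⟨γ, hγ, hγS⟩ := h.gam
  obtain ⟨Jx, a, a', P, hJ, ha, hP, hcov, htwo⟩ := hH n n0 Φ E hΦ hn hE
  have hsub : (Φ ∪ range fun i l => ev (tailF σ.S σ.A) (.lim t) σ.b (fun j => E j l) i) ⊆
      insert (fun l => ev (tailF σ.S σ.A) (.lim t) σ.b (fun j => E j l) 0) Φ := by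
    rintro f (hf | ⟨i, rfl⟩)
    · exact Or.inr hf
    · exact Or.inl rfl
  refine (h.nice_insert (StepL_in hΦ) (fun l hl =>
    ((h.qok_ev (t := .lim t) ht (fun i => hΦ _ (hE i)) 0).2 l hl).1) ?_).mono hsub le_rfl
  intro N hN fs hfs s hs'
  have hfs' : ∀ f ∈ fs, f ∈ Φ ∨ ∃ i, f = prj i :=
    fun f hf => (hfs f hf).imp_right fun ⟨i, _, e⟩ => ⟨i, e⟩
  refine StepL_cover hr hu (J := (Iio γ × Iio γ) ⊕ Option Jx)
    (Few.sum hr (Few.prod hr (few_Iio hr hγ) (few_Iio hr hγ)) (hJ.option hr))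
    (P := Sum.elim (fun p l => p.1.1 ∈ σ.S ∧ E 0 l = od p.1.1 ∧ AE σ.A p.1.1 fun η =>
        StepL_pt σ t E (fun _ => od η) l = StepL_pt σ t E (fun _ => od p.2.1) l)
      fun o => o.elim (fun l => E 0 l = od σ.μ) P)
    (H0 := fun l => s (ofL (od 0 :: fs.map fun f => f l))) ?_ ?_
    (StepL_head_cst h (StepL_in hΦ) hn hN (StepL_zero_mem h) hfs' hs') ?_
  · rintro (p | _ | j)
    · exact (mn_const hr hu _).and hr hu
        ((StepL_mn_cst h hΦ hn hN (hE 0) (StepL_od_mem h (lt_trans p.1.2 hγ))).and hr hu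
          (StepL_mn_low h ht hs hΦ hn hE hN (lt_trans p.1.2 hγ) (lt_trans p.2.2 hγ)))
    · by_cases e : σ.μ < σ.b
      · exact StepL_mn_cst h hΦ hn hN (hE 0) (h.cs_od _ le_rfl e)
      · refine (mn_const hr hu False).congr fun l hl => ⟨False.elim, fun k => e ?_⟩
        have k2 : E 0 l = od σ.μ := k
        have := StepL_in hΦ _ (hE 0) l hl.2
        rwa [k2] at this
    · exact hP j N hN
  · rintro (p | _ | j)
    · obtain ⟨k, -⟩ := StepL_two_cst h ht hs hΦ hn hE (lt_trans p.2.2 hγ) (lt_trans p.2.2 hγ)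
      refine ⟨_, StepL_head k hN (Or.inr (Or.inl rfl))
        (fun f hf => (hfs' f hf).imp_left Or.inl) hs', ?_⟩
      rintro l _ ⟨e1, e2, e3⟩
      rw [StepL_lim_od e2, limF_eq hF ((tailF_iff (S := σ.S) e1).2 e3)]
    · refine ⟨_, StepL_mid h ht hs hΦ hn hE hN hfs hs', fun l _ e => ?_⟩
      have e2 : E 0 l = od σ.μ := e
      rw [StepL_lim_od e2]
    · obtain ⟨k1, k2⟩ := StepL_two (n0 := n0 + 2) h ht hs
        (fun f hf => (hΦ f hf).mono le_rfl (Nat.le_add_right _ _) h) hE (ha j).1 (ha j).2.1 (ha j).2.2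
      refine ⟨_, StepL_ite h k2 k1 hN (Or.inr (Or.inl rfl)) (Or.inr (Or.inr rfl))
        (fun f hf => (hfs' f hf).imp_left Or.inl) hs', fun l hl e => ?_⟩
      obtain ⟨e1, e2⟩ := htwo j l hl.2 (by rw [hl.1]; exact hN) e
      by_cases e3 : StepL_pt σ t E (a j) l = StepL_pt σ t E (a' j) l
      · rw [if_pos e3, e1 e3]
        rfl
      · rw [if_neg e3, e2 e3]
  · intro l hl hno
    have e0 : ev (tailF σ.S σ.A) (.lim t) σ.b (fun j => E j l) 0 = od 0 := by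
      cases e : E 0 l with
      | st c s x y => simp only [ev_lim, e, limc]
      | od μ' =>
        rw [StepL_lim_od e]
        rcases limF_cases (tailF σ.S σ.A) μ' (fun η => StepL_pt σ t E (fun _ => od η) l) with
          ⟨η0, k0, k1, -⟩ | ⟨-, k⟩
        · exfalso
          have hS : μ' ∈ σ.S := k1.1
          rcases lt_trichotomy μ' σ.μ with c | c | c
          · exact hno (Sum.inl (⟨μ', hγS μ' hS c⟩, ⟨η0, lt_trans k0 (hγS μ' hS c)⟩))
              ⟨hS, e, (tailF_iff (S := σ.S) hS).1 k1⟩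
          · exact hno (Sum.inr none) (by rw [← c]; exact e)
          · have hb := StepL_in hΦ _ (hE 0) l hl.2
            rw [e] at hb
            obtain ⟨j, hj⟩ := hcov l hl.2 (by rw [hl.1]; exact hN) μ' ⟨hS, c, hb⟩ e
            exact hno (Sum.inr (some j)) hj
        · exact k
    rw [e0]

theorem step_fam {I : Type v} (σ : I → TSys.{u}) {K : ℕ} (h : ∀ i, (σ i).Ok)
    (hK : ∀ i, (σ i).K = K)
    (hH : ∀ t : Trm, t.depth ≤ K → (∀ i, (σ i).StepFor t) → ∀ i, (σ i).High t) (t : Trm)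
    (ht : t.depth ≤ K) (i : I) : (σ i).StepFor t := by
  induction t generalizing i with
  | id => exact step_id
  | tl => exact step_tl
  | cut => exact (h i).step_bas (Or.inl rfl)
  | op o => exact (h i).step_bas (Or.inr (Or.inl ⟨o, rfl⟩))
  | mk s _ => exact (h i).step_bas (Or.inr (Or.inr (Or.inl ⟨s, rfl⟩)))
  | low s _ => exact (h i).step_bas (Or.inr (Or.inr (Or.inr (Or.inl ⟨s, rfl⟩))))
  | eps s _ =>
    exact (h i).step_bas (Or.inr (Or.inr (Or.inr (Or.inr ⟨s, rfl, by rw [hK i]; exact ht⟩))))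
  | cons s s' ih1 ih2 =>
    have h1 : s.depth ≤ K := (le_max_left _ _).trans ht
    have h2 : s'.depth ≤ K := (le_max_right _ _).trans ht
    exact (h i).step_cons (by rw [hK i]; exact h1) (ih1 h1 i) (ih2 h2 i)
  | comp s s' ih1 ih2 =>
    have h1 : s.depth ≤ K := (le_max_left _ _).trans ht
    have h2 : s'.depth ≤ K := (le_max_right _ _).trans ht
    exact (h i).step_comp (by rw [hK i]; exact h2) (ih1 h1 i) (ih2 h2 i)
  | lim s ih =>
    have h1 : s.depth ≤ K := ht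
    exact (h i).step_lim (by rw [hK i]; exact h1) (ih h1 i) (hH s h1 (ih h1) i)

end TSys

end Pool.Agent.P.MP_833f7a_lc
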