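import Pool.Agent.P.MP_833f7a_lc.RecTm
import Pool.Agent.P.MP_833f7a_lc.ExtL

/-!
The stretch of a good theory.
-/

universe u v w

namespace Pool.Agent.P.MP_833f7a_lc

open Cardinal Ordinal Set Code Nm

variable {c : Cls.{u}} {κ : Ordinal.{u}}

/-- `μ` is the position of a family with chosen atoms. -/
def Stretch_P (m : UM c κ) (μ : Ordinal.{u})
    (p : Nm.{u} Ordinal.{u} × (Ordinal.{u} → Nm.{u} Ordinal.{u})) : Prop :=
  m.Adm p.1 ∧ m.UpE p.1 ∧ m.Atoms p.1 p.2 ∧ m.rk p.1 = μ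

open Classical in
/-- The positions of the atoms. -/
noncomputable def Stretch_e (m : UM c κ) (μ η : Ordinal.{u}) : Ordinal.{u} :=
  if h : ∃ p, Stretch_P m μ p then m.rk (h.choose.2 η) else 0

/-- The canonical structure. -/
noncomputable def Stretch_R (m : UM c κ) : Str.{u} Ordinal.{u} :=
  ⟨Fcan c κ, m.ht, th κ 0, id, fun i => m.pi (par i), Stretch_e m⟩

section
variable {m : UM c κ} {ν g : Nm.{u} Ordinal.{u}} {a : Ordinal.{u} → Nm.{u} Ordinal.{u}}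

theorem Stretch_e_eq (h : m.Adm g) (hu : m.UpE g) (ha : m.Atoms g a) (η : Ordinal.{u}) :
    Stretch_e m (m.rk g) η = m.rk (a η) := by
  have hex : ∃ p, Stretch_P m (m.rk g) p := ⟨(g, a), h, hu, ha, rfl⟩
  rw [Stretch_e, dif_pos hex]
  obtain ⟨h', hu', ha', hr⟩ := hex.choose_spec
  have he : m.EqE hex.choose.1 g := (UM.rk_eq_iff h' h hu'.ordE hu.ordE).1 hr
  refine UM.rk_congr (ha'.2.1 η) (ha.2.1 η) ?_
  refine UM.Ev.mono ((UM.Ev.and he hu).and ((ha'.2.2 η).and (ha.2.2 η))) ?_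
  rintro R ⟨⟨e1, μ, -, e2⟩, e3, e4⟩
  rw [e3 μ (e1.trans e2), e4 μ e2]

theorem Stretch_rk (hv : c.Valid κ) (h : m.Adm g) (hu : m.UpE g) : m.rk g = th κ (m.fi g) := by
  obtain ⟨a, ha⟩ := UM.fam_atoms hv h hu
  exact (UM.pos_fam hv h hu ha).1

theorem Stretch_used (hv : c.Valid κ) {ξ : Ordinal.{u}} (h : th κ ξ < m.ht) :
    ∃ g, m.Adm g ∧ m.UpE g ∧ m.rk g = th κ ξ := by
  obtain ⟨g, hg, hu, e⟩ := UM.pos_used hv h
  exact ⟨g, hg, hu, by rw [Stretch_rk hv hg hu, e]⟩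

theorem Stretch_up (hv : c.Valid κ) {μ : Ordinal.{u}} :
    (Stretch_R m).Up μ ↔ ∃ g, m.Adm g ∧ m.UpE g ∧ m.rk g = μ := by
  constructor
  · rintro (⟨e, h⟩ | ⟨h0, h, hd⟩)
    · have e' : μ = th κ 0 := e
      subst e'
      exact Stretch_used hv h
    · rcases dom_Fcan hd with hlt | ⟨ξ, rfl⟩
      · exact absurd (hlt.trans (hv.2.1.trans ((lt_th κ 0).trans h0))) (lt_irrefl _)
      · exact Stretch_used hv h
  · rintro ⟨g, hg, hu, rfl⟩
    have hlt : m.rk g < m.ht := UM.rk_lt_ht hg hu.ordE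
    have e := Stretch_rk hv hg hu
    rcases eq_or_ne (m.fi g) 0 with h0 | h0
    · exact Or.inl ⟨by rw [e, h0]; rfl, hlt⟩
    · refine Or.inr ⟨?_, hlt, ?_⟩
      · rw [e]; exact th_strictMono κ (pos_iff_ne_zero.2 h0)
      · rw [e]; exact dom_Fcan_th

theorem Stretch_rk0 (hv : c.Valid κ) (hb : c.hb) : m.rk (par 0) = th κ 0 := by
  rw [Stretch_rk hv (UM.adm_par 0) (UM.upE_par0 hb), UM.fi_par0]

theorem Stretch_hb (hv : c.Valid κ) : c.hb ↔ th κ 0 < m.ht := by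
  constructor
  · intro hb
    rw [← Stretch_rk0 (m := m) hv hb]
    exact UM.rk_lt_ht (UM.adm_par 0) (UM.upE_par0 hb).ordE
  · intro h
    obtain ⟨g, -, hu, -⟩ := Stretch_used hv h
    exact hu.hb

theorem Stretch_pos (hv : c.Valid κ) : 0 < c.γ := lt_of_lt_of_le reg_omega1.pos hv.1

theorem Stretch_can (hv : c.Valid κ) (m : UM c κ) : Can c κ (Stretch_R m) where
  F := rfl
  fs := UM.fs_can hv m
  le := UM.le_ht
  mu := rfl
  cv := fun _ _ => rfl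
  pin := fun i => UM.pi_in hv (UM.adm_par i)
  pz := fun i hi => (UM.pi_eq_small hv (UM.adm_par i) (Stretch_pos hv)).2
    (UM.ev_of_forall fun s => (m.real s).pz i hi)
  hb := Stretch_hb hv
  p0 := fun h => by
    have hb : c.hb := (Stretch_hb hv).2 h
    show m.pi (par 0) = od (th κ 0)
    rw [UM.pi_od (UM.upE_par0 hb).ordE, Stretch_rk0 hv hb]
  club := fun μ hμ => by
    obtain ⟨g, hg, hu, rfl⟩ := (Stretch_up hv).1 hμ
    obtain ⟨a, ha⟩ := UM.fam_atoms hv hg hu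
    obtain ⟨e, hc⟩ := UM.pos_fam hv hg hu ha
    have he : (Stretch_R m).e (m.rk g) = fun η => m.rk (a η) :=
      funext fun η => Stretch_e_eq hg hu ha η
    rw [he, e]
    exact ⟨reg_th _ _, lt_th _ _, hc⟩

/-- A name whose code is a family of the stretch names a family. -/
theorem Stretch_upE (hv : c.Valid κ) (h : m.Adm g) {μ : Ordinal.{u}} (hμ : (Stretch_R m).Up μ)
    (e : m.pi g = od μ) : m.UpE g ∧ m.rk g = μ := by
  obtain ⟨g', hg', hu', e'⟩ := (Stretch_up hv).1 hμ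
  obtain ⟨o, e''⟩ := UM.ordE_of_pi hv h e
  exact ⟨hu'.congr ((UM.rk_eq_iff hg' h hu'.ordE o).1 (e'.trans e''.symm)), e''⟩

theorem Stretch_b (hv : c.Valid κ) {η : Ordinal.{u}} (h : m.Adm (b η)) :
    (Stretch_R m).den (b η) = fun _ => m.pi (b η) := by
  by_cases hb : c.hb
  · have hu : m.UpE (par 0) := UM.upE_par0 hb
    obtain ⟨a, ha⟩ := UM.fam_atoms hv (UM.adm_par 0) hu
    have he : m.Ev fun R => R.den (b η) = fun _ => od (R.e R.μ0 η) :=
      UM.ev_fs.mono fun R hR => den_b_of_lt (hR.2.2.1.1 hb)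
    have ho : m.OrdE (b η) := he.mono fun R hR => ⟨_, by rw [hR]⟩
    have hE : m.EqE (b η) (a η) := by
      refine UM.Ev.mono ((he.and UM.ev_fs).and (ha.2.2 η)) ?_
      rintro R ⟨⟨e1, e2⟩, e3⟩
      rw [e1, e3 R.μ0 (e2.2.2.2.1 (e2.2.2.1.1 hb))]
    rw [den_b_of_lt (R := Stretch_R m) ((Stretch_hb hv).1 hb), UM.pi_od ho,
      UM.rk_congr h.okK (ha.2.1 η) hE, ← Stretch_e_eq (UM.adm_par 0) hu ha, Stretch_rk0 hv hb]
    rfl
  · rw [den_b_of_not (R := Stretch_R m) fun h' => hb ((Stretch_hb hv).2 h'),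
      (UM.pi_eq_small hv h (Stretch_pos hv)).2 (UM.ev_fs.mono fun R hR => by
        rw [den_b_of_not fun h' => hb (hR.2.2.1.2 h')])]

theorem Stretch_u (hv : c.Valid κ) {η : Ordinal.{u}} (h : m.Adm (u η g)) (hg : m.Adm g)
    (ih : (Stretch_R m).den g 0 = m.pi g) :
    (Stretch_R m).den (u η g) = fun _ => m.pi (u η g) := by
  by_cases hU : m.Ev fun R => ∃ μ, R.den g 0 = od μ ∧ R.U μ
  · have hu : m.UpE g := hU.mono fun R ⟨μ, e, hμ⟩ => ⟨μ, Or.inr hμ, e⟩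
    obtain ⟨a, ha⟩ := UM.fam_atoms hv hg hu
    have hE : m.EqE (u η g) (a η) := by
      refine UM.Ev.mono (hU.and (ha.2.2 η)) ?_
      rintro R ⟨⟨μ, e, hμ⟩, e3⟩
      rw [den_u_of_U e hμ, e3 μ e]
    have ho : m.OrdE (u η g) := hU.mono fun R ⟨μ, e, hμ⟩ => ⟨_, by rw [den_u_of_U e hμ]⟩
    have hel : m.ElE (par 0) g := by
      refine UM.Ev.mono (hU.and UM.ev_fs) ?_
      rintro R ⟨⟨μ, e, hμ⟩, e2⟩
      show El R.F (R.pv 0) (R.den g 0)
      rw [e, e2.2.2.2.1 (hμ.1.trans hμ.2.1)]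
      exact el_od_od.2 hμ.1
    have hlt : th κ 0 < m.rk g := by
      rw [← Stretch_rk0 (m := m) hv hu.hb]
      exact UM.rk_lt (UM.adm_par 0) hg.okK hel
    have hUs : (Stretch_R m).U (m.rk g) := by
      rcases (Stretch_up hv).2 ⟨g, hg, hu, rfl⟩ with ⟨e, -⟩ | hh
      · exact absurd e hlt.ne'
      · exact hh
    rw [den_u_of_U (ih.trans (UM.pi_od hu.ordE)) hUs, UM.pi_od ho,
      UM.rk_congr h.okK (ha.2.1 η) hE, ← Stretch_e_eq hg hu ha]
    rfl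
  · have hn : ¬ ∃ μ, (Stretch_R m).den g 0 = od μ ∧ (Stretch_R m).U μ := by
      rintro ⟨μ, e, hμ⟩
      obtain ⟨hu, e'⟩ := Stretch_upE hv hg (Or.inr hμ) (ih.symm.trans e)
      have hel : m.ElE (par 0) g := by
        refine (UM.rk_lt_iff (UM.adm_par 0) hg (UM.upE_par0 hu.hb).ordE hu.ordE).1 ?_
        rw [Stretch_rk0 hv hu.hb, e']
        exact hμ.1
      refine hU (UM.Ev.mono ((UM.Ev.and hu hel).and UM.ev_fs) ?_)
      rintro R ⟨⟨⟨z, hz, e1⟩, e2⟩, e3⟩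
      refine ⟨z, e1, ?_⟩
      rcases hz with ⟨rfl, hz⟩ | hz
      · have e4 : El R.F (R.pv 0) (R.den g 0) := e2
        rw [e1, e3.2.2.2.1 hz] at e4
        exact absurd (el_od_od.1 e4) (lt_irrefl _)
      · exact hz
    rw [den_u_of_not hn, (UM.pi_eq_small hv h (Stretch_pos hv)).2
      ((UM.ev_not.2 hU).mono fun R hR => by rw [den_u_of_not hR])]

theorem Stretch_den (hv : c.Valid κ) (ν : Nm.{u} Ordinal.{u}) :
    m.Adm ν → (Stretch_R m).den ν = m.Pi ν := by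
  induction ν with
  | lf x =>
    intro h
    rw [UM.Pi_const h.okK (UM.ev_of_forall fun s i => rfl)]
    rcases x with ξ | i
    · rw [UM.pi_cst (ok_cst.1 h.okK)]; rfl
    · rfl
  | b η =>
    intro h
    rw [UM.Pi_const h.okK (UM.ev_of_forall fun s i => rfl)]
    exact Stretch_b hv h
  | u η g ih =>
    intro h
    have hg : m.Adm g := h.occ (i := η) List.mem_cons_self
    rw [UM.Pi_const h.okK (UM.ev_of_forall fun s i => rfl)]
    exact Stretch_u hv h hg (by rw [ih hg, UM.Pi_zero hg.okK])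
  | app t ν ih =>
    intro h
    rw [UM.rec_app hv h, den_app, ih (UM.adm_app.1 h).1]
    rfl
  | cons ν ν' ih ih' =>
    intro h
    obtain ⟨h1, h2⟩ := UM.adm_cons.1 h
    rw [UM.Pi_cons h1.okK h2.okK, den_cons, ih h1, ih' h2, UM.Pi_zero h1.okK]

theorem Stretch_bnd (hv : c.Valid κ) (hg : m.Adm g) (i : Ordinal.{u}) :
    ((∀ μ, (Stretch_R m).Up μ → (Stretch_R m).den g 0 = od μ → i < μ) ∧
      ((¬ ∃ μ, (Stretch_R m).Up μ ∧ (Stretch_R m).den g 0 = od μ) → i < κ)) ↔ i < m.bnd g := by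
  rw [Stretch_den hv g hg, UM.Pi_zero hg.okK, UM.bnd]
  by_cases hu : m.UpE g
  · rw [if_pos hu, ← Stretch_rk hv hg hu]
    have hup : (Stretch_R m).Up (m.rk g) := (Stretch_up hv).2 ⟨g, hg, hu, rfl⟩
    constructor
    · exact fun h => h.1 _ hup (UM.pi_od hu.ordE)
    · intro h
      refine ⟨fun μ hμ e => ?_, fun hn => absurd ⟨_, hup, UM.pi_od hu.ordE⟩ hn⟩
      rw [← (Stretch_upE hv hg hμ e).2]
      exact h
  · rw [if_neg hu]
    constructor
    · exact fun h => h.2 fun ⟨μ, hμ, e⟩ => hu (Stretch_upE hv hg hμ e).1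
    · exact fun h => ⟨fun μ hμ e => absurd (Stretch_upE hv hg hμ e).1 hu, fun _ => h⟩

theorem Stretch_adm (hv : c.Valid κ) (ν : Nm.{u} Ordinal.{u}) :
    AdmS c κ (Stretch_R m) ν → m.Adm ν := by
  induction ν with
  | lf x => exact fun h => ⟨h.1, fun i g hg => absurd hg List.not_mem_nil⟩
  | b η =>
    refine fun h => ⟨h.1, fun i g hg => ?_⟩
    have e : g = par 0 := (Prod.mk.inj (List.mem_singleton.1 hg)).2
    have hg' : m.Adm g := e ▸ UM.adm_par 0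
    exact (Stretch_bnd hv hg' i).1 (h.2 i g hg)
  | u η g ih =>
    intro h
    have hg : m.Adm g := ih ⟨(ok_u.1 h.1).2.2, fun i g' hi => h.2 i g' (List.mem_cons_of_mem _ hi)⟩
    refine ⟨h.1, fun i g' hi => ?_⟩
    rcases List.mem_cons.1 hi with e | hi'
    · have e' : g' = g := (Prod.mk.inj e).2
      have hg' : m.Adm g' := e' ▸ hg
      exact (Stretch_bnd hv hg' i).1 (h.2 i g' hi)
    · exact hg.2 i g' hi'
  | app t ν ih => exact fun h => ⟨h.1, (ih ⟨h.1.of_app, h.2⟩).2⟩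
  | cons ν ν' ih ih' =>
    intro h
    obtain ⟨h1, h2⟩ := ok_cons.1 h.1
    exact UM.adm_cons.2 ⟨ih ⟨h1, fun i g hi => h.2 i g (List.mem_append_left _ hi)⟩,
      ih' ⟨h2, fun i g hi => h.2 i g (List.mem_append_right _ hi)⟩⟩

end

theorem UM.exists_can (hv : c.Valid κ) (m : UM c κ) : ∃ R : Str.{u} Ordinal.{u}, Can c κ R ∧
    R.β = m.ht ∧ (∀ ν, m.Adm ν → R.den ν = m.Pi ν) ∧ ∀ ν, AdmS c κ R ν ↔ m.Adm ν :=
  ⟨Stretch_R m, Stretch_can hv m, rfl, Stretch_den hv, fun ν => ⟨Stretch_adm hv ν, fun h =>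
    ⟨h.1, fun i g hg => (Stretch_bnd hv (h.occ hg) i).2 (h.2 i g hg)⟩⟩⟩

theorem exists_stretch (hv : c.Valid κ) {T : Set (Nm.{u} Ordinal.{u})} (hT : Good c κ T) :
    ∃ R, IsStretch c κ T R := by
  obtain ⟨m, hm⟩ := hT.exists_um hv.2.1.le
  obtain ⟨R, hc, hβ, hd, ha⟩ := m.exists_can hv
  refine ⟨R, hc, fun ν hν => ?_, fun x hx => ?_⟩
  · have h := (ha ν).1 hν
    rw [hm ν h.okK, ← UM.pi_eq_tt hv h, Str.Tr, hd ν h, UM.Pi_zero h.okK]
  · obtain ⟨ν, h, e⟩ := UM.pi_surj (m := m) hv (hβ ▸ hx)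
    exact ⟨ν, (ha ν).2 h, by rw [hd ν h, UM.Pi_zero h.okK, e]⟩

end Pool.Agent.P.MP_833f7a_lc
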