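import Mathlib.Data.List.GetD
import Pool.Agent.P.MP_833f7a_lc.Sys
import Pool.Agent.P.MP_833f7a_lc.TDL
import Pool.Agent.P.MP_833f7a_lc.AE2

/-!
The test system for `(b, k + 1)`; initial niceness of both systems.
-/

universe u v w

namespace Pool.Agent.P.MP_833f7a_lc

open Cardinal Ordinal Set Code

variable {S A : Set Ordinal.{u}} {μ b : Ordinal.{u}} {k K : ℕ} {Y Cs : Set Code.{u}} {fl : Prop}
  {e : Ordinal.{u} → Ordinal.{u} → Ordinal.{u}} {X : Set (Code.{u} → Code.{u})}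
  {J : ℕ → Code.{u} → Prop} {f : CE.{u} → CE.{u}}

theorem Prog.mono {ok ok' : Trm → Prop} (h : Prog S A μ b ok Y fl e f) (hok : ∀ t, ok t → ok' t) :
    Prog S A μ b ok' Y fl e f := by
  induction h with
  | cst y h => exact .cst y h
  | trm t h => exact .trm t (hok t h)
  | u n h => exact .u n h
  | cons _ _ ih ih' => exact .cons ih ih'
  | comp _ _ ih ih' => exact .comp ih ih'
theorem SysA_ok_mono {k k' : ℕ} (h : k ≤ k') (t : Trm) (ht : okA k t) : okA k' t :=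
  ht.imp (fun h1 => h1.trans h) fun ⟨ψ, h1, h2⟩ => ⟨ψ, h1, h2.trans h⟩
theorem Prog.exists_depth (h : Prog S A μ b (fun _ => True) Y fl e f) :
    ∃ k, Prog S A μ b (okA k) Y fl e f := by
  induction h with
  | cst y h => exact ⟨0, .cst y h⟩
  | trm t _ => exact ⟨t.depth, .trm t (Or.inl le_rfl)⟩
  | u n h => exact ⟨0, .u n h⟩
  | cons _ _ ih ih' =>
    obtain ⟨k, h⟩ := ih
    obtain ⟨k', h'⟩ := ih'
    exact ⟨max k k', .cons (h.mono (SysA_ok_mono (le_max_left _ _)))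
      (h'.mono (SysA_ok_mono (le_max_right _ _)))⟩
  | comp _ _ ih ih' =>
    obtain ⟨k, h⟩ := ih
    obtain ⟨k', h'⟩ := ih'
    exact ⟨max k k', .comp (h.mono (SysA_ok_mono (le_max_left _ _)))
      (h'.mono (SysA_ok_mono (le_max_right _ _)))⟩
theorem SysA_apL {q : List Code.{u}} (hq : ∀ y ∈ q, y ∈ Y) :
    Prog S A μ b (fun _ => True) Y fl e fun x => apL q x := by
  induction q with
  | nil => exact Prog.trm .id trivial
  | cons y q ih =>
    exact Prog.cons (Prog.cst y (hq y List.mem_cons_self))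
      (ih fun z hz => hq z (List.mem_cons_of_mem _ hz))
theorem TE.prog {G : CE.{u} → CE.{u}} (h : TE (tailF S A) b Y G) :
    ∃ f, Prog S A μ b (fun _ => True) Y fl e f ∧ ∀ x, InE x b → f x = G x := by
  obtain ⟨t, q, hq, h⟩ := h
  exact ⟨_, Prog.comp (Prog.trm t trivial) (SysA_apL hq), h⟩

theorem SysA_basic {g : CE.{u} → Code.{u}}
    (hg : TSys.Basic ⟨S, A, μ, b, k + 1, TTA S A μ b k Y fl e, Y, uvs S μ b fl e, J⟩ g) :
    ∃ g', Prog S A μ b (okA k) Y fl e g' ∧ ∀ x, g' x 0 = g x := by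
  rcases hg with ⟨y, hy, rfl⟩ | ⟨t, i, ht, rfl⟩ | ⟨_, ⟨hf, n, rfl⟩, rfl⟩
  · exact ⟨_, Prog.cst y hy, fun _ => rfl⟩
  · have h1 : okA k t := by
      rcases ht with rfl | ⟨o, rfl⟩ | ⟨s, rfl⟩ | ⟨s, rfl⟩ | ⟨ψ, rfl, h⟩
      · exact Or.inl (Nat.zero_le _)
      · exact Or.inl (Nat.zero_le _)
      · exact Or.inl (Nat.zero_le _)
      · exact Or.inl (Nat.zero_le _)
      · exact Or.inr ⟨ψ, rfl, Nat.le_of_succ_le_succ h⟩
    refine ⟨_, Prog.comp (Prog.trm (Trm.tls i) (Or.inl (by rw [depth_tls]; exact Nat.zero_le _)))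
      (Prog.trm t h1), fun x => ?_⟩
    simp only [ev_tls, Nat.zero_add]
  · exact ⟨_, Prog.u n hf, fun _ => rfl⟩

theorem tests_A : TSys.Tests ⟨S, A, μ, b, k + 1, TTA S A μ b k Y fl e, Y, uvs S μ b fl e, J⟩ :=
  { ren := by
      rintro _ ⟨f, hf, rfl⟩ is
      refine ⟨_, ⟨_, Prog.comp hf (Prog.trm (Trm.sel is)
        (Or.inl (by rw [depth_sel]; exact Nat.zero_le _))), rfl⟩, fun x _ => ?_⟩
      simp only [ev_sel]
    bas := by
      rintro _ ⟨f, hf, rfl⟩ g hg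
      obtain ⟨g', h1, h2⟩ := SysA_basic hg
      refine ⟨fun _ x => ev (tailF S A) Trm.tt b x 0,
        fun _ x => f (ec (g' x 0) (ev (tailF S A) .id b x)) 0, fun _ => ⟨⟨_, Prog.trm Trm.tt
          (Or.inl (by rw [depth_tt]; exact Nat.zero_le _)), rfl⟩, ⟨_, Prog.comp hf (Prog.cons h1
          (Prog.trm .id (Or.inl (Nat.zero_le _)))), rfl⟩⟩, fun x _ => ⟨⟨0, ?_⟩, fun _ _ => ?_⟩⟩
      · simp only [ev_tt]
      · simp only [ev_id, h2]
    prj := ⟨_, ⟨_, Prog.trm .id (Or.inl (Nat.zero_le _)), rfl⟩, fun _ _ =>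
      ⟨Iff.rfl, fun _ _ h => h⟩⟩ }

theorem SysA_prj {fs : List Qt.{u}} (h : ∀ f ∈ fs, f ∈ (∅ : Set Qt.{u}) ∨ ∃ i, f = prj i) :
    ∃ is : List ℕ, ∀ l, (fs.map fun f => f l) = is.map fun i => od (l.getD i 0) := by
  induction fs with
  | nil => exact ⟨[], fun _ => rfl⟩
  | cons f fs ih =>
    obtain ⟨is, h1⟩ := ih fun g hg => h g (List.mem_cons_of_mem _ hg)
    obtain ⟨i, rfl⟩ := (h f List.mem_cons_self).resolve_left (Set.notMem_empty _)
    exact ⟨i :: is, fun l => by rw [List.map_cons, List.map_cons, h1]; rfl⟩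

theorem nice_A (h : InitP S A μ b k Y fl e) :
    TSys.Nice ⟨S, A, μ, b, K, TTA S A μ b k Y fl e, Cs, X, J⟩ 0 ∅ := by
  rintro N - fs hfs _ ⟨f, hf, rfl⟩
  obtain ⟨is, h1⟩ := SysA_prj hfs
  simp only [h1]
  exact h f hf N is

theorem DD_ec (b0 : Ordinal.{u}) (y : Code.{u}) (x : CE.{u}) :
    DD b0 (ec y x) = apL [Dc b0 0 y, Dc b0 1 y, Dc b0 2 y, Dc b0 3 y] (DD b0 x) := by
  funext i
  rcases i with _ | _ | _ | _ | i
  · rfl
  · rfl
  · rfl
  · rfl
  · have h1 : (i + 1 + 1 + 1 + 1) % 4 = i % 4 := by omega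
    have h2 : (i + 1 + 1 + 1 + 1) / 4 = i / 4 + 1 := by omega
    simp only [apL_cons, apL_nil, ec_succ, DD, h1, h2]
theorem Dc_in {b0 : Ordinal.{u}} (hb : ω ≤ b0) {y : Code.{u}} (hy : y.In (b0 + 1)) (j : ℕ) :
    (Dc b0 j y).In b0 := by
  have h0 : (od 0 : Code.{u}).In b0 := omega0_pos.trans_le hb
  unfold Dc
  split_ifs with h1 h2 h3 h4 h5
  · exact h1
  · exact h0
  · exact h0
  · cases y with
    | od a => exact one_lt_omega0.trans_le hb
    | st a t p q => exact (natCast_lt_omega0 _).trans_le hb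
  · cases y with
    | od a => exact h0
    | st a t p q => exact hy.2.2.1.mono (Order.lt_add_one_iff.1 hy.2.1)
  · cases y with
    | od a => exact h0
    | st a t p q => exact hy.2.2.2.mono (Order.lt_add_one_iff.1 hy.2.1)
theorem DD_in {b0 : Ordinal.{u}} (hb : ω ≤ b0) {x : CE.{u}} (hx : InE x (b0 + 1)) :
    InE (DD b0 x) b0 := fun _ => Dc_in hb (hx _) _

theorem SysA_DD {b0 : Ordinal.{u}} (h0 : 0 < b0) {v : ℕ → Code.{u}} (hv : ∀ i, (v i).In b0)
    {N : ℕ} (hN : v N = od 0) (is : List ℕ) :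
    DD b0 (ofL (is.map v)) = ofL ((is.flatMap fun i => [i, N, N, N]).map v) := by
  induction is with
  | nil =>
    funext i
    have h1 : (od 0 : Code.{u}).In b0 := h0
    simp only [List.map_nil, List.flatMap_nil, ofL_nil, DD, Dc, h1, if_true, ite_self]
  | cons i is ih =>
    rw [List.map_cons, ofL_cons, DD_ec, ih, List.flatMap_cons, List.map_append, ofL_append]
    simp [Dc, hv i, hN]

theorem nice_B {b0 : Ordinal.{u}} (hμ : 0 < μ) (hle : μ ≤ b0)
    (h : ∀ k, InitP S A μ b0 k Y fl e) :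
    TSys.Nice ⟨S, A, μ, b, K, TTB S A μ b0 Y fl e, Cs, X, J⟩ 0 ∅ := by
  rintro N - fs hfs _ ⟨f, hf, rfl⟩
  obtain ⟨is, h1⟩ := SysA_prj hfs
  obtain ⟨k, hk⟩ := hf.exists_depth
  simp only [h1]
  refine (h k f hk N (is.flatMap fun i => [i, N, N, N])).congr fun l hl => ?_
  rw [SysA_DD (hμ.trans_le hle) (N := N)]
  · intro i
    refine lt_of_lt_of_le ?_ hle
    rcases lt_or_ge i l.length with h2 | h2
    · rw [List.getD_eq_getElem _ _ h2]
      exact hl.2 _ (List.getElem_mem h2)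
    · rw [List.getD_eq_default _ _ h2]
      exact hμ
  · rw [List.getD_eq_default _ _ hl.1.le]

end Pool.Agent.P.MP_833f7a_lc
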