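import Pool.Agent.P.MP_833f7a_lc.SysA

/-!
Operations on codes of top level are definable from the components.
-/

universe u v w

namespace Pool.Agent.P.MP_833f7a_lc

open Cardinal Ordinal Set Code

variable {F : FSys.{u}} {b0 : Ordinal.{u}} {Yb : Set Code.{u}}

/-- Maps with values of level at most `b0` whose components are definable at level `b0`. -/
def SysB1_XD (F : FSys.{u}) (b0 : Ordinal.{u}) (Yb : Set Code.{u}) (f : CE.{u} → Code.{u}) :
    Prop :=
  TD F b0 Yb f ∨ (∀ e, InE e b0 → f e = od b0) ∨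
    ∃ (t : Trm) (p q : CE.{u} → Code.{u}), TD F b0 Yb p ∧ TD F b0 Yb q ∧
      ∀ e, InE e b0 → f e = st b0 t (p e) (q e)

section
variable {f g : CE.{u} → Code.{u}}

theorem SysB1_not_in_od : ¬ (od b0).In b0 := fun h => _root_.lt_irrefl b0 h

theorem SysB1_not_in_st {t : Trm} {p q : Code.{u}} : ¬ (st b0 t p q).In b0 :=
  fun h => _root_.lt_irrefl b0 h.2.1

theorem SysB1_isIn (H : TH b0 Yb) (h : SysB1_XD F b0 Yb f) {e : CE.{u}} (he : InE e b0) :
    (f e).In (b0 + 1) := by
  rcases h with h | h | ⟨t, p, q, hp, hq, h⟩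
  · exact (h.isIn H he).mono le_self_add
  · rw [h e he]; exact lt_add_one b0
  · rw [h e he]; exact ⟨H.om, lt_add_one b0, hp.isIn H he, hq.isIn H he⟩

theorem SysB1_el_in (H : TH b0 Yb) (h : SysB1_XD F b0 Yb f) {e : CE.{u}} (he : InE e b0)
    {w : Code.{u}} (hw : El F w (f e)) : w.In b0 := by
  have h1 := (SysB1_isIn H h he).lv_lt
  rw [← Order.succ_eq_add_one, Order.lt_succ_iff] at h1
  exact hw.isIn.mono h1

theorem SysB1_shift (H : TH b0 Yb) (h : SysB1_XD F b0 Yb f) (n : ℕ) :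
    SysB1_XD F b0 Yb fun e => f fun i => e (i + n) := by
  rcases h with h | h | ⟨t, p, q, hp, hq, h⟩
  · exact Or.inl (h.shift H n)
  · exact Or.inr (Or.inl fun e he => h _ fun i => he _)
  · exact Or.inr (Or.inr ⟨t, _, _, hp.shift H n, hq.shift H n, fun e he => h _ fun i => he _⟩)

theorem SysB1_nat (hn : ∀ n : ℕ, od n ∈ Yb) (n : ℕ) :
    TD F b0 Yb fun _ => od (n : Ordinal.{u}) := TD.cst (hn n)

theorem SysB1_one (hn : ∀ n : ℕ, od n ∈ Yb) : TD F b0 Yb fun _ => tt :=
  (SysB1_nat hn 1).congr fun _ _ => by simp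

theorem SysB1_Dc (H : TH b0 Yb) (hn : ∀ n : ℕ, od n ∈ Yb) (h : SysB1_XD F b0 Yb f) (j : ℕ) :
    TD F b0 Yb fun e => Dc b0 j (f e) := by
  rcases h with h | h | ⟨t, p, q, hp, hq, h⟩
  · by_cases hj : j = 0
    · exact h.congr fun e he => by simp [Dc, h.isIn H he, hj]
    · exact TD.zero.congr fun e he => by simp [Dc, h.isIn H he, hj]
  · by_cases hj : j = 1
    · exact (SysB1_one hn).congr fun e he => by simp [Dc, h e he, hj, Code.typ]
    · exact TD.zero.congr fun e he => by simp [Dc, h e he, hj, Code.q1, Code.q2]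
  · by_cases h0 : j = 0
    · exact TD.zero.congr fun e he => by simp [Dc, h e he, h0]
    by_cases h1 : j = 1
    · exact (SysB1_nat hn (t.num + 2)).congr fun e he => by simp [Dc, h e he, h1, Code.typ]
    by_cases h2 : j = 2
    · exact hp.congr fun e he => by simp [Dc, h e he, h2, Code.q1]
    · exact hq.congr fun e he => by simp [Dc, h e he, h0, h1, h2, Code.q2]

theorem SysB1_el0 (H : TH b0 Yb) (hf : TD F b0 Yb f) (h : SysB1_XD F b0 Yb g) :
    PD F b0 Yb fun e => El F (f e) (g e) := by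
  rcases h with h | h | ⟨t, p, q, hp, hq, h⟩
  · exact PD.el hf h
  · refine (PD.isOd hf).congr fun e he => ?_
    rw [h e he, el_od]
    constructor
    · rintro ⟨a, ha⟩
      have h1 := hf.isIn H he
      rw [ha] at h1
      exact ⟨a, h1, ha⟩
    · rintro ⟨a, -, ha⟩
      exact ⟨a, ha⟩
  · have h1 : TE F b0 Yb fun e => ofL ([f, p, q].map fun f => f e) :=
      TE.ofL (by
        intro r hr
        simp only [List.mem_cons, List.not_mem_nil, or_false] at hr
        rcases hr with rfl | rfl | rfl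
        exacts [hf, hp, hq])
    refine (PD.tt ((TE.ev t h1).entry 0)).congr fun e he => ?_
    have h2 : (st b0 t (p e) (q e)).In (b0 + 1) :=
      ⟨H.om, lt_add_one b0, hp.isIn H he, hq.isIn H he⟩
    rw [h e he, el_st h2]
    exact ⟨fun h3 => ⟨hf.isIn H he, h3⟩, fun h3 => h3.2⟩

theorem SysB1_el (H : TH b0 Yb) (hf : SysB1_XD F b0 Yb f) (h : SysB1_XD F b0 Yb g) :
    PD F b0 Yb fun e => El F (f e) (g e) := by
  rcases hf with hf | hf | ⟨t, p, q, hp, hq, hf⟩
  · exact SysB1_el0 H hf h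
  · refine (PD.const False).congr fun e he => ⟨False.elim, fun h1 => ?_⟩
    have h2 := SysB1_el_in H h he h1
    rw [hf e he] at h2
    exact SysB1_not_in_od h2
  · refine (PD.const False).congr fun e he => ⟨False.elim, fun h1 => ?_⟩
    have h2 := SysB1_el_in H h he h1
    rw [hf e he] at h2
    exact SysB1_not_in_st h2

theorem SysB1_sub (H : TH b0 Yb) (hf : SysB1_XD F b0 Yb f) (h : SysB1_XD F b0 Yb g) :
    PD F b0 Yb fun e => ∀ w, El F w (f e) → ∃ w', El F w' (g e) ∧ cl F w' = cl F w := by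
  have h1 : PD F b0 Yb fun e => El F (e 0) (g fun i => e (i + 2)) ∧ cl F (e 0) = cl F (e 1) :=
    (SysB1_el0 H (TD.var 0) (SysB1_shift H h 2)).and (PD.eqv (TD.var 0) (TD.var 1))
  have h2 := PD.all H ((SysB1_el0 H (TD.var 0) (SysB1_shift H hf 1)).imp (PD.ex H h1))
  refine h2.congr fun e he => ⟨fun h3 w hw => ?_, fun h3 w _ hw => ?_⟩
  · obtain ⟨w', -, h4⟩ := h3 w (SysB1_el_in H hf he hw) hw
    exact ⟨w', h4⟩
  · obtain ⟨w', h4⟩ := h3 w hw
    exact ⟨w', SysB1_el_in H h he h4.1, h4⟩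

theorem SysB1_eqv (H : TH b0 Yb) (hf : SysB1_XD F b0 Yb f) (h : SysB1_XD F b0 Yb g) :
    PD F b0 Yb fun e => cl F (f e) = cl F (g e) :=
  ((SysB1_sub H hf h).and (SysB1_sub H h hf)).congr fun _ _ => cl_eq_iff.symm

theorem SysB1_mem (H : TH b0 Yb) (hf : SysB1_XD F b0 Yb f) (h : SysB1_XD F b0 Yb g) :
    PD F b0 Yb fun e => cl F (f e) ∈ cl F (g e) := by
  have h1 : PD F b0 Yb fun e => El F (e 0) (g fun i => e (i + 1)) ∧
      cl F (e 0) = cl F (f fun i => e (i + 1)) :=
    (SysB1_el0 H (TD.var 0) (SysB1_shift H h 1)).and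
      (SysB1_eqv H (Or.inl (TD.var 0)) (SysB1_shift H hf 1))
  refine (PD.ex H h1).congr fun e he => ?_
  rw [mem_cl]
  exact ⟨fun ⟨w, _, h2⟩ => ⟨w, h2⟩, fun ⟨w, h2⟩ => ⟨w, SysB1_el_in H h he h2.1, h2⟩⟩

theorem SysB1_eq (H : TH b0 Yb) (hf : SysB1_XD F b0 Yb f) (h : SysB1_XD F b0 Yb g) :
    PD F b0 Yb fun e => f e = g e := by
  rcases hf with hf | hf | ⟨t, p, q, hp, hq, hf⟩ <;>
    rcases h with h | h | ⟨t', p', q', hp', hq', h⟩
  · exact PD.eq hf h
  · refine (PD.const False).congr fun e he => ⟨False.elim, fun h1 => ?_⟩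
    have h2 := hf.isIn H he
    rw [h1, h e he] at h2
    exact SysB1_not_in_od h2
  · refine (PD.const False).congr fun e he => ⟨False.elim, fun h1 => ?_⟩
    have h2 := hf.isIn H he
    rw [h1, h e he] at h2
    exact SysB1_not_in_st h2
  · refine (PD.const False).congr fun e he => ⟨False.elim, fun h1 => ?_⟩
    have h2 := h.isIn H he
    rw [← h1, hf e he] at h2
    exact SysB1_not_in_od h2
  · exact (PD.const True).congr fun e he => by simp [hf e he, h e he]
  · exact (PD.const False).congr fun e he => by simp [hf e he, h e he]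
  · refine (PD.const False).congr fun e he => ⟨False.elim, fun h1 => ?_⟩
    have h2 := h.isIn H he
    rw [← h1, hf e he] at h2
    exact SysB1_not_in_st h2
  · exact (PD.const False).congr fun e he => by simp [hf e he, h e he]
  · exact ((PD.const (t = t')).and ((PD.eq hp hp').and (PD.eq hq hq'))).congr fun e he => by
      simp [hf e he, h e he]

theorem SysB1_lt (H : TH b0 Yb) (hf : SysB1_XD F b0 Yb f) (h : SysB1_XD F b0 Yb g) :
    PD F b0 Yb fun e => (f e).Lt (g e) := by
  rcases hf with hf | hf | ⟨t, p, q, hp, hq, hf⟩ <;>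
    rcases h with h | h | ⟨t', p', q', hp', hq', h⟩
  · exact PD.lt hf h
  · refine (PD.const True).congr fun e he => ⟨fun _ => Code.lt_of_lv_lt ?_, fun _ => trivial⟩
    rw [h e he]
    exact (hf.isIn H he).lv_lt
  · refine (PD.const True).congr fun e he => ⟨fun _ => Code.lt_of_lv_lt ?_, fun _ => trivial⟩
    rw [h e he]
    exact (hf.isIn H he).lv_lt
  · refine (PD.const False).congr fun e he => ⟨False.elim, fun h1 => ?_⟩
    have h2 := h1.lv_le
    rw [hf e he] at h2
    exact absurd (h.isIn H he).lv_lt (not_lt.2 h2)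
  · exact (PD.const False).congr fun e he => by simp [hf e he, h e he]
  · exact (PD.const True).congr fun e he => by simp [hf e he, h e he, Code.Lt]
  · refine (PD.const False).congr fun e he => ⟨False.elim, fun h1 => ?_⟩
    have h2 := h1.lv_le
    rw [hf e he] at h2
    exact absurd (h.isIn H he).lv_lt (not_lt.2 h2)
  · exact (PD.const False).congr fun e he => by simp [hf e he, h e he, Code.Lt]
  · exact ((PD.const (t.num < t'.num)).or ((PD.const (t = t')).and ((PD.lt hp hp').or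
      ((PD.eq hp hp').and (PD.lt hq hq'))))).congr fun e he => by
      simp [hf e he, h e he, Code.Lt]

theorem SysB1_op (H : TH b0 Yb) (hn : ∀ n : ℕ, od n ∈ Yb) (o : Op) (hf : SysB1_XD F b0 Yb f)
    (h : SysB1_XD F b0 Yb g) : SysB1_XD F b0 Yb fun e => opv (El F) o (f e) (g e) := by
  cases o with
  | zero => exact Or.inl TD.zero
  | fst => exact hf
  | eq => exact Or.inl (SysB1_eq H hf h)
  | lt => exact Or.inl (SysB1_lt H hf h)
  | nand =>
    exact Or.inl ((SysB1_eq H hf (Or.inl (SysB1_one hn))).and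
      (SysB1_eq H h (Or.inl (SysB1_one hn)))).not
  | lv =>
    rcases hf with hf | hf | ⟨t, p, q, hp, hq, hf⟩
    · exact Or.inl hf.lv
    · exact Or.inr (Or.inl fun e he => by simp [opv, hf e he])
    · exact Or.inr (Or.inl fun e he => by simp [opv, hf e he])
  | nm =>
    rcases hf with hf | hf | ⟨t, p, q, hp, hq, hf⟩
    · exact Or.inl hf.nm
    · exact Or.inl (TD.zero.congr fun e he => by simp [opv, hf e he, Code.nm])
    · exact Or.inl ((SysB1_nat hn (t.num + 1)).congr fun e he => by simp [opv, hf e he, Code.nm])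
  | q1 =>
    rcases hf with hf | hf | ⟨t, p, q, hp, hq, hf⟩
    · exact Or.inl hf.q1
    · exact Or.inl (TD.zero.congr fun e he => by simp [opv, hf e he, Code.q1])
    · exact Or.inl (hp.congr fun e he => by simp [opv, hf e he, Code.q1])
  | q2 =>
    rcases hf with hf | hf | ⟨t, p, q, hp, hq, hf⟩
    · exact Or.inl hf.q2
    · exact Or.inl (TD.zero.congr fun e he => by simp [opv, hf e he, Code.q2])
    · exact Or.inl (hq.congr fun e he => by simp [opv, hf e he, Code.q2])
  | el => exact Or.inl (SysB1_el H hf h)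
  | eqv => exact Or.inl (SysB1_eqv H hf h)
  | dif =>
    have h1 : PD F b0 Yb fun e => El F (e 0) (f fun i => e (i + 1)) ∧
        ¬ cl F (e 0) ∈ cl F (g fun i => e (i + 1)) :=
      (SysB1_el0 H (TD.var 0) (SysB1_shift H hf 1)).and
        (SysB1_mem H (Or.inl (TD.var 0)) (SysB1_shift H h 1)).not
    refine Or.inl ((TD.least H h1).congr fun e he => ?_)
    rw [opv_dif]
    exact least_congr fun w => ⟨fun h2 => h2.2, fun h2 => ⟨SysB1_el_in H hf he h2.1, h2⟩⟩
  | mat =>
    have h1 : PD F b0 Yb fun e => El F (e 0) (g fun i => e (i + 1)) ∧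
        cl F (e 0) = cl F (f fun i => e (i + 1)) :=
      (SysB1_el0 H (TD.var 0) (SysB1_shift H h 1)).and
        (SysB1_eqv H (Or.inl (TD.var 0)) (SysB1_shift H hf 1))
    refine Or.inl ((TD.least H h1).congr fun e he => ?_)
    rw [opv_mat]
    exact least_congr fun w => ⟨fun h2 => h2.2, fun h2 => ⟨SysB1_el_in H h he h2.1, h2⟩⟩

end

theorem SysB1_top {y : Code.{u}} (hy : y.In (b0 + 1)) (h : ¬ y.In b0) : y.lv = b0 := by
  have h1 := hy.lv_lt
  rw [← Order.succ_eq_add_one, Order.lt_succ_iff] at h1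
  exact le_antisymm h1 (not_lt.1 fun h2 => h (hy.of_lv h2))

theorem SysB1_dec (F : FSys.{u}) (b0 : Ordinal.{u}) (Yb : Set Code.{u}) (n k : ℕ) :
    ∃ f, SysB1_XD F b0 Yb f ∧ ∀ (y : Code.{u}) (e : CE.{u}), y.In (b0 + 1) → Dc b0 1 y = od n →
      e k = Dc b0 0 y → e (k + 2) = Dc b0 2 y → e (k + 3) = Dc b0 3 y → f e = y := by
  have key : ∀ y : Code.{u}, y.In (b0 + 1) → Dc b0 1 y = od n →
      (y.In b0 ∧ n = 0) ∨ (y = od b0 ∧ n = 1) ∨ ∃ t p q, y = st b0 t p q ∧ n = t.num + 2 := by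
    intro y hy h
    by_cases h0 : y.In b0
    · left
      refine ⟨h0, ?_⟩
      simp only [Dc, h0, if_true, one_ne_zero, if_false, od.injEq] at h
      exact_mod_cast h.symm
    · have h1 := SysB1_top hy h0
      simp only [Dc, h0, if_true, one_ne_zero, if_false] at h
      cases y with
      | od a =>
        right; left
        simp only [Code.typ, od.injEq] at h
        exact ⟨congrArg od h1, by exact_mod_cast h.symm⟩
      | st a t p q =>
        right; right
        simp only [Code.typ, od.injEq] at h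
        have h2 : a = b0 := h1
        exact ⟨t, p, q, by rw [h2], by exact_mod_cast h.symm⟩
  by_cases h0 : n = 0
  · refine ⟨fun e => e k, Or.inl (TD.var k), fun y e hy h h1 _ _ => ?_⟩
    rcases key y hy h with h2 | h2 | ⟨t, p, q, -, h2⟩
    · simp [h1, Dc, h2.1]
    · omega
    · omega
  by_cases h1 : n = 1
  · refine ⟨fun _ => od b0, Or.inr (Or.inl fun _ _ => rfl), fun y e hy h _ _ _ => ?_⟩
    rcases key y hy h with h2 | h2 | ⟨t, p, q, -, h2⟩
    · omega
    · exact h2.1.symm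
    · omega
  by_cases h2 : ∃ t : Trm, n = t.num + 2
  · obtain ⟨t, ht⟩ := h2
    refine ⟨fun e => st b0 t (e (k + 2)) (e (k + 3)),
      Or.inr (Or.inr ⟨t, _, _, TD.var (k + 2), TD.var (k + 3), fun _ _ => rfl⟩),
      fun y e hy h _ h3 h4 => ?_⟩
    rcases key y hy h with h2 | h2 | ⟨t', p, q, rfl, h2⟩
    · omega
    · omega
    · have h5 : t = t' := Trm.num_inj (by omega)
      simp [h3, h4, h5, Dc, Code.q1, Code.q2]
  · refine ⟨fun _ => od 0, Or.inl TD.zero, fun y e hy h _ _ _ => ?_⟩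
    rcases key y hy h with h3 | h3 | ⟨t', p, q, -, h3⟩
    · omega
    · omega
    · exact absurd ⟨t', h3⟩ h2

/-- On the piece where the components `1` of the entries `0` and `1` are `n0` and `n1`, the
components of the value of an operation are definable at level `b0` from the components. -/
theorem op_components (H : TH b0 Yb) (hn : ∀ n : ℕ, od n ∈ Yb) (o : Op) (n0 n1 j : ℕ) :
    ∃ g, TD F b0 Yb g ∧ ∀ x, InE x (b0 + 1) → Dc b0 1 (x 0) = od n0 → Dc b0 1 (x 1) = od n1 →
      Dc b0 j (opv (El F) o (x 0) (x 1)) = g (DD b0 x) := by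
  obtain ⟨f0, hf0, h0⟩ := SysB1_dec F b0 Yb n0 0
  obtain ⟨f1, hf1, h1⟩ := SysB1_dec F b0 Yb n1 4
  refine ⟨_, SysB1_Dc H hn (SysB1_op H hn o hf0 hf1) j, fun x hx hx0 hx1 => ?_⟩
  rw [h0 (x 0) (DD b0 x) (hx 0) hx0 rfl rfl rfl, h1 (x 1) (DD b0 x) (hx 1) hx1 rfl rfl rfl]

end Pool.Agent.P.MP_833f7a_lc
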