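import Mathlib.Data.List.GetD
import Pool.Agent.P.MP_833f7a_lc.Stretch
import Pool.Agent.P.MP_833f7a_lc.Push
import Pool.Agent.P.MP_833f7a_lc.RedC

/-!
Of two good theories of one class, one reduces to the other.
-/

universe u v w

namespace Pool.Agent.P.MP_833f7a_lc

open Cardinal Ordinal Set Code Nm

variable {c : Cls.{u}} {κ : Ordinal.{u}} {T T' : Set (Nm.{u} Ordinal.{u})}

theorem Thin_up {R R' : Str.{u} Ordinal.{u}} (h : Can c κ R) (h' : Can c κ R')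
    (hle : R.β ≤ R'.β) {μ : Ordinal.{u}} (hμ : R.Up μ) : R'.Up μ := by
  rcases hμ with ⟨h1, h2⟩ | ⟨h1, h2, h3⟩
  · exact Or.inl ⟨by rw [h1, h.mu, h'.mu], h2.trans_le hle⟩
  · refine Or.inr ⟨by rwa [h'.mu, ← h.mu], h2.trans_le hle, ?_⟩
    rwa [h'.F, ← h.F]

/-- Blocks for all families at once. -/
theorem Thin_blocks {R R' : Str.{u} Ordinal.{u}} (h : Can c κ R) (h' : Can c κ R')
    (K : Finset Ordinal.{u}) {m : ℕ} (hm : K.card < m) :
    ∃ σ : Ordinal.{u} → I2 → Ordinal.{u}, ∀ μ, R'.Up μ → StrictMono (σ μ) ∧ (∀ p, σ μ p < μ) ∧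
      0 ∈ range (σ μ) ∧ (∀ η ∈ range (σ μ), η + 1 ∈ range (σ μ)) ∧
      (∀ η ∈ K, η < μ → η ∈ range (σ μ)) ∧
      (R.Up μ → ∀ n, ∃ η' < μ, R'.e μ (σ μ (toLex (m + n, 0))) = R.e μ η') := by
  have key : ∀ μ, ∃ s : I2 → Ordinal.{u}, R'.Up μ → StrictMono s ∧ (∀ p, s p < μ) ∧
      0 ∈ range s ∧ (∀ η ∈ range s, η + 1 ∈ range s) ∧ (∀ η ∈ K, η < μ → η ∈ range s) ∧
      (R.Up μ → ∀ n, ∃ η' < μ, R'.e μ (s (toLex (m + n, 0))) = R.e μ η') := by
    intro μ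
    by_cases hμ : R'.Up μ
    · obtain ⟨r1, -, r2⟩ := h'.club μ hμ
      have hD : Unb {η | R.Up μ → ∃ η' < μ, R'.e μ η = R.e μ η'} μ := by
        by_cases h0 : R.Up μ
        · intro δ hδ
          obtain ⟨η, a1, a2⟩ := club_meet r1 r2 (h.club μ h0).2.2 δ hδ
          exact ⟨η, fun _ => a1, a2⟩
        · exact fun δ hδ => ⟨δ, fun h1 => absurd h1 h0, le_rfl, hδ⟩
      obtain ⟨s, s1, s2, s3, s4, s5, s6⟩ := exists_blocks r1 K hm hD
      refine ⟨s, fun _ => ⟨s1, s2, ⟨_, s3⟩, ?_, s5, fun h0 n => s6 n h0⟩⟩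
      rintro _ ⟨p, rfl⟩
      exact ⟨_, s4 (ofLex p).1 (ofLex p).2⟩
    · exact ⟨fun _ => 0, fun h1 => absurd h1 hμ⟩
  choose σ hσ using key
  exact ⟨σ, hσ⟩

/-- Names in the larger stretch for the height and the parameters of the smaller one. -/
theorem Thin_names {R R' : Str.{u} Ordinal.{u}} (hR : IsStretch c κ T R)
    (hR' : IsStretch c κ T' R') (hle : R.β ≤ R'.β) :
    ∃ (a : Option ℕ → Nm.{u} Ordinal.{u}) (K : Finset Ordinal.{u}),
      (∀ o, AdmS c κ R' (a o)) ∧ (R.β < R'.β → R'.den (a none) 0 = od R.β) ∧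
      (∀ i, R'.den (a (some i)) 0 = R.pv i) ∧ (a none).idx ⊆ K ∧
      ∀ i < c.r, (a (some i)).idx ⊆ K := by
  classical
  have h0 : ∃ ν, AdmS c κ R' ν ∧ (R.β < R'.β → R'.den ν 0 = od R.β) := by
    by_cases h : R.β < R'.β
    · obtain ⟨ν, h1, h2⟩ := hR'.onto (od R.β) h
      exact ⟨ν, h1, fun _ => h2⟩
    · obtain ⟨ν, h1, -⟩ := hR'.onto (R'.pv 0) (hR'.can.pin 0)
      exact ⟨ν, h1, fun h2 => absurd h2 h⟩
  obtain ⟨n0, a1, a2⟩ := h0
  choose n b1 b2 using fun i => hR'.onto (R.pv i) ((hR.can.pin i).mono hle)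
  refine ⟨fun o => o.elim n0 n, n0.idx_finite.toFinset ∪
    (Finset.range c.r).biUnion fun i => (n i).idx_finite.toFinset, ?_, a2, b2, ?_, ?_⟩
  · rintro (_ | i)
    exacts [a1, b1 i]
  · intro x hx
    exact Finset.mem_coe.2 (Finset.mem_union_left _ ((Finite.mem_toFinset _).2 hx))
  · intro i hi x hx
    exact Finset.mem_coe.2 (Finset.mem_union_right _ (Finset.mem_biUnion.2
      ⟨i, Finset.mem_range.2 hi, (Finite.mem_toFinset _).2 hx⟩))

theorem thin_of_le (hv : c.Valid κ) (hT : Good c κ T) (hT' : Good c κ T')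
    {R R' : Str.{u} Ordinal.{u}} (hR : IsStretch c κ T R) (hR' : IsStretch c κ T' R')
    (hle : R.β ≤ R'.β) : ∃ d : RedD.{u}, d.Valid c κ ∧
      ∀ ν : Nm.{u} ℕ, OkK c κ ν → (ν ∈ Ext T ↔ Red c κ d (Ext T') ν) := by
  obtain ⟨a, K, a1, a2, a3, a4, a5⟩ := Thin_names hR hR' hle
  obtain ⟨σ, hσ⟩ := Thin_blocks hR.can hR'.can K (Nat.lt_succ_self _)
  have hup : ∀ μ, R.Up μ → R'.Up μ := fun μ => Thin_up hR.can hR'.can hle
  have ht : ∀ μ (n : ℕ), ∃ η', R.Up μ →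
      η' < μ ∧ R'.e μ (σ μ (toLex (K.card.succ + n, 0))) = R.e μ η' := by
    intro μ n
    by_cases h : R.Up μ
    · obtain ⟨η', h1⟩ := (hσ μ (hup μ h)).2.2.2.2.2 h n
      exact ⟨η', fun _ => h1⟩
    · exact ⟨0, fun h1 => absurd h1 h⟩
  choose τ hτ using ht
  have τ1 : ∀ μ, R.Up μ → StrictMono (τ μ) ∧ ∀ i, τ μ i < μ := by
    intro μ h
    refine ⟨fun i j hij => ?_, fun i => (hτ μ i h).1⟩
    obtain ⟨s1, s2, -⟩ := hσ μ (hup μ h)
    have e1 := (hR'.can.club μ (hup μ h)).2.2.1 (s2 _) (s2 _)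
      (s1 (a := toLex (K.card.succ + i, 0)) (b := toLex (K.card.succ + j, 0))
        (Prod.Lex.left _ _ (by omega)))
    rw [(hτ μ i h).2, (hτ μ j h).2] at e1
    exact ((hR.can.club μ h).2.2.1.lt_iff_lt (hτ μ i h).1 (hτ μ j h).1).1 e1
  have σ1 : ∀ μ, R'.Up μ → StrictMono (σ μ) ∧ ∀ i, σ μ i < μ :=
    fun μ h => ⟨(hσ μ h).1, (hσ μ h).2.1⟩
  have pull : ∀ ν, AdmS c κ R' ν → ν.idx ⊆ K →
      ∃ n : Nm.{u} I2, OkK c κ n ∧ (R'.reidx σ).den n = R'.den ν := fun ν h1 h2 =>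
    exists_pull hR'.can h1.1 fun i g hg μ hμ hd =>
      (hσ μ hμ).2.2.2.2.1 i (h2 ⟨g, hg⟩) ((h1.2 i g hg).1 μ hμ hd)
  obtain ⟨nb, nb1, nb2⟩ := pull _ (a1 none) a4
  choose np np1 np2 using fun i : Fin c.r => pull _ (a1 (some i)) (a5 i i.2)
  have ho : (ω : Ordinal.{u}) < κ := reg_omega1.omega_lt.trans (hv.1.trans_lt hv.2.1)
  have hκ : 0 < κ := omega0_pos.trans ho
  have tr2 : ∀ n : Nm.{u} I2, OkK c κ n → (n ∈ Ext T' ↔ (R'.reidx σ).Tr n) :=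
    fun n hn => push_tr hv hT' hR' σ1 hn
  have in2 : ∀ n : Nm.{u} I2, OkK c κ n → InE ((R'.reidx σ).den n) R'.β :=
    fun n hn => hR'.can.den_in hv (fun μ h => (σ1 μ h).2) hn
  have hval : RedD.Valid ⟨R.β < R'.β, K.card.succ, nb, List.ofFn np⟩ c κ := by
    refine ⟨nb1, fun n hn => ?_⟩
    obtain ⟨i, rfl⟩ := (List.mem_ofFn' _ _).1 hn
    exact np1 i
  have H : RedHyp c κ ⟨R.β < R'.β, K.card.succ, nb, List.ofFn np⟩ (Ext T') (R.reidx τ)
      (R'.reidx σ) :=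
    { pos := hκ
      valid := hval
      F := hR.can.F.trans hR'.can.F.symm
      fs := hR'.can.fs
      om := ho.le.trans hR.can.le
      le := hle
      strict := Iff.rfl
      nb := fun h => (congrFun nb2 0).trans (a2 h)
      np := fun i => by
        show (R'.reidx σ).den ((List.ofFn np).getD i (cst 0)) 0 = R.pv i
        rcases lt_or_ge i c.r with hi | hi
        · rw [List.getD_eq_getElem _ _ (by simpa using hi), List.getElem_ofFn, np2]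
          exact a3 i
        · rw [List.getD_eq_default _ _ (by simpa using hi), hR.can.pz i hi]
          exact congrArg od (hR'.can.cv 0 hκ)
      mu := hR.can.mu.trans hR'.can.mu.symm
      cv := fun ξ h => (hR.can.cv ξ h).trans (hR'.can.cv ξ h).symm
      cv0 := hR'.can.cv 0 hκ
      hb1 := hR.can.hb
      hb2 := hR'.can.hb
      p0 := hR'.can.p0
      e := fun μ h j => (hτ μ j h).2.symm
      in1 := fun ν hν => hR.can.den_in hv (fun μ h => (τ1 μ h).2) hν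
      in2 := in2
      tr := tr2
      short := fun n hn z hz hd => by
        have hb : R'.μ0 < R'.β := hz.1.trans hz.2.1
        have h1 : (R'.reidx σ).Tr (uN n) :=
          (tr_uN (R := R'.reidx σ) hR'.can.fs (hR'.can.p0 hb) (in2 n hn 0)).2 ⟨z, hd, hz⟩
        have h2 : OkK c κ (uN n) := by simpa using hn
        obtain ⟨g, g1, g2, g3⟩ := hT'.ext_short hv.2.1.le (hR'.can.hb.2 hb) ((tr2 _ h2).2 h1)
        refine ⟨g, g1, g2, ?_⟩
        exact (tr_eqN.1 ((tr2 _ (hT'.ext_ok g3)).1 g3)).trans hd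
      elem := fun ψ hψ n hn x hx h => push_elem hv hT' hR'
        (fun μ hμ => ⟨(hσ μ hμ).1, (hσ μ hμ).2.1, (hσ μ hμ).2.2.1, (hσ μ hμ).2.2.2.1⟩) hψ hn hx h }
  exact ⟨_, hval, fun ν hν => (push_tr hv hT hR τ1 hν).trans (H.red hν)⟩

theorem thin_pair (hv : c.Valid κ) (hT : Good c κ T) (hT' : Good c κ T') :
    ∃ d : RedD.{u}, d.Valid c κ ∧
      ((∀ ν : Nm.{u} ℕ, OkK c κ ν → (ν ∈ Ext T ↔ Red c κ d (Ext T') ν)) ∨
        ∀ ν : Nm.{u} ℕ, OkK c κ ν → (ν ∈ Ext T' ↔ Red c κ d (Ext T) ν)) := by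
  obtain ⟨R, hR⟩ := exists_stretch hv hT
  obtain ⟨R', hR'⟩ := exists_stretch hv hT'
  rcases le_total R.β R'.β with h | h
  · obtain ⟨d, h1, h2⟩ := thin_of_le hv hT hT' hR hR' h
    exact ⟨d, h1, Or.inl h2⟩
  · obtain ⟨d, h1, h2⟩ := thin_of_le hv hT' hT hR' hR h
    exact ⟨d, h1, Or.inr h2⟩

end Pool.Agent.P.MP_833f7a_lc
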